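import Pool.Agent.FT.Objs

/-! # Module Adv (friend tree, MP_5ccad8_pr) -/

open Finset MeasureTheory Filter Topology

namespace FT

variable {F G : St × Finset W → ℝ} {x : St × Finset W} {j : ℕ}

lemma adv_aux_inh_union (θ : ℕ → Bool) (S : St) (v : W) (A B : Finset W) :
    inhT θ S v (A ∪ B) = inhT θ S v A ∪ inhT θ S v B := by
  ext w
  unfold inhT
  by_cases hθ : θ (S.L v) = true
  · by_cases hA : v ∈ A
    · by_cases hB : v ∈ B
      · simp [hA, hB, hθ]
      · simp [hA, hB, hθ]
    · by_cases hB : v ∈ B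
      · simp only [mem_union, hA, hB, hθ, or_true, and_self, if_true, false_and, if_false,
          mem_insert]
        tauto
      · simp [hA, hB]
  · simp [hθ]

lemma adv_aux_inhA_union (S : St) (v : W) (A B : Finset W) :
    inhA S v (A ∪ B) = inhA S v A ∪ inhA S v B := adv_aux_inh_union _ S v A B

lemma adv_aux_eq (j : ℕ) (F : St × Finset W → ℝ) (x : St × Finset W) :
    AA j F x = (1 - (∑ v ∈ x.1.V, ((x.1.L v : ℝ) + x.1.κ v + x.1.L v / x.1.d v + x.1.h v / 2)) / j)
        * F x
      + ∑ v ∈ x.1.V, (((x.1.L v : ℝ) + x.1.κ v) / j * F (x.1.arr v, x.2)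
          + ((x.1.L v : ℝ) / x.1.d v) / j * F (x.1.bir v, inhA x.1 v x.2)
          + ((x.1.h v : ℝ) / 2) / j * max (F (x.1.arr v, x.2)) (F x)) := by
  unfold AA gen adv
  rw [← sum_add_distrib]
  have : ∀ v, ((x.1.L v : ℝ) + x.1.κ v) * (F (x.1.arr v, x.2) - F x)
    + ((x.1.L v : ℝ) / x.1.d v) * (F (x.1.bir v, inhA x.1 v x.2) - F x)
    + ((x.1.h v : ℝ) / 2) * max (F (x.1.arr v, x.2) - F x) 0
    = (((x.1.L v : ℝ) + x.1.κ v) * F (x.1.arr v, x.2)
        + ((x.1.L v : ℝ) / x.1.d v) * F (x.1.bir v, inhA x.1 v x.2)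
        + ((x.1.h v : ℝ) / 2) * max (F (x.1.arr v, x.2)) (F x))
      - ((x.1.L v : ℝ) + x.1.κ v + x.1.L v / x.1.d v + x.1.h v / 2) * F x := by
    intro v
    have hm : max (F (x.1.arr v, x.2) - F x) 0 = max (F (x.1.arr v, x.2)) (F x) - F x := by
      rw [← max_sub_sub_right, sub_self]
    rw [hm]; ring
  simp_rw [this]
  rw [sum_sub_distrib, ← sum_mul, mul_sub, mul_sum]
  have h2 : ∀ v, 1 / (j : ℝ) * (((x.1.L v : ℝ) + x.1.κ v) * F (x.1.arr v, x.2)
        + ((x.1.L v : ℝ) / x.1.d v) * F (x.1.bir v, inhA x.1 v x.2)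
        + ((x.1.h v : ℝ) / 2) * max (F (x.1.arr v, x.2)) (F x))
      = ((x.1.L v : ℝ) + x.1.κ v) / j * F (x.1.arr v, x.2)
          + ((x.1.L v : ℝ) / x.1.d v) / j * F (x.1.bir v, inhA x.1 v x.2)
          + ((x.1.h v : ℝ) / 2) / j * max (F (x.1.arr v, x.2)) (F x) := by intro v; ring
  simp_rw [h2]
  ring

lemma adv_aux_coeff (hj : 0 < j) (hs : x.1.size ≤ j) :
    0 ≤ 1 - (∑ v ∈ x.1.V, ((x.1.L v : ℝ) + x.1.κ v + x.1.L v / x.1.d v + x.1.h v / 2)) / j := by
  have hj' : (0 : ℝ) < j := by exact_mod_cast hj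
  rw [sub_nonneg, div_le_one hj']
  exact x.1.total_rate_h.trans (by exact_mod_cast hs)

lemma adv_aux_adv_nonneg (F : St × Finset W → ℝ) (x : St × Finset W) : 0 ≤ adv F x := by
  unfold adv
  apply sum_nonneg
  intro v _
  exact mul_nonneg (by positivity) (le_max_right _ _)

lemma AA_mono (hx : Sub x) (hj : 0 < j) (hs : x.1.size ≤ j)
    (h : ∀ y : St × Finset W, Sub y → y.1.size ≤ x.1.size + 1 → F y ≤ G y) :
    AA j F x ≤ AA j G x := by
  have hI := closed_sub (fun _ => true)
  rw [adv_aux_eq, adv_aux_eq]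
  have hj' : (0 : ℝ) < j := by exact_mod_cast hj
  have hxx := h x hx (Nat.le_succ _)
  apply add_le_add
  · exact mul_le_mul_of_nonneg_left hxx (adv_aux_coeff hj hs)
  · apply sum_le_sum
    intro v hv
    have harr := h _ (hI.arr x hx v hv) (by simp [St.arr_size hv])
    have h1 := rate_arr_nonneg x.1 v
    have h2 := rate_bir_nonneg x.1 v
    apply add_le_add
    · apply add_le_add
      · exact mul_le_mul_of_nonneg_left harr (by positivity)
      · by_cases hL : 0 < x.1.L v
        · exact mul_le_mul_of_nonneg_left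
            (h _ (hI.bir x hx v hv hL) (by simp [St.bir_size hv hL])) (by positivity)
        · have : x.1.L v = 0 := by omega
          simp [this]
    · exact mul_le_mul_of_nonneg_left (max_le_max harr hxx) (by positivity)

lemma Gh_nonneg (m : ℕ) (hx : Sub x) (hj : 0 < j) (hs : x.1.size ≤ j) : 0 ≤ Gh m j x := by
  induction m generalizing x j with
  | zero => simp [Gh, card]
  | succ m ih =>
    have h1 : AA j (fun _ => (0 : ℝ)) x ≤ AA j (Gh m (j + 1)) x :=
      AA_mono hx hj hs fun y hy hys => ih hy (by omega) (by omega)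
    have h2 : AA j (fun _ => (0 : ℝ)) x = 0 := by
      unfold AA adv
      rw [gen_const]
      simp
    rw [h2] at h1
    exact h1

lemma Gh_subadd (m : ℕ) {S : St} {A B : Finset W} (hA : A ⊆ S.V) (hB : B ⊆ S.V) (hj : 0 < j)
    (hs : S.size ≤ j) : Gh m j (S, A ∪ B) ≤ Gh m j (S, A) + Gh m j (S, B) := by
  induction m generalizing j S A B with
  | zero =>
    simp only [Gh, card]
    exact_mod_cast card_union_le A B
  | succ m ih =>
    show AA j (Gh m (j + 1)) (S, A ∪ B) ≤ AA j (Gh m (j + 1)) (S, A) + AA j (Gh m (j + 1)) (S, B)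
    rw [adv_aux_eq, adv_aux_eq, adv_aux_eq]
    have hj' : (0 : ℝ) < j := by exact_mod_cast hj
    have hI := closed_sub (fun _ => true)
    have hc := adv_aux_coeff (x := (S, A)) hj hs
    have h0 := ih hA hB (Nat.succ_pos j) (by omega : S.size ≤ j + 1)
    simp only at hc ⊢
    set c := 1 - (∑ v ∈ S.V, ((S.L v : ℝ) + S.κ v + S.L v / S.d v + S.h v / 2)) / j
    have key : ∑ v ∈ S.V, (((S.L v : ℝ) + S.κ v) / j * Gh m (j + 1) (S.arr v, A ∪ B)
          + ((S.L v : ℝ) / S.d v) / j * Gh m (j + 1) (S.bir v, inhA S v (A ∪ B))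
          + ((S.h v : ℝ) / 2) / j
            * max (Gh m (j + 1) (S.arr v, A ∪ B)) (Gh m (j + 1) (S, A ∪ B)))
        ≤ ∑ v ∈ S.V, (((S.L v : ℝ) + S.κ v) / j * Gh m (j + 1) (S.arr v, A)
          + ((S.L v : ℝ) / S.d v) / j * Gh m (j + 1) (S.bir v, inhA S v A)
          + ((S.h v : ℝ) / 2) / j * max (Gh m (j + 1) (S.arr v, A)) (Gh m (j + 1) (S, A)))
        + ∑ v ∈ S.V, (((S.L v : ℝ) + S.κ v) / j * Gh m (j + 1) (S.arr v, B)
          + ((S.L v : ℝ) / S.d v) / j * Gh m (j + 1) (S.bir v, inhA S v B)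
          + ((S.h v : ℝ) / 2) / j * max (Gh m (j + 1) (S.arr v, B)) (Gh m (j + 1) (S, B))) := by
      rw [← sum_add_distrib]
      apply sum_le_sum
      intro v hv
      have h1 := rate_arr_nonneg S v
      have h2 := rate_bir_nonneg S v
      have harr : Gh m (j + 1) (S.arr v, A ∪ B) ≤ Gh m (j + 1) (S.arr v, A)
          + Gh m (j + 1) (S.arr v, B) :=
        ih (by simpa using hA) (by simpa using hB) (Nat.succ_pos j)
          (by rw [St.arr_size hv]; omega)
      have t1 : ((S.L v : ℝ) + S.κ v) / j * Gh m (j + 1) (S.arr v, A ∪ B)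
          ≤ ((S.L v : ℝ) + S.κ v) / j * Gh m (j + 1) (S.arr v, A)
            + ((S.L v : ℝ) + S.κ v) / j * Gh m (j + 1) (S.arr v, B) := by
        rw [← mul_add]; exact mul_le_mul_of_nonneg_left harr (by positivity)
      have t2 : ((S.L v : ℝ) / S.d v) / j * Gh m (j + 1) (S.bir v, inhA S v (A ∪ B))
          ≤ ((S.L v : ℝ) / S.d v) / j * Gh m (j + 1) (S.bir v, inhA S v A)
            + ((S.L v : ℝ) / S.d v) / j * Gh m (j + 1) (S.bir v, inhA S v B) := by
        by_cases hL : 0 < S.L v
        · have hb := ih (j := j + 1) (hI.bir (S, A) hA v hv hL) (hI.bir (S, B) hB v hv hL)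
            (Nat.succ_pos j) (by simp only [St.bir_size hv hL]; omega)
          rw [← mul_add, adv_aux_inhA_union]
          exact mul_le_mul_of_nonneg_left hb (by positivity)
        · have : S.L v = 0 := by omega
          simp [this]
      have t3 : ((S.h v : ℝ) / 2) / j
            * max (Gh m (j + 1) (S.arr v, A ∪ B)) (Gh m (j + 1) (S, A ∪ B))
          ≤ ((S.h v : ℝ) / 2) / j * max (Gh m (j + 1) (S.arr v, A)) (Gh m (j + 1) (S, A))
            + ((S.h v : ℝ) / 2) / j * max (Gh m (j + 1) (S.arr v, B)) (Gh m (j + 1) (S, B)) := by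
        rw [← mul_add]
        apply mul_le_mul_of_nonneg_left _ (by positivity)
        apply max_le
        · exact harr.trans (add_le_add (le_max_left _ _) (le_max_left _ _))
        · exact h0.trans (add_le_add (le_max_right _ _) (le_max_right _ _))
      linarith
    have key2 : c * Gh m (j + 1) (S, A ∪ B)
        ≤ c * Gh m (j + 1) (S, A) + c * Gh m (j + 1) (S, B) := by
      rw [← mul_add]; exact mul_le_mul_of_nonneg_left h0 hc
    linarith

lemma phi_le_Gh (m : ℕ) (hx : Sub x) (hj : 0 < j) (hs : x.1.size ≤ j) :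
    phi m j x ≤ Gh m j x := by
  induction m generalizing x j with
  | zero => exact le_refl _
  | succ m ih =>
    have h1 : AA j (phi m (j + 1)) x ≤ AA j (Gh m (j + 1)) x :=
      AA_mono hx hj hs fun y hy hys => ih hy (by omega) (by omega)
    have h2 : phi (m + 1) j x ≤ AA j (phi m (j + 1)) x := by
      show Aop inhA j (phi m (j + 1)) x ≤ _
      unfold Aop AA
      have hj' : (0 : ℝ) ≤ 1 / (j : ℝ) := by positivity
      have := mul_nonneg hj' (adv_aux_adv_nonneg (phi m (j + 1)) x)
      linarith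
    exact h2.trans h1

lemma Gh_step (m : ℕ) (hx : Sub x) (hj : 0 < j) (hs : x.1.size ≤ j) :
    0 ≤ gen inhA (Gh m (j + 1)) x + adv (Gh m (j + 1)) x := by
  induction m generalizing x j with
  | zero =>
    apply add_nonneg _ (adv_aux_adv_nonneg _ _)
    show 0 ≤ gen (inhT fun _ => true) card x
    rw [gen_card _ hx]
    apply sum_nonneg
    intro y _
    have := rate_bir_nonneg x.1 y
    simpa using this
  | succ m ih =>
    have hj' : (0 : ℝ) < j := by exact_mod_cast hj
    have h1 : ∀ y : St × Finset W, Sub y → y.1.size ≤ x.1.size + 1 →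
        Gh m (j + 1 + 1) y ≤ Gh (m + 1) (j + 1) y := by
      intro y hy hys
      have := ih (x := y) (j := j + 1) hy (Nat.succ_pos j) (by omega)
      show _ ≤ AA (j + 1) (Gh m (j + 1 + 1)) y
      unfold AA
      have h0 : (0 : ℝ) ≤ 1 / ((j + 1 : ℕ) : ℝ) := by positivity
      have := mul_nonneg h0 this
      linarith
    have h2 := AA_mono hx hj hs h1
    have h3 := ih (x := x) (j := j + 1) hx (Nat.succ_pos j) (by omega)
    have h4 : Gh (m + 1) (j + 1) x = AA (j + 1) (Gh m (j + 1 + 1)) x := rfl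
    have h5 : AA (j + 1) (Gh m (j + 1 + 1)) x ≤ AA j (Gh m (j + 1 + 1)) x := by
      unfold AA
      have h0 : 1 / ((j + 1 : ℕ) : ℝ) ≤ 1 / (j : ℝ) := by
        apply one_div_le_one_div_of_le hj'
        push_cast; linarith
      have := mul_le_mul_of_nonneg_right h0 h3
      linarith
    have h6 : Gh (m + 1) (j + 1) x ≤ AA j (Gh (m + 1) (j + 1)) x :=
      h4.le.trans (h5.trans h2)
    unfold AA at h6
    have h7 : 0 ≤ 1 / (j : ℝ) * (gen inhA (Gh (m + 1) (j + 1)) x + adv (Gh (m + 1) (j + 1)) x) := by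
      linarith
    exact nonneg_of_mul_nonneg_right h7 (by positivity)

lemma Gh_empty (m j : ℕ) (S : St) : Gh m j (S, ∅) = 0 := by
  induction m generalizing j S with
  | zero => simp [Gh, card]
  | succ m ih =>
    show AA j (Gh m (j + 1)) (S, ∅) = 0
    have hi : ∀ v, inhA S v ∅ = ∅ := by intro v; simp [inhT]
    unfold AA gen adv
    simp only [hi, ih, sub_self, max_self, mul_zero, add_zero, sum_const_zero]

lemma phi_add (m j : ℕ) {S : St} {A B : Finset W} (hA : A ⊆ S.V) (hB : B ⊆ S.V)
    (hAB : Disjoint A B) : phi m j (S, A ∪ B) = phi m j (S, A) + phi m j (S, B) := by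
  unfold phi
  induction m generalizing j S A B with
  | zero =>
    simp only [U_zero, card]
    rw [card_union_of_disjoint hAB]; push_cast; ring
  | succ m ih =>
    rw [U_succ, Aop_eq, Aop_eq, Aop_eq]
    simp only
    rw [ih (j + 1) hA hB hAB]
    have key : ∀ v ∈ S.V, (((S.L v : ℝ) + S.κ v) / j * U inhA m (j + 1) card (S.arr v, A ∪ B)
          + ((S.L v : ℝ) / S.d v) / j * U inhA m (j + 1) card (S.bir v, inhA S v (A ∪ B)))
        = (((S.L v : ℝ) + S.κ v) / j * U inhA m (j + 1) card (S.arr v, A)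
          + ((S.L v : ℝ) / S.d v) / j * U inhA m (j + 1) card (S.bir v, inhA S v A))
        + (((S.L v : ℝ) + S.κ v) / j * U inhA m (j + 1) card (S.arr v, B)
          + ((S.L v : ℝ) / S.d v) / j * U inhA m (j + 1) card (S.bir v, inhA S v B)) := by
      intro v hv
      rw [ih (j + 1) (by simpa using hA : A ⊆ (S.arr v).V) (by simpa using hB) hAB]
      by_cases hL : 0 < S.L v
      · have hI := closed_sub (fun _ => true)
        have hd : Disjoint (inhA S v A) (inhA S v B) := by
          have hnA : S.new v ∉ A := fun h => S.new_not_mem hv (hA h)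
          have hnB : S.new v ∉ B := fun h => S.new_not_mem hv (hB h)
          rw [Finset.disjoint_left] at hAB ⊢
          intro w hw hw'
          by_cases h1 : v ∈ A
          · have h2 : v ∉ B := hAB h1
            simp only [inhT, h1, h2, true_and, if_true, false_and, if_false, mem_insert] at hw hw'
            rcases hw with rfl | hw
            · exact hnB hw'
            · exact hAB hw hw'
          · by_cases h2 : v ∈ B
            · simp only [inhT, h1, h2, true_and, if_true, false_and, if_false, mem_insert] at hw hw'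
              rcases hw' with rfl | hw'
              · exact hnA hw
              · exact hAB hw hw'
            · simp only [inhT, h1, h2, false_and, if_false] at hw hw'
              exact hAB hw hw'
        rw [adv_aux_inhA_union, ih (j + 1) (hI.bir (S, A) hA v hv hL) (hI.bir (S, B) hB v hv hL) hd]
        ring
      · have : S.L v = 0 := by omega
        simp [this]
        ring
    have key' := (sum_congr rfl key).trans sum_add_distrib
    linear_combination key'

end FT
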