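import Pool.Agent.FT.Objs

/-! # Module Rho (friend tree, MP_5ccad8_pr) -/

open Finset MeasureTheory Filter Topology

namespace FT

lemma rho_aux_Dh_small {L : ℕ} (h : L ≤ 3) : Dh L = 1 := by
  unfold Dh Jf
  interval_cases L <;> norm_num

lemma rho_aux_Dh_large {L : ℕ} (h : 4 ≤ L) : Dh L = 85 / (24 * (L : ℝ)) := by
  unfold Dh Jf
  have hL : (4 : ℝ) ≤ L := by exact_mod_cast h
  rw [if_neg (by omega)]
  have e : (5 / 3 : ℝ) * (17 / (8 * (L : ℝ))) = 85 / (24 * (L : ℝ)) := by
    field_simp; norm_num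
  rw [e]
  apply min_eq_right
  rw [div_le_one (by positivity)]
  linarith

/-- the table (thousandths), rows `s`, columns `L` -/
def rho_aux_tab (s L : ℕ) : ℕ :=
  (([[],
    [0,934,1000,951,863,762,678,622,585,560,542,530],
    [565,813,868,845,784,706,640,595,566,545,531],
    [563,728,774,767,724,663,609,573,549,533],
    [546,665,706,707,676,628,584,554,535],
    [526,619,654,659,637,598,562,537],
    [507,581,612,619,604,572,541],
    [487,548,576,584,573,547],
    [468,519,543,551,544],
    [453,497,519,527],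
    [452,492,513],
    [464,500],
    [486]] : List (List ℕ)).getD s []).getD L 0

noncomputable def rho_aux (L s : ℕ) : ℝ :=
  if L + s ≤ 12 then (rho_aux_tab s L : ℝ) / 1000 else (99 / 10) / ((L : ℝ) + s + 6)

lemma rho_aux_small {L s : ℕ} (h : L + s ≤ 12) : rho_aux L s = (rho_aux_tab s L : ℝ) / 1000 := by
  unfold rho_aux; rw [if_pos h]

lemma rho_aux_large {L s : ℕ} (h : 13 ≤ L + s) :
    rho_aux L s = (99 / 10) / ((L : ℝ) + s + 6) := by
  unfold rho_aux; rw [if_neg (by omega)]

theorem exists_rho : ∃ ρ : ℕ → ℕ → ℝ, (∀ L s, 0 ≤ ρ L s) ∧ ρ 1 1 ≤ 19 / 20 ∧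
    ∀ L s : ℕ, 1 ≤ s → 2 ≤ L + s → ∀ κ : ℝ, 0 ≤ κ → κ ≤ s / 2 →
      ((L : ℝ) + κ) * (ρ (L + 1) s - ρ L s)
        + ((L : ℝ) / ((L : ℝ) + s)) * (Dh (L - 1) + ρ (L - 1) (s + 1) - ρ L s)
        ≤ (9 / 20) * ρ L s := by
  refine ⟨rho_aux, ?_, ?_, ?_⟩
  · intro L s
    unfold rho_aux
    split_ifs <;> positivity
  · rw [rho_aux_small (by norm_num)]
    norm_num [rho_aux_tab]
  · intro L s hs h2 κ h0 hκ
    rcases Nat.lt_or_ge (L + s) 13 with hd | hd
    · have hs' : s ≤ 12 := by omega
      have hL' : L ≤ 11 := by omega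
      interval_cases s <;> interval_cases L <;> first
        | (exfalso; omega)
        | (norm_num [rho_aux, rho_aux_tab, rho_aux_Dh_small, rho_aux_Dh_large] at hκ ⊢
           linarith)
    · have hdR : (13 : ℝ) ≤ (L : ℝ) + s := by exact_mod_cast hd
      rw [rho_aux_large hd, rho_aux_large (show 13 ≤ L + 1 + s by omega)]
      rcases Nat.eq_zero_or_pos L with h | h
      · subst h
        simp only [Nat.cast_zero, zero_add, zero_div, zero_mul, add_zero, Nat.cast_one]
        simp only [Nat.cast_zero, zero_add] at hdR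
        have h3 : (99 / 10 : ℝ) / (1 + (s : ℝ) + 6) ≤ (99 / 10) / ((s : ℝ) + 6) := by
          apply div_le_div_of_nonneg_left (by norm_num) (by positivity) (by linarith)
        have h4 : (0 : ℝ) ≤ (99 / 10) / ((s : ℝ) + 6) := by positivity
        nlinarith [mul_nonneg h0 (sub_nonneg.2 h3)]
      · have e1 : rho_aux (L - 1) (s + 1) = (99 / 10) / ((L : ℝ) + s + 6) := by
          rw [rho_aux_large (by omega)]
          congr 2
          have : ((L - 1 : ℕ) : ℝ) = (L : ℝ) - 1 := by
            rw [Nat.cast_sub h]; simp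
          rw [this]; push_cast; ring
        rw [e1]
        set d : ℝ := (L : ℝ) + s with hd'
        have e2 : ((L + 1 : ℕ) : ℝ) + s + 6 = d + 7 := by rw [hd']; push_cast; ring
        rw [e2]
        have e3 : (99 / 10 : ℝ) / (d + 7) - (99 / 10) / (d + 6)
            = -((99 / 10) / ((d + 6) * (d + 7))) := by
          field_simp; ring
        rw [e3]
        have hdp : 0 < d := by linarith
        -- bound for `L * Dh (L-1)`
        have key : (L : ℝ) / d * Dh (L - 1) ≤
            (9 / 20) * ((99 / 10) / (d + 6)) + (L : ℝ) * ((99 / 10) / ((d + 6) * (d + 7))) := by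
          have hL1 : (1 : ℝ) ≤ L := by exact_mod_cast h
          have e4 : (9 / 20 : ℝ) * ((99 / 10) / (d + 6))
              + (L : ℝ) * ((99 / 10) / ((d + 6) * (d + 7)))
              = ((9 / 20) * (99 / 10) * (d + 7) + (99 / 10) * L) / ((d + 6) * (d + 7)) := by
            field_simp
          rw [e4, div_mul_eq_mul_div, div_le_div_iff₀ hdp (by positivity)]
          rcases Nat.lt_or_ge L 5 with h5 | h5
          · rw [rho_aux_Dh_small (by omega), mul_one]
            have hL4 : (L : ℝ) ≤ 4 := by exact_mod_cast (by omega : L ≤ 4)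
            nlinarith [mul_nonneg (sub_nonneg.2 hdR) (sub_nonneg.2 hL4),
              mul_nonneg (sub_nonneg.2 hdR) (sub_nonneg.2 hL1), sq_nonneg (d - 13),
              mul_nonneg (mul_nonneg (sub_nonneg.2 hdR) (sub_nonneg.2 hdR)) (sub_nonneg.2 hL4)]
          · rw [rho_aux_Dh_large (by omega)]
            have hL5 : (5 : ℝ) ≤ L := by exact_mod_cast h5
            have e5 : ((L - 1 : ℕ) : ℝ) = (L : ℝ) - 1 := by
              rw [Nat.cast_sub h]; simp
            rw [e5]
            have h6 : (L : ℝ) * (85 / (24 * ((L : ℝ) - 1))) ≤ 425 / 96 := by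
              rw [mul_div_assoc', div_le_div_iff₀ (by linarith) (by norm_num)]
              nlinarith
            have h7 : (L : ℝ) * (85 / (24 * ((L : ℝ) - 1))) * ((d + 6) * (d + 7)) ≤
                425 / 96 * ((d + 6) * (d + 7)) :=
              mul_le_mul_of_nonneg_right h6 (by positivity)
            refine h7.trans ?_
            nlinarith [mul_nonneg (sub_nonneg.2 hdR) (sub_nonneg.2 hL5), sq_nonneg (d - 13)]
        have h8 : 0 ≤ κ * ((99 / 10) / ((d + 6) * (d + 7))) := by positivity
        have e6 : Dh (L - 1) + (99 / 10) / (d + 6) - (99 / 10) / (d + 6) = Dh (L - 1) := by ring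
        rw [e6]
        nlinarith
end FT
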