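import Pool.Agent.FT.Objs

/-! # Module Shift (friend tree, MP_5ccad8_pr) -/

open Finset MeasureTheory Filter Topology

namespace FT

/-- `S'` is `S` with all labels shifted by `u` -/
structure ShiftSim (u : W) (S S' : St) : Prop where
  V : S'.V = S.V.image (· ++ u)
  L : ∀ v ∈ S.V, S'.L (v ++ u) = S.L v
  s : ∀ v ∈ S.V, S'.s (v ++ u) = S.s v

lemma shift_adj (a b u : W) : adj (a ++ u) (b ++ u) ↔ adj a b := by
  rw [adj_iff, adj_iff]
  simp only [← List.cons_append, List.append_left_inj]

lemma shift_inj (u : W) : Function.Injective (fun v : W => v ++ u) := fun a b h => by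
  simpa using h

namespace ShiftSim

variable {u : W} {S S' : St} {v w : W}

lemma mem (h : ShiftSim u S S') (hv : v ∈ S.V) : v ++ u ∈ S'.V := by
  rw [h.V]; exact mem_image_of_mem _ hv

lemma nb (h : ShiftSim u S S') (v : W) : S'.nb (v ++ u) = (S.nb v).image (· ++ u) := by
  ext w
  simp only [St.mem_nb, mem_image, h.V]
  constructor
  · rintro ⟨⟨a, ha, rfl⟩, hadj⟩
    exact ⟨a, ⟨ha, (shift_adj _ _ _).1 hadj⟩, rfl⟩
  · rintro ⟨a, ⟨ha, hadj⟩, rfl⟩
    exact ⟨⟨a, ha, rfl⟩, (shift_adj _ _ _).2 hadj⟩

lemma d (h : ShiftSim u S S') (hv : v ∈ S.V) : S'.d (v ++ u) = S.d v := by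
  unfold St.d; rw [h.L v hv, h.s v hv]

lemma κ (h : ShiftSim u S S') (v : W) : S'.κ (v ++ u) = S.κ v := by
  unfold St.κ
  rw [h.nb v, sum_image (fun a _ b _ hab => shift_inj u hab)]
  apply sum_congr rfl
  intro w hw
  rw [h.d (S.mem_nb.1 hw).1]

lemma new (h : ShiftSim u S S') (hv : v ∈ S.V) : S'.new (v ++ u) = S.new v ++ u := by
  unfold St.new; rw [h.s v hv, List.cons_append]

lemma arr (h : ShiftSim u S S') (hv : v ∈ S.V) : ShiftSim u (S.arr v) (S'.arr (v ++ u)) where
  V := by rw [St.arr_V, St.arr_V, h.V]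
  L := fun w hw => by
    rw [St.arr_V] at hw
    by_cases e : w = v
    · subst e
      rw [St.arr_L_self (h.mem hv), St.arr_L_self hv, h.L w hv]
    · rw [St.arr_L_ne (fun h' => e (shift_inj u h')), St.arr_L_ne e, h.L w hw]
  s := fun w hw => by
    rw [St.arr_V] at hw
    rw [St.arr_s, St.arr_s, h.s w hw]

lemma bir (h : ShiftSim u S S') (hv : v ∈ S.V) (hL : 0 < S.L v) :
    ShiftSim u (S.bir v) (S'.bir (v ++ u)) := by
  have hv' := h.mem hv
  have hL' : 0 < S'.L (v ++ u) := by rw [h.L v hv]; exact hL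
  have hn := h.new hv
  refine ⟨?_, ?_, ?_⟩
  · rw [St.bir_V hv' hL', St.bir_V hv hL, image_insert, hn, h.V]
  · intro w hw
    rw [St.bir_V hv hL, mem_insert] at hw
    rcases hw with rfl | hw
    · rw [← hn, St.bir_L_new hv' hL', St.bir_L_new hv hL]
    · have h1 : w ≠ S.new v := by rintro rfl; exact S.new_not_mem hv hw
      have h1' : w ++ u ≠ S'.new (v ++ u) := by rw [hn]; exact fun h' => h1 (shift_inj u h')
      by_cases e : w = v
      · subst e
        rw [St.bir_L_self hv' hL', St.bir_L_self hv hL, h.L w hv]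
      · rw [St.bir_L_ne hv' hL' (fun h' => e (shift_inj u h')) h1', St.bir_L_ne hv hL e h1,
          h.L w hw]
  · intro w hw
    rw [St.bir_V hv hL, mem_insert] at hw
    rcases hw with rfl | hw
    · rw [← hn, St.bir_s_new hv' hL', St.bir_s_new hv hL]
    · have h1 : w ≠ S.new v := by rintro rfl; exact S.new_not_mem hv hw
      have h1' : w ++ u ≠ S'.new (v ++ u) := by rw [hn]; exact fun h' => h1 (shift_inj u h')
      by_cases e : w = v
      · subst e
        rw [St.bir_s_self hv' hL', St.bir_s_self hv hL, h.s w hv]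
      · rw [St.bir_s_ne hv' hL' (fun h' => e (shift_inj u h')) h1', St.bir_s_ne hv hL e h1,
          h.s w hw]

lemma U_eq (m : ℕ) : ∀ (j : ℕ) {S S' : St}, ShiftSim u S S' →
    U inhU m j XU (S', ()) = U inhU m j XU (S, ()) := by
  induction m with
  | zero =>
    intro j S S' h
    simp only [U_zero, XU]
    rw [h.V, card_image_of_injective _ (shift_inj u)]
  | succ m ih =>
    intro j S S' h
    rw [U_succ]
    unfold Aop
    rw [ih (j + 1) h]
    congr 2
    unfold gen
    rw [show ((S', ()) : St × Unit).1.V = S'.V from rfl, h.V,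
      sum_image (fun a _ b _ hab => shift_inj u hab)]
    apply sum_congr rfl
    intro v hv
    have e1 := ih (j + 1) (h.arr hv)
    simp only [h.L v hv, h.κ v, h.d hv, ih (j + 1) h, e1]
    congr 1
    by_cases hL : 0 < S.L v
    · have e2 := ih (j + 1) (h.bir hv hL)
      congr 1
      rw [show U inhU m (j + 1) XU (S'.bir (v ++ u), inhU S' (v ++ u) ())
        = U inhU m (j + 1) XU (S.bir v, inhU S v ()) from e2]
    · have h0 : S.L v = 0 := by omega
      simp [h0]

end ShiftSim

theorem res_seed (m j : ℕ) (S : St) (c : W) (hc : c ∈ S.V) (hL : S.L c = 1) (hs : S.s c = 1) :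
    U inhU m j XU (S.res {c}, ()) = mm m j := by
  have hsim : ShiftSim c seed (S.res {c}) := by
    refine ⟨?_, ?_, ?_⟩
    · rw [St.res_V, show seed.V = ({[]} : Finset W) from rfl, image_singleton, List.nil_append]
      exact inter_eq_right.2 (singleton_subset_iff.2 hc)
    · intro v hv
      rw [show seed.V = ({[]} : Finset W) from rfl, mem_singleton] at hv
      subst hv
      rw [List.nil_append, St.res_L S hc (mem_singleton_self c), hL]
      simp [seed]
    · intro v hv
      rw [show seed.V = ({[]} : Finset W) from rfl, mem_singleton] at hv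
      subst hv
      rw [List.nil_append, St.res_s S hc (mem_singleton_self c), hs]
      simp [seed]
  exact hsim.U_eq m j

end FT
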