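import Pool.Agent.FT.Pot
import Pool.Agent.FT.Rho
import Pool.Agent.FT.Adv
import Pool.Agent.FT.Shift

/-! # Module Closure (friend tree, MP_5ccad8_pr) -/

open Finset

namespace FT

namespace Clo

/-! ### the majorant `KK` -/

lemma KK_succ_ge (m j : ℕ) : (1 + (9 / 20) / (j : ℝ)) * KK m (j + 1) ≤ KK (m + 1) j := le_max_right _ _

end Clo

lemma mm_le_KK (m j : ℕ) : mm m j ≤ KK m j := by
  cases m with
  | zero => simp [mm, KK, U_zero, XU, seed]
  | succ m => exact le_max_left _ _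

lemma one_le_KK (m j : ℕ) : 1 ≤ KK m j := by
  induction m generalizing j with
  | zero => exact le_refl _
  | succ m ih =>
    refine le_trans ?_ (Clo.KK_succ_ge m j)
    have h := ih (j + 1)
    have h2 : (0 : ℝ) ≤ (9 / 20) / (j : ℝ) := by positivity
    nlinarith

namespace Clo

/-! ### replacing the value at the base point -/

lemma AA_le_base {F : St × Finset W → ℝ} {x : St × Finset W} {j : ℕ} (hj : 0 < j)
    (hs : x.1.size ≤ j) {f0 : ℝ} (h0 : F x ≤ f0) :
    AA j F x ≤ f0 + (1 / (j : ℝ)) * ∑ v ∈ x.1.V,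
      (((x.1.L v : ℝ) + x.1.κ v) * (F (x.1.arr v, x.2) - f0)
        + ((x.1.L v : ℝ) / x.1.d v) * (F (x.1.bir v, inhA x.1 v x.2) - f0)
        + ((x.1.h v : ℝ) / 2) * max (F (x.1.arr v, x.2) - f0) 0) := by
  have hj' : (0 : ℝ) < j := by exact_mod_cast hj
  set t := f0 - F x with ht
  have ht0 : 0 ≤ t := by linarith
  have hR := x.1.total_rate_h
  have hRj : ∑ v ∈ x.1.V, ((x.1.L v : ℝ) + x.1.κ v + x.1.L v / x.1.d v + x.1.h v / 2) ≤ j :=
    hR.trans (by exact_mod_cast hs)
  unfold AA gen adv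
  rw [← sum_add_distrib]
  have key : ∑ v ∈ x.1.V, (((x.1.L v : ℝ) + x.1.κ v) * (F (x.1.arr v, x.2) - F x)
        + ((x.1.L v : ℝ) / x.1.d v) * (F (x.1.bir v, inhA x.1 v x.2) - F x)
        + ((x.1.h v : ℝ) / 2) * max (F (x.1.arr v, x.2) - F x) 0)
      ≤ ∑ v ∈ x.1.V, (((x.1.L v : ℝ) + x.1.κ v) * (F (x.1.arr v, x.2) - f0)
        + ((x.1.L v : ℝ) / x.1.d v) * (F (x.1.bir v, inhA x.1 v x.2) - f0)
        + ((x.1.h v : ℝ) / 2) * max (F (x.1.arr v, x.2) - f0) 0)
        + (∑ v ∈ x.1.V, ((x.1.L v : ℝ) + x.1.κ v + x.1.L v / x.1.d v + x.1.h v / 2)) * t := by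
    rw [sum_mul, ← sum_add_distrib]
    apply sum_le_sum
    intro v _
    have hmax : max (F (x.1.arr v, x.2) - F x) 0 ≤ max (F (x.1.arr v, x.2) - f0) 0 + t := by
      apply max_le
      · have := le_max_left (F (x.1.arr v, x.2) - f0) 0
        rw [ht]; linarith
      · have := le_max_right (F (x.1.arr v, x.2) - f0) 0
        linarith
    have hh : (0 : ℝ) ≤ (x.1.h v : ℝ) / 2 := by positivity
    have h5 := mul_le_mul_of_nonneg_left hmax hh
    rw [mul_add] at h5
    have e2 : ((x.1.L v : ℝ) + x.1.κ v) * (F (x.1.arr v, x.2) - F x)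
        = ((x.1.L v : ℝ) + x.1.κ v) * (F (x.1.arr v, x.2) - f0)
          + ((x.1.L v : ℝ) + x.1.κ v) * t := by rw [ht]; ring
    have e3 : ((x.1.L v : ℝ) / x.1.d v) * (F (x.1.bir v, inhA x.1 v x.2) - F x)
        = ((x.1.L v : ℝ) / x.1.d v) * (F (x.1.bir v, inhA x.1 v x.2) - f0)
          + ((x.1.L v : ℝ) / x.1.d v) * t := by rw [ht]; ring
    rw [e2, e3]
    linarith
  have h2 : (∑ v ∈ x.1.V, ((x.1.L v : ℝ) + x.1.κ v + x.1.L v / x.1.d v + x.1.h v / 2)) * t
      ≤ j * t := mul_le_mul_of_nonneg_right hRj ht0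
  have h3 := mul_le_mul_of_nonneg_left (key.trans (add_le_add_right h2 _))
    (by positivity : (0 : ℝ) ≤ 1 / (j : ℝ))
  have h4 : 1 / (j : ℝ) * ((j : ℝ) * t) = t := by field_simp
  rw [mul_add, h4] at h3
  have e1 : F x = f0 - t := by rw [ht]; ring
  linarith

lemma base_le_Aop {F : St × Finset W → ℝ} {x : St × Finset W} {j : ℕ} (hj : 0 < j)
    (hs : x.1.n ≤ j) {f0 : ℝ} (h0 : f0 ≤ F x) :
    f0 + (1 / (j : ℝ)) * ∑ v ∈ x.1.V,
      (((x.1.L v : ℝ) + x.1.κ v) * (F (x.1.arr v, x.2) - f0)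
        + ((x.1.L v : ℝ) / x.1.d v) * (F (x.1.bir v, inhA x.1 v x.2) - f0)) ≤ Aop inhA j F x := by
  have hj' : (0 : ℝ) < j := by exact_mod_cast hj
  set t := F x - f0 with ht
  have ht0 : 0 ≤ t := by linarith
  have hRj : ∑ v ∈ x.1.V, ((x.1.L v : ℝ) + x.1.κ v + x.1.L v / x.1.d v) ≤ j :=
    x.1.total_rate.trans (by exact_mod_cast hs)
  unfold Aop gen
  have key : ∑ v ∈ x.1.V, (((x.1.L v : ℝ) + x.1.κ v) * (F (x.1.arr v, x.2) - f0)
        + ((x.1.L v : ℝ) / x.1.d v) * (F (x.1.bir v, inhA x.1 v x.2) - f0))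
      = ∑ v ∈ x.1.V, (((x.1.L v : ℝ) + x.1.κ v) * (F (x.1.arr v, x.2) - F x)
        + ((x.1.L v : ℝ) / x.1.d v) * (F (x.1.bir v, inhA x.1 v x.2) - F x))
        + (∑ v ∈ x.1.V, ((x.1.L v : ℝ) + x.1.κ v + x.1.L v / x.1.d v)) * t := by
    rw [sum_mul, ← sum_add_distrib]
    apply sum_congr rfl
    intro v _
    rw [ht]; ring
  have h2 : (∑ v ∈ x.1.V, ((x.1.L v : ℝ) + x.1.κ v + x.1.L v / x.1.d v)) * t
      ≤ j * t := mul_le_mul_of_nonneg_right hRj ht0
  rw [key, mul_add]
  have h3 := mul_le_mul_of_nonneg_left h2 (by positivity : (0 : ℝ) ≤ 1 / (j : ℝ))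
  have h4 : 1 / (j : ℝ) * ((j : ℝ) * t) = t := by field_simp
  rw [h4] at h3
  have e1 : F x = f0 + t := by rw [ht]; ring
  linarith

/-! ### lineage of one vertex -/

lemma lin_step (m j s0 : ℕ) (b b' : ℕ → ℕ → ℝ) (c : ℕ → ℝ)
    (hb : ∀ (S : St) (y : W), y ∈ S.V → s0 ≤ S.s y → S.size ≤ j + 1 →
      Gh m (j + 1) (S, {y}) ≤ b (S.L y) (S.s y))
    (hc : ∀ (S : St) (y : W), y ∈ S.V → s0 ≤ S.s y → 0 < S.L y → S.size ≤ j →
      Gh m (j + 1) (S.bir y, {S.new y}) ≤ c (S.L y))
    (hstep : ∀ L s : ℕ, s0 ≤ s → 2 ≤ L + s → ∀ κ : ℝ, 0 ≤ κ → κ ≤ s / 2 →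
      b L s + (1 / (j : ℝ)) * (((L : ℝ) + κ) * (b (L + 1) s - b L s)
        + ((L : ℝ) / ((L : ℝ) + s)) * (c L + b (L - 1) (s + 1) - b L s)) ≤ b' L s)
    (hj : 0 < j) (S : St) (y : W) (hy : y ∈ S.V) (hs0 : s0 ≤ S.s y) (hs : S.size ≤ j) :
    Gh (m + 1) j (S, {y}) ≤ b' (S.L y) (S.s y) := by
  set b0 := b (S.L y) (S.s y) with hb0
  set F := Gh m (j + 1) with hF
  have hbase : F (S, {y}) ≤ b0 := hb S y hy hs0 (by omega)
  have hmain := AA_le_base (F := F) (x := (S, {y})) hj hs hbase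
  have e : Gh (m + 1) j (S, {y}) = AA j F (S, {y}) := rfl
  rw [e]
  refine hmain.trans ?_
  -- choose the effective rate
  set b1 := b (S.L y + 1) (S.s y) with hb1
  obtain ⟨κ', hκ0, hκs, hκle⟩ : ∃ κ' : ℝ, 0 ≤ κ' ∧ κ' ≤ (S.s y : ℝ) / 2 ∧
      S.κ y * (b1 - b0) + (S.h y : ℝ) / 2 * max (b1 - b0) 0 ≤ κ' * (b1 - b0) := by
    by_cases hpos : 0 ≤ b1 - b0
    · refine ⟨S.κ y + (S.h y : ℝ) / 2, ?_, St.κ_add_h hy, ?_⟩
      · have := S.κ_nonneg y; positivity
      · rw [max_eq_left hpos]; ring_nf; exact le_refl _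
    · refine ⟨S.κ y, S.κ_nonneg y, St.κ_le_s hy, ?_⟩
      rw [max_eq_right (by linarith)]; simp
  refine le_trans ?_ (hstep (S.L y) (S.s y) hs0 (S.two_le y hy) κ' hκ0 hκs)
  have hsum : ∑ v ∈ S.V, (((S.L v : ℝ) + S.κ v) * (F (S.arr v, {y}) - b0)
        + ((S.L v : ℝ) / S.d v) * (F (S.bir v, inhA S v {y}) - b0)
        + ((S.h v : ℝ) / 2) * max (F (S.arr v, {y}) - b0) 0)
      ≤ ((S.L y : ℝ) + κ') * (b1 - b0)
        + ((S.L y : ℝ) / S.d y) * (c (S.L y) + b (S.L y - 1) (S.s y + 1) - b0) := by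
    rw [← add_sum_erase _ _ hy]
    have hrest : ∑ v ∈ S.V.erase y, (((S.L v : ℝ) + S.κ v) * (F (S.arr v, {y}) - b0)
        + ((S.L v : ℝ) / S.d v) * (F (S.bir v, inhA S v {y}) - b0)
        + ((S.h v : ℝ) / 2) * max (F (S.arr v, {y}) - b0) 0) ≤ 0 := by
      apply sum_nonpos
      intro v hv
      have hvy := ne_of_mem_erase hv
      have hvV := mem_of_mem_erase hv
      have h1 : F (S.arr v, {y}) ≤ b0 := by
        have := hb (S.arr v) y (by simpa using hy) (by simpa using hs0)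
          (by rw [St.arr_size hvV]; omega)
        rwa [St.arr_L_ne hvy.symm, St.arr_s] at this
      have h2 : ((S.L v : ℝ) / S.d v) * (F (S.bir v, inhA S v {y}) - b0) ≤ 0 := by
        by_cases hL : 0 < S.L v
        · have hi : inhA S v {y} = {y} := by simp [inhT, hvy]
          have hn : y ≠ S.new v := by rintro rfl; exact S.new_not_mem hvV hy
          have := hb (S.bir v) y (St.mem_bir hvV hL hy)
            (by rw [St.bir_s_ne hvV hL hvy.symm hn]; exact hs0)
            (by rw [St.bir_size hvV hL]; omega)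
          rw [St.bir_L_ne hvV hL hvy.symm hn, St.bir_s_ne hvV hL hvy.symm hn] at this
          rw [hi]
          exact mul_nonpos_of_nonneg_of_nonpos (rate_bir_nonneg S v) (by linarith)
        · have : S.L v = 0 := by omega
          simp [this]
      have h3 : ((S.L v : ℝ) + S.κ v) * (F (S.arr v, {y}) - b0) ≤ 0 :=
        mul_nonpos_of_nonneg_of_nonpos (rate_arr_nonneg S v) (by linarith)
      rw [max_eq_right (by linarith)]
      linarith
    have hyterm : ((S.L y : ℝ) + S.κ y) * (F (S.arr y, {y}) - b0)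
        + ((S.L y : ℝ) / S.d y) * (F (S.bir y, inhA S y {y}) - b0)
        + ((S.h y : ℝ) / 2) * max (F (S.arr y, {y}) - b0) 0
        ≤ ((S.L y : ℝ) + κ') * (b1 - b0)
        + ((S.L y : ℝ) / S.d y) * (c (S.L y) + b (S.L y - 1) (S.s y + 1) - b0) := by
      have h1 : F (S.arr y, {y}) ≤ b1 := by
        have := hb (S.arr y) y (by simpa using hy) (by simpa using hs0)
          (by rw [St.arr_size hy]; omega)
        rwa [St.arr_L_self hy, St.arr_s] at this
      have h2 : ((S.L y : ℝ) / S.d y) * (F (S.bir y, inhA S y {y}) - b0)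
          ≤ ((S.L y : ℝ) / S.d y) * (c (S.L y) + b (S.L y - 1) (S.s y + 1) - b0) := by
        by_cases hL : 0 < S.L y
        · apply mul_le_mul_of_nonneg_left _ (rate_bir_nonneg S y)
          have hi : inhA S y {y} = {y} ∪ {S.new y} := by
            show (if y ∈ ({y} : Finset W) ∧ true = true then insert (S.new y) {y} else {y}) = _
            rw [if_pos ⟨mem_singleton_self _, rfl⟩]
            ext z; simp only [mem_insert, mem_singleton, mem_union]; tauto
          have h3 := Gh_subadd (j := j + 1) m (S := S.bir y) (A := {y}) (B := {S.new y})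
            (singleton_subset_iff.2 (St.mem_bir hy hL hy))
            (singleton_subset_iff.2 (St.new_mem_bir hy hL)) (by omega)
            (by rw [St.bir_size hy hL]; omega)
          have h4 := hb (S.bir y) y (St.mem_bir hy hL hy)
            (by rw [St.bir_s_self hy hL]; omega) (by rw [St.bir_size hy hL]; omega)
          rw [St.bir_L_self hy hL, St.bir_s_self hy hL] at h4
          have h5 := hc S y hy hs0 hL hs
          rw [hi]
          linarith
        · have : S.L y = 0 := by omega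
          simp [this]
      have h3 : ((S.L y : ℝ) + S.κ y) * (F (S.arr y, {y}) - b0)
          ≤ ((S.L y : ℝ) + S.κ y) * (b1 - b0) :=
        mul_le_mul_of_nonneg_left (by linarith) (rate_arr_nonneg S y)
      have h4 : ((S.h y : ℝ) / 2) * max (F (S.arr y, {y}) - b0) 0
          ≤ ((S.h y : ℝ) / 2) * max (b1 - b0) 0 := by
        apply mul_le_mul_of_nonneg_left _ (by positivity)
        exact max_le_max (by linarith) (le_refl _)
      linarith
    linarith
  rw [show S.d y = (S.L y : ℝ) + S.s y from rfl] at hsum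
  have := mul_le_mul_of_nonneg_left hsum (by positivity : (0 : ℝ) ≤ 1 / (j : ℝ))
  linarith

/-! ### regions cut off by one edge -/

structure Reg (S : St) (R : Finset W) (c x : W) : Prop where
  hR : R ⊆ S.V
  hc : c ∈ R
  hx : x ∈ S.V
  hxR : x ∉ R
  hcx : adj c x
  cut : ∀ a ∈ R, ∀ b ∈ S.V, b ∉ R → adj a b → a = c ∧ b = x
  full : ∀ v ∈ R, S.h v = 0
  spos : ∀ v ∈ R, 1 ≤ S.s v

variable {S : St} {R : Finset W} {c x v : W}

lemma Reg.arr (h : Reg S R c x) (v : W) : Reg (S.arr v) R c x where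
  hR := by simpa using h.hR
  hc := h.hc
  hx := by simpa using h.hx
  hxR := h.hxR
  hcx := h.hcx
  cut := by simpa using h.cut
  full := by simpa using h.full
  spos := by simpa using h.spos

lemma Reg.bir_mem (h : Reg S R c x) (hv : v ∈ R) (hL : 0 < S.L v) :
    Reg (S.bir v) (insert (S.new v) R) c x := by
  have hvV := h.hR hv
  refine ⟨?_, mem_insert_of_mem h.hc, St.mem_bir hvV hL h.hx, ?_, h.hcx, ?_, ?_, ?_⟩
  · rw [St.bir_V hvV hL]; exact insert_subset_insert _ h.hR
  · intro hmem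
    rcases mem_insert.1 hmem with e | e
    · exact S.new_not_mem hvV (e ▸ h.hx)
    · exact h.hxR e
  · intro a ha b hb hbR hab
    rw [St.bir_V hvV hL] at hb
    rw [mem_insert, not_or] at hbR
    have hbV := (mem_insert.1 hb).resolve_left hbR.1
    rcases mem_insert.1 ha with e | e
    · exfalso
      subst e
      by_cases hbv : b = v
      · exact hbR.2 (hbv ▸ hv)
      · exact S.not_adj_new hvV hbV hbv (adj_symm hab)
    · exact h.cut a e b hbV hbR.2 hab
  · intro a ha
    rcases mem_insert.1 ha with e | e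
    · rw [e]; exact St.bir_h_new hvV hL
    · rw [St.bir_h_mem hvV hL (h.hR e)]; exact h.full a e
  · intro a ha
    rcases mem_insert.1 ha with e | e
    · rw [e, St.bir_s_new hvV hL]
    · by_cases hav : a = v
      · rw [hav, St.bir_s_self hvV hL]; omega
      · rw [St.bir_s_ne hvV hL hav (by rintro rfl; exact S.new_not_mem hvV (h.hR e))]
        exact h.spos a e

lemma Reg.bir_not (h : Reg S R c x) (hv : v ∈ S.V) (hvR : v ∉ R) (hL : 0 < S.L v) :
    Reg (S.bir v) R c x := by
  refine ⟨?_, h.hc, St.mem_bir hv hL h.hx, h.hxR, h.hcx, ?_, ?_, ?_⟩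
  · exact fun a ha => St.mem_bir hv hL (h.hR ha)
  · intro a ha b hb hbR hab
    rw [St.bir_V hv hL] at hb
    rcases mem_insert.1 hb with e | e
    · exfalso
      subst e
      exact S.not_adj_new hv (h.hR ha) (by rintro rfl; exact hvR ha) hab
    · exact h.cut a ha b e hbR hab
  · intro a ha
    rw [St.bir_h_mem hv hL (h.hR ha)]; exact h.full a ha
  · intro a ha
    rw [St.bir_s_ne hv hL (by rintro rfl; exact hvR ha)
      (by rintro rfl; exact S.new_not_mem hv (h.hR ha))]
    exact h.spos a ha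

lemma Reg.newborn {S : St} {y : W} (hy : y ∈ S.V) (hL : 0 < S.L y) :
    Reg (S.bir y) {S.new y} (S.new y) y := by
  refine ⟨singleton_subset_iff.2 (St.new_mem_bir hy hL), mem_singleton_self _,
    St.mem_bir hy hL hy, ?_, adj_symm (adj_cons _ _), ?_, ?_, ?_⟩
  · rw [mem_singleton]; exact (S.new_ne y).symm
  · intro a ha b hb hbR hab
    rw [mem_singleton] at ha hbR
    subst ha
    refine ⟨rfl, ?_⟩
    rw [St.bir_V hy hL] at hb
    have hbV := (mem_insert.1 hb).resolve_left hbR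
    by_contra hne
    exact S.not_adj_new hy hbV hne (adj_symm hab)
  · intro v hv
    rw [mem_singleton] at hv; subst hv; exact St.bir_h_new hy hL
  · intro v hv
    rw [mem_singleton] at hv; subst hv; rw [St.bir_s_new hy hL]

lemma Reg.res_V (h : Reg S R c x) : (S.res R).V = R := by
  rw [St.res_V]; exact inter_eq_right.2 h.hR

lemma Reg.nb_sdiff (h : Reg S R c x) (hv : v ∈ R) :
    S.nb v \ R = if v = c then {x} else ∅ := by
  ext b
  rw [mem_sdiff, St.mem_nb]
  split_ifs with e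
  · rw [mem_singleton]
    constructor
    · rintro ⟨⟨hb, hab⟩, hbR⟩; exact (h.cut v hv b hb hbR hab).2
    · rintro rfl; exact ⟨⟨h.hx, e ▸ h.hcx⟩, h.hxR⟩
  · simp only [notMem_empty, iff_false]
    rintro ⟨⟨hb, hab⟩, hbR⟩
    exact e (h.cut v hv b hb hbR hab).1

lemma Reg.κ_res (h : Reg S R c x) (hv : v ∈ R) :
    S.κ v = (S.res R).κ v + if v = c then 1 / S.d x else 0 := by
  have h1 : S.nb v = (S.nb v ∩ R) ∪ (S.nb v \ R) := by
    rw [union_comm]; exact (sdiff_union_inter _ _).symm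
  have h2 : Disjoint (S.nb v ∩ R) (S.nb v \ R) := (disjoint_sdiff_inter _ _).symm
  unfold St.κ
  rw [St.res_nb]
  have h3 : ∑ w ∈ S.nb v ∩ R, 1 / (S.res R).d w = ∑ w ∈ S.nb v ∩ R, 1 / S.d w := by
    apply sum_congr rfl
    intro w hw
    rw [mem_inter, St.mem_nb] at hw
    rw [St.res_d S hw.1.1 hw.2]
  rw [h3]
  conv_lhs => rw [h1]
  rw [sum_union h2, h.nb_sdiff hv]
  split_ifs <;> simp

lemma Reg.h_res (h : Reg S R c x) (hv : v ∈ R) :
    (S.res R).h v = if v = c then 1 else 0 := by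
  have hvV := h.hR hv
  have h1 : (S.nb v).card = (S.nb v ∩ R).card + (S.nb v \ R).card := by
    rw [add_comm]; exact (card_sdiff_add_card_inter _ _).symm
  have h2 : S.deg v = S.s v := by
    have := St.deg_add_h hvV; rw [h.full v hv] at this; omega
  unfold St.deg at h2
  unfold St.h St.deg
  rw [St.res_s S hvV hv, St.res_nb]
  rw [h.nb_sdiff hv] at h1
  split_ifs at h1 ⊢ with e
  · rw [card_singleton] at h1; omega
  · rw [card_empty] at h1; omega

lemma Reg.size_res (h : Reg S R c x) : (S.res R).size ≤ S.size := by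
  unfold St.size
  rw [h.res_V]
  have h1 : ∑ v ∈ R, ((S.res R).L v + 1 + (S.res R).h v)
      = ∑ v ∈ R, (S.L v + 1) + 1 := by
    rw [sum_add_distrib]
    congr 1
    · apply sum_congr rfl
      intro v hv
      rw [St.res_L S (h.hR hv) hv]
    · rw [sum_congr rfl (fun v hv => h.h_res hv), sum_ite_eq' R c, if_pos h.hc]
  rw [h1, ← sum_sdiff h.hR, add_comm (∑ v ∈ S.V \ R, _)]
  apply Nat.add_le_add
  · apply sum_le_sum; intro v hv; omega
  · have hx : x ∈ S.V \ R := mem_sdiff.2 ⟨h.hx, h.hxR⟩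
    calc 1 ≤ S.L x + 1 + S.h x := by omega
      _ ≤ _ := single_le_sum (f := fun v => S.L v + 1 + S.h v) (fun _ _ => Nat.zero_le _) hx

/-! ### the potential of a region -/

noncomputable def Y (S : St) (R : Finset W) : ℝ := ∑ v ∈ R, bet (S.L v) (S.s v)

lemma Y_nonneg (hR : R ⊆ S.V) : 0 ≤ Y S R := by
  apply sum_nonneg
  intro v hv
  have := bet_lower (S.two_le v (hR hv))
  linarith

lemma card_le_Y (hR : R ⊆ S.V) : (R.card : ℝ) ≤ (3 / 4) * Y S R := by
  unfold Y
  rw [mul_sum, card_eq_sum_ones]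
  push_cast
  apply sum_le_sum
  intro v hv
  have := bet_lower (S.two_le v (hR hv))
  linarith

lemma Y_arr_mem (hR : R ⊆ S.V) (hv : v ∈ R) :
    Y (S.arr v) R = Y S R + (bet (S.L v + 1) (S.s v) - bet (S.L v) (S.s v)) := by
  unfold Y
  rw [← add_sum_erase _ _ hv, ← add_sum_erase _ (fun v => bet (S.L v) (S.s v)) hv,
    St.arr_L_self (hR hv), St.arr_s]
  have : ∑ w ∈ R.erase v, bet ((S.arr v).L w) ((S.arr v).s w)
      = ∑ w ∈ R.erase v, bet (S.L w) (S.s w) := by
    apply sum_congr rfl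
    intro w hw
    rw [St.arr_L_ne (ne_of_mem_erase hw), St.arr_s]
  rw [this]; ring

lemma Y_arr_not (hv : v ∉ R) : Y (S.arr v) R = Y S R := by
  unfold Y
  apply sum_congr rfl
  intro w hw
  rw [St.arr_L_ne (by rintro rfl; exact hv hw), St.arr_s]

lemma Y_bir_mem (hR : R ⊆ S.V) (hv : v ∈ R) (hL : 0 < S.L v) :
    Y (S.bir v) (insert (S.new v) R) = Y S R
      + (5 / 3 + bet (S.L v - 1) (S.s v + 1) - bet (S.L v) (S.s v)) := by
  have hvV := hR hv
  unfold Y
  rw [sum_insert (fun h => S.new_not_mem hvV (hR h)), St.bir_L_new hvV hL, St.bir_s_new hvV hL,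
    bet_one, ← add_sum_erase _ _ hv, ← add_sum_erase _ (fun v => bet (S.L v) (S.s v)) hv,
    St.bir_L_self hvV hL, St.bir_s_self hvV hL]
  have : ∑ w ∈ R.erase v, bet ((S.bir v).L w) ((S.bir v).s w)
      = ∑ w ∈ R.erase v, bet (S.L w) (S.s w) := by
    apply sum_congr rfl
    intro w hw
    have hn : w ≠ S.new v := by
      rintro rfl; exact S.new_not_mem hvV (hR (mem_of_mem_erase hw))
    rw [St.bir_L_ne hvV hL (ne_of_mem_erase hw) hn, St.bir_s_ne hvV hL (ne_of_mem_erase hw) hn]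
  rw [this]; ring

lemma Y_bir_not (hR : R ⊆ S.V) (hvV : v ∈ S.V) (hv : v ∉ R) (hL : 0 < S.L v) :
    Y (S.bir v) R = Y S R := by
  unfold Y
  apply sum_congr rfl
  intro w hw
  have hn : w ≠ S.new v := by rintro rfl; exact S.new_not_mem hvV (hR hw)
  rw [St.bir_L_ne hvV hL (by rintro rfl; exact hv hw) hn,
    St.bir_s_ne hvV hL (by rintro rfl; exact hv hw) hn]

lemma Reg.Y_res (h : Reg S R c x) : Y (S.res R) R = Y S R := by
  unfold Y
  apply sum_congr rfl
  intro w hw
  rw [St.res_L S (h.hR hw) hw, St.res_s S (h.hR hw) hw]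

/-- drift of the potential of a region, without the arrivals across the cut edge -/
lemma Reg.Y_drift (h : Reg S R c x) :
    ∑ v ∈ R, (((S.L v : ℝ) + (S.res R).κ v) * (Y (S.arr v) R - Y S R)
      + ((S.L v : ℝ) / S.d v) * (Y (S.bir v) (insert (S.new v) R) - Y S R))
      ≤ (3 / 4) * Y S R - (1 / S.d x) * (Y (S.arr c) R - Y S R) := by
  have h1 : ∑ v ∈ R, (((S.L v : ℝ) + S.κ v) * (bet (S.L v + 1) (S.s v) - bet (S.L v) (S.s v))
      + ((S.L v : ℝ) / S.d v) * (5 / 3 + bet (S.L v - 1) (S.s v + 1) - bet (S.L v) (S.s v)))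
      ≤ (3 / 4) * Y S R := by
    unfold Y
    rw [mul_sum]
    apply sum_le_sum
    intro v hv
    exact bet_ineq2 (S.two_le v (h.hR hv)) (h.spos v hv) (S.κ_nonneg v) (St.κ_le_s (h.hR hv))
  have h2 : ∑ v ∈ R, (((S.L v : ℝ) + (S.res R).κ v) * (Y (S.arr v) R - Y S R)
      + ((S.L v : ℝ) / S.d v) * (Y (S.bir v) (insert (S.new v) R) - Y S R))
      = ∑ v ∈ R, (((S.L v : ℝ) + S.κ v) * (bet (S.L v + 1) (S.s v) - bet (S.L v) (S.s v))
      + ((S.L v : ℝ) / S.d v) * (5 / 3 + bet (S.L v - 1) (S.s v + 1) - bet (S.L v) (S.s v)))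
      - ∑ v ∈ R, (if v = c then (1 / S.d x) * (Y (S.arr v) R - Y S R) else 0) := by
    rw [← sum_sub_distrib]
    apply sum_congr rfl
    intro v hv
    have hk := h.κ_res hv
    have e1 : Y (S.arr v) R - Y S R = bet (S.L v + 1) (S.s v) - bet (S.L v) (S.s v) := by
      rw [Y_arr_mem h.hR hv]; ring
    have e2 : ((S.L v : ℝ) / S.d v) * (Y (S.bir v) (insert (S.new v) R) - Y S R)
        = ((S.L v : ℝ) / S.d v)
          * (5 / 3 + bet (S.L v - 1) (S.s v + 1) - bet (S.L v) (S.s v)) := by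
      by_cases hL : 0 < S.L v
      · rw [Y_bir_mem h.hR hv hL]; ring
      · have : S.L v = 0 := by omega
        simp [this]
    rw [e1, e2, hk]
    split_ifs <;> ring
  rw [h2, sum_ite_eq' R c, if_pos h.hc]
  linarith

lemma Reg.Y_arr_le (h : Reg S R c x) : Y (S.arr c) R ≤ (11 / 9) * Y S R := by
  have h1 := bet_ratio (S.two_le c (h.hR h.hc)) (h.spos c h.hc)
  have h2 : bet (S.L c) (S.s c) ≤ Y S R := by
    unfold Y
    refine single_le_sum (f := fun v => bet (S.L v) (S.s v)) (fun v hv => ?_) h.hc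
    have := bet_lower (S.two_le v (h.hR hv))
    show 0 ≤ bet (S.L v) (S.s v)
    linarith
  rw [Y_arr_mem h.hR h.hc]
  linarith

lemma Reg.Y_le_arr (h : Reg S R c x) : Y S R ≤ Y (S.arr c) R := by
  rw [Y_arr_mem h.hR h.hc]
  have := bet_mono (S.two_le c (h.hR h.hc))
  linarith

/-- drift of the ideal value -/
lemma Reg.gen_res (h : Reg S R c x) (f : St × Unit → ℝ) :
    gen inhU f (S.res R, ()) = ∑ v ∈ R, (((S.L v : ℝ) + (S.res R).κ v)
        * (f ((S.arr v).res R, ()) - f (S.res R, ()))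
      + ((S.L v : ℝ) / S.d v) * (f ((S.bir v).res (insert (S.new v) R), ()) - f (S.res R, ()))) := by
  unfold gen
  simp only
  rw [h.res_V]
  apply sum_congr rfl
  intro v hv
  rw [St.res_L S (h.hR hv) hv, St.res_d S (h.hR hv) hv, St.arr_res_mem S hv]
  congr 1
  by_cases hL : 0 < S.L v
  · rw [St.bir_res_mem S (h.hR hv) hL hv]
  · have : S.L v = 0 := by omega
    simp [this]

/-! ### trivial bound -/

lemma triv {m j : ℕ} (hj : 0 < j)
    (hI : ∀ (S : St) (y : W), y ∈ S.V → S.size ≤ j →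
      Gh m j (S, {y}) ≤ 1 + 68 * KK m j * bet (S.L y) (S.s y))
    (S : St) (hs : S.size ≤ j) (A : Finset W) (hA : A ⊆ S.V) :
    Gh m j (S, A) ≤ (275 / 4) * KK m j * Y S A := by
  induction A using Finset.induction_on with
  | empty => rw [Gh_empty]; simp [Y]
  | insert a A ha ih =>
    have haV : a ∈ S.V := hA (mem_insert_self _ _)
    have hAV : A ⊆ S.V := (subset_insert _ _).trans hA
    have h1 := Gh_subadd (j := j) m (S := S) (A := {a}) (B := A) (singleton_subset_iff.2 haV) hAV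
      hj hs
    rw [← insert_eq] at h1
    have h2 := hI S a haV hs
    have h3 := ih hAV
    have h4 : Y S (insert a A) = bet (S.L a) (S.s a) + Y S A := by
      unfold Y; rw [sum_insert ha]
    have h5 := bet_lower (S.two_le a haV)
    have h6 := one_le_KK m j
    rw [h4]
    nlinarith [mul_le_mul h6 h5 (by norm_num) (by linarith)]

lemma inhA_mem {S : St} {R : Finset W} {v : W} (hv : v ∈ R) :
    inhA S v R = insert (S.new v) R := by
  show (if v ∈ R ∧ true = true then insert (S.new v) R else R) = _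
  rw [if_pos ⟨hv, rfl⟩]

lemma inhA_not {S : St} {R : Finset W} {v : W} (hv : v ∉ R) : inhA S v R = R := by
  show (if v ∈ R ∧ true = true then insert (S.new v) R else R) = _
  rw [if_neg (fun h => hv h.1)]

lemma U_XU_nonneg (m j : ℕ) (S : St) (hj : 0 < j) (hn : S.n ≤ j) :
    0 ≤ U inhU m j XU (S, ()) :=
  U_nonneg closed_true m (x := (S, ())) trivial hj hn (fun y _ _ => by unfold XU; positivity)

/-- the numerical heart of the closure -/
lemma J_step {L s : ℕ} (hL : 3 ≤ L) (hs : 1 ≤ s) {Yv Yc : ℝ} (hY : 0 ≤ Yv)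
    (hYc : Yc ≤ (11 / 9) * Yv) :
    Jf L * (3 / 4) * Yv + (1 / ((L : ℝ) + s)) * (1 - Jf L) * Yc
      + Yv * ((L : ℝ) * (Jf (L + 1) - Jf L) + ((L : ℝ) / ((L : ℝ) + s)) * (Jf (L - 1) - Jf L))
      ≤ (9 / 20) * Jf L * Yv := by
  have h1 := mul_le_mul_of_nonneg_right (Jf_ineq hL hs) hY
  have h2 : (1 / ((L : ℝ) + s)) * (1 - Jf L) * Yc
      ≤ (1 / ((L : ℝ) + s)) * (1 - Jf L) * ((11 / 9) * Yv) := by
    apply mul_le_mul_of_nonneg_left hYc
    have := Jf_le_one L
    have h0 : (0 : ℝ) ≤ 1 / ((L : ℝ) + s) := by positivity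
    nlinarith
  have h3 : (1 / ((L : ℝ) + s)) * (1 - Jf L) * ((11 / 9) * Yv)
      = (11 / 9) * (1 - Jf L) / ((L : ℝ) + s) * Yv := by ring
  rw [h3] at h2
  nlinarith

lemma reg_upper {m j : ℕ} (hj : 0 < j) {S : St} {R : Finset W} {c x : W} (h : Reg S R c x)
    (hs : S.size ≤ j)
    (hT1 : Gh (m + 1) j (S, R) ≤ (275 / 4) * KK (m + 1) j * Y S R)
    (hT : ∀ (S' : St) (R' : Finset W), R' ⊆ S'.V → S'.size ≤ j + 1 →
      Gh m (j + 1) (S', R') ≤ (275 / 4) * KK m (j + 1) * Y S' R')
    (hII : ∀ (S' : St) (R' : Finset W) (c' x' : W), Reg S' R' c' x' → S'.size ≤ j + 1 →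
      Gh m (j + 1) (S', R') ≤ U inhU m (j + 1) XU (S'.res R', ())
        + (275 / 4) * KK m (j + 1) * Jf (S'.L x') * Y S' R') :
    Gh (m + 1) j (S, R) ≤ U inhU (m + 1) j XU (S.res R, ())
        + (275 / 4) * KK (m + 1) j * Jf (S.L x) * Y S R := by
  have hnres : (S.res R).n ≤ j := ((S.res R).n_le_size.trans h.size_res).trans hs
  have hY0 := Y_nonneg h.hR
  have hK := one_le_KK (m + 1) j
  have hK' := one_le_KK m (j + 1)
  have hj' : (0 : ℝ) < j := by exact_mod_cast hj
  by_cases hL2 : S.L x ≤ 2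
  · have h1 : Jf (S.L x) = 1 := by unfold Jf; rw [if_pos hL2]
    rw [h1]
    have := U_XU_nonneg (m + 1) j (S.res R) hj hnres
    linarith
  · have hL3 : 3 ≤ S.L x := by omega
    have hsx : 1 ≤ S.s x := by
      have h1 := St.deg_add_h h.hx
      have h2 : c ∈ S.nb x := S.mem_nb.2 ⟨h.hR h.hc, adj_symm h.hcx⟩
      have h3 : 0 < S.deg x := card_pos.2 ⟨c, h2⟩
      omega
    set K' := KK m (j + 1) with hK'def
    set F := Gh m (j + 1) with hF
    set f := U inhU m (j + 1) XU with hf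
    set a : ℝ := (275 / 4) * K' with ha
    have ha0 : 0 ≤ a := by rw [ha]; linarith
    set J := Jf (S.L x) with hJ
    have hJ0 : 0 ≤ J := (Jf_pos _).le
    have hJ1 : J ≤ 1 := Jf_le_one _
    set Yv := Y S R with hYv
    set f0 : ℝ := f (S.res R, ()) + a * J * Yv with hf0
    have hfres : 0 ≤ f (S.res R, ()) := U_XU_nonneg m (j + 1) (S.res R) (by omega) (by omega)
    have hbase : F (S, R) ≤ f0 := hII S R c x h (by omega)
    have hmain := AA_le_base (F := F) (x := (S, R)) hj hs hbase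
    have e : Gh (m + 1) j (S, R) = AA j F (S, R) := rfl
    rw [e]
    refine hmain.trans ?_
    -- the terms outside R
    have hout : ∑ v ∈ S.V \ R, (((S.L v : ℝ) + S.κ v) * (F (S.arr v, R) - f0)
        + ((S.L v : ℝ) / S.d v) * (F (S.bir v, inhA S v R) - f0)
        + ((S.h v : ℝ) / 2) * max (F (S.arr v, R) - f0) 0)
        ≤ a * (Yv * ((S.L x : ℝ) * (Jf (S.L x + 1) - J)
            + ((S.L x : ℝ) / S.d x) * (Jf (S.L x - 1) - J))) := by
      have hx : x ∈ S.V \ R := mem_sdiff.2 ⟨h.hx, h.hxR⟩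
      rw [← add_sum_erase _ _ hx]
      have hrest : ∑ v ∈ (S.V \ R).erase x, (((S.L v : ℝ) + S.κ v) * (F (S.arr v, R) - f0)
        + ((S.L v : ℝ) / S.d v) * (F (S.bir v, inhA S v R) - f0)
        + ((S.h v : ℝ) / 2) * max (F (S.arr v, R) - f0) 0) ≤ 0 := by
        apply sum_nonpos
        intro v hv
        have hvx := ne_of_mem_erase hv
        obtain ⟨hvV, hvR⟩ := mem_sdiff.1 (mem_of_mem_erase hv)
        have h1 : F (S.arr v, R) ≤ f0 := by
          have := hII (S.arr v) R c x (h.arr v) (by rw [St.arr_size hvV]; omega)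
          rwa [St.arr_res_not_mem S hvR, St.arr_L_ne hvx.symm, Y_arr_not hvR] at this
        have h2 : ((S.L v : ℝ) / S.d v) * (F (S.bir v, inhA S v R) - f0) ≤ 0 := by
          by_cases hL : 0 < S.L v
          · rw [inhA_not hvR]
            have := hII (S.bir v) R c x (h.bir_not hvV hvR hL) (by rw [St.bir_size hvV hL]; omega)
            rw [St.bir_res_not_mem S hvV hvR h.hR, St.bir_L_ne hvV hL hvx.symm
              (by rintro rfl; exact S.new_not_mem hvV h.hx), Y_bir_not h.hR hvV hvR hL] at this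
            exact mul_nonpos_of_nonneg_of_nonpos (rate_bir_nonneg S v) (by linarith)
          · have : S.L v = 0 := by omega
            simp [this]
        have h3 : ((S.L v : ℝ) + S.κ v) * (F (S.arr v, R) - f0) ≤ 0 :=
          mul_nonpos_of_nonneg_of_nonpos (rate_arr_nonneg S v) (by linarith)
        rw [max_eq_right (by linarith)]
        linarith
      have hL : 0 < S.L x := by omega
      have h1 : F (S.arr x, R) - f0 ≤ a * Yv * (Jf (S.L x + 1) - J) := by
        have := hII (S.arr x) R c x (h.arr x) (by rw [St.arr_size h.hx]; omega)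
        rw [St.arr_res_not_mem S h.hxR, St.arr_L_self h.hx, Y_arr_not h.hxR] at this
        rw [hf0]; linarith
      have h1' : a * Yv * (Jf (S.L x + 1) - J) ≤ 0 :=
        mul_nonpos_of_nonneg_of_nonpos (by positivity) (by have := Jf_antitone (S.L x); linarith)
      have h2 : F (S.bir x, inhA S x R) - f0 ≤ a * Yv * (Jf (S.L x - 1) - J) := by
        rw [inhA_not h.hxR]
        have := hII (S.bir x) R c x (h.bir_not h.hx h.hxR hL) (by rw [St.bir_size h.hx hL]; omega)
        rw [St.bir_res_not_mem S h.hx h.hxR h.hR, St.bir_L_self h.hx hL,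
          Y_bir_not h.hR h.hx h.hxR hL] at this
        rw [hf0]; linarith
      have h3 : ((S.L x : ℝ) + S.κ x) * (F (S.arr x, R) - f0)
          ≤ (S.L x : ℝ) * (a * Yv * (Jf (S.L x + 1) - J)) := by
        have := S.κ_nonneg x
        have h4 : ((S.L x : ℝ) + S.κ x) * (F (S.arr x, R) - f0)
          ≤ ((S.L x : ℝ) + S.κ x) * (a * Yv * (Jf (S.L x + 1) - J)) :=
          mul_le_mul_of_nonneg_left h1 (rate_arr_nonneg S x)
        nlinarith
      have h4 := mul_le_mul_of_nonneg_left h2 (rate_bir_nonneg S x)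
      have h5 : max (F (S.arr x, R) - f0) 0 = 0 := max_eq_right (by linarith)
      rw [h5]
      nlinarith
    -- the terms in R
    have hin : ∑ v ∈ R, (((S.L v : ℝ) + S.κ v) * (F (S.arr v, R) - f0)
        + ((S.L v : ℝ) / S.d v) * (F (S.bir v, inhA S v R) - f0)
        + ((S.h v : ℝ) / 2) * max (F (S.arr v, R) - f0) 0)
        ≤ gen inhU f (S.res R, ())
          + a * J * ((3 / 4) * Yv - (1 / S.d x) * (Y (S.arr c) R - Yv))
          + (1 / S.d x) * (a * Y (S.arr c) R - f0) := by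
      have hd := h.Y_drift
      have hdJ := mul_le_mul_of_nonneg_left hd (by positivity : 0 ≤ a * J)
      rw [h.gen_res f]
      refine le_trans ?_ (add_le_add_left (add_le_add_right hdJ _) _)
      rw [mul_sum, ← sum_add_distrib]
      have hite : (1 / S.d x) * (a * Y (S.arr c) R - f0)
          = ∑ v ∈ R, (if v = c then (1 / S.d x) * (a * Y (S.arr v) R - f0) else 0) := by
        rw [sum_ite_eq' R c, if_pos h.hc]
      rw [hite, ← sum_add_distrib]
      apply sum_le_sum
      intro v hv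
      have hvV := h.hR hv
      have hvx : x ≠ v := by rintro rfl; exact h.hxR hv
      have h1 : F (S.arr v, R) - f0 ≤ (f ((S.arr v).res R, ()) - f (S.res R, ()))
          + a * J * (Y (S.arr v) R - Yv) := by
        have := hII (S.arr v) R c x (h.arr v) (by rw [St.arr_size hvV]; omega)
        rw [St.arr_L_ne hvx] at this
        rw [hf0]; linarith
      have h1' : F (S.arr v, R) - f0 ≤ a * Y (S.arr v) R - f0 := by
        have := hT (S.arr v) R (by simpa using h.hR) (by rw [St.arr_size hvV]; omega)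
        linarith
      have h2 : ((S.L v : ℝ) / S.d v) * (F (S.bir v, inhA S v R) - f0)
          ≤ ((S.L v : ℝ) / S.d v) * ((f ((S.bir v).res (insert (S.new v) R), ())
              - f (S.res R, ())) + a * J * (Y (S.bir v) (insert (S.new v) R) - Yv)) := by
        by_cases hL : 0 < S.L v
        · apply mul_le_mul_of_nonneg_left _ (rate_bir_nonneg S v)
          rw [inhA_mem hv]
          have := hII (S.bir v) (insert (S.new v) R) c x (h.bir_mem hv hL)
            (by rw [St.bir_size hvV hL]; omega)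
          rw [St.bir_L_ne hvV hL hvx (by rintro rfl; exact S.new_not_mem hvV h.hx)] at this
          rw [hf0]; linarith
        · have : S.L v = 0 := by omega
          simp [this]
      have hk0 : 0 ≤ (S.L v : ℝ) + (S.res R).κ v := by
        have := (S.res R).κ_nonneg v; positivity
      have h3 := mul_le_mul_of_nonneg_left h1 hk0
      rw [h.full v hv, h.κ_res hv]
      by_cases hvc : v = c
      · rw [if_pos hvc, if_pos hvc]
        have h4 := mul_le_mul_of_nonneg_left h1'
          (by have := S.d_nonneg x; positivity : 0 ≤ 1 / S.d x)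
        have e1 : ((S.L v : ℝ) + ((S.res R).κ v + 1 / S.d x)) * (F (S.arr v, R) - f0)
            = ((S.L v : ℝ) + (S.res R).κ v) * (F (S.arr v, R) - f0)
              + 1 / S.d x * (F (S.arr v, R) - f0) := by ring
        rw [e1]
        push_cast
        linarith
      · rw [if_neg hvc, if_neg hvc]
        push_cast
        simp only [add_zero]
        linarith
    have hsplit : ∑ v ∈ S.V, (((S.L v : ℝ) + S.κ v) * (F (S.arr v, R) - f0)
        + ((S.L v : ℝ) / S.d v) * (F (S.bir v, inhA S v R) - f0)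
        + ((S.h v : ℝ) / 2) * max (F (S.arr v, R) - f0) 0)
        ≤ gen inhU f (S.res R, ()) + a * ((9 / 20) * J * Yv) := by
      rw [← sum_sdiff h.hR]
      have hstep := J_step hL3 hsx hY0 h.Y_arr_le
      have hstep' := mul_le_mul_of_nonneg_left hstep ha0
      have hdx : S.d x = (S.L x : ℝ) + S.s x := rfl
      have hfd : 0 ≤ (1 / S.d x) * f (S.res R, ()) := by
        have := S.d_nonneg x; positivity
      rw [← hdx] at hstep'
      have e3 : a * J * ((3 / 4) * Yv - (1 / S.d x) * (Y (S.arr c) R - Yv))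
          + (1 / S.d x) * (a * Y (S.arr c) R - f0)
          + a * (Yv * ((S.L x : ℝ) * (Jf (S.L x + 1) - J)
            + ((S.L x : ℝ) / S.d x) * (Jf (S.L x - 1) - J)))
          = a * (J * (3 / 4) * Yv + (1 / S.d x) * (1 - J) * Y (S.arr c) R
            + Yv * ((S.L x : ℝ) * (Jf (S.L x + 1) - J)
            + ((S.L x : ℝ) / S.d x) * (Jf (S.L x - 1) - J)))
            - (1 / S.d x) * f (S.res R, ()) := by rw [hf0]; ring
      linarith
    have hfin := mul_le_mul_of_nonneg_left hsplit (by positivity : (0 : ℝ) ≤ 1 / (j : ℝ))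
    have hKK := Clo.KK_succ_ge m j
    have hU : U inhU (m + 1) j XU (S.res R, ()) = f (S.res R, ())
        + 1 / (j : ℝ) * gen inhU f (S.res R, ()) := rfl
    have hfinal : f0 + 1 / (j : ℝ) * (gen inhU f (S.res R, ()) + a * ((9 / 20) * J * Yv))
        = U inhU (m + 1) j XU (S.res R, ())
          + (275 / 4) * ((1 + (9 / 20) / (j : ℝ)) * K') * J * Yv := by
      rw [hU, hf0, ha]; ring
    have hlast : (275 / 4) * ((1 + (9 / 20) / (j : ℝ)) * K') * J * Yv
        ≤ (275 / 4) * KK (m + 1) j * J * Yv := by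
      have : 0 ≤ J * Yv := by positivity
      nlinarith
    linarith

lemma phi_nonneg {m j : ℕ} {x : St × Finset W} (hx : Sub x) (hj : 0 < j) (hn : x.1.n ≤ j) :
    0 ≤ phi m j x :=
  U_nonneg (closed_sub _) m hx hj hn (fun y _ _ => by unfold card; positivity)

lemma reg_lower {m j : ℕ} (hj : 0 < j) {S : St} {R : Finset W} {c x : W} (h : Reg S R c x)
    (hs : S.size ≤ j)
    (hT1 : U inhU (m + 1) j XU (S.res R, ()) ≤ (275 / 4) * KK (m + 1) j * Y S R)
    (hT : ∀ (S' : St) (R' : Finset W) (c' x' : W), Reg S' R' c' x' → S'.size ≤ j + 1 →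
      U inhU m (j + 1) XU (S'.res R', ()) ≤ (275 / 4) * KK m (j + 1) * Y S' R')
    (hII : ∀ (S' : St) (R' : Finset W) (c' x' : W), Reg S' R' c' x' → S'.size ≤ j + 1 →
      U inhU m (j + 1) XU (S'.res R', ()) ≤ phi m (j + 1) (S', R')
        + (275 / 4) * KK m (j + 1) * Jf (S'.L x') * Y S' R') :
    U inhU (m + 1) j XU (S.res R, ()) ≤ phi (m + 1) j (S, R)
        + (275 / 4) * KK (m + 1) j * Jf (S.L x) * Y S R := by
  have hn : S.n ≤ j := S.n_le_size.trans hs
  have hY0 := Y_nonneg h.hR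
  have hK' := one_le_KK m (j + 1)
  have hj' : (0 : ℝ) < j := by exact_mod_cast hj
  by_cases hL2 : S.L x ≤ 2
  · have h1 : Jf (S.L x) = 1 := by unfold Jf; rw [if_pos hL2]
    rw [h1]
    have := phi_nonneg (m := m + 1) (x := (S, R)) h.hR hj hn
    linarith
  · have hL3 : 3 ≤ S.L x := by omega
    have hsx : 1 ≤ S.s x := by
      have h1 := St.deg_add_h h.hx
      have h2 : c ∈ S.nb x := S.mem_nb.2 ⟨h.hR h.hc, adj_symm h.hcx⟩
      have h3 : 0 < S.deg x := card_pos.2 ⟨c, h2⟩
      omega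
    set K' := KK m (j + 1) with hK'def
    set F := phi m (j + 1) with hF
    set f := U inhU m (j + 1) XU with hf
    set a : ℝ := (275 / 4) * K' with ha
    have ha0 : 0 ≤ a := by rw [ha]; linarith
    set J := Jf (S.L x) with hJ
    have hJ0 : 0 ≤ J := (Jf_pos _).le
    have hJ1 : J ≤ 1 := Jf_le_one _
    set Yv := Y S R with hYv
    set f0 : ℝ := f (S.res R, ()) - a * J * Yv with hf0
    have hfa : f (S.res R, ()) ≤ a * Yv := hT S R c x h (by omega)
    have hbase : f0 ≤ F (S, R) := by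
      have := hII S R c x h (by omega)
      rw [hf0]; linarith
    have hmain := base_le_Aop (F := F) (x := (S, R)) hj hn hbase
    have e : phi (m + 1) j (S, R) = Aop inhA j F (S, R) := rfl
    rw [e]
    -- the terms outside R
    have hout : -(a * (Yv * ((S.L x : ℝ) * (Jf (S.L x + 1) - J)
            + ((S.L x : ℝ) / S.d x) * (Jf (S.L x - 1) - J))))
        ≤ ∑ v ∈ S.V \ R, (((S.L v : ℝ) + S.κ v) * (F (S.arr v, R) - f0)
        + ((S.L v : ℝ) / S.d v) * (F (S.bir v, inhA S v R) - f0)) := by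
      have hx : x ∈ S.V \ R := mem_sdiff.2 ⟨h.hx, h.hxR⟩
      rw [← add_sum_erase _ _ hx]
      have hrest : 0 ≤ ∑ v ∈ (S.V \ R).erase x, (((S.L v : ℝ) + S.κ v) * (F (S.arr v, R) - f0)
        + ((S.L v : ℝ) / S.d v) * (F (S.bir v, inhA S v R) - f0)) := by
        apply sum_nonneg
        intro v hv
        have hvx := ne_of_mem_erase hv
        obtain ⟨hvV, hvR⟩ := mem_sdiff.1 (mem_of_mem_erase hv)
        have h1 : f0 ≤ F (S.arr v, R) := by
          have := hII (S.arr v) R c x (h.arr v) (by rw [St.arr_size hvV]; omega)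
          rw [St.arr_res_not_mem S hvR, St.arr_L_ne hvx.symm, Y_arr_not hvR] at this
          rw [hf0]; linarith
        have h2 : 0 ≤ ((S.L v : ℝ) / S.d v) * (F (S.bir v, inhA S v R) - f0) := by
          by_cases hL : 0 < S.L v
          · rw [inhA_not hvR]
            have := hII (S.bir v) R c x (h.bir_not hvV hvR hL) (by rw [St.bir_size hvV hL]; omega)
            rw [St.bir_res_not_mem S hvV hvR h.hR, St.bir_L_ne hvV hL hvx.symm
              (by rintro rfl; exact S.new_not_mem hvV h.hx), Y_bir_not h.hR hvV hvR hL] at this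
            exact mul_nonneg (rate_bir_nonneg S v) (by rw [hf0]; linarith)
          · have : S.L v = 0 := by omega
            simp [this]
        have h3 : 0 ≤ ((S.L v : ℝ) + S.κ v) * (F (S.arr v, R) - f0) :=
          mul_nonneg (rate_arr_nonneg S v) (by linarith)
        linarith
      have hL : 0 < S.L x := by omega
      have h1 : -(a * Yv * (Jf (S.L x + 1) - J)) ≤ F (S.arr x, R) - f0 := by
        have := hII (S.arr x) R c x (h.arr x) (by rw [St.arr_size h.hx]; omega)
        rw [St.arr_res_not_mem S h.hxR, St.arr_L_self h.hx, Y_arr_not h.hxR] at this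
        rw [hf0]; linarith
      have h1' : 0 ≤ -(a * Yv * (Jf (S.L x + 1) - J)) := by
        have h5 : a * Yv * (Jf (S.L x + 1) - J) ≤ 0 :=
          mul_nonpos_of_nonneg_of_nonpos (by positivity)
            (by have := Jf_antitone (S.L x); linarith)
        linarith
      have h2 : -(a * Yv * (Jf (S.L x - 1) - J)) ≤ F (S.bir x, inhA S x R) - f0 := by
        rw [inhA_not h.hxR]
        have := hII (S.bir x) R c x (h.bir_not h.hx h.hxR hL) (by rw [St.bir_size h.hx hL]; omega)
        rw [St.bir_res_not_mem S h.hx h.hxR h.hR, St.bir_L_self h.hx hL,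
          Y_bir_not h.hR h.hx h.hxR hL] at this
        rw [hf0]; linarith
      have h3 : (S.L x : ℝ) * (-(a * Yv * (Jf (S.L x + 1) - J)))
          ≤ ((S.L x : ℝ) + S.κ x) * (F (S.arr x, R) - f0) := by
        have := S.κ_nonneg x
        have h4 := mul_le_mul_of_nonneg_left h1 (rate_arr_nonneg S x)
        nlinarith
      have h4 := mul_le_mul_of_nonneg_left h2 (rate_bir_nonneg S x)
      linarith
    -- the terms in R
    have hin : gen inhU f (S.res R, ())
          - a * J * ((3 / 4) * Yv - (1 / S.d x) * (Y (S.arr c) R - Yv))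
          - (1 / S.d x) * f0 ≤
        ∑ v ∈ R, (((S.L v : ℝ) + S.κ v) * (F (S.arr v, R) - f0)
        + ((S.L v : ℝ) / S.d v) * (F (S.bir v, inhA S v R) - f0)) := by
      have hd := h.Y_drift
      have hdJ := mul_le_mul_of_nonneg_left hd (by positivity : 0 ≤ a * J)
      rw [h.gen_res f]
      have hite : (1 / S.d x) * f0
          = ∑ v ∈ R, (if v = c then (1 / S.d x) * f0 else 0) := by
        rw [sum_ite_eq' R c, if_pos h.hc]
      refine le_trans (sub_le_sub_right (sub_le_sub_left hdJ _) _) ?_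
      rw [hite, mul_sum, ← sum_sub_distrib, ← sum_sub_distrib]
      apply sum_le_sum
      intro v hv
      have hvV := h.hR hv
      have hvx : x ≠ v := by rintro rfl; exact h.hxR hv
      have h1 : (f ((S.arr v).res R, ()) - f (S.res R, ()))
          - a * J * (Y (S.arr v) R - Yv) ≤ F (S.arr v, R) - f0 := by
        have := hII (S.arr v) R c x (h.arr v) (by rw [St.arr_size hvV]; omega)
        rw [St.arr_L_ne hvx] at this
        rw [hf0]; linarith
      have h1' : -f0 ≤ F (S.arr v, R) - f0 := by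
        have := phi_nonneg (m := m) (j := j + 1) (x := (S.arr v, R))
          (by unfold Sub; simpa using h.hR) (by omega) (by simp only [St.arr_n hvV]; omega)
        linarith
      have h2 : ((S.L v : ℝ) / S.d v) * ((f ((S.bir v).res (insert (S.new v) R), ())
              - f (S.res R, ())) - a * J * (Y (S.bir v) (insert (S.new v) R) - Yv))
          ≤ ((S.L v : ℝ) / S.d v) * (F (S.bir v, inhA S v R) - f0) := by
        by_cases hL : 0 < S.L v
        · apply mul_le_mul_of_nonneg_left _ (rate_bir_nonneg S v)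
          rw [inhA_mem hv]
          have := hII (S.bir v) (insert (S.new v) R) c x (h.bir_mem hv hL)
            (by rw [St.bir_size hvV hL]; omega)
          rw [St.bir_L_ne hvV hL hvx (by rintro rfl; exact S.new_not_mem hvV h.hx)] at this
          rw [hf0]; linarith
        · have : S.L v = 0 := by omega
          simp [this]
      have hk0 : 0 ≤ (S.L v : ℝ) + (S.res R).κ v := by
        have := (S.res R).κ_nonneg v; positivity
      have h3 := mul_le_mul_of_nonneg_left h1 hk0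
      rw [h.κ_res hv]
      by_cases hvc : v = c
      · rw [if_pos hvc, if_pos hvc]
        have h4 := mul_le_mul_of_nonneg_left h1'
          (by have := S.d_nonneg x; positivity : 0 ≤ 1 / S.d x)
        have e1 : ((S.L v : ℝ) + ((S.res R).κ v + 1 / S.d x)) * (F (S.arr v, R) - f0)
            = ((S.L v : ℝ) + (S.res R).κ v) * (F (S.arr v, R) - f0)
              + 1 / S.d x * (F (S.arr v, R) - f0) := by ring
        rw [e1]
        linarith
      · rw [if_neg hvc, if_neg hvc]
        simp only [add_zero]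
        linarith
    have hsplit : gen inhU f (S.res R, ()) - a * ((9 / 20) * J * Yv) ≤
        ∑ v ∈ S.V, (((S.L v : ℝ) + S.κ v) * (F (S.arr v, R) - f0)
        + ((S.L v : ℝ) / S.d v) * (F (S.bir v, inhA S v R) - f0)) := by
      rw [← sum_sdiff h.hR]
      have hstep := J_step hL3 hsx hY0 (show Yv ≤ (11 / 9) * Yv by linarith)
      have hstep' := mul_le_mul_of_nonneg_left hstep ha0
      have hdx : S.d x = (S.L x : ℝ) + S.s x := rfl
      rw [← hdx] at hstep'
      have hr0 : 0 ≤ 1 / S.d x := by have := S.d_nonneg x; positivity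
      have h6 : 0 ≤ a * J * ((1 / S.d x) * (Y (S.arr c) R - Yv)) := by
        have := h.Y_le_arr
        exact mul_nonneg (by positivity) (mul_nonneg hr0 (by linarith))
      have h7 := mul_le_mul_of_nonneg_left hfa hr0
      have e3 : a * J * ((3 / 4) * Yv - (1 / S.d x) * (Y (S.arr c) R - Yv))
          + (1 / S.d x) * f0
          + a * (Yv * ((S.L x : ℝ) * (Jf (S.L x + 1) - J)
            + ((S.L x : ℝ) / S.d x) * (Jf (S.L x - 1) - J)))
          = a * (J * (3 / 4) * Yv + (1 / S.d x) * (1 - J) * Yv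
            + Yv * ((S.L x : ℝ) * (Jf (S.L x + 1) - J)
            + ((S.L x : ℝ) / S.d x) * (Jf (S.L x - 1) - J)))
            + (1 / S.d x * f (S.res R, ()) - 1 / S.d x * (a * Yv))
            - a * J * ((1 / S.d x) * (Y (S.arr c) R - Yv)) := by rw [hf0]; ring
      linarith
    have hfin := mul_le_mul_of_nonneg_left hsplit (by positivity : (0 : ℝ) ≤ 1 / (j : ℝ))
    have hKK := Clo.KK_succ_ge m j
    have hU : U inhU (m + 1) j XU (S.res R, ()) = f (S.res R, ())
        + 1 / (j : ℝ) * gen inhU f (S.res R, ()) := rfl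
    have hfinal : f0 + 1 / (j : ℝ) * (gen inhU f (S.res R, ()) - a * ((9 / 20) * J * Yv))
        = U inhU (m + 1) j XU (S.res R, ())
          - (275 / 4) * ((1 + (9 / 20) / (j : ℝ)) * K') * J * Yv := by
      rw [hU, hf0, ha]; ring
    have hlast : (275 / 4) * ((1 + (9 / 20) / (j : ℝ)) * K') * J * Yv
        ≤ (275 / 4) * KK (m + 1) j * J * Yv := by
      have : 0 ≤ J * Yv := by positivity
      nlinarith
    linarith

/-! ### the induction -/

structure Q (ρ : ℕ → ℕ → ℝ) (m : ℕ) : Prop where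
  I : ∀ j, 0 < j → ∀ (S : St) (y : W), y ∈ S.V → S.size ≤ j →
    Gh m j (S, {y}) ≤ 1 + 68 * KK m j * bet (S.L y) (S.s y)
  III : ∀ j, 0 < j → ∀ (S : St) (y : W), y ∈ S.V → 1 ≤ S.s y → S.size ≤ j →
    Gh m j (S, {y}) ≤ 1 + KK m j * bet (S.L y) (S.s y)
      + (275 / 4) * KK m j * ρ (S.L y) (S.s y)
  up : ∀ j, 0 < j → ∀ (S : St) (R : Finset W) (c x : W), Reg S R c x → S.size ≤ j →
    Gh m j (S, R) ≤ U inhU m j XU (S.res R, ()) + (275 / 4) * KK m j * Jf (S.L x) * Y S R
  lo : ∀ j, 0 < j → ∀ (S : St) (R : Finset W) (c x : W), Reg S R c x → S.size ≤ j →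
    U inhU m j XU (S.res R, ()) ≤ phi m j (S, R) + (275 / 4) * KK m j * Jf (S.L x) * Y S R

section
variable {ρ : ℕ → ℕ → ℝ} (hρ0 : ∀ L s, 0 ≤ ρ L s) (hρ1 : ρ 1 1 ≤ 19 / 20)
include hρ1 in
lemma Q.newborn {m : ℕ} (hQ : Q ρ m) {j : ℕ} (hj : 0 < j) {S : St} {y : W} (hy : y ∈ S.V)
    (hL : S.L y = 1) (hsy : S.s y = 1) (hs : S.size ≤ j) : Gh m j (S, {y}) ≤ 68 * KK m j := by
  have h := hQ.III j hj S y hy (by omega) hs
  rw [hL, hsy, bet_one] at h
  have hK := one_le_KK m j
  nlinarith [mul_le_mul_of_nonneg_left hρ1 (by linarith : (0 : ℝ) ≤ KK m j)]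

lemma Q.triv_res {m : ℕ} (hQ : Q ρ m) {j : ℕ} (hj : 0 < j) {S : St} {R : Finset W} {c x : W}
    (h : Reg S R c x) (hs : S.size ≤ j) :
    U inhU m j XU (S.res R, ()) ≤ (275 / 4) * KK m j * Y S R := by
  have h1 := h.size_res
  rw [← phi_V, h.res_V]
  have hR : R ⊆ (S.res R).V := by rw [h.res_V]
  have h2 : phi m j (S.res R, R) ≤ Gh m j (S.res R, R) :=
    phi_le_Gh m (x := (S.res R, R)) hR hj (h1.trans hs)
  have h3 := triv hj (hQ.I j hj) (S.res R) (h1.trans hs) R hR
  rw [h.Y_res] at h3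
  exact h2.trans h3

lemma Q.zero (ρ : ℕ → ℕ → ℝ) (hρ0 : ∀ L s, 0 ≤ ρ L s) : Q ρ 0 where
  I j hj S y hy hs := by
    have := bet_lower (S.two_le y hy)
    simp only [Gh, card, KK, card_singleton]
    push_cast; linarith
  III j hj S y hy h1 hs := by
    have := bet_lower (S.two_le y hy)
    have h2 := hρ0 (S.L y) (S.s y)
    simp only [Gh, card, KK, card_singleton]
    push_cast; linarith
  up j hj S R c x h hs := by
    have h1 := Y_nonneg h.hR
    have h2 := (Jf_pos (S.L x)).le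
    simp only [Gh, card, KK, U_zero, XU, h.res_V]
    have : 0 ≤ (275 / 4 : ℝ) * 1 * Jf (S.L x) * Y S R := by positivity
    linarith
  lo j hj S R c x h hs := by
    have h1 := Y_nonneg h.hR
    have h2 := (Jf_pos (S.L x)).le
    simp only [phi, card, KK, U_zero, XU, h.res_V]
    have : 0 ≤ (275 / 4 : ℝ) * 1 * Jf (S.L x) * Y S R := by positivity
    linarith

include hρ0 hρ1 in
lemma Q.succ (hρ : ∀ L s : ℕ, 1 ≤ s → 2 ≤ L + s → ∀ κ : ℝ, 0 ≤ κ → κ ≤ s / 2 →
      ((L : ℝ) + κ) * (ρ (L + 1) s - ρ L s)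
        + ((L : ℝ) / ((L : ℝ) + s)) * (Dh (L - 1) + ρ (L - 1) (s + 1) - ρ L s)
        ≤ (9 / 20) * ρ L s) {m : ℕ} (hQ : Q ρ m) : Q ρ (m + 1) := by
  -- (I)
  have hI : ∀ j, 0 < j → ∀ (S : St) (y : W), y ∈ S.V → S.size ≤ j →
      Gh (m + 1) j (S, {y}) ≤ 1 + 68 * KK (m + 1) j * bet (S.L y) (S.s y) := by
    intro j hj S y hy hs
    have hj' : (0 : ℝ) < j := by exact_mod_cast hj
    refine lin_step m j 0 (fun L s => 1 + 68 * KK m (j + 1) * bet L s)
      (fun L s => 1 + 68 * KK (m + 1) j * bet L s) (fun _ => 68 * KK m (j + 1))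
      (fun S' y' hy' _ hs' => hQ.I (j + 1) (by omega) S' y' hy' hs') ?_ ?_ hj S y hy
      (Nat.zero_le _) hs
    · intro S' y' hy' _ hL' hs'
      exact hQ.newborn hρ1 (by omega) (St.new_mem_bir hy' hL') (St.bir_L_new hy' hL')
        (St.bir_s_new hy' hL') (by rw [St.bir_size hy' hL']; omega)
    · intro L s _ h2 κ h0 hκ
      have h3 := bet_ineq1 h2 h0 hκ
      have h4 := bet_lower h2
      have hK := one_le_KK m (j + 1)
      have hKK := Clo.KK_succ_ge m j
      have h5 : 1 + 68 * KK m (j + 1) * bet L s + 1 / (j : ℝ) * (((L : ℝ) + κ)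
          * (1 + 68 * KK m (j + 1) * bet (L + 1) s - (1 + 68 * KK m (j + 1) * bet L s))
          + (L : ℝ) / ((L : ℝ) + s) * (68 * KK m (j + 1)
            + (1 + 68 * KK m (j + 1) * bet (L - 1) (s + 1))
            - (1 + 68 * KK m (j + 1) * bet L s)))
          = 1 + 68 * KK m (j + 1) * (bet L s + 1 / (j : ℝ) * (((L : ℝ) + κ)
            * (bet (L + 1) s - bet L s)
          + (L : ℝ) / ((L : ℝ) + s) * (1 + bet (L - 1) (s + 1) - bet L s))) := by ring
      show 1 + 68 * KK m (j + 1) * bet L s + 1 / (j : ℝ) * (((L : ℝ) + κ)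
          * (1 + 68 * KK m (j + 1) * bet (L + 1) s - (1 + 68 * KK m (j + 1) * bet L s))
          + (L : ℝ) / ((L : ℝ) + s) * (68 * KK m (j + 1)
            + (1 + 68 * KK m (j + 1) * bet (L - 1) (s + 1))
            - (1 + 68 * KK m (j + 1) * bet L s))) ≤ 1 + 68 * KK (m + 1) j * bet L s
      rw [h5]
      have h6 := mul_le_mul_of_nonneg_left h3 (by positivity : (0 : ℝ) ≤ 1 / (j : ℝ))
      have h7 : bet L s + 1 / (j : ℝ) * ((9 / 20) * bet L s)
          = (1 + (9 / 20) / (j : ℝ)) * bet L s := by ring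
      have h8 : bet L s + 1 / (j : ℝ) * (((L : ℝ) + κ) * (bet (L + 1) s - bet L s)
          + (L : ℝ) / ((L : ℝ) + s) * (1 + bet (L - 1) (s + 1) - bet L s))
          ≤ (1 + (9 / 20) / (j : ℝ)) * bet L s := by linarith
      have h9 := mul_le_mul_of_nonneg_left h8 (by linarith : (0 : ℝ) ≤ 68 * KK m (j + 1))
      have h10 := mul_le_mul_of_nonneg_right hKK (by linarith : (0 : ℝ) ≤ bet L s)
      linarith
  -- (III)
  have hIII : ∀ j, 0 < j → ∀ (S : St) (y : W), y ∈ S.V → 1 ≤ S.s y → S.size ≤ j →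
      Gh (m + 1) j (S, {y}) ≤ 1 + KK (m + 1) j * bet (S.L y) (S.s y)
        + (275 / 4) * KK (m + 1) j * ρ (S.L y) (S.s y) := by
    intro j hj S y hy h1 hs
    have hj' : (0 : ℝ) < j := by exact_mod_cast hj
    refine lin_step m j 1
      (fun L s => 1 + KK m (j + 1) * bet L s + (275 / 4) * KK m (j + 1) * ρ L s)
      (fun L s => 1 + KK (m + 1) j * bet L s + (275 / 4) * KK (m + 1) j * ρ L s)
      (fun L => KK m (j + 1) + (275 / 4) * KK m (j + 1) * Dh (L - 1))
      (fun S' y' hy' h1' hs' => hQ.III (j + 1) (by omega) S' y' hy' h1' hs') ?_ ?_ hj S y hy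
      h1 hs
    · intro S' y' hy' _ hL' hs'
      have hK := one_le_KK m (j + 1)
      have hsz : (S'.bir y').size ≤ j + 1 := by rw [St.bir_size hy' hL']; omega
      have ha := hQ.newborn hρ1 (by omega : 0 < j + 1) (St.new_mem_bir hy' hL')
        (St.bir_L_new hy' hL') (St.bir_s_new hy' hL') hsz
      have hb := hQ.up (j + 1) (by omega) (S'.bir y') {S'.new y'} (S'.new y') y'
        (Reg.newborn hy' hL') hsz
      rw [res_seed m (j + 1) (S'.bir y') (S'.new y') (St.new_mem_bir hy' hL')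
        (St.bir_L_new hy' hL') (St.bir_s_new hy' hL')] at hb
      have hc := mm_le_KK m (j + 1)
      have hY : Y (S'.bir y') {S'.new y'} = 5 / 3 := by
        unfold Y
        rw [sum_singleton, St.bir_L_new hy' hL', St.bir_s_new hy' hL', bet_one]
      rw [hY, St.bir_L_self hy' hL'] at hb
      have hD : KK m (j + 1) + (275 / 4) * KK m (j + 1) * Dh (S'.L y' - 1)
          = min (KK m (j + 1) + (275 / 4) * KK m (j + 1) * 1)
            (KK m (j + 1) + (275 / 4) * KK m (j + 1) * ((5 / 3) * Jf (S'.L y' - 1))) := by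
        unfold Dh
        rw [mul_min_of_nonneg _ _ (by linarith), ← min_add_add_left]
      show Gh m (j + 1) (S'.bir y', {S'.new y'})
        ≤ KK m (j + 1) + (275 / 4) * KK m (j + 1) * Dh (S'.L y' - 1)
      rw [hD]
      apply le_min
      · linarith
      · linarith
    · intro L s hs1 h2 κ h0 hκ
      have h3 := bet_ineq1 h2 h0 hκ
      have h3' := hρ L s hs1 h2 κ h0 hκ
      have h4 := bet_lower h2
      have h4' := hρ0 L s
      have hK := one_le_KK m (j + 1)
      have hKK := Clo.KK_succ_ge m j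
      have e1 : 1 + KK m (j + 1) * bet L s + (275 / 4) * KK m (j + 1) * ρ L s
          + 1 / (j : ℝ) * (((L : ℝ) + κ)
          * (1 + KK m (j + 1) * bet (L + 1) s + (275 / 4) * KK m (j + 1) * ρ (L + 1) s
            - (1 + KK m (j + 1) * bet L s + (275 / 4) * KK m (j + 1) * ρ L s))
          + (L : ℝ) / ((L : ℝ) + s) * (KK m (j + 1) + (275 / 4) * KK m (j + 1) * Dh (L - 1)
            + (1 + KK m (j + 1) * bet (L - 1) (s + 1)
              + (275 / 4) * KK m (j + 1) * ρ (L - 1) (s + 1))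
            - (1 + KK m (j + 1) * bet L s + (275 / 4) * KK m (j + 1) * ρ L s)))
          = 1 + KK m (j + 1) * (bet L s + 1 / (j : ℝ) * (((L : ℝ) + κ)
            * (bet (L + 1) s - bet L s)
          + (L : ℝ) / ((L : ℝ) + s) * (1 + bet (L - 1) (s + 1) - bet L s)))
          + (275 / 4) * KK m (j + 1) * (ρ L s + 1 / (j : ℝ) * (((L : ℝ) + κ)
            * (ρ (L + 1) s - ρ L s)
          + (L : ℝ) / ((L : ℝ) + s) * (Dh (L - 1) + ρ (L - 1) (s + 1) - ρ L s))) := by ring
      show 1 + KK m (j + 1) * bet L s + (275 / 4) * KK m (j + 1) * ρ L s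
          + 1 / (j : ℝ) * (((L : ℝ) + κ)
          * (1 + KK m (j + 1) * bet (L + 1) s + (275 / 4) * KK m (j + 1) * ρ (L + 1) s
            - (1 + KK m (j + 1) * bet L s + (275 / 4) * KK m (j + 1) * ρ L s))
          + (L : ℝ) / ((L : ℝ) + s) * (KK m (j + 1) + (275 / 4) * KK m (j + 1) * Dh (L - 1)
            + (1 + KK m (j + 1) * bet (L - 1) (s + 1)
              + (275 / 4) * KK m (j + 1) * ρ (L - 1) (s + 1))
            - (1 + KK m (j + 1) * bet L s + (275 / 4) * KK m (j + 1) * ρ L s)))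
          ≤ 1 + KK (m + 1) j * bet L s + (275 / 4) * KK (m + 1) j * ρ L s
      rw [e1]
      have hj0 : (0 : ℝ) ≤ 1 / (j : ℝ) := by positivity
      have h6 := mul_le_mul_of_nonneg_left h3 hj0
      have h6' := mul_le_mul_of_nonneg_left h3' hj0
      have h8 : bet L s + 1 / (j : ℝ) * (((L : ℝ) + κ) * (bet (L + 1) s - bet L s)
          + (L : ℝ) / ((L : ℝ) + s) * (1 + bet (L - 1) (s + 1) - bet L s))
          ≤ (1 + (9 / 20) / (j : ℝ)) * bet L s := by
        have : (1 + (9 / 20) / (j : ℝ)) * bet L s = bet L s + 1 / (j : ℝ) * ((9 / 20) * bet L s) := by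
          ring
        linarith
      have h8' : ρ L s + 1 / (j : ℝ) * (((L : ℝ) + κ) * (ρ (L + 1) s - ρ L s)
          + (L : ℝ) / ((L : ℝ) + s) * (Dh (L - 1) + ρ (L - 1) (s + 1) - ρ L s))
          ≤ (1 + (9 / 20) / (j : ℝ)) * ρ L s := by
        have : (1 + (9 / 20) / (j : ℝ)) * ρ L s = ρ L s + 1 / (j : ℝ) * ((9 / 20) * ρ L s) := by
          ring
        linarith
      have h9 := mul_le_mul_of_nonneg_left h8 (by linarith : (0 : ℝ) ≤ KK m (j + 1))
      have h9' := mul_le_mul_of_nonneg_left h8' (by linarith : (0 : ℝ) ≤ (275 / 4) * KK m (j + 1))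
      have h10 := mul_le_mul_of_nonneg_right hKK (by linarith : (0 : ℝ) ≤ bet L s)
      have h10' := mul_le_mul_of_nonneg_right hKK h4'
      linarith
  have hTriv : ∀ j, 0 < j → ∀ (S : St), S.size ≤ j → ∀ A : Finset W, A ⊆ S.V →
      Gh (m + 1) j (S, A) ≤ (275 / 4) * KK (m + 1) j * Y S A :=
    fun j hj S hs A hA => triv hj (hI j hj) S hs A hA
  refine ⟨hI, hIII, ?_, ?_⟩
  · intro j hj S R c x h hs
    exact reg_upper hj h hs (hTriv j hj S hs R h.hR)
      (fun S' R' hR' hs' => triv (by omega) (hQ.I (j + 1) (by omega)) S' hs' R' hR')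
      (fun S' R' c' x' h' hs' => hQ.up (j + 1) (by omega) S' R' c' x' h' hs')
  · intro j hj S R c x h hs
    refine reg_lower hj h hs ?_
      (fun S' R' c' x' h' hs' => hQ.triv_res (by omega) h' hs')
      (fun S' R' c' x' h' hs' => hQ.lo (j + 1) (by omega) S' R' c' x' h' hs')
    have h1 := h.size_res
    rw [← phi_V, h.res_V]
    have hR : R ⊆ (S.res R).V := by rw [h.res_V]
    have h2 : phi (m + 1) j (S.res R, R) ≤ Gh (m + 1) j (S.res R, R) :=
      phi_le_Gh (m + 1) (x := (S.res R, R)) hR hj (h1.trans hs)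
    have h3 := hTriv j hj (S.res R) (h1.trans hs) R hR
    rw [h.Y_res] at h3
    exact h2.trans h3

end

lemma Q_all : ∃ ρ : ℕ → ℕ → ℝ, ∀ m, Q ρ m := by
  obtain ⟨ρ, h0, h1, h2⟩ := exists_rho
  refine ⟨ρ, fun m => ?_⟩
  induction m with
  | zero => exact Q.zero ρ h0
  | succ m ih => exact Q.succ h0 h1 h2 ih

end Clo

theorem closure_bound (m j : ℕ) {x : St × Finset W} (hx : Sub x) (hj : 0 < j)
    (hs : x.1.size ≤ j) : Gh m j x ≤ 160 * KK m j * card x := by
  obtain ⟨ρ, hQ⟩ := Clo.Q_all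
  obtain ⟨S, A⟩ := x
  have h1 := Clo.triv hj ((hQ m).I j hj) S hs A hx
  have hK := one_le_KK m j
  have h2 : Clo.Y S A ≤ (20 / 9) * card (S, A) := by
    unfold Clo.Y card
    rw [card_eq_sum_ones]
    push_cast
    rw [mul_sum]
    apply sum_le_sum
    intro v _
    have := bet_upper (S.L v) (S.s v)
    linarith
  have h3 : 0 ≤ card (S, A) := by unfold card; positivity
  have h4 := mul_le_mul_of_nonneg_left h2 (by linarith : (0 : ℝ) ≤ (275 / 4) * KK m j)
  have h5 : 0 ≤ KK m j * card (S, A) := by positivity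
  nlinarith

theorem closure_new (m j : ℕ) (S : St) (y : W) (hy : y ∈ S.V) (hL : 0 < S.L y)
    (hs : (S.bir y).size ≤ j) :
    |phi m j (S.bir y, {S.new y}) - mm m j| ≤ 500 * KK m j / S.L y := by
  obtain ⟨ρ, hQ⟩ := Clo.Q_all
  have hj : 0 < j := by
    have := St.bir_size hy hL
    omega
  have hreg := Clo.Reg.newborn hy hL
  have hup := (hQ m).up j hj _ _ _ _ hreg hs
  have hlo := (hQ m).lo j hj _ _ _ _ hreg hs
  rw [res_seed m j (S.bir y) (S.new y) (St.new_mem_bir hy hL) (St.bir_L_new hy hL)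
    (St.bir_s_new hy hL)] at hup hlo
  have hY : Clo.Y (S.bir y) {S.new y} = 5 / 3 := by
    unfold Clo.Y
    rw [sum_singleton, St.bir_L_new hy hL, St.bir_s_new hy hL, bet_one]
  rw [hY, St.bir_L_self hy hL] at hup hlo
  have hphi : phi m j (S.bir y, {S.new y}) ≤ Gh m j (S.bir y, {S.new y}) :=
    phi_le_Gh m (x := (S.bir y, {S.new y})) hreg.hR hj hs
  have hK := one_le_KK m j
  have hJ := Jf_pred_le hL
  have hL' : (0 : ℝ) < S.L y := by exact_mod_cast hL
  have hb : (275 / 4) * KK m j * Jf (S.L y - 1) * (5 / 3) ≤ 500 * KK m j / S.L y := by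
    have h1 := mul_le_mul_of_nonneg_left hJ
      (by linarith : (0 : ℝ) ≤ (275 / 4) * KK m j * (5 / 3))
    have h2 : (275 / 4) * KK m j * (5 / 3) * (17 / (4 * (S.L y : ℝ)))
        ≤ 500 * KK m j / S.L y := by
      rw [mul_div_assoc', div_le_div_iff₀ (by positivity) hL']
      nlinarith
    linarith
  rw [abs_le]
  constructor
  · linarith
  · linarith

end FT
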