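import Pool.Agent.FT.Compare
import Pool.Agent.FT.Closure

/-! # Module Bounds (friend tree, MP_5ccad8_pr) -/

open Finset MeasureTheory Filter Topology

namespace FT

lemma bounds_aux_log {t : ℝ} (ht : 0 ≤ t) {j : ℕ} (hj : 0 < j) (m : ℕ) :
    mt (Real.log (((j + m : ℕ) : ℝ) / j))
      ≤ (1 + (((j + m : ℕ) : ℝ) / j) * Real.exp (-t)) * mt t := by
  have hj' : (0 : ℝ) < j := by exact_mod_cast hj
  set y : ℝ := ((j + m : ℕ) : ℝ) / j with hy
  have hy1 : 1 ≤ y := by
    rw [hy, le_div_iff₀ hj']; push_cast; have : (0 : ℝ) ≤ m := Nat.cast_nonneg _; linarith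
  have hy0 : 0 < y := by linarith
  have hlog : 0 ≤ Real.log y := Real.log_nonneg hy1
  have hmt : 1 ≤ mt t := one_le_mt ht
  have he : 0 < Real.exp (-t) := Real.exp_pos _
  by_cases h : Real.log y ≤ t
  · have h1 := mt_mono hlog h
    have h2 : 0 ≤ y * Real.exp (-t) * mt t := by positivity
    nlinarith
  · push Not at h
    have h1 : mt (Real.log y) ≤ Real.exp (Real.log y - t) * mt t := by
      have := mt_add_le (s := Real.log y - t) (t := t) (by linarith) ht
      simpa using this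
    have h2 : Real.exp (Real.log y - t) = y * Real.exp (-t) := by
      rw [sub_eq_add_neg, Real.exp_add, Real.exp_log hy0]
    rw [h2] at h1
    nlinarith

lemma bounds_aux_log_nonneg {j : ℕ} (hj : 0 < j) (m : ℕ) :
    0 ≤ mt (Real.log (((j + m : ℕ) : ℝ) / j)) := by
  have hj' : (0 : ℝ) < j := by exact_mod_cast hj
  have hy1 : 1 ≤ ((j + m : ℕ) : ℝ) / j := by
    rw [le_div_iff₀ hj']; push_cast; have : (0 : ℝ) ≤ m := Nat.cast_nonneg _; linarith
  have := one_le_mt (Real.log_nonneg hy1)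
  linarith

theorem yw_mt : ∀ (t : ℝ), 0 ≤ t → ∀ j : ℕ, 0 < j →
    Summable (fun m => yw t j m * mt (Real.log (((j + m : ℕ) : ℝ) / j))) ∧
    ∑' m, yw t j m * mt (Real.log (((j + m : ℕ) : ℝ) / j)) ≤ 2 * mt t := by
  intro t ht j hj
  have hj' : (0 : ℝ) < j := by exact_mod_cast hj
  have h1 := yw_hasSum ht hj
  have h2 := yw_hasSum_mean ht hj
  have h3 : HasSum (fun m => yw t j m * ((1 + (((j + m : ℕ) : ℝ) / j) * Real.exp (-t)) * mt t))
      (2 * mt t) := by
    have h4 := (h1.add (h2.mul_right (Real.exp (-t) / j))).mul_right (mt t)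
    have e : (1 + (j : ℝ) * Real.exp t * (Real.exp (-t) / j)) * mt t = 2 * mt t := by
      have : Real.exp t * Real.exp (-t) = 1 := by rw [← Real.exp_add]; simp
      have h5 : (j : ℝ) * Real.exp t * (Real.exp (-t) / j) = 1 := by
        field_simp
        exact this
      rw [h5]; ring
    rw [e] at h4
    have e2 : (fun m => (yw t j m + yw t j m * ((j + m : ℕ) : ℝ) * (Real.exp (-t) / j)) * mt t)
        = fun m => yw t j m * ((1 + (((j + m : ℕ) : ℝ) / j) * Real.exp (-t)) * mt t) := by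
      funext m; ring
    rw [e2] at h4
    exact h4
  have hle : ∀ m, yw t j m * mt (Real.log (((j + m : ℕ) : ℝ) / j))
      ≤ yw t j m * ((1 + (((j + m : ℕ) : ℝ) / j) * Real.exp (-t)) * mt t) := fun m =>
    mul_le_mul_of_nonneg_left (bounds_aux_log ht hj m) (yw_nonneg ht j m)
  have hs : Summable (fun m => yw t j m * mt (Real.log (((j + m : ℕ) : ℝ) / j))) :=
    Summable.of_nonneg_of_le
      (fun m => mul_nonneg (yw_nonneg ht j m) (bounds_aux_log_nonneg hj m)) hle h3.summable
  exact ⟨hs, hasSum_le hle hs.hasSum h3⟩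

lemma bounds_aux_dom_card : Dom Sub card card :=
  ⟨1, zero_le_one, fun x _ => by
    rw [one_mul, abs_of_nonneg (by simp [card])]⟩

lemma bounds_aux_dom_XU : Dom (fun _ => True) XU XU :=
  ⟨1, zero_le_one, fun x _ => by
    rw [one_mul, abs_of_nonneg (by simp [XU])]⟩

lemma bounds_aux_phit {t : ℝ} (ht : 0 ≤ t) {x : St × Finset W} (hx : Sub x) {j : ℕ} (hj : 0 < j)
    (hn : x.1.n ≤ j) : HasSum (fun m => yw t j m * phi m j x) (phit t x) :=
  P_hasSum (wt_card (fun _ => true)) bounds_aux_dom_card ht hx hj hn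

lemma bounds_aux_mt {t : ℝ} (ht : 0 ≤ t) {j : ℕ} (hj : 2 ≤ j) :
    HasSum (fun m => yw t j m * mm m j) (mt t) :=
  P_hasSum wt_XU bounds_aux_dom_XU ht trivial (by omega)
    (by simp [St.n, seed]; omega)

theorem phit_le : ∃ C : ℝ, 0 < C ∧ ∀ t : ℝ, 0 ≤ t → ∀ x, Sub x → phit t x ≤ C * card x * mt t := by
  obtain ⟨C, hC, hK⟩ := KK_le
  refine ⟨320 * C, by positivity, fun t ht x hx => ?_⟩
  set j := max x.1.size 2 with hj
  have hj2 : 2 ≤ j := le_max_right _ _
  have hjs : x.1.size ≤ j := le_max_left _ _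
  have h1 := bounds_aux_phit ht hx (by omega : 0 < j) (x.1.n_le_size.trans hjs)
  obtain ⟨h2, h3⟩ := yw_mt t ht j (by omega)
  have hc : 0 ≤ card x := by simp [card]
  have h4 : ∀ m, yw t j m * phi m j x
      ≤ (yw t j m * mt (Real.log (((j + m : ℕ) : ℝ) / j))) * (160 * C * card x) := by
    intro m
    have h5 : phi m j x ≤ 160 * (C * mt (Real.log (((j + m : ℕ) : ℝ) / j))) * card x := by
      refine (phi_le_Gh m hx (by omega) hjs).trans ((closure_bound m j hx (by omega) hjs).trans ?_)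
      apply mul_le_mul_of_nonneg_right _ hc
      exact mul_le_mul_of_nonneg_left (hK m j hj2) (by norm_num)
    calc _ ≤ yw t j m * (160 * (C * mt (Real.log (((j + m : ℕ) : ℝ) / j))) * card x) :=
          mul_le_mul_of_nonneg_left h5 (yw_nonneg ht j m)
      _ = _ := by ring
  have h6 := hasSum_le h4 h1 (h2.hasSum.mul_right (160 * C * card x))
  calc phit t x ≤ _ := h6
    _ ≤ 2 * mt t * (160 * C * card x) := mul_le_mul_of_nonneg_right h3 (by positivity)
    _ = _ := by ring

theorem phit_new : ∃ C : ℝ, 0 < C ∧ ∀ t : ℝ, 0 ≤ t → ∀ (S : St) (y : W), y ∈ S.V → 0 < S.L y →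
    |phit t (S.bir y, {S.new y}) - mt t| ≤ C * mt t / S.L y := by
  obtain ⟨C, hC, hK⟩ := KK_le
  refine ⟨1000 * C, by positivity, fun t ht S y hy hL => ?_⟩
  set j := max (S.bir y).size 2 with hj
  have hj2 : 2 ≤ j := le_max_right _ _
  have hjs : (S.bir y).size ≤ j := le_max_left _ _
  have hsub : Sub (S.bir y, ({S.new y} : Finset W)) := by
    unfold Sub; simp [St.bir_V hy hL]
  have h1 := bounds_aux_phit ht hsub (by omega : 0 < j) ((S.bir y).n_le_size.trans hjs)
  have h1' := bounds_aux_mt ht hj2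
  obtain ⟨h2, h3⟩ := yw_mt t ht j (by omega)
  have hL' : (0 : ℝ) < S.L y := by exact_mod_cast hL
  have h4 : ∀ m, |yw t j m * phi m j (S.bir y, {S.new y}) - yw t j m * mm m j|
      ≤ (yw t j m * mt (Real.log (((j + m : ℕ) : ℝ) / j))) * (500 * C / S.L y) := by
    intro m
    have h5 : |phi m j (S.bir y, {S.new y}) - mm m j|
        ≤ 500 * (C * mt (Real.log (((j + m : ℕ) : ℝ) / j))) / S.L y := by
      refine (closure_new m j S y hy hL hjs).trans ?_
      gcongr
      exact hK m j hj2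
    rw [← mul_sub, abs_mul, abs_of_nonneg (yw_nonneg ht j m)]
    calc _ ≤ yw t j m * (500 * (C * mt (Real.log (((j + m : ℕ) : ℝ) / j))) / S.L y) :=
          mul_le_mul_of_nonneg_left h5 (yw_nonneg ht j m)
      _ = _ := by ring
  have h6 := h1.sub h1'
  have h7 := h2.hasSum.mul_right (500 * C / S.L y)
  have h8 : |phit t (S.bir y, {S.new y}) - mt t| ≤ (∑' m, yw t j m * mt (Real.log (((j + m : ℕ) : ℝ) / j)))
      * (500 * C / S.L y) := by
    rw [abs_le]
    constructor
    · rw [neg_le_iff_add_nonneg]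
      have := hasSum_le (fun m => (abs_le.1 (h4 m)).1) h7.neg h6
      linarith
    · exact hasSum_le (fun m => (abs_le.1 (h4 m)).2) h6 h7
  calc |phit t (S.bir y, {S.new y}) - mt t| ≤ _ := h8
    _ ≤ 2 * mt t * (500 * C / S.L y) := mul_le_mul_of_nonneg_right h3 (by positivity)
    _ = _ := by ring

theorem mt_sub : ∃ C : ℝ, 0 < C ∧ ∀ s t : ℝ, 0 ≤ s → 0 ≤ t → mt (s + t) ≤ C * mt s * mt t := by
  obtain ⟨C, hC, hle⟩ := phit_le
  refine ⟨C, hC, fun s t hs ht => ?_⟩
  have hmt : 1 ≤ mt t := one_le_mt ht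
  have h1 : mt (s + t) = P inhU s (P inhU t XU) (seed, ()) :=
    P_semigroup wt_XU bounds_aux_dom_XU hs ht trivial
  have h2 : ∀ y : St × Unit, True → P inhU t XU y ≤ (C * mt t) * XU y := by
    intro y _
    have h3 : phit t (y.1, y.1.V) = P inhU t XU y := by
      unfold phit P
      apply tsum_congr
      intro m
      have := phi_V m (y.1.n + 1) y.1
      unfold phi at this
      simp only [this]
    rw [← h3]
    refine (hle t ht (y.1, y.1.V) (Finset.Subset.refl _)).trans (le_of_eq ?_)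
    simp only [card, XU]; ring
  have hD : Dom (fun _ : St × Unit => True) XU (fun y => (C * mt t) * XU y) :=
    ⟨C * mt t, by positivity, fun x _ => by
      rw [abs_of_nonneg]
      have : 0 ≤ XU x := by simp [XU]
      positivity⟩
  have h4 := P_mono (F := P inhU t XU) (G := fun y => (C * mt t) * XU y) wt_XU
    (Dom_P wt_XU bounds_aux_dom_XU ht) hD hs (x := (seed, ())) trivial h2
  rw [h1]
  refine h4.trans (le_of_eq ?_)
  rw [P_smul]
  show C * mt t * mt s = _
  ring

end FT
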