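import Pool.Agent.FT.Objs

/-! # Module PrLim (friend tree, MP_5ccad8_pr) -/

open Finset MeasureTheory Filter Topology

namespace FT

lemma prlim_aux_prod (μ : ℝ) (n : ℕ) :
    ∏ j ∈ range n, (μ + 1 + (j : ℝ)) = pr μ 1 n * (n.factorial : ℝ) := by
  unfold pr
  induction n with
  | zero => simp
  | succ n ih =>
    rw [prod_range_succ, prod_range_succ, ih, Nat.factorial_succ]
    push_cast
    have : (1 : ℝ) + n ≠ 0 := by positivity
    field_simp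
    ring

lemma prlim_aux_split (μ : ℝ) (a m : ℕ) :
    pr μ 1 (a + m) = pr μ 1 a * pr μ (a + 1) m := by
  unfold pr
  rw [prod_range_add]
  congr 1
  apply prod_congr rfl
  intro i _
  rw [show 1 + (a + i) = a + 1 + i by ring]

lemma prlim_aux_ratio (c : ℝ) :
    Tendsto (fun n : ℕ => (n : ℝ) / ((n : ℝ) + c)) atTop (𝓝 1) := by
  simpa using tendsto_natCast_div_add_atTop (𝕜 := ℝ) c

lemma prlim_aux_tendsto {μ : ℝ} (hμ : 0 ≤ μ) :
    Tendsto (fun n : ℕ => pr μ 1 n / ((n : ℝ) + 1) ^ μ) atTop (𝓝 (1 / Real.Gamma (μ + 1))) := by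
  rw [← tendsto_add_atTop_iff_nat 1]
  have hG : Real.Gamma (μ + 1) ≠ 0 := (Real.Gamma_pos_of_pos (by linarith)).ne'
  have h1 : Tendsto (fun n : ℕ => 1 / Real.GammaSeq (μ + 1) n) atTop
      (𝓝 (1 / Real.Gamma (μ + 1))) :=
    (tendsto_const_nhds).div (Real.GammaSeq_tendsto_Gamma (μ + 1)) hG
  have h2 : Tendsto (fun n : ℕ => (n : ℝ) / ((n : ℝ) + 1) * ((n : ℝ) / ((n : ℝ) + 2)) ^ μ) atTop
      (𝓝 (1 * 1 ^ μ)) :=
    (prlim_aux_ratio 1).mul ((prlim_aux_ratio 2).rpow_const (Or.inl one_ne_zero))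
  have h3 := h1.mul h2
  rw [Real.one_rpow, mul_one, mul_one] at h3
  refine h3.congr' ?_
  filter_upwards [eventually_gt_atTop 0] with n hn
  have hn' : (0 : ℝ) < n := by exact_mod_cast hn
  rw [Real.GammaSeq, prlim_aux_prod, Nat.factorial_succ]
  have e1 : (n : ℝ) ^ (μ + 1) = (n : ℝ) ^ μ * n := by
    rw [Real.rpow_add hn', Real.rpow_one]
  have e2 : ((n : ℝ) / ((n : ℝ) + 2)) ^ μ = (n : ℝ) ^ μ / ((n : ℝ) + 2) ^ μ :=
    Real.div_rpow hn'.le (by positivity) μ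
  rw [e1, e2]
  have h4 : (0 : ℝ) < (n : ℝ) ^ μ := Real.rpow_pos_of_pos hn' _
  have h5 : (0 : ℝ) < ((n : ℝ) + 2) ^ μ := Real.rpow_pos_of_pos (by positivity) _
  have h6 : (n.factorial : ℝ) ≠ 0 := by positivity
  have h7 : pr μ 1 (n + 1) ≠ 0 := (pr_pos hμ 1 (n + 1)).ne'
  have h8 : ((n + 1 : ℕ) : ℝ) + 1 = (n : ℝ) + 2 := by push_cast; ring
  rw [h8]
  push_cast
  field_simp

theorem pr_tendsto {μ : ℝ} (hμ : 0 ≤ μ) : ∃ k : ℝ, 0 < k ∧
    Tendsto (fun n : ℕ => pr μ 3 (n - 3) / (n : ℝ) ^ μ) atTop (𝓝 k) := by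
  have hG : 0 < Real.Gamma (μ + 1) := Real.Gamma_pos_of_pos (by linarith)
  have hp : 0 < pr μ 1 2 := pr_pos hμ 1 2
  refine ⟨1 / Real.Gamma (μ + 1) / pr μ 1 2, by positivity, ?_⟩
  rw [← tendsto_add_atTop_iff_nat 3]
  have h1 := ((tendsto_add_atTop_iff_nat 2).2 (prlim_aux_tendsto hμ)).div_const (pr μ 1 2)
  refine h1.congr ?_
  intro n
  rw [show n + 3 - 3 = n by omega, show n + 2 = 2 + n by ring, prlim_aux_split]
  have h2 : ((2 + n : ℕ) : ℝ) + 1 = ((n + 3 : ℕ) : ℝ) := by push_cast; ring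
  rw [h2]
  field_simp

theorem pr_bounds {μ : ℝ} (hμ : 0 ≤ μ) : ∃ C : ℝ, 0 < C ∧ ∀ j m : ℕ, 0 < j →
    (((j + m : ℕ) : ℝ) / j) ^ μ ≤ C * pr μ j m ∧ pr μ j m ≤ C * (((j + m : ℕ) : ℝ) / j) ^ μ := by
  have hG : 0 < Real.Gamma (μ + 1) := Real.Gamma_pos_of_pos (by linarith)
  set g : ℕ → ℝ := fun n => pr μ 1 n / ((n : ℝ) + 1) ^ μ with hg
  have hgp : ∀ n, 0 < g n := fun n => div_pos (pr_pos hμ 1 n) (Real.rpow_pos_of_pos (by positivity) _)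
  have ht := prlim_aux_tendsto hμ
  obtain ⟨C1, hC1⟩ := ht.bddAbove_range
  have ht2 : Tendsto (fun n => (g n)⁻¹) atTop (𝓝 (1 / Real.Gamma (μ + 1))⁻¹) :=
    ht.inv₀ (by positivity)
  obtain ⟨C2, hC2⟩ := ht2.bddAbove_range
  have h1 : ∀ n, g n ≤ C1 := fun n => hC1 ⟨n, rfl⟩
  have h2 : ∀ n, (g n)⁻¹ ≤ C2 := fun n => hC2 ⟨n, rfl⟩
  have hC1p : 0 < C1 := (hgp 0).trans_le (h1 0)
  have hC2p : 0 < C2 := (inv_pos.2 (hgp 0)).trans_le (h2 0)
  refine ⟨C1 * C2, by positivity, ?_⟩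
  intro j m hj
  obtain ⟨a, rfl⟩ : ∃ a, j = a + 1 := ⟨j - 1, by omega⟩
  have key : ∀ n, pr μ 1 n = g n * ((n : ℝ) + 1) ^ μ := by
    intro n
    have : (0 : ℝ) < ((n : ℝ) + 1) ^ μ := Real.rpow_pos_of_pos (by positivity) _
    simp only [hg]
    field_simp
  have hs := prlim_aux_split μ a m
  rw [key (a + m), key a] at hs
  have e1 : (((a + 1 + m : ℕ) : ℝ) / ((a + 1 : ℕ) : ℝ)) ^ μ =
      (((a + m : ℕ) : ℝ) + 1) ^ μ / ((a : ℝ) + 1) ^ μ := by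
    rw [← Real.div_rpow (by positivity) (by positivity)]
    congr 1
    push_cast
    ring
  have hA : (0 : ℝ) < ((a : ℝ) + 1) ^ μ := Real.rpow_pos_of_pos (by positivity) _
  have hB : (0 : ℝ) < (((a + m : ℕ) : ℝ) + 1) ^ μ := Real.rpow_pos_of_pos (by positivity) _
  have e2 : pr μ (a + 1) m = g (a + m) * (g a)⁻¹ *
      ((((a + m : ℕ) : ℝ) + 1) ^ μ / ((a : ℝ) + 1) ^ μ) := by
    have := hgp a
    field_simp
    linarith
  rw [e1, e2]
  set Q : ℝ := (((a + m : ℕ) : ℝ) + 1) ^ μ / ((a : ℝ) + 1) ^ μ with hQ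
  have hQp : 0 < Q := by positivity
  have h3 : g (a + m) * (g a)⁻¹ ≤ C1 * C2 :=
    mul_le_mul (h1 _) (h2 _) (inv_pos.2 (hgp a)).le hC1p.le
  constructor
  · have h4 : (1 : ℝ) ≤ C1 * C2 * (g (a + m) * (g a)⁻¹) := by
      have h5 : 1 ≤ C2 * g (a + m) := by
        have := h2 (a + m)
        have h6 := hgp (a + m)
        calc (1 : ℝ) = (g (a + m))⁻¹ * g (a + m) := by field_simp
          _ ≤ C2 * g (a + m) := mul_le_mul_of_nonneg_right this h6.le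
      have h6 : 1 ≤ C1 * (g a)⁻¹ := by
        have := h1 a
        have h7 := hgp a
        calc (1 : ℝ) = g a * (g a)⁻¹ := by field_simp
          _ ≤ C1 * (g a)⁻¹ := mul_le_mul_of_nonneg_right this (inv_pos.2 h7).le
      calc (1 : ℝ) = 1 * 1 := by ring
        _ ≤ (C2 * g (a + m)) * (C1 * (g a)⁻¹) :=
          mul_le_mul h5 h6 zero_le_one (by linarith)
        _ = _ := by ring
    calc Q = 1 * Q := by ring
      _ ≤ C1 * C2 * (g (a + m) * (g a)⁻¹) * Q := mul_le_mul_of_nonneg_right h4 hQp.le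
      _ = _ := by ring
  · exact mul_le_mul_of_nonneg_right h3 hQp.le

end FT
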