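import Pool.Agent.FT.Growth
import Pool.Agent.FT.PrLim

/-! # Module Compare (friend tree, MP_5ccad8_pr) -/

open Finset MeasureTheory Filter Topology

namespace FT

lemma compare_aux_gen (S : St) : 0 ≤ gen inhU XU (S, ()) := by
  unfold gen
  apply sum_nonneg
  intro v hv
  have h1 := rate_bir_nonneg S v
  have e1 : XU (S.arr v, ()) = XU (S, ()) := by simp [XU]
  have e2 : XU (S, ()) ≤ XU (S.bir v, inhU S v ()) := by
    unfold XU
    by_cases hL : 0 < S.L v
    · simp only [St.bir_V hv hL]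
      exact_mod_cast card_le_card (subset_insert _ _)
    · rw [St.bir_of_not (fun h => hL h.2)]
  show 0 ≤ ((S.L v : ℝ) + S.κ v) * (XU (S.arr v, ()) - XU (S, ()))
    + ((S.L v : ℝ) / S.d v) * (XU (S.bir v, inhU S v ()) - XU (S, ()))
  rw [e1, sub_self, mul_zero, zero_add]
  exact mul_nonneg h1 (sub_nonneg.2 e2)

lemma compare_aux_n : seed.n = 2 := by
  unfold St.n
  simp [seed]

lemma compare_aux_mono_succ (m j : ℕ) (hj : 2 ≤ j) : mm m j ≤ mm (m + 1) j := by
  unfold mm
  rw [U_succ_last]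
  apply U_mono closed_true m trivial (by omega) (by simpa [compare_aux_n] using hj)
  intro y _ _
  unfold Aop
  have h := compare_aux_gen y.1
  have h2 : 0 ≤ gen inhU XU y := h
  have : 0 ≤ 1 / ((j + m : ℕ) : ℝ) * gen inhU XU y := by positivity
  linarith

lemma compare_aux_mono (j : ℕ) (hj : 2 ≤ j) : Monotone (fun m => mm m j) :=
  monotone_nat_of_le_succ fun m => compare_aux_mono_succ m j hj

lemma compare_aux_zero (j : ℕ) : mm 0 j = 1 := by
  simp [mm, U_zero, XU, seed]

lemma compare_aux_dom : Dom (fun _ : St × Unit => True) XU XU :=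
  ⟨1, zero_le_one, fun x _ => by
    rw [one_mul, abs_of_nonneg]
    unfold XU
    positivity⟩

lemma compare_aux_main (m j : ℕ) (hj : 2 ≤ j) :
    mm m j ≤ 24 * mt (Real.log (((j + m : ℕ) : ℝ) / j)) := by
  have hj0 : (0 : ℝ) < j := by exact_mod_cast (by omega : 0 < j)
  have hj2 : (2 : ℝ) ≤ j := by exact_mod_cast hj
  have hq : (1 : ℝ) ≤ ((j + m : ℕ) : ℝ) / j := by
    rw [le_div_iff₀ hj0, one_mul]; exact_mod_cast Nat.le_add_right j m
  set r := Real.log (((j + m : ℕ) : ℝ) / j) with hr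
  have hr0 : 0 ≤ r := Real.log_nonneg hq
  have h8 : 0 ≤ Real.log 8 := Real.log_nonneg (by norm_num)
  have hT : 0 ≤ Real.log 8 + r := by linarith
  have hexp : Real.exp (Real.log 8 + r) = 8 * (((j + m : ℕ) : ℝ) / j) := by
    rw [Real.exp_add, Real.exp_log (by norm_num), hr, Real.exp_log (by linarith)]
  have hsum := P_hasSum (x := (seed, ())) (j := j) wt_XU compare_aux_dom hT trivial (by omega)
    (by simpa [compare_aux_n] using hj)
  have htail := yw_lower_tail hT (by omega : 0 < j) (η := 7 / 8) (by norm_num) (j + m) (by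
    rw [hexp]
    have : (j : ℝ) * (8 * (((j + m : ℕ) : ℝ) / j)) * (1 - 7 / 8) = ((j + m : ℕ) : ℝ) := by
      field_simp; norm_num
    rw [this])
  have hyw := yw_hasSum hT (by omega : 0 < j)
  have hnn : ∀ k, 0 ≤ yw (Real.log 8 + r) j k := fun k => yw_nonneg hT j k
  -- the mass of `{k > m}`
  have hs1 : Summable fun k => (if j + k ≤ j + m then yw (Real.log 8 + r) j k else 0) := by
    refine Summable.of_nonneg_of_le (fun k => ?_) (fun k => ?_) hyw.summable
    · split_ifs; exacts [hnn k, le_rfl]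
    · split_ifs; exacts [le_rfl, hnn k]
  have hs2 := hyw.sub hs1.hasSum
  have hle : mm m j * (1 - ∑' k, (if j + k ≤ j + m then yw (Real.log 8 + r) j k else 0))
      ≤ mt (Real.log 8 + r) := by
    have hA := hs2.mul_left (mm m j)
    refine hasSum_le ?_ hA hsum
    intro k
    have hpos : 0 ≤ mm k j := by
      have := compare_aux_mono j hj (Nat.zero_le k)
      simp only [compare_aux_zero] at this
      linarith
    show mm m j * (yw (Real.log 8 + r) j k - if j + k ≤ j + m then yw (Real.log 8 + r) j k else 0)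
      ≤ yw (Real.log 8 + r) j k * mm k j
    split_ifs with h
    · rw [sub_self, mul_zero]
      exact mul_nonneg (hnn k) hpos
    · rw [sub_zero, mul_comm]
      exact mul_le_mul_of_nonneg_left (compare_aux_mono j hj (by omega)) (hnn k)
  have htail' : ∑' k, (if j + k ≤ j + m then yw (Real.log 8 + r) j k else 0) ≤ 2 / 3 := by
    refine htail.trans ?_
    rw [div_le_div_iff₀ (by positivity) (by norm_num)]
    nlinarith
  have hmpos : 0 ≤ mm m j := by
    have := compare_aux_mono j hj (Nat.zero_le m)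
    simp only [compare_aux_zero] at this
    linarith
  have h3 : mm m j * (1 / 3) ≤ mt (Real.log 8 + r) := by
    refine le_trans ?_ hle
    apply mul_le_mul_of_nonneg_left _ hmpos
    linarith
  have h4 := mt_add_le h8 hr0
  rw [Real.exp_log (by norm_num : (0 : ℝ) < 8)] at h4
  linarith

theorem mm_le : ∃ C : ℝ, 0 < C ∧ ∀ m j : ℕ, 2 ≤ j →
    mm m j ≤ C * mt (Real.log (((j + m : ℕ) : ℝ) / j)) :=
  ⟨24, by norm_num, compare_aux_main⟩

lemma compare_aux_KK (m : ℕ) : ∀ (j : ℕ) (B : ℝ), 0 < j →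
    (∀ k ≤ m, pr (9 / 20) j k * mm (m - k) (j + k) ≤ B) → KK m j ≤ B := by
  induction m with
  | zero =>
    intro j B _ h
    have := h 0 le_rfl
    rw [pr_zero, one_mul, Nat.sub_zero, compare_aux_zero] at this
    exact this
  | succ m ih =>
    intro j B hj h
    have hj0 : (0 : ℝ) < j := by exact_mod_cast hj
    show max (mm (m + 1) j) ((1 + (9 / 20) / (j : ℝ)) * KK m (j + 1)) ≤ B
    apply max_le
    · have := h 0 (Nat.zero_le _)
      rwa [pr_zero, one_mul, Nat.sub_zero] at this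
    · have hp : (0 : ℝ) < 1 + (9 / 20) / (j : ℝ) := by positivity
      have := ih (j + 1) (B / (1 + (9 / 20) / (j : ℝ))) (by omega) (fun k hk => by
        rw [le_div_iff₀ hp]
        have h1 := h (k + 1) (by omega)
        rw [pr_succ, show m + 1 - (k + 1) = m - k by omega,
          show j + (k + 1) = j + 1 + k by ring] at h1
        calc pr (9 / 20) (j + 1) k * mm (m - k) (j + 1 + k) * (1 + 9 / 20 / (j : ℝ))
            = (1 + 9 / 20 / (j : ℝ)) * pr (9 / 20) (j + 1) k * mm (m - k) (j + 1 + k) := by ring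
          _ ≤ B := h1)
      rw [le_div_iff₀ hp] at this
      linarith

theorem KK_le : ∃ C : ℝ, 0 < C ∧ ∀ m j : ℕ, 2 ≤ j →
    KK m j ≤ C * mt (Real.log (((j + m : ℕ) : ℝ) / j)) := by
  obtain ⟨C1, hC1, h1⟩ := pr_bounds (μ := 9 / 20) (by norm_num)
  obtain ⟨C2, hC2, h2⟩ := mt_growth
  refine ⟨C1 * 24 * C2, by positivity, fun m j hj => ?_⟩
  apply compare_aux_KK m j _ (by omega)
  intro k hk
  have hj0 : (0 : ℝ) < j := by exact_mod_cast (by omega : 0 < j)
  have hjk0 : (0 : ℝ) < ((j + k : ℕ) : ℝ) := by exact_mod_cast (by omega : 0 < j + k)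
  have hjm0 : (0 : ℝ) < ((j + m : ℕ) : ℝ) := by exact_mod_cast (by omega : 0 < j + m)
  have ha := (h1 j k (by omega)).2
  have hb := compare_aux_main (m - k) (j + k) (by omega)
  rw [show j + k + (m - k) = j + m by omega] at hb
  have hrt : Real.log (((j + m : ℕ) : ℝ) / ((j + k : ℕ) : ℝ))
      ≤ Real.log (((j + m : ℕ) : ℝ) / j) := by
    apply Real.log_le_log (by positivity)
    apply div_le_div_of_nonneg_left hjm0.le hj0
    exact_mod_cast Nat.le_add_right j k
  have hr0 : 0 ≤ Real.log (((j + m : ℕ) : ℝ) / ((j + k : ℕ) : ℝ)) := by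
    apply Real.log_nonneg
    rw [le_div_iff₀ hjk0, one_mul]
    exact_mod_cast (by omega : j + k ≤ j + m)
  have hc := h2 _ _ hr0 hrt
  have hdiff : Real.log (((j + m : ℕ) : ℝ) / j)
      - Real.log (((j + m : ℕ) : ℝ) / ((j + k : ℕ) : ℝ)) = Real.log (((j + k : ℕ) : ℝ) / j) := by
    rw [Real.log_div hjm0.ne' hj0.ne', Real.log_div hjm0.ne' hjk0.ne',
      Real.log_div hjk0.ne' hj0.ne']
    ring
  rw [hdiff] at hc
  have hq : (0 : ℝ) < ((j + k : ℕ) : ℝ) / j := by positivity
  have hpw : (((j + k : ℕ) : ℝ) / j) ^ ((9 : ℝ) / 20)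
      * Real.exp (-((9 / 20) * Real.log (((j + k : ℕ) : ℝ) / j))) = 1 := by
    rw [Real.rpow_def_of_pos hq, ← Real.exp_add, ← Real.exp_zero]
    congr 1
    ring
  have hmt0 : 0 ≤ mt (Real.log (((j + m : ℕ) : ℝ) / j)) :=
    (zero_le_one.trans (one_le_mt (hr0.trans hrt)))
  have hmm0 : 0 ≤ mm (m - k) (j + k) := by
    have := compare_aux_mono (j + k) (by omega) (Nat.zero_le (m - k))
    simp only [compare_aux_zero] at this
    linarith
  calc pr (9 / 20) j k * mm (m - k) (j + k)
      ≤ (C1 * (((j + k : ℕ) : ℝ) / j) ^ ((9 : ℝ) / 20)) * mm (m - k) (j + k) :=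
        mul_le_mul_of_nonneg_right ha hmm0
    _ ≤ (C1 * (((j + k : ℕ) : ℝ) / j) ^ ((9 : ℝ) / 20))
        * (24 * mt (Real.log (((j + m : ℕ) : ℝ) / ((j + k : ℕ) : ℝ)))) :=
        mul_le_mul_of_nonneg_left hb (by positivity)
    _ ≤ (C1 * (((j + k : ℕ) : ℝ) / j) ^ ((9 : ℝ) / 20))
        * (24 * (C2 * Real.exp (-((9 / 20) * Real.log (((j + k : ℕ) : ℝ) / j)))
          * mt (Real.log (((j + m : ℕ) : ℝ) / j)))) := by
        apply mul_le_mul_of_nonneg_left _ (by positivity)
        exact mul_le_mul_of_nonneg_left hc (by norm_num)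
    _ = C1 * 24 * C2 * mt (Real.log (((j + m : ℕ) : ℝ) / j))
        * ((((j + k : ℕ) : ℝ) / j) ^ ((9 : ℝ) / 20)
          * Real.exp (-((9 / 20) * Real.log (((j + k : ℕ) : ℝ) / j)))) := by ring
    _ = C1 * 24 * C2 * mt (Real.log (((j + m : ℕ) : ℝ) / j)) := by rw [hpw, mul_one]

end FT
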