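import Pool.Agent.FT.Defs

/-! # Basic facts on the moves `arr`, `bir` and on restrictions -/

namespace FT

open Finset

namespace St

variable {S : St} {v w : W}

lemma d_nonneg (S : St) (v : W) : 0 ≤ S.d v := by unfold d; positivity

lemma two_le_d (hv : v ∈ S.V) : 2 ≤ S.d v := by
  have := S.two_le v hv
  unfold d
  exact_mod_cast this

lemma d_pos (hv : v ∈ S.V) : 0 < S.d v := lt_of_lt_of_le two_pos (two_le_d hv)

lemma κ_nonneg (S : St) (v : W) : 0 ≤ S.κ v :=
  sum_nonneg fun w _ => by have := S.d_nonneg w; positivity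

lemma deg_add_h (hv : v ∈ S.V) : S.deg v + S.h v = S.s v := by
  have := S.deg_le' hv
  unfold h; omega

lemma κ_le (S : St) (v : W) : S.κ v ≤ (S.deg v : ℝ) / 2 := by
  unfold κ deg
  calc ∑ w ∈ S.nb v, 1 / S.d w ≤ ∑ w ∈ S.nb v, (1 / 2 : ℝ) := by
        apply sum_le_sum
        intro w hw
        exact one_div_le_one_div_of_le two_pos (two_le_d (S.mem_nb.1 hw).1)
    _ = ((S.nb v).card : ℝ) / 2 := by rw [sum_const, nsmul_eq_mul]; ring

lemma κ_add_h (hv : v ∈ S.V) : S.κ v + (S.h v : ℝ) / 2 ≤ (S.s v : ℝ) / 2 := by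
  have h1 := S.κ_le v
  have h2 : (S.deg v : ℝ) + S.h v = S.s v := by exact_mod_cast deg_add_h hv
  linarith

lemma κ_le_s (hv : v ∈ S.V) : S.κ v ≤ (S.s v : ℝ) / 2 := by
  have := κ_add_h hv
  have h2 : (0 : ℝ) ≤ S.h v := Nat.cast_nonneg _
  linarith

/-! ### `arr` -/

lemma arr_of_not_mem (hv : v ∉ S.V) : S.arr v = S := by unfold arr; rw [dif_neg hv]

@[simp] lemma arr_V (S : St) (v : W) : (S.arr v).V = S.V := by
  unfold arr; split_ifs <;> rfl

@[simp] lemma arr_s (S : St) (v w : W) : (S.arr v).s w = S.s w := by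
  unfold arr; split_ifs <;> rfl

lemma arr_L (hv : v ∈ S.V) : (S.arr v).L = Function.update S.L v (S.L v + 1) := by
  unfold arr; rw [dif_pos hv]

lemma arr_L_self (hv : v ∈ S.V) : (S.arr v).L v = S.L v + 1 := by
  rw [arr_L hv, Function.update_self]

lemma arr_L_ne (h : w ≠ v) : (S.arr v).L w = S.L w := by
  by_cases hv : v ∈ S.V
  · rw [arr_L hv, Function.update_of_ne h]
  · rw [arr_of_not_mem hv]

@[simp] lemma arr_nb (S : St) (v w : W) : (S.arr v).nb w = S.nb w := by simp [nb]
@[simp] lemma arr_deg (S : St) (v w : W) : (S.arr v).deg w = S.deg w := by simp [deg]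
@[simp] lemma arr_h (S : St) (v w : W) : (S.arr v).h w = S.h w := by simp [h]
@[simp] lemma arr_new (S : St) (v w : W) : (S.arr v).new w = S.new w := by simp [new]

lemma arr_d_self (hv : v ∈ S.V) : (S.arr v).d v = S.d v + 1 := by
  unfold d; rw [arr_L_self hv, arr_s]; push_cast; ring

lemma arr_d_ne (h : w ≠ v) : (S.arr v).d w = S.d w := by
  unfold d; rw [arr_L_ne h, arr_s]

lemma arr_d_ge (S : St) (v w : W) : S.d w ≤ (S.arr v).d w := by
  by_cases h : w = v
  · subst h
    by_cases hw : w ∈ S.V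
    · rw [arr_d_self hw]; linarith
    · rw [arr_of_not_mem hw]
  · rw [arr_d_ne h]

@[simp] lemma arr_κ_self (S : St) (v : W) : (S.arr v).κ v = S.κ v := by
  unfold κ
  rw [arr_nb]
  apply sum_congr rfl
  intro w hw
  rw [arr_d_ne]
  rintro rfl
  exact not_adj_self _ (S.mem_nb.1 hw).2

lemma arr_κ_of_adj (hv : v ∈ S.V) (h : adj w v) :
    (S.arr v).κ w = S.κ w - (1 / S.d v - 1 / (S.d v + 1)) := by
  have hm : v ∈ S.nb w := S.mem_nb.2 ⟨hv, h⟩
  unfold κ
  rw [arr_nb, ← add_sum_erase _ _ hm, ← add_sum_erase _ (fun w => 1 / S.d w) hm, arr_d_self hv]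
  have : ∑ x ∈ (S.nb w).erase v, 1 / (S.arr v).d x = ∑ x ∈ (S.nb w).erase v, 1 / S.d x := by
    apply sum_congr rfl
    intro x hx
    rw [arr_d_ne (ne_of_mem_erase hx)]
  rw [this]; ring

lemma arr_κ_of_not_adj (h : ¬ adj w v) : (S.arr v).κ w = S.κ w := by
  unfold κ
  rw [arr_nb]
  apply sum_congr rfl
  intro x hx
  rw [arr_d_ne]
  rintro rfl
  exact h (S.mem_nb.1 hx).2

lemma arr_n (hv : v ∈ S.V) : (S.arr v).n = S.n + 1 := by
  unfold n
  rw [arr_V, ← add_sum_erase _ _ hv, ← add_sum_erase _ (fun w => S.L w + 1) hv, arr_L_self hv]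
  have : ∑ x ∈ S.V.erase v, ((S.arr v).L x + 1) = ∑ x ∈ S.V.erase v, (S.L x + 1) := by
    apply sum_congr rfl
    intro x hx
    rw [arr_L_ne (ne_of_mem_erase hx)]
  rw [this]; ring

lemma arr_size (hv : v ∈ S.V) : (S.arr v).size = S.size + 1 := by
  unfold size
  rw [arr_V, ← add_sum_erase _ _ hv, ← add_sum_erase _ (fun w => S.L w + 1 + S.h w) hv,
    arr_L_self hv]
  have : ∑ x ∈ S.V.erase v, ((S.arr v).L x + 1 + (S.arr v).h x)
      = ∑ x ∈ S.V.erase v, (S.L x + 1 + S.h x) := by
    apply sum_congr rfl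
    intro x hx
    rw [arr_L_ne (ne_of_mem_erase hx), arr_h]
  rw [this, arr_h]; ring

/-! ### `bir` -/

lemma bir_of_not (h : ¬ (v ∈ S.V ∧ 0 < S.L v)) : S.bir v = S := by unfold bir; rw [dif_neg h]

section bir
variable (hv : v ∈ S.V) (hL : 0 < S.L v)
include hv hL

lemma bir_V : (S.bir v).V = insert (S.new v) S.V := by
  unfold bir; rw [dif_pos ⟨hv, hL⟩]

lemma bir_L : (S.bir v).L = Function.update (Function.update S.L v (S.L v - 1)) (S.new v) 1 := by
  unfold bir; rw [dif_pos ⟨hv, hL⟩]

lemma bir_s : (S.bir v).s = Function.update (Function.update S.s v (S.s v + 1)) (S.new v) 1 := by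
  unfold bir; rw [dif_pos ⟨hv, hL⟩]

lemma new_mem_bir : S.new v ∈ (S.bir v).V := by rw [bir_V hv hL]; exact mem_insert_self _ _

lemma mem_bir (hw : w ∈ S.V) : w ∈ (S.bir v).V := by rw [bir_V hv hL]; exact mem_insert_of_mem hw

lemma bir_L_new : (S.bir v).L (S.new v) = 1 := by rw [bir_L hv hL, Function.update_self]

lemma bir_s_new : (S.bir v).s (S.new v) = 1 := by rw [bir_s hv hL, Function.update_self]

lemma bir_L_self : (S.bir v).L v = S.L v - 1 := by
  rw [bir_L hv hL, Function.update_of_ne (S.new_ne v).symm, Function.update_self]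

lemma bir_s_self : (S.bir v).s v = S.s v + 1 := by
  rw [bir_s hv hL, Function.update_of_ne (S.new_ne v).symm, Function.update_self]

lemma bir_L_ne (h : w ≠ v) (h' : w ≠ S.new v) : (S.bir v).L w = S.L w := by
  rw [bir_L hv hL, Function.update_of_ne h', Function.update_of_ne h]

lemma bir_s_ne (h : w ≠ v) (h' : w ≠ S.new v) : (S.bir v).s w = S.s w := by
  rw [bir_s hv hL, Function.update_of_ne h', Function.update_of_ne h]

lemma bir_d_self : (S.bir v).d v = S.d v := by
  unfold d
  rw [bir_L_self hv hL, bir_s_self hv hL, Nat.cast_sub hL]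
  push_cast; ring

lemma bir_d_new : (S.bir v).d (S.new v) = 2 := by
  unfold d
  rw [bir_L_new hv hL, bir_s_new hv hL]
  norm_num

lemma bir_d_ne (h' : w ≠ S.new v) : (S.bir v).d w = S.d w := by
  by_cases h : w = v
  · subst h; exact bir_d_self hv hL
  · unfold d; rw [bir_L_ne hv hL h h', bir_s_ne hv hL h h']

lemma bir_d_mem (hw : w ∈ S.V) : (S.bir v).d w = S.d w :=
  bir_d_ne hv hL (by rintro rfl; exact S.new_not_mem hv hw)

lemma bir_nb_self : (S.bir v).nb v = insert (S.new v) (S.nb v) := by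
  unfold nb; rw [bir_V hv hL]; exact S.filter_self hv

lemma bir_nb_new : (S.bir v).nb (S.new v) = {v} := by
  unfold nb; rw [bir_V hv hL]; exact S.filter_new hv

lemma bir_nb_ne (hw : w ∈ S.V) (h : w ≠ v) : (S.bir v).nb w = S.nb w := by
  unfold nb; rw [bir_V hv hL]; exact S.filter_other hv hw h

lemma bir_deg_self : (S.bir v).deg v = S.deg v + 1 := by
  unfold deg
  rw [bir_nb_self hv hL, card_insert_of_notMem]
  intro h
  exact S.new_not_mem hv (S.mem_nb.1 h).1

lemma bir_deg_new : (S.bir v).deg (S.new v) = 1 := by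
  unfold deg; rw [bir_nb_new hv hL, card_singleton]

lemma bir_deg_ne (hw : w ∈ S.V) (h : w ≠ v) : (S.bir v).deg w = S.deg w := by
  unfold deg; rw [bir_nb_ne hv hL hw h]

lemma bir_h_self : (S.bir v).h v = S.h v := by
  unfold h; rw [bir_s_self hv hL, bir_deg_self hv hL]; omega

lemma bir_h_new : (S.bir v).h (S.new v) = 0 := by
  unfold h; rw [bir_s_new hv hL, bir_deg_new hv hL]

lemma bir_h_ne (hw : w ∈ S.V) (h : w ≠ v) : (S.bir v).h w = S.h w := by
  unfold St.h
  rw [bir_s_ne hv hL h (by rintro rfl; exact S.new_not_mem hv hw), bir_deg_ne hv hL hw h]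

lemma bir_h_mem (hw : w ∈ S.V) : (S.bir v).h w = S.h w := by
  by_cases h : w = v
  · subst h; exact bir_h_self hv hL
  · exact bir_h_ne hv hL hw h

lemma bir_κ_self : (S.bir v).κ v = S.κ v + 1 / 2 := by
  unfold κ
  rw [bir_nb_self hv hL, sum_insert (fun h => S.new_not_mem hv (S.mem_nb.1 h).1),
    bir_d_new hv hL, add_comm]
  congr 1
  apply sum_congr rfl
  intro w hw
  rw [bir_d_mem hv hL (S.mem_nb.1 hw).1]

lemma bir_κ_new : (S.bir v).κ (S.new v) = 1 / S.d v := by
  unfold κ
  rw [bir_nb_new hv hL, sum_singleton, bir_d_self hv hL]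

lemma bir_κ_ne (hw : w ∈ S.V) (h : w ≠ v) : (S.bir v).κ w = S.κ w := by
  unfold κ
  rw [bir_nb_ne hv hL hw h]
  apply sum_congr rfl
  intro x hx
  rw [bir_d_mem hv hL (S.mem_nb.1 hx).1]

lemma bir_n : (S.bir v).n = S.n + 1 := by
  unfold n
  rw [bir_V hv hL, sum_insert (S.new_not_mem hv), bir_L_new hv hL,
    ← add_sum_erase _ _ hv, ← add_sum_erase _ (fun w => S.L w + 1) hv, bir_L_self hv hL]
  have : ∑ x ∈ S.V.erase v, ((S.bir v).L x + 1) = ∑ x ∈ S.V.erase v, (S.L x + 1) := by
    apply sum_congr rfl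
    intro x hx
    rw [bir_L_ne hv hL (ne_of_mem_erase hx)
      (by rintro rfl; exact S.new_not_mem hv (mem_of_mem_erase hx))]
  rw [this]; omega

lemma bir_size : (S.bir v).size = S.size + 1 := by
  unfold size
  rw [bir_V hv hL, sum_insert (S.new_not_mem hv), bir_L_new hv hL, bir_h_new hv hL,
    ← add_sum_erase _ _ hv, ← add_sum_erase _ (fun w => S.L w + 1 + S.h w) hv, bir_L_self hv hL,
    bir_h_self hv hL]
  have : ∑ x ∈ S.V.erase v, ((S.bir v).L x + 1 + (S.bir v).h x)
      = ∑ x ∈ S.V.erase v, (S.L x + 1 + S.h x) := by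
    apply sum_congr rfl
    intro x hx
    rw [bir_L_ne hv hL (ne_of_mem_erase hx)
      (by rintro rfl; exact S.new_not_mem hv (mem_of_mem_erase hx)),
      bir_h_ne hv hL (mem_of_mem_erase hx) (ne_of_mem_erase hx)]
  rw [this]; omega

end bir

lemma n_le_size (S : St) : S.n ≤ S.size := by
  unfold n size; exact sum_le_sum fun v _ => by omega

/-! ### total rate -/

lemma sum_κ (S : St) : ∑ v ∈ S.V, S.κ v = ∑ v ∈ S.V, (S.deg v : ℝ) / S.d v := by
  unfold κ nb
  simp_rw [sum_filter]
  rw [sum_comm]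
  apply sum_congr rfl
  intro w hw
  unfold deg nb
  rw [← sum_filter, sum_const, nsmul_eq_mul]
  rw [show S.V.filter (fun v => adj v w) = S.V.filter (adj w) from
    filter_congr fun x _ => by rw [adj_comm]]
  ring

lemma total_rate (S : St) :
    ∑ v ∈ S.V, ((S.L v : ℝ) + S.κ v + S.L v / S.d v) ≤ S.n := by
  rw [sum_add_distrib, sum_add_distrib, sum_κ]
  unfold n
  push_cast
  rw [sum_add_distrib, add_assoc, ← sum_add_distrib]
  gcongr with v hv
  rw [← add_div, div_le_one (d_pos hv)]
  have : (S.deg v : ℝ) ≤ S.s v := by exact_mod_cast S.deg_le' hv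
  unfold d; linarith

lemma total_rate_h (S : St) :
    ∑ v ∈ S.V, ((S.L v : ℝ) + S.κ v + S.L v / S.d v + S.h v / 2) ≤ S.size := by
  have h1 := S.total_rate
  have h2 : (S.size : ℝ) = S.n + ∑ v ∈ S.V, (S.h v : ℝ) := by
    unfold size n; push_cast; rw [← sum_add_distrib]
  rw [sum_add_distrib, h2]
  gcongr with v hv
  have : (0 : ℝ) ≤ S.h v := Nat.cast_nonneg _
  linarith

/-- without ghosts the total rate is the number of vertices -/
lemma total_rate_eq (S : St) (h0 : ∀ v ∈ S.V, S.h v = 0) :
    ∑ v ∈ S.V, ((S.L v : ℝ) + S.κ v + S.L v / S.d v) = S.n := by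
  rw [sum_add_distrib, sum_add_distrib, sum_κ]
  unfold n
  push_cast
  rw [sum_add_distrib, add_assoc, ← sum_add_distrib]
  congr 1
  apply sum_congr rfl
  intro v hv
  rw [← add_div, div_eq_one_iff_eq (d_pos hv).ne']
  have : (S.deg v : ℝ) = S.s v := by
    have := deg_add_h hv; rw [h0 v hv] at this; exact_mod_cast this
  unfold d; linarith

/-! ### restriction -/

@[simp] lemma res_V (S : St) (R : Finset W) : (S.res R).V = S.V ∩ R := rfl

lemma res_L (S : St) {R : Finset W} (hv : v ∈ S.V) (hR : v ∈ R) : (S.res R).L v = S.L v := by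
  simp [res, hv, hR]

lemma res_s (S : St) {R : Finset W} (hv : v ∈ S.V) (hR : v ∈ R) : (S.res R).s v = S.s v := by
  simp [res, hv, hR]

lemma res_d (S : St) {R : Finset W} (hv : v ∈ S.V) (hR : v ∈ R) : (S.res R).d v = S.d v := by
  unfold d; rw [res_L S hv hR, res_s S hv hR]

lemma res_new (S : St) {R : Finset W} (hv : v ∈ S.V) (hR : v ∈ R) : (S.res R).new v = S.new v := by
  unfold new; rw [res_s S hv hR]

lemma res_nb (S : St) (R : Finset W) (v : W) : (S.res R).nb v = S.nb v ∩ R := by
  ext w; simp only [mem_nb, res_V, mem_inter]; tauto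

lemma res_self (S : St) : S.res S.V = S := by
  ext v
  · simp [res]
  · by_cases h : v ∈ S.V
    · exact res_L S h h
    · rw [S.L_out v h]; simp [res, h]
  · by_cases h : v ∈ S.V
    · exact res_s S h h
    · rw [S.s_out v h]; simp [res, h]

lemma arr_res_mem (S : St) {R : Finset W} (hR : v ∈ R) : (S.arr v).res R = (S.res R).arr v := by
  by_cases hv : v ∈ S.V
  · have hvr : v ∈ (S.res R).V := by simp [hv, hR]
    apply St.ext
    · simp
    · funext w
      by_cases hw : w ∈ S.V ∩ R
      · have hw' := mem_inter.1 hw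
        rw [res_L _ (by simpa using hw'.1) hw'.2]
        by_cases e : w = v
        · subst e; rw [arr_L_self hv, arr_L_self hvr, res_L S hv hR]
        · rw [arr_L_ne e, arr_L_ne e, res_L S hw'.1 hw'.2]
      · rw [((S.arr v).res R).L_out w (by simpa using hw),
          ((S.res R).arr v).L_out w (by simpa using hw)]
    · funext w
      by_cases hw : w ∈ S.V ∩ R
      · have hw' := mem_inter.1 hw
        rw [res_s _ (by simpa using hw'.1) hw'.2, arr_s, arr_s, res_s S hw'.1 hw'.2]
      · rw [((S.arr v).res R).s_out w (by simpa using hw),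
          ((S.res R).arr v).s_out w (by simpa using hw)]
  · rw [arr_of_not_mem hv, arr_of_not_mem (by simp [hv])]

lemma arr_res_not_mem (S : St) {R : Finset W} (hR : v ∉ R) : (S.arr v).res R = S.res R := by
  by_cases hv : v ∈ S.V
  · apply St.ext
    · simp
    · funext w
      by_cases hw : w ∈ S.V ∩ R
      · have hw' := mem_inter.1 hw
        rw [res_L _ (by simpa using hw'.1) hw'.2, arr_L_ne (by rintro rfl; exact hR hw'.2),
          res_L S hw'.1 hw'.2]
      · rw [((S.arr v).res R).L_out w (by simpa using hw), (S.res R).L_out w (by simpa using hw)]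
    · funext w
      by_cases hw : w ∈ S.V ∩ R
      · have hw' := mem_inter.1 hw
        rw [res_s _ (by simpa using hw'.1) hw'.2, arr_s, res_s S hw'.1 hw'.2]
      · rw [((S.arr v).res R).s_out w (by simpa using hw), (S.res R).s_out w (by simpa using hw)]
  · rw [arr_of_not_mem hv]

lemma bir_res_mem (S : St) {R : Finset W} (hv : v ∈ S.V) (hL : 0 < S.L v) (hR : v ∈ R) :
    (S.bir v).res (insert (S.new v) R) = (S.res R).bir v := by
  have hvr : v ∈ (S.res R).V := by simp [hv, hR]
  have hLr : 0 < (S.res R).L v := by rw [res_L S hv hR]; exact hL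
  have hn : (S.res R).new v = S.new v := res_new S hv hR
  have hV : ((S.bir v).res (insert (S.new v) R)).V = insert (S.new v) (S.V ∩ R) := by
    rw [res_V, bir_V hv hL]; ext w; simp only [mem_inter, mem_insert]; tauto
  have hV' : ((S.res R).bir v).V = insert (S.new v) (S.V ∩ R) := by
    rw [bir_V hvr hLr, hn, res_V]
  apply St.ext
  · rw [hV, hV']
  · funext w
    by_cases hw : w ∈ insert (S.new v) (S.V ∩ R)
    · have h1 : w ∈ (S.bir v).V := by
        rw [bir_V hv hL]; simp only [mem_insert, mem_inter] at hw ⊢; tauto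
      have h2 : w ∈ insert (S.new v) R := by
        simp only [mem_insert, mem_inter] at hw ⊢; tauto
      rw [res_L _ h1 h2, bir_L hv hL, bir_L hvr hLr, hn, res_L S hv hR]
      by_cases e : w = S.new v
      · subst e; rw [Function.update_self, Function.update_self]
      · rw [Function.update_of_ne e, Function.update_of_ne e]
        by_cases e' : w = v
        · subst e'; rw [Function.update_self, Function.update_self]
        · rw [Function.update_of_ne e', Function.update_of_ne e']
          simp only [mem_insert, mem_inter] at hw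
          rcases hw with hw | hw
          · exact absurd hw e
          · rw [res_L S hw.1 hw.2]
    · rw [((S.bir v).res (insert (S.new v) R)).L_out w (by rw [hV]; exact hw),
        ((S.res R).bir v).L_out w (by rw [hV']; exact hw)]
  · funext w
    by_cases hw : w ∈ insert (S.new v) (S.V ∩ R)
    · have h1 : w ∈ (S.bir v).V := by
        rw [bir_V hv hL]; simp only [mem_insert, mem_inter] at hw ⊢; tauto
      have h2 : w ∈ insert (S.new v) R := by
        simp only [mem_insert, mem_inter] at hw ⊢; tauto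
      rw [res_s _ h1 h2, bir_s hv hL, bir_s hvr hLr, hn, res_s S hv hR]
      by_cases e : w = S.new v
      · subst e; rw [Function.update_self, Function.update_self]
      · rw [Function.update_of_ne e, Function.update_of_ne e]
        by_cases e' : w = v
        · subst e'; rw [Function.update_self, Function.update_self]
        · rw [Function.update_of_ne e', Function.update_of_ne e']
          simp only [mem_insert, mem_inter] at hw
          rcases hw with hw | hw
          · exact absurd hw e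
          · rw [res_s S hw.1 hw.2]
    · rw [((S.bir v).res (insert (S.new v) R)).s_out w (by rw [hV]; exact hw),
        ((S.res R).bir v).s_out w (by rw [hV']; exact hw)]

lemma bir_res_not_mem (S : St) {R : Finset W} (hv : v ∈ S.V) (hR : v ∉ R) (hRV : R ⊆ S.V) :
    (S.bir v).res R = S.res R := by
  by_cases hL : 0 < S.L v
  · have hn : S.new v ∉ R := fun h => S.new_not_mem hv (hRV h)
    have hV : ((S.bir v).res R).V = S.V ∩ R := by
      rw [res_V, bir_V hv hL]; ext w; simp only [mem_inter, mem_insert]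
      constructor
      · rintro ⟨rfl | h, h'⟩
        · exact absurd h' hn
        · exact ⟨h, h'⟩
      · rintro ⟨h, h'⟩; exact ⟨Or.inr h, h'⟩
    apply St.ext
    · rw [hV, res_V]
    · funext w
      by_cases hw : w ∈ S.V ∩ R
      · have hw' := mem_inter.1 hw
        rw [res_L _ (mem_bir hv hL hw'.1) hw'.2,
          bir_L_ne hv hL (by rintro rfl; exact hR hw'.2) (by rintro rfl; exact hn hw'.2),
          res_L S hw'.1 hw'.2]
      · rw [((S.bir v).res R).L_out w (by rw [hV]; exact hw), (S.res R).L_out w hw]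
    · funext w
      by_cases hw : w ∈ S.V ∩ R
      · have hw' := mem_inter.1 hw
        rw [res_s _ (mem_bir hv hL hw'.1) hw'.2,
          bir_s_ne hv hL (by rintro rfl; exact hR hw'.2) (by rintro rfl; exact hn hw'.2),
          res_s S hw'.1 hw'.2]
      · rw [((S.bir v).res R).s_out w (by rw [hV]; exact hw), (S.res R).s_out w hw]
  · rw [bir_of_not (fun h => hL h.2)]

end St

end FT
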