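import Mathlib

/-!
# Random friend tree: states

A *state* is a finite set `V` of core vertices (labelled by words; the `i`-th child of `v` is
`i :: v`), with for each core vertex `v` the number `L v` of its leaf neighbours and the number
`s v` of its other slots (core neighbours in `V`, and ghosts).  The degree is `d v = L v + s v`.
-/

namespace FT

open Finset

abbrev W := List ℕ

/-- adjacency of words: one is a child of the other -/
def adj (a b : W) : Prop := (a ≠ [] ∧ a.tail = b) ∨ (b ≠ [] ∧ b.tail = a)

instance (a : W) : DecidablePred (adj a) := fun b => by unfold adj; infer_instance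

lemma adj_symm {a b : W} (h : adj a b) : adj b a := h.symm

lemma adj_comm {a b : W} : adj a b ↔ adj b a := ⟨adj_symm, adj_symm⟩

lemma adj_cons (i : ℕ) (a : W) : adj a (i :: a) := Or.inr ⟨by simp, rfl⟩

lemma adj_iff {a b : W} : adj a b ↔ (∃ i, a = i :: b) ∨ (∃ i, b = i :: a) := by
  unfold adj
  constructor
  · rintro (⟨h, rfl⟩ | ⟨h, rfl⟩)
    · left; obtain ⟨i, l, rfl⟩ := List.exists_cons_of_ne_nil h; exact ⟨i, rfl⟩
    · right; obtain ⟨i, l, rfl⟩ := List.exists_cons_of_ne_nil h; exact ⟨i, rfl⟩
  · rintro (⟨i, rfl⟩ | ⟨i, rfl⟩) <;> simp

lemma not_adj_self (a : W) : ¬ adj a a := by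
  rw [adj_iff]
  rintro (⟨i, h⟩ | ⟨i, h⟩) <;> exact absurd (congrArg List.length h) (by simp)

/-- states -/
@[ext] structure St where
  V : Finset W
  L : W → ℕ
  s : W → ℕ
  L_out : ∀ v, v ∉ V → L v = 0
  s_out : ∀ v, v ∉ V → s v = 0
  two_le : ∀ v ∈ V, 2 ≤ L v + s v
  deg_le : ∀ v ∈ V, (V.filter (adj v)).card ≤ s v
  fresh : ∀ v ∈ V, ∀ w ∈ V, ∀ i, (i :: v) <:+ w → i < s v

namespace St

variable (S : St)

/-- core neighbours -/
def nb (v : W) : Finset W := S.V.filter (adj v)
/-- number of core neighbours -/
def deg (v : W) : ℕ := (S.nb v).card
/-- degree -/
noncomputable def d (v : W) : ℝ := (S.L v : ℝ) + S.s v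
/-- rate of arrivals at `v` from its core neighbours -/
noncomputable def κ (v : W) : ℝ := ∑ w ∈ S.nb v, 1 / S.d w
/-- number of ghosts at `v` -/
def h (v : W) : ℕ := S.s v - S.deg v
/-- number of vertices (core vertices and leaves) -/
def n : ℕ := ∑ v ∈ S.V, (S.L v + 1)
/-- number of vertices and ghosts -/
def size : ℕ := ∑ v ∈ S.V, (S.L v + 1 + S.h v)
/-- label of the next child of `v` -/
def new (v : W) : W := S.s v :: v

lemma mem_nb {v w : W} : w ∈ S.nb v ↔ w ∈ S.V ∧ adj v w := by simp [nb]

lemma deg_le' {v : W} (hv : v ∈ S.V) : S.deg v ≤ S.s v := S.deg_le v hv

lemma new_not_mem {v : W} (hv : v ∈ S.V) : S.new v ∉ S.V := fun h =>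
  absurd (S.fresh v hv _ h (S.s v) (List.suffix_refl _)) (lt_irrefl _)

lemma new_ne (v : W) : S.new v ≠ v := fun h =>
  absurd (congrArg List.length h) (by simp [new])

/-- a leaf is attached to `v` -/
def arr (v : W) : St :=
  if hv : v ∈ S.V then
    { V := S.V
      L := Function.update S.L v (S.L v + 1)
      s := S.s
      L_out := fun w hw => by
        rw [Function.update_of_ne (by rintro rfl; exact hw hv)]; exact S.L_out w hw
      s_out := S.s_out
      two_le := fun w hw => by
        by_cases e : w = v
        · subst e; simp only [Function.update_self]; have := S.two_le w hw; omega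
        · rw [Function.update_of_ne e]; exact S.two_le w hw
      deg_le := S.deg_le
      fresh := S.fresh }
  else S

lemma not_adj_new {v u : W} (hv : v ∈ S.V) (hu : u ∈ S.V) (huv : u ≠ v) : ¬ adj u (S.new v) := by
  rw [adj_iff]
  rintro (⟨i, h⟩ | ⟨i, h⟩)
  · have := S.fresh v hv u hu (S.s v) (by rw [h]; exact List.suffix_cons _ _)
    exact absurd this (lt_irrefl _)
  · simp only [new, List.cons.injEq] at h
    exact huv h.2.symm

lemma filter_new {v : W} (hv : v ∈ S.V) :
    (insert (S.new v) S.V).filter (adj (S.new v)) = {v} := by
  ext w
  simp only [mem_filter, mem_insert, mem_singleton]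
  constructor
  · rintro ⟨rfl | hw, h⟩
    · exact absurd h (not_adj_self _)
    · by_contra hne
      exact S.not_adj_new hv hw hne (adj_symm h)
  · rintro rfl
    exact ⟨Or.inr hv, adj_symm (adj_cons _ _)⟩

lemma filter_self {v : W} (hv : v ∈ S.V) :
    (insert (S.new v) S.V).filter (adj v) = insert (S.new v) (S.V.filter (adj v)) := by
  rw [filter_insert, if_pos (show adj v (S.new v) from adj_cons _ _)]

lemma filter_other {v u : W} (hv : v ∈ S.V) (hu : u ∈ S.V) (huv : u ≠ v) :
    (insert (S.new v) S.V).filter (adj u) = S.V.filter (adj u) := by
  rw [filter_insert, if_neg (S.not_adj_new hv hu huv)]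

/-- one leaf neighbour of `v` becomes a core vertex (with one leaf) -/
def bir (v : W) : St :=
  if hv : v ∈ S.V ∧ 0 < S.L v then
    { V := insert (S.new v) S.V
      L := Function.update (Function.update S.L v (S.L v - 1)) (S.new v) 1
      s := Function.update (Function.update S.s v (S.s v + 1)) (S.new v) 1
      L_out := fun w hw => by
        rw [mem_insert, not_or] at hw
        rw [Function.update_of_ne hw.1, Function.update_of_ne (by rintro rfl; exact hw.2 hv.1)]
        exact S.L_out w hw.2
      s_out := fun w hw => by
        rw [mem_insert, not_or] at hw
        rw [Function.update_of_ne hw.1, Function.update_of_ne (by rintro rfl; exact hw.2 hv.1)]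
        exact S.s_out w hw.2
      two_le := fun w hw => by
        by_cases e : w = S.new v
        · subst e; simp
        · rw [Function.update_of_ne e, Function.update_of_ne e]
          rw [mem_insert] at hw
          have hw' := hw.resolve_left e
          by_cases e' : w = v
          · subst e'
            have := S.two_le w hw'
            have := hv.2
            simp only [Function.update_self]; omega
          · rw [Function.update_of_ne e', Function.update_of_ne e']; exact S.two_le w hw'
      deg_le := fun w hw => by
        by_cases e : w = S.new v
        · subst e; rw [S.filter_new hv.1]; simp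
        · rw [Function.update_of_ne e]
          rw [mem_insert] at hw
          have hw' := hw.resolve_left e
          by_cases e' : w = v
          · subst e'
            rw [S.filter_self hw', Function.update_self]
            exact (card_insert_le _ _).trans (Nat.succ_le_succ (S.deg_le w hw'))
          · rw [Function.update_of_ne e', S.filter_other hv.1 hw' e']; exact S.deg_le w hw'
      fresh := fun u hu w hw i hi => by
        rw [mem_insert] at hu hw
        by_cases e : u = S.new v
        · exfalso
          subst e
          rcases hw with rfl | hw
          · have := hi.length_le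
            simp at this
          · have h1 : S.new v <:+ w := (List.suffix_cons _ _).trans hi
            exact absurd (S.fresh v hv.1 w hw _ h1) (lt_irrefl _)
        · have hu' := hu.resolve_left e
          rw [Function.update_of_ne e]
          have key : i < S.s u ∨ (u = v ∧ i = S.s v) := by
            rcases hw with rfl | hw
            · rcases List.suffix_cons_iff.1 hi with h1 | h1
              · simp only [List.cons.injEq] at h1
                exact Or.inr ⟨h1.2, h1.1⟩
              · exact Or.inl (S.fresh u hu' v hv.1 i h1)
            · exact Or.inl (S.fresh u hu' w hw i hi)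
          by_cases e' : u = v
          · subst e'
            rw [Function.update_self]
            rcases key with h | h
            · omega
            · omega
          · rw [Function.update_of_ne e']
            rcases key with h | h
            · exact h
            · exact absurd h.1 e' }
  else S

/-- restriction of a state to the core vertices in `R` (the lost core neighbours become ghosts) -/
def res (R : Finset W) : St where
  V := S.V ∩ R
  L := fun v => if v ∈ S.V ∩ R then S.L v else 0
  s := fun v => if v ∈ S.V ∩ R then S.s v else 0
  L_out := fun v hv => by simp only [hv, if_false]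
  s_out := fun v hv => by simp only [hv, if_false]
  two_le := fun v hv => by
    simp only [hv, if_true]; exact S.two_le v (mem_inter.1 hv).1
  deg_le := fun v hv => by
    simp only [hv, if_true]
    exact (card_le_card (filter_subset_filter _ inter_subset_left)).trans
      (S.deg_le v (mem_inter.1 hv).1)
  fresh := fun v hv w hw i hi => by
    simp only [hv, if_true]
    exact S.fresh v (mem_inter.1 hv).1 w (mem_inter.1 hw).1 i hi

end St

/-- the seed: one core vertex with one leaf and one ghost -/
def seed : St where
  V := {[]}
  L := fun v => if v = [] then 1 else 0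
  s := fun v => if v = [] then 1 else 0
  L_out := fun v hv => by rw [mem_singleton] at hv; simp [hv]
  s_out := fun v hv => by rw [mem_singleton] at hv; simp [hv]
  two_le := fun v hv => by rw [mem_singleton] at hv; simp [hv]
  deg_le := fun v hv => by
    rw [mem_singleton] at hv; subst hv
    simp [filter_singleton, adj]
  fresh := fun v hv w hw i hi => by
    rw [mem_singleton] at hv hw; subst hv; subst hw
    simp at hi

/-- the path with three vertices -/
def start : St where
  V := {[]}
  L := fun v => if v = [] then 2 else 0
  s := fun _ => 0
  L_out := fun v hv => by rw [mem_singleton] at hv; simp [hv]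
  s_out := fun v hv => rfl
  two_le := fun v hv => by rw [mem_singleton] at hv; simp [hv]
  deg_le := fun v hv => by
    rw [mem_singleton] at hv; subst hv
    simp [filter_singleton, adj]
  fresh := fun v hv w hw i hi => by
    rw [mem_singleton] at hv hw; subst hv; subst hw
    simp at hi

end FT
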