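import Pool.Agent.FT.Objs

/-! # Module Yule1 (friend tree, MP_5ccad8_pr) -/

open Finset MeasureTheory Filter Topology

namespace FT

variable {t s T : ℝ} {j : ℕ}

private lemma z_nonneg (ht : 0 ≤ t) : 0 ≤ 1 - Real.exp (-t) := by
  have : Real.exp (-t) ≤ 1 := Real.exp_le_one_iff.mpr (by linarith)
  linarith

private lemma z_norm_lt_one (ht : 0 ≤ t) : ‖1 - Real.exp (-t)‖ < 1 := by
  rw [Real.norm_of_nonneg (z_nonneg ht)]
  have := Real.exp_pos (-t)
  linarith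

private lemma nb_hasSum (a : ℕ) {r : ℝ} (hr : ‖r‖ < 1) :
    HasSum (fun m : ℕ => (Nat.choose (a + m) m : ℝ) * r ^ m) (1 / (1 - r) ^ (a + 1)) := by
  have h := hasSum_choose_mul_geometric_of_norm_lt_one (𝕜 := ℝ) a hr
  refine h.congr_fun ?_ |> fun h => h
  intro m
  have : Nat.choose (a + m) m = Nat.choose (m + a) a := by
    rw [add_comm a m]
    exact Nat.choose_symm_add
  rw [this]

private lemma choose_mean (a m : ℕ) :
    (Nat.choose (a + m) m : ℝ) * ((a + 1 + m : ℕ) : ℝ)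
      = ((a + 1 : ℕ) : ℝ) * (Nat.choose (a + 1 + m) m : ℝ) := by
  have h1 : Nat.choose (a + m) m = Nat.choose (a + m) a := (Nat.choose_symm_add (a := a) (b := m)).symm
  have h2 : Nat.choose (a + 1 + m) m = Nat.choose (a + 1 + m) (a + 1) :=
    (Nat.choose_symm_add (a := a + 1) (b := m)).symm
  rw [h1, h2]
  have h3 := Nat.add_one_mul_choose_eq (a + m) a
  have h4 : a + 1 + m = a + m + 1 := by omega
  rw [h4]
  have h5 : Nat.choose (a + m) a * (a + m + 1) = (a + 1) * Nat.choose (a + m + 1) (a + 1) := by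
    rw [mul_comm, h3, mul_comm]
  exact_mod_cast h5

lemma yw_nonneg (ht : 0 ≤ t) (j m : ℕ) : 0 ≤ yw t j m := by
  unfold yw
  have := z_nonneg ht
  positivity

lemma yw_zero_time (j m : ℕ) : yw 0 j m = if m = 0 then 1 else 0 := by
  unfold yw
  by_cases hm : m = 0
  · subst hm
    simp
  · simp [hm]

lemma yw_continuous (j m : ℕ) : Continuous fun t => yw t j m := by
  unfold yw
  fun_prop

private lemma yw_succ (t : ℝ) (a m : ℕ) : yw t (a + 1) m =
    Real.exp (-(((a + 1 : ℕ) : ℝ) * t)) * ((Nat.choose (a + m) m : ℝ) * (1 - Real.exp (-t)) ^ m) := by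
  unfold yw
  have : a + 1 + m - 1 = a + m := by omega
  rw [this]
  ring

private lemma one_sub_z (t : ℝ) (k : ℕ) :
    1 / (1 - (1 - Real.exp (-t))) ^ k = Real.exp ((k : ℝ) * t) := by
  have : 1 - (1 - Real.exp (-t)) = Real.exp (-t) := by ring
  rw [this, ← Real.exp_nat_mul, one_div, ← Real.exp_neg]
  congr 1
  ring

lemma yw_hasSum (ht : 0 ≤ t) (hj : 0 < j) : HasSum (yw t j) 1 := by
  obtain ⟨a, rfl⟩ : ∃ a, j = a + 1 := ⟨j - 1, by omega⟩
  have h := (nb_hasSum a (z_norm_lt_one ht)).mul_left (Real.exp (-(((a + 1 : ℕ) : ℝ) * t)))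
  rw [one_sub_z, ← Real.exp_add, neg_add_cancel, Real.exp_zero] at h
  exact h.congr_fun (fun m => yw_succ t a m)

lemma yw_hasSum_mean (ht : 0 ≤ t) (hj : 0 < j) :
    HasSum (fun m => yw t j m * ((j + m : ℕ) : ℝ)) (j * Real.exp t) := by
  obtain ⟨a, rfl⟩ : ∃ a, j = a + 1 := ⟨j - 1, by omega⟩
  have h := (nb_hasSum (a + 1) (z_norm_lt_one ht)).mul_left
    (Real.exp (-(((a + 1 : ℕ) : ℝ) * t)) * ((a + 1 : ℕ) : ℝ))
  rw [one_sub_z] at h
  have e : Real.exp (-(((a + 1 : ℕ) : ℝ) * t)) * ((a + 1 : ℕ) : ℝ)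
      * Real.exp (((a + 1 + 1 : ℕ) : ℝ) * t) = ((a + 1 : ℕ) : ℝ) * Real.exp t := by
    rw [mul_assoc, mul_comm, mul_assoc, ← Real.exp_add]
    congr 2
    push_cast
    ring
  rw [e] at h
  refine h.congr_fun (fun m => ?_)
  rw [yw_succ]
  have := choose_mean a m
  calc _ = Real.exp (-(((a + 1 : ℕ) : ℝ) * t)) * (1 - Real.exp (-t)) ^ m *
        ((Nat.choose (a + m) m : ℝ) * ((a + 1 + m : ℕ) : ℝ)) := by ring
    _ = _ := by rw [this]; ring

lemma yw_hasSum_mean2 (ht : 0 ≤ t) (hj : 0 < j) :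
    HasSum (fun m => yw t j m * (((j + m : ℕ) : ℝ) * ((j + m + 1 : ℕ) : ℝ)))
      (j * (j + 1) * Real.exp (2 * t)) := by
  obtain ⟨a, rfl⟩ : ∃ a, j = a + 1 := ⟨j - 1, by omega⟩
  have h := (nb_hasSum (a + 1 + 1) (z_norm_lt_one ht)).mul_left
    (Real.exp (-(((a + 1 : ℕ) : ℝ) * t)) * (((a + 1 : ℕ) : ℝ) * ((a + 1 + 1 : ℕ) : ℝ)))
  rw [one_sub_z] at h
  have e : Real.exp (-(((a + 1 : ℕ) : ℝ) * t)) * (((a + 1 : ℕ) : ℝ) * ((a + 1 + 1 : ℕ) : ℝ))
      * Real.exp (((a + 1 + 1 + 1 : ℕ) : ℝ) * t)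
      = ((a + 1 : ℕ) : ℝ) * (((a + 1 : ℕ) : ℝ) + 1) * Real.exp (2 * t) := by
    rw [mul_assoc, mul_comm, mul_assoc, ← Real.exp_add]
    have : ((a + 1 + 1 + 1 : ℕ) : ℝ) * t + -(((a + 1 : ℕ) : ℝ) * t) = 2 * t := by
      push_cast
      ring
    rw [this]
    push_cast
    ring
  rw [e] at h
  refine h.congr_fun (fun m => ?_)
  rw [yw_succ]
  have h1 := choose_mean a m
  have h2 := choose_mean (a + 1) m
  have h3 : ((a + 1 + m + 1 : ℕ) : ℝ) = ((a + 1 + 1 + m : ℕ) : ℝ) := by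
    push_cast
    ring
  calc _ = Real.exp (-(((a + 1 : ℕ) : ℝ) * t)) * (1 - Real.exp (-t)) ^ m *
        (((Nat.choose (a + m) m : ℝ) * ((a + 1 + m : ℕ) : ℝ)) * ((a + 1 + 1 + m : ℕ) : ℝ)) := by
          rw [h3]; ring
    _ = Real.exp (-(((a + 1 : ℕ) : ℝ) * t)) * (1 - Real.exp (-t)) ^ m * ((a + 1 : ℕ) : ℝ) *
        ((Nat.choose (a + 1 + m) m : ℝ) * ((a + 1 + 1 + m : ℕ) : ℝ)) := by rw [h1]; ring
    _ = _ := by rw [h2]; ring

/-- uniform domination on `[0,T]` -/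
lemma yw_le (ht : 0 ≤ t) (htT : t ≤ T) (j m : ℕ) :
    yw t j m ≤ (Nat.choose (j + m - 1) m : ℝ) * (1 - Real.exp (-T)) ^ m := by
  unfold yw
  have h1 := z_nonneg ht
  have h2 : 1 - Real.exp (-t) ≤ 1 - Real.exp (-T) := by
    have : Real.exp (-T) ≤ Real.exp (-t) := Real.exp_le_exp.mpr (by linarith)
    linarith
  have h3 : Real.exp (-((j : ℝ) * t)) ≤ 1 := by
    apply Real.exp_le_one_iff.mpr
    have : 0 ≤ (j : ℝ) * t := by positivity
    linarith
  have h4 : (1 - Real.exp (-t)) ^ m ≤ (1 - Real.exp (-T)) ^ m := pow_le_pow_left₀ h1 h2 m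
  calc (Nat.choose (j + m - 1) m : ℝ) * Real.exp (-((j : ℝ) * t)) * (1 - Real.exp (-t)) ^ m
      ≤ (Nat.choose (j + m - 1) m : ℝ) * 1 * (1 - Real.exp (-T)) ^ m := by
        gcongr
    _ = _ := by ring

lemma yw_bound_summable (hT : 0 ≤ T) (hj : 0 < j) :
    Summable fun m => (Nat.choose (j + m - 1) m : ℝ) * (1 - Real.exp (-T)) ^ m
      * ((j + m : ℕ) : ℝ) := by
  obtain ⟨a, rfl⟩ : ∃ a, j = a + 1 := ⟨j - 1, by omega⟩
  have h := ((nb_hasSum (a + 1) (z_norm_lt_one hT)).mul_left (((a + 1 : ℕ) : ℝ))).summable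
  refine h.congr (fun m => ?_)
  have e : a + 1 + m - 1 = a + m := by omega
  rw [e]
  have := choose_mean a m
  calc ((a + 1 : ℕ) : ℝ) * ((Nat.choose (a + 1 + m) m : ℝ) * (1 - Real.exp (-T)) ^ m)
      = (((a + 1 : ℕ) : ℝ) * (Nat.choose (a + 1 + m) m : ℝ)) * (1 - Real.exp (-T)) ^ m := by ring
    _ = _ := by rw [← this]; ring

private lemma yw_var (ht : 0 ≤ t) (hj : 0 < j) :
    HasSum (fun m => yw t j m * (((j + m : ℕ) : ℝ) - j * Real.exp t) ^ 2)
      (j * Real.exp t * (Real.exp t - 1)) := by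
  have h0 := yw_hasSum ht hj
  have h1 := yw_hasSum_mean ht hj
  have h2 := yw_hasSum_mean2 ht hj
  have h := (h2.sub (h1.mul_left (1 + 2 * (j * Real.exp t)))).add
    (h0.mul_left ((j * Real.exp t) ^ 2))
  have e : (j : ℝ) * (j + 1) * Real.exp (2 * t) - (1 + 2 * (j * Real.exp t)) * (j * Real.exp t)
      + (j * Real.exp t) ^ 2 * 1 = j * Real.exp t * (Real.exp t - 1) := by
    have : Real.exp (2 * t) = Real.exp t ^ 2 := by
      rw [← Real.exp_nat_mul]
      norm_num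
    rw [this]
    ring
  rw [e] at h
  refine h.congr_fun (fun m => ?_)
  push_cast
  ring

private lemma yw_tail (ht : 0 ≤ t) (hj : 0 < j) {η : ℝ} (hη : 0 < η) (p : ℕ → Prop)
    [DecidablePred p]
    (hp : ∀ m, p m → (η * (j * Real.exp t)) ^ 2 ≤ (((j + m : ℕ) : ℝ) - j * Real.exp t) ^ 2) :
    ∑' m, (if p m then yw t j m else 0) ≤ 1 / (j * η ^ 2) := by
  have hv := yw_var ht hj
  have hj' : (0 : ℝ) < j := by exact_mod_cast hj
  set M : ℝ := j * Real.exp t with hM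
  have hMpos : 0 < M := by positivity
  have hpt : ∀ m, (if p m then yw t j m else 0)
      ≤ (1 / (η * M) ^ 2) * (yw t j m * (((j + m : ℕ) : ℝ) - M) ^ 2) := by
    intro m
    have hy := yw_nonneg ht j m
    split_ifs with h
    · have h1 := hp m h
      have h2 : (0 : ℝ) < (η * M) ^ 2 := by positivity
      rw [div_mul_eq_mul_div, one_mul, le_div_iff₀ h2]
      exact mul_le_mul_of_nonneg_left h1 hy
    · positivity
  have hs2 := hv.mul_left (1 / (η * M) ^ 2)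
  have hs1 : Summable (fun m => if p m then yw t j m else 0) := by
    refine Summable.of_nonneg_of_le (fun m => ?_) hpt hs2.summable
    have hy := yw_nonneg ht j m
    split_ifs
    · exact hy
    · exact le_rfl
  have hle := hasSum_le hpt hs1.hasSum hs2
  refine hle.trans ?_
  rw [one_div_mul_eq_div, div_le_div_iff₀ (by positivity) (by positivity)]
  rw [hM]
  have he := Real.exp_pos t
  have : (j : ℝ) * Real.exp t * (Real.exp t - 1) * (j * η ^ 2)
      = (η * (j * Real.exp t)) ^ 2 - (j : ℝ) * Real.exp t * (j * η ^ 2) := by ring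
  rw [this]
  have h3 : 0 ≤ (j : ℝ) * Real.exp t * (j * η ^ 2) := by positivity
  linarith

/-- Chebyshev: upper tail and lower tail of the Yule process -/
lemma yw_lower_tail (ht : 0 ≤ t) (hj : 0 < j) {η : ℝ} (hη : 0 < η) (N : ℕ)
    (hN : (N : ℝ) ≤ j * Real.exp t * (1 - η)) :
    ∑' m, (if j + m ≤ N then yw t j m else 0) ≤ 1 / (j * η ^ 2) := by
  refine yw_tail ht hj hη (fun m => j + m ≤ N) (fun m hm => ?_)
  have hj' : (0 : ℝ) < j := by exact_mod_cast hj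
  have he := Real.exp_pos t
  have h1 : ((j + m : ℕ) : ℝ) ≤ N := by exact_mod_cast hm
  have h2 : 0 < η * (j * Real.exp t) := by positivity
  have h3 : η * (j * Real.exp t) ≤ j * Real.exp t - ((j + m : ℕ) : ℝ) := by
    have : (j : ℝ) * Real.exp t * (1 - η) = j * Real.exp t - η * (j * Real.exp t) := by ring
    linarith
  calc (η * (j * Real.exp t)) ^ 2 ≤ (j * Real.exp t - ((j + m : ℕ) : ℝ)) ^ 2 :=
        pow_le_pow_left₀ h2.le h3 2
    _ = _ := by ring

lemma yw_upper_tail (ht : 0 ≤ t) (hj : 0 < j) {η : ℝ} (hη : 0 < η) (N : ℕ)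
    (hN : (j : ℝ) * Real.exp t * (1 + η) ≤ N) :
    ∑' m, (if N ≤ j + m then yw t j m else 0) ≤ 1 / (j * η ^ 2) := by
  refine yw_tail ht hj hη (fun m => N ≤ j + m) (fun m hm => ?_)
  have hj' : (0 : ℝ) < j := by exact_mod_cast hj
  have he := Real.exp_pos t
  have h1 : (N : ℝ) ≤ ((j + m : ℕ) : ℝ) := by exact_mod_cast hm
  have h2 : 0 < η * (j * Real.exp t) := by positivity
  have h3 : η * (j * Real.exp t) ≤ ((j + m : ℕ) : ℝ) - j * Real.exp t := by
    have : (j : ℝ) * Real.exp t * (1 + η) = j * Real.exp t + η * (j * Real.exp t) := by ring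
    linarith
  exact pow_le_pow_left₀ h2.le h3 2

end FT
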