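import Pool.Agent.FT.Growth
import Pool.Agent.FT.Yule1

/-! # Module Disc (friend tree, MP_5ccad8_pr) -/

open Finset MeasureTheory Filter Topology

namespace FT

lemma disc_aux_gen_XU_nonneg (x : St × Unit) : 0 ≤ gen inhU XU x := by
  unfold gen
  apply sum_nonneg
  intro v hv
  by_cases hL : 0 < x.1.L v
  · have h1 := rate_bir_nonneg x.1 v
    have h2 : XU (x.1.arr v, x.2) - XU x = 0 := by simp [XU]
    have h3 : 0 ≤ XU (x.1.bir v, inhU x.1 v x.2) - XU x := by
      simp only [XU, St.bir_V hv hL]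
      rw [card_insert_of_notMem (x.1.new_not_mem hv)]
      push_cast
      linarith
    rw [h2, mul_zero, zero_add]
    exact mul_nonneg h1 h3
  · have h0 : x.1.L v = 0 := by omega
    simp [h0, XU]

lemma disc_aux_XU_nonneg (x : St × Unit) : 0 ≤ XU x := by simp [XU]

lemma disc_aux_mono_succ {x : St × Unit} {j : ℕ} (hj : 0 < j) (hn : x.1.n ≤ j) (m : ℕ) :
    U inhU m j XU x ≤ U inhU (m + 1) j XU x := by
  rw [U_succ_last]
  apply U_mono closed_true m trivial hj hn
  intro y _ _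
  unfold Aop
  have h1 : (0 : ℝ) ≤ 1 / ((j + m : ℕ) : ℝ) := by positivity
  have := mul_nonneg h1 (disc_aux_gen_XU_nonneg y)
  linarith

lemma disc_aux_mono {x : St × Unit} {j : ℕ} (hj : 0 < j) (hn : x.1.n ≤ j) {m m' : ℕ}
    (h : m ≤ m') : U inhU m j XU x ≤ U inhU m' j XU x :=
  monotone_nat_of_le_succ (f := fun m => U inhU m j XU x)
    (fun m => disc_aux_mono_succ hj hn m) h

lemma disc_aux_le {x : St × Unit} {j : ℕ} (hj : 0 < j) (hn : x.1.n ≤ j) {m m' : ℕ}
    (h : m ≤ m') : U inhU m' j XU x ≤ (((j + m' : ℕ) : ℝ) / ((j + m : ℕ) : ℝ)) * U inhU m j XU x := by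
  obtain ⟨k, rfl⟩ := Nat.exists_eq_add_of_le h
  rw [U_add]
  have h1 : U inhU m j (U inhU k (j + m) XU) x ≤ U inhU m j (fun y => pr 1 (j + m) k * XU y) x := by
    apply U_mono closed_true m trivial hj hn
    intro y _ hy
    apply U_le_pr closed_true (by norm_num) (fun z _ => ?_) k trivial (by omega) (by omega)
    rw [one_mul]
    exact wt_XU.gen_le z trivial
  rw [U_smul, pr_one (by omega)] at h1
  rw [show j + (m + k) = j + m + k by ring]
  exact h1

/-- the evolution started with all core vertices active -/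
lemma disc_aux_phit (s : ℝ) (S : St) : phit s (S, S.V) = P inhU s XU (S, ()) := by
  unfold phit P
  apply tsum_congr
  intro m
  have := phi_V m (S.n + 1) S
  unfold phi at this
  simp only [this]

lemma disc_aux_hasSum {s : ℝ} (hs : 0 ≤ s) (S : St) {j : ℕ} (hj : 0 < j) (hn : S.n ≤ j) :
    HasSum (fun m => yw s j m * U inhU m j XU (S, ())) (P inhU s XU (S, ())) :=
  P_hasSum wt_XU ⟨1, zero_le_one, fun x _ => by
    rw [one_mul, abs_of_nonneg (disc_aux_XU_nonneg x)]⟩ hs trivial hj hn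

/-- lower bound for the continuous time evolution -/
lemma disc_aux_lower {η : ℝ} (hη : 0 < η) (S : St) {j : ℕ} (hj : 0 < j) (hn : S.n ≤ j) (m : ℕ)
    {t : ℝ} (ht : 0 ≤ t) (hjt : (j : ℝ) * Real.exp t = ((j + m : ℕ) : ℝ)) :
    (1 - 1 / (j * (1 - Real.exp (-η)) ^ 2)) * U inhU m j XU (S, ()) ≤ P inhU (t + η) XU (S, ()) := by
  have hδ : 0 < 1 - Real.exp (-η) := by
    rw [sub_pos]; exact Real.exp_lt_one_iff.2 (by linarith)
  have hF : 0 ≤ U inhU m j XU (S, ()) :=
    U_nonneg closed_true m trivial hj hn fun y _ _ => disc_aux_XU_nonneg y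
  have htη : 0 ≤ t + η := by linarith
  have h1 := disc_aux_hasSum htη S hj hn
  have h2 := yw_hasSum htη hj
  have h3 := yw_lower_tail htη hj hδ (j + m) (by
    have h4 : Real.exp (t + η) * (1 - (1 - Real.exp (-η))) = Real.exp t := by
      rw [sub_sub_cancel, ← Real.exp_add]; congr 1; ring
    rw [mul_assoc, h4, hjt])
  have h5 : Summable (fun m' => if j + m' ≤ j + m then yw (t + η) j m' else 0) := by
    apply Summable.of_nonneg_of_le (fun m' => ?_) (fun m' => ?_) h2.summable
    · split_ifs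
      · exact yw_nonneg htη _ _
      · exact le_refl _
    · split_ifs
      · exact le_refl _
      · exact yw_nonneg htη _ _
  have h6 := (h2.sub h5.hasSum).mul_right (U inhU m j XU (S, ()))
  have h7 := hasSum_le (fun m' => ?_) h6 h1
  · refine le_trans ?_ h7
    apply mul_le_mul_of_nonneg_right _ hF
    linarith
  · have hy := yw_nonneg htη j m'
    by_cases h : j + m' ≤ j + m
    · rw [if_pos h, sub_self, zero_mul]
      exact mul_nonneg hy (U_nonneg closed_true m' trivial hj hn fun y _ _ =>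
        disc_aux_XU_nonneg y)
    · rw [if_neg h, sub_zero]
      exact mul_le_mul_of_nonneg_left (disc_aux_mono hj hn (by omega)) hy

/-- upper bound for the continuous time evolution -/
lemma disc_aux_upper {η : ℝ} (hη : 0 < η) (S : St) {j : ℕ} (hj : 0 < j) (hn : S.n ≤ j) (m : ℕ)
    {t : ℝ} (ht : η ≤ t) (hjt : (j : ℝ) * Real.exp t = ((j + m : ℕ) : ℝ)) :
    P inhU (t - η) XU (S, ()) ≤
      (1 + 2 * (1 / (j * (1 - Real.exp (-η)) ^ 2))) * U inhU m j XU (S, ()) := by
  have hj' : (0 : ℝ) < j := by exact_mod_cast hj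
  set δ : ℝ := 1 - Real.exp (-η) with hδd
  have hδ : 0 < δ := by
    rw [hδd, sub_pos]; exact Real.exp_lt_one_iff.2 (by linarith)
  have hδ1 : δ ≤ 1 := by have := Real.exp_pos (-η); linarith
  have hF : 0 ≤ U inhU m j XU (S, ()) :=
    U_nonneg closed_true m trivial hj hn fun y _ _ => disc_aux_XU_nonneg y
  have htη : 0 ≤ t - η := by linarith
  set N : ℝ := ((j + m : ℕ) : ℝ) with hN
  have hNj : (j : ℝ) ≤ N := by rw [hN]; push_cast; have : (0 : ℝ) ≤ m := Nat.cast_nonneg _; linarith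
  have hN0 : 0 < N := by linarith
  set M : ℝ := (j : ℝ) * Real.exp (t - η) with hM
  have hMN : M = N * (1 - δ) := by
    rw [hM, hδd, sub_sub_cancel, Real.exp_sub, ← hjt, Real.exp_neg]
    field_simp
  have hM0 : 0 < M := by rw [hM]; have := Real.exp_pos (t - η); positivity
  have h1 := disc_aux_hasSum htη S hj hn
  have g0 := yw_hasSum htη hj
  have g1 := yw_hasSum_mean htη hj
  have g2 := yw_hasSum_mean2 htη hj
  -- variance
  have g3 : HasSum (fun m' => yw (t - η) j m' * (((j + m' : ℕ) : ℝ) - M) ^ 2)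
      (M ^ 2 / j - M) := by
    have g4 := (g2.sub (g1.mul_right (2 * M + 1))).add (g0.mul_right (M ^ 2))
    have e : (j : ℝ) * (j + 1) * Real.exp (2 * (t - η)) - j * Real.exp (t - η) * (2 * M + 1)
        + 1 * M ^ 2 = M ^ 2 / j - M := by
      have : Real.exp (2 * (t - η)) = Real.exp (t - η) ^ 2 := by
        rw [← Real.exp_nat_mul]; norm_num
      rw [this, hM]
      field_simp
      ring
    rw [e] at g4
    have e2 : (fun m' => yw (t - η) j m' * (((j + m' : ℕ) : ℝ) * ((j + m' + 1 : ℕ) : ℝ))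
        - yw (t - η) j m' * ((j + m' : ℕ) : ℝ) * (2 * M + 1) + yw (t - η) j m' * M ^ 2)
        = fun m' => yw (t - η) j m' * (((j + m' : ℕ) : ℝ) - M) ^ 2 := by
      funext m'; push_cast; ring
    rw [e2] at g4
    exact g4
  have g5 := (g0.add (g3.mul_right (2 / (N * δ) ^ 2))).mul_right (U inhU m j XU (S, ()))
  have h7 := hasSum_le (fun m' => ?_) h1 g5
  · refine h7.trans ?_
    apply mul_le_mul_of_nonneg_right _ hF
    have h8 : M ^ 2 / j - M ≤ N ^ 2 / j := by
      have : M ≤ N := by rw [hMN]; nlinarith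
      have h9 : M ^ 2 / j ≤ N ^ 2 / j := by gcongr
      linarith
    have h10 : (M ^ 2 / j - M) * (2 / (N * δ) ^ 2) ≤ N ^ 2 / j * (2 / (N * δ) ^ 2) :=
      mul_le_mul_of_nonneg_right h8 (by positivity)
    have h11 : N ^ 2 / j * (2 / (N * δ) ^ 2) = 2 * (1 / (j * δ ^ 2)) := by
      field_simp
    linarith
  · have hy := yw_nonneg htη j m'
    have hu : yw (t - η) j m' * U inhU m' j XU (S, ())
        ≤ yw (t - η) j m' * ((1 + (((j + m' : ℕ) : ℝ) - M) ^ 2 * (2 / (N * δ) ^ 2))
          * U inhU m j XU (S, ())) := by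
      apply mul_le_mul_of_nonneg_left _ hy
      by_cases h : m' ≤ m
      · have h2 := disc_aux_mono (x := (S, ())) hj hn h
        have h3 : 0 ≤ (((j + m' : ℕ) : ℝ) - M) ^ 2 * (2 / (N * δ) ^ 2)
          * U inhU m j XU (S, ()) := by positivity
        linarith
      · push Not at h
        have h2 := disc_aux_le (x := (S, ())) hj hn h.le
        refine h2.trans ?_
        apply mul_le_mul_of_nonneg_right _ hF
        set Y : ℝ := ((j + m' : ℕ) : ℝ) with hY
        have hYN : N ≤ Y := by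
          rw [hN, hY]; exact_mod_cast (by omega : j + m ≤ j + m')
        have hu1 : 1 ≤ (Y - M) / (N * δ) := by
          rw [le_div_iff₀ (by positivity), hMN]; nlinarith
        have e1 : (Y - M) ^ 2 * (2 / (N * δ) ^ 2) = 2 * ((Y - M) / (N * δ)) ^ 2 := by
          field_simp
        have e2 : Y / N = ((Y - M) / (N * δ)) * δ + (1 - δ) := by
          rw [hMN]; field_simp; ring
        rw [e1, e2]
        nlinarith
    calc _ ≤ _ := hu
      _ = _ := by ring

theorem disc {μ : ℝ} {hh : St × Finset W → ℝ} (hμ : Expo μ) (hE : Eig μ hh) :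
    ∀ ε : ℝ, 0 < ε → ∃ n0 : ℕ, ∃ R0 : ℝ, ∀ j m : ℕ, n0 ≤ j → R0 * j ≤ ((j + m : ℕ) : ℝ) →
    ∀ S : St, S.n ≤ j →
    |(((j + m : ℕ) : ℝ) / j) ^ (-μ) * U inhU m j XU (S, ()) - hh (S, S.V)| ≤ ε * S.V.card := by
  intro ε hε
  obtain ⟨C, hC, hle⟩ := hE.le
  have hμ0 : 0 < μ := by have := hμ.1; linarith
  obtain ⟨T, hT, hlim⟩ := hE.lim (ε / 6) (by positivity)
  set κ : ℝ := min 1 (ε / (4 * C)) with hκd
  have hκ : 0 < κ := lt_min one_pos (by positivity)
  have hκ1 : κ ≤ 1 := min_le_left _ _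
  have hκ2 : κ ≤ ε / (4 * C) := min_le_right _ _
  have hκC : 2 * κ * C ≤ ε / 2 := by
    have := mul_le_mul_of_nonneg_right hκ2 hC.le
    have e : ε / (4 * C) * C = ε / 4 := by field_simp
    rw [e] at this; linarith
  set η : ℝ := Real.log (1 + κ) / μ with hηd
  have hlogκ : 0 < Real.log (1 + κ) := Real.log_pos (by linarith)
  have hη : 0 < η := by positivity
  have hμη : Real.exp (μ * η) = 1 + κ := by
    rw [hηd, mul_div_cancel₀ _ hμ0.ne', Real.exp_log (by linarith)]
  set δ : ℝ := 1 - Real.exp (-η) with hδd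
  have hδ : 0 < δ := by
    rw [hδd, sub_pos]; exact Real.exp_lt_one_iff.2 (by linarith)
  obtain ⟨n0, hn0⟩ := exists_nat_gt (4 / (κ * δ ^ 2))
  refine ⟨n0 + 1, Real.exp (T + η), fun j m hj hR S hS => ?_⟩
  have hj0 : 0 < j := by omega
  have hj' : (0 : ℝ) < j := by exact_mod_cast hj0
  set q : ℝ := 1 / (j * δ ^ 2) with hq
  have hq0 : 0 < q := by positivity
  have hqκ : q ≤ κ / 4 := by
    have h1 : (n0 : ℝ) ≤ j := by exact_mod_cast (by omega : n0 ≤ j)
    have h2 : 4 / (κ * δ ^ 2) ≤ j := by linarith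
    rw [div_le_iff₀ (by positivity)] at h2
    rw [hq, div_le_iff₀ (by positivity)]
    nlinarith
  set N : ℝ := ((j + m : ℕ) : ℝ) with hN
  have hNj : (j : ℝ) ≤ N := by rw [hN]; push_cast; have : (0 : ℝ) ≤ m := Nat.cast_nonneg _; linarith
  have hN0 : 0 < N := by linarith
  set t : ℝ := Real.log (N / j) with ht
  have hexp : Real.exp t = N / j := Real.exp_log (by positivity)
  have hjt : (j : ℝ) * Real.exp t = N := by rw [hexp]; field_simp
  have htT : T + η ≤ t := by
    rw [ht, Real.le_log_iff_exp_le (by positivity), le_div_iff₀ hj']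
    exact hR
  have hpow : (N / j) ^ (-μ) = Real.exp (-(μ * t)) := by
    rw [Real.rpow_def_of_pos (by positivity), ← ht]; congr 1; ring
  set F : ℝ := U inhU m j XU (S, ()) with hF
  have hF0 : 0 ≤ F :=
    U_nonneg closed_true m trivial hj0 hS fun y _ _ => disc_aux_XU_nonneg y
  have hlow := disc_aux_lower hη S hj0 hS m (by linarith : 0 ≤ t) hjt
  have hup := disc_aux_upper hη S hj0 hS m (by linarith : η ≤ t) hjt
  rw [← hδd, ← hq, ← hF] at hlow hup
  have hsub : Sub (S, S.V) := Finset.Subset.refl _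
  set a : ℝ := (S.V.card : ℝ) with ha
  have ha0 : 0 ≤ a := Nat.cast_nonneg _
  have hcard : card (S, S.V) = a := rfl
  set H : ℝ := hh (S, S.V) with hH
  have hH0 : 0 ≤ H := hE.nonneg _ hsub
  have hHC : H ≤ C * a := by have := hle _ hsub; rwa [hcard] at this
  have l1 := hlim (t + η) (by linarith) (S, S.V) hsub
  have l2 := hlim (t - η) (by linarith) (S, S.V) hsub
  rw [disc_aux_phit, hcard, ← hH] at l1 l2
  rw [abs_le] at l1 l2
  rw [hpow]
  set E : ℝ := Real.exp (-(μ * t)) with hEd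
  have hE0 : 0 < E := Real.exp_pos _
  have e1 : Real.exp (-(μ * (t + η))) * (1 + κ) = E := by
    rw [← hμη, ← Real.exp_add, hEd]; congr 1; ring
  have e2 : Real.exp (-(μ * (t - η))) = E * (1 + κ) := by
    rw [← hμη, ← Real.exp_add]; congr 1; ring
  -- upper bound
  have u1 : E * ((1 - q) * F) ≤ (1 + κ) * (H + ε / 6 * a) := by
    calc E * ((1 - q) * F) ≤ E * P inhU (t + η) XU (S, ()) :=
          mul_le_mul_of_nonneg_left hlow hE0.le
      _ = (1 + κ) * (Real.exp (-(μ * (t + η))) * P inhU (t + η) XU (S, ())) := by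
          rw [← e1]; ring
      _ ≤ (1 + κ) * (H + ε / 6 * a) := by
          apply mul_le_mul_of_nonneg_left _ (by linarith); linarith [l1.2]
  -- lower bound
  have u2 : H - ε / 6 * a ≤ (1 + κ) * ((1 + 2 * q) * (E * F)) := by
    calc H - ε / 6 * a ≤ Real.exp (-(μ * (t - η))) * P inhU (t - η) XU (S, ()) := by
          linarith [l2.1]
      _ ≤ Real.exp (-(μ * (t - η))) * ((1 + 2 * q) * F) :=
          mul_le_mul_of_nonneg_left hup (Real.exp_pos _).le
      _ = _ := by rw [e2]; ring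
  set G : ℝ := E * F with hG
  have hG0 : 0 ≤ G := by positivity
  have u1' : (1 - q) * G ≤ (1 + κ) * (H + ε / 6 * a) := by
    calc (1 - q) * G = E * ((1 - q) * F) := by rw [hG]; ring
      _ ≤ _ := u1
  have hεa : 0 ≤ ε / 6 * a := by positivity
  -- `1/(1-q) ≤ 1 + 2 q`
  have u3 : G ≤ (1 + 2 * q) * ((1 - q) * G) := by
    have : 0 ≤ q * (1 - 2 * q) * G := by
      have : 0 ≤ 1 - 2 * q := by linarith
      positivity
    nlinarith
  have u4 : G ≤ (1 + 2 * κ) * (H + ε / 6 * a) := by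
    have h1 : (1 + 2 * q) * ((1 - q) * G) ≤ (1 + 2 * q) * ((1 + κ) * (H + ε / 6 * a)) :=
      mul_le_mul_of_nonneg_left u1' (by linarith)
    have h2 : (1 + 2 * q) * (1 + κ) ≤ 1 + 2 * κ := by nlinarith
    have h3 := mul_le_mul_of_nonneg_right h2 (by linarith : 0 ≤ H + ε / 6 * a)
    calc G ≤ _ := u3
      _ ≤ _ := h1
      _ = (1 + 2 * q) * (1 + κ) * (H + ε / 6 * a) := by ring
      _ ≤ _ := h3
  have u5 : H - ε / 6 * a ≤ (1 + 2 * κ) * G := by
    have h2 : (1 + κ) * (1 + 2 * q) ≤ 1 + 2 * κ := by nlinarith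
    have h3 := mul_le_mul_of_nonneg_right h2 hG0
    calc _ ≤ _ := u2
      _ = (1 + κ) * (1 + 2 * q) * G := by ring
      _ ≤ _ := h3
  have hκH : 2 * κ * H ≤ ε / 2 * a := by
    calc 2 * κ * H ≤ 2 * κ * (C * a) := mul_le_mul_of_nonneg_left hHC (by linarith)
      _ = 2 * κ * C * a := by ring
      _ ≤ ε / 2 * a := mul_le_mul_of_nonneg_right hκC ha0
  rw [abs_le]
  constructor
  · -- `H - ε a ≤ G`
    have h1 : (1 - 2 * κ) * (H - ε / 6 * a) ≤ G ∨ H - ε / 6 * a ≤ 0 := by
      by_cases h : H - ε / 6 * a ≤ 0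
      · exact Or.inr h
      · left
        push Not at h
        by_cases hk : 1 - 2 * κ ≤ 0
        · have : (1 - 2 * κ) * (H - ε / 6 * a) ≤ 0 := mul_nonpos_of_nonpos_of_nonneg hk h.le
          linarith
        · push Not at hk
          have h2 := mul_le_mul_of_nonneg_left u5 hk.le
          have h3 : (1 - 2 * κ) * ((1 + 2 * κ) * G) ≤ G := by
            have : 0 ≤ κ ^ 2 * G := by positivity
            nlinarith
          linarith
    rcases h1 with h1 | h1
    · have : 0 ≤ κ * (ε / 6 * a) := by positivity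
      nlinarith
    · nlinarith
  · -- `G ≤ H + ε a`
    have h1 : 2 * κ * (ε / 6 * a) ≤ 2 * (ε / 6 * a) := by
      have := mul_le_mul_of_nonneg_right hκ1 hεa
      linarith
    nlinarith

end FT
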