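import Pool.Agent.FT.Semi4

/-! # Module Duh (friend tree, MP_5ccad8_pr) -/

open Finset MeasureTheory Filter Topology

namespace FT

lemma duh_aux_hs {ι : Type*} {f g : ι → ℝ} {a b : ℝ} (h : HasSum f a) (hf : ∀ i, g i = f i)
    (hb : b = a) : HasSum g b := by
  have : g = f := funext hf
  rw [this, hb]; exact h

lemma duh_aux_rate_le {S : St} {v : W} (hv : v ∈ S.V) : (S.L v : ℝ) / S.d v ≤ 1 := by
  rw [div_le_one (St.d_pos hv)]
  unfold St.d
  have : (0 : ℝ) ≤ S.s v := Nat.cast_nonneg _
  linarith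

lemma duh_aux_wt (θ : ℕ → Bool) : Wt (inhT θ) Sub card where
  closed := closed_sub θ
  nonneg := fun x _ => by unfold card; positivity
  gen_le := fun x hx => by
    rw [gen_card θ hx]
    calc ∑ y ∈ x.2, ((x.1.L y : ℝ) / x.1.d y) * (if θ (x.1.L y) = true then 1 else 0)
        ≤ ∑ y ∈ x.2, (1 : ℝ) := sum_le_sum fun y hy => by
          have h1 := duh_aux_rate_le (hx hy)
          have h0 := rate_bir_nonneg x.1 y
          split_ifs
          · linarith
          · linarith
      _ = card x := by simp [card]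

lemma duh_aux_inh_union (θ : ℕ → Bool) (S : St) (v : W) (A B : Finset W) :
    inhT θ S v (A ∪ B) = inhT θ S v A ∪ inhT θ S v B := by
  unfold inhT
  by_cases hθ : θ (S.L v) = true <;> by_cases h1 : v ∈ A <;> by_cases h2 : v ∈ B <;>
    simp [hθ, h1, h2]

lemma duh_aux_inh_disj (θ : ℕ → Bool) {S : St} {v : W} (hv : v ∈ S.V) {A B : Finset W}
    (hA : A ⊆ S.V) (hB : B ⊆ S.V) (h : Disjoint A B) :
    Disjoint (inhT θ S v A) (inhT θ S v B) := by
  have hnA : S.new v ∉ A := fun h => S.new_not_mem hv (hA h)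
  have hnB : S.new v ∉ B := fun h => S.new_not_mem hv (hB h)
  unfold inhT
  by_cases hθ : θ (S.L v) = true <;> by_cases h1 : v ∈ A <;> by_cases h2 : v ∈ B <;>
    simp [hθ, h1, h2, hnA, hnB, h]
  exact absurd h2 (Finset.disjoint_left.1 h h1)

lemma duh_aux_addit_gen (θ : ℕ → Bool) {F : St × Finset W → ℝ} (hF : Addit F) :
    Addit (gen (inhT θ) F) := by
  intro S A B hA hB hAB
  unfold gen
  rw [← sum_add_distrib]
  apply sum_congr rfl
  intro v hv
  simp only at hv ⊢
  rw [hF S A B hA hB hAB, hF (S.arr v) A B (by simpa using hA) (by simpa using hB) hAB]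
  by_cases hL : 0 < S.L v
  · rw [duh_aux_inh_union, hF (S.bir v) (inhT θ S v A) (inhT θ S v B)
      ((closed_sub θ).bir (S, A) hA v hv hL) ((closed_sub θ).bir (S, B) hB v hv hL)
      (duh_aux_inh_disj θ hv hA hB hAB)]
    ring
  · have : S.L v = 0 := by omega
    simp [this]; ring

lemma duh_aux_addit_U (θ : ℕ → Bool) (m : ℕ) : ∀ (j : ℕ) {F : St × Finset W → ℝ},
    Addit F → Addit (U (inhT θ) m j F) := by
  induction m with
  | zero => intro j F hF; exact hF
  | succ m ih =>
    intro j F hF S A B hA hB hAB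
    have h1 := ih (j + 1) hF
    rw [U_succ]
    unfold Aop
    rw [duh_aux_addit_gen θ h1 S A B hA hB hAB, h1 S A B hA hB hAB]
    ring

lemma addit_P (θ : ℕ → Bool) {F : St × Finset W → ℝ} (hF : Addit F) (hD : Dom Sub card F)
    {t : ℝ} (ht : 0 ≤ t) : Addit (P (inhT θ) t F) := by
  intro S A B hA hB hAB
  have h1 := P_hasSum (duh_aux_wt θ) hD ht (x := (S, A)) hA (j := S.n + 1) (by omega) (by simp)
  have h2 := P_hasSum (duh_aux_wt θ) hD ht (x := (S, B)) hB (j := S.n + 1) (by omega) (by simp)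
  have h3 := P_hasSum (duh_aux_wt θ) hD ht (x := (S, A ∪ B)) (show Sub (S, A ∪ B) from
    union_subset hA hB) (j := S.n + 1) (by omega) (by simp)
  refine h3.unique (duh_aux_hs (h1.add h2) (fun m => ?_) rfl)
  rw [duh_aux_addit_U θ m (S.n + 1) hF S A B hA hB hAB]
  ring

/-- the difference of the two generators on additive functions -/
lemma duh_aux_gen_cut (θ : ℕ → Bool) {G : St × Finset W → ℝ} (hG : Addit G)
    {x : St × Finset W} (hx : Sub x) : gen inhA G x = gen (inhT θ) G x + cut θ G x := by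
  obtain ⟨S, A⟩ := x
  have hA : A ⊆ S.V := hx
  have hc : cut θ G (S, A) = ∑ v ∈ S.V, if v ∈ A then (if θ (S.L v) = true then 0 else
      ((S.L v : ℝ) / S.d v) * G (S.bir v, {S.new v})) else 0 := by
    unfold cut
    simp only
    rw [← sum_filter]
    apply sum_congr _ (fun _ _ => rfl)
    ext v; simp only [mem_filter]
    exact ⟨fun h => ⟨hA h, h⟩, fun h => h.2⟩
  rw [hc]
  unfold gen
  rw [← sum_add_distrib]
  apply sum_congr rfl
  intro v hv
  simp only at hv ⊢
  by_cases hL : 0 < S.L v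
  · by_cases hvA : v ∈ A
    · by_cases hθ : θ (S.L v) = true
      · simp [inhT, hvA, hθ]
      · have hn : S.new v ∉ A := fun h => S.new_not_mem hv (hA h)
        have h1 : inhT θ S v A = A := by simp [inhT, hθ]
        have h2 : inhA S v A = {S.new v} ∪ A := by
          simp [inhT, hvA, singleton_union]
        rw [h1, h2, if_pos hvA, if_neg hθ, hG (S.bir v) {S.new v} A
          (by rw [singleton_subset_iff]; exact St.new_mem_bir hv hL)
          (by rw [St.bir_V hv hL]; exact hA.trans (subset_insert _ _))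
          (by rw [disjoint_singleton_left]; exact hn)]
        ring
    · simp [inhT, hvA]
  · have h0 : S.L v = 0 := by omega
    simp [h0]

lemma duh_aux_tele (θ : ℕ → Bool) {F : St × Finset W → ℝ} (hF : Addit F) (m : ℕ) :
    ∀ (j : ℕ) {x : St × Finset W}, Sub x → U inhA m j F x = U (inhT θ) m j F x
      + ∑ k ∈ range m, (1 / ((j + k : ℕ) : ℝ)) *
        U (inhT θ) k j (cut θ (U inhA (m - k - 1) (j + k + 1) F)) x := by
  induction m with
  | zero => intro j x _; simp [U_zero]
  | succ m ih =>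
    intro j x hx
    have hA : Addit (U inhA m (j + 1) F) := duh_aux_addit_U _ m (j + 1) hF
    have h1 : U inhA (m + 1) j F x = Aop (inhT θ) j (U inhA m (j + 1) F) x
        + (1 / (j : ℝ)) * cut θ (U inhA m (j + 1) F) x := by
      rw [U_succ]; unfold Aop; rw [duh_aux_gen_cut θ hA hx]; ring
    have h2 : Aop (inhT θ) j (U inhA m (j + 1) F) x
        = Aop (inhT θ) j (fun y => U (inhT θ) m (j + 1) F y
          + ∑ k ∈ range m, (1 / ((j + 1 + k : ℕ) : ℝ)) *
          U (inhT θ) k (j + 1) (cut θ (U inhA (m - k - 1) (j + 1 + k + 1) F)) y) x :=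
      Aop_congr (closed_sub θ) hx fun y hy _ => ih (j + 1) hy
    have h3 : ∀ (G : ℕ → St × Finset W → ℝ) (a : ℕ → ℝ),
        Aop (inhT θ) j (fun y => ∑ k ∈ range m, a k * G k y) x
          = ∑ k ∈ range m, a k * Aop (inhT θ) j (G k) x := by
      intro G a
      unfold Aop
      rw [gen_sum, mul_sum, ← sum_add_distrib]
      apply sum_congr rfl
      intro k _
      rw [gen_smul]; ring
    rw [h1, h2, Aop_add]
    simp only
    rw [h3 (fun k => U (inhT θ) k (j + 1)
      (cut θ (U inhA (m - k - 1) (j + 1 + k + 1) F))), sum_range_succ', ← U_succ]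
    simp only [← U_succ]
    rw [add_assoc]
    congr 1
    congr 1
    apply sum_congr rfl
    intro k _
    rw [show m + 1 - (k + 1) - 1 = m - k - 1 by omega, show j + 1 + k = j + (k + 1) by ring]

lemma duh_aux_cut_abs (θ : ℕ → Bool) {G : St × Finset W → ℝ} {c : ℝ} (hc : 0 ≤ c)
    {y : St × Finset W} (hy : Sub y)
    (h : ∀ z, Sub z → z.1.n ≤ y.1.n + 1 → |G z| ≤ c * card z) : |cut θ G y| ≤ c * card y := by
  unfold cut
  refine (abs_sum_le_sum_abs _ _).trans ?_
  have : c * card y = ∑ v ∈ y.2, c := by simp [card, mul_comm]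
  rw [this]
  apply sum_le_sum
  intro v hv
  have hvV : v ∈ y.1.V := hy hv
  split_ifs
  · simpa using hc
  · by_cases hL : 0 < y.1.L v
    · rw [abs_mul, abs_of_nonneg (rate_bir_nonneg y.1 v)]
      have h1 := duh_aux_rate_le hvV
      have h2 := h (y.1.bir v, {y.1.new v})
        (by unfold Sub; rw [singleton_subset_iff]; exact St.new_mem_bir hvV hL)
        (by rw [St.bir_n hvV hL])
      have h3 : card (y.1.bir v, {y.1.new v}) = 1 := by simp [card]
      rw [h3, mul_one] at h2
      have h4 := rate_bir_nonneg y.1 v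
      have h5 := abs_nonneg (G (y.1.bir v, {y.1.new v}))
      nlinarith
    · have h0 : y.1.L v = 0 := by omega
      simp [h0, hc]

lemma duh_aux_U_abs (θ : ℕ → Bool) {G : St × Finset W → ℝ} {c : ℝ} (hc : 0 ≤ c)
    {x : St × Finset W} (hx : Sub x) {j : ℕ} (hj : 0 < j) (hn : x.1.n ≤ j) (k : ℕ)
    (h : ∀ y, Sub y → y.1.n ≤ x.1.n + k → |G y| ≤ c * card y) :
    |U (inhT θ) k j G x| ≤ c * (((j + k : ℕ) : ℝ) / j) * card x := by
  have h1 : U (inhT θ) k j card x ≤ pr 1 j k * card x :=
    U_le_pr (closed_sub θ) (by norm_num) (fun y hy => by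
      rw [one_mul]; exact (duh_aux_wt θ).gen_le y hy) k hx hj hn
  rw [pr_one hj] at h1
  have h2 : U (inhT θ) k j (fun y => c * card y) x ≤ c * (((j + k : ℕ) : ℝ) / j) * card x := by
    rw [U_smul]
    calc c * U (inhT θ) k j card x ≤ c * (((j + k : ℕ) : ℝ) / j * card x) :=
          mul_le_mul_of_nonneg_left h1 hc
      _ = _ := by ring
  rw [abs_le]
  constructor
  · have h3 : U (inhT θ) k j (fun y => (-1) * (c * card y)) x ≤ U (inhT θ) k j G x :=
      U_mono (closed_sub θ) k hx hj hn fun y hy hyn => by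
        have := (abs_le.1 (h y hy hyn)).1; linarith
    rw [U_smul] at h3
    simp only at h3
    linarith
  · refine le_trans ?_ h2
    exact U_mono (closed_sub θ) k hx hj hn fun y hy hyn => (abs_le.1 (h y hy hyn)).2

lemma duh_aux_U_hasSum {C : Type*} {inh : St → W → C → C} {Inv : St × C → Prop}
    (hI : Closed inh Inv) (G : ℕ → St × C → ℝ) (H : St × C → ℝ) (k : ℕ) :
    ∀ {j : ℕ} {x : St × C}, Inv x →
      (∀ y, Inv y → y.1.n ≤ x.1.n + k → HasSum (fun l => G l y) (H y)) →
      HasSum (fun l => U inh k j (G l) x) (U inh k j H x) := by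
  induction k with
  | zero => intro j x hx h; exact h x hx (by simp)
  | succ k ih =>
    intro j x hx h
    simp only [U_succ, Aop_eq]
    have key : ∀ y, Inv y → y.1.n ≤ x.1.n + 1 →
        HasSum (fun l => U inh k (j + 1) (G l) y) (U inh k (j + 1) H y) := by
      intro y hy hyn
      exact ih hy fun z hz hzn => h z hz (by omega)
    apply HasSum.add
    · exact (key x hx (by omega)).mul_left _
    · apply hasSum_sum
      intro v hv
      apply HasSum.add
      · exact (key _ (hI.arr x hx v hv) (by simp [St.arr_n hv])).mul_left _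
      · by_cases hL : 0 < x.1.L v
        · exact (key _ (hI.bir x hx v hv hL) (by simp [St.bir_n hv hL])).mul_left _
        · have h0 : x.1.L v = 0 := by omega
          simp [h0]

lemma duh_aux_cut_hasSum (θ : ℕ → Bool) {F : St × Finset W → ℝ} (hF : Dom Sub card F)
    {t : ℝ} (ht : 0 ≤ t) {y : St × Finset W} (hy : Sub y) {i : ℕ} (hn : y.1.n + 1 ≤ i) :
    HasSum (fun l => yw t i l * cut θ (U inhA l i F) y) (cut θ (P inhA t F) y) := by
  unfold cut
  simp only [mul_sum]
  apply hasSum_sum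
  intro v hv
  have hvV : v ∈ y.1.V := hy hv
  split_ifs
  · simp
  · by_cases hL : 0 < y.1.L v
    · have := (P_hasSum (duh_aux_wt (fun _ => true)) hF ht (x := (y.1.bir v, {y.1.new v}))
        (by unfold Sub; rw [singleton_subset_iff]; exact St.new_mem_bir hvV hL)
        (j := i) (by omega) (by rw [St.bir_n hvV hL]; exact hn)).mul_left
          ((y.1.L v : ℝ) / y.1.d v)
      exact duh_aux_hs this (fun l => by ring) rfl
    · have h0 : y.1.L v = 0 := by omega
      simp [h0]

/-- the double series of the weights -/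
lemma duh_aux_weights {T b : ℝ} (hb : 0 ≤ b) (hbT : b ≤ T) {j : ℕ} (hj : 0 < j) :
    HasSum (fun p : ℕ × ℕ => yw b j p.1 * yw (T - b) (j + p.1 + 1) p.2
      * ((j + p.1 + 1 + p.2 : ℕ) : ℝ)) (j * Real.exp T + Real.exp (T - b)) := by
  have hTb : 0 ≤ T - b := by linarith
  have hin : ∀ k : ℕ, HasSum (fun l => yw b j k * yw (T - b) (j + k + 1) l
      * ((j + k + 1 + l : ℕ) : ℝ)) (yw b j k * (((j + k : ℕ) : ℝ) + 1) * Real.exp (T - b)) := by
    intro k
    have := (yw_hasSum_mean hTb (j := j + k + 1) (by omega)).mul_left (yw b j k)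
    exact duh_aux_hs this (fun l => by ring) (by push_cast; ring)
  have hout : HasSum (fun k => yw b j k * (((j + k : ℕ) : ℝ) + 1) * Real.exp (T - b))
      (j * Real.exp T + Real.exp (T - b)) := by
    have := ((yw_hasSum_mean hb hj).add (yw_hasSum hb hj)).mul_right (Real.exp (T - b))
    refine duh_aux_hs this (fun l => by ring) ?_
    rw [add_mul, one_mul, mul_assoc, ← Real.exp_add]
    rw [show b + (T - b) = T by ring]
  have hsum : Summable (fun p : ℕ × ℕ => yw b j p.1 * yw (T - b) (j + p.1 + 1) p.2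
      * ((j + p.1 + 1 + p.2 : ℕ) : ℝ)) := by
    rw [summable_prod_of_nonneg (fun p => by
      have h1 := yw_nonneg hb j p.1
      have h2 := yw_nonneg hTb (j + p.1 + 1) p.2
      simp only [Pi.zero_apply]
      positivity)]
    constructor
    · intro k; exact (hin k).summable
    · have : (fun k => ∑' l, yw b j k * yw (T - b) (j + k + 1) l
          * ((j + k + 1 + l : ℕ) : ℝ)) = fun k => yw b j k * (((j + k : ℕ) : ℝ) + 1)
            * Real.exp (T - b) := by
        funext k; exact (hin k).tsum_eq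
      simp only
      rw [this]
      exact hout.summable
  have h := hsum.hasSum.prod_fiberwise (f := fun p : ℕ × ℕ => yw b j p.1
    * yw (T - b) (j + p.1 + 1) p.2 * ((j + p.1 + 1 + p.2 : ℕ) : ℝ)) hin
  rw [hout.unique h]
  exact hsum.hasSum

theorem duhamel (θ : ℕ → Bool) {F : St × Finset W → ℝ} (hadd : Addit F) (hF : Dom Sub card F)
    {T : ℝ} (hT : 0 ≤ T) {x : St × Finset W} (hx : Sub x) :
    IntervalIntegrable (fun b => P (inhT θ) b (cut θ (P inhA (T - b) F)) x) volume 0 T ∧
    P inhA T F x = P (inhT θ) T F x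
      + ∫ b in (0 : ℝ)..T, P (inhT θ) b (cut θ (P inhA (T - b) F)) x := by
  obtain ⟨c, hc, hFc⟩ := id hF
  obtain ⟨j, hj⟩ : ∃ j, j = x.1.n + 1 := ⟨_, rfl⟩
  have hj0 : 0 < j := by omega
  have hjn : x.1.n ≤ j := by omega
  have hjr : (0 : ℝ) < j := by exact_mod_cast hj0
  -- coefficients
  obtain ⟨cc, hcc⟩ : ∃ cc : ℕ × ℕ → ℝ, ∀ p, cc p =
    U (inhT θ) p.1 j (cut θ (U inhA p.2 (j + p.1 + 1) F)) x := ⟨_, fun _ => rfl⟩
  obtain ⟨C0, hC0⟩ : ∃ C0 : ℝ, C0 = c * card x / j := ⟨_, rfl⟩
  have hcard : 0 ≤ card x := by unfold card; positivity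
  have hC0' : 0 ≤ C0 := by rw [hC0]; positivity
  have hccb : ∀ p, |cc p| ≤ C0 * ((j + p.1 + 1 + p.2 : ℕ) : ℝ) := by
    rintro ⟨k, l⟩
    have hkpos : (0 : ℝ) < ((j + k + 1 : ℕ) : ℝ) := by positivity
    have h1 : ∀ y, Sub y → y.1.n ≤ x.1.n + k → |cut θ (U inhA l (j + k + 1) F) y|
        ≤ (c * (((j + k + 1 + l : ℕ) : ℝ) / ((j + k + 1 : ℕ) : ℝ))) * card y := by
      intro y hy hyn
      apply duh_aux_cut_abs θ (by positivity) hy
      intro z hz hzn
      exact U_abs_le (duh_aux_wt _) hc hFc hz (by omega) (by omega) l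
    have h2 := duh_aux_U_abs θ (by positivity) hx hj0 hjn k h1
    rw [hcc]
    refine h2.trans ?_
    rw [hC0]
    have h3 : (((j + k : ℕ) : ℝ)) ≤ ((j + k + 1 : ℕ) : ℝ) := by push_cast; linarith
    have h4 : ((j + k : ℕ) : ℝ) / ((j + k + 1 : ℕ) : ℝ) ≤ 1 := by
      rw [div_le_one hkpos]; exact h3
    have e : c * (((j + k + 1 + l : ℕ) : ℝ) / ((j + k + 1 : ℕ) : ℝ)) * (((j + k : ℕ) : ℝ) / j)
        * card x = (c * card x / j * ((j + k + 1 + l : ℕ) : ℝ))
          * (((j + k : ℕ) : ℝ) / ((j + k + 1 : ℕ) : ℝ)) := by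
      field_simp
    rw [e]
    exact mul_le_of_le_one_right (by positivity) h4
  -- pointwise expansion
  obtain ⟨ww, hww⟩ : ∃ ww : ℕ × ℕ → ℝ → ℝ, ∀ p b, ww p b =
    yw b j p.1 * yw (T - b) (j + p.1 + 1) p.2 := ⟨_, fun _ _ => rfl⟩
  have hww0 : ∀ p b, 0 ≤ b → b ≤ T → 0 ≤ ww p b := by
    intro p b hb hbT
    rw [hww]
    exact mul_nonneg (yw_nonneg hb _ _) (yw_nonneg (by linarith) _ _)
  have hwwc : ∀ p, Continuous (ww p) := by
    intro p
    have : ww p = fun b => yw b j p.1 * yw (T - b) (j + p.1 + 1) p.2 := by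
      funext b; exact hww p b
    rw [this]
    exact (yw_continuous _ _).mul ((yw_continuous _ _).comp (continuous_const.sub continuous_id))
  have hbs : ∀ b, 0 ≤ b → b ≤ T → HasSum (fun p => ww p b * (C0 * ((j + p.1 + 1 + p.2 : ℕ) : ℝ)))
      (C0 * (j * Real.exp T + Real.exp (T - b))) := by
    intro b hb hbT
    have := (duh_aux_weights hb hbT hj0).mul_left C0
    exact duh_aux_hs this (fun p => by rw [hww]; ring) rfl
  have hle : ∀ p b, 0 ≤ b → b ≤ T →
      ‖ww p b * cc p‖ ≤ ww p b * (C0 * ((j + p.1 + 1 + p.2 : ℕ) : ℝ)) := by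
    intro p b hb hbT
    rw [norm_mul, Real.norm_eq_abs, Real.norm_eq_abs, abs_of_nonneg (hww0 p b hb hbT)]
    exact mul_le_mul_of_nonneg_left (hccb p) (hww0 p b hb hbT)
  have hpt : ∀ b, 0 ≤ b → b ≤ T → HasSum (fun p => ww p b * cc p)
      (P (inhT θ) b (cut θ (P inhA (T - b) F)) x) := by
    intro b hb hbT
    have hTb : 0 ≤ T - b := by linarith
    have hs : Summable (fun p => ww p b * cc p) :=
      Summable.of_norm_bounded (hbs b hb hbT).summable fun p => hle p b hb hbT
    have hin : ∀ k, HasSum (fun l => ww (k, l) b * cc (k, l))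
        (yw b j k * U (inhT θ) k j (cut θ (P inhA (T - b) F)) x) := by
      intro k
      have h1 := duh_aux_U_hasSum (closed_sub θ)
        (fun l y => yw (T - b) (j + k + 1) l * cut θ (U inhA l (j + k + 1) F) y)
        (cut θ (P inhA (T - b) F)) k (j := j) hx (fun y hy hyn =>
          duh_aux_cut_hasSum θ hF hTb hy (by omega))
      have h2 := h1.mul_left (yw b j k)
      refine duh_aux_hs h2 (fun l => ?_) rfl
      rw [U_smul, hww, hcc]
      ring
    have h3 := hs.hasSum.prod_fiberwise hin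
    have hD : Dom Sub card (cut θ (P inhA (T - b) F)) := by
      obtain ⟨c', hc', hc''⟩ := Dom_P (duh_aux_wt (fun _ => true)) hF hTb
      exact ⟨c', hc', fun y hy => duh_aux_cut_abs θ hc' hy fun z hz _ => hc'' z hz⟩
    have h4 := P_hasSum (duh_aux_wt θ) hD hb hx hj0 hjn
    rw [h4.unique h3]
    exact hs.hasSum
  -- integrability
  have hae : ∀ᵐ b ∂(volume.restrict (Set.Ioc 0 T)), 0 ≤ b ∧ b ≤ T :=
    (ae_restrict_mem measurableSet_Ioc).mono fun b hb => ⟨hb.1.le, hb.2⟩
  have hInt : IntervalIntegrable (fun b => P (inhT θ) b (cut θ (P inhA (T - b) F)) x)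
      volume 0 T := by
    rw [intervalIntegrable_iff_integrableOn_Ioc_of_le hT]
    have hmeas : AEStronglyMeasurable (fun b => P (inhT θ) b (cut θ (P inhA (T - b) F)) x)
        (volume.restrict (Set.Ioc 0 T)) := by
      refine aestronglyMeasurable_of_tendsto_ae (atTop : Filter (Finset (ℕ × ℕ)))
        (f := fun s b => ∑ p ∈ s, ww p b * cc p) (fun s => ?_) ?_
      · exact (continuous_finsetSum _ fun p _ =>
          (hwwc p).mul continuous_const).aestronglyMeasurable
      · filter_upwards [hae] with b hb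
        exact hpt b hb.1 hb.2
    have hfin : IsFiniteMeasure ((volume : Measure ℝ).restrict (Set.Ioc 0 T)) :=
      ⟨by simp⟩
    refine Integrable.of_bound hmeas (C0 * (j * Real.exp T + Real.exp T)) ?_
    · filter_upwards [hae] with b hb
      have h1 : ‖P (inhT θ) b (cut θ (P inhA (T - b) F)) x‖
          ≤ C0 * (j * Real.exp T + Real.exp (T - b)) := by
        rw [← (hpt b hb.1 hb.2).tsum_eq, ← (hbs b hb.1 hb.2).tsum_eq]
        exact tsum_of_norm_bounded (hbs b hb.1 hb.2).summable.hasSum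
          fun p => hle p b hb.1 hb.2
      refine h1.trans ?_
      apply mul_le_mul_of_nonneg_left _ hC0'
      have : Real.exp (T - b) ≤ Real.exp T := Real.exp_le_exp.2 (by linarith [hb.1])
      linarith
  refine ⟨hInt, ?_⟩
  -- the integral as a double series
  have hI : HasSum (fun p => ∫ b in (0 : ℝ)..T, ww p b * cc p)
      (∫ b in (0 : ℝ)..T, P (inhT θ) b (cut θ (P inhA (T - b) F)) x) := by
    simp only [intervalIntegral.integral_of_le hT]
    refine hasSum_integral_of_dominated_convergence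
      (bound := fun p b => ww p b * (C0 * ((j + p.1 + 1 + p.2 : ℕ) : ℝ))) ?_ ?_ ?_ ?_ ?_
    · intro p
      exact ((hwwc p).mul continuous_const).aestronglyMeasurable
    · intro p
      filter_upwards [hae] with b hb
      exact hle p b hb.1 hb.2
    · filter_upwards [hae] with b hb
      exact (hbs b hb.1 hb.2).summable
    · have h1 : Integrable (fun b => C0 * (j * Real.exp T + Real.exp (T - b)))
          (volume.restrict (Set.Ioc 0 T)) := by
        have hcont : Continuous (fun b : ℝ => C0 * (j * Real.exp T + Real.exp (T - b))) := by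
          fun_prop
        exact (hcont.integrableOn_Icc (a := 0) (b := T)).mono_set Set.Ioc_subset_Icc_self
      refine h1.congr ?_
      filter_upwards [hae] with b hb
      exact (hbs b hb.1 hb.2).tsum_eq.symm
    · filter_upwards [hae] with b hb
      exact hpt b hb.1 hb.2
  have hI2 : ∀ p : ℕ × ℕ, ∫ b in (0 : ℝ)..T, ww p b * cc p
      = (1 / ((j + p.1 : ℕ) : ℝ)) * yw T j (p.1 + p.2 + 1) * cc p := by
    rintro ⟨k, l⟩
    have h1 := yw_integral hT hj0 (k := k) (m := k + l + 1) (by omega)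
    rw [show k + l + 1 - k - 1 = l by omega] at h1
    have h2 : ∫ b in (0 : ℝ)..T, ((j + k : ℕ) : ℝ) * yw b j k * yw (T - b) (j + k + 1) l
        = ((j + k : ℕ) : ℝ) * ∫ b in (0 : ℝ)..T, ww (k, l) b := by
      rw [← intervalIntegral.integral_const_mul]
      congr 1
      funext b
      rw [hww]; ring
    rw [h2] at h1
    have hk : ((j + k : ℕ) : ℝ) ≠ 0 := by
      have : 0 < j + k := by omega
      exact_mod_cast this.ne'
    rw [intervalIntegral.integral_mul_const]
    simp only
    rw [← h1]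
    field_simp
  simp only [hI2] at hI
  -- reorganise along antidiagonals
  have hI3 : HasSum (fun n => ∑ k ∈ range (n + 1), (1 / ((j + k : ℕ) : ℝ)) * yw T j (n + 1)
      * cc (k, n - k)) (∫ b in (0 : ℝ)..T, P (inhT θ) b (cut θ (P inhA (T - b) F)) x) := by
    have h1 := (Finset.HasAntidiagonal.sigmaAntidiagonalEquivProd (A := ℕ)).hasSum_iff.2 hI
    have h2 := h1.sigma (fun n => hasSum_fintype _)
    refine duh_aux_hs h2 (fun n => ?_) rfl
    show _ = ∑ b : Finset.HasAntidiagonal.antidiagonal n, (1 / ((j + (b : ℕ × ℕ).1 : ℕ) : ℝ))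
      * yw T j ((b : ℕ × ℕ).1 + (b : ℕ × ℕ).2 + 1) * cc b
    rw [Finset.sum_coe_sort (Finset.HasAntidiagonal.antidiagonal n) (fun p => (1 / ((j + p.1 : ℕ) : ℝ))
      * yw T j (p.1 + p.2 + 1) * cc p),
      Finset.Nat.sum_antidiagonal_eq_sum_range_succ_mk]
    apply sum_congr rfl
    intro k hk
    have : k ≤ n := by simpa [Nat.lt_succ_iff] using mem_range.1 hk
    rw [show k + (n - k) + 1 = n + 1 by omega]
  have hI4 : HasSum (fun m => yw T j m * (U inhA m j F x - U (inhT θ) m j F x))
      (∫ b in (0 : ℝ)..T, P (inhT θ) b (cut θ (P inhA (T - b) F)) x) := by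
    rw [← hasSum_nat_add_iff' 1]
    simp only [range_one, sum_singleton, U_zero, sub_self, mul_zero, sub_zero]
    refine duh_aux_hs hI3 (fun n => ?_) rfl
    rw [duh_aux_tele θ hadd (n + 1) j hx, add_sub_cancel_left, mul_sum]
    apply sum_congr rfl
    intro k hk
    have : k ≤ n := by simpa [Nat.lt_succ_iff] using mem_range.1 hk
    rw [hcc, show n + 1 - k - 1 = n - k by omega]
    ring
  have h5 := (P_hasSum (duh_aux_wt (fun _ => true)) hF hT hx hj0 hjn).sub
    (P_hasSum (duh_aux_wt θ) hF hT hx hj0 hjn)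
  have h6 : HasSum (fun m => yw T j m * (U inhA m j F x - U (inhT θ) m j F x))
      (P inhA T F x - P (inhT θ) T F x) := by
    exact duh_aux_hs h5 (fun m => by ring) rfl
  have := h6.unique hI4
  linarith

end FT
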