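import Pool.Agent.FT.Lim

/-! # Module Eigen (friend tree, MP_5ccad8_pr) -/

open Finset MeasureTheory Filter Topology

namespace FT

lemma eigen_aux_card_nonneg (x : St × Finset W) : 0 ≤ card x := Nat.cast_nonneg _

lemma eigen_aux_addit_card : Addit card := by
  intro S A B _ _ hAB
  unfold card
  simp only
  rw [card_union_of_disjoint hAB]
  push_cast
  ring

lemma eigen_aux_dom_card : Dom Sub card card :=
  ⟨1, zero_le_one, fun x _ => by rw [abs_of_nonneg (eigen_aux_card_nonneg x), one_mul]⟩

lemma eigen_aux_phit_nonneg {t : ℝ} (ht : 0 ≤ t) {x : St × Finset W} (hx : Sub x) :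
    0 ≤ phit t x := by
  have h1 : P inhA t (fun _ => (0 : ℝ)) x ≤ P inhA t card x :=
    P_mono (wt_card (fun _ => true)) ⟨0, le_rfl, fun y _ => by simp⟩ eigen_aux_dom_card ht hx
      (fun y _ => eigen_aux_card_nonneg y)
  rwa [P_const ht] at h1

lemma eigen_aux_phit_add {t s : ℝ} (hs : 0 ≤ s) (ht : 0 ≤ t) {x : St × Finset W} (hx : Sub x) :
    phit (s + t) x = P inhA s (phit t) x :=
  P_semigroup (wt_card (fun _ => true)) eigen_aux_dom_card hs ht hx

lemma eigen_aux_exp_mul (μ s t : ℝ) :
    Real.exp (-(μ * t)) = Real.exp (μ * s) * Real.exp (-(μ * (s + t))) := by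
  rw [← Real.exp_add]; congr 1; ring

theorem exists_eig : ∃ (μ : ℝ) (hh : St × Finset W → ℝ), Expo μ ∧ Eig μ hh := by
  obtain ⟨μ, hμ⟩ := exists_expo
  obtain ⟨hh, hlim⟩ := lim_exists hμ
  have hμ' := hμ
  obtain ⟨-, -, c0, C0, hc0, hC0, hmt⟩ := hμ'
  refine ⟨μ, hh, hμ, ?_⟩
  -- pointwise convergence
  have hpt : ∀ x, Sub x → Tendsto (fun t : ℝ => Real.exp (-(μ * t)) * phit t x) atTop (𝓝 (hh x)) := by
    intro x hx
    rw [Metric.tendsto_atTop]
    intro ε hε
    have hcx := eigen_aux_card_nonneg x
    obtain ⟨T, _, hT⟩ := hlim (ε / (2 * (card x + 1))) (by positivity)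
    refine ⟨T, fun t ht => ?_⟩
    rw [Real.dist_eq]
    refine lt_of_le_of_lt (hT t ht x hx) ?_
    rw [div_mul_eq_mul_div, div_lt_iff₀ (by positivity)]
    nlinarith
  -- eigenfunction of the semigroup
  obtain ⟨C1, hC1, hle⟩ := phit_le
  have hbound : ∀ x, Sub x → hh x ≤ (C1 * C0) * card x := by
    intro x hx
    refine le_of_tendsto (hpt x hx) ?_
    filter_upwards [eventually_ge_atTop (0 : ℝ)] with t ht
    have h1 := hle t ht x hx
    have h2 := (hmt t ht).2
    have h3 : C1 * card x * mt t ≤ C1 * card x * (C0 * Real.exp (μ * t)) :=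
      mul_le_mul_of_nonneg_left h2 (mul_nonneg hC1.le (eigen_aux_card_nonneg x))
    calc Real.exp (-(μ * t)) * phit t x
        ≤ Real.exp (-(μ * t)) * (C1 * card x * (C0 * Real.exp (μ * t))) :=
          mul_le_mul_of_nonneg_left (h1.trans h3) (Real.exp_pos _).le
      _ = (C1 * C0) * card x * (Real.exp (-(μ * t)) * Real.exp (μ * t)) := by ring
      _ = (C1 * C0) * card x := by rw [← Real.exp_add]; simp
  have hnn : ∀ x, Sub x → 0 ≤ hh x := by
    intro x hx
    refine ge_of_tendsto (hpt x hx) ?_
    filter_upwards [eventually_ge_atTop (0 : ℝ)] with t ht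
    exact mul_nonneg (Real.exp_pos _).le (eigen_aux_phit_nonneg ht hx)
  have hdom : Dom Sub card hh := ⟨C1 * C0, by positivity, fun x hx => by
    rw [abs_of_nonneg (hnn x hx)]; exact hbound x hx⟩
  have hw := wt_card (fun _ => true)
  have hsemi : ∀ s : ℝ, 0 ≤ s → ∀ x, Sub x → P inhA s hh x = Real.exp (μ * s) * hh x := by
    intro s hs x hx
    have hcx := eigen_aux_card_nonneg x
    -- bound by any positive multiple
    have key : ∀ ε : ℝ, 0 < ε →
        |P inhA s hh x - Real.exp (μ * s) * hh x| ≤ ε * ((Real.exp s + Real.exp (μ * s)) * card x) := by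
      intro ε hε
      obtain ⟨T, hT0, hT⟩ := hlim ε hε
      have hph : Dom Sub card (phit T) := Dom_P hw eigen_aux_dom_card hT0
      have hdomT : Dom Sub card (fun y => Real.exp (-(μ * T)) * phit T y) := by
        obtain ⟨c, hc, h⟩ := hph
        refine ⟨Real.exp (-(μ * T)) * c, mul_nonneg (Real.exp_pos _).le hc, fun y hy => ?_⟩
        rw [abs_mul, abs_of_pos (Real.exp_pos _), mul_assoc]
        exact mul_le_mul_of_nonneg_left (h y hy) (Real.exp_pos _).le
      have e1 : P inhA s (fun y => Real.exp (-(μ * T)) * phit T y) x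
          = Real.exp (μ * s) * (Real.exp (-(μ * (s + T))) * phit (s + T) x) := by
        rw [P_smul, ← eigen_aux_phit_add hs hT0 hx, eigen_aux_exp_mul μ s T]
        ring
      have e2 : |P inhA s (fun y => Real.exp (-(μ * T)) * phit T y - hh y) x|
          ≤ ε * Real.exp s * card x :=
        P_abs_le hw hε.le (fun y hy => hT T le_rfl y hy) hs hx
      rw [P_sub_fun hw hdomT hdom hs hx, e1] at e2
      have e3 := hT (s + T) (by linarith) x hx
      have e4 : |Real.exp (μ * s) * (Real.exp (-(μ * (s + T))) * phit (s + T) x)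
          - Real.exp (μ * s) * hh x| ≤ Real.exp (μ * s) * (ε * card x) := by
        rw [← mul_sub, abs_mul, abs_of_pos (Real.exp_pos _)]
        exact mul_le_mul_of_nonneg_left e3 (Real.exp_pos _).le
      have e5 := abs_sub_le (P inhA s hh x)
        (Real.exp (μ * s) * (Real.exp (-(μ * (s + T))) * phit (s + T) x))
        (Real.exp (μ * s) * hh x)
      rw [abs_sub_comm] at e2
      calc _ ≤ _ := e5
        _ ≤ ε * Real.exp s * card x + Real.exp (μ * s) * (ε * card x) := add_le_add e2 e4
        _ = _ := by ring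
    have h0 : |P inhA s hh x - Real.exp (μ * s) * hh x| ≤ 0 := by
      refine le_of_forall_pos_le_add fun δ hδ => ?_
      set M := (Real.exp s + Real.exp (μ * s)) * card x with hM
      have hM0 : 0 ≤ M := mul_nonneg (by positivity) hcx
      have := key (δ / (M + 1)) (by positivity)
      refine this.trans ?_
      rw [zero_add, div_mul_eq_mul_div, div_le_iff₀ (by positivity)]
      nlinarith
    have h1 := abs_nonpos_iff.1 h0
    linarith
  exact
    { nonneg := hnn
      le := ⟨C1 * C0, by positivity, hbound⟩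
      add := by
        intro S A B hA hB hAB
        have h1 := hpt (S, A ∪ B) (union_subset hA hB)
        have h2 := (hpt (S, A) hA).add (hpt (S, B) hB)
        refine tendsto_nhds_unique (h1.congr' ?_) h2
        filter_upwards [eventually_ge_atTop (0 : ℝ)] with t ht
        have := addit_P (fun _ => true) eigen_aux_addit_card eigen_aux_dom_card ht S A B hA hB hAB
        have h3 : phit t (S, A ∪ B) = phit t (S, A) + phit t (S, B) := this
        rw [h3]; ring
      gen := by
        intro x hx
        have h1 := P_deriv_zero hw hdom hx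
        have h2 : Tendsto (fun t : ℝ => (P inhA t hh x - hh x) / t) (𝓝[>] 0) (𝓝 (μ * hh x)) := by
          have hd : HasDerivAt (fun t : ℝ => Real.exp (μ * t)) μ 0 := by
            have := ((hasDerivAt_id (0 : ℝ)).const_mul μ).exp
            simpa using this
          have h3 : Tendsto (fun t : ℝ => t⁻¹ * (Real.exp (μ * t) - 1)) (𝓝[>] 0) (𝓝 μ) := by
            have := hd.tendsto_slope_zero_right
            simpa using this
          have h4 := h3.mul_const (hh x)
          refine h4.congr' ?_
          filter_upwards [self_mem_nhdsWithin] with t ht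
          rw [hsemi t (le_of_lt ht) x hx]
          field_simp
        exact tendsto_nhds_unique h1 h2
      lower := by
        obtain ⟨c, hc, hlow⟩ := phit_lower
        refine ⟨c * c0 * Real.exp (-μ), by positivity, fun S y hy => ?_⟩
        have hx : Sub (S, ({y} : Finset W)) := by
          intro z hz; rw [mem_singleton] at hz; subst hz; exact hy
        have hq : 0 ≤ (S.L y : ℝ) / S.d y := div_nonneg (Nat.cast_nonneg _) (S.d_nonneg y)
        refine ge_of_tendsto (hpt _ hx) ?_
        filter_upwards [eventually_ge_atTop (1 : ℝ)] with t ht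
        have h1 := hlow (t - 1) (by linarith) S y hy
        rw [sub_add_cancel] at h1
        have h2 := (hmt (t - 1) (by linarith)).1
        have h3 : c * ((S.L y : ℝ) / S.d y) * (c0 * Real.exp (μ * (t - 1))) ≤ phit t (S, {y}) :=
          (mul_le_mul_of_nonneg_left h2 (mul_nonneg hc.le hq)).trans h1
        calc c * c0 * Real.exp (-μ) * ((S.L y : ℝ) / S.d y)
            = Real.exp (-(μ * t)) * (c * ((S.L y : ℝ) / S.d y) * (c0 * Real.exp (μ * (t - 1)))) := by
              have : Real.exp (-μ) = Real.exp (-(μ * t)) * Real.exp (μ * (t - 1)) := by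
                rw [← Real.exp_add]; congr 1; ring
              rw [this]; ring
          _ ≤ _ := mul_le_mul_of_nonneg_left h3 (Real.exp_pos _).le
      lim := hlim }

end FT
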