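import Pool.Agent.FT.Tree

/-! # Module Enc (friend tree, MP_5ccad8_pr) -/

open Finset MeasureTheory Filter Topology

namespace FT

/-! ### deterministic part: combinatorics of the tree -/

/-- valid attachment sequences -/
def enc_Val (w : ℕ → ℕ) (n : ℕ) : Prop := ∀ k, 2 ≤ k → k < n → 1 ≤ w k ∧ w k ≤ k

/-- the first neighbour of `x` -/
def enc_par (w : ℕ → ℕ) (x : ℕ) : ℕ := if x = 1 then 2 else if x = 2 then 1 else w (x - 1)

/-- later neighbours of `x` -/
def enc_ch (w : ℕ → ℕ) (n x : ℕ) : Finset ℕ := (Icc 3 n).filter (fun y => w (y - 1) = x)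

/-- neighbours of `x` in `T_n` -/
def enc_N (w : ℕ → ℕ) (n x : ℕ) : Finset ℕ := insert (enc_par w x) (enc_ch w n x)

/-- core vertices of `T_n` -/
def enc_C (w : ℕ → ℕ) (n : ℕ) : Finset ℕ := (Icc 3 n).image (fun y => w (y - 1))

lemma enc_mem_ch {w : ℕ → ℕ} {n x y : ℕ} : y ∈ enc_ch w n x ↔ (3 ≤ y ∧ y ≤ n) ∧ w (y - 1) = x := by
  simp [enc_ch]

lemma enc_mem_N {w : ℕ → ℕ} {n x y : ℕ} :
    y ∈ enc_N w n x ↔ y = enc_par w x ∨ ((3 ≤ y ∧ y ≤ n) ∧ w (y - 1) = x) := by
  rw [enc_N, mem_insert, enc_mem_ch]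

lemma enc_mem_C {w : ℕ → ℕ} {n x : ℕ} : x ∈ enc_C w n ↔ ∃ y, (3 ≤ y ∧ y ≤ n) ∧ w (y - 1) = x := by
  simp [enc_C]

lemma enc_C_iff {w : ℕ → ℕ} {n x : ℕ} : x ∈ enc_C w n ↔ (enc_ch w n x).Nonempty := by
  rw [enc_mem_C]
  constructor
  · rintro ⟨y, hy⟩; exact ⟨y, enc_mem_ch.2 hy⟩
  · rintro ⟨y, hy⟩; exact ⟨y, enc_mem_ch.1 hy⟩

section det
variable {w : ℕ → ℕ} {n : ℕ}

lemma enc_ch_of_not_mem {x : ℕ} (hx : x ∉ enc_C w n) : enc_ch w n x = ∅ := by
  rw [enc_C_iff, not_nonempty_iff_eq_empty] at hx; exact hx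

lemma enc_N_of_not_mem {x : ℕ} (hx : x ∉ enc_C w n) : enc_N w n x = {enc_par w x} := by
  rw [enc_N, enc_ch_of_not_mem hx]; rfl

/-- in a valid tree: values -/
lemma enc_val_lt (hw : enc_Val w n) {y : ℕ} (h3 : 3 ≤ y) (hn : y ≤ n) :
    1 ≤ w (y - 1) ∧ w (y - 1) < y := by
  have := hw (y - 1) (by omega) (by omega)
  omega

lemma enc_C_range (hw : enc_Val w n) {x : ℕ} (hx : x ∈ enc_C w n) : 1 ≤ x ∧ x ≤ n := by
  obtain ⟨y, hy, rfl⟩ := enc_mem_C.1 hx
  have := enc_val_lt hw hy.1 hy.2
  omega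

lemma enc_par_range (hw : enc_Val w n) (hn : 2 ≤ n) {x : ℕ} (h1 : 1 ≤ x) (hxn : x ≤ n) :
    1 ≤ enc_par w x ∧ enc_par w x ≤ n ∧ enc_par w x ≠ x := by
  unfold enc_par
  split_ifs with h h'
  · omega
  · omega
  · have := enc_val_lt hw (show 3 ≤ x by omega) hxn
    omega

lemma enc_par_not_mem_ch (hw : enc_Val w n) {x : ℕ} (h1 : 1 ≤ x) (hxn : x ≤ n) :
    enc_par w x ∉ enc_ch w n x := by
  rw [enc_mem_ch]
  rintro ⟨⟨h3, hn⟩, hc⟩
  have hv := enc_val_lt hw h3 hn
  unfold enc_par at *
  split_ifs at * with h h'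
  · omega
  · omega
  · have := enc_val_lt hw (show 3 ≤ x by omega) hxn
    omega

lemma enc_card_N (hw : enc_Val w n) {x : ℕ} (h1 : 1 ≤ x) (hxn : x ≤ n) :
    (enc_N w n x).card = (enc_ch w n x).card + 1 := by
  rw [enc_N, card_insert_of_notMem (enc_par_not_mem_ch hw h1 hxn)]

lemma enc_N_range (hw : enc_Val w n) (hn : 2 ≤ n) {x y : ℕ} (h1 : 1 ≤ x) (hxn : x ≤ n)
    (hy : y ∈ enc_N w n x) : 1 ≤ y ∧ y ≤ n ∧ y ≠ x := by
  rcases enc_mem_N.1 hy with rfl | ⟨⟨h3, hn'⟩, hc⟩
  · exact enc_par_range hw hn h1 hxn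
  · have := enc_val_lt hw h3 hn'
    omega

/-- symmetry of the neighbour relation -/
lemma enc_N_symm (hw : enc_Val w n) (hn : 2 ≤ n) {x y : ℕ} (h1 : 1 ≤ x) (hxn : x ≤ n)
    (hy : y ∈ enc_N w n x) : x ∈ enc_N w n y := by
  have hr := enc_N_range hw hn h1 hxn hy
  rcases enc_mem_N.1 hy with rfl | ⟨⟨h3, hn'⟩, hc⟩
  · rw [enc_mem_N]
    unfold enc_par at *
    by_cases h : x = 1
    · simp [h]
    · by_cases h' : x = 2
      · simp [h']
      · rw [if_neg h, if_neg h'] at *
        exact Or.inr ⟨⟨by omega, hxn⟩, rfl⟩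
  · rw [enc_mem_N]
    left
    unfold enc_par
    rw [if_neg (by omega), if_neg (by omega), hc]

lemma enc_tree_adj (hw : enc_Val w n) (hn : 2 ≤ n) {x y : ℕ} (h1 : 1 ≤ x) (hxn : x ≤ n) :
    (tree w n).Adj x y ↔ y ∈ enc_N w n x := by
  unfold tree
  rw [SimpleGraph.fromRel_adj, enc_mem_N]
  constructor
  · rintro ⟨hne, (⟨rfl, rfl⟩ | ⟨k, hk, hkn, rfl, rfl⟩) | (⟨rfl, rfl⟩ | ⟨k, hk, hkn, rfl, rfl⟩)⟩
    · left; simp [enc_par]
    · left; unfold enc_par; rw [if_neg (by omega), if_neg (by omega)]; simp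
    · left; simp [enc_par]
    · right; exact ⟨⟨by omega, by omega⟩, by simp⟩
  · rintro (rfl | ⟨⟨h3, hn'⟩, hc⟩)
    · have hr := enc_par_range hw hn h1 hxn
      refine ⟨hr.2.2.symm, ?_⟩
      unfold enc_par
      by_cases h : x = 1
      · left; left; simp [h]
      · by_cases h' : x = 2
        · right; left; simp [h']
        · rw [if_neg h, if_neg h']
          left; right
          exact ⟨x - 1, by omega, by omega, by omega, rfl⟩
    · have := enc_val_lt hw h3 hn'
      refine ⟨by omega, Or.inr (Or.inr ⟨y - 1, by omega, by omega, by omega, hc.symm⟩)⟩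

lemma enc_tdeg (hw : enc_Val w n) (hn : 2 ≤ n) {x : ℕ} (h1 : 1 ≤ x) (hxn : x ≤ n) :
    tdeg w n x = (enc_N w n x).card := by
  unfold tdeg
  rw [← Set.ncard_coe_finset]
  congr 1
  ext y
  rw [SimpleGraph.mem_neighborSet, enc_tree_adj hw hn h1 hxn]
  rfl

lemma enc_tdeg_ge (hw : enc_Val w n) (hn : 2 ≤ n) {x : ℕ} (h1 : 1 ≤ x) (hxn : x ≤ n) :
    2 ≤ tdeg w n x ↔ x ∈ enc_C w n := by
  rw [enc_tdeg hw hn h1 hxn, enc_card_N hw h1 hxn, enc_C_iff, ← card_pos]
  omega

lemma enc_nonleaf (hw : enc_Val w n) (hn : 2 ≤ n) : nonleaf w n = (enc_C w n).card := by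
  unfold nonleaf
  rw [← Set.ncard_coe_finset]
  congr 1
  ext x
  simp only [Set.mem_ofPred_eq, mem_coe]
  constructor
  · rintro ⟨h1, h2, h3⟩; exact (enc_tdeg_ge hw hn h1 h2).1 h3
  · intro h
    have := enc_C_range hw h
    exact ⟨this.1, this.2, (enc_tdeg_ge hw hn this.1 this.2).2 h⟩

/-- a leaf is attached to a core vertex -/
lemma enc_par_mem (hw : enc_Val w n) (hn : 3 ≤ n) {x : ℕ} (h1 : 1 ≤ x) (hxn : x ≤ n)
    (hx : x ∉ enc_C w n) : enc_par w x ∈ enc_C w n := by
  have h2 := enc_val_lt hw (le_refl 3) hn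
  have hm : w 2 ∈ enc_C w n := enc_mem_C.2 ⟨3, ⟨le_refl _, hn⟩, rfl⟩
  unfold enc_par
  by_cases h : x = 1
  · rw [if_pos h]
    have : w 2 ≠ 1 := by rintro e; rw [e, ← h] at hm; exact hx hm
    simp only [Nat.add_one_sub_one] at h2
    have : w 2 = 2 := by
      have := h2.1; have := h2.2; norm_num at *; omega
    rwa [this] at hm
  · rw [if_neg h]
    by_cases h' : x = 2
    · rw [if_pos h']
      have : w 2 ≠ 2 := by rintro e; rw [e, ← h'] at hm; exact hx hm
      have : w 2 = 1 := by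
        have := h2.1; have := h2.2; norm_num at *; omega
      rwa [this] at hm
    · rw [if_neg h']
      exact enc_mem_C.2 ⟨x, ⟨by omega, hxn⟩, rfl⟩

end det

/-! ### the encoding -/

/-- one step of the encoding, with attachment vertex `x` -/
noncomputable def enc_step (w : ℕ → ℕ) (n x : ℕ) (p : St × (ℕ → W)) : St × (ℕ → W) :=
  if x ∈ enc_C w n then (p.1.arr (p.2 x), p.2)
  else if 1 ≤ x ∧ x ≤ n then
    (p.1.bir (p.2 (enc_par w x)), Function.update p.2 x (p.1.new (p.2 (enc_par w x))))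
  else p

/-- the encoding: `enc_E w i` is the state of `T_{i+3}` with the names of its core vertices -/
noncomputable def enc_E (w : ℕ → ℕ) : ℕ → St × (ℕ → W)
  | 0 => (start, fun _ => [])
  | i + 1 => enc_step w (i + 3) (w (i + 3)) (enc_E w i)

/-- the invariants -/
structure enc_Inv (w : ℕ → ℕ) (n : ℕ) (S : St) (c : ℕ → W) : Prop where
  inj : ∀ x ∈ enc_C w n, ∀ y ∈ enc_C w n, c x = c y → x = y
  V : S.V = (enc_C w n).image c
  L : ∀ x ∈ enc_C w n, S.L (c x) = ((enc_N w n x).filter (· ∉ enc_C w n)).card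
  s : ∀ x ∈ enc_C w n, S.s (c x) = ((enc_N w n x).filter (· ∈ enc_C w n)).card
  adj : ∀ x ∈ enc_C w n, ∀ y ∈ enc_C w n, (adj (c x) (c y) ↔ y ∈ enc_N w n x)
  n : S.n = n
  low : ∃ y ∈ S.V, S.s y ≤ 1

section step
variable {w : ℕ → ℕ} {n : ℕ}

lemma enc_C_succ (hn : 2 ≤ n) : enc_C w (n + 1) = insert (w n) (enc_C w n) := by
  ext x
  rw [mem_insert, enc_mem_C, enc_mem_C]
  constructor
  · rintro ⟨y, ⟨h3, hy⟩, rfl⟩
    by_cases h : y = n + 1
    · left; subst h; rfl
    · right; exact ⟨y, ⟨h3, by omega⟩, rfl⟩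
  · rintro (rfl | ⟨y, ⟨h3, hy⟩, rfl⟩)
    · exact ⟨n + 1, ⟨by omega, le_refl _⟩, rfl⟩
    · exact ⟨y, ⟨h3, by omega⟩, rfl⟩

lemma enc_N_succ_self (hn : 2 ≤ n) : enc_N w (n + 1) (w n) = insert (n + 1) (enc_N w n (w n)) := by
  ext y
  rw [mem_insert, enc_mem_N, enc_mem_N]
  constructor
  · rintro (h | ⟨⟨h3, hy⟩, h⟩)
    · exact Or.inr (Or.inl h)
    · by_cases e : y = n + 1
      · exact Or.inl e
      · exact Or.inr (Or.inr ⟨⟨h3, by omega⟩, h⟩)
  · rintro (rfl | h | ⟨⟨h3, hy⟩, h⟩)
    · exact Or.inr ⟨⟨by omega, le_refl _⟩, rfl⟩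
    · exact Or.inl h
    · exact Or.inr ⟨⟨h3, by omega⟩, h⟩

lemma enc_N_succ_ne {z : ℕ} (hz : z ≠ w n) : enc_N w (n + 1) z = enc_N w n z := by
  ext y
  rw [enc_mem_N, enc_mem_N]
  constructor
  · rintro (h | ⟨⟨h3, hy⟩, h⟩)
    · exact Or.inl h
    · by_cases e : y = n + 1
      · subst e; exact absurd h.symm hz
      · exact Or.inr ⟨⟨h3, by omega⟩, h⟩
  · rintro (h | ⟨⟨h3, hy⟩, h⟩)
    · exact Or.inl h
    · exact Or.inr ⟨⟨h3, by omega⟩, h⟩

lemma enc_Val_mono {m : ℕ} (h : enc_Val w n) (hm : m ≤ n) : enc_Val w m :=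
  fun k hk hkm => h k hk (by omega)

lemma enc_Inv_base (hw : enc_Val w 3) : enc_Inv w 3 start (fun _ => []) := by
  have hC : enc_C w 3 = {w 2} := by
    ext x
    rw [enc_mem_C, mem_singleton]
    constructor
    · rintro ⟨y, ⟨h3, hy⟩, rfl⟩
      have : y = 3 := by omega
      subst this; rfl
    · rintro rfl; exact ⟨3, ⟨le_refl _, le_refl _⟩, rfl⟩
  have h2 := hw 2 (le_refl _) (by omega)
  have hN : enc_N w 3 (w 2) = {enc_par w (w 2), 3} := by
    unfold enc_N
    congr 1
    ext y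
    rw [enc_mem_ch, mem_singleton]
    constructor
    · rintro ⟨⟨h3, hy⟩, _⟩; omega
    · rintro rfl; exact ⟨⟨le_refl _, le_refl _⟩, rfl⟩
  have hp := enc_par_range hw (by omega : 2 ≤ 3) h2.1 (by omega)
  have hp3 : enc_par w (w 2) ≠ 3 := by
    unfold enc_par
    split_ifs <;> omega
  refine ⟨?_, ?_, ?_, ?_, ?_, ?_, ?_⟩
  · intro x hx y hy _
    rw [hC, mem_singleton] at hx hy
    rw [hx, hy]
  · rw [hC]; simp [start]
  · intro x hx
    rw [hC, mem_singleton] at hx
    subst hx
    rw [hN, hC, filter_insert, filter_singleton, if_pos (by simpa using hp.2.2),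
      if_pos (by rw [mem_singleton]; omega)]
    rw [card_pair hp3]
    simp [start]
  · intro x hx
    rw [hC, mem_singleton] at hx
    subst hx
    rw [hN, hC, filter_insert, filter_singleton, if_neg (by simpa using hp.2.2),
      if_neg (by rw [mem_singleton]; omega)]
    simp [start]
  · intro x hx y hy
    rw [hC, mem_singleton] at hx hy
    subst hx; subst hy
    constructor
    · intro h; exact absurd h (not_adj_self _)
    · intro h
      rw [hN, mem_insert, mem_singleton] at h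
      rcases h with h | h
      · exact absurd h.symm hp.2.2
      · omega
  · simp [start, St.n]
  · exact ⟨[], by simp [start], by simp [start]⟩

lemma enc_Inv_step (hn : 3 ≤ n) (hw : enc_Val w (n + 1)) {S : St} {c : ℕ → W}
    (h : enc_Inv w n S c) :
    enc_Inv w (n + 1) (enc_step w n (w n) (S, c)).1 (enc_step w n (w n) (S, c)).2 := by
  have hw' : enc_Val w n := enc_Val_mono hw (Nat.le_succ n)
  have hx := hw n (by omega) (Nat.lt_succ_self n)
  obtain ⟨hx1, hxn⟩ := hx
  have hCn : n + 1 ∉ enc_C w n := fun hh => by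
    have := enc_C_range hw' hh; omega
  by_cases hxC : w n ∈ enc_C w n
  · -- arrival
    have hst : enc_step w n (w n) (S, c) = (S.arr (c (w n)), c) := by
      unfold enc_step; rw [if_pos hxC]
    rw [hst]
    have hC : enc_C w (n + 1) = enc_C w n := by
      rw [enc_C_succ (by omega), insert_eq_of_mem hxC]
    have hcV : c (w n) ∈ S.V := by rw [h.V]; exact mem_image_of_mem _ hxC
    have hNn : n + 1 ∉ enc_N w n (w n) := fun hh => by
      have := enc_N_range hw' (by omega) hx1 hxn hh; omega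
    refine ⟨?_, ?_, ?_, ?_, ?_, ?_, ?_⟩
    · rw [hC]; exact h.inj
    · rw [hC, St.arr_V]; exact h.V
    · intro z hz
      rw [hC] at hz ⊢
      by_cases e : z = w n
      · subst e
        show (S.arr (c (w n))).L (c (w n)) = _
        rw [St.arr_L_self hcV, h.L _ hxC, enc_N_succ_self (by omega), filter_insert,
          if_pos hCn, card_insert_of_notMem (fun hh => hNn (mem_filter.1 hh).1)]
      · have : c z ≠ c (w n) := fun hh => e (h.inj z hz _ hxC hh)
        show (S.arr (c (w n))).L (c z) = _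
        rw [St.arr_L_ne this, h.L _ hz, enc_N_succ_ne e]
    · intro z hz
      rw [hC] at hz ⊢
      show (S.arr (c (w n))).s (c z) = _
      rw [St.arr_s, h.s _ hz]
      by_cases e : z = w n
      · subst e
        rw [enc_N_succ_self (by omega), filter_insert, if_neg hCn]
      · rw [enc_N_succ_ne e]
    · intro z hz y hy
      rw [hC] at hz hy
      rw [h.adj z hz y hy]
      by_cases e : z = w n
      · subst e
        rw [enc_N_succ_self (by omega), mem_insert]
        constructor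
        · exact Or.inr
        · rintro (rfl | h')
          · exact absurd hy hCn
          · exact h'
      · rw [enc_N_succ_ne e]
    · show (S.arr (c (w n))).n = _
      rw [St.arr_n hcV, h.n]
    · obtain ⟨y, hy, hs⟩ := h.low
      exact ⟨y, by simpa using hy, by simpa using hs⟩
  · -- birth
    set x := w n with hxdef
    set p := enc_par w x with hpdef
    have hst : enc_step w n x (S, c) = (S.bir (c p), Function.update c x (S.new (c p))) := by
      unfold enc_step; rw [if_neg hxC, if_pos ⟨hx1, hxn⟩]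
    rw [hst]
    have hC : enc_C w (n + 1) = insert x (enc_C w n) := by
      rw [enc_C_succ (by omega)]
    have hpC : p ∈ enc_C w n := enc_par_mem hw' hn hx1 hxn hxC
    have hpr := enc_C_range hw' hpC
    have hNx : enc_N w n x = {p} := enc_N_of_not_mem hxC
    have hxNp : x ∈ enc_N w n p :=
      enc_N_symm hw' (by omega) hx1 hxn (by rw [hNx]; exact mem_singleton_self _)
    have hpx : p ≠ x := fun e => hxC (e ▸ hpC)
    have hcV : c p ∈ S.V := by rw [h.V]; exact mem_image_of_mem _ hpC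
    have hmemV : ∀ z ∈ enc_C w n, c z ∈ S.V := fun z hz => by
      rw [h.V]; exact mem_image_of_mem _ hz
    have hL : 0 < S.L (c p) := by
      rw [h.L p hpC, card_pos]
      exact ⟨x, mem_filter.2 ⟨hxNp, hxC⟩⟩
    have hnew : S.new (c p) ∉ S.V := S.new_not_mem hcV
    have hup : ∀ z ∈ enc_C w n, Function.update c x (S.new (c p)) z = c z := fun z hz => by
      rw [Function.update_of_ne]; rintro rfl; exact hxC hz
    have hux : Function.update c x (S.new (c p)) x = S.new (c p) := Function.update_self _ _ _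
    have hcne : ∀ z ∈ enc_C w n, c z ≠ S.new (c p) := fun z hz e => hnew (e ▸ hmemV z hz)
    have hother : ∀ z ∈ enc_C w n, z ≠ p → x ∉ enc_N w n z := by
      intro z hz hzp hh
      have hzr := enc_C_range hw' hz
      have := enc_N_symm hw' (by omega) hzr.1 hzr.2 hh
      rw [hNx, mem_singleton] at this
      exact hzp this
    have hNz : ∀ z ∈ enc_C w n, enc_N w (n + 1) z = enc_N w n z := fun z hz =>
      enc_N_succ_ne (by rintro rfl; exact hxC hz)
    have hNx' : enc_N w (n + 1) x = {n + 1, p} := by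
      rw [hxdef, enc_N_succ_self (by omega), ← hxdef, hNx]
    have hn1x : n + 1 ≠ x := by omega
    have hn1C' : n + 1 ∉ insert x (enc_C w n) := by
      rw [mem_insert, not_or]; exact ⟨hn1x, hCn⟩
    refine ⟨?_, ?_, ?_, ?_, ?_, ?_, ?_⟩
    · rw [hC]
      intro y hy z hz hyz
      rw [mem_insert] at hy hz
      rcases hy with rfl | hy <;> rcases hz with rfl | hz
      · rfl
      · simp only [hux, hup z hz] at hyz
        exact absurd hyz.symm (hcne z hz)
      · simp only [hux, hup y hy] at hyz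
        exact absurd hyz (hcne y hy)
      · simp only [hup y hy, hup z hz] at hyz
        exact h.inj y hy z hz hyz
    · show (S.bir (c p)).V = image (Function.update c x (S.new (c p))) _
      rw [hC, image_insert, hux, St.bir_V hcV hL, h.V]
      congr 1
      apply image_congr
      intro z hz
      exact (hup z hz).symm
    · intro z hz
      rw [hC] at hz ⊢
      rw [mem_insert] at hz
      rcases hz with rfl | hz
      · simp only [hux]
        rw [St.bir_L_new hcV hL, hNx', filter_insert, if_pos hn1C', filter_singleton,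
          if_neg (by rw [not_not]; exact mem_insert_of_mem hpC)]
        rfl
      · simp only [hup z hz]
        rw [hNz z hz]
        by_cases e : z = p
        · rw [e]
          rw [St.bir_L_self hcV hL, h.L _ hpC]
          have : (enc_N w n p).filter (· ∉ insert x (enc_C w n))
              = ((enc_N w n p).filter (· ∉ enc_C w n)).erase x := by
            ext y; simp only [mem_filter, mem_erase, mem_insert, not_or]; tauto
          rw [this, card_erase_of_mem (mem_filter.2 ⟨hxNp, hxC⟩)]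
        · have hne : c z ≠ c p := fun hh => e (h.inj z hz _ hpC hh)
          rw [St.bir_L_ne hcV hL hne (hcne z hz), h.L _ hz]
          congr 1
          ext y
          simp only [mem_filter, mem_insert, not_or]
          constructor
          · rintro ⟨h1, h2⟩
            exact ⟨h1, by rintro rfl; exact hother z hz e h1, h2⟩
          · rintro ⟨h1, _, h2⟩; exact ⟨h1, h2⟩
    · intro z hz
      rw [hC] at hz ⊢
      rw [mem_insert] at hz
      rcases hz with rfl | hz
      · simp only [hux]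
        rw [St.bir_s_new hcV hL, hNx', filter_insert, if_neg hn1C', filter_singleton,
          if_pos (mem_insert_of_mem hpC)]
        rfl
      · simp only [hup z hz]
        rw [hNz z hz]
        by_cases e : z = p
        · rw [e]
          rw [St.bir_s_self hcV hL, h.s _ hpC]
          have : (enc_N w n p).filter (· ∈ insert x (enc_C w n))
              = insert x ((enc_N w n p).filter (· ∈ enc_C w n)) := by
            ext y; simp only [mem_filter, mem_insert]
            constructor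
            · rintro ⟨h1, h2 | h2⟩
              · exact Or.inl h2
              · exact Or.inr ⟨h1, h2⟩
            · rintro (rfl | ⟨h1, h2⟩)
              · exact ⟨hxNp, Or.inl rfl⟩
              · exact ⟨h1, Or.inr h2⟩
          rw [this, card_insert_of_notMem (fun hh => hxC (mem_filter.1 hh).2)]
        · have hne : c z ≠ c p := fun hh => e (h.inj z hz _ hpC hh)
          rw [St.bir_s_ne hcV hL hne (hcne z hz), h.s _ hz]
          congr 1
          ext y
          simp only [mem_filter, mem_insert]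
          constructor
          · rintro ⟨h1, h2⟩
            exact ⟨h1, Or.inr h2⟩
          · rintro ⟨h1, h2 | h2⟩
            · subst h2; exact absurd h1 (hother z hz e)
            · exact ⟨h1, h2⟩
    · intro z hz y hy
      rw [hC, mem_insert] at hz hy
      rcases hz with rfl | hz
      · rcases hy with rfl | hy
        · simp only [hux]
          constructor
          · intro hh; exact absurd hh (not_adj_self _)
          · intro hh
            rw [hNx', mem_insert, mem_singleton] at hh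
            rcases hh with hh | hh
            · exact absurd hh.symm hn1x
            · exact absurd hh.symm hpx
        · simp only [hux, hup y hy]
          rw [hNx', mem_insert, mem_singleton]
          constructor
          · intro hh
            right
            by_contra hyp
            exact S.not_adj_new hcV (hmemV y hy) (fun e => hyp (h.inj y hy p hpC e)) (adj_symm hh)
          · rintro (rfl | rfl)
            · exact absurd hy hCn
            · exact adj_symm (adj_cons _ _)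
      · rw [hNz z hz]
        rcases hy with rfl | hy
        · simp only [hux, hup z hz]
          constructor
          · intro hh
            have : z = p := by
              by_contra hyp
              exact S.not_adj_new hcV (hmemV z hz) (fun e => hyp (h.inj z hz p hpC e)) hh
            rw [this]; exact hxNp
          · intro hh
            have : z = p := by
              by_contra hyp
              exact hother z hz hyp hh
            rw [this]; exact adj_cons _ _
        · simp only [hup z hz, hup y hy]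
          exact h.adj z hz y hy
    · show (S.bir (c p)).n = _
      rw [St.bir_n hcV hL, h.n]
    · exact ⟨S.new (c p), St.new_mem_bir hcV hL, by
        show (S.bir (c p)).s (S.new (c p)) ≤ 1
        rw [St.bir_s_new hcV hL]⟩

lemma enc_Inv_E (i : ℕ) (hw : enc_Val w (i + 3)) :
    enc_Inv w (i + 3) (enc_E w i).1 (enc_E w i).2 := by
  induction i with
  | zero => exact enc_Inv_base hw
  | succ i ih =>
    have := enc_Inv_step (n := i + 3) (by omega) hw (ih (enc_Val_mono hw (by omega)))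
    exact this

/-- the encoding depends only on the past -/
lemma enc_C_congr {w' : ℕ → ℕ} (h : ∀ k, 2 ≤ k → k < n → w k = w' k) :
    enc_C w n = enc_C w' n := by
  ext x
  rw [enc_mem_C, enc_mem_C]
  constructor
  · rintro ⟨y, ⟨h3, hy⟩, rfl⟩
    exact ⟨y, ⟨h3, hy⟩, (h (y - 1) (by omega) (by omega)).symm⟩
  · rintro ⟨y, ⟨h3, hy⟩, rfl⟩
    exact ⟨y, ⟨h3, hy⟩, h (y - 1) (by omega) (by omega)⟩

lemma enc_step_congr {w' : ℕ → ℕ} (h : ∀ k, 2 ≤ k → k < n → w k = w' k) (x : ℕ)
    (p : St × (ℕ → W)) : enc_step w n x p = enc_step w' n x p := by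
  unfold enc_step
  rw [enc_C_congr h]
  by_cases h1 : 1 ≤ x ∧ x ≤ n
  · have : enc_par w x = enc_par w' x := by
      unfold enc_par
      split_ifs with h2 h3
      · rfl
      · rfl
      · exact h (x - 1) (by omega) (by omega)
    rw [this]
  · rw [if_neg h1, if_neg h1]

lemma enc_E_congr {w' : ℕ → ℕ} (i : ℕ) (h : ∀ k, 2 ≤ k → k < i + 3 → w k = w' k) :
    enc_E w i = enc_E w' i := by
  induction i with
  | zero => rfl
  | succ i ih =>
    show enc_step w (i + 3) (w (i + 3)) (enc_E w i) = enc_step w' (i + 3) (w' (i + 3)) (enc_E w' i)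
    rw [ih (fun k h1 h2 => h k h1 (by omega)), h (i + 3) (by omega) (by omega),
      enc_step_congr (fun k h1 h2 => h k h1 (by omega))]

/-- consequences of the invariants -/
lemma enc_full {S : St} {c : ℕ → W} (h : enc_Inv w n S c) : Full S := by
  intro v hv
  rw [h.V, mem_image] at hv
  obtain ⟨x, hx, rfl⟩ := hv
  have : S.deg (c x) = S.s (c x) := by
    rw [h.s x hx]
    unfold St.deg St.nb
    rw [h.V]
    have : ((enc_C w n).image c).filter (FT.adj (c x))
        = ((enc_N w n x).filter (· ∈ enc_C w n)).image c := by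
      ext u
      simp only [mem_filter, mem_image]
      constructor
      · rintro ⟨⟨y, hy, rfl⟩, ha⟩
        exact ⟨y, ⟨(h.adj x hx y hy).1 ha, hy⟩, rfl⟩
      · rintro ⟨y, ⟨hyN, hy⟩, rfl⟩
        exact ⟨⟨y, hy, rfl⟩, (h.adj x hx y hy).2 hyN⟩
    rw [this, card_image_of_injOn]
    intro y hy z hz hyz
    exact h.inj y (mem_filter.1 hy).2 z (mem_filter.1 hz).2 hyz
  unfold St.h
  omega

lemma enc_card_V {S : St} {c : ℕ → W} (h : enc_Inv w n S c) : S.V.card = (enc_C w n).card := by
  rw [h.V, card_image_of_injOn]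
  intro y hy z hz hyz
  exact h.inj y hy z hz hyz

lemma enc_nb {S : St} {c : ℕ → W} (h : enc_Inv w n S c) {x : ℕ} (hx : x ∈ enc_C w n) :
    S.nb (c x) = ((enc_N w n x).filter (· ∈ enc_C w n)).image c := by
  unfold St.nb
  rw [h.V]
  ext u
  simp only [mem_filter, mem_image]
  constructor
  · rintro ⟨⟨y, hy, rfl⟩, ha⟩
    exact ⟨y, ⟨(h.adj x hx y hy).1 ha, hy⟩, rfl⟩
  · rintro ⟨y, ⟨hyN, hy⟩, rfl⟩
    exact ⟨⟨y, hy, rfl⟩, (h.adj x hx y hy).2 hyN⟩

lemma enc_d (hn : 3 ≤ n) (hw : enc_Val w n) {S : St} {c : ℕ → W} (h : enc_Inv w n S c) {x : ℕ}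
    (hx : x ∈ enc_C w n) : (tdeg w n x : ℝ) = S.d (c x) := by
  have hr := enc_C_range hw hx
  rw [enc_tdeg hw (by omega) hr.1 hr.2]
  unfold St.d
  rw [h.L x hx, h.s x hx,
    ← card_filter_add_card_filter_not (s := enc_N w n x) (fun y => y ∈ enc_C w n)]
  push_cast
  ring

lemma enc_rate_core (hn : 3 ≤ n) (hw : enc_Val w n) {S : St} {c : ℕ → W} (h : enc_Inv w n S c)
    {x : ℕ} (hx : x ∈ enc_C w n) :
    ∑ v ∈ enc_N w n x, 1 / ((n : ℝ) * tdeg w n v) = ((S.L (c x) : ℝ) + S.κ (c x)) / n := by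
  have hr := enc_C_range hw hx
  have hn0 : (n : ℝ) ≠ 0 := by positivity
  rw [← sum_filter_add_sum_filter_not (enc_N w n x) (fun y => y ∈ enc_C w n)]
  have h1 : ∑ v ∈ (enc_N w n x).filter (· ∉ enc_C w n), 1 / ((n : ℝ) * tdeg w n v)
      = (S.L (c x) : ℝ) / n := by
    rw [h.L x hx]
    have : ∀ v ∈ (enc_N w n x).filter (· ∉ enc_C w n), 1 / ((n : ℝ) * tdeg w n v) = 1 / n := by
      intro v hv
      rw [mem_filter] at hv
      have hvr := enc_N_range hw (by omega) hr.1 hr.2 hv.1
      rw [enc_tdeg hw (by omega) hvr.1 hvr.2.1, enc_N_of_not_mem hv.2]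
      simp
    rw [sum_congr rfl this, sum_const, nsmul_eq_mul]
    ring
  have h2 : ∑ v ∈ (enc_N w n x).filter (· ∈ enc_C w n), 1 / ((n : ℝ) * tdeg w n v)
      = S.κ (c x) / n := by
    unfold St.κ
    rw [enc_nb h hx, sum_image, sum_div]
    · apply sum_congr rfl
      intro v hv
      rw [mem_filter] at hv
      rw [enc_d hn hw h hv.2]
      field_simp
    · intro y hy z hz hyz
      exact h.inj y (mem_filter.1 hy).2 z (mem_filter.1 hz).2 hyz
  rw [h1, h2]
  ring

/-- the one step transition -/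
lemma enc_mean (hn : 3 ≤ n) (hw : enc_Val w n) {S : St} {c : ℕ → W} (h : enc_Inv w n S c)
    (Φ : St → ℝ) :
    ∑ x ∈ Icc 1 n, (∑ v ∈ enc_N w n x, 1 / ((n : ℝ) * tdeg w n v))
      * Φ (enc_step w n x (S, c)).1 = Aop inhU n (fun y => Φ y.1) (S, ()) := by
  have hn0 : (n : ℝ) ≠ 0 := by positivity
  have hinj : Set.InjOn c (enc_C w n) := fun y hy z hz hyz => h.inj y hy z hz hyz
  have hsub : enc_C w n ⊆ Icc 1 n := fun x hx => by
    rw [mem_Icc]; exact enc_C_range hw hx
  rw [Aop_eq]
  simp only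
  rw [S.total_rate_eq (enc_full h), h.n, div_self hn0, sub_self, zero_mul, zero_add, h.V,
    sum_image hinj, sum_add_distrib, ← sum_sdiff hsub, add_comm]
  congr 1
  · apply sum_congr rfl
    intro x hx
    rw [enc_rate_core hn hw h hx]
    unfold enc_step
    rw [if_pos hx]
  · have key : ∀ x ∈ Icc 1 n \ enc_C w n,
        (∑ v ∈ enc_N w n x, 1 / ((n : ℝ) * tdeg w n v)) * Φ (enc_step w n x (S, c)).1
        = 1 / ((n : ℝ) * S.d (c (enc_par w x))) * Φ (S.bir (c (enc_par w x))) := by
      intro x hx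
      rw [Finset.mem_sdiff, mem_Icc] at hx
      have hp := enc_par_mem hw hn hx.1.1 hx.1.2 hx.2
      rw [enc_N_of_not_mem hx.2, sum_singleton, enc_d hn hw h hp]
      unfold enc_step
      rw [if_neg hx.2, if_pos hx.1]
    rw [sum_congr rfl key]
    have hmaps : ∀ x ∈ Icc 1 n \ enc_C w n, enc_par w x ∈ enc_C w n := by
      intro x hx
      rw [Finset.mem_sdiff, mem_Icc] at hx
      exact enc_par_mem hw hn hx.1.1 hx.1.2 hx.2
    rw [← sum_fiberwise_of_maps_to hmaps]
    apply sum_congr rfl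
    intro p hp
    have hpr := enc_C_range hw hp
    have hset : (Icc 1 n \ enc_C w n).filter (fun x => enc_par w x = p)
        = (enc_N w n p).filter (· ∉ enc_C w n) := by
      ext x
      simp only [mem_filter, Finset.mem_sdiff, mem_Icc]
      constructor
      · rintro ⟨⟨hx, hxC⟩, rfl⟩
        refine ⟨enc_N_symm hw (by omega) hx.1 hx.2 ?_, hxC⟩
        rw [enc_N_of_not_mem hxC]; exact mem_singleton_self _
      · rintro ⟨hxN, hxC⟩
        have hxr := enc_N_range hw (by omega) hpr.1 hpr.2 hxN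
        refine ⟨⟨⟨hxr.1, hxr.2.1⟩, hxC⟩, ?_⟩
        have := enc_N_symm hw (by omega) hpr.1 hpr.2 hxN
        rw [enc_N_of_not_mem hxC, mem_singleton] at this
        exact this.symm
    have : ∀ x ∈ (Icc 1 n \ enc_C w n).filter (fun x => enc_par w x = p),
        1 / ((n : ℝ) * S.d (c (enc_par w x))) * Φ (S.bir (c (enc_par w x)))
        = 1 / ((n : ℝ) * S.d (c p)) * Φ (S.bir (c p)) := by
      intro x hx
      rw [(mem_filter.1 hx).2]
    rw [sum_congr rfl this, sum_const, hset, ← h.L p hp, nsmul_eq_mul]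
    have hd : S.d (c p) ≠ 0 := (St.d_pos (by rw [h.V]; exact mem_image_of_mem _ hp)).ne'
    field_simp

end step

/-! ### probabilistic part -/

section prob

lemma enc_tree_congr {w w' : ℕ → ℕ} {n : ℕ} (h : ∀ k, 2 ≤ k → k < n → w k = w' k) :
    tree w n = tree w' n := by
  unfold tree
  congr 1
  funext a b
  apply propext
  constructor
  · rintro (h' | ⟨k, h1, h2, h3, h4⟩)
    · exact Or.inl h'
    · exact Or.inr ⟨k, h1, h2, h3, by rw [h4, h k h1 h2]⟩
  · rintro (h' | ⟨k, h1, h2, h3, h4⟩)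
    · exact Or.inl h'
    · exact Or.inr ⟨k, h1, h2, h3, by rw [h4, h k h1 h2]⟩

variable {Ω : Type*} [m0 : MeasurableSpace Ω]

/-- the history up to time `n` -/
def enc_hist (V W : ℕ → Ω → ℕ) (n : ℕ) (ω : Ω) : Fin n → ℕ × ℕ :=
  fun k => if 2 ≤ (k : ℕ) then (V k ω, W k ω) else (0, 0)

/-- the second coordinates of a history -/
def enc_ext2 {n : ℕ} (η : Fin n → ℕ × ℕ) (k : ℕ) : ℕ := if h : k < n then (η ⟨k, h⟩).2 else 0

/-- the first coordinates of a history -/
def enc_ext1 {n : ℕ} (η : Fin n → ℕ × ℕ) (k : ℕ) : ℕ := if h : k < n then (η ⟨k, h⟩).1 else 0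

omit m0 in
lemma enc_ext2_hist (V W : ℕ → Ω → ℕ) (n : ℕ) (ω : Ω) (k : ℕ) (h2 : 2 ≤ k) (hk : k < n) :
    enc_ext2 (enc_hist V W n ω) k = W k ω := by
  unfold enc_ext2 enc_hist
  rw [dif_pos hk]
  simp [h2]

omit m0 in
lemma enc_ext1_hist (V W : ℕ → Ω → ℕ) (n : ℕ) (ω : Ω) (k : ℕ) (h2 : 2 ≤ k) (hk : k < n) :
    enc_ext1 (enc_hist V W n ω) k = V k ω := by
  unfold enc_ext1 enc_hist
  rw [dif_pos hk]
  simp [h2]

omit m0 in
lemma enc_hist_eq (V W : ℕ → Ω → ℕ) (n : ℕ) (ω ω' : Ω) :
    enc_hist V W n ω = enc_hist V W n ω' ↔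
      ∀ k, 2 ≤ k → k < n → V k ω = V k ω' ∧ W k ω = W k ω' := by
  constructor
  · intro h k h2 hk
    constructor
    · rw [← enc_ext1_hist V W n ω k h2 hk, h, enc_ext1_hist V W n ω' k h2 hk]
    · rw [← enc_ext2_hist V W n ω k h2 hk, h, enc_ext2_hist V W n ω' k h2 hk]
  · intro h
    funext k
    unfold enc_hist
    by_cases h2 : 2 ≤ (k : ℕ)
    · rw [if_pos h2, if_pos h2, (h k h2 k.2).1, (h k h2 k.2).2]
    · rw [if_neg h2, if_neg h2]

lemma enc_hist_meas {V W : ℕ → Ω → ℕ} (hV : ∀ n, Measurable (V n)) (hW : ∀ n, Measurable (W n))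
    (n : ℕ) : Measurable (enc_hist V W n) := by
  apply measurable_pi_lambda
  intro k
  unfold enc_hist
  by_cases h2 : 2 ≤ (k : ℕ)
  · simp only [if_pos h2]
    exact (hV k).prodMk (hW k)
  · simp only [if_neg h2]
    exact measurable_const

/-- the filtration of the histories -/
def enc_F {V W : ℕ → Ω → ℕ} (hV : ∀ n, Measurable (V n)) (hW : ∀ n, Measurable (W n)) :
    Filtration ℕ m0 where
  seq n := MeasurableSpace.comap (enc_hist V W n) inferInstance
  mono' := by
    intro n m hnm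
    let r : (Fin m → ℕ × ℕ) → (Fin n → ℕ × ℕ) := fun η k => η (Fin.castLE hnm k)
    have hr : enc_hist V W n = r ∘ enc_hist V W m := by
      funext ω k
      rfl
    show MeasurableSpace.comap (enc_hist V W n) _ ≤ MeasurableSpace.comap (enc_hist V W m) _
    rw [hr, ← MeasurableSpace.comap_comp]
    apply MeasurableSpace.comap_mono
    intro s _
    obtain ⟨t, ht, rfl⟩ := ‹MeasurableSet[MeasurableSpace.comap r _] s›
    exact MeasurableSet.of_discrete
  le' := fun n => (enc_hist_meas hV hW n).comap_le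

/-- conditional expectation given a discrete random variable -/
lemma enc_condExp {κ : Type*} [Countable κ] [MeasurableSpace κ] [MeasurableSingletonClass κ]
    (P : Measure Ω) [IsProbabilityMeasure P] {H : Ω → κ} (hH : Measurable H) {f : Ω → ℝ}
    (hf : Integrable f P) {G : κ → ℝ} (hG : Integrable (fun ω => G (H ω)) P)
    (h : ∀ η, ∫ ω in H ⁻¹' {η}, f ω ∂P = P.real (H ⁻¹' {η}) * G η) :
    P[f | MeasurableSpace.comap H inferInstance] =ᵐ[P] fun ω => G (H ω) := by
  symm
  apply ae_eq_condExp_of_forall_setIntegral_eq hH.comap_le hf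
  · intro s _ _; exact hG.integrableOn
  · rintro s ⟨T, hT, rfl⟩ _
    have hU : H ⁻¹' T = ⋃ η : T, H ⁻¹' {(η : κ)} := by
      ext ω; simp
    have hm : ∀ η : T, MeasurableSet (H ⁻¹' {(η : κ)}) := fun η => hH (measurableSet_singleton _)
    have hd : Pairwise (Function.onFun Disjoint fun η : T => H ⁻¹' {(η : κ)}) := by
      intro η η' hne
      rw [Function.onFun, Set.disjoint_left]
      intro ω h1 h2
      simp only [Set.mem_preimage, Set.mem_singleton_iff] at h1 h2
      exact hne (Subtype.ext (h1.symm.trans h2))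
    rw [hU, integral_iUnion hm hd hG.integrableOn, integral_iUnion hm hd hf.integrableOn]
    congr 1
    funext η
    rw [h, setIntegral_congr_fun (g := fun _ => G η) (hm η)
      (fun ω hω => by simp only [Set.mem_preimage, Set.mem_singleton_iff] at hω; simp [hω])]
    rw [setIntegral_const]
    rfl
  · have : Measurable[MeasurableSpace.comap H inferInstance] (fun ω => G (H ω)) :=
      (Measurable.of_discrete (f := G)).comp (comap_measurable H)
    exact this.stronglyMeasurable.aestronglyMeasurable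

/-- the choices are almost surely admissible -/
lemma enc_adm (P : Measure Ω) (V W : ℕ → Ω → ℕ) (h : IsFriendTree P V W) (n : ℕ) (hn : 2 ≤ n) :
    ∀ᵐ ω ∂P, 1 ≤ V n ω ∧ V n ω ≤ n ∧ (tree (fun k => W k ω) n).Adj (V n ω) (W n ω) := by
  have key : ∀ (η : Fin n → ℕ × ℕ) (v w : ℕ),
      ∀ᵐ ω ∂P, ((∀ k, 2 ≤ k → k < n → V k ω = enc_ext1 η k ∧ W k ω = enc_ext2 η k) ∧
        V n ω = v ∧ W n ω = w) → 1 ≤ v ∧ v ≤ n ∧ (tree (enc_ext2 η) n).Adj v w := by
    intro η v w
    by_cases hb : 1 ≤ v ∧ v ≤ n ∧ (tree (enc_ext2 η) n).Adj v w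
    · exact Eventually.of_forall fun _ _ => hb
    · have hl := h.law n hn (enc_ext1 η) (enc_ext2 η) v w
      rw [if_neg hb, mul_zero] at hl
      rw [ae_iff]
      refine measure_mono_null ?_ hl
      intro ω hω
      simp only [Set.mem_ofPred_eq, Classical.not_imp] at hω ⊢
      exact hω.1
  simp_rw [← ae_all_iff] at key
  filter_upwards [key] with ω hω
  have h1 := hω (enc_hist V W n ω) (V n ω) (W n ω)
    ⟨fun k h2 hk => ⟨(enc_ext1_hist V W n ω k h2 hk).symm, (enc_ext2_hist V W n ω k h2 hk).symm⟩,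
      rfl, rfl⟩
  rw [enc_tree_congr (w' := fun k => W k ω) (fun k h2 hk => enc_ext2_hist V W n ω k h2 hk)] at h1
  exact h1

lemma enc_good (P : Measure Ω) (V W : ℕ → Ω → ℕ) (h : IsFriendTree P V W) :
    ∀ᵐ ω ∂P, ∀ n, enc_Val (fun k => W k ω) n ∧ (2 ≤ n → (1 ≤ V n ω ∧ V n ω ≤ n) ∧
      W n ω ∈ enc_N (fun k => W k ω) n (V n ω)) := by
  have key : ∀ᵐ ω ∂P, ∀ n, 2 ≤ n → 1 ≤ V n ω ∧ V n ω ≤ n ∧
      (tree (fun k => W k ω) n).Adj (V n ω) (W n ω) := by
    rw [ae_all_iff]
    intro n
    by_cases hn : 2 ≤ n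
    · filter_upwards [enc_adm P V W h n hn] with ω hω _
      exact hω
    · exact Eventually.of_forall fun _ hh => absurd hh hn
  filter_upwards [key] with ω hω
  have hval : ∀ n, enc_Val (fun k => W k ω) n := by
    intro n
    induction n with
    | zero => intro k _ hk; omega
    | succ n ih =>
      intro k h2 hk
      by_cases hkn : k < n
      · exact ih k h2 hkn
      · have hkn' : k = n := by omega
        subst hkn'
        obtain ⟨h1, h3, h4⟩ := hω k h2
        rw [enc_tree_adj ih h2 h1 h3] at h4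
        have := enc_N_range ih h2 h1 h3 h4
        exact ⟨this.1, this.2.1⟩
  intro n
  refine ⟨hval n, fun hn => ?_⟩
  obtain ⟨h1, h3, h4⟩ := hω n hn
  rw [enc_tree_adj (hval n) hn h1 h3] at h4
  exact ⟨⟨h1, h3⟩, h4⟩

/-- the state process -/
noncomputable def enc_S (W : ℕ → Ω → ℕ) (n : ℕ) (ω : Ω) : St := (enc_E (fun k => W k ω) (n - 3)).1

/-- the state as a function of the history -/
noncomputable def enc_G (n : ℕ) (η : Fin n → ℕ × ℕ) : St := (enc_E (enc_ext2 η) (n - 3)).1

omit m0 in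
lemma enc_S_eq (V W : ℕ → Ω → ℕ) (n : ℕ) (hn : 3 ≤ n) (ω : Ω) :
    enc_S W n ω = enc_G n (enc_hist V W n ω) := by
  unfold enc_S enc_G
  rw [enc_E_congr (w' := enc_ext2 (enc_hist V W n ω))]
  intro k h2 hk
  exact (enc_ext2_hist V W n ω k h2 (by omega)).symm

lemma enc_bdd (P : Measure Ω) (V W : ℕ → Ω → ℕ) (h : IsFriendTree P V W) (n : ℕ) (hn : 3 ≤ n)
    (Φ : St → ℝ) : ∃ c : ℝ, ∀ᵐ ω ∂P, |Φ (enc_S W n ω)| ≤ c := by
  classical
  let K : Finset (Fin n → ℕ × ℕ) := Fintype.piFinset (fun _ => range (n + 1) ×ˢ range (n + 1))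
  refine ⟨∑ η ∈ K, |Φ (enc_G n η)|, ?_⟩
  filter_upwards [enc_good P V W h] with ω hω
  rw [enc_S_eq V W n hn]
  apply single_le_sum (f := fun η => |Φ (enc_G n η)|) (fun η _ => abs_nonneg _)
  rw [Fintype.mem_piFinset]
  intro k
  unfold enc_hist
  by_cases h2 : 2 ≤ (k : ℕ)
  · rw [if_pos h2, mem_product, mem_range, mem_range]
    have h3 := ((hω k).2 h2).1
    have h4 := (hω n).1 k h2 k.2
    have := k.2
    constructor
    · show V k ω < n + 1
      omega
    · show W k ω < n + 1
      have h5 : W k ω ≤ k := h4.2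
      omega
  · rw [if_neg h2]; simp

/-- integral over an atom -/
lemma enc_atom (P : Measure Ω) [IsProbabilityMeasure P] (V W : ℕ → Ω → ℕ)
    (h : IsFriendTree P V W) (n : ℕ) (hn : 3 ≤ n) (Φ : St → ℝ) (η : Fin n → ℕ × ℕ) :
    ∫ ω in enc_hist V W n ⁻¹' {η}, Φ (enc_S W (n + 1) ω) ∂P
      = P.real (enc_hist V W n ⁻¹' {η}) * Aop inhU n (fun y => Φ y.1) (enc_G n η, ()) := by
  classical
  set A : Set Ω := enc_hist V W n ⁻¹' {η} with hA
  have hAm : MeasurableSet A := enc_hist_meas h.measV h.measW n (measurableSet_singleton _)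
  by_cases hP : P A = 0
  · rw [setIntegral_measure_zero _ hP, Measure.real, hP]
    simp
  -- a good point in `A`
  obtain ⟨ω₀, hω₀A, hω₀⟩ : ∃ ω₀ ∈ A, ∀ n, enc_Val (fun k => W k ω₀) n := by
    by_contra hcon
    push Not at hcon
    apply hP
    have hg := enc_good P V W h
    rw [ae_iff] at hg
    refine measure_mono_null ?_ hg
    intro ω hω
    simp only [Set.mem_ofPred_eq]
    intro hall
    obtain ⟨m, hm⟩ := hcon ω hω
    exact hm (hall m).1
  have hη : enc_hist V W n ω₀ = η := hω₀A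
  set b := enc_ext2 η with hb
  have hbW : ∀ ω ∈ A, ∀ k, 2 ≤ k → k < n → b k = W k ω := by
    intro ω hω k h2 hk
    have : enc_hist V W n ω = η := hω
    rw [hb, ← this]
    exact enc_ext2_hist V W n ω k h2 hk
  have hval : enc_Val b n := by
    intro k h2 hk
    rw [hbW ω₀ hω₀A k h2 hk]
    exact hω₀ n k h2 hk
  obtain ⟨i, rfl⟩ : ∃ i, n = i + 3 := ⟨n - 3, by omega⟩
  have hInv := enc_Inv_E i hval
  set S := (enc_E b i).1 with hS
  set c := (enc_E b i).2 with hc
  have hG : enc_G (i + 3) η = S := rfl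
  rw [hG, ← enc_mean (by omega) hval hInv Φ]
  -- the law on `A`
  have hAset : A = {ω | ∀ k, 2 ≤ k → k < i + 3 → V k ω = enc_ext1 η k ∧ W k ω = b k} := by
    ext ω
    simp only [Set.mem_ofPred_eq]
    constructor
    · intro hω k h2 hk
      have : enc_hist V W (i + 3) ω = η := hω
      refine ⟨?_, (hbW ω hω k h2 hk).symm⟩
      rw [← this]
      exact (enc_ext1_hist V W _ ω k h2 hk).symm
    · intro hω
      show enc_hist V W (i + 3) ω = η
      rw [← hη, enc_hist_eq]
      intro k h2 hk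
      rw [(hω k h2 hk).1, (hω k h2 hk).2, hbW ω₀ hω₀A k h2 hk]
      refine ⟨?_, rfl⟩
      rw [← hη]
      exact enc_ext1_hist V W _ ω₀ k h2 hk
  have hlaw : ∀ x ∈ Icc 1 (i + 3), ∀ v ∈ enc_N b (i + 3) x,
      P.real (A ∩ {ω | V (i + 3) ω = v ∧ W (i + 3) ω = x})
        = P.real A * (1 / (((i + 3 : ℕ) : ℝ) * tdeg b (i + 3) v)) := by
    intro x hx v hv
    rw [mem_Icc] at hx
    have hvr := enc_N_range hval (by omega) hx.1 hx.2 hv
    have hxv := enc_N_symm hval (by omega) hx.1 hx.2 hv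
    have hl := h.law (i + 3) (by omega) (enc_ext1 η) b v x
    rw [if_pos ⟨hvr.1, hvr.2.1, (enc_tree_adj hval (by omega) hvr.1 hvr.2.1).2 hxv⟩, ← hAset] at hl
    have hset : A ∩ {ω | V (i + 3) ω = v ∧ W (i + 3) ω = x}
        = {ω | (∀ k, 2 ≤ k → k < i + 3 → V k ω = enc_ext1 η k ∧ W k ω = b k) ∧
            V (i + 3) ω = v ∧ W (i + 3) ω = x} := by
      rw [hAset]; rfl
    unfold Measure.real
    rw [hset, hl, ENNReal.toReal_mul, ENNReal.toReal_ofReal (by positivity)]
  set F : ℕ → ℝ := fun x => Φ (enc_step b (i + 3) x (S, c)).1 with hF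
  have hm : ∀ v x : ℕ, MeasurableSet {ω | V (i + 3) ω = v ∧ W (i + 3) ω = x} := fun v x =>
    (h.measV (i + 3) (measurableSet_singleton v)).inter (h.measW (i + 3) (measurableSet_singleton x))
  have hint : ∫ ω in A, Φ (enc_S W (i + 3 + 1) ω) ∂P
      = ∫ ω in A, ∑ x ∈ Icc 1 (i + 3), ∑ v ∈ enc_N b (i + 3) x,
          Set.indicator {ω | V (i + 3) ω = v ∧ W (i + 3) ω = x} (fun _ => F x) ω ∂P := by
    apply setIntegral_congr_ae hAm
    filter_upwards [enc_good P V W h] with ω hω hωA
    have h1 : enc_S W (i + 3 + 1) ω = (enc_step b (i + 3) (W (i + 3) ω) (S, c)).1 := by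
      show (enc_step (fun k => W k ω) (i + 3) (W (i + 3) ω) (enc_E (fun k => W k ω) i)).1 = _
      rw [enc_step_congr (w := fun k => W k ω) (w' := b)
        (fun k h2 hk => (hbW ω hωA k h2 hk).symm),
        enc_E_congr (w := fun k => W k ω) (w' := b) i
        (fun k h2 hk => (hbW ω hωA k h2 hk).symm)]
    have hWr := (hω (i + 3 + 1)).1 (i + 3) (by omega) (by omega)
    have hVr := (hω (i + 3)).2 (by omega)
    have hN : V (i + 3) ω ∈ enc_N b (i + 3) (W (i + 3) ω) := by
      apply enc_N_symm hval (by omega) hVr.1.1 hVr.1.2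
      have h2 := hVr.2
      rw [← enc_tree_adj ((hω (i + 3)).1) (by omega) hVr.1.1 hVr.1.2,
        enc_tree_congr (w' := b) (fun k h2 hk => (hbW ω hωA k h2 hk).symm),
        enc_tree_adj hval (by omega) hVr.1.1 hVr.1.2] at h2
      exact h2
    rw [h1, sum_eq_single_of_mem (W (i + 3) ω) (mem_Icc.2 hWr),
      sum_eq_single_of_mem (V (i + 3) ω) hN]
    · rw [Set.indicator_of_mem (by exact ⟨rfl, rfl⟩)]
    · intro v _ hne
      rw [Set.indicator_of_notMem]
      rintro ⟨h3, _⟩
      exact hne h3.symm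
    · intro x _ hne
      apply sum_eq_zero
      intro v _
      rw [Set.indicator_of_notMem]
      rintro ⟨_, h3⟩
      exact hne h3.symm
  have hii : ∀ v x : ℕ, Integrable
      (Set.indicator {ω | V (i + 3) ω = v ∧ W (i + 3) ω = x} (fun _ => F x)) (P.restrict A) :=
    fun v x => (integrable_const _).indicator (hm v x)
  rw [hint, integral_finsetSum _ (fun x _ => integrable_finsetSum _ (fun v _ => hii v x)),
    mul_sum]
  apply sum_congr rfl
  intro x hx
  rw [integral_finsetSum _ (fun v _ => hii v x), ← mul_assoc, mul_sum, sum_mul]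
  apply sum_congr rfl
  intro v hv
  rw [integral_indicator (hm v x), Measure.restrict_restrict (hm v x), setIntegral_const,
    Set.inter_comm, hlaw x hx v hv, smul_eq_mul]

end prob

theorem enc_exists {Ω : Type*} [m0 : MeasurableSpace Ω] (P : Measure Ω) [IsProbabilityMeasure P]
    (V W : ℕ → Ω → ℕ) (h : IsFriendTree P V W) :
    ∃ (ℱ : Filtration ℕ m0) (S : ℕ → Ω → St), IsChain P ℱ S ∧
      ∀ᵐ ω ∂P, ∀ n, 3 ≤ n → nonleaf (fun k => W k ω) n = (S n ω).V.card := by
  have hmeas : ∀ n, 3 ≤ n → ∀ Φ : St → ℝ,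
      StronglyMeasurable[MeasurableSpace.comap (enc_hist V W n) inferInstance]
        (fun ω => Φ (enc_S W n ω)) := by
    intro n hn Φ
    have : (fun ω => Φ (enc_S W n ω)) = (fun η => Φ (enc_G n η)) ∘ enc_hist V W n := by
      funext ω; rw [enc_S_eq V W n hn]; rfl
    rw [this]
    exact ((Measurable.of_discrete (f := fun η => Φ (enc_G n η))).comp
      (comap_measurable _)).stronglyMeasurable
  have hint : ∀ n, 3 ≤ n → ∀ Φ : St → ℝ, Integrable (fun ω => Φ (enc_S W n ω)) P := by
    intro n hn Φ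
    obtain ⟨c, hc⟩ := enc_bdd P V W h n hn Φ
    exact Integrable.of_bound ((hmeas n hn Φ).mono
      (enc_hist_meas h.measV h.measW n).comap_le).aestronglyMeasurable c hc
  refine ⟨enc_F h.measV h.measW, enc_S W, ⟨?_, ?_, ?_, ?_, ?_⟩, ?_⟩
  · intro n hn Φ
    exact hmeas n hn Φ
  · intro n hn Φ
    exact enc_bdd P V W h n hn Φ
  · exact Eventually.of_forall fun ω => rfl
  · intro n hn
    filter_upwards [enc_good P V W h] with ω hω
    obtain ⟨i, rfl⟩ : ∃ i, n = i + 3 := ⟨n - 3, by omega⟩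
    have hI := enc_Inv_E i (hω (i + 3)).1
    exact ⟨enc_full hI, hI.n, hI.low⟩
  · intro n hn Φ
    have hGi : Integrable (fun ω => Aop inhU n (fun x => Φ x.1) (enc_G n (enc_hist V W n ω), ())) P := by
      have := hint n hn (fun S => Aop inhU n (fun x => Φ x.1) (S, ()))
      simp_rw [enc_S_eq V W n hn] at this
      exact this
    have := enc_condExp P (enc_hist_meas h.measV h.measW n) (hint (n + 1) (by omega) Φ)
      (G := fun η => Aop inhU n (fun x => Φ x.1) (enc_G n η, ())) hGi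
      (fun η => enc_atom P V W h n hn Φ η)
    refine this.trans (Eventually.of_forall fun ω => ?_)
    show _ = Aop inhU n (fun x => Φ x.1) (enc_S W n ω, ())
    rw [enc_S_eq V W n hn]
  · filter_upwards [enc_good P V W h] with ω hω n hn
    obtain ⟨i, rfl⟩ : ∃ i, n = i + 3 := ⟨n - 3, by omega⟩
    have hI := enc_Inv_E i (hω (i + 3)).1
    rw [enc_nonleaf (hω (i + 3)).1 (by omega)]
    exact (enc_card_V hI).symm

end FT
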