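import Pool.Agent.FT.Tree

/-! # Module Exist (friend tree, MP_5ccad8_pr) -/

open Finset MeasureTheory Filter Topology

namespace FT

namespace ExistAux

/-- attachment sequences of trees -/
def Valid (b : ℕ → ℕ) (n : ℕ) : Prop := ∀ k, 2 ≤ k → k < n → 1 ≤ b k ∧ b k ≤ k

lemma adj_range {b : ℕ → ℕ} {n v w : ℕ} (hb : Valid b n) (hn : 2 ≤ n)
    (h : (tree b n).Adj v w) : 1 ≤ v ∧ v ≤ n ∧ 1 ≤ w ∧ w ≤ n := by
  rw [tree, SimpleGraph.fromRel_adj] at h
  rcases h with ⟨_, (⟨h1, h2⟩ | ⟨k, hk, hkn, h1, h2⟩) | (⟨h1, h2⟩ | ⟨k, hk, hkn, h1, h2⟩)⟩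
  · omega
  · have := hb k hk hkn
    omega
  · omega
  · have := hb k hk hkn
    omega

lemma exists_adj {b : ℕ → ℕ} {n v : ℕ} (hb : Valid b n) (hv : 1 ≤ v) (hvn : v ≤ n) :
    ∃ w, (tree b n).Adj v w := by
  simp only [tree, SimpleGraph.fromRel_adj]
  by_cases h1 : v = 1
  · exact ⟨2, by omega, Or.inl (Or.inl ⟨h1, rfl⟩)⟩
  · by_cases h2 : v = 2
    · exact ⟨1, by omega, Or.inr (Or.inl ⟨rfl, h2⟩)⟩
    · have h3 := hb (v - 1) (by omega) (by omega)
      exact ⟨b (v - 1), by omega, Or.inl (Or.inr ⟨v - 1, by omega, by omega, by omega, rfl⟩)⟩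

open Classical in
lemma tdeg_eq {b : ℕ → ℕ} {n : ℕ} (hb : Valid b n) (hn : 2 ≤ n) (v : ℕ) :
    tdeg b n v = ((Icc 1 n).filter fun w => (tree b n).Adj v w).card := by
  unfold tdeg
  rw [← Set.ncard_coe_finset]
  congr 1
  ext w
  simp only [SimpleGraph.mem_neighborSet, coe_filter, mem_Icc, Set.mem_ofPred_eq]
  constructor
  · intro h
    have := adj_range hb hn h
    exact ⟨⟨this.2.2.1, this.2.2.2⟩, h⟩
  · exact fun h => h.2

lemma tdeg_pos {b : ℕ → ℕ} {n v : ℕ} (hb : Valid b n) (hn : 2 ≤ n) (hv : 1 ≤ v) (hvn : v ≤ n) :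
    0 < tdeg b n v := by
  classical
  rw [tdeg_eq hb hn, Finset.card_pos]
  obtain ⟨w, hw⟩ := exists_adj hb hv hvn
  have := adj_range hb hn hw
  exact ⟨w, by rw [mem_filter, mem_Icc]; exact ⟨⟨this.2.2.1, this.2.2.2⟩, hw⟩⟩

open Classical in
/-- the transition weights -/
noncomputable def wt (b : ℕ → ℕ) (n v w : ℕ) : ENNReal :=
  if 1 ≤ v ∧ v ≤ n ∧ (tree b n).Adj v w then ENNReal.ofReal (1 / (n * tdeg b n v)) else 0

lemma wt_ne_zero {b : ℕ → ℕ} {n v w : ℕ} (hb : Valid b n) (hn : 2 ≤ n) (h : wt b n v w ≠ 0) :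
    1 ≤ w ∧ w ≤ n := by
  classical
  unfold wt at h
  split_ifs at h with h1
  · have := adj_range hb hn h1.2.2
    omega
  · exact absurd rfl h

lemma wt_sum {b : ℕ → ℕ} {n : ℕ} (hb : Valid b n) (hn : 2 ≤ n) :
    ∑ v ∈ Icc 1 n, ∑ w ∈ Icc 1 n, wt b n v w = 1 := by
  classical
  have h1 : ∀ v ∈ Icc 1 n, ∑ w ∈ Icc 1 n, wt b n v w = ENNReal.ofReal (1 / n) := by
    intro v hv
    rw [mem_Icc] at hv
    have h2 : ∀ w ∈ Icc 1 n, wt b n v w =
        if (tree b n).Adj v w then ENNReal.ofReal (1 / (n * tdeg b n v)) else 0 := by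
      intro w _
      unfold wt
      simp [hv.1, hv.2]
    rw [Finset.sum_congr rfl h2, ← Finset.sum_filter, Finset.sum_const, ← tdeg_eq hb hn,
      nsmul_eq_mul]
    have hp := tdeg_pos hb hn hv.1 hv.2
    rw [← ENNReal.ofReal_natCast, ← ENNReal.ofReal_mul (by positivity)]
    congr 1
    have : (tdeg b n v : ℝ) ≠ 0 := by positivity
    have : (n : ℝ) ≠ 0 := by
      have : 0 < n := by omega
      positivity
    field_simp
  rw [Finset.sum_congr rfl h1, Finset.sum_const, Nat.card_Icc, nsmul_eq_mul,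
    ← ENNReal.ofReal_natCast, ← ENNReal.ofReal_mul (by positivity)]
  have : (n : ℝ) ≠ 0 := by
    have : 0 < n := by omega
    positivity
  have e : ((n + 1 - 1 : ℕ) : ℝ) * (1 / n) = 1 := by
    rw [Nat.add_sub_cancel]
    field_simp
  rw [e, ENNReal.ofReal_one]

/-- the law of the choices at time `n` -/
noncomputable def stepM (b : ℕ → ℕ) (n : ℕ) : Measure (ℕ × ℕ) :=
  ∑ v ∈ Icc 1 n, ∑ w ∈ Icc 1 n, wt b n v w • Measure.dirac (v, w)

lemma stepM_prob {b : ℕ → ℕ} {n : ℕ} (hb : Valid b n) (hn : 2 ≤ n) :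
    IsProbabilityMeasure (stepM b n) := by
  constructor
  unfold stepM
  simp only [Measure.coe_finsetSum, Finset.sum_apply, Measure.smul_apply, measure_univ,
    smul_eq_mul, mul_one]
  exact wt_sum hb hn

lemma stepM_singleton {b : ℕ → ℕ} {n : ℕ} (hb : Valid b n) (hn : 2 ≤ n) (v w : ℕ) :
    stepM b n {(v, w)} = wt b n v w := by
  classical
  unfold stepM
  simp only [Measure.coe_finsetSum, Finset.sum_apply, Measure.smul_apply, smul_eq_mul]
  have h1 : ∀ v' w', wt b n v' w' * (Measure.dirac (v', w') : Measure (ℕ × ℕ)) {(v, w)} =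
      if v' = v ∧ w' = w then wt b n v w else 0 := by
    intro v' w'
    rw [Measure.dirac_apply' _ (measurableSet_singleton _)]
    by_cases h : v' = v ∧ w' = w
    · obtain ⟨rfl, rfl⟩ := h
      simp
    · rw [if_neg h, Set.indicator_of_notMem, mul_zero]
      rw [Set.mem_singleton_iff, Prod.mk.injEq]
      exact h
  simp only [h1]
  by_cases hv : 1 ≤ v ∧ v ≤ n
  · by_cases hw : 1 ≤ w ∧ w ≤ n
    · rw [Finset.sum_eq_single_of_mem v (mem_Icc.2 hv), Finset.sum_eq_single_of_mem w (mem_Icc.2 hw)]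
      · simp
      · intro w' _ hne
        rw [if_neg (fun h => hne h.2)]
      · intro v' _ hne
        apply Finset.sum_eq_zero
        intro w' _
        rw [if_neg (fun h => hne h.1)]
    · have h0 : wt b n v w = 0 := by
        by_contra h
        exact hw (wt_ne_zero hb hn h)
      simp [h0]
  · have h0 : wt b n v w = 0 := by
      unfold wt
      rw [if_neg]
      intro h
      exact hv ⟨h.1, h.2.1⟩
    simp [h0]

/-- the corrected attachment sequence of a past -/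
noncomputable def past (a : ℕ) (x : (i : Iic a) → ℕ × ℕ) (k : ℕ) : ℕ :=
  if h : k ∈ Iic a then (if 1 ≤ (x ⟨k, h⟩).2 ∧ (x ⟨k, h⟩).2 ≤ k then (x ⟨k, h⟩).2 else 1) else 1

lemma past_valid (a : ℕ) (x : (i : Iic a) → ℕ × ℕ) (n : ℕ) : Valid (past a x) n := by
  intro k hk _
  unfold past
  split_ifs with h h2
  · exact h2
  · omega
  · omega

/-- the trajectory kernels as functions -/
noncomputable def kf (a : ℕ) (x : (i : Iic a) → ℕ × ℕ) : Measure (ℕ × ℕ) :=
  if 1 ≤ a then stepM (past a x) (a + 1) else Measure.dirac (1, 1)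

instance kf_prob (a : ℕ) (x : (i : Iic a) → ℕ × ℕ) : IsProbabilityMeasure (kf a x) := by
  unfold kf
  split_ifs with h
  · exact stepM_prob (past_valid a x _) (by omega)
  · infer_instance

/-- the kernels -/
noncomputable def kk (a : ℕ) :
    ProbabilityTheory.Kernel ((i : Iic a) → (fun _ : ℕ => ℕ × ℕ) i) ((fun _ : ℕ => ℕ × ℕ) (a + 1))
    where
  toFun := kf a
  measurable' := measurable_of_countable _

instance kk_markov (a : ℕ) : ProbabilityTheory.IsMarkovKernel (kk a) := ⟨fun x => kf_prob a x⟩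

/-- the law of the whole sequence of choices -/
noncomputable def PP : Measure (ℕ → ℕ × ℕ) :=
  ProbabilityTheory.Kernel.trajMeasure (X := fun _ : ℕ => ℕ × ℕ) (Measure.dirac (1, 1)) kk

instance : IsProbabilityMeasure PP := by
  unfold PP
  infer_instance

lemma tree_congr {b b' : ℕ → ℕ} {n : ℕ} (h : ∀ k, 2 ≤ k → k < n → b k = b' k) :
    tree b n = tree b' n := by
  ext v w
  simp only [tree, SimpleGraph.fromRel_adj]
  have e : ∀ u t, (∃ k, 2 ≤ k ∧ k < n ∧ u = k + 1 ∧ t = b k) ↔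
      (∃ k, 2 ≤ k ∧ k < n ∧ u = k + 1 ∧ t = b' k) := by
    intro u t
    constructor
    · rintro ⟨k, h1, h2, h3, h4⟩
      exact ⟨k, h1, h2, h3, by rw [h4, h k h1 h2]⟩
    · rintro ⟨k, h1, h2, h3, h4⟩
      exact ⟨k, h1, h2, h3, by rw [h4, h k h1 h2]⟩
  rw [e, e]

lemma wt_congr {b b' : ℕ → ℕ} {n : ℕ} (h : ∀ k, 2 ≤ k → k < n → b k = b' k) (v w : ℕ) :
    wt b n v w = wt b' n v w := by
  unfold wt tdeg
  rw [tree_congr h]

/-- the past event -/
def Ev (n : ℕ) (a b : ℕ → ℕ) : Set (ℕ → ℕ × ℕ) :=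
  {ω | ∀ k, 2 ≤ k → k < n → (ω k).1 = a k ∧ (ω k).2 = b k}

lemma key {n : ℕ} (hn : 2 ≤ n) (a b : ℕ → ℕ) (hb : Valid b n) (v w : ℕ) :
    PP (Ev n a b ∩ {ω | ω n = (v, w)}) = PP (Ev n a b) * wt b n v w := by
  classical
  obtain ⟨m, rfl⟩ : ∃ m, n = m + 1 := ⟨n - 1, by omega⟩
  set E : Set ((i : Iic m) → ℕ × ℕ) :=
    {x | ∀ k (hk : k ∈ Iic m), 2 ≤ k → (x ⟨k, hk⟩).1 = a k ∧ (x ⟨k, hk⟩).2 = b k} with hE
  have hEm : MeasurableSet E := (Set.to_countable E).measurableSet
  have h1 := ProbabilityTheory.Kernel.map_frestrictLe_trajMeasure_compProd_eq_map_trajMeasure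
    (X := fun _ : ℕ => ℕ × ℕ) (κ := kk) (μ₀ := Measure.dirac (1, 1)) (a := m)
  have h2 := congrArg (fun μ => μ (E ×ˢ {(v, w)})) h1
  have hmeas1 : Measurable (fun x : (ℕ → ℕ × ℕ) => (Preorder.frestrictLe (π := fun _ : ℕ => ℕ × ℕ) m x, x (m + 1))) := by
    fun_prop
  have hmeas2 : Measurable (Preorder.frestrictLe (π := fun _ : ℕ => ℕ × ℕ) m) := by
    fun_prop
  have hpre : (Preorder.frestrictLe (π := fun _ : ℕ => ℕ × ℕ) m) ⁻¹' E = Ev (m + 1) a b := by
    ext ω
    simp only [hE, Set.mem_preimage, Set.mem_ofPred_eq, Ev, mem_Iic]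
    constructor
    · intro h k hk hkm
      exact h k (by omega) hk
    · intro h k hk hk2
      exact h k hk2 (by omega)
  rw [Measure.map_apply hmeas1 (hEm.prod (measurableSet_singleton _)),
    Measure.compProd_apply (hEm.prod (measurableSet_singleton _))] at h2
  have hset : (fun x : (ℕ → ℕ × ℕ) => (Preorder.frestrictLe (π := fun _ : ℕ => ℕ × ℕ) m x, x (m + 1))) ⁻¹'
      (E ×ˢ {(v, w)}) = Ev (m + 1) a b ∩ {ω | ω (m + 1) = (v, w)} := by
    rw [← hpre]
    ext ω
    simp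
  rw [hset] at h2
  change _ = PP _ at h2
  rw [← h2]
  have hint : ∀ x, (kk m x) (Prod.mk x ⁻¹' E ×ˢ {(v, w)}) =
      E.indicator (fun _ => wt b (m + 1) v w) x := by
    intro x
    by_cases hx : x ∈ E
    · have e1 : Prod.mk x ⁻¹' E ×ˢ {(v, w)} = ({(v, w)} : Set (ℕ × ℕ)) := by
        ext y
        simp [hx]
      rw [e1, Set.indicator_of_mem hx]
      change kf m x {(v, w)} = _
      unfold kf
      rw [if_pos (by omega), stepM_singleton (past_valid m x _) hn]
      apply wt_congr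
      intro k hk hkm
      have hk' : k ∈ Iic m := by rw [mem_Iic]; omega
      have h3 := (hx k hk' hk).2
      have h4 := hb k hk hkm
      unfold past
      rw [dif_pos hk', h3, if_pos h4]
    · have e1 : Prod.mk x ⁻¹' E ×ˢ {(v, w)} = (∅ : Set (ℕ × ℕ)) := by
        ext y
        simp [hx]
      rw [e1, Set.indicator_of_notMem hx, measure_empty]
  rw [lintegral_congr hint, lintegral_indicator hEm, setLIntegral_const,
    Measure.map_apply hmeas2 hEm, hpre, mul_comm]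
  rfl

lemma Ev_succ (n : ℕ) (hn : 2 ≤ n) (a b : ℕ → ℕ) :
    Ev (n + 1) a b = Ev n a b ∩ {ω | ω n = (a n, b n)} := by
  ext ω
  simp only [Ev, Set.mem_ofPred_eq, Set.mem_inter_iff]
  constructor
  · intro h
    refine ⟨fun k h1 h2 => h k h1 (by omega), ?_⟩
    have := h n hn (by omega)
    exact Prod.ext this.1 this.2
  · rintro ⟨h1, h2⟩ k hk hkn
    by_cases hkn' : k = n
    · subst hkn'
      rw [h2]
      exact ⟨rfl, rfl⟩
    · exact h1 k hk (by omega)

lemma valid_of_ne {n : ℕ} (hn : 2 ≤ n) (a b : ℕ → ℕ) (h : PP (Ev n a b) ≠ 0) : Valid b n := by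
  induction n, hn using Nat.le_induction with
  | base =>
    intro k h1 h2
    omega
  | succ n hn ih =>
    rw [Ev_succ n hn] at h
    have h1 : PP (Ev n a b) ≠ 0 := by
      intro h0
      exact h (le_antisymm ((measure_mono Set.inter_subset_left).trans h0.le) zero_le)
    have hv := ih h1
    rw [key hn a b hv] at h
    have h2 : wt b n (a n) (b n) ≠ 0 := fun h0 => h (by rw [h0, mul_zero])
    have h3 := wt_ne_zero hv hn h2
    intro k hk hkn
    by_cases hkn' : k = n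
    · subst hkn'
      exact h3
    · exact hv k hk (by omega)

end ExistAux

open ExistAux in
theorem exists_friendTree : ∃ (Ω : Type) (_ : MeasurableSpace Ω) (P : Measure Ω)
    (_ : IsProbabilityMeasure P) (V W : ℕ → Ω → ℕ), IsFriendTree P V W := by
  refine ⟨ℕ → ℕ × ℕ, inferInstance, PP, inferInstance, fun n ω => (ω n).1, fun n ω => (ω n).2,
    ?_, ?_, ?_⟩
  · intro n
    fun_prop
  · intro n
    fun_prop
  · intro n hn a b v w
    have e1 : {ω : ℕ → ℕ × ℕ | (∀ k, 2 ≤ k → k < n → (ω k).1 = a k ∧ (ω k).2 = b k) ∧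
        (ω n).1 = v ∧ (ω n).2 = w} = Ev n a b ∩ {ω | ω n = (v, w)} := by
      ext ω
      simp only [Ev, Set.mem_ofPred_eq, Set.mem_inter_iff, Prod.ext_iff]
    rw [e1]
    by_cases h : PP (Ev n a b) = 0
    · have h2 : PP (Ev n a b ∩ {ω | ω n = (v, w)}) = 0 :=
        le_antisymm ((measure_mono Set.inter_subset_left).trans h.le) zero_le
      rw [h2]
      change 0 = PP (Ev n a b) * _
      rw [h, zero_mul]
    · have hb := valid_of_ne hn a b h
      rw [key hn a b hb]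
      rfl

end FT
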