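import Pool.Agent.FT.Super

/-! # Module Fekete (friend tree, MP_5ccad8_pr) -/

open Finset MeasureTheory Filter Topology

namespace FT

/-- an exponential bounded by a constant has a nonpositive rate -/
theorem rate_nonpos {a K : ℝ} (h : ∀ t : ℝ, 0 ≤ t → Real.exp (a * t) ≤ K) : a ≤ 0 := by
  by_contra ha
  push Not at ha
  have hK : 0 < K := lt_of_lt_of_le (Real.exp_pos _) (h 0 le_rfl)
  have h1 := h (K / a) (by positivity)
  rw [mul_div_cancel₀ _ ha.ne'] at h1
  have h2 := Real.add_one_le_exp K
  linarith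

/-- Fekete's lemma for a function which is sub- and supermultiplicative up to constants -/
theorem fekete_real (f : ℝ → ℝ) (h1 : ∀ t, 0 ≤ t → 1 ≤ f t)
    (hmono : ∀ s t, 0 ≤ s → s ≤ t → f s ≤ f t)
    (hsub : ∃ C : ℝ, 0 < C ∧ ∀ s t : ℝ, 0 ≤ s → 0 ≤ t → f (s + t) ≤ C * f s * f t)
    (hsup : ∃ c : ℝ, 0 < c ∧ ∀ s t : ℝ, 0 ≤ s → 0 ≤ t → c * f s * f t ≤ f (s + t))
    (hup : ∃ C : ℝ, 0 < C ∧ ∀ t : ℝ, 0 ≤ t → f t ≤ C * Real.exp ((3 / 4) * t)) :
    ∃ μ : ℝ, ∃ c C : ℝ, 0 < c ∧ 0 < C ∧
      ∀ t : ℝ, 0 ≤ t → c * Real.exp (μ * t) ≤ f t ∧ f t ≤ C * Real.exp (μ * t) := by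
  obtain ⟨C, hC, hsub⟩ := hsub
  obtain ⟨c, hc, hsup⟩ := hsup
  obtain ⟨D, hD, hup⟩ := hup
  have hpos : ∀ t, 0 ≤ t → 0 < f t := fun t ht => lt_of_lt_of_le one_pos (h1 t ht)
  let u : ℕ → ℝ := fun n => Real.log (C * f n)
  let v : ℕ → ℝ := fun n => -Real.log (c * f n)
  have hu : Subadditive u := by
    intro m n
    have hm := hpos m (Nat.cast_nonneg m)
    have hn := hpos n (Nat.cast_nonneg n)
    have hmn := hpos ((m + n : ℕ) : ℝ) (Nat.cast_nonneg _)
    show Real.log (C * f ((m + n : ℕ) : ℝ)) ≤ Real.log (C * f m) + Real.log (C * f n)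
    rw [← Real.log_mul (by positivity) (by positivity)]
    apply Real.log_le_log (by positivity)
    have := hsub m n (Nat.cast_nonneg m) (Nat.cast_nonneg n)
    push_cast
    calc C * f (m + n) ≤ C * (C * f m * f n) := by gcongr
      _ = C * f m * (C * f n) := by ring
  have hv : Subadditive v := by
    intro m n
    have hm := hpos m (Nat.cast_nonneg m)
    have hn := hpos n (Nat.cast_nonneg n)
    have hmn := hpos ((m + n : ℕ) : ℝ) (Nat.cast_nonneg _)
    show -Real.log (c * f ((m + n : ℕ) : ℝ)) ≤ -Real.log (c * f m) + -Real.log (c * f n)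
    have h3 : Real.log (c * f m) + Real.log (c * f n) ≤ Real.log (c * f ((m + n : ℕ) : ℝ)) := by
      rw [← Real.log_mul (by positivity) (by positivity)]
      apply Real.log_le_log (by positivity)
      have := hsup m n (Nat.cast_nonneg m) (Nat.cast_nonneg n)
      push_cast
      calc c * f m * (c * f n) = c * (c * f m * f n) := by ring
        _ ≤ c * f (m + n) := by gcongr
    linarith
  have hub : BddBelow (Set.range fun n => u n / n) := by
    refine ⟨-|Real.log C|, ?_⟩
    rintro _ ⟨n, rfl⟩
    show -|Real.log C| ≤ Real.log (C * f n) / n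
    rcases Nat.eq_zero_or_pos n with rfl | hn
    · simp
    · have hn' : (1 : ℝ) ≤ n := by exact_mod_cast hn
      have hfn := h1 n (Nat.cast_nonneg n)
      have h4 : -|Real.log C| ≤ Real.log (C * f n) := by
        rw [Real.log_mul hC.ne' (by positivity)]
        have := Real.log_nonneg hfn
        have := neg_abs_le (Real.log C)
        linarith
      rw [le_div_iff₀ (by positivity)]
      have : -|Real.log C| * n ≤ -|Real.log C| := by
        nlinarith [abs_nonneg (Real.log C)]
      linarith
  have hvb : BddBelow (Set.range fun n => v n / n) := by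
    refine ⟨-|Real.log (c * D)| - 3 / 4, ?_⟩
    rintro _ ⟨n, rfl⟩
    show -|Real.log (c * D)| - 3 / 4 ≤ -Real.log (c * f n) / n
    rcases Nat.eq_zero_or_pos n with rfl | hn
    · simp only [Nat.cast_zero, div_zero]
      have := abs_nonneg (Real.log (c * D))
      linarith
    · have hn' : (1 : ℝ) ≤ n := by exact_mod_cast hn
      have hfn := hpos n (Nat.cast_nonneg n)
      have h4 : Real.log (c * f n) ≤ Real.log (c * D) + 3 / 4 * n := by
        have h5 := hup n (Nat.cast_nonneg n)
        calc Real.log (c * f n) ≤ Real.log (c * D * Real.exp ((3 / 4) * n)) := by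
              apply Real.log_le_log (by positivity)
              calc c * f n ≤ c * (D * Real.exp ((3 / 4) * n)) := by gcongr
                _ = c * D * Real.exp ((3 / 4) * n) := by ring
          _ = Real.log (c * D) + 3 / 4 * n := by
              rw [Real.log_mul (by positivity) (Real.exp_pos _).ne', Real.log_exp]
      rw [le_div_iff₀ (by positivity)]
      have h6 := le_abs_self (Real.log (c * D))
      nlinarith [abs_nonneg (Real.log (c * D))]
  set μ := hu.lim with hμ
  have hlim := hu.tendsto_lim hub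
  have hlim' := hv.tendsto_lim hvb
  have hneg : hv.lim = -μ := by
    have h3 : Tendsto (fun n : ℕ => u n / n + v n / n) atTop (𝓝 (μ + hv.lim)) := hlim.add hlim'
    have h4 : Tendsto (fun n : ℕ => u n / n + v n / n) atTop (𝓝 0) := by
      have h5 : (fun n : ℕ => u n / n + v n / n) = fun n : ℕ => (Real.log C - Real.log c) / n := by
        funext n
        have hfn := hpos n (Nat.cast_nonneg n)
        show Real.log (C * f n) / n + -Real.log (c * f n) / n = _
        rw [Real.log_mul hC.ne' hfn.ne', Real.log_mul hc.ne' hfn.ne']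
        ring
      rw [h5]
      exact tendsto_const_div_atTop_nhds_zero_nat _
    have := tendsto_nhds_unique h3 h4
    linarith
  have hlow : ∀ n : ℕ, Real.exp (μ * n) / C ≤ f n := by
    intro n
    rcases Nat.eq_zero_or_pos n with rfl | hn
    · have h3 := hsub 0 0 le_rfl le_rfl
      have h4 := hpos 0 le_rfl
      rw [add_zero] at h3
      have h5 : 1 ≤ C * f 0 := by
        by_contra h6
        push Not at h6
        have : C * f 0 * f 0 < 1 * f 0 := by
          apply mul_lt_mul_of_pos_right h6 h4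
        linarith
      simp only [Nat.cast_zero, mul_zero, Real.exp_zero]
      rw [div_le_iff₀ hC]
      linarith
    · have h3 := hu.lim_le_div hub hn.ne'
      have hn' : (0 : ℝ) < n := by exact_mod_cast hn
      have hfn := hpos n (Nat.cast_nonneg n)
      rw [le_div_iff₀ hn'] at h3
      have h4 : Real.exp (μ * n) ≤ C * f n := by
        calc Real.exp (μ * n) ≤ Real.exp (Real.log (C * f n)) := Real.exp_le_exp.2 h3
          _ = C * f n := Real.exp_log (by positivity)
      rw [div_le_iff₀ hC]
      linarith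
  have hupp : ∀ n : ℕ, f n ≤ Real.exp (μ * n) / c := by
    intro n
    rcases Nat.eq_zero_or_pos n with rfl | hn
    · have h3 := hsup 0 0 le_rfl le_rfl
      have h4 := hpos 0 le_rfl
      rw [add_zero] at h3
      have h5 : c * f 0 ≤ 1 := by
        by_contra h6
        push Not at h6
        have : 1 * f 0 < c * f 0 * f 0 := by
          apply mul_lt_mul_of_pos_right h6 h4
        linarith
      simp only [Nat.cast_zero, mul_zero, Real.exp_zero]
      rw [le_div_iff₀ hc]
      linarith
    · have h3 := hv.lim_le_div hvb hn.ne'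
      rw [hneg] at h3
      have hn' : (0 : ℝ) < n := by exact_mod_cast hn
      have hfn := hpos n (Nat.cast_nonneg n)
      rw [le_div_iff₀ hn'] at h3
      have h3' : Real.log (c * f n) ≤ μ * n := by
        have : v n = -Real.log (c * f n) := rfl
        linarith
      have h4 : c * f n ≤ Real.exp (μ * n) := by
        calc c * f n = Real.exp (Real.log (c * f n)) := (Real.exp_log (by positivity)).symm
          _ ≤ Real.exp (μ * n) := Real.exp_le_exp.2 h3'
      rw [le_div_iff₀ hc]
      linarith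
  refine ⟨μ, Real.exp (-|μ|) / C, Real.exp |μ| / c, by positivity, by positivity, ?_⟩
  intro t ht
  have hn1 : ((⌊t⌋₊ : ℕ) : ℝ) ≤ t := Nat.floor_le ht
  have hn2 : t < ((⌊t⌋₊ : ℕ) : ℝ) + 1 := Nat.lt_floor_add_one t
  constructor
  · calc Real.exp (-|μ|) / C * Real.exp (μ * t)
        = Real.exp (-|μ| + μ * t) / C := by rw [Real.exp_add]; ring
      _ ≤ Real.exp (μ * (⌊t⌋₊ : ℕ)) / C := by
          apply div_le_div_of_nonneg_right _ hC.le
          apply Real.exp_le_exp.2
          have h3 : μ * (t - (⌊t⌋₊ : ℕ)) ≤ |μ| * 1 := by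
            calc μ * (t - (⌊t⌋₊ : ℕ)) ≤ |μ| * (t - (⌊t⌋₊ : ℕ)) := by
                  apply mul_le_mul_of_nonneg_right (le_abs_self μ); linarith
              _ ≤ |μ| * 1 := by
                  apply mul_le_mul_of_nonneg_left _ (abs_nonneg μ); linarith
          linarith
      _ ≤ f (⌊t⌋₊ : ℕ) := hlow _
      _ ≤ f t := hmono _ _ (Nat.cast_nonneg _) hn1
  · calc f t ≤ f ((⌊t⌋₊ + 1 : ℕ) : ℝ) := hmono _ _ ht (by push_cast; linarith)
      _ ≤ Real.exp (μ * ((⌊t⌋₊ + 1 : ℕ) : ℝ)) / c := hupp _
      _ ≤ Real.exp (|μ| + μ * t) / c := by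
          apply div_le_div_of_nonneg_right _ hc.le
          apply Real.exp_le_exp.2
          push_cast
          have h3 : μ * ((⌊t⌋₊ : ℕ) + 1 - t) ≤ |μ| * 1 := by
            calc μ * ((⌊t⌋₊ : ℕ) + 1 - t) ≤ |μ| * ((⌊t⌋₊ : ℕ) + 1 - t) := by
                  apply mul_le_mul_of_nonneg_right (le_abs_self μ); linarith
              _ ≤ |μ| * 1 := by
                  apply mul_le_mul_of_nonneg_left _ (abs_nonneg μ); linarith
          linarith
      _ = Real.exp |μ| / c * Real.exp (μ * t) := by rw [Real.exp_add]; ring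

theorem exists_expo : ∃ μ : ℝ, Expo μ := by
  obtain ⟨μ, c, C, hc, hC, h⟩ := fekete_real mt (fun t ht => one_le_mt ht)
    (fun s t hs hst => mt_mono hs hst) mt_sub mt_super mt_upper
  refine ⟨μ, ?_, ?_, c, C, hc, hC, h⟩
  · obtain ⟨D, hD, hg⟩ := mt_growth
    have h2 : (9 : ℝ) / 20 - μ ≤ 0 := by
      apply rate_nonpos (K := D * C)
      intro t ht
      have h3 := hg 0 t le_rfl ht
      rw [sub_zero] at h3
      have h4 := (h t ht).2
      have h5 : (1 : ℝ) ≤ mt 0 := one_le_mt le_rfl
      have h6 : 1 ≤ D * Real.exp (-((9 / 20) * t)) * (C * Real.exp (μ * t)) := by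
        calc (1 : ℝ) ≤ mt 0 := h5
          _ ≤ D * Real.exp (-((9 / 20) * t)) * mt t := h3
          _ ≤ _ := by gcongr
      have h7 : D * Real.exp (-((9 / 20) * t)) * (C * Real.exp (μ * t))
          = D * C * Real.exp (-((9 / 20 - μ) * t)) := by
        rw [show -((9 / 20 - μ) * t) = -((9 / 20) * t) + μ * t by ring, Real.exp_add]; ring
      rw [h7, Real.exp_neg, ← div_eq_mul_inv, le_div_iff₀ (Real.exp_pos _), one_mul] at h6
      exact h6
    linarith
  · obtain ⟨D, hD, hg⟩ := mt_upper
    have h2 : μ - 3 / 4 ≤ 0 := by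
      apply rate_nonpos (K := D / c)
      intro t ht
      have h3 := hg t ht
      have h4 := (h t ht).1
      have h5 : c * Real.exp (μ * t) ≤ D * Real.exp ((3 / 4) * t) := h4.trans h3
      rw [le_div_iff₀ hc, show (μ - 3 / 4) * t = μ * t - (3 / 4) * t by ring, Real.exp_sub,
        div_mul_eq_mul_div, div_le_iff₀ (Real.exp_pos _)]
      linarith
    linarith

end FT
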