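import Pool.Agent.FT.Objs

/-! # Module Pot (friend tree, MP_5ccad8_pr): elementary inequalities for the potentials -/

open Finset MeasureTheory Filter Topology

namespace FT

lemma pot_aux_d {L s : ℕ} (h : 2 ≤ L + s) : (2 : ℝ) ≤ (L : ℝ) + s := by exact_mod_cast h

lemma bet_lower {L s : ℕ} (h : 2 ≤ L + s) : 4 / 3 ≤ bet L s := by
  have hd := pot_aux_d h
  have hL : (0 : ℝ) ≤ L := Nat.cast_nonneg L
  have hs : (0 : ℝ) ≤ s := Nat.cast_nonneg s
  have h1 : (3 * (s : ℝ) + 2) / (10 * ((L : ℝ) + s)) ≤ 2 / 5 := by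
    rw [div_le_div_iff₀ (by linarith) (by norm_num)]
    linarith
  unfold bet
  linarith

lemma bet_upper (L s : ℕ) : bet L s ≤ 20 / 9 := by
  have h1 : 0 ≤ (3 * (s : ℝ) + 2) / (10 * ((L : ℝ) + s)) := by positivity
  unfold bet
  linarith

lemma bet_one : bet 1 1 = 5 / 3 := by
  unfold bet; norm_num

lemma bet_mono {L s : ℕ} (h : 2 ≤ L + s) : bet L s ≤ bet (L + 1) s := by
  have hd := pot_aux_d h
  have hs : (0 : ℝ) ≤ s := Nat.cast_nonneg s
  have h1 : (3 * (s : ℝ) + 2) / (10 * (((L + 1 : ℕ) : ℝ) + s)) ≤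
      (3 * (s : ℝ) + 2) / (10 * ((L : ℝ) + s)) := by
    apply div_le_div_of_nonneg_left (by positivity) (by linarith)
    push_cast
    linarith
  unfold bet
  linarith

lemma bet_ratio {L s : ℕ} (h : 2 ≤ L + s) (hs : 1 ≤ s) :
    bet (L + 1) s ≤ (11 / 9) * bet L s := by
  have hd := pot_aux_d h
  have hL : (0 : ℝ) ≤ L := Nat.cast_nonneg L
  have hs' : (1 : ℝ) ≤ s := by exact_mod_cast hs
  have key : (11 / 9) * ((3 * (s : ℝ) + 2) / (10 * ((L : ℝ) + s))) ≤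
      2 / 9 + (3 * (s : ℝ) + 2) / (10 * ((L : ℝ) + 1 + s)) := by
    rw [← sub_nonneg]
    have e : 2 / 9 + (3 * (s : ℝ) + 2) / (10 * ((L : ℝ) + 1 + s))
        - (11 / 9) * ((3 * (s : ℝ) + 2) / (10 * ((L : ℝ) + s)))
        = (20 * ((L : ℝ) + s) * ((L : ℝ) + 1 + s)
            - (3 * (s : ℝ) + 2) * (2 * ((L : ℝ) + s) + 11))
          / (90 * ((L : ℝ) + s) * ((L : ℝ) + 1 + s)) := by
      field_simp
      ring
    rw [e]
    apply div_nonneg _ (by positivity)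
    nlinarith [mul_nonneg hL (by linarith : (0 : ℝ) ≤ (s : ℝ)), mul_nonneg hL hL,
      mul_nonneg (by linarith : (0 : ℝ) ≤ (L : ℝ) + s - 2) hL,
      mul_nonneg (by linarith : (0 : ℝ) ≤ (L : ℝ) + s - 2) (by linarith : (0 : ℝ) ≤ (s : ℝ))]
  unfold bet
  push_cast
  linarith

/-- the increment of `bet` under an arrival -/
lemma pot_aux_arr {L s : ℕ} (h : 2 ≤ L + s) : bet (L + 1) s - bet L s =
    (2 / 9) * ((3 * (s : ℝ) + 2) / (((L : ℝ) + s) * ((L : ℝ) + s + 1))) := by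
  have hd := pot_aux_d h
  unfold bet
  push_cast
  have h1 : ((L : ℝ) + s) ≠ 0 := by linarith
  have h2 : ((L : ℝ) + s + 1) ≠ 0 := by linarith
  have h3 : ((L : ℝ) + 1 + s) ≠ 0 := by linarith
  field_simp
  ring

/-- the increment of `bet` under a birth -/
lemma pot_aux_bir {L s : ℕ} (hL : 1 ≤ L) : bet (L - 1) (s + 1) - bet L s =
    -((2 / 3) / ((L : ℝ) + s)) := by
  have hL' : (1 : ℝ) ≤ L := by exact_mod_cast hL
  have hs : (0 : ℝ) ≤ s := Nat.cast_nonneg s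
  unfold bet
  rw [Nat.cast_sub hL]
  push_cast
  have h1 : ((L : ℝ) + s) ≠ 0 := by linarith
  have h2 : ((L : ℝ) - 1 + (s + 1)) ≠ 0 := by
    have : ((L : ℝ) - 1 + (s + 1)) = (L : ℝ) + s := by ring
    rwa [this]
  have e : ((L : ℝ) - 1 + (s + 1)) = (L : ℝ) + s := by ring
  rw [e]
  field_simp
  ring

lemma bet_ineq1 {L s : ℕ} (h : 2 ≤ L + s) {κ : ℝ} (h0 : 0 ≤ κ) (hκ : κ ≤ s / 2) :
    ((L : ℝ) + κ) * (bet (L + 1) s - bet L s)
      + ((L : ℝ) / ((L : ℝ) + s)) * (1 + bet (L - 1) (s + 1) - bet L s)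
      ≤ (9 / 20) * bet L s := by
  have hd := pot_aux_d h
  have hL : (0 : ℝ) ≤ L := Nat.cast_nonneg L
  have hs : (0 : ℝ) ≤ s := Nat.cast_nonneg s
  have e1 : ((L : ℝ) / ((L : ℝ) + s)) * (1 + bet (L - 1) (s + 1) - bet L s)
      = ((L : ℝ) / ((L : ℝ) + s)) * (1 - (2 / 3) / ((L : ℝ) + s)) := by
    rcases Nat.eq_zero_or_pos L with rfl | hL1
    · simp
    · have := pot_aux_bir (s := s) hL1
      rw [show 1 + bet (L - 1) (s + 1) - bet L s = 1 + (bet (L - 1) (s + 1) - bet L s) by ring,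
        this]
      ring
  rw [e1, pot_aux_arr h]
  have e2 : (9 / 20) * bet L s = 1 - (3 * (s : ℝ) + 2) / (10 * ((L : ℝ) + s)) := by
    unfold bet; ring
  rw [e2]
  have h3 : 0 ≤ (2 / 9) * ((3 * (s : ℝ) + 2) / (((L : ℝ) + s) * ((L : ℝ) + s + 1))) := by
    positivity
  have h4 : ((L : ℝ) + κ) *
        ((2 / 9) * ((3 * (s : ℝ) + 2) / (((L : ℝ) + s) * ((L : ℝ) + s + 1)))) ≤
      ((L : ℝ) + s / 2) *
        ((2 / 9) * ((3 * (s : ℝ) + 2) / (((L : ℝ) + s) * ((L : ℝ) + s + 1)))) :=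
    mul_le_mul_of_nonneg_right (by linarith) h3
  refine (add_le_add_left h4 _).trans ?_
  rw [← sub_nonneg]
  have hd0 : ((L : ℝ) + s) ≠ 0 := by linarith
  have hd1 : ((L : ℝ) + s + 1) ≠ 0 := by linarith
  have e3 : 1 - (3 * (s : ℝ) + 2) / (10 * ((L : ℝ) + s)) -
      (((L : ℝ) + s / 2) *
          ((2 / 9) * ((3 * (s : ℝ) + 2) / (((L : ℝ) + s) * ((L : ℝ) + s + 1))))
        + ((L : ℝ) / ((L : ℝ) + s)) * (1 - (2 / 3) / ((L : ℝ) + s)))
      = ((3 * (s : ℝ) + 2) * ((L : ℝ) + s) * ((L : ℝ) + s + 1) / 90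
          + (2 / 9) * ((3 * (s : ℝ) + 2) * (1 + s / 2) * ((L : ℝ) + s)
            - 3 * s * ((L : ℝ) + s + 1)))
        / (((L : ℝ) + s) ^ 2 * ((L : ℝ) + s + 1)) := by
    field_simp
    ring
  rw [e3]
  apply div_nonneg _ (by positivity)
  have h5 : 0 ≤ (3 * (s : ℝ) + 2) * ((L : ℝ) + s) * ((L : ℝ) + s + 1) / 90 := by positivity
  have h6 : 0 ≤ (3 * (s : ℝ) + 2) * (1 + s / 2) * ((L : ℝ) + s)
      - 3 * s * ((L : ℝ) + s + 1) := by
    have h7 : (3 * (s : ℝ) + 2) * (1 + s / 2) * ((L : ℝ) + s) - 3 * s * ((L : ℝ) + s + 1)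
        = ((3 / 2) * (s : ℝ) ^ 2 + s + 2) * ((L : ℝ) + s - 1)
          + ((3 / 2) * (s : ℝ) ^ 2 - 2 * s + 2) := by ring
    rw [h7]
    have h8 : 0 ≤ (3 / 2) * (s : ℝ) ^ 2 - 2 * s + 2 := by nlinarith [sq_nonneg ((s : ℝ) - 1)]
    have h9 : 0 ≤ ((3 / 2) * (s : ℝ) ^ 2 + s + 2) * ((L : ℝ) + s - 1) :=
      mul_nonneg (by positivity) (by linarith)
    linarith
  linarith

lemma bet_ineq2 {L s : ℕ} (h : 2 ≤ L + s) (hs : 1 ≤ s) {κ : ℝ} (h0 : 0 ≤ κ) (hκ : κ ≤ s / 2) :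
    ((L : ℝ) + κ) * (bet (L + 1) s - bet L s)
      + ((L : ℝ) / ((L : ℝ) + s)) * (5 / 3 + bet (L - 1) (s + 1) - bet L s)
      ≤ (3 / 4) * bet L s := by
  have h1 := bet_ineq1 h h0 hκ
  have hd := pot_aux_d h
  have hs' : (1 : ℝ) ≤ s := by exact_mod_cast hs
  have h2 : (L : ℝ) / ((L : ℝ) + s) ≤ (9 / 20) * bet L s := by
    have e2 : (9 / 20) * bet L s = 1 - (3 * (s : ℝ) + 2) / (10 * ((L : ℝ) + s)) := by
      unfold bet; ring
    rw [e2]
    have e3 : 1 - (3 * (s : ℝ) + 2) / (10 * ((L : ℝ) + s)) - (L : ℝ) / ((L : ℝ) + s)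
        = (7 * s - 2) / (10 * ((L : ℝ) + s)) := by
      have hd0 : ((L : ℝ) + s) ≠ 0 := by linarith
      field_simp
      ring
    have h4 : 0 ≤ (7 * (s : ℝ) - 2) / (10 * ((L : ℝ) + s)) :=
      div_nonneg (by linarith) (by linarith)
    linarith
  have e : ((L : ℝ) / ((L : ℝ) + s)) * (5 / 3 + bet (L - 1) (s + 1) - bet L s)
      = ((L : ℝ) / ((L : ℝ) + s)) * (1 + bet (L - 1) (s + 1) - bet L s)
        + (2 / 3) * ((L : ℝ) / ((L : ℝ) + s)) := by ring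
  rw [e]
  linarith

lemma bet_ineq3 {L s : ℕ} (h : 2 ≤ L + s) {κ : ℝ} (h0 : 0 ≤ κ) (hκ : κ ≤ s / 2) :
    ((L : ℝ) + κ) * (bet (L + 1) s - bet L s)
      + ((L : ℝ) / ((L : ℝ) + s)) * (5 / 3 + bet (L - 1) (s + 1) - bet L s)
      ≤ (4 / 5) * bet L s := by
  rcases Nat.eq_zero_or_pos s with rfl | hs
  · have hL2 : 2 ≤ L := by omega
    have hL2' : (2 : ℝ) ≤ L := by exact_mod_cast hL2
    have hκ0 : κ = 0 := by
      push_cast at hκ
      linarith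
    subst hκ0
    rw [show (5 : ℝ) / 3 + bet (L - 1) (0 + 1) - bet L 0
      = 5 / 3 + (bet (L - 1) (0 + 1) - bet L 0) by ring,
      pot_aux_bir (s := 0) (by omega : 1 ≤ L), pot_aux_arr h]
    unfold bet
    push_cast
    rw [← sub_nonneg]
    have hL0 : (L : ℝ) ≠ 0 := by linarith
    have hL1 : (L : ℝ) + 1 ≠ 0 := by linarith
    have e : 4 / 5 * (20 / 9 * (1 - (3 * (0 : ℝ) + 2) / (10 * ((L : ℝ) + 0)))) -
        (((L : ℝ) + 0) * (2 / 9 * ((3 * (0 : ℝ) + 2) / (((L : ℝ) + 0) * ((L : ℝ) + 0 + 1))))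
          + (L : ℝ) / ((L : ℝ) + 0) * (5 / 3 + -(2 / 3 / ((L : ℝ) + 0))))
        = (5 * (L : ℝ) ^ 2 - (L : ℝ) + 14) / (45 * (L : ℝ) * ((L : ℝ) + 1)) := by
      simp only [add_zero, mul_zero, zero_add]
      field_simp
      ring
    rw [e]
    apply div_nonneg _ (by positivity)
    nlinarith
  · have h1 := bet_ineq2 h hs h0 hκ
    have h2 := bet_lower h
    linarith

lemma Jf_small {L : ℕ} (h : L ≤ 2) : Jf L = 1 := by unfold Jf; rw [if_pos h]

lemma Jf_large {L : ℕ} (h : 3 ≤ L) : Jf L = 17 / (8 * (L : ℝ)) := by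
  unfold Jf; rw [if_neg (by omega)]

lemma Jf_pos (L : ℕ) : 0 < Jf L := by
  unfold Jf
  split_ifs with h
  · norm_num
  · have : 0 < L := by omega
    positivity

lemma Jf_le_one (L : ℕ) : Jf L ≤ 1 := by
  unfold Jf
  split_ifs with h
  · exact le_refl _
  · have h3 : (3 : ℝ) ≤ L := by exact_mod_cast (by omega : 3 ≤ L)
    rw [div_le_one (by linarith)]
    linarith

lemma Jf_antitone (L : ℕ) : Jf (L + 1) ≤ Jf L := by
  by_cases h : L ≤ 2
  · rw [Jf_small h]; exact Jf_le_one _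
  · have h3 : 3 ≤ L := by omega
    have h3' : (3 : ℝ) ≤ L := by exact_mod_cast h3
    rw [Jf_large h3, Jf_large (by omega : 3 ≤ L + 1)]
    apply div_le_div_of_nonneg_left (by norm_num) (by linarith)
    push_cast
    linarith

lemma Jf_pred_le {L : ℕ} (hL : 1 ≤ L) : Jf (L - 1) ≤ 17 / (4 * (L : ℝ)) := by
  have hL' : (1 : ℝ) ≤ L := by exact_mod_cast hL
  by_cases h : L ≤ 3
  · rw [Jf_small (by omega)]
    have h3 : (L : ℝ) ≤ 3 := by exact_mod_cast h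
    rw [le_div_iff₀ (by linarith)]
    linarith
  · have h4 : 4 ≤ L := by omega
    have h4' : (4 : ℝ) ≤ L := by exact_mod_cast h4
    rw [Jf_large (by omega : 3 ≤ L - 1), Nat.cast_sub hL]
    push_cast
    rw [div_le_div_iff₀ (by linarith) (by linarith)]
    linarith

lemma Jf_ineq {L s : ℕ} (hL : 3 ≤ L) (hs : 1 ≤ s) :
    (11 / 9) * (1 - Jf L) / ((L : ℝ) + s) ≤ -(3 / 10) * Jf L + (L : ℝ) * (Jf L - Jf (L + 1))
      - ((L : ℝ) / ((L : ℝ) + s)) * (Jf (L - 1) - Jf L) := by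
  have hs' : (1 : ℝ) ≤ s := by exact_mod_cast hs
  have hL' : (3 : ℝ) ≤ L := by exact_mod_cast hL
  rcases Nat.lt_or_ge L 4 with h | h
  · have h3 : L = 3 := by omega
    subst h3
    rw [Jf_large (by omega : 3 ≤ 3), Jf_large (by omega : 3 ≤ 3 + 1),
      Jf_small (by omega : 3 - 1 ≤ 2)]
    push_cast
    rw [← sub_nonneg]
    have hd0 : (3 : ℝ) + s ≠ 0 := by linarith
    have e : -(3 / 10) * (17 / (8 * (3 : ℝ))) + 3 * (17 / (8 * 3) - 17 / (8 * 4))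
        - (3 : ℝ) / (3 + s) * (1 - 17 / (8 * 3)) - 11 / 9 * (1 - 17 / (8 * 3)) / (3 + s)
        = ((51 / 160) * (3 + s) - 133 / 108) / (3 + s) := by
      field_simp
      ring
    rw [e]
    apply div_nonneg _ (by linarith)
    linarith
  · have h4' : (4 : ℝ) ≤ L := by exact_mod_cast h
    rw [Jf_large hL, Jf_large (by omega : 3 ≤ L + 1), Jf_large (by omega : 3 ≤ L - 1),
      Nat.cast_sub (by omega : 1 ≤ L)]
    push_cast
    rw [← sub_nonneg]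
    have hd0 : (L : ℝ) + s ≠ 0 := by linarith
    have hL0 : (L : ℝ) ≠ 0 := by linarith
    have hL1 : (L : ℝ) + 1 ≠ 0 := by linarith
    have hL2 : (L : ℝ) - 1 ≠ 0 := by linarith
    have e : -(3 / 10) * (17 / (8 * (L : ℝ))) + L * (17 / (8 * (L : ℝ)) - 17 / (8 * (L + 1)))
        - (L : ℝ) / (L + s) * (17 / (8 * (L - 1)) - 17 / (8 * L))
        - 11 / 9 * (1 - 17 / (8 * (L : ℝ))) / (L + s)
        = (((L : ℝ) + s) * (17 * (7 * L - 3) * (L - 1) / 80)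
            - (L + 1) * ((11 / 9) * (L - 1) * (L - 17 / 8) + (17 / 8) * L))
          / (L * (L + 1) * (L - 1) * (L + s)) := by
      field_simp
      ring
    rw [e]
    apply div_nonneg
    · have h5 : ((L : ℝ) + 1) * (17 * (7 * L - 3) * (L - 1) / 80) ≤
          ((L : ℝ) + s) * (17 * (7 * L - 3) * (L - 1) / 80) := by
        apply mul_le_mul_of_nonneg_right (by linarith)
        have : 0 ≤ (7 * (L : ℝ) - 3) * (L - 1) := mul_nonneg (by linarith) (by linarith)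
        nlinarith
      have h6 : 0 ≤ 17 * (7 * (L : ℝ) - 3) * (L - 1) / 80
          - ((11 / 9) * (L - 1) * (L - 17 / 8) + (17 / 8) * L) := by
        nlinarith [mul_nonneg (by linarith : (0 : ℝ) ≤ (L : ℝ) - 4)
          (by linarith : (0 : ℝ) ≤ (L : ℝ) - 4)]
      nlinarith [mul_nonneg (by linarith : (0 : ℝ) ≤ (L : ℝ) + 1) h6]
    · apply mul_nonneg (mul_nonneg (mul_nonneg _ _) _) <;> linarith

lemma psi_zero (s : ℕ) : psi 0 s = 0 := by unfold psi; simp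

lemma psi_pos_eq {L : ℕ} (hL : 1 ≤ L) (s : ℕ) :
    psi L s = (20 * (L : ℝ) - 5) / (20 * L + 6 * s + 7) := by
  unfold psi; rw [if_neg (by omega)]

lemma psi_nonneg (L s : ℕ) : 0 ≤ psi L s := by
  rcases Nat.eq_zero_or_pos L with rfl | hL
  · rw [psi_zero]
  · have hL' : (1 : ℝ) ≤ L := by exact_mod_cast hL
    rw [psi_pos_eq hL]
    apply div_nonneg (by linarith) (by positivity)

lemma psi_le_one (L s : ℕ) : psi L s ≤ 1 := by
  rcases Nat.eq_zero_or_pos L with rfl | hL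
  · rw [psi_zero]; norm_num
  · have hs : (0 : ℝ) ≤ s := Nat.cast_nonneg s
    rw [psi_pos_eq hL, div_le_one (by positivity)]
    linarith

lemma psi_mono (L s : ℕ) : psi L s ≤ psi (L + 1) s := by
  rcases Nat.eq_zero_or_pos L with rfl | hL
  · rw [psi_zero]; exact psi_nonneg _ _
  · have hL' : (1 : ℝ) ≤ L := by exact_mod_cast hL
    have hs : (0 : ℝ) ≤ s := Nat.cast_nonneg s
    rw [psi_pos_eq hL, psi_pos_eq (by omega : 1 ≤ L + 1)]
    push_cast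
    rw [div_le_div_iff₀ (by positivity) (by positivity)]
    nlinarith

lemma psi_one : psi 1 1 = 5 / 11 := by unfold psi; norm_num

lemma psi_ge {L s : ℕ} (hL : 1 ≤ L) (hs : 1 ≤ s) :
    (L : ℝ) / ((L : ℝ) + s) ≤ (11 / 10) * psi L s := by
  obtain ⟨a, rfl⟩ : ∃ a, L = 1 + a := ⟨L - 1, by omega⟩
  obtain ⟨b, rfl⟩ : ∃ b, s = 1 + b := ⟨s - 1, by omega⟩
  rw [psi_pos_eq hL]
  push_cast
  have ha : (0 : ℝ) ≤ a := Nat.cast_nonneg a
  have hb : (0 : ℝ) ≤ b := Nat.cast_nonneg b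
  rw [← mul_div_assoc, div_le_div_iff₀ (by positivity) (by positivity)]
  nlinarith [mul_nonneg ha hb, mul_nonneg ha ha]

lemma psi_ineq {L s : ℕ} (hs : 1 ≤ s) (h : 2 ≤ L + s) {κ : ℝ} (h0 : 0 ≤ κ) :
    (9 / 20) * psi L s ≤ ((L : ℝ) + κ) * (psi (L + 1) s - psi L s)
      + ((L : ℝ) / ((L : ℝ) + s)) * (5 / 11 + psi (L - 1) (s + 1) - psi L s) := by
  have hm := psi_mono L s
  have hκ : (L : ℝ) * (psi (L + 1) s - psi L s) ≤ ((L : ℝ) + κ) * (psi (L + 1) s - psi L s) :=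
    mul_le_mul_of_nonneg_right (by linarith) (by linarith)
  refine le_trans ?_ (add_le_add_left hκ _)
  rcases Nat.eq_zero_or_pos L with rfl | hL
  · rw [psi_zero]; simp
  obtain ⟨b, rfl⟩ : ∃ b, s = 1 + b := ⟨s - 1, by omega⟩
  have hb : (0 : ℝ) ≤ b := Nat.cast_nonneg b
  rcases Nat.lt_or_ge L 2 with h1 | h1
  · have hL1 : L = 1 := by omega
    subst hL1
    rw [psi_pos_eq le_rfl, psi_pos_eq (by omega : 1 ≤ 1 + 1), Nat.sub_self, psi_zero]
    push_cast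
    rw [← sub_nonneg]
    have d1 : (20 * (1 : ℝ) + 6 * (1 + b) + 7) ≠ 0 := by positivity
    have d2 : (20 * (2 : ℝ) + 6 * (1 + b) + 7) ≠ 0 := by positivity
    have d3 : ((1 : ℝ) + (1 + b)) ≠ 0 := by positivity
    have e : (1 : ℝ) * ((20 * 2 - 5) / (20 * 2 + 6 * (1 + b) + 7)
          - (20 * 1 - 5) / (20 * 1 + 6 * (1 + b) + 7))
        + 1 / (1 + (1 + b)) * (5 / 11 + 0 - (20 * 1 - 5) / (20 * 1 + 6 * (1 + b) + 7))
        - 9 / 20 * ((20 * 1 - 5) / (20 * 1 + 6 * (1 + b) + 7))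
        = (990 + 67275 * b + 21090 * b ^ 2)
          / (220 * ((1 + (1 + b)) * (20 * 1 + 6 * (1 + b) + 7)
              * (20 * 2 + 6 * (1 + b) + 7))) := by
      field_simp
      ring
    rw [e]
    positivity
  · obtain ⟨a, rfl⟩ : ∃ a, L = 2 + a := ⟨L - 2, by omega⟩
    have ha : (0 : ℝ) ≤ a := Nat.cast_nonneg a
    rw [psi_pos_eq (by omega : 1 ≤ 2 + a), psi_pos_eq (by omega : 1 ≤ 2 + a + 1),
      show 2 + a - 1 = 1 + a by omega, psi_pos_eq (by omega : 1 ≤ 1 + a)]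
    push_cast
    rw [← sub_nonneg]
    have d1 : (20 * (2 + (a : ℝ)) + 6 * (1 + b) + 7) ≠ 0 := by positivity
    have d2 : (20 * (2 + (a : ℝ) + 1) + 6 * (1 + b) + 7) ≠ 0 := by positivity
    have d3 : (2 + (a : ℝ) + (1 + b)) ≠ 0 := by positivity
    have d4 : (20 * (1 + (a : ℝ)) + 6 * (1 + b + 1) + 7) ≠ 0 := by positivity
    have e : (2 + (a : ℝ)) * ((20 * (2 + a + 1) - 5) / (20 * (2 + a + 1) + 6 * (1 + b) + 7)
          - (20 * (2 + a) - 5) / (20 * (2 + a) + 6 * (1 + b) + 7))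
        + (2 + a) / (2 + a + (1 + b)) * (5 / 11
          + (20 * (1 + a) - 5) / (20 * (1 + a) + 6 * (1 + b + 1) + 7)
          - (20 * (2 + a) - 5) / (20 * (2 + a) + 6 * (1 + b) + 7))
        - 9 / 20 * ((20 * (2 + a) - 5) / (20 * (2 + a) + 6 * (1 + b) + 7))
        = (808035 + 3536505 * b + 2128500 * b ^ 2 + 235260 * b ^ 3 + 7083665 * a
            + 3872580 * a * b + 1719660 * a * b ^ 2 + 108720 * a * b ^ 3 + 5421340 * a ^ 2
            + 1033440 * a ^ 2 * b + 344400 * a ^ 2 * b ^ 2 + 1058800 * a ^ 3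
            + 8000 * a ^ 2 * (a - (6 / 5) * b) ^ 2)
          / (220 * ((2 + a + (1 + b)) * (20 * (2 + a) + 6 * (1 + b) + 7)
              * (20 * (2 + a + 1) + 6 * (1 + b) + 7)
              * (20 * (1 + a) + 6 * (1 + b + 1) + 7))) := by
      field_simp
      ring
    rw [e]
    positivity

end FT
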