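import Pool.Agent.FT.Grad

/-! # Module Var (friend tree, MP_5ccad8_pr) -/

open Finset MeasureTheory Filter Topology

namespace FT

lemma var_aux_gen_XU_le (S : St) : gen inhU XU (S, ()) ≤ XU (S, ()) := by
  unfold gen XU
  simp only [St.arr_V, sub_self, mul_zero, zero_add]
  calc ∑ v ∈ S.V, ((S.L v : ℝ) / S.d v) * (((S.bir v).V.card : ℝ) - (S.V.card : ℝ))
      ≤ ∑ v ∈ S.V, (1 : ℝ) := by
        apply sum_le_sum
        intro v hv
        have hd := St.d_pos hv
        by_cases hL : 0 < S.L v
        · rw [St.bir_V hv hL, card_insert_of_notMem (S.new_not_mem hv)]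
          push_cast
          rw [add_sub_cancel_left, mul_one, div_le_one hd]
          unfold St.d
          have : (0 : ℝ) ≤ S.s v := Nat.cast_nonneg _
          linarith
        · have h0 : S.L v = 0 := by omega
          simp [h0]
    _ = (S.V.card : ℝ) := by simp

lemma var_aux_pr (j m : ℕ) (hj : 0 < j) : pr 3 j m ^ 2 ≤ pr 15 j m := by
  unfold pr
  rw [← prod_pow]
  apply Finset.prod_le_prod
  · intro i _; positivity
  · intro i _
    have h1 : (1 : ℝ) ≤ ((j + i : ℕ) : ℝ) := by exact_mod_cast (by omega : 1 ≤ j + i)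
    set a : ℝ := ((j + i : ℕ) : ℝ)
    have ha : 0 < a := by linarith
    have h2 : 1 / a ≤ 1 := by rw [div_le_one ha]; exact h1
    have h3 : 0 ≤ 1 / a := by positivity
    have e3 : 3 / a = 3 * (1 / a) := by ring
    have e15 : 15 / a = 15 * (1 / a) := by ring
    rw [e3, e15]
    nlinarith

lemma var_aux_sq {C : Type*} {inh : St → W → C → C} (j : ℕ) (F : St × C → ℝ) (x : St × C) :
    Aop inh j (fun y => F y ^ 2) x - (Aop inh j F x) ^ 2
      ≤ (1 / (j : ℝ)) * ∑ v ∈ x.1.V, (((x.1.L v : ℝ) + x.1.κ v) * (F (x.1.arr v, x.2) - F x) ^ 2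
        + ((x.1.L v : ℝ) / x.1.d v) * (F (x.1.bir v, inh x.1 v x.2) - F x) ^ 2) := by
  have h : gen inh (fun y => F y ^ 2) x = 2 * F x * gen inh F x
      + ∑ v ∈ x.1.V, (((x.1.L v : ℝ) + x.1.κ v) * (F (x.1.arr v, x.2) - F x) ^ 2
        + ((x.1.L v : ℝ) / x.1.d v) * (F (x.1.bir v, inh x.1 v x.2) - F x) ^ 2) := by
    unfold gen
    rw [mul_sum, ← sum_add_distrib]
    apply sum_congr rfl
    intro v _
    ring
  unfold Aop
  rw [h]
  set g := gen inh F x
  set Γ := ∑ v ∈ x.1.V, (((x.1.L v : ℝ) + x.1.κ v) * (F (x.1.arr v, x.2) - F x) ^ 2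
        + ((x.1.L v : ℝ) / x.1.d v) * (F (x.1.bir v, inh x.1 v x.2) - F x) ^ 2)
  have : F x ^ 2 + 1 / (j : ℝ) * (2 * F x * g + Γ) - (F x + 1 / (j : ℝ) * g) ^ 2
      = 1 / (j : ℝ) * Γ - (1 / (j : ℝ) * g) ^ 2 := by ring
  rw [this]
  have := sq_nonneg (1 / (j : ℝ) * g)
  linarith

theorem var_bound (m j : ℕ) (S : St) (hj : 0 < j) (hn : S.n ≤ j) :
    U inhU m j (fun x => XU x ^ 2) (S, ()) - (U inhU m j XU (S, ())) ^ 2
      ≤ pr 15 j m * S.V.card := by
  induction m generalizing j S with
  | zero =>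
    rw [U_zero, U_zero, pr_zero]
    simp
  | succ m ih =>
    have hj' : (0 : ℝ) < j := by exact_mod_cast hj
    set c : ℝ := pr 15 (j + 1) m with hc
    have hc0 : 0 ≤ c := (pr_pos (by norm_num) _ _).le
    set F : St × Unit → ℝ := U inhU m (j + 1) XU with hF
    have h1 : U inhU (m + 1) j (fun x => XU x ^ 2) (S, ())
        ≤ Aop inhU j (fun y => F y ^ 2 + c * XU y) (S, ()) := by
      rw [U_succ]
      apply Aop_mono closed_true trivial hj hn
      rintro ⟨y, u⟩ _ hy
      have := ih (j + 1) y (by omega) (le_trans hy (by simpa using hn))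
      have hXU : XU (y, u) = (y.V.card : ℝ) := rfl
      rw [hXU]
      have hu : u = () := rfl
      subst hu
      linarith
    have h2 : Aop inhU j (fun y => F y ^ 2 + c * XU y) (S, ())
        = Aop inhU j (fun y => F y ^ 2) (S, ()) + c * Aop inhU j XU (S, ()) := by
      rw [Aop_add, Aop_smul]
    have h3 : Aop inhU j XU (S, ()) ≤ (1 + 1 / (j : ℝ)) * S.V.card := by
      unfold Aop
      have := var_aux_gen_XU_le S
      have hX : XU (S, ()) = (S.V.card : ℝ) := rfl
      rw [hX] at this ⊢
      have h := mul_le_mul_of_nonneg_left this (by positivity : (0 : ℝ) ≤ 1 / (j : ℝ))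
      linarith
    have h4 := var_aux_sq (inh := inhU) j F (S, ())
    have hU : U inhU (m + 1) j XU (S, ()) = Aop inhU j F (S, ()) := by rw [U_succ]
    have hΓ : ∑ v ∈ S.V, (((S.L v : ℝ) + S.κ v) * (F (S.arr v, ()) - F (S, ())) ^ 2
        + ((S.L v : ℝ) / S.d v) * (F (S.bir v, inhU S v ()) - F (S, ())) ^ 2)
        ≤ (3 / 2) * c * S.V.card := by
      calc _ ≤ ∑ v ∈ S.V, (3 / 2) * c := by
            apply sum_le_sum
            intro v hv
            have hg := grad m (j + 1) S v hv (by omega) (by omega)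
            set l : ℝ := pr 3 (j + 1) m with hl
            have hl0 : 0 ≤ l := (pr_pos (by norm_num) _ _).le
            have hlc : l ^ 2 ≤ c := var_aux_pr (j + 1) m (by omega)
            have hd := St.two_le_d hv
            have hd0 : 0 < S.d v := by linarith
            have hκ := St.κ_le_s hv
            have hdd : S.d v = (S.L v : ℝ) + S.s v := rfl
            have hs0 : (0 : ℝ) ≤ S.s v := Nat.cast_nonneg _
            have hL0 : (0 : ℝ) ≤ S.L v := Nat.cast_nonneg _
            have hκ0 := S.κ_nonneg v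
            have ha : ((S.L v : ℝ) + S.κ v) * (F (S.arr v, ()) - F (S, ())) ^ 2 ≤ (1 / 2) * c := by
              have e1 : (F (S.arr v, ()) - F (S, ())) ^ 2 ≤ (l / S.d v) ^ 2 := by
                rw [← sq_abs]
                exact pow_le_pow_left₀ (abs_nonneg _) hg.1 2
              calc ((S.L v : ℝ) + S.κ v) * (F (S.arr v, ()) - F (S, ())) ^ 2
                  ≤ S.d v * (l / S.d v) ^ 2 := by
                    apply mul_le_mul _ e1 (sq_nonneg _) hd0.le
                    rw [hdd]; linarith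
                _ = l ^ 2 / S.d v := by field_simp
                _ ≤ l ^ 2 / 2 := by
                    apply div_le_div_of_nonneg_left (sq_nonneg _) two_pos hd
                _ ≤ (1 / 2) * c := by linarith
            have hb : ((S.L v : ℝ) / S.d v) * (F (S.bir v, inhU S v ()) - F (S, ())) ^ 2 ≤ c := by
              by_cases hL : 0 < S.L v
              · have e1 : (F (S.bir v, ()) - F (S, ())) ^ 2 ≤ l ^ 2 := by
                  rw [← sq_abs]
                  exact pow_le_pow_left₀ (abs_nonneg _) (hg.2 hL) 2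
                have e2 : (S.L v : ℝ) / S.d v ≤ 1 := by
                  rw [div_le_one hd0, hdd]; linarith
                calc ((S.L v : ℝ) / S.d v) * (F (S.bir v, inhU S v ()) - F (S, ())) ^ 2
                    ≤ 1 * l ^ 2 := by
                      apply mul_le_mul e2 e1 (sq_nonneg _) zero_le_one
                  _ ≤ c := by linarith
              · have h0 : S.L v = 0 := by omega
                rw [h0]; simpa using hc0
            linarith
        _ = (3 / 2) * c * S.V.card := by rw [sum_const, nsmul_eq_mul]; ring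
    have h5 : (1 / (j : ℝ)) * ∑ v ∈ S.V, (((S.L v : ℝ) + S.κ v) * (F (S.arr v, ()) - F (S, ())) ^ 2
        + ((S.L v : ℝ) / S.d v) * (F (S.bir v, inhU S v ()) - F (S, ())) ^ 2)
        ≤ (1 / (j : ℝ)) * ((3 / 2) * c * S.V.card) :=
      mul_le_mul_of_nonneg_left hΓ (by positivity)
    have h6 : c * Aop inhU j XU (S, ()) ≤ c * ((1 + 1 / (j : ℝ)) * S.V.card) :=
      mul_le_mul_of_nonneg_left h3 hc0
    rw [hU, pr_succ]
    have h7 : Aop inhU j (fun y => F y ^ 2) (S, ()) - (Aop inhU j F (S, ())) ^ 2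
        ≤ (1 / (j : ℝ)) * ((3 / 2) * c * S.V.card) := h4.trans h5
    have hcard : (0 : ℝ) ≤ S.V.card := Nat.cast_nonneg _
    have h8 : 0 ≤ (1 / (j : ℝ)) * (c * S.V.card) := by positivity
    calc U inhU (m + 1) j (fun x => XU x ^ 2) (S, ()) - (Aop inhU j F (S, ())) ^ 2
        ≤ (1 / (j : ℝ)) * ((3 / 2) * c * S.V.card) + c * ((1 + 1 / (j : ℝ)) * S.V.card) := by
          linarith
      _ ≤ (1 + 15 / (j : ℝ)) * c * S.V.card := by
          have : (1 + 15 / (j : ℝ)) * c * S.V.card
              = (1 / (j : ℝ)) * ((3 / 2) * c * S.V.card) + c * ((1 + 1 / (j : ℝ)) * S.V.card)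
                + (25 / 2) * ((1 / (j : ℝ)) * (c * S.V.card)) := by ring
          rw [this]; linarith

end FT
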