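import Pool.Agent.FT.Markov
import Pool.Agent.FT.Var
import Pool.Agent.FT.Pot
import Pool.Agent.FT.PrLim

/-! # Module LLN (friend tree, MP_5ccad8_pr) -/

open Finset MeasureTheory Filter Topology

namespace FT

variable {Ω : Type*} {m0 : MeasurableSpace Ω} {P : Measure Ω} [IsProbabilityMeasure P]
  {ℱ : Filtration ℕ m0} {S : ℕ → Ω → St} {μ : ℝ} {hh : St × Finset W → ℝ}

/-! ### the mean -/

lemma lln_aux_gen {x : St × Finset W} (hx : Sub x) :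
    gen inhA (fun z => ∑ y ∈ z.2, bet (z.1.L y) (z.1.s y)) x
      ≤ (4 / 5) * ∑ y ∈ x.2, bet (x.1.L y) (x.1.s y) := by
  rw [gen_additive (fun _ => true) bet hx, mul_sum]
  apply sum_le_sum
  intro y hy
  have hyV : y ∈ x.1.V := hx hy
  have h := bet_ineq3 (x.1.two_le y hyV) (x.1.κ_nonneg y) (St.κ_le_s hyV)
  rw [if_pos rfl, bet_one]
  refine le_trans (le_of_eq ?_) h
  unfold St.d
  ring

lemma lln_aux_mean0 (m : ℕ) : U inhU m 3 XU (start, ()) ≤ (5 / 3) * pr (4 / 5) 3 m := by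
  rw [← phi_V m 3 start]
  have hsub : Sub (start, start.V) := Finset.Subset.refl _
  have hn : (start, start.V).1.n ≤ 3 := by
    show start.n ≤ 3
    unfold St.n start
    simp
  have h1 : phi m 3 (start, start.V)
      ≤ U inhA m 3 (fun z => (3 / 4) * ∑ y ∈ z.2, bet (z.1.L y) (z.1.s y)) (start, start.V) := by
    unfold phi
    apply U_mono (closed_sub (fun _ => true)) m hsub (by norm_num) hn
    intro y hy _
    unfold card
    rw [Finset.card_eq_sum_ones, mul_sum]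
    push_cast
    apply sum_le_sum
    intro v hv
    have := bet_lower (y.1.two_le v (hy hv))
    linarith
  rw [U_smul] at h1
  have h2 := U_le_pr (inh := inhA) (closed_sub (fun _ => true)) (F := fun z : St × Finset W => ∑ y ∈ z.2, bet (z.1.L y) (z.1.s y))
    (lam := 4 / 5) (by norm_num) (fun y hy => lln_aux_gen hy) m hsub (by norm_num : 0 < 3) hn
  have h3 : ∑ y ∈ start.V, bet (start.L y) (start.s y) ≤ 20 / 9 := by
    have : start.V = {[]} := rfl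
    rw [this, sum_singleton]
    exact bet_upper _ _
  have h4 : 0 ≤ pr (4 / 5) 3 m := (pr_pos (by norm_num) 3 m).le
  have h5 : pr (4 / 5) 3 m * ∑ y ∈ start.V, bet (start.L y) (start.s y)
      ≤ pr (4 / 5) 3 m * (20 / 9) := mul_le_mul_of_nonneg_left h3 h4
  have h6 := h2.trans h5
  linarith

/-! ### integrability -/

omit [IsProbabilityMeasure P] in
lemma lln_aux_meas (hS : IsChain P ℱ S) {n : ℕ} (hn : 3 ≤ n) (Φ : St → ℝ) :
    AEStronglyMeasurable (fun ω => Φ (S n ω)) P :=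
  ((hS.meas n hn Φ).mono (ℱ.le n)).aestronglyMeasurable

lemma lln_aux_int (hS : IsChain P ℱ S) {n : ℕ} (hn : 3 ≤ n) (Φ : St → ℝ) :
    Integrable (fun ω => Φ (S n ω)) P := by
  obtain ⟨c, hc⟩ := hS.bdd n hn Φ
  exact Integrable.of_bound (lln_aux_meas hS hn Φ) c hc

lemma lln_aux_int2 (hS : IsChain P ℱ S) {n N : ℕ} (hn : 3 ≤ n) (hN : 3 ≤ N) (Φ Ψ : St → ℝ) :
    Integrable (fun ω => Φ (S n ω) * Ψ (S N ω)) P := by
  obtain ⟨c, hc⟩ := hS.bdd n hn Φ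
  obtain ⟨c', hc'⟩ := hS.bdd N hN Ψ
  refine Integrable.of_bound ((lln_aux_meas hS hn Φ).mul (lln_aux_meas hS hN Ψ)) (c * c') ?_
  filter_upwards [hc, hc'] with ω h1 h2
  rw [norm_mul, Real.norm_eq_abs, Real.norm_eq_abs]
  exact mul_le_mul h1 h2 (abs_nonneg _) ((abs_nonneg _).trans h1)

lemma lln_aux_mean (hS : IsChain P ℱ S) {n : ℕ} (hn : 3 ≤ n) :
    ∫ ω, ((S n ω).V.card : ℝ) ∂P ≤ (5 / 3) * pr (4 / 5) 3 (n - 3) := by
  obtain ⟨m, rfl⟩ := Nat.exists_eq_add_of_le hn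
  rw [Nat.add_sub_cancel_left]
  have h1 := markov_multi hS 3 m le_rfl (fun T => (T.V.card : ℝ))
  have h2 : ∫ ω, ((S (3 + m) ω).V.card : ℝ) ∂P
      = ∫ ω, (P[fun ω => ((S (3 + m) ω).V.card : ℝ) | ℱ 3]) ω ∂P :=
    (integral_condExp (ℱ.le 3)).symm
  rw [h2, integral_congr_ae h1]
  have h3 : (fun ω => U inhU m 3 (fun x => (x.1.V.card : ℝ)) (S 3 ω, ()))
      =ᵐ[P] fun _ => U inhU m 3 XU (start, ()) := by
    filter_upwards [hS.zero] with ω hω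
    rw [hω]; rfl
  rw [integral_congr_ae h3]
  simp only [integral_const, probReal_univ, smul_eq_mul, one_mul]
  exact lln_aux_mean0 m

/-! ### the variance -/

lemma lln_aux_sq (hS : IsChain P ℱ S) {n : ℕ} (hn : 3 ≤ n) (m : ℕ) :
    Integrable (fun ω => (((S (n + m) ω).V.card : ℝ) - U inhU m n XU (S n ω, ())) ^ 2) P ∧
    ∫ ω, (((S (n + m) ω).V.card : ℝ) - U inhU m n XU (S n ω, ())) ^ 2 ∂P
      ≤ pr 15 n m * ∫ ω, ((S n ω).V.card : ℝ) ∂P := by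
  set u : St → ℝ := fun T => U inhU m n XU (T, ()) with hu
  set X : St → ℝ := fun T => (T.V.card : ℝ) with hX
  have hN : 3 ≤ n + m := by omega
  have i1 : Integrable (fun ω => (X (S (n + m) ω)) ^ 2) P := lln_aux_int hS hN (fun T => (X T) ^ 2)
  have i2 : Integrable (fun ω => u (S n ω) * X (S (n + m) ω)) P := lln_aux_int2 hS hn hN u X
  have i3 : Integrable (fun ω => (u (S n ω)) ^ 2) P := lln_aux_int hS hn (fun T => (u T) ^ 2)
  have e0 : (fun ω => (((S (n + m) ω).V.card : ℝ) - U inhU m n XU (S n ω, ())) ^ 2)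
      = fun ω => (X (S (n + m) ω)) ^ 2 - 2 * (u (S n ω) * X (S (n + m) ω)) + (u (S n ω)) ^ 2 := by
    funext ω
    simp only [hu, hX]
    ring
  rw [e0]
  refine ⟨(i1.sub (i2.const_mul 2)).add i3, ?_⟩
  have e1 : ∫ ω, (X (S (n + m) ω)) ^ 2 ∂P
      = ∫ ω, U inhU m n (fun x => XU x ^ 2) (S n ω, ()) ∂P := by
    have h1 : ∫ ω, (X (S (n + m) ω)) ^ 2 ∂P
        = ∫ ω, (P[fun ω => (X (S (n + m) ω)) ^ 2 | ℱ n]) ω ∂P :=
      (integral_condExp (ℱ.le n)).symm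
    rw [h1, integral_congr_ae (markov_multi hS n m hn (fun T => (X T) ^ 2))]
    rfl
  have e2 : ∫ ω, u (S n ω) * X (S (n + m) ω) ∂P = ∫ ω, (u (S n ω)) ^ 2 ∂P := by
    have h1 := markov_multi hS n m hn X
    have h2 : P[(fun ω => u (S n ω)) * (fun ω => X (S (n + m) ω)) | ℱ n]
        =ᵐ[P] (fun ω => u (S n ω)) * P[fun ω => X (S (n + m) ω) | ℱ n] :=
      condExp_mul_of_stronglyMeasurable_left (hS.meas n hn u) i2 (lln_aux_int hS hN X)
    have h3 : ∫ ω, u (S n ω) * X (S (n + m) ω) ∂P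
        = ∫ ω, (P[(fun ω => u (S n ω)) * (fun ω => X (S (n + m) ω)) | ℱ n]) ω ∂P :=
      (integral_condExp (ℱ.le n)).symm
    rw [h3, integral_congr_ae h2]
    apply integral_congr_ae
    filter_upwards [h1] with ω hω
    simp only [Pi.mul_apply]
    rw [hω]
    simp only [hu, hX]
    rw [sq]; rfl
  have e3 : ∫ ω, ((X (S (n + m) ω)) ^ 2 - 2 * (u (S n ω) * X (S (n + m) ω)) + (u (S n ω)) ^ 2) ∂P
      = ∫ ω, (U inhU m n (fun x => XU x ^ 2) (S n ω, ()) - (u (S n ω)) ^ 2) ∂P := by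
    have j1 : Integrable (fun ω => U inhU m n (fun x => XU x ^ 2) (S n ω, ())) P :=
      lln_aux_int hS hn (fun T => U inhU m n (fun x => XU x ^ 2) (T, ()))
    rw [integral_sub j1 i3]
    have := integral_add (i1.sub (i2.const_mul 2)) i3
    have h4 := integral_sub i1 (i2.const_mul 2)
    simp only [Pi.sub_apply] at this
    rw [this, h4, integral_const_mul, e1, e2]
    ring
  rw [e3, ← integral_const_mul]
  apply integral_mono_ae
  · exact (lln_aux_int hS hn (fun T => U inhU m n (fun x => XU x ^ 2) (T, ()))).sub i3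
  · exact (lln_aux_int hS hn X).const_mul _
  · filter_upwards [hS.full n hn] with ω hω
    exact var_bound m n (S n ω) (by omega) hω.2.1.le

/-! ### summation -/

omit [IsProbabilityMeasure P] in
/-- if the second moments are dominated by a geometric series then the sequence tends to zero -/
lemma lln_aux_as {D : ℕ → Ω → ℝ} {C r : ℝ} (hC : 0 ≤ C) (hr0 : 0 ≤ r) (hr1 : r < 1)
    (hint : ∀ k, Integrable (fun ω => (D k ω) ^ 2) P)
    (hle : ∀ k, ∫ ω, (D k ω) ^ 2 ∂P ≤ C * r ^ k) :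
    ∀ᵐ ω ∂P, Tendsto (fun k => D k ω) atTop (𝓝 0) := by
  have h1 : ∫⁻ ω, ∑' k, ENNReal.ofReal ((D k ω) ^ 2) ∂P ≠ ⊤ := by
    rw [lintegral_tsum (fun k => (hint k).aestronglyMeasurable.aemeasurable.ennreal_ofReal)]
    have h2 : ∀ k, ∫⁻ ω, ENNReal.ofReal ((D k ω) ^ 2) ∂P ≤ ENNReal.ofReal (C * r ^ k) := by
      intro k
      rw [← ofReal_integral_eq_lintegral_ofReal (hint k) (ae_of_all _ fun ω => sq_nonneg _)]
      exact ENNReal.ofReal_le_ofReal (hle k)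
    refine ne_top_of_le_ne_top ?_ (ENNReal.tsum_le_tsum h2)
    rw [← ENNReal.ofReal_tsum_of_nonneg (fun k => by positivity)
      ((summable_geometric_of_lt_one hr0 hr1).mul_left C)]
    exact ENNReal.ofReal_ne_top
  have h3 := ae_lt_top' (AEMeasurable.tsum
    (fun k => (hint k).aestronglyMeasurable.aemeasurable.ennreal_ofReal)) h1
  filter_upwards [h3] with ω hω
  have h4 := ENNReal.tendsto_atTop_zero_of_tsum_ne_top hω.ne
  have h5 := (ENNReal.tendsto_toReal ENNReal.zero_ne_top).comp h4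
  have h6 : Tendsto (fun k => (D k ω) ^ 2) atTop (𝓝 0) := by
    refine h5.congr fun k => ?_
    simp only [Function.comp]
    rw [ENNReal.toReal_ofReal (sq_nonneg _)]
  have h7 := h6.sqrt
  rw [Real.sqrt_zero] at h7
  rw [tendsto_zero_iff_abs_tendsto_zero]
  refine h7.congr fun k => ?_
  rw [Real.sqrt_sq_eq_abs]; rfl

theorem lln (hS : IsChain P ℱ S) (hμ : Expo μ) (q J : ℕ) (hq : 1 ≤ q) :
    ∀ᵐ ω ∂P, Tendsto (fun k : ℕ =>
      (((S ⌈(1 + 1 / (q : ℝ)) ^ (k + J)⌉₊ ω).V.card : ℝ)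
        - U inhU (⌈(1 + 1 / (q : ℝ)) ^ (k + J)⌉₊ - ⌈(1 + 1 / (q : ℝ)) ^ k⌉₊)
            ⌈(1 + 1 / (q : ℝ)) ^ k⌉₊ XU (S ⌈(1 + 1 / (q : ℝ)) ^ k⌉₊ ω, ()))
      / (⌈(1 + 1 / (q : ℝ)) ^ (k + J)⌉₊ : ℝ) ^ μ) atTop (𝓝 0) := by
  have hq' : (0 : ℝ) < q := by exact_mod_cast hq
  set ρ : ℝ := 1 + 1 / (q : ℝ) with hρ
  have hρ1 : 1 < ρ := by rw [hρ]; have : (0 : ℝ) < 1 / q := by positivity
                         linarith
  have hρ0 : 0 < ρ := by linarith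
  obtain ⟨C1, hC1, hpr1⟩ := pr_bounds (μ := 15) (by norm_num)
  obtain ⟨C2, hC2, hpr2⟩ := pr_bounds (μ := 4 / 5) (by norm_num)
  -- choose the starting index
  obtain ⟨k0, hk0⟩ : ∃ k0 : ℕ, 3 ≤ ρ ^ k0 := by
    obtain ⟨k0, h⟩ := ((tendsto_pow_atTop_atTop_of_one_lt hρ1).eventually (eventually_ge_atTop 3)).exists
    exact ⟨k0, h⟩
  have hpos : ∀ k : ℕ, 0 < ρ ^ k := fun k => pow_pos hρ0 k
  have hmono : ∀ {a b : ℕ}, a ≤ b → ρ ^ a ≤ ρ ^ b := fun h => pow_le_pow_right₀ hρ1.le h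
  have hn3 : ∀ k : ℕ, 3 ≤ ⌈ρ ^ (k + k0)⌉₊ := by
    intro k
    have h1 : (3 : ℝ) ≤ ⌈ρ ^ (k + k0)⌉₊ := by
      refine le_trans ?_ (Nat.le_ceil _)
      exact hk0.trans (hmono (by omega))
    exact_mod_cast h1
  have hnN : ∀ k : ℕ, ⌈ρ ^ k⌉₊ ≤ ⌈ρ ^ (k + J)⌉₊ := fun k => Nat.ceil_mono (hmono (by omega))
  set r : ℝ := ρ ^ (-(1 / 10) : ℝ) with hr
  have hr0 : 0 < r := Real.rpow_pos_of_pos hρ0 _
  have hr1 : r < 1 := Real.rpow_lt_one_of_one_lt_of_neg hρ1 (by norm_num)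
  set C : ℝ := C1 * (2 * ρ ^ J) ^ (15 : ℝ) * (5 / 3 * C2) with hC
  have hC0 : 0 ≤ C := by positivity
  -- the second moments
  have key : ∀ k : ℕ, Integrable (fun ω =>
      ((((S ⌈ρ ^ (k + k0 + J)⌉₊ ω).V.card : ℝ)
        - U inhU (⌈ρ ^ (k + k0 + J)⌉₊ - ⌈ρ ^ (k + k0)⌉₊) ⌈ρ ^ (k + k0)⌉₊ XU
            (S ⌈ρ ^ (k + k0)⌉₊ ω, ())) / (⌈ρ ^ (k + k0 + J)⌉₊ : ℝ) ^ μ) ^ 2) P ∧
      ∫ ω, ((((S ⌈ρ ^ (k + k0 + J)⌉₊ ω).V.card : ℝ)
        - U inhU (⌈ρ ^ (k + k0 + J)⌉₊ - ⌈ρ ^ (k + k0)⌉₊) ⌈ρ ^ (k + k0)⌉₊ XU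
            (S ⌈ρ ^ (k + k0)⌉₊ ω, ())) / (⌈ρ ^ (k + k0 + J)⌉₊ : ℝ) ^ μ) ^ 2 ∂P
        ≤ C * r ^ k := by
    intro k
    obtain ⟨m, hm⟩ := Nat.exists_eq_add_of_le (hnN (k + k0))
    set n : ℕ := ⌈ρ ^ (k + k0)⌉₊ with hn
    rw [hm, Nat.add_sub_cancel_left]
    have h3 : 3 ≤ n := hn3 k
    have hnpos : (0 : ℝ) < n := by exact_mod_cast (by omega : 0 < n)
    have hn1 : (1 : ℝ) ≤ n := by exact_mod_cast (by omega : 1 ≤ n)
    obtain ⟨hi, hb⟩ := lln_aux_sq hS h3 m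
    have hNpos : (0 : ℝ) < ((n + m : ℕ) : ℝ) := by exact_mod_cast (by omega : 0 < n + m)
    have hNμ : 0 < ((n + m : ℕ) : ℝ) ^ μ := Real.rpow_pos_of_pos hNpos _
    have e1 : (fun ω => ((((S (n + m) ω).V.card : ℝ) - U inhU m n XU (S n ω, ()))
        / ((n + m : ℕ) : ℝ) ^ μ) ^ 2)
        = fun ω => (((n + m : ℕ) : ℝ) ^ μ ^ 2)⁻¹ * 1 * 0 + ((((n + m : ℕ) : ℝ) ^ μ) ^ 2)⁻¹
          * (((S (n + m) ω).V.card : ℝ) - U inhU m n XU (S n ω, ())) ^ 2 := by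
      funext ω
      rw [div_pow, div_eq_inv_mul]; ring
    simp only [mul_zero, zero_add] at e1
    rw [e1]
    refine ⟨hi.const_mul _, ?_⟩
    rw [integral_const_mul]
    -- numerical estimates
    have hmean := lln_aux_mean hS h3
    have hp1 := (hpr1 n m (by omega)).2
    have hp2 := (hpr2 3 (n - 3) (by norm_num)).2
    rw [show 3 + (n - 3) = n by omega] at hp2
    have hR : ((n + m : ℕ) : ℝ) / n ≤ 2 * ρ ^ J := by
      rw [← hm, div_le_iff₀ hnpos]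
      have h1 : (⌈ρ ^ (k + k0 + J)⌉₊ : ℝ) < ρ ^ (k + k0 + J) + 1 := Nat.ceil_lt_add_one (hpos _).le
      have h2 : ρ ^ (k + k0) ≤ n := Nat.le_ceil _
      have h3' : 1 ≤ ρ ^ (k + k0 + J) := one_le_pow₀ hρ1.le
      have h4 : ρ ^ (k + k0 + J) = ρ ^ J * ρ ^ (k + k0) := by rw [pow_add, mul_comm]
      have h5 : ρ ^ J * ρ ^ (k + k0) ≤ ρ ^ J * n := mul_le_mul_of_nonneg_left h2 (hpos J).le
      linarith
    have hp1' : pr 15 n m ≤ C1 * (2 * ρ ^ J) ^ (15 : ℝ) := by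
      refine hp1.trans (mul_le_mul_of_nonneg_left ?_ hC1.le)
      exact Real.rpow_le_rpow (by positivity) hR (by norm_num)
    have hp2' : pr (4 / 5) 3 (n - 3) ≤ C2 * (n : ℝ) ^ (4 / 5 : ℝ) := by
      refine hp2.trans (mul_le_mul_of_nonneg_left ?_ hC2.le)
      apply Real.rpow_le_rpow (by positivity) _ (by norm_num)
      push_cast
      rw [div_le_iff₀ (by norm_num)]
      linarith
    have hE0 : 0 ≤ ∫ ω, ((S n ω).V.card : ℝ) ∂P := integral_nonneg fun ω => Nat.cast_nonneg _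
    have hb' : ∫ ω, (((S (n + m) ω).V.card : ℝ) - U inhU m n XU (S n ω, ())) ^ 2 ∂P
        ≤ C * (n : ℝ) ^ (4 / 5 : ℝ) := by
      calc _ ≤ _ := hb
        _ ≤ (C1 * (2 * ρ ^ J) ^ (15 : ℝ)) * ((5 / 3) * (C2 * (n : ℝ) ^ (4 / 5 : ℝ))) := by
            apply mul_le_mul hp1' _ hE0 (by positivity)
            exact hmean.trans (mul_le_mul_of_nonneg_left hp2' (by norm_num))
        _ = _ := by rw [hC]; ring
    have hden : (n : ℝ) ^ (9 / 10 : ℝ) ≤ (((n + m : ℕ) : ℝ) ^ μ) ^ 2 := by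
      have h1 : (n : ℝ) ^ (9 / 20 : ℝ) ≤ ((n + m : ℕ) : ℝ) ^ μ := by
        calc (n : ℝ) ^ (9 / 20 : ℝ) ≤ (n : ℝ) ^ μ := Real.rpow_le_rpow_of_exponent_le hn1 hμ.1
          _ ≤ _ := by
            apply Real.rpow_le_rpow hnpos.le _ (le_trans (by norm_num) hμ.1)
            push_cast
            have : (0 : ℝ) ≤ m := Nat.cast_nonneg _
            linarith
      have h2 : (n : ℝ) ^ (9 / 10 : ℝ) = ((n : ℝ) ^ (9 / 20 : ℝ)) ^ 2 := by
        rw [← Real.rpow_natCast, ← Real.rpow_mul hnpos.le]; norm_num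
      rw [h2]
      exact pow_le_pow_left₀ (by positivity) h1 2
    have hfin : (n : ℝ) ^ (4 / 5 : ℝ) ≤ r ^ k * (((n + m : ℕ) : ℝ) ^ μ) ^ 2 := by
      have h1 : (n : ℝ) ^ (-(1 / 10) : ℝ) ≤ r ^ k := by
        have h2 : r ^ k = (ρ ^ k) ^ (-(1 / 10) : ℝ) := by
          rw [hr, ← Real.rpow_natCast, ← Real.rpow_natCast, ← Real.rpow_mul hρ0.le,
            ← Real.rpow_mul hρ0.le, mul_comm]
        rw [h2]
        apply Real.rpow_le_rpow_of_nonpos (hpos k) _ (by norm_num)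
        exact (hmono (by omega)).trans (Nat.le_ceil (ρ ^ (k + k0)))
      have h3' : (n : ℝ) ^ (4 / 5 : ℝ) = (n : ℝ) ^ (-(1 / 10) : ℝ) * (n : ℝ) ^ (9 / 10 : ℝ) := by
        rw [← Real.rpow_add hnpos]; norm_num
      rw [h3']
      exact mul_le_mul h1 hden (by positivity) (by positivity)
    have hden0 : 0 < (((n + m : ℕ) : ℝ) ^ μ) ^ 2 := by positivity
    rw [inv_mul_le_iff₀ hden0]
    calc _ ≤ _ := hb'
      _ ≤ C * (r ^ k * (((n + m : ℕ) : ℝ) ^ μ) ^ 2) := mul_le_mul_of_nonneg_left hfin hC0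
      _ = _ := by ring
  have hmain := lln_aux_as hC0 hr0.le hr1 (fun k => (key k).1) (fun k => (key k).2)
  filter_upwards [hmain] with ω hω
  rw [← tendsto_add_atTop_iff_nat k0]
  exact hω

end FT
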