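import Pool.Agent.FT.Markov

/-! # Module Mart (friend tree, MP_5ccad8_pr) -/

open Finset MeasureTheory Filter Topology

namespace FT

variable {Ω : Type*} {m0 : MeasurableSpace Ω} {P : Measure Ω} [IsProbabilityMeasure P]
  {ℱ : Filtration ℕ m0} {S : ℕ → Ω → St} {μ : ℝ} {hh : St × Finset W → ℝ}

/-- the one step operator on `S ↦ hh (S, V)` -/
lemma mart_aux_Aop (hE : Eig μ hh) (n : ℕ) (T : St) :
    Aop inhU n (fun x : St × Unit => hh (x.1, x.1.V)) (T, ()) = (1 + μ / n) * hh (T, T.V) := by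
  have hg : gen inhU (fun x : St × Unit => hh (x.1, x.1.V)) (T, ()) = gen inhA hh (T, T.V) := by
    unfold gen
    apply sum_congr rfl
    intro v hv
    simp only at hv
    simp only [St.arr_V]
    by_cases hL : 0 < T.L v
    · have : inhA T v T.V = insert (T.new v) T.V := by simp [inhT, hv]
      rw [this, St.bir_V hv hL]
    · have h0 : T.L v = 0 := by omega
      simp [h0]
  unfold Aop
  rw [hg, hE.gen (T, T.V) (by unfold Sub; exact subset_rfl)]
  ring

theorem mart (hS : IsChain P ℱ S) (hμ : Expo μ) (hE : Eig μ hh) :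
    ∃ M : Ω → ℝ, StronglyMeasurable[⨆ n, ℱ n] M ∧ (∀ ω, 0 ≤ M ω) ∧
      ∀ᵐ ω ∂P, Tendsto (fun n => hh (S n ω, (S n ω).V) / pr μ 3 (n - 3)) atTop (𝓝 (M ω)) := by
  have hμ0 : 0 ≤ μ := le_trans (by norm_num) hμ.1
  -- the shifted filtration
  let 𝒢 : Filtration ℕ m0 :=
    { seq := fun n => ℱ (n + 3)
      mono' := fun i j hij => ℱ.mono (by omega)
      le' := fun n => ℱ.le _ }
  let Ψ : St → ℝ := fun T => hh (T, T.V)
  let f : ℕ → Ω → ℝ := fun n ω => Ψ (S (n + 3) ω) / pr μ 3 n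
  have hΨ0 : ∀ T, 0 ≤ Ψ T := fun T => hE.nonneg (T, T.V) (by unfold Sub; exact subset_rfl)
  have hf0 : ∀ n ω, 0 ≤ f n ω := fun n ω => div_nonneg (hΨ0 _) (pr_pos hμ0 3 n).le
  have hmeas : ∀ n, StronglyMeasurable[𝒢 n] (f n) := fun n => by
    have h := hS.meas (n + 3) (by omega) Ψ
    have h' : StronglyMeasurable[ℱ (n + 3)] (fun ω => (pr μ 3 n)⁻¹ * Ψ (S (n + 3) ω)) :=
      StronglyMeasurable.const_mul h _
    have e : f n = fun ω => (pr μ 3 n)⁻¹ * Ψ (S (n + 3) ω) := by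
      funext ω; simp only [f]; rw [div_eq_inv_mul]
    rw [e]
    exact h'
  have hbd : ∀ n, ∃ c : ℝ, ∀ᵐ ω ∂P, |Ψ (S (n + 3) ω)| ≤ c := fun n => hS.bdd (n + 3) (by omega) Ψ
  have hΨint : ∀ n, Integrable (fun ω => Ψ (S (n + 3) ω)) P := fun n => by
    obtain ⟨c, hc⟩ := hbd n
    exact Integrable.of_bound ((hS.meas (n + 3) (by omega) Ψ).mono (ℱ.le _)).aestronglyMeasurable c
      (by simpa [Real.norm_eq_abs] using hc)
  have hfint : ∀ n, Integrable (f n) P := fun n => (hΨint n).div_const _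
  have hM : Martingale f 𝒢 P := by
    apply martingale_nat
    · exact hmeas
    · exact hfint
    · intro n
      have h1 := hS.markov (n + 3) (by omega) Ψ
      have h2 : P[f (n + 1) | 𝒢 n] =ᵐ[P]
          fun ω => (pr μ 3 (n + 1))⁻¹ * (P[fun ω => Ψ (S (n + 3 + 1) ω) | ℱ (n + 3)]) ω := by
        have e : f (n + 1) = (pr μ 3 (n + 1))⁻¹ • (fun ω => Ψ (S (n + 3 + 1) ω)) := by
          funext ω
          simp only [f, Pi.smul_apply, smul_eq_mul]
          rw [show n + 1 + 3 = n + 3 + 1 by ring, div_eq_inv_mul]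
        rw [e]
        exact condExp_smul _ _ _
      refine (h2.trans ?_).symm
      filter_upwards [h1] with ω hω
      rw [hω]
      have h3 := mart_aux_Aop hE (n + 3) (S (n + 3) ω)
      have h4 : Aop inhU (n + 3) (fun x : St × Unit => Ψ x.1) (S (n + 3) ω, ())
          = (1 + μ / ((n + 3 : ℕ) : ℝ)) * Ψ (S (n + 3) ω) := h3
      rw [h4, pr_succ_last]
      have hp := (pr_pos hμ0 3 n).ne'
      have hq : (1 + μ / ((n + 3 : ℕ) : ℝ)) ≠ 0 := by positivity
      rw [show (3 + n : ℕ) = n + 3 by ring]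
      simp only [f]
      field_simp
  -- bounded in L¹
  have hL1 : ∀ n, eLpNorm (f n) 1 P ≤ ENNReal.ofReal (∫ ω, f 0 ω ∂P) := by
    intro n
    rw [eLpNorm_one_eq_lintegral_enorm]
    have h5 : ∫ ω, f n ω ∂P = ∫ ω, f 0 ω ∂P := by
      have h6 := hM.setIntegral_eq (i := 0) (j := n) (Nat.zero_le n) (s := Set.univ)
        MeasurableSet.univ
      simpa using h6.symm
    rw [← h5, ofReal_integral_eq_lintegral_ofReal (hfint n) (ae_of_all _ (hf0 n))]
    apply lintegral_mono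
    intro ω
    simp only
    rw [Real.enorm_eq_ofReal (hf0 n ω)]
  have hR : ∀ n, eLpNorm (f n) 1 P ≤ ((∫ ω, f 0 ω ∂P).toNNReal : ENNReal) := by
    intro n
    exact hL1 n
  have hconv := hM.submartingale.ae_tendsto_limitProcess hR
  refine ⟨fun ω => |𝒢.limitProcess f P ω|, ?_, fun ω => abs_nonneg _, ?_⟩
  · have h7 : StronglyMeasurable[⨆ n, 𝒢 n] (𝒢.limitProcess f P) :=
      Filtration.stronglyMeasurable_limitProcess
    have h8 : (⨆ n, 𝒢 n) ≤ ⨆ n, ℱ n := iSup_le fun n => le_iSup (fun n => (ℱ n : MeasurableSpace Ω)) (n + 3)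
    exact (h7.mono h8).norm
  · filter_upwards [hconv] with ω hω
    have h9 : Tendsto (fun n => f n ω) atTop (𝓝 |𝒢.limitProcess f P ω|) := by
      have := hω.abs
      simpa [abs_of_nonneg (hf0 _ ω)] using this
    rw [← tendsto_add_atTop_iff_nat 3]
    simpa [f, Ψ] using h9

end FT
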