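import Pool.Agent.FT.Markov
import Pool.Agent.FT.PrLim

/-! # Module NonConst (friend tree, MP_5ccad8_pr) -/

open Finset MeasureTheory Filter Topology

namespace FT

variable {Ω : Type*} {m0 : MeasurableSpace Ω} {P : Measure Ω} [IsProbabilityMeasure P]
  {ℱ : Filtration ℕ m0} {S : ℕ → Ω → St} {μ : ℝ} {hh : St × Finset W → ℝ}

lemma nonconst_aux_V (F : St × Finset W → ℝ) (m j : ℕ) (S : St) :
    U inhU m j (fun x => F (x.1, x.1.V)) (S, ()) = U inhA m j F (S, S.V) := by
  have hcl : Closed inhA (fun x : St × Finset W => x.2 = x.1.V) :=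
    { arr := fun x hx v _ => by simpa using hx
      bir := fun x hx v hv hL => by
        rw [St.bir_V hv hL, ← hx]
        simp [inhT, hx, hv] }
  rw [← U_forget (inh := inhA) (fun x => F (x.1, x.1.V)) m j (S, S.V)]
  apply U_congr hcl m rfl
  intro y hy _
  have : (y.1, y.1.V) = y := by rw [← hy]
  show F (y.1, y.1.V) = F y
  rw [this]

lemma nonconst_aux_hV (hμ : 9 / 20 ≤ μ) (hE : Eig μ hh) (m : ℕ) {j : ℕ} {S : St} (hj : 0 < j)
    (hn : S.n ≤ j) :
    U inhU m j (fun x => hh (x.1, x.1.V)) (S, ()) = pr μ j m * hh (S, S.V) := by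
  rw [nonconst_aux_V]
  have hx : Sub (S, S.V) := Finset.Subset.refl S.V
  apply le_antisymm
  · exact U_le_pr (closed_sub _) (by linarith) (fun y hy => (hE.gen y hy).le) m hx hj hn
  · exact pr_le_U (closed_sub _) (by linarith) (fun y hy => (hE.gen y hy).ge) m hx hj hn

/-- the indicator of the states with one core vertex -/
noncomputable def nonconst_I (S : St) : ℝ := if S.V.card = 1 then 1 else 0

lemma nonconst_aux_gen (x : St × Unit) :
    (-1 : ℝ) * nonconst_I x.1 ≤ gen inhU (fun x => nonconst_I x.1) x := by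
  obtain ⟨S, u⟩ := x
  show (-1 : ℝ) * nonconst_I S ≤ _
  unfold gen
  simp only
  have h0 : ∀ T : St, 0 ≤ nonconst_I T := by
    intro T; unfold nonconst_I; split_ifs <;> norm_num
  have harr : ∀ v, nonconst_I (S.arr v) = nonconst_I S := by
    intro v; unfold nonconst_I; rw [St.arr_V]
  simp_rw [harr]
  by_cases h : S.V.card = 1
  · obtain ⟨v, hv⟩ := Finset.card_eq_one.1 h
    have hI : nonconst_I S = 1 := by simp [nonconst_I, h]
    rw [hv, sum_singleton, hI]
    have hvm : v ∈ S.V := by rw [hv]; exact mem_singleton_self v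
    have h1 : (S.L v : ℝ) / S.d v ≤ 1 := by
      rw [div_le_one (St.d_pos hvm)]
      unfold St.d
      have : (0 : ℝ) ≤ S.s v := Nat.cast_nonneg _
      linarith
    have h2 : 0 ≤ (S.L v : ℝ) / S.d v := rate_bir_nonneg S v
    have h3 := h0 (S.bir v)
    nlinarith
  · have hI : nonconst_I S = 0 := by simp [nonconst_I, h]
    rw [hI, mul_zero]
    apply sum_nonneg
    intro v _
    have h2 : 0 ≤ (S.L v : ℝ) / S.d v := rate_bir_nonneg S v
    have h3 := h0 (S.bir v)
    have : ((S.L v : ℝ) + S.κ v) * (0 - 0) + (S.L v : ℝ) / S.d v * (nonconst_I (S.bir v) - 0)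
      = (S.L v : ℝ) / S.d v * nonconst_I (S.bir v) := by ring
    rw [this]
    exact mul_nonneg h2 h3

lemma nonconst_aux_pr (m : ℕ) : 0 < pr (-1) 3 m := by
  unfold pr
  apply prod_pos
  intro i _
  have h1 : (3 : ℝ) ≤ ((3 + i : ℕ) : ℝ) := by exact_mod_cast (by omega : 3 ≤ 3 + i)
  have h2 : -1 / ((3 + i : ℕ) : ℝ) = -(1 / ((3 + i : ℕ) : ℝ)) := by ring
  rw [h2]
  have h3 : 1 / ((3 + i : ℕ) : ℝ) ≤ 1 / 3 := one_div_le_one_div_of_le (by norm_num) h1
  linarith

lemma nonconst_aux_int (hS : IsChain P ℱ S) {n : ℕ} (hn : 3 ≤ n) (Φ : St → ℝ) :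
    Integrable (fun ω => Φ (S n ω)) P := by
  obtain ⟨c, hc⟩ := hS.bdd n hn Φ
  refine Integrable.of_bound ((hS.meas n hn Φ).mono (ℱ.le n)).aestronglyMeasurable c ?_
  filter_upwards [hc] with ω hω
  rwa [Real.norm_eq_abs]

/-- the probability that there is only one core vertex is positive -/
lemma nonconst_aux_pos (hS : IsChain P ℱ S) (m : ℕ) :
    0 < ∫ ω, nonconst_I (S (3 + m) ω) ∂P := by
  have h1 : ∫ ω, nonconst_I (S (3 + m) ω) ∂P
      = ∫ ω, (P[fun ω => nonconst_I (S (3 + m) ω) | ℱ 3]) ω ∂P :=
    (integral_condExp (ℱ.le 3)).symm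
  have h2 := markov_multi hS 3 m le_rfl nonconst_I
  rw [h1, integral_congr_ae h2]
  have h3 : (fun ω => U inhU m 3 (fun x => nonconst_I x.1) (S 3 ω, ()))
      =ᵐ[P] fun _ => U inhU m 3 (fun x => nonconst_I x.1) (start, ()) := by
    filter_upwards [hS.zero] with ω hω
    rw [hω]
  rw [integral_congr_ae h3, integral_const]
  rw [probReal_univ, one_smul]
  have hn : start.n ≤ 3 := by
    unfold St.n start
    simp
  have h4 := pr_le_U (inh := inhU) (Inv := fun _ => True) closed_true (lam := -1) le_rfl
    (F := fun x => nonconst_I x.1) (fun y _ => nonconst_aux_gen y) m (j := 3) (x := (start, ()))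
    trivial (by norm_num) hn
  have h5 : nonconst_I start = 1 := by
    unfold nonconst_I start
    simp
  have h6 : pr (-1) 3 m * nonconst_I start ≤ U inhU m 3 (fun x => nonconst_I x.1) (start, ()) := h4
  rw [h5, mul_one] at h6
  exact lt_of_lt_of_le (nonconst_aux_pr m) h6

theorem limit_nonconst (hS : IsChain P ℱ S) (hμ : Expo μ) (hE : Eig μ hh) {M : Ω → ℝ}
    (hM : StronglyMeasurable[⨆ n, ℱ n] M)
    (hlim : ∀ᵐ ω ∂P, Tendsto (fun n => hh (S n ω, (S n ω).V) / pr μ 3 (n - 3)) atTop (𝓝 (M ω)))
    (hpos : ∀ᵐ ω ∂P, 0 < M ω) (c : ℝ) : ¬ ∀ᵐ ω ∂P, M ω = c := by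
  intro hc
  obtain ⟨hμ1, -⟩ := hμ
  have hc0 : 0 < c := by
    have h := hpos.and hc
    obtain ⟨ω, h1, h2⟩ := h.exists
    rwa [h2] at h1
  obtain ⟨C, hC, hle⟩ := hE.le
  -- main inequality
  have key : ∀ m : ℕ, c ≤ C / pr μ 3 m := by
    intro m
    set n := 3 + m with hn
    have hn3 : 3 ≤ n := by omega
    set Φ : St → ℝ := fun T => hh (T, T.V) with hΦ
    have hΦ0 : ∀ T, 0 ≤ Φ T := fun T => hE.nonneg (T, T.V) (Finset.Subset.refl T.V)
    have hp0 : ∀ N, 0 < pr μ 3 N := fun N => pr_pos (by linarith) 3 N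
    set B : Set Ω := {ω | nonconst_I (S n ω) = 1} with hB
    have hBm : MeasurableSet[ℱ n] B := by
      have := (hS.meas n hn3 nonconst_I).measurable
      exact this (measurableSet_singleton (1 : ℝ))
    have hBm' : MeasurableSet B := ℱ.le n _ hBm
    have hBI : ∀ ω, nonconst_I (S n ω) = B.indicator (fun _ => (1 : ℝ)) ω := by
      intro ω
      by_cases h : ω ∈ B
      · rw [Set.indicator_of_mem h]; exact h
      · rw [Set.indicator_of_notMem h]
        by_contra h'
        apply h
        show nonconst_I (S n ω) = 1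
        unfold nonconst_I at h' ⊢
        split_ifs at h' ⊢ with h1
        · rfl
        · exact absurd rfl h'
    have hBpos : 0 < P.real B := by
      have := nonconst_aux_pos hS m
      rw [← hn] at this
      simp_rw [hBI] at this
      rwa [integral_indicator_const (1 : ℝ) hBm', smul_eq_mul, mul_one] at this
    -- the martingale identity
    have hmart : ∀ k : ℕ, ∫ ω in B, Φ (S (n + k) ω) ∂P
        = pr μ n k * ∫ ω in B, Φ (S n ω) ∂P := by
      intro k
      have h1 : ∫ ω in B, Φ (S (n + k) ω) ∂P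
          = ∫ ω in B, (P[fun ω => Φ (S (n + k) ω) | ℱ n]) ω ∂P :=
        (setIntegral_condExp (ℱ.le n) (nonconst_aux_int hS (by omega) Φ) hBm).symm
      have h2 := markov_multi hS n k hn3 Φ
      have h3 : (fun ω => U inhU k n (fun x => Φ x.1) (S n ω, ()))
          =ᵐ[P] fun ω => pr μ n k * Φ (S n ω) := by
        filter_upwards [hS.full n hn3] with ω hω
        exact nonconst_aux_hV hμ1 hE k (by omega) hω.2.1.le
      rw [h1, setIntegral_congr_ae hBm' ((h2.trans h3).mono fun ω h _ => h), integral_const_mul]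
    have hsmall : ∫ ω in B, Φ (S n ω) ∂P ≤ C * P.real B := by
      have h1 : ∫ ω in B, Φ (S n ω) ∂P ≤ ∫ ω in B, C ∂P := by
        apply setIntegral_mono_on (nonconst_aux_int hS hn3 Φ).integrableOn
          (integrable_const _).integrableOn hBm'
        intro ω hω
        have h2 := hle (S n ω, (S n ω).V) (Finset.Subset.refl _)
        have h3 : card (S n ω, (S n ω).V) = 1 := by
          have : nonconst_I (S n ω) = 1 := hω
          unfold nonconst_I at this
          split_ifs at this with h1
          · simp [card, h1]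
          · norm_num at this
        rw [h3, mul_one] at h2
        exact h2
      rw [setIntegral_const, smul_eq_mul] at h1
      linarith
    -- pr identities
    have hprod : ∀ k, pr μ 3 (m + k) = pr μ 3 m * pr μ n k := by
      intro k
      unfold pr
      rw [prod_range_add]
      congr 1
      apply prod_congr rfl
      intro i _
      rw [hn, add_assoc]
    -- truncated convergence
    have hF : Tendsto (fun k : ℕ => ∫ ω in B, min (Φ (S (n + k) ω) / pr μ 3 (m + k)) c ∂P) atTop
        (𝓝 (∫ ω in B, min (M ω) c ∂P)) := by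
      apply tendsto_integral_of_dominated_convergence (fun _ => c)
      · intro k
        have h1 := ((hS.meas (n + k) (by omega) Φ).mono (ℱ.le (n + k))).measurable
        exact ((h1.div_const _).min measurable_const).aestronglyMeasurable
      · exact integrable_const _
      · intro k
        apply Eventually.of_forall
        intro ω
        rw [Real.norm_eq_abs, abs_of_nonneg]
        · exact min_le_right _ _
        · exact le_min (div_nonneg (hΦ0 _) (hp0 _).le) hc0.le
      · apply ae_restrict_of_ae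
        filter_upwards [hlim] with ω hω
        have h1 : Tendsto (fun k : ℕ => Φ (S (n + k) ω) / pr μ 3 (m + k)) atTop (𝓝 (M ω)) := by
          have h2 := (tendsto_add_atTop_iff_nat n).2 hω
          refine h2.congr ?_
          intro k
          have e1 : k + n = n + k := add_comm _ _
          have e2 : k + n - 3 = m + k := by omega
          rw [e2, e1]
        exact h1.min tendsto_const_nhds
    have hG : ∫ ω in B, min (M ω) c ∂P = c * P.real B := by
      have : ∫ ω in B, min (M ω) c ∂P = ∫ ω in B, c ∂P := by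
        apply setIntegral_congr_ae hBm'
        filter_upwards [hc] with ω hω _
        rw [hω, min_self]
      rw [this, setIntegral_const, smul_eq_mul, mul_comm]
    have hle2 : ∀ k : ℕ, ∫ ω in B, min (Φ (S (n + k) ω) / pr μ 3 (m + k)) c ∂P
        ≤ C / pr μ 3 m * P.real B := by
      intro k
      have h1 : ∫ ω in B, min (Φ (S (n + k) ω) / pr μ 3 (m + k)) c ∂P
          ≤ ∫ ω in B, Φ (S (n + k) ω) / pr μ 3 (m + k) ∂P := by
        have hint : Integrable (fun ω => Φ (S (n + k) ω) / pr μ 3 (m + k)) P :=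
          (nonconst_aux_int hS (by omega) Φ).div_const _
        apply setIntegral_mono (hint.inf (integrable_const _)).integrableOn hint.integrableOn
        intro ω
        exact min_le_left _ _
      refine h1.trans ?_
      rw [integral_div, hmart k, hprod k]
      have h2 := hp0 m
      have h3 : 0 < pr μ n k := pr_pos (by linarith) n k
      rw [mul_comm (pr μ 3 m) (pr μ n k), mul_div_mul_left _ _ h3.ne', div_mul_eq_mul_div]
      exact div_le_div_of_nonneg_right hsmall h2.le
    have hfin : c * P.real B ≤ C / pr μ 3 m * P.real B := by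
      rw [← hG]
      exact le_of_tendsto' hF hle2
    exact le_of_mul_le_mul_right hfin hBpos
  -- `pr` tends to infinity
  obtain ⟨k, hk, hlimk⟩ := pr_tendsto (μ := μ) (by linarith)
  have hpow : Tendsto (fun n : ℕ => (n : ℝ) ^ μ) atTop atTop :=
    (tendsto_rpow_atTop (by linarith)).comp tendsto_natCast_atTop_atTop
  have hprt : Tendsto (fun n : ℕ => pr μ 3 (n - 3)) atTop atTop := by
    have h1 := hlimk.pos_mul_atTop hk hpow
    refine h1.congr' ?_
    filter_upwards [eventually_gt_atTop 0] with n hn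
    have : (0 : ℝ) < (n : ℝ) ^ μ := Real.rpow_pos_of_pos (by exact_mod_cast hn) _
    field_simp
  have hzero : Tendsto (fun n : ℕ => C / pr μ 3 (n - 3)) atTop (𝓝 0) :=
    hprt.const_div_atTop C
  have := ge_of_tendsto' hzero (fun n => key (n - 3))
  linarith

end FT
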