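import Pool.Agent.FT.Sq
import Pool.Agent.FT.Compare

/-! # Module Pz (friend tree, MP_5ccad8_pr): Paley-Zygmund -/

open Finset MeasureTheory Filter Topology

namespace FT

lemma pz_aux_U_hh {μ : ℝ} {hh : St × Finset W → ℝ} (hμ : 9 / 20 ≤ μ) (hE : Eig μ hh)
    (m : ℕ) {j : ℕ} {x : St × Finset W} (hx : Sub x) (hj : 0 < j) (hn : x.1.n ≤ j) :
    U inhA m j hh x = pr μ j m * hh x := by
  apply le_antisymm
  · exact U_le_pr (closed_sub _) (by linarith) (fun y hy => (hE.gen y hy).le) m hx hj hn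
  · exact pr_le_U (closed_sub _) (by linarith) (fun y hy => (hE.gen y hy).ge) m hx hj hn

lemma pz_aux_mono {μ : ℝ} {hh : St × Finset W → ℝ} (hE : Eig μ hh) {x : St × Finset W}
    (hx : Sub x) : hh x ≤ hh (x.1, x.1.V) := by
  obtain ⟨S, A⟩ := x
  have hA : A ⊆ S.V := hx
  have h1 := hE.add S A (S.V \ A) hA sdiff_subset disjoint_sdiff
  rw [union_sdiff_of_subset hA] at h1
  have h2 := hE.nonneg (S, S.V \ A) (sdiff_subset : S.V \ A ⊆ S.V)
  show hh (S, A) ≤ hh (S, S.V)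
  rw [h1]; linarith

lemma pz_aux_sq {μ : ℝ} {hh : St × Finset W → ℝ} (hμ : Expo μ) (hE : Eig μ hh) :
    ∃ D : ℝ, 0 < D ∧ ∀ (S : St) (y : W), Full S → y ∈ S.V → ∀ m j : ℕ, 2 ≤ j → S.n ≤ j →
      U inhA m j (fun z => hh z ^ 2) (S, {y}) ≤ D * pr μ j m ^ 2 := by
  obtain ⟨hμ1, hμ2, c4, C4, hc4, hC4, hmt⟩ := hμ
  obtain ⟨C1, hC1, hle⟩ := hE.le
  obtain ⟨C2, hC2, hsq⟩ := sq_bound
  obtain ⟨C3, hC3, hKK⟩ := KK_le
  obtain ⟨C5, hC5, hpr⟩ := pr_bounds (μ := μ) (by linarith)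
  refine ⟨C1 ^ 2 * (C2 * (C3 * (C4 * C5)) ^ 2), by positivity, ?_⟩
  intro S y hS hy m j hj hn
  have hj0 : 0 < j := by omega
  have hj' : (0 : ℝ) < j := by exact_mod_cast hj0
  have hx : Sub (S, ({y} : Finset W)) := by
    show ({y} : Finset W) ⊆ S.V
    exact singleton_subset_iff.2 hy
  have h1 : U inhA m j (fun z => hh z ^ 2) (S, {y})
      ≤ U inhA m j (fun z => C1 ^ 2 * card z ^ 2) (S, {y}) := by
    apply U_mono (closed_sub _) m hx hj0 hn
    intro z hz _
    have h2 := hE.nonneg z hz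
    have h3 := hle z hz
    calc hh z ^ 2 ≤ (C1 * card z) ^ 2 := pow_le_pow_left₀ h2 h3 2
      _ = _ := by ring
  have h2 : U inhA m j (fun z => C1 ^ 2 * card z ^ 2) (S, {y})
      = C1 ^ 2 * U inhA m j (fun z => card z ^ 2) (S, {y}) := by
    rw [U_smul m j (C1 ^ 2) (fun z : St × Finset W => card z ^ 2)]
  have h3 := hsq m j (S, {y}) hS hx hj0 hn
  have h4 : card (S, ({y} : Finset W)) = 1 := by simp [card]
  rw [h4] at h3
  have hr1 : (1 : ℝ) ≤ ((j + m : ℕ) : ℝ) / j := by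
    rw [le_div_iff₀ hj']; push_cast; have : (0 : ℝ) ≤ m := Nat.cast_nonneg _; linarith
  have h5 : KK m j ≤ C3 * (C4 * C5) * pr μ j m := by
    have a1 := hKK m j hj
    have a2 := (hmt (Real.log (((j + m : ℕ) : ℝ) / j)) (Real.log_nonneg hr1)).2
    have a3 : Real.exp (μ * Real.log (((j + m : ℕ) : ℝ) / j)) = (((j + m : ℕ) : ℝ) / j) ^ μ := by
      rw [Real.rpow_def_of_pos (by linarith), mul_comm]
    rw [a3] at a2
    have a4 := (hpr j m hj0).1
    calc KK m j ≤ C3 * mt (Real.log (((j + m : ℕ) : ℝ) / j)) := a1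
      _ ≤ C3 * (C4 * (((j + m : ℕ) : ℝ) / j) ^ μ) := mul_le_mul_of_nonneg_left a2 hC3.le
      _ ≤ C3 * (C4 * (C5 * pr μ j m)) :=
          mul_le_mul_of_nonneg_left (mul_le_mul_of_nonneg_left a4 hC4.le) hC3.le
      _ = _ := by ring
  have h6 : KK m j ^ 2 ≤ (C3 * (C4 * C5) * pr μ j m) ^ 2 :=
    pow_le_pow_left₀ (le_trans zero_le_one (one_le_KK m j)) h5 2
  calc U inhA m j (fun z => hh z ^ 2) (S, {y})
      ≤ C1 ^ 2 * U inhA m j (fun z => card z ^ 2) (S, {y}) := h1.trans h2.le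
    _ ≤ C1 ^ 2 * (C2 * KK m j ^ 2 * 1 ^ 2) := mul_le_mul_of_nonneg_left h3 (by positivity)
    _ ≤ C1 ^ 2 * (C2 * (C3 * (C4 * C5) * pr μ j m) ^ 2 * 1 ^ 2) := by
        apply mul_le_mul_of_nonneg_left _ (by positivity)
        apply mul_le_mul_of_nonneg_right _ (by positivity)
        exact mul_le_mul_of_nonneg_left h6 hC2.le
    _ = _ := by ring

theorem pz {μ : ℝ} {hh : St × Finset W → ℝ} (hμ : Expo μ) (hE : Eig μ hh) :
    ∃ c0 δ0 : ℝ, 0 < c0 ∧ 0 < δ0 ∧ ∀ (S : St) (y : W), Full S → y ∈ S.V → S.s y ≤ 1 →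
    ∀ m j : ℕ, 2 ≤ j → S.n ≤ j →
    c0 ≤ U inhU m j (fun x => if δ0 * pr μ j m ≤ hh (x.1, x.1.V) then 1 else 0) (S, ()) := by
  obtain ⟨c, hc, hlow⟩ := hE.lower
  obtain ⟨D, hD, hsq⟩ := pz_aux_sq hμ hE
  have hμ1 := hμ.1
  refine ⟨c ^ 2 / (16 * D), c / 4, by positivity, by positivity, ?_⟩
  intro S y hS hy hs m j hj hn
  have hj0 : 0 < j := by omega
  have hx : Sub (S, ({y} : Finset W)) := by
    show ({y} : Finset W) ⊆ S.V
    exact singleton_subset_iff.2 hy
  set p := pr μ j m with hp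
  have hp0 : 0 < p := pr_pos (by linarith) j m
  -- mean
  have h1 := pz_aux_U_hh hμ1 hE m hx hj0 hn
  rw [← hp] at h1
  have h2 : c / 2 ≤ hh (S, {y}) := by
    refine le_trans ?_ (hlow S y hy)
    have hL := S.two_le y hy
    have hd := St.d_pos hy
    have : (1 : ℝ) / 2 ≤ (S.L y : ℝ) / S.d y := by
      rw [le_div_iff₀ hd]
      unfold St.d
      have e1 : (S.s y : ℝ) ≤ 1 := by exact_mod_cast hs
      have e2 : (1 : ℝ) ≤ S.L y := by exact_mod_cast (by omega : 1 ≤ S.L y)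
      linarith
    calc c / 2 = c * (1 / 2) := by ring
      _ ≤ _ := mul_le_mul_of_nonneg_left this hc.le
  have h3 := hsq S y hS hy m j hj hn
  rw [← hp] at h3
  -- pointwise bound
  set lam : ℝ := c / (4 * D * p) with hlam
  have hlam0 : 0 < lam := by positivity
  set I : St × Finset W → ℝ := fun z => if c / 4 * p ≤ hh z then 1 else 0 with hI
  have h4 : U inhA m j hh (S, {y}) ≤ c / 4 * p + (lam / 2) * (D * p ^ 2)
      + (1 / (2 * lam)) * U inhA m j I (S, {y}) := by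
    have a1 : U inhA m j hh (S, {y}) ≤ U inhA m j (fun z => (c / 4 * p + (lam / 2) * hh z ^ 2)
        + (1 / (2 * lam)) * I z) (S, {y}) := by
      apply U_mono (closed_sub _) m hx hj0 hn
      intro z hz _
      have hz0 := hE.nonneg z hz
      by_cases hc' : c / 4 * p ≤ hh z
      · have e1 : I z = 1 := by simp [hI, hc']
        rw [e1]
        have e2 : hh z ≤ (lam / 2) * hh z ^ 2 + (1 / (2 * lam)) * 1 := by
          have : 0 ≤ (lam * hh z - 1) ^ 2 / (2 * lam) := by positivity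
          have e3 : (lam * hh z - 1) ^ 2 / (2 * lam)
              = (lam / 2) * hh z ^ 2 + (1 / (2 * lam)) * 1 - hh z := by
            field_simp
            ring
          linarith
        have e4 : 0 ≤ c / 4 * p := by positivity
        linarith
      · have e1 : I z = 0 := by simp [hI, hc']
        rw [e1]
        push Not at hc'
        have e2 : 0 ≤ (lam / 2) * hh z ^ 2 := by positivity
        linarith
    have a2 : U inhA m j (fun z => (c / 4 * p + (lam / 2) * hh z ^ 2)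
        + (1 / (2 * lam)) * I z) (S, {y})
        = c / 4 * p + (lam / 2) * U inhA m j (fun z => hh z ^ 2) (S, {y})
          + (1 / (2 * lam)) * U inhA m j I (S, {y}) := by
      rw [U_add_fun m j (fun z => c / 4 * p + (lam / 2) * hh z ^ 2) (fun z => (1 / (2 * lam)) * I z),
        U_add_fun m j (fun _ => c / 4 * p) (fun z => (lam / 2) * hh z ^ 2), U_const,
        U_smul m j (lam / 2) (fun z => hh z ^ 2), U_smul m j (1 / (2 * lam)) I]
    rw [a2] at a1
    have a3 := mul_le_mul_of_nonneg_left h3 (by positivity : (0 : ℝ) ≤ lam / 2)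
    linarith
  have h5 : c ^ 2 / (16 * D) ≤ U inhA m j I (S, {y}) := by
    rw [h1] at h4
    have a1 : p * (c / 2) ≤ p * hh (S, {y}) := mul_le_mul_of_nonneg_left h2 hp0.le
    have a2 : (lam / 2) * (D * p ^ 2) = c / 8 * p := by
      rw [hlam]; field_simp; ring
    have a3 : 1 / (2 * lam) = 2 * D * p / c := by
      rw [hlam]; field_simp; ring
    rw [a2, a3] at h4
    have a4 : c / 8 * p ≤ 2 * D * p / c * U inhA m j I (S, {y}) := by linarith
    have a5 : c / 8 ≤ 2 * D / c * U inhA m j I (S, {y}) := by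
      have : 2 * D * p / c * U inhA m j I (S, {y}) = (2 * D / c * U inhA m j I (S, {y})) * p := by
        ring
      rw [this] at a4
      exact le_of_mul_le_mul_right a4 hp0
    have a6 : (c / (2 * D)) * (c / 8) ≤ (c / (2 * D)) * (2 * D / c * U inhA m j I (S, {y})) :=
      mul_le_mul_of_nonneg_left a5 (by positivity)
    have a7 : (c / (2 * D)) * (2 * D / c * U inhA m j I (S, {y})) = U inhA m j I (S, {y}) := by
      field_simp
    rw [a7] at a6
    calc c ^ 2 / (16 * D) = (c / (2 * D)) * (c / 8) := by field_simp; ring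
      _ ≤ _ := a6
  refine h5.trans ?_
  rw [← U_forget (inh := inhA) (fun x => if c / 4 * p ≤ hh (x.1, x.1.V) then 1 else 0) m j (S, {y})]
  apply U_mono (closed_sub _) m hx hj0 hn
  intro z hz _
  have hz' := pz_aux_mono hE hz
  simp only [hI]
  by_cases h : c / 4 * p ≤ hh z
  · rw [if_pos h, if_pos (h.trans hz')]
  · rw [if_neg h]
    split_ifs <;> norm_num

end FT
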