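import Pool.Agent.FT.Markov
import Pool.Agent.FT.Pz

/-! # Module Pos (friend tree, MP_5ccad8_pr) -/

open Finset MeasureTheory Filter Topology

namespace FT

variable {Ω : Type*} {m0 : MeasurableSpace Ω} {P : Measure Ω} [IsProbabilityMeasure P]
  {ℱ : Filtration ℕ m0} {S : ℕ → Ω → St} {μ : ℝ} {hh : St × Finset W → ℝ}

lemma pos_aux_int (hS : IsChain P ℱ S) {n : ℕ} (hn : 3 ≤ n) (Φ : St → ℝ) :
    Integrable (fun ω => Φ (S n ω)) P := by
  obtain ⟨c, hc⟩ := hS.bdd n hn Φ
  refine Integrable.of_bound ((hS.meas n hn Φ).mono (ℱ.le n)).aestronglyMeasurable c ?_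
  filter_upwards [hc] with ω hω
  rwa [Real.norm_eq_abs]

theorem limit_pos (hS : IsChain P ℱ S) (hμ : Expo μ) (hE : Eig μ hh) {M : Ω → ℝ}
    (hM : StronglyMeasurable[⨆ n, ℱ n] M)
    (hlim : ∀ᵐ ω ∂P, Tendsto (fun n => hh (S n ω, (S n ω).V) / pr μ 3 (n - 3)) atTop (𝓝 (M ω))) :
    ∀ᵐ ω ∂P, 0 < M ω := by
  obtain ⟨c0, δ0, hc0, hδ0, hpz⟩ := pz hμ hE
  have hμ1 := hμ.1
  have hle : (⨆ n, ℱ n) ≤ m0 := iSup_le fun n => ℱ.le n
  set A : Set Ω := {ω | 0 < M ω} with hA
  have hAm : MeasurableSet[⨆ n, ℱ n] A := measurableSet_lt measurable_const hM.measurable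
  have hAm' : MeasurableSet A := hle _ hAm
  set g : Ω → ℝ := A.indicator (fun _ => (1 : ℝ)) with hg
  have hgm : StronglyMeasurable[⨆ n, ℱ n] g := stronglyMeasurable_const.indicator hAm
  have hgint : Integrable g P := (integrable_const (1 : ℝ)).indicator hAm'
  have hp0 : ∀ j N, 0 < pr μ j N := fun j N => pr_pos (by linarith) j N
  -- conditional lower bound
  have key : ∀ n : ℕ, 3 ≤ n → ∀ᵐ ω ∂P, c0 ≤ (P[g | ℱ n]) ω := by
    intro n hn
    set δ : ℝ := δ0 / pr μ 3 (n - 3) with hδ
    have hδpos : 0 < δ := div_pos hδ0 (hp0 _ _)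
    set φ : ℝ → ℝ := fun x => max 0 (min (x / δ) 1) with hφ
    have hφc : Continuous φ := by
      rw [hφ]; fun_prop
    have hφ0 : ∀ x, 0 ≤ φ x := fun x => le_max_left _ _
    have hφ1 : ∀ x, φ x ≤ 1 := fun x => max_le zero_le_one (min_le_right _ _)
    have hφd : ∀ x, δ ≤ x → φ x = 1 := by
      intro x hx
      have h1 : 1 ≤ x / δ := by rw [le_div_iff₀ hδpos]; linarith
      simp only [hφ]
      rw [min_eq_right h1]; norm_num
    have hφn : ∀ x, x ≤ 0 → φ x = 0 := by
      intro x hx
      have h1 : x / δ ≤ 0 := div_nonpos_of_nonpos_of_nonneg hx hδpos.le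
      simp only [hφ]
      rw [min_eq_left (by linarith), max_eq_left h1]
    have hset : ∀ B : Set Ω, MeasurableSet[ℱ n] B → c0 * P.real B ≤ ∫ ω in B, g ω ∂P := by
      intro B hB
      have hB' : MeasurableSet B := ℱ.le n _ hB
      -- finite time
      have hfin : ∀ m : ℕ, c0 * P.real B
          ≤ ∫ ω in B, φ (hh (S (n + m) ω, (S (n + m) ω).V) / pr μ 3 (n + m - 3)) ∂P := by
        intro m
        set Φ : St → ℝ := fun T => if δ0 * pr μ n m ≤ hh (T, T.V) then 1 else 0 with hΦ
        have h1 : ∫ ω in B, Φ (S (n + m) ω) ∂P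
            = ∫ ω in B, (P[fun ω => Φ (S (n + m) ω) | ℱ n]) ω ∂P :=
          (setIntegral_condExp (ℱ.le n) (pos_aux_int hS (by omega) Φ) hB).symm
        have h2 : ∀ᵐ ω ∂P, c0 ≤ (P[fun ω => Φ (S (n + m) ω) | ℱ n]) ω := by
          filter_upwards [markov_multi hS n m hn Φ, hS.full n hn] with ω h1 h2
          rw [h1]
          obtain ⟨y, hy, hsy⟩ := h2.2.2
          exact hpz (S n ω) y h2.1 hy hsy m n (by omega) h2.2.1.le
        have h3 : c0 * P.real B ≤ ∫ ω in B, Φ (S (n + m) ω) ∂P := by
          rw [h1]
          have h4 : ∫ ω in B, c0 ∂P ≤ ∫ ω in B, (P[fun ω => Φ (S (n + m) ω) | ℱ n]) ω ∂P :=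
            setIntegral_mono_ae (integrable_const _).integrableOn integrable_condExp.integrableOn h2
          rw [setIntegral_const, smul_eq_mul] at h4
          linarith
        refine h3.trans ?_
        have hsm := ((hS.meas (n + m) (by omega) (fun T => hh (T, T.V))).mono
          (ℱ.le (n + m))).measurable
        have hint : Integrable (fun ω => φ (hh (S (n + m) ω, (S (n + m) ω).V)
            / pr μ 3 (n + m - 3))) P := by
          refine Integrable.of_bound
            (hφc.measurable.comp (hsm.div_const _)).aestronglyMeasurable 1 ?_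
          apply Eventually.of_forall
          intro ω
          rw [Real.norm_eq_abs, abs_of_nonneg (hφ0 _)]
          exact hφ1 _
        apply setIntegral_mono (pos_aux_int hS (by omega) Φ).integrableOn hint.integrableOn
        intro ω
        simp only [hΦ]
        split_ifs with h
        · rw [hφd]
          have h5 : pr μ 3 (n + m - 3) = pr μ 3 (n - 3) * pr μ n m := by
            have e : n + m - 3 = (n - 3) + m := by omega
            rw [e]
            unfold pr
            rw [prod_range_add]
            congr 1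
            apply prod_congr rfl
            intro i _
            have : 3 + (n - 3 + i) = n + i := by omega
            rw [this]
          rw [h5, hδ, div_le_div_iff₀ (hp0 _ _) (mul_pos (hp0 _ _) (hp0 _ _))]
          have h6 := mul_le_mul_of_nonneg_right h (hp0 3 (n - 3)).le
          linarith
        · exact hφ0 _
      -- limit
      have hF : Tendsto (fun m : ℕ => ∫ ω in B,
          φ (hh (S (n + m) ω, (S (n + m) ω).V) / pr μ 3 (n + m - 3)) ∂P) atTop
          (𝓝 (∫ ω in B, φ (M ω) ∂P)) := by
        apply tendsto_integral_of_dominated_convergence (fun _ => (1 : ℝ))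
        · intro m
          have hsm := ((hS.meas (n + m) (by omega) (fun T => hh (T, T.V))).mono
            (ℱ.le (n + m))).measurable
          exact (hφc.measurable.comp (hsm.div_const _)).aestronglyMeasurable
        · exact integrable_const _
        · intro m
          apply Eventually.of_forall
          intro ω
          rw [Real.norm_eq_abs, abs_of_nonneg (hφ0 _)]
          exact hφ1 _
        · apply ae_restrict_of_ae
          filter_upwards [hlim] with ω hω
          have h2 := (tendsto_add_atTop_iff_nat n).2 hω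
          have h3 := (hφc.tendsto (M ω)).comp h2
          refine h3.congr ?_
          intro m
          have e1 : m + n = n + m := add_comm _ _
          simp only [Function.comp]
          rw [e1]
      have h7 := ge_of_tendsto' hF hfin
      refine h7.trans ?_
      have hMm : Measurable M := hM.measurable.mono hle le_rfl
      apply setIntegral_mono
      · apply Integrable.integrableOn
        refine Integrable.of_bound (hφc.measurable.comp hMm).aestronglyMeasurable 1 ?_
        apply Eventually.of_forall
        intro ω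
        rw [Real.norm_eq_abs, abs_of_nonneg (hφ0 _)]
        exact hφ1 _
      · exact hgint.integrableOn
      · intro ω
        simp only [hg]
        by_cases h : ω ∈ A
        · rw [Set.indicator_of_mem h]; exact hφ1 _
        · rw [Set.indicator_of_notMem h, hφn _ (not_lt.1 h)]
    -- conclusion
    have htrim : (fun _ => c0) ≤ᵐ[P.trim (ℱ.le n)] P[g | ℱ n] := by
      apply ae_le_of_forall_setIntegral_le
      · exact integrable_const _
      · exact integrable_condExp.trim (ℱ.le n) stronglyMeasurable_condExp
      · intro B hB _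
        rw [← setIntegral_trim (ℱ.le n) stronglyMeasurable_condExp hB,
          ← setIntegral_trim (ℱ.le n) stronglyMeasurable_const hB,
          setIntegral_condExp (ℱ.le n) hgint hB, setIntegral_const, smul_eq_mul]
        have := hset B hB
        linarith
    exact ae_le_of_ae_le_trim htrim
  have hall : ∀ᵐ ω ∂P, ∀ n : ℕ, 3 ≤ n → c0 ≤ (P[g | ℱ n]) ω := by
    rw [ae_all_iff]
    intro n
    by_cases hn : 3 ≤ n
    · filter_upwards [key n hn] with ω hω _
      exact hω
    · exact Eventually.of_forall fun ω h => absurd h hn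
  have hlevy := hgint.tendsto_ae_condExp hgm
  filter_upwards [hall, hlevy] with ω h1 h2
  by_contra h3
  have h4 : g ω = 0 := by
    have h3' : ω ∉ A := h3
    rw [hg, Set.indicator_of_notMem h3']
  rw [h4] at h2
  have h5 : c0 ≤ 0 := by
    apply ge_of_tendsto h2
    filter_upwards [eventually_ge_atTop 3] with n hn
    exact h1 n hn
  linarith

end FT
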