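import Pool.Agent.FT.Objs

/-! # Module Sandwich (friend tree, MP_5ccad8_pr) -/

open Finset MeasureTheory Filter Topology

namespace FT

/-- a recursive inequality with small constants forces convergence -/
theorem sandwich_aux_conv {y : ℕ → ℝ} (hy : ∀ k, 0 ≤ y k) {M : ℝ}
    (h : ∀ p : ℕ, 1 ≤ p → ∃ J : ℕ, ∀ᶠ k : ℕ in atTop,
      |y (k + J) - M| ≤ 1 / p * y k + 1 / p) : Tendsto y atTop (𝓝 M) := by
  -- boundedness
  obtain ⟨B, k0, hB0, hB⟩ : ∃ B : ℝ, ∃ k0 : ℕ, 0 ≤ B ∧ ∀ k, k0 ≤ k → y k ≤ B := by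
    obtain ⟨J, hJ⟩ := h 2 (by norm_num)
    obtain ⟨k0, hk0⟩ := eventually_atTop.1 hJ
    let B1 : ℝ := ∑ i ∈ Finset.range (k0 + J + 1), y i
    have hB1 : ∀ i, i < k0 + J + 1 → y i ≤ B1 := fun i hi =>
      Finset.single_le_sum (f := y) (fun j _ => hy j) (Finset.mem_range.2 hi)
    have hB10 : 0 ≤ B1 := Finset.sum_nonneg fun i _ => hy i
    refine ⟨max B1 (2 * (|M| + 1 / 2)), k0, le_max_of_le_left hB10, ?_⟩
    intro k
    induction k using Nat.strong_induction_on with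
    | _ k ih =>
      intro hk
      by_cases hkJ : k < k0 + J + 1
      · exact (hB1 k hkJ).trans (le_max_left _ _)
      · have hk' : k0 ≤ k - J := by omega
        have h1 := hk0 (k - J) hk'
        rw [Nat.sub_add_cancel (by omega)] at h1
        have h2 : y k ≤ |M| + (1 / 2 * y (k - J) + 1 / 2) := by
          have := (abs_le.1 h1).2
          push_cast at this
          linarith [le_abs_self M]
        by_cases hJ0 : J = 0
        · subst hJ0
          rw [Nat.sub_zero] at h2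
          refine le_trans ?_ (le_max_right _ _)
          linarith
        · have h3 := ih (k - J) (by omega) hk'
          have h4 := le_max_right B1 (2 * (|M| + 1 / 2))
          linarith
  rw [Metric.tendsto_atTop]
  intro ε hε
  obtain ⟨p, hp⟩ := exists_nat_gt ((B + 1) / ε)
  have hp0 : (0 : ℝ) < p := lt_of_le_of_lt (by positivity) hp
  have hp1 : 1 ≤ p := by
    rcases Nat.eq_zero_or_pos p with h0 | h0
    · subst h0
      simp at hp0
    · exact h0
  obtain ⟨J, hJ⟩ := h p hp1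
  obtain ⟨k1, hk1⟩ := eventually_atTop.1 hJ
  refine ⟨max k0 k1 + J, fun k hk => ?_⟩
  have hk2 : max k0 k1 ≤ k - J := by omega
  have h1 := hk1 (k - J) ((le_max_right _ _).trans hk2)
  have h2 := hB (k - J) ((le_max_left _ _).trans hk2)
  rw [Nat.sub_add_cancel (by omega)] at h1
  rw [Real.dist_eq]
  refine lt_of_le_of_lt h1 ?_
  have h3 : 1 / (p : ℝ) * y (k - J) + 1 / p ≤ (B + 1) / p := by
    rw [← mul_add_one (1 / (p : ℝ)) (y (k - J)), div_eq_mul_one_div (B + 1) (p : ℝ), mul_comm (B + 1)]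
    exact mul_le_mul_of_nonneg_left (by linarith) (by positivity)
  refine lt_of_le_of_lt h3 ?_
  rw [div_lt_iff₀ hp0]
  rw [div_lt_iff₀ hε] at hp
  linarith

theorem sandwich {X : ℕ → ℝ} (hX : Monotone X) (hX0 : ∀ n, 0 ≤ X n) {μ M : ℝ} (hμ : 0 < μ)
    (h : ∀ q : ℕ, 1 ≤ q → ∀ p : ℕ, 1 ≤ p → ∃ J : ℕ, ∀ᶠ k : ℕ in atTop,
      |X ⌈(1 + 1 / (q : ℝ)) ^ (k + J)⌉₊ / (⌈(1 + 1 / (q : ℝ)) ^ (k + J)⌉₊ : ℝ) ^ μ - M|
        ≤ 1 / p * (X ⌈(1 + 1 / (q : ℝ)) ^ k⌉₊ / (⌈(1 + 1 / (q : ℝ)) ^ k⌉₊ : ℝ) ^ μ) + 1 / p) :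
    Tendsto (fun n : ℕ => X n / (n : ℝ) ^ μ) atTop (𝓝 M) := by
  have hsub : ∀ q : ℕ, 1 ≤ q → Tendsto (fun k : ℕ =>
      X ⌈(1 + 1 / (q : ℝ)) ^ k⌉₊ / (⌈(1 + 1 / (q : ℝ)) ^ k⌉₊ : ℝ) ^ μ) atTop (𝓝 M) := fun q hq =>
    sandwich_aux_conv (fun k => div_nonneg (hX0 _) (Real.rpow_nonneg (Nat.cast_nonneg _) _))
      (h q hq)
  have hM : 0 ≤ M := ge_of_tendsto' (hsub 1 le_rfl) fun k =>
    div_nonneg (hX0 _) (Real.rpow_nonneg (Nat.cast_nonneg _) _)
  have hid : ∀ n : ℕ, X n ^ (1 / μ) / (n : ℝ) = (X n / (n : ℝ) ^ μ) ^ (1 / μ) := by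
    intro n
    rw [Real.div_rpow (hX0 n) (Real.rpow_nonneg (Nat.cast_nonneg _) _),
      ← Real.rpow_mul (Nat.cast_nonneg _), mul_one_div_cancel hμ.ne', Real.rpow_one]
  have hmain : Tendsto (fun n : ℕ => X n ^ (1 / μ) / (n : ℝ)) atTop (𝓝 (M ^ (1 / μ))) := by
    refine tendsto_div_of_monotone_of_exists_subseq_tendsto_div (fun n => X n ^ (1 / μ)) _ ?_ ?_
    · intro m n hmn
      exact Real.rpow_le_rpow (hX0 m) (hX hmn) (by positivity)
    · intro a ha
      obtain ⟨q, hq⟩ := exists_nat_gt (1 / (a - 1))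
      have ha' : 0 < a - 1 := sub_pos.2 ha
      have hq0 : (0 : ℝ) < q := lt_trans (by positivity) hq
      have hq1 : 1 ≤ q := by
        rcases Nat.eq_zero_or_pos q with h0 | h0
        · subst h0
          simp at hq0
        · exact h0
      have hr : 1 + 1 / (q : ℝ) < a := by
        have : 1 / (q : ℝ) < a - 1 := by
          rw [div_lt_iff₀ hq0]
          rw [div_lt_iff₀ ha'] at hq
          linarith
        linarith
      have hr1 : 1 < 1 + 1 / (q : ℝ) := by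
        have : 0 < 1 / (q : ℝ) := by positivity
        linarith
      set r : ℝ := 1 + 1 / (q : ℝ) with hrdef
      have hrinf : Tendsto (fun k : ℕ => r ^ k) atTop atTop := tendsto_pow_atTop_atTop_of_one_lt hr1
      refine ⟨fun k => ⌈r ^ k⌉₊, ?_, ?_, ?_⟩
      · have h1 : ∀ᶠ k : ℕ in atTop, 1 / (a - r) ≤ r ^ k := hrinf.eventually_ge_atTop _
        filter_upwards [h1] with k hk
        have h2 : (⌈r ^ (k + 1)⌉₊ : ℝ) ≤ r ^ (k + 1) + 1 :=
          (Nat.ceil_lt_add_one (by positivity)).le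
        have h3 : r ^ k ≤ (⌈r ^ k⌉₊ : ℝ) := Nat.le_ceil _
        have h4 : 1 ≤ (a - r) * r ^ k := by
          rw [div_le_iff₀ (sub_pos.2 hr)] at hk
          linarith
        calc (⌈r ^ (k + 1)⌉₊ : ℝ) ≤ r ^ (k + 1) + 1 := h2
          _ = r * r ^ k + 1 := by rw [pow_succ']
          _ ≤ a * r ^ k := by linarith
          _ ≤ a * (⌈r ^ k⌉₊ : ℝ) := mul_le_mul_of_nonneg_left h3 (by linarith)
      · exact tendsto_nat_ceil_atTop.comp hrinf
      · refine Tendsto.congr (fun k => (hid _).symm) ?_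
        exact (hsub q hq1).rpow_const (Or.inr (by positivity))
  have hfin := hmain.rpow_const (p := μ) (Or.inr hμ.le)
  rw [← Real.rpow_mul hM, one_div_mul_cancel hμ.ne', Real.rpow_one] at hfin
  refine hfin.congr fun n => ?_
  rw [hid, ← Real.rpow_mul (div_nonneg (hX0 _) (Real.rpow_nonneg (Nat.cast_nonneg _) _)),
    one_div_mul_cancel hμ.ne', Real.rpow_one]

end FT
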