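import Pool.Agent.FT.Eigen
import Pool.Agent.FT.Disc
import Pool.Agent.FT.Enc
import Pool.Agent.FT.Mart
import Pool.Agent.FT.LLN
import Pool.Agent.FT.Pos
import Pool.Agent.FT.NonConst
import Pool.Agent.FT.Sandwich
import Pool.Agent.FT.Exist

/-! # Module Final (friend tree, MP_5ccad8_pr) -/

open Finset MeasureTheory Filter Topology

namespace FT

lemma final_aux_tree_mono (w : ℕ → ℕ) {n n' : ℕ} (h : n ≤ n') : tree w n ≤ tree w n' := by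
  intro a b hab
  unfold tree at *
  rw [SimpleGraph.fromRel_adj] at *
  refine ⟨hab.1, ?_⟩
  rcases hab.2 with (h1 | ⟨k, hk, hkn, e⟩) | (h1 | ⟨k, hk, hkn, e⟩)
  · exact Or.inl (Or.inl h1)
  · exact Or.inl (Or.inr ⟨k, hk, lt_of_lt_of_le hkn h, e⟩)
  · exact Or.inr (Or.inl h1)
  · exact Or.inr (Or.inr ⟨k, hk, lt_of_lt_of_le hkn h, e⟩)

lemma final_aux_finite (w : ℕ → ℕ) (n v : ℕ) : ((tree w n).neighborSet v).Finite := by
  have : (tree w n).neighborSet v ⊆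
      ↑(({1, 2} : Finset ℕ) ∪ (Finset.range n).image w ∪ (Finset.range n).image (· + 1)) := by
    intro b hb
    rw [SimpleGraph.mem_neighborSet] at hb
    unfold tree at hb
    rw [SimpleGraph.fromRel_adj] at hb
    simp only [Finset.coe_union, Set.mem_union, Finset.mem_coe, Finset.mem_insert,
      Finset.mem_singleton, Finset.mem_image, Finset.mem_range]
    rcases hb.2 with (h1 | ⟨k, hk, hkn, e⟩) | (h1 | ⟨k, hk, hkn, e⟩)
    · exact Or.inl (Or.inl (Or.inr h1.2))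
    · exact Or.inl (Or.inr ⟨k, hkn, e.2.symm⟩)
    · exact Or.inl (Or.inl (Or.inl h1.1))
    · exact Or.inr ⟨k, hkn, e.1.symm⟩
  exact (Finset.finite_toSet _).subset this

lemma final_aux_tdeg_mono (w : ℕ → ℕ) {n n' : ℕ} (h : n ≤ n') (v : ℕ) :
    tdeg w n v ≤ tdeg w n' v := by
  unfold tdeg
  apply Set.ncard_le_ncard _ (final_aux_finite w n' v)
  intro b hb
  exact final_aux_tree_mono w h hb

lemma final_aux_nonleaf_mono (w : ℕ → ℕ) : Monotone (nonleaf w) := by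
  intro n n' h
  unfold nonleaf
  apply Set.ncard_le_ncard
  · rintro v ⟨h1, h2, h3⟩
    exact ⟨h1, h2.trans h, h3.trans (final_aux_tdeg_mono w h v)⟩
  · exact (Finset.finite_toSet (Finset.Icc 1 n')).subset fun v hv => by
      simpa using ⟨hv.1, hv.2.1⟩

lemma final_aux_ceil {q : ℕ} (hq : 1 ≤ q) :
    Tendsto (fun k : ℕ => ⌈(1 + 1 / (q : ℝ)) ^ k⌉₊) atTop atTop := by
  have hq' : (0 : ℝ) < q := by exact_mod_cast hq
  have h1 : Tendsto (fun k : ℕ => (1 + 1 / (q : ℝ)) ^ k) atTop atTop :=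
    tendsto_pow_atTop_atTop_of_one_lt (by have : 0 < 1 / (q : ℝ) := by positivity
                                          linarith)
  exact tendsto_nat_ceil_atTop.comp h1

/-- the deterministic part -/
lemma final_aux_det {μ : ℝ} {hh : St × Finset W → ℝ} (hμ : Expo μ) (hE : Eig μ hh)
    {X : ℕ → ℝ} (hX : Monotone X) (hX0 : ∀ n, 0 ≤ X n) {S : ℕ → St}
    (hXS : ∀ n, 3 ≤ n → X n = (S n).V.card) (hn : ∀ n, 3 ≤ n → (S n).n = n) {M : ℝ}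
    (hM : Tendsto (fun n : ℕ => hh (S n, (S n).V) / (n : ℝ) ^ μ) atTop (𝓝 M))
    (hlln : ∀ q J : ℕ, 1 ≤ q → Tendsto (fun k : ℕ =>
      (((S ⌈(1 + 1 / (q : ℝ)) ^ (k + J)⌉₊).V.card : ℝ)
        - U inhU (⌈(1 + 1 / (q : ℝ)) ^ (k + J)⌉₊ - ⌈(1 + 1 / (q : ℝ)) ^ k⌉₊)
            ⌈(1 + 1 / (q : ℝ)) ^ k⌉₊ XU (S ⌈(1 + 1 / (q : ℝ)) ^ k⌉₊, ()))
      / (⌈(1 + 1 / (q : ℝ)) ^ (k + J)⌉₊ : ℝ) ^ μ) atTop (𝓝 0)) :
    Tendsto (fun n : ℕ => X n / (n : ℝ) ^ μ) atTop (𝓝 M) := by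
  have hμ0 : 0 < μ := by have := hμ.1; linarith
  apply sandwich hX hX0 hμ0
  intro q hq p hp
  have hq' : (0 : ℝ) < q := by exact_mod_cast hq
  have hp' : (0 : ℝ) < p := by exact_mod_cast hp
  set ρ : ℝ := 1 + 1 / (q : ℝ) with hρ
  have hρ1 : 1 < ρ := by rw [hρ]; have : 0 < 1 / (q : ℝ) := by positivity
                         linarith
  have hρ0 : 0 < ρ := by linarith
  obtain ⟨n0, R0, hdisc⟩ := disc hμ hE (1 / p) (by positivity)
  obtain ⟨J, hJ⟩ := pow_unbounded_of_one_lt (2 * |R0|) hρ1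
  refine ⟨J, ?_⟩
  have hceil := final_aux_ceil hq
  have ev1 : ∀ᶠ k : ℕ in atTop, max 3 n0 ≤ ⌈ρ ^ k⌉₊ := hceil.eventually_ge_atTop _
  have hlim1 := hlln q J hq
  have hlim2 : Tendsto (fun k : ℕ => hh (S ⌈ρ ^ k⌉₊, (S ⌈ρ ^ k⌉₊).V) / ((⌈ρ ^ k⌉₊ : ℕ) : ℝ) ^ μ)
      atTop (𝓝 M) := hM.comp hceil
  have ev2 := (Metric.tendsto_nhds.1 hlim1) (1 / (2 * p)) (by positivity)
  have ev3 := (Metric.tendsto_nhds.1 hlim2) (1 / (2 * p)) (by positivity)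
  filter_upwards [ev1, ev2, ev3] with k h1 h2 h3
  rw [Real.dist_eq, sub_zero] at h2
  rw [Real.dist_eq] at h3
  set N : ℕ := ⌈ρ ^ k⌉₊ with hN
  set N' : ℕ := ⌈ρ ^ (k + J)⌉₊ with hN'
  have hN3 : 3 ≤ N := (le_max_left _ _).trans h1
  have hNn0 : n0 ≤ N := (le_max_right _ _).trans h1
  have hNN' : N ≤ N' := Nat.ceil_mono (pow_le_pow_right₀ hρ1.le (by omega))
  have hN'3 : 3 ≤ N' := hN3.trans hNN'
  have hadd : N + (N' - N) = N' := by omega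
  have hpowk : 1 ≤ ρ ^ k := one_le_pow₀ hρ1.le
  have hNle : (N : ℝ) ≤ 2 * ρ ^ k := by
    have := Nat.ceil_lt_add_one (by positivity : 0 ≤ ρ ^ k)
    rw [← hN] at this; linarith
  have hR : R0 * (N : ℝ) ≤ ((N + (N' - N) : ℕ) : ℝ) := by
    rw [hadd]
    calc R0 * (N : ℝ) ≤ |R0| * (N : ℝ) :=
          mul_le_mul_of_nonneg_right (le_abs_self _) (Nat.cast_nonneg _)
      _ ≤ |R0| * (2 * ρ ^ k) := mul_le_mul_of_nonneg_left hNle (abs_nonneg _)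
      _ = 2 * |R0| * ρ ^ k := by ring
      _ ≤ ρ ^ J * ρ ^ k := mul_le_mul_of_nonneg_right hJ.le (by positivity)
      _ = ρ ^ (k + J) := by rw [pow_add]; ring
      _ ≤ N' := Nat.le_ceil _
  have hd := hdisc N (N' - N) hNn0 hR (S N) (hn N hN3).le
  rw [hadd] at hd
  have hN0 : (0 : ℝ) < N := by exact_mod_cast (by omega : 0 < N)
  have hN'0 : (0 : ℝ) < N' := by exact_mod_cast (by omega : 0 < N')
  have hNμ : 0 < (N : ℝ) ^ μ := Real.rpow_pos_of_pos hN0 _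
  have hN'μ : 0 < (N' : ℝ) ^ μ := Real.rpow_pos_of_pos hN'0 _
  rw [Real.rpow_neg (by positivity), Real.div_rpow hN'0.le hN0.le] at hd
  set Uv : ℝ := U inhU (N' - N) N XU (S N, ()) with hU
  set H : ℝ := hh (S N, (S N).V) with hH
  have hd2 : |Uv / (N' : ℝ) ^ μ - H / (N : ℝ) ^ μ| ≤ 1 / p * (X N / (N : ℝ) ^ μ) := by
    have e : Uv / (N' : ℝ) ^ μ - H / (N : ℝ) ^ μ
        = (((N' : ℝ) ^ μ / (N : ℝ) ^ μ)⁻¹ * Uv - H) / (N : ℝ) ^ μ := by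
      field_simp
    rw [e, abs_div, abs_of_pos hNμ, hXS N hN3]
    calc _ ≤ (1 / p * ((S N).V.card : ℝ)) / (N : ℝ) ^ μ := by gcongr
      _ = _ := by ring
  have h2' : |X N' / (N' : ℝ) ^ μ - Uv / (N' : ℝ) ^ μ| < 1 / (2 * p) := by
    rw [← sub_div, hXS N' hN'3]; exact h2
  have e3 : (1 : ℝ) / (2 * p) + 1 / (2 * p) = 1 / p := by field_simp; norm_num
  calc |X N' / (N' : ℝ) ^ μ - M|
      = |(X N' / (N' : ℝ) ^ μ - Uv / (N' : ℝ) ^ μ) + (Uv / (N' : ℝ) ^ μ - H / (N : ℝ) ^ μ)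
          + (H / (N : ℝ) ^ μ - M)| := by congr 1; ring
    _ ≤ |X N' / (N' : ℝ) ^ μ - Uv / (N' : ℝ) ^ μ| + |Uv / (N' : ℝ) ^ μ - H / (N : ℝ) ^ μ|
          + |H / (N : ℝ) ^ μ - M| := abs_add_three _ _ _
    _ ≤ 1 / (2 * p) + 1 / p * (X N / (N : ℝ) ^ μ) + 1 / (2 * p) := by
        gcongr
    _ = 1 / p * (X N / (N : ℝ) ^ μ) + 1 / p := by rw [← e3]; ring

theorem result : ∃ μ : ℝ, 9 / 20 ≤ μ ∧ μ ≤ 3 / 4 ∧
    (∀ {Ω : Type} [MeasurableSpace Ω] (P : Measure Ω) [IsProbabilityMeasure P]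
      (V W : ℕ → Ω → ℕ), IsFriendTree P V W →
      ∃ X : Ω → ℝ, Measurable X ∧ (∀ᵐ ω ∂P, 0 < X ω) ∧ (∀ c : ℝ, ¬ ∀ᵐ ω ∂P, X ω = c) ∧
        ∀ᵐ ω ∂P, Tendsto (fun n : ℕ => (nonleaf (fun k => W k ω) n : ℝ) / (n : ℝ) ^ μ)
          atTop (𝓝 (X ω))) ∧
    ∃ (Ω : Type) (_ : MeasurableSpace Ω) (P : Measure Ω) (_ : IsProbabilityMeasure P)
      (V W : ℕ → Ω → ℕ), IsFriendTree P V W := by
  obtain ⟨μ, hh, hμ, hE⟩ := exists_eig
  have hμ0 : 0 ≤ μ := by have := hμ.1; linarith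
  refine ⟨μ, hμ.1, hμ.2.1, ?_, exists_friendTree⟩
  intro Ω m0 P _ V W hVW
  obtain ⟨ℱ, S, hS, hcard⟩ := enc_exists P V W hVW
  obtain ⟨M, hMm, hM0, hMlim⟩ := mart hS hμ hE
  have hpos := limit_pos hS hμ hE hMm hMlim
  have hnc := limit_nonconst hS hμ hE hMm hMlim hpos
  obtain ⟨k, hk, hkt⟩ := pr_tendsto hμ0
  refine ⟨fun ω => k * M ω, ?_, ?_, ?_, ?_⟩
  · have h1 : StronglyMeasurable[m0] M := hMm.mono (iSup_le fun n => ℱ.le n)
    exact h1.measurable.const_mul k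
  · filter_upwards [hpos] with ω hω
    positivity
  · intro c hc
    apply hnc (c / k)
    filter_upwards [hc] with ω hω
    rw [← hω]; field_simp
  · have hfull : ∀ᵐ ω ∂P, ∀ n, 3 ≤ n → (S n ω).n = n := by
      rw [ae_all_iff]
      intro n
      by_cases h : 3 ≤ n
      · filter_upwards [hS.full n h] with ω hω _
        exact hω.2.1
      · exact Eventually.of_forall fun ω h' => absurd h' h
    have hl : ∀ᵐ ω ∂P, ∀ q J : ℕ, 1 ≤ q → Tendsto (fun k : ℕ =>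
      (((S ⌈(1 + 1 / (q : ℝ)) ^ (k + J)⌉₊ ω).V.card : ℝ)
        - U inhU (⌈(1 + 1 / (q : ℝ)) ^ (k + J)⌉₊ - ⌈(1 + 1 / (q : ℝ)) ^ k⌉₊)
            ⌈(1 + 1 / (q : ℝ)) ^ k⌉₊ XU (S ⌈(1 + 1 / (q : ℝ)) ^ k⌉₊ ω, ()))
      / (⌈(1 + 1 / (q : ℝ)) ^ (k + J)⌉₊ : ℝ) ^ μ) atTop (𝓝 0) := by
      rw [ae_all_iff]
      intro q
      rw [ae_all_iff]
      intro J
      by_cases hq : 1 ≤ q
      · filter_upwards [lln hS hμ q J hq] with ω hω _
        exact hω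
      · exact Eventually.of_forall fun ω h' => absurd h' hq
    filter_upwards [hcard, hMlim, hfull, hl] with ω h1 h2 h3 h4
    refine final_aux_det hμ hE (X := fun n => (nonleaf (fun k => W k ω) n : ℝ))
      (S := fun n => S n ω) ?_ (fun n => Nat.cast_nonneg _) ?_ h3 ?_ h4
    · intro a b hab
      exact Nat.cast_le.2 (final_aux_nonleaf_mono _ hab)
    · intro n hn
      simp only [h1 n hn]
    · have h5 := hkt.mul h2
      refine h5.congr' ?_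
      filter_upwards [eventually_ge_atTop 3] with n hn
      have := pr_pos hμ0 3 (n - 3)
      have h6 : (0 : ℝ) < (n : ℝ) ^ μ :=
        Real.rpow_pos_of_pos (by exact_mod_cast (by omega : 0 < n)) _
      field_simp

end FT
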