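import Pool.Agent.FT.Objs

/-! # Module Grad (friend tree, MP_5ccad8_pr) -/

open Finset MeasureTheory Filter Topology

namespace FT

namespace St

variable {S : St} {v w : W}

lemma grad_aux_arr_arr (hv : v ∈ S.V) (hw : w ∈ S.V) : (S.arr v).arr w = (S.arr w).arr v := by
  by_cases e : v = w
  · subst e; rfl
  have hw' : w ∈ (S.arr v).V := by simpa using hw
  have hv' : v ∈ (S.arr w).V := by simpa using hv
  apply St.ext
  · simp
  · rw [arr_L hw', arr_L hv', arr_L hv, arr_L hw]
    funext u
    by_cases h1 : u = v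
    · subst h1
      simp [Function.update_apply, e]
    · by_cases h2 : u = w
      · subst h2
        simp [Function.update_apply, h1]
      · simp [Function.update_apply, h1, h2]
  · funext u; simp

lemma grad_aux_bir_arr (hv : v ∈ S.V) (hw : w ∈ S.V) (hL : 0 < S.L w) :
    (S.arr v).bir w = (S.bir w).arr v := by
  have hw' : w ∈ (S.arr v).V := by simpa using hw
  have hL' : 0 < (S.arr v).L w := by
    rw [arr_L hv]
    by_cases e : w = v
    · subst e; simp
    · rw [Function.update_of_ne e]; exact hL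
  have hv' : v ∈ (S.bir w).V := mem_bir hw hL hv
  have hvn : v ≠ S.new w := by rintro rfl; exact S.new_not_mem hw hv
  have hwn : w ≠ S.new w := (S.new_ne w).symm
  apply St.ext
  · rw [bir_V hw' hL', arr_V, arr_V, bir_V hw hL, arr_new]
  · rw [bir_L hw' hL', arr_L hv', bir_L hw hL, arr_L hv, arr_new]
    funext u
    by_cases h3 : u = S.new w
    · subst h3
      simp [Function.update_apply, hvn.symm]
    · by_cases h1 : u = v
      · subst h1
        by_cases h2 : u = w
        · subst h2
          simp only [Function.update_apply, h3, if_true, if_false]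
          omega
        · simp [Function.update_apply, h3, h2]
      · by_cases h2 : u = w
        · subst h2
          simp [Function.update_apply, h3, h1]
        · simp [Function.update_apply, h3, h1, h2]
  · have hs : (S.arr v).s = S.s := by funext u; simp
    have hs' : ((S.bir w).arr v).s = (S.bir w).s := by funext u; simp
    rw [bir_s hw' hL', hs, hs', bir_s hw hL, arr_new]

lemma grad_aux_bir_bir (hv : v ∈ S.V) (hw : w ∈ S.V) (hLv : 0 < S.L v) (hLw : 0 < S.L w)
    (e : v ≠ w) : (S.bir v).bir w = (S.bir w).bir v := by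
  have hvn : v ≠ S.new w := by rintro rfl; exact S.new_not_mem hw hv
  have hwn : w ≠ S.new v := by rintro rfl; exact S.new_not_mem hv hw
  have hvv : v ≠ S.new v := (S.new_ne v).symm
  have hww : w ≠ S.new w := (S.new_ne w).symm
  have hnn : S.new v ≠ S.new w := by
    intro h
    simp only [new, List.cons.injEq] at h
    exact e h.2
  have hw' : w ∈ (S.bir v).V := mem_bir hv hLv hw
  have hv' : v ∈ (S.bir w).V := mem_bir hw hLw hv
  have hLw' : 0 < (S.bir v).L w := by rw [bir_L_ne hv hLv e.symm hwn]; exact hLw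
  have hLv' : 0 < (S.bir w).L v := by rw [bir_L_ne hw hLw e hvn]; exact hLv
  have n1 : (S.bir v).new w = S.new w := by
    unfold new; rw [bir_s_ne hv hLv e.symm hwn]
  have n2 : (S.bir w).new v = S.new v := by
    unfold new; rw [bir_s_ne hw hLw e hvn]
  apply St.ext
  · rw [bir_V hw' hLw', bir_V hv' hLv', n1, n2, bir_V hv hLv, bir_V hw hLw, Finset.insert_comm]
  · rw [bir_L hw' hLw', bir_L hv' hLv', n1, n2, bir_L hv hLv, bir_L hw hLw]
    funext u
    simp only [Function.update_apply]
    by_cases h1 : u = S.new v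
    · subst h1
      simp [hnn, hwn.symm]
    · by_cases h2 : u = S.new w
      · subst h2
        simp [hnn.symm, hvn.symm]
      · by_cases h3 : u = v
        · subst h3; simp [e, hvn, hvv]
        · by_cases h4 : u = w
          · subst h4; simp [h3, hwn, hww]
          · simp [h1, h2, h3, h4]
  · rw [bir_s hw' hLw', bir_s hv' hLv', n1, n2, bir_s hv hLv, bir_s hw hLw]
    funext u
    simp only [Function.update_apply]
    by_cases h1 : u = S.new v
    · subst h1
      simp [hnn, hwn.symm]
    · by_cases h2 : u = S.new w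
      · subst h2
        simp [hnn.symm, hvn.symm]
      · by_cases h3 : u = v
        · subst h3; simp [e, hvn, hvv]
        · by_cases h4 : u = w
          · subst h4; simp [h3, hwn, hww]
          · simp [h1, h2, h3, h4]

end St

/-- the generator for unlabelled states -/
lemma grad_aux_gen (F : St × Unit → ℝ) (S : St) :
    gen inhU F (S, ()) = ∑ w ∈ S.V, (((S.L w : ℝ) + S.κ w) * (F (S.arr w, ()) - F (S, ()))
      + ((S.L w : ℝ) / S.d w) * (F (S.bir w, ()) - F (S, ()))) := rfl

/-- rates -/
noncomputable def gradRate (S : St) (w : W) : ℝ := (S.L w : ℝ) + S.κ w + S.L w / S.d w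

lemma gradRate_nonneg (S : St) (w : W) : 0 ≤ gradRate S w := by
  unfold gradRate
  have := rate_arr_nonneg S w
  have := rate_bir_nonneg S w
  linarith

/-- abstract positivity argument -/
lemma grad_aux_pos {V : Finset W} {r A B c : W → ℝ} {g0 b E e J : ℝ} (hJ : 0 < J)
    (hR : ∑ w ∈ V, r w ≤ J) (hg : |g0| ≤ b)
    (hT : ∀ w ∈ V, |A w - B w + r w * g0| ≤ r w * b + c w) (hE : |E| ≤ e) :
    |g0 + (1 / J) * (E + (∑ w ∈ V, A w - ∑ w ∈ V, B w))| ≤ b + (1 / J) * (e + ∑ w ∈ V, c w) := by
  have h1 : g0 + (1 / J) * (E + (∑ w ∈ V, A w - ∑ w ∈ V, B w))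
      = (1 - (∑ w ∈ V, r w) / J) * g0 + (1 / J) * (E + ∑ w ∈ V, (A w - B w + r w * g0)) := by
    rw [sum_add_distrib, sum_sub_distrib, ← sum_mul]
    field_simp
    ring
  rw [h1]
  have h2 : 0 ≤ 1 - (∑ w ∈ V, r w) / J := by
    rw [sub_nonneg, div_le_one hJ]; exact hR
  have h3 : |∑ w ∈ V, (A w - B w + r w * g0)| ≤ ∑ w ∈ V, (r w * b + c w) :=
    (abs_sum_le_sum_abs _ _).trans (sum_le_sum hT)
  have h4 : |(1 - (∑ w ∈ V, r w) / J) * g0| ≤ (1 - (∑ w ∈ V, r w) / J) * b := by
    rw [abs_mul, abs_of_nonneg h2]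
    exact mul_le_mul_of_nonneg_left hg h2
  have h5 : |(1 / J) * (E + ∑ w ∈ V, (A w - B w + r w * g0))|
      ≤ (1 / J) * (e + ∑ w ∈ V, (r w * b + c w)) := by
    rw [abs_mul, abs_of_pos (by positivity : (0 : ℝ) < 1 / J)]
    refine mul_le_mul_of_nonneg_left ?_ (by positivity)
    exact (abs_add_le _ _).trans (add_le_add hE h3)
  refine ((abs_add_le _ _).trans (add_le_add h4 h5)).trans (le_of_eq ?_)
  rw [sum_add_distrib, ← sum_mul]
  field_simp
  ring

section step

variable {F : St × Unit → ℝ} {N : ℕ} {l : ℝ}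

lemma grad_aux_E1 (hl : 0 ≤ l)
    (hg : ∀ (S : St) (v : W), v ∈ S.V → S.n ≤ N + 1 → |F (S.arr v, ()) - F (S, ())| ≤ l / S.d v)
    (hb : ∀ (S : St) (v : W), v ∈ S.V → S.n ≤ N + 1 → 0 < S.L v →
      |F (S.bir v, ()) - F (S, ())| ≤ l)
    {S : St} {v : W} (hv : v ∈ S.V) (hn : S.n ≤ N) (hN : 0 < N) :
    |Aop inhU N F (S.arr v, ()) - Aop inhU N F (S, ())| ≤ (1 + 3 / (N : ℝ)) * (l / S.d v) := by
  have hd2 : 2 ≤ S.d v := St.two_le_d hv
  have hd : 0 < S.d v := by linarith
  have hJ : (0 : ℝ) < N := by exact_mod_cast hN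
  have hR : ∑ w ∈ S.V, gradRate S w ≤ N := S.total_rate.trans (by exact_mod_cast hn)
  have hva : v ∈ (S.arr v).V := by simpa using hv
  have hna : (S.arr v).n = S.n + 1 := St.arr_n hv
  set f : St → ℝ := fun S => F (S, ()) with hf
  -- bounds for the pieces
  have g1 : |f (S.arr v) - f S| ≤ l / S.d v := hg S v hv (by omega)
  have key := grad_aux_pos (V := S.V) (r := gradRate S)
    (A := fun w => (((S.arr v).L w : ℝ) + (S.arr v).κ w) * (f ((S.arr v).arr w) - f (S.arr v))
      + (((S.arr v).L w : ℝ) / (S.arr v).d w) * (f ((S.arr v).bir w) - f (S.arr v)))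
    (B := fun w => ((S.L w : ℝ) + S.κ w) * (f (S.arr w) - f S)
      + ((S.L w : ℝ) / S.d w) * (f (S.bir w) - f S))
    (c := fun w => (if w = v then l / (S.d v + 1) + (S.s v / (S.d v * (S.d v + 1))) * l else 0)
      + (if adj v w then (1 / S.d v - 1 / (S.d v + 1)) * (l / S.d w) else 0))
    (g0 := f (S.arr v) - f S) (b := l / S.d v) (E := 0) (e := 0) (J := N) hJ hR g1 ?_ (by simp)
  · have e1 : Aop inhU N F (S.arr v, ()) - Aop inhU N F (S, ())
        = (f (S.arr v) - f S) + 1 / (N : ℝ) * (0 + (∑ w ∈ S.V,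
          ((((S.arr v).L w : ℝ) + (S.arr v).κ w) * (f ((S.arr v).arr w) - f (S.arr v))
          + (((S.arr v).L w : ℝ) / (S.arr v).d w) * (f ((S.arr v).bir w) - f (S.arr v)))
          - ∑ w ∈ S.V, (((S.L w : ℝ) + S.κ w) * (f (S.arr w) - f S)
          + ((S.L w : ℝ) / S.d w) * (f (S.bir w) - f S)))) := by
      unfold Aop
      rw [grad_aux_gen, grad_aux_gen, St.arr_V]
      simp only [hf]
      ring
    rw [e1]
    refine key.trans ?_
    have e2 : ∑ w ∈ S.V, ((if w = v then l / (S.d v + 1) + (S.s v / (S.d v * (S.d v + 1))) * l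
        else 0) + (if adj v w then (1 / S.d v - 1 / (S.d v + 1)) * (l / S.d w) else 0))
        = l / (S.d v + 1) + (S.s v / (S.d v * (S.d v + 1))) * l
          + (1 / S.d v - 1 / (S.d v + 1)) * (l * S.κ v) := by
      rw [sum_add_distrib, sum_ite_eq' S.V v, if_pos hv, ← sum_filter]
      congr 1
      unfold St.κ St.nb
      rw [mul_sum, mul_sum]
      apply sum_congr rfl
      intro w _
      ring
    rw [e2]
    have hs : (S.s v : ℝ) ≤ S.d v := by
      unfold St.d
      have : (0 : ℝ) ≤ S.L v := Nat.cast_nonneg _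
      linarith
    have hκ : S.κ v ≤ S.d v / 2 := (St.κ_le_s hv).trans (by linarith)
    have hκ0 := S.κ_nonneg v
    have b1 : l / (S.d v + 1) ≤ l / S.d v := by
      gcongr
      linarith
    have b2 : (S.s v / (S.d v * (S.d v + 1))) * l ≤ l / S.d v := by
      have : (S.s v : ℝ) / (S.d v * (S.d v + 1)) ≤ 1 / S.d v := by
        rw [div_le_div_iff₀ (by positivity) hd]
        nlinarith
      calc (S.s v / (S.d v * (S.d v + 1))) * l ≤ 1 / S.d v * l :=
            mul_le_mul_of_nonneg_right this hl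
        _ = l / S.d v := by ring
    have b3 : (1 / S.d v - 1 / (S.d v + 1)) * (l * S.κ v) ≤ l / S.d v := by
      have h1 : 1 / S.d v - 1 / (S.d v + 1) = 1 / (S.d v * (S.d v + 1)) := by
        field_simp
        ring
      rw [h1]
      have h2 : 1 / (S.d v * (S.d v + 1)) * (l * S.κ v)
          ≤ 1 / (S.d v * (S.d v + 1)) * (l * (S.d v / 2)) := by
        gcongr
      refine h2.trans ?_
      have h3 : 1 / (S.d v * (S.d v + 1)) * (l * (S.d v / 2))
          = (l / S.d v) * (S.d v / (2 * (S.d v + 1))) := by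
        field_simp
      rw [h3]
      have h4 : S.d v / (2 * (S.d v + 1)) ≤ 1 := by
        rw [div_le_one (by positivity)]; linarith
      have h5 : 0 ≤ l / S.d v := by positivity
      nlinarith
    have h6 : 0 ≤ 1 / (N : ℝ) := by positivity
    have h7 : 1 / (N : ℝ) * (0 + (l / (S.d v + 1) + (S.s v / (S.d v * (S.d v + 1))) * l
        + (1 / S.d v - 1 / (S.d v + 1)) * (l * S.κ v))) ≤ 1 / (N : ℝ) * (3 * (l / S.d v)) := by
      apply mul_le_mul_of_nonneg_left _ h6
      linarith
    calc l / S.d v + 1 / (N : ℝ) * (0 + (l / (S.d v + 1) + (S.s v / (S.d v * (S.d v + 1))) * l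
        + (1 / S.d v - 1 / (S.d v + 1)) * (l * S.κ v)))
        ≤ l / S.d v + 1 / (N : ℝ) * (3 * (l / S.d v)) := by linarith
      _ = _ := by ring
  · intro w hw
    have hwa : w ∈ (S.arr v).V := by simpa using hw
    have hdw2 : 2 ≤ S.d w := St.two_le_d hw
    have hdw : 0 < S.d w := by linarith
    have hcom : (S.arr v).arr w = (S.arr w).arr v := St.grad_aux_arr_arr hv hw
    have ra := rate_arr_nonneg S w
    have rb := rate_bir_nonneg S w
    -- |f(arr arr) - f(arr w)|
    have p1 : |f ((S.arr v).arr w) - f (S.arr w)| ≤ l / S.d v := by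
      rw [hcom]
      refine (hg (S.arr w) v (by simpa using hv) (by rw [St.arr_n hw]; omega)).trans ?_
      have := St.arr_d_ge S w v
      gcongr
    -- |f(arr arr) - f(arr v)|
    have p2 : |f ((S.arr v).arr w) - f (S.arr v)| ≤ l / (S.arr v).d w :=
      hg (S.arr v) w hwa (by omega)
    -- |f(bir arr) - f(bir w)|
    have p3 : (S.L w : ℝ) / S.d w * |f ((S.arr v).bir w) - f (S.bir w)|
        ≤ (S.L w : ℝ) / S.d w * (l / S.d v) := by
      by_cases hL : 0 < S.L w
      · apply mul_le_mul_of_nonneg_left _ rb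
        rw [St.grad_aux_bir_arr hv hw hL]
        refine (hg (S.bir w) v (St.mem_bir hw hL hv) (by rw [St.bir_n hw hL]; omega)).trans ?_
        rw [St.bir_d_mem hw hL hv]
      · have h0 : S.L w = 0 := by omega
        simp [h0]
    have p1' := mul_le_mul_of_nonneg_left p1 ra
    by_cases e : w = v
    · subst e
      have p4 : |f ((S.arr w).bir w) - f (S.arr w)| ≤ l := by
        apply hb (S.arr w) w hwa (by omega)
        rw [St.arr_L_self hv]; omega
      have hs0 : (0 : ℝ) ≤ S.s w := Nat.cast_nonneg _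
      have hrate : ((S.L w : ℝ) + 1) / (S.d w + 1) - S.L w / S.d w
          = S.s w / (S.d w * (S.d w + 1)) := by
        have : (S.L w : ℝ) = S.d w - S.s w := by unfold St.d; ring
        rw [this]
        field_simp
        ring
      have hr0 : (0 : ℝ) ≤ S.s w / (S.d w * (S.d w + 1)) := by positivity
      rw [St.arr_d_self hv] at p2
      have hT : ((((S.arr w).L w : ℝ) + (S.arr w).κ w) * (f ((S.arr w).arr w) - f (S.arr w))
          + (((S.arr w).L w : ℝ) / (S.arr w).d w) * (f ((S.arr w).bir w) - f (S.arr w)))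
          - (((S.L w : ℝ) + S.κ w) * (f (S.arr w) - f S)
          + ((S.L w : ℝ) / S.d w) * (f (S.bir w) - f S))
          + gradRate S w * (f (S.arr w) - f S)
          = ((S.L w : ℝ) + S.κ w) * (f ((S.arr w).arr w) - f (S.arr w))
            + (f ((S.arr w).arr w) - f (S.arr w))
            + (S.L w : ℝ) / S.d w * (f ((S.arr w).bir w) - f (S.bir w))
            + S.s w / (S.d w * (S.d w + 1)) * (f ((S.arr w).bir w) - f (S.arr w)) := by
        rw [← hrate, St.arr_L_self hv, St.arr_κ_self, St.arr_d_self hv]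
        unfold gradRate
        push_cast
        ring
      rw [hT]
      refine (abs_add_le _ _).trans ?_
      refine (add_le_add_left ((abs_add_le _ _).trans (add_le_add_left (abs_add_le _ _) _)) _).trans ?_
      rw [abs_mul, abs_mul, abs_mul, abs_of_nonneg ra, abs_of_nonneg rb, abs_of_nonneg hr0,
        if_pos rfl, if_neg (not_adj_self w)]
      have p4' := mul_le_mul_of_nonneg_left p4 hr0
      unfold gradRate
      linarith
    · have hdw' : (S.arr v).d w = S.d w := St.arr_d_ne e
      have hLw' : (S.arr v).L w = S.L w := St.arr_L_ne e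
      rw [hdw'] at p2
      rw [if_neg e, zero_add]
      by_cases ha : adj v w
      · rw [if_pos ha]
        have hκ : (S.arr v).κ w = S.κ w - (1 / S.d v - 1 / (S.d v + 1)) :=
          St.arr_κ_of_adj hv (adj_symm ha)
        have hc0 : 0 ≤ 1 / S.d v - 1 / (S.d v + 1) := by
          rw [sub_nonneg]
          gcongr
          linarith
        have hT : ((((S.arr v).L w : ℝ) + (S.arr v).κ w) * (f ((S.arr v).arr w) - f (S.arr v))
            + (((S.arr v).L w : ℝ) / (S.arr v).d w) * (f ((S.arr v).bir w) - f (S.arr v)))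
            - (((S.L w : ℝ) + S.κ w) * (f (S.arr w) - f S)
            + ((S.L w : ℝ) / S.d w) * (f (S.bir w) - f S))
            + gradRate S w * (f (S.arr v) - f S)
            = ((S.L w : ℝ) + S.κ w) * (f ((S.arr v).arr w) - f (S.arr w))
              + (S.L w : ℝ) / S.d w * (f ((S.arr v).bir w) - f (S.bir w))
              - (1 / S.d v - 1 / (S.d v + 1)) * (f ((S.arr v).arr w) - f (S.arr v)) := by
          rw [hκ, hdw', hLw']
          unfold gradRate
          ring
        rw [hT]
        refine (abs_sub _ _).trans ?_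
        refine (add_le_add_left (abs_add_le _ _) _).trans ?_
        rw [abs_mul, abs_mul, abs_mul, abs_of_nonneg ra, abs_of_nonneg rb, abs_of_nonneg hc0]
        have p2' := mul_le_mul_of_nonneg_left p2 hc0
        unfold gradRate
        linarith
      · rw [if_neg ha]
        have hκ : (S.arr v).κ w = S.κ w := St.arr_κ_of_not_adj fun h => ha (adj_symm h)
        have hT : ((((S.arr v).L w : ℝ) + (S.arr v).κ w) * (f ((S.arr v).arr w) - f (S.arr v))
            + (((S.arr v).L w : ℝ) / (S.arr v).d w) * (f ((S.arr v).bir w) - f (S.arr v)))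
            - (((S.L w : ℝ) + S.κ w) * (f (S.arr w) - f S)
            + ((S.L w : ℝ) / S.d w) * (f (S.bir w) - f S))
            + gradRate S w * (f (S.arr v) - f S)
            = ((S.L w : ℝ) + S.κ w) * (f ((S.arr v).arr w) - f (S.arr w))
              + (S.L w : ℝ) / S.d w * (f ((S.arr v).bir w) - f (S.bir w)) := by
          rw [hκ, hdw', hLw']
          unfold gradRate
          ring
        rw [hT]
        refine (abs_add_le _ _).trans ?_
        rw [abs_mul, abs_mul, abs_of_nonneg ra, abs_of_nonneg rb]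
        unfold gradRate
        linarith

lemma grad_aux_E2 (hl : 0 ≤ l)
    (hg : ∀ (S : St) (v : W), v ∈ S.V → S.n ≤ N + 1 → |F (S.arr v, ()) - F (S, ())| ≤ l / S.d v)
    (hb : ∀ (S : St) (v : W), v ∈ S.V → S.n ≤ N + 1 → 0 < S.L v →
      |F (S.bir v, ()) - F (S, ())| ≤ l)
    {S : St} {v : W} (hv : v ∈ S.V) (hn : S.n ≤ N) (hN : 0 < N) (hLv : 0 < S.L v) :
    |Aop inhU N F (S.bir v, ()) - Aop inhU N F (S, ())| ≤ (1 + 3 / (N : ℝ)) * l := by
  have hd2 : 2 ≤ S.d v := St.two_le_d hv
  have hd : 0 < S.d v := by linarith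
  have hJ : (0 : ℝ) < N := by exact_mod_cast hN
  have hR : ∑ w ∈ S.V, gradRate S w ≤ N := S.total_rate.trans (by exact_mod_cast hn)
  have hva : v ∈ (S.bir v).V := St.mem_bir hv hLv hv
  have hca : S.new v ∈ (S.bir v).V := St.new_mem_bir hv hLv
  have hna : (S.bir v).n = S.n + 1 := St.bir_n hv hLv
  set f : St → ℝ := fun S => F (S, ()) with hf
  have b1 : |f (S.bir v) - f S| ≤ l := hb S v hv (by omega) hLv
  -- the newborn vertex
  have hc1 : |f ((S.bir v).arr (S.new v)) - f (S.bir v)| ≤ l / 2 := by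
    have := hg (S.bir v) (S.new v) hca (by omega)
    rwa [St.bir_d_new hv hLv] at this
  have hc2 : |f ((S.bir v).bir (S.new v)) - f (S.bir v)| ≤ l := by
    apply hb (S.bir v) (S.new v) hca (by omega)
    rw [St.bir_L_new hv hLv]; omega
  have hE : |(1 + 1 / S.d v) * (f ((S.bir v).arr (S.new v)) - f (S.bir v))
      + 1 / 2 * (f ((S.bir v).bir (S.new v)) - f (S.bir v))| ≤ 5 / 4 * l := by
    refine (abs_add_le _ _).trans ?_
    rw [abs_mul, abs_mul, abs_of_pos (by positivity : (0 : ℝ) < 1 + 1 / S.d v),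
      abs_of_pos (by norm_num : (0 : ℝ) < 1 / 2)]
    have h1 : 1 / S.d v ≤ 1 / 2 := one_div_le_one_div_of_le two_pos hd2
    have h2 : (1 + 1 / S.d v) * |f ((S.bir v).arr (S.new v)) - f (S.bir v)|
        ≤ (3 / 2) * (l / 2) := by
      apply mul_le_mul (by linarith) hc1 (abs_nonneg _) (by norm_num)
    linarith
  have key := grad_aux_pos (V := S.V) (r := gradRate S)
    (A := fun w => (((S.bir v).L w : ℝ) + (S.bir v).κ w) * (f ((S.bir v).arr w) - f (S.bir v))
      + (((S.bir v).L w : ℝ) / (S.bir v).d w) * (f ((S.bir v).bir w) - f (S.bir v)))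
    (B := fun w => ((S.L w : ℝ) + S.κ w) * (f (S.arr w) - f S)
      + ((S.L w : ℝ) / S.d w) * (f (S.bir w) - f S))
    (c := fun _ => 0)
    (g0 := f (S.bir v) - f S) (b := l)
    (E := (1 + 1 / S.d v) * (f ((S.bir v).arr (S.new v)) - f (S.bir v))
      + 1 / 2 * (f ((S.bir v).bir (S.new v)) - f (S.bir v))) (e := 5 / 4 * l) (J := N)
    hJ hR b1 ?_ hE
  · have e1 : Aop inhU N F (S.bir v, ()) - Aop inhU N F (S, ())
        = (f (S.bir v) - f S) + 1 / (N : ℝ) *
          (((1 + 1 / S.d v) * (f ((S.bir v).arr (S.new v)) - f (S.bir v))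
            + 1 / 2 * (f ((S.bir v).bir (S.new v)) - f (S.bir v))) + (∑ w ∈ S.V,
          ((((S.bir v).L w : ℝ) + (S.bir v).κ w) * (f ((S.bir v).arr w) - f (S.bir v))
          + (((S.bir v).L w : ℝ) / (S.bir v).d w) * (f ((S.bir v).bir w) - f (S.bir v)))
          - ∑ w ∈ S.V, (((S.L w : ℝ) + S.κ w) * (f (S.arr w) - f S)
          + ((S.L w : ℝ) / S.d w) * (f (S.bir w) - f S)))) := by
      unfold Aop
      rw [grad_aux_gen, grad_aux_gen, St.bir_V hv hLv, sum_insert (S.new_not_mem hv),
        St.bir_L_new hv hLv, St.bir_κ_new hv hLv, St.bir_d_new hv hLv]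
      simp only [hf]
      push_cast
      ring
    rw [e1]
    refine key.trans ?_
    rw [sum_const_zero]
    have h6 : 0 ≤ 1 / (N : ℝ) := by positivity
    have h7 : 1 / (N : ℝ) * (5 / 4 * l + 0) ≤ 1 / (N : ℝ) * (3 * l) := by
      apply mul_le_mul_of_nonneg_left _ h6
      linarith
    calc l + 1 / (N : ℝ) * (5 / 4 * l + 0) ≤ l + 1 / (N : ℝ) * (3 * l) := by linarith
      _ = _ := by ring
  · intro w hw
    have hwn : w ≠ S.new v := by rintro rfl; exact S.new_not_mem hv hw
    have hwa : w ∈ (S.bir v).V := St.mem_bir hv hLv hw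
    have hdw2 : 2 ≤ S.d w := St.two_le_d hw
    have hdw : 0 < S.d w := by linarith
    have hcom : (S.bir v).arr w = (S.arr w).bir v := (St.grad_aux_bir_arr hw hv hLv).symm
    have ra := rate_arr_nonneg S w
    have rb := rate_bir_nonneg S w
    have hLva : 0 < (S.arr w).L v := by
      by_cases e : v = w
      · subst e; rw [St.arr_L_self hv]; omega
      · rw [St.arr_L_ne e]; exact hLv
    have p1 : |f ((S.bir v).arr w) - f (S.arr w)| ≤ l := by
      rw [hcom]
      exact hb (S.arr w) v (by simpa using hv) (by rw [St.arr_n hw]; omega) hLva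
    have p1' := mul_le_mul_of_nonneg_left p1 ra
    rw [add_zero]
    by_cases e : w = v
    · subst e
      have p2 : |f ((S.bir w).arr w) - f (S.bir w)| ≤ l / S.d w := by
        have := hg (S.bir w) w hwa (by omega)
        rwa [St.bir_d_self hw hLv] at this
      have hL1 : ((S.bir w).L w : ℝ) = (S.L w : ℝ) - 1 := by
        rw [St.bir_L_self hw hLv, Nat.cast_sub hLv]; simp
      have hrb1 : 0 ≤ ((S.L w : ℝ) - 1) / S.d w := by
        apply div_nonneg _ hdw.le
        have : (1 : ℝ) ≤ S.L w := by exact_mod_cast hLv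
        linarith
      have p3 : ((S.L w : ℝ) - 1) / S.d w * |f ((S.bir w).bir w) - f (S.bir w)|
          ≤ ((S.L w : ℝ) - 1) / S.d w * l := by
        by_cases hL2 : 1 < S.L w
        · apply mul_le_mul_of_nonneg_left _ hrb1
          apply hb (S.bir w) w hwa (by omega)
          rw [St.bir_L_self hw hLv]; omega
        · have h0 : S.L w = 1 := by omega
          simp [h0]
      have hT : ((((S.bir w).L w : ℝ) + (S.bir w).κ w) * (f ((S.bir w).arr w) - f (S.bir w))
          + (((S.bir w).L w : ℝ) / (S.bir w).d w) * (f ((S.bir w).bir w) - f (S.bir w)))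
          - (((S.L w : ℝ) + S.κ w) * (f (S.arr w) - f S)
          + ((S.L w : ℝ) / S.d w) * (f (S.bir w) - f S))
          + gradRate S w * (f (S.bir w) - f S)
          = ((S.L w : ℝ) + S.κ w) * (f ((S.bir w).arr w) - f (S.arr w))
            - 1 / 2 * (f ((S.bir w).arr w) - f (S.bir w))
            + ((S.L w : ℝ) - 1) / S.d w * (f ((S.bir w).bir w) - f (S.bir w)) := by
        rw [hL1, St.bir_κ_self hw hLv, St.bir_d_self hw hLv]
        unfold gradRate
        field_simp
        ring
      rw [hT]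
      refine (abs_add_le _ _).trans ?_
      refine (add_le_add_left (abs_sub _ _) _).trans ?_
      rw [abs_mul, abs_mul, abs_mul, abs_of_nonneg ra, abs_of_nonneg hrb1,
        abs_of_pos (by norm_num : (0 : ℝ) < 1 / 2)]
      have h8 : ((S.L w : ℝ) - 1) / S.d w * l = (S.L w : ℝ) / S.d w * l - l / S.d w := by
        field_simp
      have h9 : 0 ≤ l / S.d w := by positivity
      unfold gradRate
      nlinarith [h8, h9, p1', p2, p3]
    · have hdw' : (S.bir v).d w = S.d w := St.bir_d_ne hv hLv hwn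
      have hLw' : (S.bir v).L w = S.L w := St.bir_L_ne hv hLv e hwn
      have hκ : (S.bir v).κ w = S.κ w := St.bir_κ_ne hv hLv hw e
      have p3 : (S.L w : ℝ) / S.d w * |f ((S.bir v).bir w) - f (S.bir w)|
          ≤ (S.L w : ℝ) / S.d w * l := by
        by_cases hL : 0 < S.L w
        · apply mul_le_mul_of_nonneg_left _ rb
          rw [St.grad_aux_bir_bir hv hw hLv hL (Ne.symm e)]
          have hvn : v ≠ S.new w := by rintro rfl; exact S.new_not_mem hw hv
          apply hb (S.bir w) v (St.mem_bir hw hL hv) (by rw [St.bir_n hw hL]; omega)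
          rw [St.bir_L_ne hw hL (Ne.symm e) hvn]; exact hLv
        · have h0 : S.L w = 0 := by omega
          simp [h0]
      have hT : ((((S.bir v).L w : ℝ) + (S.bir v).κ w) * (f ((S.bir v).arr w) - f (S.bir v))
          + (((S.bir v).L w : ℝ) / (S.bir v).d w) * (f ((S.bir v).bir w) - f (S.bir v)))
          - (((S.L w : ℝ) + S.κ w) * (f (S.arr w) - f S)
          + ((S.L w : ℝ) / S.d w) * (f (S.bir w) - f S))
          + gradRate S w * (f (S.bir v) - f S)
          = ((S.L w : ℝ) + S.κ w) * (f ((S.bir v).arr w) - f (S.arr w))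
            + (S.L w : ℝ) / S.d w * (f ((S.bir v).bir w) - f (S.bir w)) := by
        rw [hκ, hdw', hLw']
        unfold gradRate
        ring
      rw [hT]
      refine (abs_add_le _ _).trans ?_
      rw [abs_mul, abs_mul, abs_of_nonneg ra, abs_of_nonneg rb]
      unfold gradRate
      linarith

end step

theorem grad (m : ℕ) : ∀ (j : ℕ) (S : St) (v : W), v ∈ S.V → 0 < j → S.n ≤ j →
    |U inhU m j XU (S.arr v, ()) - U inhU m j XU (S, ())| ≤ pr 3 j m / S.d v ∧
    (0 < S.L v → |U inhU m j XU (S.bir v, ()) - U inhU m j XU (S, ())| ≤ pr 3 j m) := by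
  induction m with
  | zero =>
    intro j S v hv hj hn
    have hd := St.d_pos hv
    refine ⟨?_, fun hL => ?_⟩
    · simp only [U_zero, XU, St.arr_V, sub_self, abs_zero, pr_zero]
      positivity
    · simp only [U_zero, XU, pr_zero]
      rw [St.bir_V hv hL, card_insert_of_notMem (S.new_not_mem hv)]
      push_cast
      simp
  | succ m ih =>
    intro j S v hv hj hn
    have hl : 0 ≤ pr 3 (j + 1) m := (pr_pos (by norm_num) _ _).le
    have hg : ∀ (S : St) (v : W), v ∈ S.V → S.n ≤ j + 1 →
        |U inhU m (j + 1) XU (S.arr v, ()) - U inhU m (j + 1) XU (S, ())|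
          ≤ pr 3 (j + 1) m / S.d v :=
      fun S v hv hn => (ih (j + 1) S v hv (by omega) hn).1
    have hb : ∀ (S : St) (v : W), v ∈ S.V → S.n ≤ j + 1 → 0 < S.L v →
        |U inhU m (j + 1) XU (S.bir v, ()) - U inhU m (j + 1) XU (S, ())| ≤ pr 3 (j + 1) m :=
      fun S v hv hn => (ih (j + 1) S v hv (by omega) hn).2
    refine ⟨?_, fun hL => ?_⟩
    · rw [U_succ, pr_succ, mul_div_assoc]
      exact grad_aux_E1 hl hg hb hv hn hj
    · rw [U_succ, pr_succ]
      exact grad_aux_E2 hl hg hb hv hn hj hL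

end FT
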