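import Pool.Agent.FT.Semi2

/-! # Module Semi4 (friend tree, MP_5ccad8_pr) -/

open Finset MeasureTheory Filter Topology

namespace FT

variable {C : Type*} {inh : St → W → C → C} {Inv : St × C → Prop} {w w' F G : St × C → ℝ}
  {x : St × C} {t s : ℝ}

/-- the bound for the terms of the series on `[0,T]` -/
lemma semi4_aux_term (hw : Wt inh Inv w) {c : ℝ} (hc : 0 ≤ c) (hF : ∀ x, Inv x → |F x| ≤ c * w x)
    (hx : Inv x) {j : ℕ} (hj : 0 < j) (hn : x.1.n ≤ j) {T : ℝ} (ht : 0 ≤ t) (htT : t ≤ T)
    (m : ℕ) :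
    ‖yw t j m * U inh m j F x‖ ≤ (Nat.choose (j + m - 1) m : ℝ) * (1 - Real.exp (-T)) ^ m
      * ((j + m : ℕ) : ℝ) * (c / j * w x) := by
  rw [norm_mul, Real.norm_eq_abs, Real.norm_eq_abs, abs_of_nonneg (yw_nonneg ht j m)]
  have h1 := U_abs_le hw hc hF hx hj hn m
  have h2 := yw_le ht htT j m
  calc yw t j m * |U inh m j F x|
      ≤ ((Nat.choose (j + m - 1) m : ℝ) * (1 - Real.exp (-T)) ^ m)
        * (c * (((j + m : ℕ) : ℝ) / j) * w x) := by
        apply mul_le_mul h2 h1 (abs_nonneg _)
        exact (yw_nonneg ht j m).trans h2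
    _ = _ := by ring

lemma P_continuousOn (hw : Wt inh Inv w) (hF : Dom Inv w F) (hx : Inv x) :
    ContinuousOn (fun t => P inh t F x) (Set.Ici 0) := by
  obtain ⟨c, hc, hcF⟩ := hF
  have key : ∀ T : ℝ, 0 ≤ T → ContinuousOn (fun t => P inh t F x) (Set.Icc 0 T) := by
    intro T hT
    unfold P
    apply continuousOn_tsum (u := fun m => (Nat.choose (x.1.n + 1 + m - 1) m : ℝ)
      * (1 - Real.exp (-T)) ^ m * ((x.1.n + 1 + m : ℕ) : ℝ) * (c / ((x.1.n + 1 : ℕ) : ℝ) * w x))
    · intro m
      exact ((yw_continuous _ m).mul continuous_const).continuousOn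
    · exact (yw_bound_summable hT (Nat.succ_pos x.1.n)).mul_right _
    · intro m t ht
      exact semi4_aux_term hw hc hcF hx (Nat.succ_pos _) (Nat.le_succ _) ht.1 ht.2 m
  intro t ht
  have ht' : (0 : ℝ) ≤ t := ht
  refine ContinuousWithinAt.mono_of_mem_nhdsWithin
    (key (t + 1) (by linarith) t ⟨ht', by linarith⟩) ?_
  exact Filter.mem_of_superset (inter_mem_nhdsWithin (Set.Ici 0) (Iio_mem_nhds (lt_add_one t)))
    fun y hy => ⟨hy.1, le_of_lt hy.2⟩

/-- telescoping -/
lemma semi4_aux_tele (F : St × C → ℝ) (j m : ℕ) (x : St × C) :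
    U inh m j F x - F x = ∑ k ∈ range m, (1 / ((j + k : ℕ) : ℝ)) * U inh k j (gen inh F) x := by
  induction m with
  | zero => simp [U_zero]
  | succ m ih =>
    rw [sum_range_succ, ← ih, U_succ_last]
    have : Aop inh (j + m) F = fun x => F x + (1 / ((j + m : ℕ) : ℝ)) * gen inh F x := rfl
    rw [this, U_add_fun, U_smul]
    ring

lemma semi4_aux_int {f : ℕ → ℝ → ℝ} {g : ℝ → ℝ} (ht : 0 ≤ t) (hf : ∀ i, Continuous (f i))
    (hg : Continuous g) (h0 : ∀ i b, 0 ≤ b → b ≤ t → 0 ≤ f i b)
    (hs : ∀ b, 0 ≤ b → b ≤ t → HasSum (fun i => f i b) (g b)) :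
    HasSum (fun i => ∫ b in (0 : ℝ)..t, f i b) (∫ b in (0 : ℝ)..t, g b) := by
  have hm : ∀ b, b ∈ Set.uIoc 0 t → 0 ≤ b ∧ b ≤ t := by
    intro b hb
    rw [Set.uIoc_of_le ht] at hb
    exact ⟨hb.1.le, hb.2⟩
  refine intervalIntegral.hasSum_integral_of_dominated_convergence f ?_ ?_ ?_ ?_ ?_
  · intro i; exact (hf i).aestronglyMeasurable
  · intro i
    refine Eventually.of_forall fun b hb => ?_
    rw [Real.norm_eq_abs, abs_of_nonneg (h0 i b (hm b hb).1 (hm b hb).2)]
  · exact Eventually.of_forall fun b hb => (hs b (hm b hb).1 (hm b hb).2).summable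
  · refine (intervalIntegrable_congr ?_).1 (hg.intervalIntegrable 0 t)
    intro b hb
    exact (hs b (hm b hb).1 (hm b hb).2).tsum_eq.symm
  · exact Eventually.of_forall fun b hb => hs b (hm b hb).1 (hm b hb).2

lemma semi4_aux_int' {f : ℕ → ℝ → ℝ} {g : ℝ → ℝ} {u : ℕ → ℝ} (ht : 0 ≤ t)
    (hf : ∀ i, Continuous (f i)) (hu : Summable u)
    (hb : ∀ i b, 0 ≤ b → b ≤ t → ‖f i b‖ ≤ u i)
    (hs : ∀ b, 0 ≤ b → b ≤ t → HasSum (fun i => f i b) (g b)) :
    HasSum (fun i => ∫ b in (0 : ℝ)..t, f i b) (∫ b in (0 : ℝ)..t, g b) := by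
  have hm : ∀ b, b ∈ Set.uIoc 0 t → 0 ≤ b ∧ b ≤ t := by
    intro b hb
    rw [Set.uIoc_of_le ht] at hb
    exact ⟨hb.1.le, hb.2⟩
  refine intervalIntegral.hasSum_integral_of_dominated_convergence (fun i _ => u i) ?_ ?_ ?_ ?_ ?_
  · intro i; exact (hf i).aestronglyMeasurable
  · intro i
    exact Eventually.of_forall fun b hb' => hb i b (hm b hb').1 (hm b hb').2
  · exact Eventually.of_forall fun b _ => hu
  · exact intervalIntegrable_const
  · exact Eventually.of_forall fun b hb' => hs b (hm b hb').1 (hm b hb').2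

/-- the tails of the Yule weights -/
lemma semi4_aux_tail (ht : 0 ≤ t) {j : ℕ} (hj : 0 < j) (k : ℕ) :
    HasSum (fun i => yw t j (k + 1 + i)) (∫ b in (0 : ℝ)..t, ((j + k : ℕ) : ℝ) * yw b j k) := by
  have h := semi4_aux_int (t := t)
    (f := fun i b => ((j + k : ℕ) : ℝ) * yw b j k * yw (t - b) (j + k + 1) i)
    (g := fun b => ((j + k : ℕ) : ℝ) * yw b j k) ht ?_ ?_ ?_ ?_
  · have e : (fun i => ∫ b in (0 : ℝ)..t, ((j + k : ℕ) : ℝ) * yw b j k * yw (t - b) (j + k + 1) i)
        = fun i => yw t j (k + 1 + i) := by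
      funext i
      have h := yw_integral ht hj (k := k) (m := k + 1 + i) (by omega)
      rw [show k + 1 + i - k - 1 = i by omega] at h
      exact h
    rw [e] at h
    exact h
  · intro i
    exact (continuous_const.mul (yw_continuous j k)).mul
      ((yw_continuous (j + k + 1) i).comp (continuous_const.sub continuous_id))
  · exact continuous_const.mul (yw_continuous j k)
  · intro i b hb hbt
    have h1 := yw_nonneg hb j k
    have h2 := yw_nonneg (sub_nonneg.2 hbt) (j + k + 1) i
    positivity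
  · intro b hb hbt
    have h := (yw_hasSum (sub_nonneg.2 hbt) (Nat.succ_pos (j + k))).mul_left
      (((j + k : ℕ) : ℝ) * yw b j k)
    rwa [mul_one] at h

lemma semi4_aux_tail_sum (ht : 0 ≤ t) {j : ℕ} (hj : 0 < j) :
    Summable (fun k => ∫ b in (0 : ℝ)..t, ((j + k : ℕ) : ℝ) * yw b j k) := by
  have h := semi4_aux_int (t := t) (f := fun k b => ((j + k : ℕ) : ℝ) * yw b j k)
    (g := fun b => j * Real.exp b) ht (fun k => continuous_const.mul (yw_continuous j k))
    (continuous_const.mul Real.continuous_exp) ?_ ?_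
  · exact h.summable
  · intro k b hb _
    have h1 := yw_nonneg hb j k
    positivity
  · intro b hb _
    have h := yw_hasSum_mean hb hj
    simpa [mul_comm] using h

lemma P_integral (hw : Wt inh Inv w) (hF : Dom Inv w F) (hw' : Wt inh Inv w')
    (hG : Dom Inv w' (gen inh F)) (ht : 0 ≤ t) (hx : Inv x) :
    P inh t F x - F x = ∫ b in (0 : ℝ)..t, P inh b (gen inh F) x := by
  set j := x.1.n + 1 with hj
  have hj0 : 0 < j := Nat.succ_pos _
  have hn : x.1.n ≤ j := Nat.le_succ _
  obtain ⟨c', hc', hcG⟩ := id hG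
  have hjr : (0 : ℝ) < j := by exact_mod_cast hj0
  have hjk : ∀ k : ℕ, (0 : ℝ) < ((j + k : ℕ) : ℝ) := fun k => by
    exact_mod_cast (by omega : 0 < j + k)
  set v : ℕ → ℝ := fun k => (1 / ((j + k : ℕ) : ℝ)) * U inh k j (gen inh F) x with hv
  have hvb : ∀ k, |v k| ≤ c' / j * w' x := by
    intro k
    rw [hv]
    simp only
    rw [abs_mul, abs_of_pos (one_div_pos.2 (hjk k))]
    have h1 := U_abs_le hw' hc' hcG hx hj0 hn k
    calc 1 / ((j + k : ℕ) : ℝ) * |U inh k j (gen inh F) x|
        ≤ 1 / ((j + k : ℕ) : ℝ) * (c' * (((j + k : ℕ) : ℝ) / j) * w' x) :=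
          mul_le_mul_of_nonneg_left h1 (one_div_pos.2 (hjk k)).le
      _ = c' / j * w' x := by
          have := hjk k
          field_simp
  -- the double series
  set a : ℕ × ℕ → ℝ := fun p => yw t j (p.1 + 1 + p.2) * v p.1 with ha
  have htail := fun k => semi4_aux_tail ht hj0 k
  have hsum : Summable a := by
    apply Summable.of_norm
    have hnn : 0 ≤ fun p : ℕ × ℕ => ‖a p‖ := fun p => norm_nonneg _
    rw [summable_prod_of_nonneg hnn]
    have e : ∀ k i, ‖a (k, i)‖ = yw t j (k + 1 + i) * |v k| := by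
      intro k i
      rw [ha]; simp only
      rw [norm_mul, Real.norm_eq_abs, Real.norm_eq_abs, abs_of_nonneg (yw_nonneg ht _ _)]
    have hin : ∀ k, HasSum (fun i => ‖a (k, i)‖)
        ((∫ b in (0 : ℝ)..t, ((j + k : ℕ) : ℝ) * yw b j k) * |v k|) := by
      intro k
      simp_rw [e]
      exact (htail k).mul_right _
    refine ⟨fun k => (hin k).summable, ?_⟩
    have e2 : (fun k => ∑' i, ‖a (k, i)‖) =
        fun k => (∫ b in (0 : ℝ)..t, ((j + k : ℕ) : ℝ) * yw b j k) * |v k| := by
      funext k; exact (hin k).tsum_eq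
    rw [e2]
    have h0 : ∀ k, 0 ≤ ∫ b in (0 : ℝ)..t, ((j + k : ℕ) : ℝ) * yw b j k := by
      intro k
      apply intervalIntegral.integral_nonneg ht
      intro b hb
      have := yw_nonneg hb.1 j k
      positivity
    refine Summable.of_nonneg_of_le (fun k => mul_nonneg (h0 k) (abs_nonneg _))
      (fun k => mul_le_mul_of_nonneg_left (hvb k) (h0 k)) ?_
    exact (semi4_aux_tail_sum ht hj0).mul_right _
  obtain ⟨S, hS⟩ := hsum
  -- first order of summation
  have h1 : HasSum (fun k => (∫ b in (0 : ℝ)..t, ((j + k : ℕ) : ℝ) * yw b j k) * v k) S :=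
    hS.prod_fiberwise fun k => (htail k).mul_right _
  have h2 : HasSum (fun k => ∫ b in (0 : ℝ)..t, yw b j k * U inh k j (gen inh F) x)
      (∫ b in (0 : ℝ)..t, P inh b (gen inh F) x) := by
    refine semi4_aux_int' (t := t) (u := fun k => (Nat.choose (j + k - 1) k : ℝ)
      * (1 - Real.exp (-t)) ^ k * ((j + k : ℕ) : ℝ) * (c' / j * w' x)) ht ?_ ?_ ?_ ?_
    · intro k
      exact (yw_continuous j k).mul continuous_const
    · exact (yw_bound_summable ht hj0).mul_right _
    · intro k b hb hbt
      exact semi4_aux_term hw' hc' hcG hx hj0 hn hb hbt k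
    · intro b hb _
      exact P_hasSum hw' hG hb hx hj0 hn
  have e1 : (fun k => (∫ b in (0 : ℝ)..t, ((j + k : ℕ) : ℝ) * yw b j k) * v k)
      = fun k => ∫ b in (0 : ℝ)..t, yw b j k * U inh k j (gen inh F) x := by
    funext k
    rw [intervalIntegral.integral_const_mul, intervalIntegral.integral_mul_const, hv]
    have := hjk k
    field_simp
  rw [e1] at h1
  have hSI : S = ∫ b in (0 : ℝ)..t, P inh b (gen inh F) x := h1.unique h2
  -- second order of summation
  have h3 : HasSum (fun n => ∑ p ∈ HasAntidiagonal.antidiagonal n, a p) S := by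
    have h := (Finset.HasAntidiagonal.sigmaAntidiagonalEquivProd.hasSum_iff (f := a)).2 hS
    refine h.sigma fun n => ?_
    have h' := hasSum_fintype (fun p : HasAntidiagonal.antidiagonal n => a p)
    rw [Finset.sum_coe_sort (HasAntidiagonal.antidiagonal n) a] at h'
    exact h'
  have e3 : (fun n => ∑ p ∈ HasAntidiagonal.antidiagonal n, a p) =
      fun n => yw t j (n + 1) * (U inh (n + 1) j F x - F x) := by
    funext n
    rw [semi4_aux_tele, mul_sum, Finset.Nat.sum_antidiagonal_eq_sum_range_succ_mk]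
    apply sum_congr rfl
    intro k hk
    rw [mem_range] at hk
    rw [ha]
    simp only
    rw [show k + 1 + (n - k) = n + 1 by omega]
  rw [e3] at h3
  have h4 : HasSum (fun m => yw t j m * (U inh m j F x - F x)) S := by
    have h := (hasSum_nat_add_iff (f := fun m => yw t j m * (U inh m j F x - F x)) 1).1 h3
    simpa [U_zero] using h
  have h5 : HasSum (fun m => yw t j m * (U inh m j F x - F x)) (P inh t F x - F x) := by
    have h6 := (P_hasSum hw hF ht hx hj0 hn).sub ((yw_hasSum ht hj0).mul_right (F x))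
    rw [one_mul] at h6
    refine h6.congr_fun ?_
    intro m
    ring
  rw [← hSI]
  exact h5.unique h4

/-- if `gen F ≥ G - lam F` then `P_t F ≥ ∫ e^{-lam (t-b)} P_b G db` -/
lemma P_chain (hw : Wt inh Inv w) (hF : Dom Inv w F) (hGF : Dom Inv w (gen inh F))
    (hG : Dom Inv w G) {lam : ℝ} (hF0 : ∀ y, Inv y → 0 ≤ F y)
    (h : ∀ y, Inv y → G y - lam * F y ≤ gen inh F y) (ht : 0 ≤ t) (hx : Inv x) :
    ∫ b in (0 : ℝ)..t, Real.exp (-(lam * (t - b))) * P inh b G x ≤ P inh t F x := by
  have hcF := P_continuousOn hw hF hx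
  have hcG := P_continuousOn hw hG hx
  have hcGF := P_continuousOn hw hGF hx
  have hsub : Set.Icc 0 t ⊆ Set.Ici 0 := fun y hy => hy.1
  -- derivative
  have hder : ∀ b, 0 < b → HasDerivAt (fun b => P inh b F x) (P inh b (gen inh F) x) b := by
    intro b hb
    have hI : HasDerivAt (fun b => ∫ r in (0 : ℝ)..b, P inh r (gen inh F) x)
        (P inh b (gen inh F) x) b := by
      apply intervalIntegral.integral_hasDerivAt_right
      · apply ContinuousOn.intervalIntegrable
        rw [Set.uIcc_of_le hb.le]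
        exact hcGF.mono fun y hy => hy.1
      · exact ContinuousOn.stronglyMeasurableAtFilter isOpen_Ioi
          (hcGF.mono Set.Ioi_subset_Ici_self) b hb
      · exact hcGF.continuousAt (Ici_mem_nhds hb)
    have h2 : HasDerivAt (fun b => F x + ∫ r in (0 : ℝ)..b, P inh r (gen inh F) x)
        (P inh b (gen inh F) x) b := hI.const_add (F x)
    refine h2.congr_of_eventuallyEq ?_
    filter_upwards [Ioi_mem_nhds hb] with r hr
    have := P_integral hw hF hw hGF (le_of_lt hr) hx
    linarith
  have hP0 : P inh 0 F x = F x := P_zero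
  -- integrate e^{lam b} u(b)
  have hmain : ∫ b in (0 : ℝ)..t, (Real.exp (lam * b) * lam * P inh b F x
      + Real.exp (lam * b) * P inh b (gen inh F) x)
      = Real.exp (lam * t) * P inh t F x - Real.exp (lam * 0) * P inh 0 F x := by
    apply intervalIntegral.integral_eq_sub_of_hasDerivAt_of_le ht
      (f := fun b => Real.exp (lam * b) * P inh b F x)
    · apply ContinuousOn.mul
      · exact (Real.continuous_exp.comp (continuous_const.mul continuous_id)).continuousOn
      · exact hcF.mono hsub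
    · intro b hb
      have h1 : HasDerivAt (fun b : ℝ => Real.exp (lam * b)) (Real.exp (lam * b) * lam) b := by
        have := ((hasDerivAt_id b).const_mul lam).exp
        simpa using this
      exact h1.mul (hder b hb.1)
    · apply ContinuousOn.intervalIntegrable
      rw [Set.uIcc_of_le ht]
      apply ContinuousOn.add
      · apply ContinuousOn.mul
        · exact ((Real.continuous_exp.comp (continuous_const.mul continuous_id)).mul
            continuous_const).continuousOn
        · exact hcF.mono hsub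
      · apply ContinuousOn.mul
        · exact (Real.continuous_exp.comp (continuous_const.mul continuous_id)).continuousOn
        · exact hcGF.mono hsub
  have hle : ∫ b in (0 : ℝ)..t, Real.exp (lam * b) * P inh b G x ≤
      ∫ b in (0 : ℝ)..t, (Real.exp (lam * b) * lam * P inh b F x
      + Real.exp (lam * b) * P inh b (gen inh F) x) := by
    apply intervalIntegral.integral_mono_on ht
    · apply ContinuousOn.intervalIntegrable
      rw [Set.uIcc_of_le ht]
      apply ContinuousOn.mul
      · exact (Real.continuous_exp.comp (continuous_const.mul continuous_id)).continuousOn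
      · exact hcG.mono hsub
    · apply ContinuousOn.intervalIntegrable
      rw [Set.uIcc_of_le ht]
      apply ContinuousOn.add
      · apply ContinuousOn.mul
        · exact ((Real.continuous_exp.comp (continuous_const.mul continuous_id)).mul
            continuous_const).continuousOn
        · exact hcF.mono hsub
      · apply ContinuousOn.mul
        · exact (Real.continuous_exp.comp (continuous_const.mul continuous_id)).continuousOn
        · exact hcGF.mono hsub
    · intro b hb
      have hDF : Dom Inv w (fun y => lam * F y) := by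
        obtain ⟨c, hc, hcc⟩ := hF
        refine ⟨|lam| * c, by positivity, fun y hy => ?_⟩
        rw [abs_mul, mul_assoc]
        exact mul_le_mul_of_nonneg_left (hcc y hy) (abs_nonneg _)
      have hDG : Dom Inv w (fun y => G y - lam * F y) := by
        obtain ⟨c, hc, hcc⟩ := hG
        obtain ⟨d, hd, hdd⟩ := hDF
        refine ⟨c + d, by positivity, fun y hy => ?_⟩
        have h1 := hcc y hy
        have h2 := hdd y hy
        have h3 := abs_sub (G y) (lam * F y)
        linarith
      have h1 := P_mono hw hDG hGF hb.1 hx h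
      rw [P_sub_fun hw hG hDF hb.1 hx, P_smul] at h1
      have h2 := Real.exp_pos (lam * b)
      nlinarith
  have hfin : ∫ b in (0 : ℝ)..t, Real.exp (-(lam * (t - b))) * P inh b G x
      = Real.exp (-(lam * t)) * ∫ b in (0 : ℝ)..t, Real.exp (lam * b) * P inh b G x := by
    rw [← intervalIntegral.integral_const_mul]
    congr 1
    funext b
    rw [← mul_assoc, ← Real.exp_add]
    congr 2
    ring
  rw [hfin]
  have hF0x := hF0 x hx
  rw [hmain, hP0] at hle
  have hle' : ∫ b in (0 : ℝ)..t, Real.exp (lam * b) * P inh b G x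
      ≤ Real.exp (lam * t) * P inh t F x := by
    have h2 := Real.exp_pos (lam * 0)
    nlinarith
  calc Real.exp (-(lam * t)) * ∫ b in (0 : ℝ)..t, Real.exp (lam * b) * P inh b G x
      ≤ Real.exp (-(lam * t)) * (Real.exp (lam * t) * P inh t F x) :=
        mul_le_mul_of_nonneg_left hle' (Real.exp_pos _).le
    _ = P inh t F x := by
        rw [← mul_assoc, ← Real.exp_add]
        simp

lemma P_deriv_zero (hw : Wt inh Inv w) (hF : Dom Inv w F) (hx : Inv x) :
    Tendsto (fun t : ℝ => (P inh t F x - F x) / t) (𝓝[>] 0) (𝓝 (gen inh F x)) := by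
  set j := x.1.n + 1 with hj
  have hj0 : 0 < j := Nat.succ_pos _
  have hn : x.1.n ≤ j := Nat.le_succ _
  have hjr : (0 : ℝ) < j := by exact_mod_cast hj0
  obtain ⟨c, hc, hcF⟩ := id hF
  set u1 := U inh 1 j F x with hu1
  have hu1' : u1 = F x + 1 / (j : ℝ) * gen inh F x := rfl
  have y0 : ∀ t, yw t j 0 = Real.exp (-((j : ℝ) * t)) := by
    intro t; unfold yw; simp
  have y1 : ∀ t, yw t j 1 = j * Real.exp (-((j : ℝ) * t)) * (1 - Real.exp (-t)) := by
    intro t; unfold yw; simp
  -- the main part and the remainder bound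
  set f : ℝ → ℝ := fun t => yw t j 0 * F x + yw t j 1 * u1 with hf
  set r : ℝ → ℝ := fun t => j * Real.exp t - (yw t j 0 * j + yw t j 1 * (j + 1)) with hr
  have d0 : HasDerivAt (fun t => yw t j 0) (-(j : ℝ)) 0 := by
    have h := (((hasDerivAt_id (0 : ℝ)).const_mul (j : ℝ)).neg).exp
    have e : (fun t => yw t j 0) = fun t => Real.exp (-((j : ℝ) * t)) := funext y0
    rw [e]
    simpa using h
  have d1 : HasDerivAt (fun t => yw t j 1) (j : ℝ) 0 := by
    have h1 := (((hasDerivAt_id (0 : ℝ)).const_mul (j : ℝ)).neg).exp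
    have h2 := ((hasDerivAt_id (0 : ℝ)).neg.exp).const_sub 1
    have h3 := (h1.const_mul (j : ℝ)).mul h2
    have e : (fun t => yw t j 1) = fun t => j * Real.exp (-((j : ℝ) * t)) * (1 - Real.exp (-t)) :=
      funext y1
    rw [e]
    have e4 : (j : ℝ) * (Real.exp (-((j : ℝ) * id 0)) * -((j : ℝ) * 1)) * (1 - Real.exp (-id 0))
        + (j : ℝ) * Real.exp (-((j : ℝ) * id 0)) * -(Real.exp (-id 0) * -1) = j := by simp
    exact h3.congr_deriv e4
  have df : HasDerivAt f (gen inh F x) 0 := by
    have h := (d0.mul_const (F x)).add (d1.mul_const u1)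
    have e : -(j : ℝ) * F x + (j : ℝ) * u1 = gen inh F x := by
      rw [hu1']
      field_simp
      ring
    rw [e] at h
    exact h
  have dr : HasDerivAt r 0 0 := by
    have h := ((Real.hasDerivAt_exp 0).const_mul (j : ℝ)).sub
      ((d0.mul_const (j : ℝ)).add (d1.mul_const ((j : ℝ) + 1)))
    have e : (j : ℝ) * Real.exp 0 - (-(j : ℝ) * j + (j : ℝ) * ((j : ℝ) + 1)) = 0 := by
      rw [Real.exp_zero]
      ring
    rw [e] at h
    exact h
  have f0 : f 0 = F x := by
    rw [hf]; simp only; rw [y0, y1]; simp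
  have r0 : r 0 = 0 := by
    rw [hr]; simp only; rw [y0, y1]; simp
  have tf : Tendsto (fun t => (f t - F x) / t) (𝓝[>] 0) (𝓝 (gen inh F x)) := by
    have h := (hasDerivAt_iff_tendsto_slope.1 df).mono_left
      (nhdsWithin_mono 0 (fun y hy => ne_of_gt hy : Set.Ioi (0 : ℝ) ⊆ {0}ᶜ))
    refine h.congr fun t => ?_
    rw [slope_def_field, f0, sub_zero]
  have tr : Tendsto (fun t => r t / t) (𝓝[>] 0) (𝓝 0) := by
    have h := (hasDerivAt_iff_tendsto_slope.1 dr).mono_left
      (nhdsWithin_mono 0 (fun y hy => ne_of_gt hy : Set.Ioi (0 : ℝ) ⊆ {0}ᶜ))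
    refine h.congr fun t => ?_
    rw [slope_def_field, r0, sub_zero, sub_zero]
  -- the remainder
  have hrem : ∀ t, 0 ≤ t → |P inh t F x - f t| ≤ c / j * w x * r t := by
    intro t ht
    have h1 := P_hasSum hw hF ht hx hj0 hn
    have h2 : HasSum (fun m => yw t j (m + 2) * U inh (m + 2) j F x) (P inh t F x - f t) := by
      have h := (hasSum_nat_add_iff' (f := fun m => yw t j m * U inh m j F x) 2).2 h1
      rw [sum_range_succ, sum_range_succ, sum_range_zero, zero_add] at h
      exact h
    have h3 : HasSum (fun m => yw t j (m + 2) * ((j + (m + 2) : ℕ) : ℝ)) (r t) := by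
      have h := (hasSum_nat_add_iff' (f := fun m => yw t j m * ((j + m : ℕ) : ℝ)) 2).2
        (yw_hasSum_mean ht hj0)
      rw [sum_range_succ, sum_range_succ, sum_range_zero, zero_add] at h
      have e : (j : ℝ) * Real.exp t - (yw t j 0 * ((j + 0 : ℕ) : ℝ) + yw t j 1 * ((j + 1 : ℕ) : ℝ))
          = r t := by
        rw [hr]
        push_cast
        ring
      rw [e] at h
      exact h
    have h4 := h3.mul_left (c / j * w x)
    have hb : ∀ m, ‖yw t j (m + 2) * U inh (m + 2) j F x‖ ≤
        c / j * w x * (yw t j (m + 2) * ((j + (m + 2) : ℕ) : ℝ)) := by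
      intro m
      rw [norm_mul, Real.norm_eq_abs, Real.norm_eq_abs, abs_of_nonneg (yw_nonneg ht _ _)]
      have h5 := U_abs_le hw hc hcF hx hj0 hn (m + 2)
      calc yw t j (m + 2) * |U inh (m + 2) j F x|
          ≤ yw t j (m + 2) * (c * (((j + (m + 2) : ℕ) : ℝ) / j) * w x) :=
            mul_le_mul_of_nonneg_left h5 (yw_nonneg ht _ _)
        _ = _ := by ring
    rw [← h2.tsum_eq, ← h4.tsum_eq]
    exact tsum_of_norm_bounded h4.summable.hasSum hb
  have t2 : Tendsto (fun t => (P inh t F x - f t) / t) (𝓝[>] 0) (𝓝 0) := by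
    have h0 : Tendsto (fun t => c / j * w x * (r t / t)) (𝓝[>] 0) (𝓝 0) := by
      have := tr.const_mul (c / j * w x)
      rwa [mul_zero] at this
    refine squeeze_zero_norm' ?_ h0
    filter_upwards [self_mem_nhdsWithin] with t ht
    have ht' : (0 : ℝ) < t := ht
    rw [norm_div, Real.norm_eq_abs, Real.norm_eq_abs, abs_of_pos ht', ← mul_div_assoc]
    exact div_le_div_of_nonneg_right (hrem t ht'.le) ht'.le
  have hsum := tf.add t2
  rw [add_zero] at hsum
  refine hsum.congr fun t => ?_
  ring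

end FT
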