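import Pool.Agent.FT.Semi3
import Pool.Agent.FT.Semi4
import Pool.Agent.FT.Pot

/-! # Module Growth (friend tree, MP_5ccad8_pr) -/

open Finset MeasureTheory Filter Topology

namespace FT

/-! ### generators of additive functionals over all core vertices -/

lemma growth_aux_gen (ψ : ℕ → ℕ → ℝ) (x : St × Unit) :
    gen inhU (fun z => ∑ y ∈ z.1.V, ψ (z.1.L y) (z.1.s y)) x =
      ∑ y ∈ x.1.V, (((x.1.L y : ℝ) + x.1.κ y) * (ψ (x.1.L y + 1) (x.1.s y) - ψ (x.1.L y) (x.1.s y))
      + ((x.1.L y : ℝ) / x.1.d y) * (ψ (x.1.L y - 1) (x.1.s y + 1) - ψ (x.1.L y) (x.1.s y)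
        + ψ 1 1)) := by
  have h := gen_additive (fun _ => true) ψ (x := (x.1, x.1.V)) (Subset.refl _)
  simp only [if_true] at h
  rw [← h]
  unfold gen
  apply sum_congr rfl
  intro v hv
  simp only [St.arr_V]
  congr 1
  by_cases hL : 0 < x.1.L v
  · have : inhT (fun _ => true) x.1 v x.1.V = insert (x.1.new v) x.1.V := by simp [inhT, hv]
    rw [this, St.bir_V hv hL]
  · have h0 : x.1.L v = 0 := by omega
    simp [h0]

lemma growth_aux_gen_XU (x : St × Unit) :
    gen inhU XU x = ∑ y ∈ x.1.V, (x.1.L y : ℝ) / x.1.d y := by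
  have h : XU = fun z : St × Unit => ∑ y ∈ z.1.V, (fun _ _ => (1 : ℝ)) (z.1.L y) (z.1.s y) := by
    funext z; simp [XU]
  rw [h, growth_aux_gen (fun _ _ => 1)]
  apply sum_congr rfl
  intro y _
  ring

lemma growth_aux_ratio (S : St) (y : W) : (S.L y : ℝ) / S.d y ≤ 1 := by
  unfold St.d
  apply div_le_one_of_le₀
  · have : (0 : ℝ) ≤ S.s y := Nat.cast_nonneg _
    linarith
  · positivity

lemma wt_card (θ : ℕ → Bool) : Wt (inhT θ) Sub card where
  closed := closed_sub θ
  nonneg := fun x _ => by unfold card; positivity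
  gen_le := fun x hx => by
    rw [gen_card θ hx]
    have : card x = ∑ y ∈ x.2, (1 : ℝ) := by simp [card]
    rw [this]
    apply sum_le_sum
    intro y _
    have h1 := growth_aux_ratio x.1 y
    have h2 := rate_bir_nonneg x.1 y
    split_ifs
    · linarith
    · linarith

lemma wt_XU : Wt inhU (fun _ => True) XU where
  closed := closed_true
  nonneg := fun x _ => by unfold XU; positivity
  gen_le := fun x _ => by
    rw [growth_aux_gen_XU]
    have : XU x = ∑ y ∈ x.1.V, (1 : ℝ) := by simp [XU]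
    rw [this]
    exact sum_le_sum fun y _ => growth_aux_ratio x.1 y

lemma wt_one {C : Type*} (inh : St → W → C → C) : Wt inh (fun _ => True) (fun _ => 1) where
  closed := closed_true
  nonneg := fun _ _ => zero_le_one
  gen_le := fun x _ => by rw [gen_const]; exact zero_le_one

lemma phit_seed (t : ℝ) : phit t (seed, {[]}) = mt t := by
  unfold phit mt P
  congr 1
  funext m
  congr 1
  exact phi_V m (seed.n + 1) seed

lemma growth_aux_dom_self {C : Type*} {Inv : St × C → Prop} {w : St × C → ℝ}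
    (h : ∀ x, Inv x → 0 ≤ w x) : Dom Inv w w :=
  ⟨1, zero_le_one, fun x hx => by rw [abs_of_nonneg (h x hx), one_mul]⟩

lemma growth_aux_domXU : Dom (fun _ => True) XU XU := growth_aux_dom_self wt_XU.nonneg

lemma growth_aux_XU_seed : XU (seed, ()) = 1 := by
  simp [XU, seed]

lemma growth_aux_gen_XU_nonneg (x : St × Unit) : 0 ≤ gen inhU XU x := by
  rw [growth_aux_gen_XU]
  exact sum_nonneg fun y _ => rate_bir_nonneg x.1 y

lemma one_le_mt {t : ℝ} (ht : 0 ≤ t) : 1 ≤ mt t := by
  have h := exp_le_P wt_XU growth_aux_domXU (lam := 0) (by norm_num)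
    (fun y _ => by rw [zero_mul]; exact growth_aux_gen_XU_nonneg y) ht
    (x := (seed, ())) trivial
  rw [zero_mul, Real.exp_zero, one_mul, growth_aux_XU_seed] at h
  exact h

lemma mt_mono {s t : ℝ} (hs : 0 ≤ s) (h : s ≤ t) : mt s ≤ mt t := by
  have hts : 0 ≤ t - s := by linarith
  have h1 := P_semigroup wt_XU growth_aux_domXU hs hts (x := (seed, ())) trivial
  rw [show s + (t - s) = t by ring] at h1
  unfold mt
  rw [h1]
  refine P_mono wt_XU growth_aux_domXU (Dom_P wt_XU growth_aux_domXU hts) hs trivial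
    fun y _ => ?_
  have h2 := exp_le_P wt_XU growth_aux_domXU (lam := 0) (by norm_num)
    (fun y _ => by rw [zero_mul]; exact growth_aux_gen_XU_nonneg y) hts
    (x := y) trivial
  rw [zero_mul, Real.exp_zero, one_mul] at h2
  exact h2

lemma mt_add_le {s t : ℝ} (hs : 0 ≤ s) (ht : 0 ≤ t) : mt (s + t) ≤ Real.exp s * mt t := by
  unfold mt
  rw [add_comm s t, P_semigroup wt_XU growth_aux_domXU ht hs (x := (seed, ())) trivial, ← P_smul]
  refine P_mono wt_XU (Dom_P wt_XU growth_aux_domXU hs) ?_ ht trivial fun y _ => ?_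
  · refine ⟨Real.exp s, (Real.exp_pos s).le, fun x _ => ?_⟩
    rw [abs_of_nonneg]
    have := wt_XU.nonneg x trivial
    positivity
  · have h2 := P_le_exp wt_XU growth_aux_domXU (lam := 1) (by norm_num)
      (fun y _ => by rw [one_mul]; exact wt_XU.gen_le y trivial) hs
      (x := y) trivial
    rwa [one_mul] at h2

lemma mt_continuousOn : ContinuousOn mt (Set.Ici 0) :=
  P_continuousOn wt_XU growth_aux_domXU trivial

/-! ### potentials -/

/-- every core vertex has a core neighbour or a ghost -/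
def GrowthInv (x : St × Unit) : Prop := ∀ v ∈ x.1.V, 1 ≤ x.1.s v

lemma growth_aux_closed : Closed inhU GrowthInv where
  arr := fun x hx v hv w hw => by
    rw [St.arr_V] at hw
    rw [St.arr_s]
    exact hx w hw
  bir := fun x hx v hv hL w hw => by
    rw [St.bir_V hv hL, mem_insert] at hw
    rcases hw with rfl | hw
    · rw [St.bir_s_new hv hL]
    · by_cases e : w = v
      · subst e
        rw [St.bir_s_self hv hL]
        omega
      · rw [St.bir_s_ne hv hL e (by rintro rfl; exact x.1.new_not_mem hv hw)]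
        exact hx w hw

lemma growth_aux_wt : Wt inhU GrowthInv XU where
  closed := growth_aux_closed
  nonneg := fun x _ => wt_XU.nonneg x trivial
  gen_le := fun x _ => wt_XU.gen_le x trivial

lemma growth_aux_seed : GrowthInv (seed, ()) := fun v hv => by
  have : v = [] := by simpa [seed] using hv
  subst this
  simp [seed]

/-- the growth potential -/
noncomputable def growthPsi (z : St × Unit) : ℝ := ∑ y ∈ z.1.V, psi (z.1.L y) (z.1.s y)

/-- the upper potential -/
noncomputable def growthY (z : St × Unit) : ℝ := ∑ y ∈ z.1.V, bet (z.1.L y) (z.1.s y)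

lemma growth_aux_Psi_nonneg (z : St × Unit) : 0 ≤ growthPsi z :=
  sum_nonneg fun _ _ => psi_nonneg _ _

lemma growth_aux_Psi_le (z : St × Unit) : growthPsi z ≤ XU z := by
  have : XU z = ∑ y ∈ z.1.V, (1 : ℝ) := by simp [XU]
  rw [this]
  exact sum_le_sum fun y _ => psi_le_one _ _

lemma growth_aux_dom_Psi : Dom GrowthInv XU growthPsi :=
  ⟨1, zero_le_one, fun x _ => by
    rw [abs_of_nonneg (growth_aux_Psi_nonneg x), one_mul]; exact growth_aux_Psi_le x⟩

lemma growth_aux_dom : Dom GrowthInv XU XU := growth_aux_dom_self growth_aux_wt.nonneg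

lemma growth_aux_dom_gen : Dom GrowthInv XU (gen inhU XU) :=
  ⟨1, zero_le_one, fun x _ => by
    rw [abs_of_nonneg (growth_aux_gen_XU_nonneg x), one_mul]; exact wt_XU.gen_le x trivial⟩

lemma growth_aux_gen_Psi (x : St × Unit) (hx : GrowthInv x) :
    (9 / 20) * growthPsi x ≤ gen inhU growthPsi x := by
  unfold growthPsi
  rw [growth_aux_gen psi, mul_sum]
  apply sum_le_sum
  intro y hy
  have h := psi_ineq (L := x.1.L y) (s := x.1.s y) (hx y hy) (x.1.two_le y hy) (x.1.κ_nonneg y)
  rw [psi_one]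
  unfold St.d
  refine h.trans (le_of_eq ?_)
  ring

lemma growth_aux_gen_le_Psi (x : St × Unit) (hx : GrowthInv x) :
    gen inhU XU x ≤ (11 / 10) * growthPsi x := by
  rw [growth_aux_gen_XU]
  unfold growthPsi
  rw [mul_sum]
  apply sum_le_sum
  intro y hy
  by_cases hL : 1 ≤ x.1.L y
  · exact psi_ge hL (hx y hy)
  · have h0 : x.1.L y = 0 := by omega
    rw [h0, psi_zero]
    simp

lemma growth_aux_Psi_seed : growthPsi (seed, ()) = 5 / 11 := by
  unfold growthPsi
  simp only [seed, sum_singleton, if_true]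
  exact psi_one

/-- the potential at time `t` -/
noncomputable def growthPt (t : ℝ) : ℝ := P inhU t growthPsi (seed, ())

lemma growth_aux_Pt_mono {r t : ℝ} (hr : 0 ≤ r) (h : r ≤ t) :
    Real.exp ((9 / 20) * (t - r)) * growthPt r ≤ growthPt t := by
  have htr : 0 ≤ t - r := by linarith
  have h1 := P_semigroup growth_aux_wt growth_aux_dom_Psi hr htr (x := (seed, ())) growth_aux_seed
  rw [show r + (t - r) = t by ring] at h1
  unfold growthPt
  rw [h1, ← P_smul]
  refine P_mono growth_aux_wt ?_ (Dom_P growth_aux_wt growth_aux_dom_Psi htr) hr growth_aux_seed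
    fun y hy => ?_
  · refine ⟨Real.exp ((9 / 20) * (t - r)), (Real.exp_pos _).le, fun x _ => ?_⟩
    rw [abs_of_nonneg]
    · exact mul_le_mul_of_nonneg_left (growth_aux_Psi_le x) (Real.exp_pos _).le
    · exact mul_nonneg (Real.exp_pos _).le (growth_aux_Psi_nonneg x)
  · exact exp_le_P growth_aux_wt growth_aux_dom_Psi (by norm_num) growth_aux_gen_Psi htr hy

lemma growth_aux_Pt_le {t : ℝ} (ht : 0 ≤ t) : growthPt t ≤ mt t :=
  P_mono growth_aux_wt growth_aux_dom_Psi growth_aux_dom ht growth_aux_seed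
    fun y _ => growth_aux_Psi_le y

lemma growth_aux_Pt_zero : growthPt 0 = 5 / 11 := by
  unfold growthPt
  rw [P_zero, growth_aux_Psi_seed]

lemma growth_aux_mt_le {r : ℝ} (hr : 0 ≤ r) : mt r ≤ (11 / 5 + 22 / 9) * growthPt r := by
  have h1 := P_integral growth_aux_wt growth_aux_dom growth_aux_wt growth_aux_dom_gen hr
    (x := (seed, ())) growth_aux_seed
  rw [growth_aux_XU_seed] at h1
  have h1' : mt r = 1 + ∫ b in (0 : ℝ)..r, P inhU b (gen inhU XU) (seed, ()) := by
    rw [← h1]; unfold mt; ring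
  have h0 : (5 : ℝ) / 11 ≤ growthPt r := by
    have h := growth_aux_Pt_mono le_rfl hr
    rw [growth_aux_Pt_zero] at h
    have h2 : 1 ≤ Real.exp ((9 / 20) * (r - 0)) := Real.one_le_exp (by linarith)
    nlinarith
  have hd : ∀ b ∈ Set.uIcc (0 : ℝ) r, HasDerivAt
      (fun b => (22 / 9) * Real.exp (-((9 / 20) * (r - b))) * growthPt r)
      ((11 / 10) * Real.exp (-((9 / 20) * (r - b))) * growthPt r) b := by
    intro b _
    have h2 : HasDerivAt (fun b : ℝ => -((9 / 20) * (r - b))) (9 / 20) b := by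
      have h3 := ((hasDerivAt_id b).const_mul (9 / 20 : ℝ)).sub_const (9 / 20 * r)
      have h4 : (fun b : ℝ => -((9 / 20) * (r - b))) = fun y => 9 / 20 * id y - 9 / 20 * r := by
        funext y; simp only [id]; ring
      rw [h4]
      simpa using h3
    have h3 := (h2.exp.const_mul (22 / 9 : ℝ)).mul_const (growthPt r)
    have h4 : (11 / 10) * Real.exp (-((9 / 20) * (r - b))) * growthPt r
        = 22 / 9 * (Real.exp (-((9 / 20) * (r - b))) * (9 / 20)) * growthPt r := by ring
    rw [h4]
    exact h3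
  have hc : Continuous fun b : ℝ => (11 / 10) * Real.exp (-((9 / 20) * (r - b))) * growthPt r := by
    fun_prop
  have h2 := intervalIntegral.integral_eq_sub_of_hasDerivAt hd (hc.intervalIntegrable _ _)
  have h3 : ∫ b in (0 : ℝ)..r, P inhU b (gen inhU XU) (seed, ())
      ≤ ∫ b in (0 : ℝ)..r, (11 / 10) * Real.exp (-((9 / 20) * (r - b))) * growthPt r := by
    apply intervalIntegral.integral_mono_on hr
    · apply ContinuousOn.intervalIntegrable
      rw [Set.uIcc_of_le hr]
      exact (P_continuousOn growth_aux_wt growth_aux_dom_gen growth_aux_seed).mono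
        Set.Icc_subset_Ici_self
    · exact hc.intervalIntegrable _ _
    · intro b hb
      have h4 : P inhU b (gen inhU XU) (seed, ()) ≤ (11 / 10) * growthPt b := by
        unfold growthPt
        rw [← P_smul]
        refine P_mono growth_aux_wt growth_aux_dom_gen ?_ hb.1 growth_aux_seed
          growth_aux_gen_le_Psi
        refine ⟨11 / 10, by norm_num, fun x _ => ?_⟩
        rw [abs_of_nonneg (mul_nonneg (by norm_num) (growth_aux_Psi_nonneg x))]
        exact mul_le_mul_of_nonneg_left (growth_aux_Psi_le x) (by norm_num)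
      have h5 := growth_aux_Pt_mono hb.1 hb.2
      have h6 : growthPt b ≤ Real.exp (-((9 / 20) * (r - b))) * growthPt r := by
        rw [Real.exp_neg, ← div_eq_inv_mul, le_div_iff₀ (Real.exp_pos _), mul_comm]
        exact h5
      linarith
  rw [h2] at h3
  have h7 : 0 ≤ Real.exp (-((9 / 20) * (r - 0))) * growthPt r :=
    mul_nonneg (Real.exp_pos _).le (by linarith)
  rw [sub_self, mul_zero, neg_zero, Real.exp_zero] at h3
  rw [h1']
  linarith

theorem mt_growth : ∃ C : ℝ, 0 < C ∧ ∀ r t : ℝ, 0 ≤ r → r ≤ t →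
    mt r ≤ C * Real.exp (-((9 / 20) * (t - r))) * mt t := by
  refine ⟨11 / 5 + 22 / 9, by norm_num, fun r t hr hrt => ?_⟩
  have h1 := growth_aux_mt_le hr
  have h2 := growth_aux_Pt_mono hr hrt
  have h3 := growth_aux_Pt_le (hr.trans hrt)
  have h6 : growthPt r ≤ Real.exp (-((9 / 20) * (t - r))) * mt t := by
    rw [Real.exp_neg, ← div_eq_inv_mul, le_div_iff₀ (Real.exp_pos _), mul_comm]
    exact h2.trans h3
  linarith

lemma growth_aux_Y_nonneg (z : St × Unit) : 0 ≤ growthY z :=
  sum_nonneg fun y hy => by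
    have := bet_lower (z.1.two_le y hy)
    linarith

lemma growth_aux_Y_le (z : St × Unit) : growthY z ≤ (20 / 9) * XU z := by
  have : XU z = ∑ y ∈ z.1.V, (1 : ℝ) := by simp [XU]
  rw [this, mul_sum]
  exact sum_le_sum fun y _ => by rw [mul_one]; exact bet_upper _ _

lemma growth_aux_dom_Y : Dom GrowthInv XU growthY :=
  ⟨20 / 9, by norm_num, fun x _ => by
    rw [abs_of_nonneg (growth_aux_Y_nonneg x)]; exact growth_aux_Y_le x⟩

lemma growth_aux_XU_le (z : St × Unit) : XU z ≤ (3 / 4) * growthY z := by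
  have : XU z = ∑ y ∈ z.1.V, (1 : ℝ) := by simp [XU]
  unfold growthY
  rw [this, mul_sum]
  apply sum_le_sum
  intro y hy
  have := bet_lower (z.1.two_le y hy)
  linarith

lemma growth_aux_gen_Y (x : St × Unit) (hx : GrowthInv x) :
    gen inhU growthY x ≤ (3 / 4) * growthY x := by
  unfold growthY
  rw [growth_aux_gen bet, mul_sum]
  apply sum_le_sum
  intro y hy
  have h := bet_ineq2 (L := x.1.L y) (s := x.1.s y) (x.1.two_le y hy) (hx y hy) (x.1.κ_nonneg y)
    (St.κ_le_s hy)
  rw [bet_one]
  unfold St.d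
  refine (le_of_eq ?_).trans h
  ring

theorem mt_upper : ∃ C : ℝ, 0 < C ∧ ∀ t : ℝ, 0 ≤ t → mt t ≤ C * Real.exp ((3 / 4) * t) := by
  refine ⟨(3 / 4) * (5 / 3), by norm_num, fun t ht => ?_⟩
  have h1 : mt t ≤ P inhU t (fun y => (3 / 4) * growthY y) (seed, ()) := by
    refine P_mono growth_aux_wt growth_aux_dom ?_ ht growth_aux_seed fun y _ => growth_aux_XU_le y
    refine ⟨(3 / 4) * (20 / 9), by norm_num, fun x _ => ?_⟩
    rw [abs_of_nonneg (mul_nonneg (by norm_num) (growth_aux_Y_nonneg x)), mul_assoc]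
    exact mul_le_mul_of_nonneg_left (growth_aux_Y_le x) (by norm_num)
  rw [P_smul] at h1
  have h2 := P_le_exp growth_aux_wt growth_aux_dom_Y (lam := 3 / 4) (by norm_num)
    growth_aux_gen_Y ht (x := (seed, ())) growth_aux_seed
  have h3 : growthY (seed, ()) = 5 / 3 := by
    unfold growthY
    simp only [seed, sum_singleton, if_true]
    exact bet_one
  rw [h3] at h2
  have h4 : mt t ≤ (3 / 4) * (Real.exp (3 / 4 * t) * (5 / 3)) :=
    h1.trans (mul_le_mul_of_nonneg_left h2 (by norm_num))
  refine h4.trans (le_of_eq ?_)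
  ring

end FT
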