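import Pool.Agent.FT.Growth

/-! # Module Hub (friend tree, MP_5ccad8_pr) -/

open Finset MeasureTheory Filter Topology

namespace FT

/-- the root is a core vertex with at least one other slot -/
def hub_aux_I (x : St × Unit) : Prop := [] ∈ x.1.V ∧ 1 ≤ x.1.s []

lemma hub_aux_new_ne (S : St) (v : W) : ([] : W) ≠ S.new v := by simp [St.new]

lemma hub_aux_closed : Closed inhU hub_aux_I where
  arr x hx v _ := by
    refine ⟨by simpa using hx.1, by simpa using hx.2⟩
  bir x hx v hv hL := by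
    refine ⟨St.mem_bir hv hL hx.1, ?_⟩
    by_cases h : ([] : W) = v
    · subst h
      simp only
      rw [St.bir_s_self hv hL]
      omega
    · simp only
      rw [St.bir_s_ne hv hL h (hub_aux_new_ne _ _)]
      exact hx.2

/-- `1(L ≥ i)` -/
noncomputable def hub_aux_e (i : ℕ) : St × Unit → ℝ := fun x => if i ≤ x.1.L [] then 1 else 0
/-- `1(L ≤ K)` -/
noncomputable def hub_aux_f (K : ℕ) : St × Unit → ℝ := fun x => if x.1.L [] ≤ K then 1 else 0

lemma hub_aux_pos (m : ℕ) : ∀ j : ℕ, 0 < j → ∃ c : ℝ, 0 < c ∧ ∀ (x : St × Unit) (i : ℕ),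
    hub_aux_I x → 1 ≤ x.1.L [] → x.1.n ≤ j → x.1.L [] + m = i →
    c ≤ U inhU m j (hub_aux_e i) x := by
  induction m with
  | zero =>
    intro j hj
    refine ⟨1, one_pos, ?_⟩
    intro x i _ _ _ hi
    rw [U_zero]
    simp only [hub_aux_e]
    rw [if_pos (by omega)]
  | succ m ih =>
    intro j hj
    obtain ⟨c, hc, h⟩ := ih (j + 1) (by omega)
    have hj' : (0 : ℝ) < j := by exact_mod_cast hj
    refine ⟨1 / j * c, by positivity, ?_⟩
    intro x i hx hL hn hi
    rw [U_succ]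
    let ψ : ℕ → ℕ → ℝ := fun l _ => if l = x.1.L [] + 1 then c else 0
    have h1 : Aop inhU j (fun y => ψ (y.1.L []) (y.1.s [])) x
        ≤ Aop inhU j (U inhU m (j + 1) (hub_aux_e i)) x := by
      apply Aop_mono hub_aux_closed hx hj hn
      intro y hy hyn
      simp only [ψ]
      split_ifs with hl
      · exact h y i hy (by omega) (by omega) (by omega)
      · apply U_nonneg hub_aux_closed m hy (by omega) (by omega)
        intro z _ _
        simp only [hub_aux_e]
        split_ifs <;> norm_num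
    refine le_trans ?_ h1
    unfold Aop
    rw [gen_single ψ hx.1]
    simp only [ψ]
    rw [if_neg (show ¬ x.1.L [] = x.1.L [] + 1 by omega), if_pos trivial,
      if_neg (show ¬ x.1.L [] - 1 = x.1.L [] + 1 by omega)]
    have h2 : (1 : ℝ) ≤ (x.1.L [] : ℝ) := by exact_mod_cast hL
    have h3 := x.1.κ_nonneg []
    have h4 : c ≤ ((x.1.L [] : ℝ) + x.1.κ []) * c := by nlinarith
    have h5 : 1 / (j : ℝ) * c ≤ 1 / (j : ℝ) * (((x.1.L [] : ℝ) + x.1.κ []) * c) :=
      mul_le_mul_of_nonneg_left h4 (by positivity)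
    simp only [sub_zero, sub_self, mul_zero, add_zero, zero_add]
    exact h5

lemma hub_aux_wt_one : Wt inhU hub_aux_I (fun _ => 1) where
  closed := hub_aux_closed
  nonneg := fun _ _ => zero_le_one
  gen_le := fun x _ => by rw [gen_const]; norm_num

lemma hub_aux_dom_one {F : St × Unit → ℝ} (h0 : ∀ x, 0 ≤ F x) (h1 : ∀ x, F x ≤ 1) :
    Dom hub_aux_I (fun _ => 1) F :=
  ⟨1, zero_le_one, fun x _ => by rw [abs_of_nonneg (h0 x)]; linarith [h1 x]⟩

lemma hub_aux_e_nonneg (i : ℕ) (x : St × Unit) : 0 ≤ hub_aux_e i x := by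
  unfold hub_aux_e; split_ifs <;> norm_num
lemma hub_aux_e_le (i : ℕ) (x : St × Unit) : hub_aux_e i x ≤ 1 := by
  unfold hub_aux_e; split_ifs <;> norm_num
lemma hub_aux_f_nonneg (i : ℕ) (x : St × Unit) : 0 ≤ hub_aux_f i x := by
  unfold hub_aux_f; split_ifs <;> norm_num
lemma hub_aux_f_le (i : ℕ) (x : St × Unit) : hub_aux_f i x ≤ 1 := by
  unfold hub_aux_f; split_ifs <;> norm_num

lemma hub_aux_seed : hub_aux_I (seed, ()) := by
  refine ⟨?_, ?_⟩
  · simp [seed]
  · simp [seed]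

lemma hub_aux_seed_n : seed.n = 2 := by simp [St.n, seed]

lemma hub_aux_c1 : ∃ c : ℝ, 0 < c ∧ c ≤ P inhU 1 (hub_aux_e 20) (seed, ()) := by
  obtain ⟨c, hc, h⟩ := hub_aux_pos 19 3 (by norm_num)
  have h0 := h (seed, ()) 20 hub_aux_seed (by simp [seed]) (by simp [hub_aux_seed_n])
    (by simp [seed])
  have hs := P_hasSum hub_aux_wt_one (hub_aux_dom_one (hub_aux_e_nonneg 20) (hub_aux_e_le 20))
    zero_le_one hub_aux_seed (j := 3) (by norm_num) (by simp [hub_aux_seed_n])
  have hy : 0 < yw 1 3 19 := by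
    unfold yw
    have h1 : (0 : ℝ) < (Nat.choose (3 + 19 - 1) 19 : ℝ) := by
      exact_mod_cast Nat.choose_pos (by norm_num)
    have h2 : 0 < 1 - Real.exp (-1 : ℝ) := by
      have : Real.exp (-1 : ℝ) < 1 := by
        rw [Real.exp_lt_one_iff]; norm_num
      linarith
    positivity
  refine ⟨yw 1 3 19 * c, by positivity, ?_⟩
  have h1 : yw 1 3 19 * U inhU 19 3 (hub_aux_e 20) (seed, ()) ≤ P inhU 1 (hub_aux_e 20) (seed, ()) := by
    apply le_hasSum hs 19
    intro m _
    apply mul_nonneg (yw_nonneg zero_le_one _ _)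
    apply U_nonneg hub_aux_closed m hub_aux_seed (by norm_num) (by simp [hub_aux_seed_n])
    intro z _ _
    exact hub_aux_e_nonneg _ _
  refine le_trans ?_ h1
  exact mul_le_mul_of_nonneg_left h0 hy.le

/-- the discrete estimate -/
lemma hub_aux_disc (K : ℕ) (m : ℕ) : ∀ (j : ℕ) (x : St × Unit), hub_aux_I x → 0 < j →
    x.1.n ≤ j → 10 ≤ x.1.L [] →
    U inhU m j (hub_aux_f K) x ≤ (10 + K * pr (-(4 / 5)) j m) / (x.1.L [] : ℝ) := by
  induction m with
  | zero =>
    intro j x hx hj hn hL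
    rw [U_zero, pr_zero]
    have hL' : (10 : ℝ) ≤ (x.1.L [] : ℝ) := by exact_mod_cast hL
    rw [le_div_iff₀ (by linarith)]
    unfold hub_aux_f
    split_ifs with h
    · have : (x.1.L [] : ℝ) ≤ K := by exact_mod_cast h
      linarith
    · have : (0 : ℝ) ≤ K := Nat.cast_nonneg _
      linarith
  | succ m ih =>
    intro j x hx hj hn hL
    have hj' : (1 : ℝ) ≤ j := by exact_mod_cast hj
    have hp : 0 ≤ pr (-(4 / 5)) (j + 1) m := pr_nonneg (by norm_num) (by omega) m
    have hK : (0 : ℝ) ≤ K := Nat.cast_nonneg _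
    set a : ℝ := 10 + K * pr (-(4 / 5)) (j + 1) m with ha
    have ha10 : 10 ≤ a := by rw [ha]; nlinarith [mul_nonneg hK hp]
    rw [U_succ]
    let ψ : ℕ → ℕ → ℝ := fun l _ => if 10 ≤ l then a / (l : ℝ) else 1
    have h1 : Aop inhU j (U inhU m (j + 1) (hub_aux_f K)) x ≤ Aop inhU j
        (fun y => ψ (y.1.L []) (y.1.s [])) x := by
      apply Aop_mono hub_aux_closed hx hj hn
      intro y hy hyn
      simp only [ψ]
      split_ifs with hl
      · exact ih (j + 1) y hy (by omega) (by omega) hl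
      · have := U_mono (F := hub_aux_f K) (G := fun _ => 1) hub_aux_closed m hy
          (show 0 < j + 1 by omega) (by omega) (fun z _ _ => hub_aux_f_le K z)
        rwa [U_const] at this
    refine h1.trans ?_
    unfold Aop
    rw [gen_single ψ hx.1]
    simp only [ψ]
    rw [if_pos (show 10 ≤ x.1.L [] + 1 by omega), if_pos hL]
    set l := x.1.L [] with hl
    have hL' : (10 : ℝ) ≤ (l : ℝ) := by exact_mod_cast hL
    have hκ := x.1.κ_nonneg []
    have hs : (1 : ℝ) ≤ x.1.s [] := by exact_mod_cast hx.2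
    have hB9 : (if 10 ≤ l - 1 then a / ((l - 1 : ℕ) : ℝ) else 1) ≤ a / ((l : ℝ) - 1) := by
      split_ifs with h
      · rw [Nat.cast_sub (by omega)]; simp
      · have : l = 10 := by omega
        rw [this]
        rw [le_div_iff₀ (by norm_num)]
        norm_num
        linarith
    have hd : (l : ℝ) / x.1.d [] ≤ (l : ℝ) / (l + 1) := by
      unfold St.d
      rw [← hl]
      apply div_le_div_of_nonneg_left (by linarith) (by linarith) (by linarith)
    have hd0 : 0 ≤ (l : ℝ) / x.1.d [] := rate_bir_nonneg _ _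
    have hdiff : 0 ≤ a / ((l : ℝ) - 1) - a / (l : ℝ) := by
      rw [sub_nonneg]
      apply div_le_div_of_nonneg_left (by linarith) (by linarith) (by linarith)
    have hgen : ((l : ℝ) + x.1.κ []) * (a / ((l + 1 : ℕ) : ℝ) - a / (l : ℝ))
        + (l : ℝ) / x.1.d [] * ((if 10 ≤ l - 1 then a / ((l - 1 : ℕ) : ℝ) else 1) - a / (l : ℝ))
        ≤ -(4 / 5) * (a / (l : ℝ)) := by
      have e1 : ((l : ℝ) + x.1.κ []) * (a / ((l + 1 : ℕ) : ℝ) - a / (l : ℝ))
          ≤ (l : ℝ) * (a / ((l : ℝ) + 1) - a / (l : ℝ)) := by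
        push_cast
        have : a / ((l : ℝ) + 1) - a / (l : ℝ) ≤ 0 := by
          rw [sub_nonpos]
          apply div_le_div_of_nonneg_left (by linarith) (by linarith) (by linarith)
        nlinarith
      have e2 : (l : ℝ) / x.1.d [] * ((if 10 ≤ l - 1 then a / ((l - 1 : ℕ) : ℝ) else 1) - a / (l : ℝ))
          ≤ (l : ℝ) / (l + 1) * (a / ((l : ℝ) - 1) - a / (l : ℝ)) :=
        (mul_le_mul_of_nonneg_left (by linarith) hd0).trans
          (mul_le_mul_of_nonneg_right hd hdiff)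
      have e3 : (l : ℝ) * (a / ((l : ℝ) + 1) - a / (l : ℝ))
          + (l : ℝ) / (l + 1) * (a / ((l : ℝ) - 1) - a / (l : ℝ))
          = -(a * (l - 2)) / ((l + 1) * (l - 1)) := by
        have : (l : ℝ) ≠ 0 := by linarith
        have : (l : ℝ) + 1 ≠ 0 := by linarith
        have : (l : ℝ) - 1 ≠ 0 := by linarith
        field_simp
        ring
      have e4 : -(a * (l - 2)) / (((l : ℝ) + 1) * (l - 1)) ≤ -(4 / 5) * (a / (l : ℝ)) := by
        rw [show -(4 / 5) * (a / (l : ℝ)) = (-(4 / 5) * a) / (l : ℝ) by ring]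
        rw [div_le_div_iff₀ (by nlinarith) (by linarith)]
        have : 0 ≤ a * (l * l - 10 * l + 4) := by
          apply mul_nonneg (by linarith)
          nlinarith
        nlinarith
      linarith
    have hj0 : 0 ≤ 1 / (j : ℝ) := by positivity
    calc a / (l : ℝ) + 1 / (j : ℝ) * (((l : ℝ) + x.1.κ []) * (a / ((l + 1 : ℕ) : ℝ) - a / (l : ℝ))
        + (l : ℝ) / x.1.d [] * ((if 10 ≤ l - 1 then a / ((l - 1 : ℕ) : ℝ) else 1) - a / (l : ℝ)))
        ≤ a / (l : ℝ) + 1 / (j : ℝ) * (-(4 / 5) * (a / (l : ℝ))) := by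
          apply add_le_add le_rfl
          exact mul_le_mul_of_nonneg_left hgen hj0
      _ = (a * (1 + -(4 / 5) / (j : ℝ))) / (l : ℝ) := by ring
      _ ≤ (10 + K * pr (-(4 / 5)) j (m + 1)) / (l : ℝ) := by
          apply div_le_div_of_nonneg_right _ (by linarith)
          rw [pr_succ, ha]
          have : -(4 / 5) / (j : ℝ) ≤ 0 := by
            apply div_nonpos_of_nonpos_of_nonneg (by norm_num) (by linarith)
          nlinarith

lemma hub_aux_cont (K : ℕ) {b : ℝ} (hb : 0 ≤ b) {x : St × Unit} (hx : hub_aux_I x)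
    (hL : 10 ≤ x.1.L []) :
    P inhU b (hub_aux_f K) x ≤ (10 + K * Real.exp (-(4 / 5) * b)) / (x.1.L [] : ℝ) := by
  have hj : 0 < x.1.n + 1 := by omega
  have h1 := P_hasSum hub_aux_wt_one (hub_aux_dom_one (hub_aux_f_nonneg K) (hub_aux_f_le K))
    hb hx hj (by omega)
  have h2 := yw_hasSum hb hj
  have h3 := yw_pr_hasSum (lam := -(4 / 5)) (by norm_num) hj hb
  have h4 := ((h2.mul_left 10).add (h3.mul_left (K : ℝ))).div_const (x.1.L [] : ℝ)
  rw [mul_one] at h4
  refine hasSum_le ?_ h1 h4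
  intro m
  have h5 := mul_le_mul_of_nonneg_left (hub_aux_disc K m (x.1.n + 1) x hx hj (by omega) hL)
    (yw_nonneg hb (x.1.n + 1) m)
  refine h5.trans (le_of_eq ?_)
  ring

lemma hub_aux_main {c1 : ℝ} (h1 : c1 ≤ P inhU 1 (hub_aux_e 20) (seed, ())) (K : ℕ)
    (hK : 1 ≤ K) {b : ℝ} (hb : 1 + (5 / 4) * Real.log K ≤ b) :
    P inhU b (hub_aux_f K) (seed, ()) ≤ 1 - c1 / 4 := by
  have hlog : 0 ≤ Real.log K := Real.log_nonneg (by exact_mod_cast hK)
  obtain ⟨b', rfl⟩ : ∃ b', b = 1 + b' := ⟨b - 1, by ring⟩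
  have hb' : (5 / 4) * Real.log K ≤ b' := by linarith
  have hb0 : 0 ≤ b' := by nlinarith
  have hf := hub_aux_dom_one (hub_aux_f_nonneg K) (hub_aux_f_le K)
  have he := hub_aux_dom_one (hub_aux_e_nonneg 20) (hub_aux_e_le 20)
  rw [P_semigroup hub_aux_wt_one hf zero_le_one hb0 hub_aux_seed]
  have hKe : K * Real.exp (-(4 / 5) * b') ≤ 1 := by
    have hK' : (0 : ℝ) < K := by exact_mod_cast hK
    have : Real.exp (-(4 / 5) * b') ≤ Real.exp (-Real.log K) := by
      apply Real.exp_le_exp.2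
      linarith
    rw [Real.exp_neg, Real.exp_log hK'] at this
    calc K * Real.exp (-(4 / 5) * b') ≤ K * (K : ℝ)⁻¹ := mul_le_mul_of_nonneg_left this hK'.le
      _ = 1 := mul_inv_cancel₀ hK'.ne'
  have hle : ∀ y, hub_aux_I y → P inhU b' (hub_aux_f K) y ≤ 1 - (1 / 4) * hub_aux_e 20 y := by
    intro y hy
    unfold hub_aux_e
    split_ifs with h
    · have h2 := hub_aux_cont K hb0 hy (by omega)
      refine h2.trans ?_
      have hL : (20 : ℝ) ≤ (y.1.L [] : ℝ) := by exact_mod_cast h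
      rw [div_le_iff₀ (by linarith)]
      linarith
    · have := P_mono hub_aux_wt_one hf (hub_aux_dom_one (F := fun _ => (1 : ℝ))
        (fun _ => zero_le_one) (fun _ => le_rfl)) hb0 hy (fun z _ => hub_aux_f_le K z)
      rw [P_const hb0] at this
      linarith
  have hdq : Dom hub_aux_I (fun _ => 1) (fun y => (1 / 4) * hub_aux_e 20 y) :=
    hub_aux_dom_one (fun x => by have := hub_aux_e_nonneg 20 x; linarith)
      (fun x => by have := hub_aux_e_le 20 x; linarith)
  have hd1 : Dom hub_aux_I (fun _ => 1) (fun _ : St × Unit => (1 : ℝ)) :=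
    hub_aux_dom_one (fun _ => zero_le_one) (fun _ => le_rfl)
  have hdd : Dom hub_aux_I (fun _ => 1) (fun y => 1 - (1 / 4) * hub_aux_e 20 y) :=
    hub_aux_dom_one (fun x => by have := hub_aux_e_le 20 x; linarith)
      (fun x => by have := hub_aux_e_nonneg 20 x; linarith)
  refine (P_mono hub_aux_wt_one (Dom_P hub_aux_wt_one hf hb0) hdd zero_le_one hub_aux_seed hle).trans ?_
  rw [P_sub_fun hub_aux_wt_one hd1 hdq zero_le_one hub_aux_seed, P_const zero_le_one, P_smul]
  linarith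

lemma hub_aux_gen_s {C : Type*} {inh : St → W → C → C} {x : St × C} (hx : [] ∈ x.1.V) :
    gen inh (fun y => (y.1.s [] : ℝ)) x ≤ 1 ∧ 0 ≤ gen inh (fun y => (y.1.s [] : ℝ)) x := by
  have h : gen inh (fun y => (y.1.s [] : ℝ)) x = _ :=
    gen_single (inh := inh) (fun _ s => (s : ℝ)) (x := x) (y := []) hx
  rw [h]
  push_cast
  have h1 : (x.1.L [] : ℝ) / x.1.d [] ≤ 1 := by
    rw [div_le_one (St.d_pos hx)]
    unfold St.d
    have : (0 : ℝ) ≤ x.1.s [] := Nat.cast_nonneg _
    linarith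
  have h2 : 0 ≤ (x.1.L [] : ℝ) / x.1.d [] := rate_bir_nonneg _ _
  constructor
  · ring_nf; ring_nf at h1; linarith
  · ring_nf; ring_nf at h2; linarith

lemma hub_aux_wt_s : Wt inhU hub_aux_I (fun x => (x.1.s [] : ℝ) + 1) where
  closed := hub_aux_closed
  nonneg := fun _ _ => by positivity
  gen_le := fun x hx => by
    rw [gen_add, gen_const]
    have h1 := (hub_aux_gen_s (inh := inhU) hx.1).1
    have : (0 : ℝ) ≤ x.1.s [] := Nat.cast_nonneg _
    simp only
    linarith

lemma hub_aux_Ps {b : ℝ} (hb : 0 < b) :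
    P inhU b (fun x => (x.1.s [] : ℝ)) (seed, ()) ≤ 3 + 2 * b := by
  have hd : Dom hub_aux_I (fun x => (x.1.s [] : ℝ) + 1) (fun x => (x.1.s [] : ℝ)) :=
    ⟨1, zero_le_one, fun x _ => by
      rw [abs_of_nonneg (Nat.cast_nonneg _)]; linarith⟩
  have hdb : Dom hub_aux_I (fun x => (x.1.s [] : ℝ) + 1) (fun _ => b) :=
    ⟨b, hb.le, fun x _ => by
      rw [abs_of_pos hb]
      have : (0 : ℝ) ≤ x.1.s [] := Nat.cast_nonneg _
      nlinarith⟩
  have hds : Dom hub_aux_I (fun x => (x.1.s [] : ℝ) + 1) (fun x => (x.1.s [] : ℝ) + b) :=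
    ⟨1 + b, by linarith, fun x _ => by
      have : (0 : ℝ) ≤ x.1.s [] := Nat.cast_nonneg _
      rw [abs_of_nonneg (by linarith)]
      nlinarith⟩
  have h1 := P_le_exp hub_aux_wt_s hds (lam := 1 / b) (by
    have : 0 < 1 / b := by positivity
    linarith) (fun y hy => by
      rw [gen_add, gen_const]
      have h1 := (hub_aux_gen_s (inh := inhU) hy.1).1
      have h2 : 1 ≤ 1 / b * ((y.1.s [] : ℝ) + b) := by
        have h3 : (0 : ℝ) ≤ 1 / b * y.1.s [] := by positivity
        have h4 : 1 / b * b = 1 := by field_simp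
        nlinarith
      simp only
      linarith) hb.le hub_aux_seed
  rw [P_add_fun hub_aux_wt_s hd hdb hb.le hub_aux_seed, P_const hb.le] at h1
  have h2 : (seed.s [] : ℝ) = 1 := by simp [seed]
  simp only at h1
  rw [h2] at h1
  have h3 : 1 / b * b = 1 := by field_simp
  rw [h3] at h1
  have h4 : Real.exp 1 ≤ 3 := by have := Real.exp_one_lt_d9; linarith
  nlinarith

/-- invariant for the labelled chain -/
def hub_aux_J (x : St × Finset W) : Prop := Sub x ∧ [] ∈ x.2

lemma hub_aux_J_wt (K : ℕ) : Wt (inhK K) hub_aux_J (fun x => card x + ((x.1.s [] : ℝ) + 1)) where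
  closed :=
    { arr := fun x hx v hv => ⟨(closed_sub (fun L => decide (L ≤ K))).arr x hx.1 v hv, hx.2⟩
      bir := fun x hx v hv hL => ⟨(closed_sub (fun L => decide (L ≤ K))).bir x hx.1 v hv hL, by
        simp only [inhT]
        split_ifs
        · exact mem_insert_of_mem hx.2
        · exact hx.2⟩ }
  nonneg := fun x _ => by unfold card; positivity
  gen_le := fun x hx => by
    rw [gen_add, gen_add, gen_const]
    have h1 := (hub_aux_gen_s (inh := inhK K) (hx.1 hx.2)).1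
    have h2 : gen (inhK K) card x ≤ card x := by
      rw [gen_card _ hx.1]
      have : card x = ∑ y ∈ x.2, (1 : ℝ) := by simp [card]
      rw [this]
      apply sum_le_sum
      intro y hy
      have hd : (x.1.L y : ℝ) / x.1.d y ≤ 1 := by
        rw [div_le_one (St.d_pos (hx.1 hy))]
        unfold St.d
        have : (0 : ℝ) ≤ x.1.s y := Nat.cast_nonneg _
        linarith
      have hd0 : 0 ≤ (x.1.L y : ℝ) / x.1.d y := rate_bir_nonneg _ _
      split_ifs <;> linarith
    have : (0 : ℝ) ≤ x.1.s [] := Nat.cast_nonneg _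
    simp only
    linarith

lemma hub_aux_xi_le (i L s : ℕ) : 0 ≤ xi i L s ∧ xi i L s ≤ 1 := by
  unfold xi
  split_ifs
  · constructor
    · positivity
    · apply div_le_one_of_le₀ _ (by positivity)
      have : (0 : ℝ) ≤ s := Nat.cast_nonneg _
      linarith
  · norm_num

theorem hub_lower : ∃ c : ℝ, 0 < c ∧ ∀ B : ℝ, 0 ≤ B → ∃ K1 : ℕ, 1 ≤ K1 ∧ ∀ K, K1 ≤ K →
    ∀ b : ℝ, 1 + (5 / 4) * Real.log K ≤ b → b ≤ 1 + (5 / 4) * Real.log K + B →
    c ≤ P (inhK K) b (Xi (K + 1)) (seed, {[]}) := by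
  obtain ⟨c1, hc1, h1⟩ := hub_aux_c1
  refine ⟨c1 / 8, by positivity, ?_⟩
  intro B hB
  -- the error term tends to zero
  have hlim : Tendsto (fun K : ℕ => (3 + 2 * (1 + (5 / 4) * Real.log K + B)) / (K : ℝ)) atTop (𝓝 0) := by
    have e1 : Tendsto (fun K : ℕ => Real.log K / (K : ℝ)) atTop (𝓝 0) := by
      have := (Real.isLittleO_log_id_atTop).tendsto_div_nhds_zero
      exact this.comp tendsto_natCast_atTop_atTop
    have e2 : Tendsto (fun K : ℕ => (5 + 2 * B) / (K : ℝ)) atTop (𝓝 0) :=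
      tendsto_const_div_atTop_nhds_zero_nat _
    have e3 := e2.add (e1.const_mul (5 / 2))
    rw [mul_zero, add_zero] at e3
    refine e3.congr fun K => ?_
    ring
  obtain ⟨K1, hK1⟩ := (hlim.eventually (gt_mem_nhds (show (0 : ℝ) < c1 / 8 by positivity))).exists_forall_of_atTop
  refine ⟨max K1 1, le_max_right _ _, ?_⟩
  intro K hK b hb1 hb2
  have hK1' := hK1 K ((le_max_left _ _).trans hK)
  have hK1'' : 1 ≤ K := (le_max_right _ _).trans hK
  have hKpos : (0 : ℝ) < K := by exact_mod_cast hK1''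
  have hlog : 0 ≤ Real.log K := Real.log_nonneg (by exact_mod_cast hK1'')
  have hb0 : 0 < b := by linarith
  have hA := hub_aux_main h1 K hK1'' hb1
  have hS := hub_aux_Ps hb0
  -- comparison
  let G : St × Unit → ℝ := fun x => (1 - hub_aux_f K x) - (1 / (K : ℝ)) * (x.1.s [] : ℝ)
  have hJ0 : hub_aux_J (seed, {[]}) := by
    refine ⟨?_, by simp⟩
    unfold Sub
    simp [seed]
  have hcomp : P (inhK K) b (fun z => G (z.1, ())) (seed, {[]})
      ≤ P (inhK K) b (Xi (K + 1)) (seed, {[]}) := by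
    apply P_mono (hub_aux_J_wt K) _ _ hb0.le hJ0
    · intro y hy
      have hxi : xi (K + 1) (y.1.L []) (y.1.s []) ≤ Xi (K + 1) y := by
        unfold Xi
        exact single_le_sum (f := fun z => xi (K + 1) (y.1.L z) (y.1.s z))
          (fun z _ => (hub_aux_xi_le _ _ _).1) hy.2
      refine le_trans ?_ hxi
      simp only [G]
      unfold xi hub_aux_f
      by_cases h : y.1.L [] ≤ K
      · rw [if_pos h, if_neg (by omega)]
        have : 0 ≤ 1 / (K : ℝ) * (y.1.s [] : ℝ) := by positivity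
        linarith
      · rw [if_neg h, if_pos (by omega)]
        have hL : (K : ℝ) ≤ (y.1.L [] : ℝ) := by exact_mod_cast (by omega : K ≤ y.1.L [])
        have hs : (0 : ℝ) ≤ (y.1.s [] : ℝ) := Nat.cast_nonneg _
        have hd : 0 < (y.1.L [] : ℝ) + y.1.s [] := by linarith
        have e1 : (y.1.L [] : ℝ) / ((y.1.L [] : ℝ) + y.1.s [])
            = 1 - (y.1.s [] : ℝ) / ((y.1.L [] : ℝ) + y.1.s []) := by
          field_simp; ring
        have e2 : (y.1.s [] : ℝ) / ((y.1.L [] : ℝ) + y.1.s []) ≤ (y.1.s [] : ℝ) / K :=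
          div_le_div_of_nonneg_left hs hKpos (by linarith)
        rw [e1]
        have e3 : 1 / (K : ℝ) * (y.1.s [] : ℝ) = (y.1.s [] : ℝ) / K := by ring
        linarith
    · refine ⟨1, zero_le_one, fun y hy => ?_⟩
      have hs : (0 : ℝ) ≤ (y.1.s [] : ℝ) := Nat.cast_nonneg _
      have hc : 0 ≤ card y := by unfold card; positivity
      have hf0 := hub_aux_f_nonneg K (y.1, ())
      have hf1 := hub_aux_f_le K (y.1, ())
      have hK1 : 1 / (K : ℝ) * (y.1.s [] : ℝ) ≤ (y.1.s [] : ℝ) := by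
        have : 1 / (K : ℝ) ≤ 1 := by
          rw [div_le_one hKpos]; exact_mod_cast hK1''
        nlinarith
      have hK0 : 0 ≤ 1 / (K : ℝ) * (y.1.s [] : ℝ) := by positivity
      simp only [G]
      rw [abs_le]
      constructor <;> linarith
    · refine ⟨1, zero_le_one, fun y hy => ?_⟩
      have hs : (0 : ℝ) ≤ (y.1.s [] : ℝ) := Nat.cast_nonneg _
      have h0 : 0 ≤ Xi (K + 1) y := sum_nonneg fun z _ => (hub_aux_xi_le _ _ _).1
      have h1 : Xi (K + 1) y ≤ card y := by
        unfold Xi card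
        calc ∑ z ∈ y.2, xi (K + 1) (y.1.L z) (y.1.s z) ≤ ∑ z ∈ y.2, (1 : ℝ) :=
              sum_le_sum fun z _ => (hub_aux_xi_le _ _ _).2
          _ = (y.2.card : ℝ) := by simp
      rw [abs_of_nonneg h0]
      linarith
  refine le_trans ?_ hcomp
  rw [P_forget G]
  have hd1 : Dom hub_aux_I (fun x => (x.1.s [] : ℝ) + 1) (fun _ : St × Unit => (1 : ℝ)) :=
    ⟨1, zero_le_one, fun x _ => by
      have : (0 : ℝ) ≤ x.1.s [] := Nat.cast_nonneg _
      rw [abs_one]; linarith⟩
  have hdf : Dom hub_aux_I (fun x => (x.1.s [] : ℝ) + 1) (hub_aux_f K) :=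
    ⟨1, zero_le_one, fun x _ => by
      have : (0 : ℝ) ≤ x.1.s [] := Nat.cast_nonneg _
      rw [abs_of_nonneg (hub_aux_f_nonneg K x)]
      have := hub_aux_f_le K x
      linarith⟩
  have hd1f : Dom hub_aux_I (fun x => (x.1.s [] : ℝ) + 1) (fun x => 1 - hub_aux_f K x) :=
    ⟨1, zero_le_one, fun x _ => by
      have : (0 : ℝ) ≤ x.1.s [] := Nat.cast_nonneg _
      have h2 := hub_aux_f_le K x
      have h3 := hub_aux_f_nonneg K x
      rw [abs_of_nonneg (by linarith)]
      linarith⟩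
  have hds : Dom hub_aux_I (fun x => (x.1.s [] : ℝ) + 1) (fun x => (1 / (K : ℝ)) * (x.1.s [] : ℝ)) :=
    ⟨1 / (K : ℝ), by positivity, fun x _ => by
      have : (0 : ℝ) ≤ x.1.s [] := Nat.cast_nonneg _
      rw [abs_of_nonneg (by positivity)]
      apply mul_le_mul_of_nonneg_left _ (by positivity)
      linarith⟩
  have e1 : P inhU b G (seed, ()) = 1 - P inhU b (hub_aux_f K) (seed, ())
      - (1 / (K : ℝ)) * P inhU b (fun x => (x.1.s [] : ℝ)) (seed, ()) := by
    rw [P_sub_fun hub_aux_wt_s hd1f hds hb0.le hub_aux_seed,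
      P_sub_fun hub_aux_wt_s hd1 hdf hb0.le hub_aux_seed, P_const hb0.le, P_smul]
  rw [e1]
  have e2 : (1 / (K : ℝ)) * P inhU b (fun x => (x.1.s [] : ℝ)) (seed, ()) ≤ c1 / 8 := by
    have e3 : (1 / (K : ℝ)) * P inhU b (fun x => (x.1.s [] : ℝ)) (seed, ())
        ≤ (1 / (K : ℝ)) * (3 + 2 * (1 + (5 / 4) * Real.log K + B)) := by
      apply mul_le_mul_of_nonneg_left _ (by positivity)
      linarith
    refine e3.trans ?_
    have : (1 / (K : ℝ)) * (3 + 2 * (1 + (5 / 4) * Real.log K + B))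
        = (3 + 2 * (1 + (5 / 4) * Real.log K + B)) / (K : ℝ) := by ring
    rw [this]
    exact hK1'.le
  linarith

end FT
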