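import Pool.Agent.FT.Op

/-! # Labels (sets of active vertices) and local functionals -/

namespace FT

open Finset

/-- no labels -/
def inhU : St → W → Unit → Unit := fun _ _ u => u

/-- the newborn child of `v` is active iff `v` is active and `θ (L v)` holds -/
def inhT (θ : ℕ → Bool) : St → W → Finset W → Finset W :=
  fun S v A => if v ∈ A ∧ θ (S.L v) = true then insert (S.new v) A else A

/-- plain inheritance: `A` is the set of core vertices descending from the initial `A` -/
abbrev inhA : St → W → Finset W → Finset W := inhT (fun _ => true)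

/-- inheritance is cut at births from vertices with more than `K` leaves -/
abbrev inhK (K : ℕ) : St → W → Finset W → Finset W := inhT (fun L => decide (L ≤ K))

/-- two active sets -/
def inhAB : St → W → Finset W × Finset W → Finset W × Finset W :=
  fun S v p => (inhA S v p.1, inhA S v p.2)

/-- number of active vertices -/
noncomputable def card : St × Finset W → ℝ := fun x => (x.2.card : ℝ)

/-- number of core vertices -/
noncomputable def XU : St × Unit → ℝ := fun x => (x.1.V.card : ℝ)

/-- active vertices are core vertices -/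
def Sub (x : St × Finset W) : Prop := x.2 ⊆ x.1.V

lemma closed_sub (θ : ℕ → Bool) : Closed (inhT θ) Sub where
  arr x hx v _ := by unfold Sub at *; simpa using hx
  bir x hx v hv hL := by
    unfold Sub at *
    rw [St.bir_V hv hL]
    simp only [inhT]
    split_ifs
    · exact insert_subset_insert _ hx
    · exact hx.trans (subset_insert _ _)

/-- expected number of descendants of the vertices in `A`, discrete time -/
noncomputable def phi (m j : ℕ) : St × Finset W → ℝ := U inhA m j card

/-- ideal seed, discrete time -/
noncomputable def mm (m j : ℕ) : ℝ := U inhU m j XU (seed, ())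

section local_functionals

variable {C : Type*} {inh : St → W → C → C}

/-- generator on a functional of one vertex -/
lemma gen_single (ψ : ℕ → ℕ → ℝ) {x : St × C} {y : W} (hy : y ∈ x.1.V) :
    gen inh (fun z => ψ (z.1.L y) (z.1.s y)) x =
      ((x.1.L y : ℝ) + x.1.κ y) * (ψ (x.1.L y + 1) (x.1.s y) - ψ (x.1.L y) (x.1.s y))
      + ((x.1.L y : ℝ) / x.1.d y) * (ψ (x.1.L y - 1) (x.1.s y + 1) - ψ (x.1.L y) (x.1.s y)) := by
  unfold gen
  rw [sum_eq_single_of_mem y hy]
  · simp only [St.arr_L_self hy, St.arr_s]
    by_cases hL : 0 < x.1.L y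
    · simp only [St.bir_L_self hy hL, St.bir_s_self hy hL]
    · have h0 : x.1.L y = 0 := by omega
      simp [h0]
  · intro v hv hne
    simp only [St.arr_L_ne hne.symm, St.arr_s]
    by_cases hL : 0 < x.1.L v
    · have hn : y ≠ x.1.new v := by rintro rfl; exact x.1.new_not_mem hv hy
      simp only [St.bir_L_ne hv hL hne.symm hn, St.bir_s_ne hv hL hne.symm hn]
      ring
    · have h0 : x.1.L v = 0 := by omega
      simp [h0]

/-- generator on an additive functional over the active set -/
lemma gen_additive (θ : ℕ → Bool) (ψ : ℕ → ℕ → ℝ) {x : St × Finset W} (hx : Sub x) :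
    gen (inhT θ) (fun z => ∑ y ∈ z.2, ψ (z.1.L y) (z.1.s y)) x =
      ∑ y ∈ x.2, (((x.1.L y : ℝ) + x.1.κ y) * (ψ (x.1.L y + 1) (x.1.s y) - ψ (x.1.L y) (x.1.s y))
      + ((x.1.L y : ℝ) / x.1.d y) * (ψ (x.1.L y - 1) (x.1.s y + 1) - ψ (x.1.L y) (x.1.s y)
        + if θ (x.1.L y) = true then ψ 1 1 else 0)) := by
  obtain ⟨S, A⟩ := x
  have hA : A ⊆ S.V := hx
  unfold gen
  simp only
  rw [← sum_subset hA]
  · apply sum_congr rfl
    intro v hvA
    have hv : v ∈ S.V := hA hvA
    congr 1
    · congr 1
      rw [← add_sum_erase _ _ hvA, ← add_sum_erase _ (fun y => ψ (S.L y) (S.s y)) hvA]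
      have : ∑ y ∈ A.erase v, ψ ((S.arr v).L y) ((S.arr v).s y)
          = ∑ y ∈ A.erase v, ψ (S.L y) (S.s y) := by
        apply sum_congr rfl
        intro y hy
        rw [St.arr_L_ne (ne_of_mem_erase hy), St.arr_s]
      rw [this, St.arr_L_self hv, St.arr_s]; ring
    · by_cases hL : 0 < S.L v
      · congr 1
        have hn : S.new v ∉ A := fun h => S.new_not_mem hv (hA h)
        have h1 : ∑ y ∈ A, ψ ((S.bir v).L y) ((S.bir v).s y)
            = ψ (S.L v - 1) (S.s v + 1) + ∑ y ∈ A.erase v, ψ (S.L y) (S.s y) := by
          rw [← add_sum_erase _ _ hvA, St.bir_L_self hv hL, St.bir_s_self hv hL]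
          congr 1
          apply sum_congr rfl
          intro y hy
          have hy' : y ∈ S.V := hA (mem_of_mem_erase hy)
          have hyn : y ≠ S.new v := by rintro rfl; exact S.new_not_mem hv hy'
          rw [St.bir_L_ne hv hL (ne_of_mem_erase hy) hyn, St.bir_s_ne hv hL (ne_of_mem_erase hy) hyn]
        have h2 : ∑ y ∈ A, ψ (S.L y) (S.s y)
            = ψ (S.L v) (S.s v) + ∑ y ∈ A.erase v, ψ (S.L y) (S.s y) := by
          rw [← add_sum_erase _ _ hvA]
        by_cases hθ : θ (S.L v) = true
        · have : inhT θ S v A = insert (S.new v) A := by simp [inhT, hvA, hθ]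
          rw [this, sum_insert hn, St.bir_L_new hv hL, St.bir_s_new hv hL, h1, h2, if_pos hθ]
          ring
        · have : inhT θ S v A = A := by simp [inhT, hθ]
          rw [this, h1, h2, if_neg hθ]
          ring
      · have h0 : S.L v = 0 := by omega
        simp [h0]
  · intro v hv hvA
    have e1 : ∑ y ∈ A, ψ ((S.arr v).L y) ((S.arr v).s y) = ∑ y ∈ A, ψ (S.L y) (S.s y) := by
      apply sum_congr rfl
      intro y hy
      rw [St.arr_L_ne (by rintro rfl; exact hvA hy), St.arr_s]
    rw [e1]
    by_cases hL : 0 < S.L v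
    · have : inhT θ S v A = A := by simp [inhT, hvA]
      rw [this]
      have e2 : ∑ y ∈ A, ψ ((S.bir v).L y) ((S.bir v).s y) = ∑ y ∈ A, ψ (S.L y) (S.s y) := by
        apply sum_congr rfl
        intro y hy
        have hy' : y ∈ S.V := hA hy
        rw [St.bir_L_ne hv hL (by rintro rfl; exact hvA hy)
          (by rintro rfl; exact S.new_not_mem hv hy'),
          St.bir_s_ne hv hL (by rintro rfl; exact hvA hy)
          (by rintro rfl; exact S.new_not_mem hv hy')]
      rw [e2]; ring
    · have h0 : S.L v = 0 := by omega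
      simp [h0]

/-- functions that do not depend on the label evolve in the same way for all label types -/
lemma U_forget (F : St × Unit → ℝ) (m : ℕ) : ∀ (j : ℕ) (x : St × C),
    U inh m j (fun z => F (z.1, ())) x = U inhU m j F (x.1, ()) := by
  induction m with
  | zero => intro j x; rfl
  | succ m ih =>
    intro j x
    have h : U inh m (j + 1) (fun z => F (z.1, ())) = fun z => U inhU m (j + 1) F (z.1, ()) := by
      funext z; exact ih (j + 1) z
    rw [U_succ, U_succ, h]
    rfl

end local_functionals

/-- the number of active vertices when all core vertices are active is the number of core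
vertices -/
lemma phi_V (m : ℕ) : ∀ (j : ℕ) (S : St), phi m j (S, S.V) = U inhU m j XU (S, ()) := by
  suffices h : ∀ (j : ℕ) (x : St × Finset W), x.2 = x.1.V → U inhA m j card x
      = U inhU m j XU (x.1, ()) from fun j S => h j (S, S.V) rfl
  intro j x hx
  rw [← U_forget (inh := inhA) XU m j x]
  have hcl : Closed inhA (fun x : St × Finset W => x.2 = x.1.V) :=
    { arr := fun x hx v _ => by simpa using hx
      bir := fun x hx v hv hL => by
        rw [St.bir_V hv hL, ← hx]
        simp [inhT, hx, hv] }
  apply U_congr hcl m hx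
  intro y hy _
  simp [card, XU, hy]

lemma gen_card (θ : ℕ → Bool) {x : St × Finset W} (hx : Sub x) :
    gen (inhT θ) card x =
      ∑ y ∈ x.2, ((x.1.L y : ℝ) / x.1.d y) * (if θ (x.1.L y) = true then 1 else 0) := by
  have h : card = fun z : St × Finset W => ∑ y ∈ z.2, (fun _ _ => (1 : ℝ)) (z.1.L y) (z.1.s y) := by
    funext z; simp [card]
  rw [h, gen_additive θ (fun _ _ => 1) hx]
  apply sum_congr rfl
  intro y _
  ring

end FT
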