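import Pool.Agent.FT.Fekete

/-! # Module Laplace (friend tree, MP_5ccad8_pr) -/

open Finset MeasureTheory Filter Topology

namespace FT

/-! ### bounds for `xi`, `Xi` -/

lemma laplace_aux_xi_nonneg (i L s : ℕ) : 0 ≤ xi i L s := by
  unfold xi; split_ifs
  · positivity
  · exact le_rfl

lemma laplace_aux_ratio_le (L s : ℕ) : (L : ℝ) / ((L : ℝ) + s) ≤ 1 := by
  apply div_le_one_of_le₀ <;> [skip; positivity]
  have : (0 : ℝ) ≤ s := Nat.cast_nonneg _
  linarith

lemma laplace_aux_xi_le_one (i L s : ℕ) : xi i L s ≤ 1 := by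
  unfold xi; split_ifs
  · exact laplace_aux_ratio_le L s
  · exact zero_le_one

lemma laplace_aux_card_nonneg (x : St × Finset W) : 0 ≤ card x := Nat.cast_nonneg _

lemma laplace_aux_Xi_nonneg (i : ℕ) (x : St × Finset W) : 0 ≤ Xi i x :=
  sum_nonneg fun _ _ => laplace_aux_xi_nonneg _ _ _

lemma laplace_aux_Xi_le_card (i : ℕ) (x : St × Finset W) : Xi i x ≤ card x := by
  unfold Xi card
  calc ∑ y ∈ x.2, xi i (x.1.L y) (x.1.s y) ≤ ∑ _y ∈ x.2, (1 : ℝ) :=
        sum_le_sum fun _ _ => laplace_aux_xi_le_one _ _ _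
    _ = _ := by simp

lemma laplace_aux_dom_card : Dom Sub card card :=
  ⟨1, zero_le_one, fun x _ => by rw [abs_of_nonneg (laplace_aux_card_nonneg x), one_mul]⟩

lemma laplace_aux_dom_Xi (i : ℕ) : Dom Sub card (Xi i) :=
  ⟨1, zero_le_one, fun x _ => by
    rw [abs_of_nonneg (laplace_aux_Xi_nonneg i x), one_mul]; exact laplace_aux_Xi_le_card i x⟩

lemma laplace_aux_dom_smul {F : St × Finset W → ℝ} (hF : Dom Sub card F) (c : ℝ) :
    Dom Sub card (fun x => c * F x) := by
  obtain ⟨k, hk, h⟩ := hF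
  refine ⟨|c| * k, by positivity, fun x hx => ?_⟩
  rw [abs_mul, mul_assoc]
  exact mul_le_mul_of_nonneg_left (h x hx) (abs_nonneg _)

lemma laplace_aux_dom_zero : Dom Sub card (fun _ => (0 : ℝ)) :=
  ⟨0, le_rfl, fun x _ => by simp⟩

/-! ### the generator on `Xi` -/

lemma laplace_aux_term_abs (i L s : ℕ) {κ d : ℝ} (hd : d = (L : ℝ) + s) (hd2 : 2 ≤ d)
    (hκ0 : 0 ≤ κ) (hκ : κ ≤ (s : ℝ) / 2) (b : Bool) :
    |((L : ℝ) + κ) * (xi (i + 1) (L + 1) s - xi (i + 1) L s)
      + ((L : ℝ) / d) * (xi (i + 1) (L - 1) (s + 1) - xi (i + 1) L s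
        + if b = true then xi (i + 1) 1 1 else 0)| ≤ (i : ℝ) + 4 := by
  have hL : (0 : ℝ) ≤ L := Nat.cast_nonneg _
  have hs : (0 : ℝ) ≤ s := Nat.cast_nonneg _
  have hi : (0 : ℝ) ≤ i := Nat.cast_nonneg _
  have hr0 : 0 ≤ (L : ℝ) / d := by positivity
  have hr1 : (L : ℝ) / d ≤ 1 := by rw [div_le_one (by linarith)]; linarith
  -- second part
  have h2 : |((L : ℝ) / d) * (xi (i + 1) (L - 1) (s + 1) - xi (i + 1) L s
        + if b = true then xi (i + 1) 1 1 else 0)| ≤ 2 := by
    rw [abs_mul, abs_of_nonneg hr0]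
    have a1 := laplace_aux_xi_nonneg (i + 1) (L - 1) (s + 1)
    have a2 := laplace_aux_xi_le_one (i + 1) (L - 1) (s + 1)
    have a3 := laplace_aux_xi_nonneg (i + 1) L s
    have a4 := laplace_aux_xi_le_one (i + 1) L s
    have a5 : 0 ≤ (if b = true then xi (i + 1) 1 1 else 0) := by
      split_ifs
      · exact laplace_aux_xi_nonneg _ _ _
      · exact le_rfl
    have a6 : (if b = true then xi (i + 1) 1 1 else 0) ≤ 1 := by
      split_ifs
      · exact laplace_aux_xi_le_one _ _ _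
      · exact zero_le_one
    have a7 : |xi (i + 1) (L - 1) (s + 1) - xi (i + 1) L s
        + if b = true then xi (i + 1) 1 1 else 0| ≤ 2 := by
      rw [abs_le]; constructor <;> linarith
    calc (L : ℝ) / d * |_| ≤ 1 * 2 := mul_le_mul hr1 a7 (abs_nonneg _) zero_le_one
      _ = 2 := by norm_num
  have h1 : |((L : ℝ) + κ) * (xi (i + 1) (L + 1) s - xi (i + 1) L s)| ≤ (i : ℝ) + 2 := by
    have hLk : 0 ≤ (L : ℝ) + κ := by linarith
    rw [abs_mul, abs_of_nonneg hLk]
    rcases lt_trichotomy L i with h | h | h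
    · have e1 : xi (i + 1) (L + 1) s = 0 := by unfold xi; rw [if_neg (by omega)]
      have e2 : xi (i + 1) L s = 0 := by unfold xi; rw [if_neg (by omega)]
      rw [e1, e2]; simp; linarith
    · subst h
      have e1 : xi (L + 1) (L + 1) s = ((L : ℝ) + 1) / ((L : ℝ) + 1 + s) := by
        unfold xi; rw [if_pos le_rfl]; push_cast; rfl
      have e2 : xi (L + 1) L s = 0 := by unfold xi; rw [if_neg (by omega)]
      rw [e1, e2, sub_zero, abs_of_nonneg (by positivity), mul_div_assoc', div_le_iff₀ (by positivity)]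
      nlinarith
    · have e1 : xi (i + 1) (L + 1) s = ((L : ℝ) + 1) / ((L : ℝ) + 1 + s) := by
        unfold xi; rw [if_pos (by omega)]; push_cast; rfl
      have e2 : xi (i + 1) L s = (L : ℝ) / ((L : ℝ) + s) := by unfold xi; rw [if_pos (by omega)]
      have hds : (L : ℝ) + s = d := hd.symm
      have hd0 : 0 < d := by linarith
      rw [e1, e2, hds, show (L : ℝ) + 1 + s = d + 1 by linarith]
      have e3 : ((L : ℝ) + 1) / (d + 1) - L / d = s / (d * (d + 1)) := by
        field_simp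
        linarith
      rw [e3, abs_of_nonneg (by positivity), mul_div_assoc', div_le_iff₀ (by positivity)]
      have h8 : ((L : ℝ) + κ) * s ≤ d * (d + 1) := by
        apply mul_le_mul <;> linarith
      have h9 : 1 * (d * (d + 1)) ≤ ((i : ℝ) + 2) * (d * (d + 1)) :=
        mul_le_mul_of_nonneg_right (by linarith) (by positivity)
      linarith
  calc _ ≤ _ := abs_add_le _ _
    _ ≤ ((i : ℝ) + 2) + 2 := add_le_add h1 h2
    _ = _ := by ring

lemma laplace_aux_term_lower {i : ℕ} (hi1 : 1 ≤ i) (L s : ℕ) {κ d : ℝ} (hd : d = (L : ℝ) + s)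
    (hd2 : 2 ≤ d) (hκ0 : 0 ≤ κ) (b : Bool) :
    xi i L s - 2 * xi (i + 1) L s ≤
    ((L : ℝ) + κ) * (xi (i + 1) (L + 1) s - xi (i + 1) L s)
      + ((L : ℝ) / d) * (xi (i + 1) (L - 1) (s + 1) - xi (i + 1) L s
        + if b = true then xi (i + 1) 1 1 else 0) := by
  have hL : (0 : ℝ) ≤ L := Nat.cast_nonneg _
  have hs : (0 : ℝ) ≤ s := Nat.cast_nonneg _
  have hi : (1 : ℝ) ≤ i := by exact_mod_cast hi1
  have hr0 : 0 ≤ (L : ℝ) / d := by positivity
  have hr1 : (L : ℝ) / d ≤ 1 := by rw [div_le_one (by linarith)]; linarith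
  have a1 := laplace_aux_xi_nonneg (i + 1) (L - 1) (s + 1)
  have a5 : 0 ≤ (if b = true then xi (i + 1) 1 1 else 0) := by
    split_ifs
    · exact laplace_aux_xi_nonneg _ _ _
    · exact le_rfl
  rcases lt_trichotomy L i with h | h | h
  · have e0 : xi i L s = 0 := by unfold xi; rw [if_neg (by omega)]
    have e1 : xi (i + 1) (L + 1) s = 0 := by unfold xi; rw [if_neg (by omega)]
    have e2 : xi (i + 1) L s = 0 := by unfold xi; rw [if_neg (by omega)]
    rw [e0, e1, e2]
    have : 0 ≤ ((L : ℝ) / d) * (xi (i + 1) (L - 1) (s + 1) - 0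
        + if b = true then xi (i + 1) 1 1 else 0) := by
      apply mul_nonneg hr0; linarith
    linarith
  · subst h
    have e0 : xi L L s = (L : ℝ) / d := by unfold xi; rw [if_pos le_rfl, hd]
    have e1 : xi (L + 1) (L + 1) s = ((L : ℝ) + 1) / (d + 1) := by
      unfold xi; rw [if_pos le_rfl, hd]; push_cast; congr 1; ring
    have e2 : xi (L + 1) L s = 0 := by unfold xi; rw [if_neg (by omega)]
    rw [e0, e1, e2]
    have h1 : 0 ≤ ((L : ℝ) / d) * (xi (L + 1) (L - 1) (s + 1) - 0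
        + if b = true then xi (L + 1) 1 1 else 0) := by
      apply mul_nonneg hr0; linarith
    have hd0 : 0 < d := by linarith
    have h2 : (L : ℝ) / d ≤ ((L : ℝ) + κ) * (((L : ℝ) + 1) / (d + 1) - 0) := by
      rw [sub_zero, mul_div_assoc', div_le_div_iff₀ hd0 (by linarith)]
      have : (L : ℝ) * (d + 1) ≤ (L : ℝ) * ((L + 1) * d) := by
        apply mul_le_mul_of_nonneg_left _ hL
        nlinarith
      have h3 : 0 ≤ κ * (((L : ℝ) + 1) * d) := by positivity
      nlinarith
    linarith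
  · have e0 : xi i L s = (L : ℝ) / d := by unfold xi; rw [if_pos (by omega), hd]
    have e1 : xi (i + 1) (L + 1) s = ((L : ℝ) + 1) / (d + 1) := by
      unfold xi; rw [if_pos (by omega), hd]; push_cast; congr 1; ring
    have e2 : xi (i + 1) L s = (L : ℝ) / d := by unfold xi; rw [if_pos (by omega), hd]
    have hd0 : 0 < d := by linarith
    rw [e0, e1, e2]
    have h1 : -((L : ℝ) / d) ≤ ((L : ℝ) / d) * (xi (i + 1) (L - 1) (s + 1) - (L : ℝ) / d
        + if b = true then xi (i + 1) 1 1 else 0) := by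
      have : ((L : ℝ) / d) * (-1) ≤ ((L : ℝ) / d) * (xi (i + 1) (L - 1) (s + 1) - (L : ℝ) / d
        + if b = true then xi (i + 1) 1 1 else 0) := by
        apply mul_le_mul_of_nonneg_left _ hr0; linarith
      linarith
    have h2 : 0 ≤ ((L : ℝ) + κ) * (((L : ℝ) + 1) / (d + 1) - (L : ℝ) / d) := by
      apply mul_nonneg (by linarith)
      have e3 : ((L : ℝ) + 1) / (d + 1) - L / d = s / (d * (d + 1)) := by
        field_simp
        linarith
      rw [e3]; positivity
    linarith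

lemma laplace_aux_dom_gen_Xi (θ : ℕ → Bool) (i : ℕ) :
    Dom Sub card (gen (inhT θ) (Xi (i + 1))) := by
  refine ⟨(i : ℝ) + 4, by positivity, fun x hx => ?_⟩
  have h : Xi (i + 1) = fun z : St × Finset W => ∑ y ∈ z.2, xi (i + 1) (z.1.L y) (z.1.s y) := rfl
  rw [h, gen_additive θ (xi (i + 1)) hx]
  calc _ ≤ ∑ y ∈ x.2, |((x.1.L y : ℝ) + x.1.κ y) *
          (xi (i + 1) (x.1.L y + 1) (x.1.s y) - xi (i + 1) (x.1.L y) (x.1.s y))
      + ((x.1.L y : ℝ) / x.1.d y) * (xi (i + 1) (x.1.L y - 1) (x.1.s y + 1)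
          - xi (i + 1) (x.1.L y) (x.1.s y)
        + if θ (x.1.L y) = true then xi (i + 1) 1 1 else 0)| := abs_sum_le_sum_abs _ _
    _ ≤ ∑ _y ∈ x.2, ((i : ℝ) + 4) := by
        apply sum_le_sum
        intro y hy
        exact laplace_aux_term_abs i _ _ rfl (St.two_le_d (hx hy)) (St.κ_nonneg _ _)
          (St.κ_le_s (hx hy)) _
    _ = _ := by rw [sum_const, nsmul_eq_mul]; unfold card; ring

lemma laplace_aux_gen_Xi_lower (θ : ℕ → Bool) {i : ℕ} (hi : 1 ≤ i) {x : St × Finset W}
    (hx : Sub x) : Xi i x - 2 * Xi (i + 1) x ≤ gen (inhT θ) (Xi (i + 1)) x := by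
  have h : Xi (i + 1) = fun z : St × Finset W => ∑ y ∈ z.2, xi (i + 1) (z.1.L y) (z.1.s y) := rfl
  rw [h, gen_additive θ (xi (i + 1)) hx]
  unfold Xi
  simp only
  rw [mul_sum, ← sum_sub_distrib]
  apply sum_le_sum
  intro y hy
  exact laplace_aux_term_lower hi _ _ rfl (St.two_le_d (hx hy)) (St.κ_nonneg _ _) _

lemma laplace_aux_gen_card_le (θ : ℕ → Bool) {x : St × Finset W} (hx : Sub x) :
    gen (inhT θ) card x ≤ Xi 1 x := by
  rw [gen_card θ hx]
  unfold Xi
  apply sum_le_sum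
  intro y hy
  have hr0 : 0 ≤ (x.1.L y : ℝ) / x.1.d y := rate_bir_nonneg _ _
  have h1 : (x.1.L y : ℝ) / x.1.d y = xi 1 (x.1.L y) (x.1.s y) := by
    unfold xi
    split_ifs with h
    · rfl
    · have : x.1.L y = 0 := by omega
      rw [this]; simp
  rw [← h1]
  split_ifs
  · rw [mul_one]
  · rw [mul_zero]; exact hr0

lemma laplace_aux_gen_card_nonneg (θ : ℕ → Bool) {x : St × Finset W} (hx : Sub x) :
    0 ≤ gen (inhT θ) card x := by
  rw [gen_card θ hx]
  apply sum_nonneg
  intro y hy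
  apply mul_nonneg (rate_bir_nonneg _ _)
  split_ifs <;> norm_num

lemma laplace_aux_dom_gen_card (θ : ℕ → Bool) : Dom Sub card (gen (inhT θ) card) :=
  ⟨1, zero_le_one, fun x hx => by
    rw [abs_of_nonneg (laplace_aux_gen_card_nonneg θ hx), one_mul]
    exact (laplace_aux_gen_card_le θ hx).trans (laplace_aux_Xi_le_card 1 x)⟩

/-! ### the cut -/

lemma laplace_aux_sub_new {x : St × Finset W} (hx : Sub x) {v : W} (hv : v ∈ x.2)
    (hL : 0 < x.1.L v) : Sub (x.1.bir v, {x.1.new v}) := by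
  unfold Sub
  simp only [singleton_subset_iff]
  exact St.new_mem_bir (hx hv) hL

lemma laplace_aux_dom_cut (θ : ℕ → Bool) {F : St × Finset W → ℝ} (hF : Dom Sub card F) :
    Dom Sub card (cut θ F) := by
  obtain ⟨c, hc, h⟩ := hF
  refine ⟨c, hc, fun x hx => ?_⟩
  unfold cut
  calc _ ≤ ∑ v ∈ x.2, |if θ (x.1.L v) = true then 0 else
      ((x.1.L v : ℝ) / x.1.d v) * F (x.1.bir v, {x.1.new v})| := abs_sum_le_sum_abs _ _
    _ ≤ ∑ _v ∈ x.2, c := by
        apply sum_le_sum
        intro v hv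
        split_ifs
        · simpa using hc
        · by_cases hL : 0 < x.1.L v
          · have h1 := h _ (laplace_aux_sub_new hx hv hL)
            have h2 : card (x.1.bir v, ({x.1.new v} : Finset W)) = 1 := by simp [card]
            rw [h2, mul_one] at h1
            rw [abs_mul, abs_of_nonneg (rate_bir_nonneg _ _)]
            have h3 : (x.1.L v : ℝ) / x.1.d v ≤ 1 := laplace_aux_ratio_le _ _
            calc _ ≤ 1 * c := mul_le_mul h3 h1 (abs_nonneg _) zero_le_one
              _ = c := one_mul c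
          · have h0 : x.1.L v = 0 := by omega
            simp [h0, hc]
    _ = _ := by rw [sum_const, nsmul_eq_mul]; unfold card; ring

lemma laplace_aux_cut_nonneg (θ : ℕ → Bool) {F : St × Finset W → ℝ} (hF : ∀ x, Sub x → 0 ≤ F x)
    {x : St × Finset W} (hx : Sub x) : 0 ≤ cut θ F x := by
  unfold cut
  apply sum_nonneg
  intro v hv
  split_ifs
  · exact le_rfl
  · by_cases hL : 0 < x.1.L v
    · exact mul_nonneg (rate_bir_nonneg _ _) (hF _ (laplace_aux_sub_new hx hv hL))
    · have h0 : x.1.L v = 0 := by omega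
      simp [h0]

/-! ### positivity of `P` -/

lemma laplace_aux_P_nonneg (θ : ℕ → Bool) {F : St × Finset W → ℝ} (hF : Dom Sub card F)
    (h : ∀ x, Sub x → 0 ≤ F x) {t : ℝ} (ht : 0 ≤ t) {x : St × Finset W} (hx : Sub x) :
    0 ≤ P (inhT θ) t F x := by
  have := P_mono (wt_card θ) laplace_aux_dom_zero hF ht hx h
  rwa [P_const ht] at this

lemma laplace_aux_phit_nonneg {t : ℝ} (ht : 0 ≤ t) {x : St × Finset W} (hx : Sub x) :
    0 ≤ phit t x :=
  laplace_aux_P_nonneg (fun _ => true) laplace_aux_dom_card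
    (fun x _ => laplace_aux_card_nonneg x) ht hx

lemma laplace_aux_dom_phit {t : ℝ} (ht : 0 ≤ t) : Dom Sub card (phit t) :=
  Dom_P (wt_card _) laplace_aux_dom_card ht

lemma laplace_aux_addit_card : Addit card := by
  intro S A B _ _ hd
  simp only [card]
  rw [card_union_of_disjoint hd]; push_cast; ring

/-- `P^θ card ≤ phit` -/
lemma laplace_aux_P_card_le (θ : ℕ → Bool) {T : ℝ} (hT : 0 ≤ T) {x : St × Finset W}
    (hx : Sub x) : P (inhT θ) T card x ≤ phit T x := by
  have h := (duhamel θ laplace_aux_addit_card laplace_aux_dom_card hT hx).2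
  have h2 : 0 ≤ ∫ b in (0 : ℝ)..T, P (inhT θ) b (cut θ (P inhA (T - b) card)) x := by
    apply intervalIntegral.integral_nonneg hT
    intro b hb
    have hTb : 0 ≤ T - b := by linarith [hb.2]
    exact laplace_aux_P_nonneg θ (laplace_aux_dom_cut θ (laplace_aux_dom_phit hTb))
      (fun y hy => laplace_aux_cut_nonneg θ
        (fun z hz => laplace_aux_phit_nonneg hTb hz) hy) hb.1 hx
  unfold phit
  linarith

/-! ### integration by parts -/

lemma laplace_aux_cont (θ : ℕ → Bool) {F : St × Finset W → ℝ} (hF : Dom Sub card F) (μ : ℝ)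
    {x : St × Finset W} (hx : Sub x) :
    ContinuousOn (fun t => Real.exp (-(μ * t)) * P (inhT θ) t F x) (Set.Ici 0) := by
  apply ContinuousOn.mul
  · fun_prop
  · exact P_continuousOn (wt_card θ) hF hx

lemma laplace_aux_int (θ : ℕ → Bool) {F : St × Finset W → ℝ} (hF : Dom Sub card F) (μ : ℝ)
    {x : St × Finset W} (hx : Sub x) {T : ℝ} (hT : 0 ≤ T) :
    IntervalIntegrable (fun t => Real.exp (-(μ * t)) * P (inhT θ) t F x) volume 0 T := by
  apply ContinuousOn.intervalIntegrable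
  apply (laplace_aux_cont θ hF μ hx).mono
  rw [Set.uIcc_of_le hT]
  exact Set.Icc_subset_Ici_self

lemma laplace_aux_parts (θ : ℕ → Bool) {F : St × Finset W → ℝ} (hF : Dom Sub card F)
    (hG : Dom Sub card (gen (inhT θ) F)) (μ : ℝ)
    {x : St × Finset W} (hx : Sub x) {T : ℝ} (hT : 0 ≤ T) :
    Real.exp (-(μ * T)) * P (inhT θ) T F x - F x =
      (∫ b in (0 : ℝ)..T, Real.exp (-(μ * b)) * P (inhT θ) b (gen (inhT θ) F) x)
      - μ * ∫ b in (0 : ℝ)..T, Real.exp (-(μ * b)) * P (inhT θ) b F x := by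
  set v : ℝ → ℝ := fun b => P (inhT θ) b (gen (inhT θ) F) x with hv
  set u : ℝ → ℝ := fun b => P (inhT θ) b F x with hu
  have hvc : ContinuousOn v (Set.Ici 0) := P_continuousOn (wt_card θ) hG hx
  have huc : ContinuousOn u (Set.Ici 0) := P_continuousOn (wt_card θ) hF hx
  have hderu : ∀ t ∈ Set.Ioo (0 : ℝ) T, HasDerivAt u (v t) t := by
    intro t ht
    have h1 : HasDerivAt (fun r => ∫ b in (0 : ℝ)..r, v b) (v t) t := by
      apply intervalIntegral.integral_hasDerivAt_right
      · apply ContinuousOn.intervalIntegrable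
        apply hvc.mono
        rw [Set.uIcc_of_le ht.1.le]
        exact Set.Icc_subset_Ici_self
      · exact hvc.stronglyMeasurableAtFilter_nhdsWithin measurableSet_Ici t |>.filter_mono
          (by rw [nhdsWithin_eq_nhds.2 (Ici_mem_nhds ht.1)])
      · exact hvc.continuousAt (Ici_mem_nhds ht.1)
    have h2 : HasDerivAt (fun r => F x + ∫ b in (0 : ℝ)..r, v b) (v t) t := h1.const_add _
    apply h2.congr_of_eventuallyEq
    filter_upwards [Ici_mem_nhds ht.1] with r hr
    have := P_integral (wt_card θ) hF (wt_card θ) hG (t := r) hr hx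
    simp only [hu, hv]
    linarith
  have hint : IntervalIntegrable (fun t => Real.exp (-(μ * t)) * v t
      - μ * (Real.exp (-(μ * t)) * u t)) volume 0 T :=
    (laplace_aux_int θ hG μ hx hT).sub ((laplace_aux_int θ hF μ hx hT).const_mul μ)
  have key := intervalIntegral.integral_eq_sub_of_hasDerivAt_of_le
    (f := fun t => Real.exp (-(μ * t)) * u t)
    (f' := fun t => Real.exp (-(μ * t)) * v t - μ * (Real.exp (-(μ * t)) * u t)) hT
    ((laplace_aux_cont θ hF μ hx).mono Set.Icc_subset_Ici_self)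
    (fun t ht => by
      have h1 : HasDerivAt (fun t : ℝ => Real.exp (-(μ * t))) (Real.exp (-(μ * t)) * (-μ)) t := by
        have h := (hasDerivAt_id t).const_mul (-μ)
        have e : (fun t : ℝ => -(μ * t)) = fun t => (-μ) * id t := by funext t; simp
        have h3 : HasDerivAt (fun t : ℝ => -(μ * t)) (-μ) t := by rw [e]; simpa using h
        exact h3.exp
      have h2 : HasDerivAt (fun t => Real.exp (-(μ * t)) * u t)
          (Real.exp (-(μ * t)) * (-μ) * u t + Real.exp (-(μ * t)) * v t) t := h1.mul (hderu t ht)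
      have e2 : Real.exp (-(μ * t)) * v t - μ * (Real.exp (-(μ * t)) * u t)
          = Real.exp (-(μ * t)) * (-μ) * u t + Real.exp (-(μ * t)) * v t := by ring
      simp only [e2]
      exact h2) hint
  rw [intervalIntegral.integral_sub (laplace_aux_int θ hG μ hx hT)
    ((laplace_aux_int θ hF μ hx hT).const_mul μ), intervalIntegral.integral_const_mul] at key
  have h0 : u 0 = F x := P_zero
  simp only [mul_zero, neg_zero, Real.exp_zero, one_mul, h0] at key
  linarith

/-! ### main results -/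

lemma laplace_aux_phit_exp {μ : ℝ} (hμ : Expo μ) : ∃ C : ℝ, 0 < C ∧ ∀ t : ℝ, 0 ≤ t → ∀ x, Sub x →
    phit t x ≤ C * Real.exp (μ * t) * card x := by
  obtain ⟨C1, hC1, h1⟩ := phit_le
  obtain ⟨-, -, c, C2, hc, hC2, h2⟩ := hμ
  refine ⟨C1 * C2, by positivity, fun t ht x hx => ?_⟩
  calc phit t x ≤ C1 * card x * mt t := h1 t ht x hx
    _ ≤ C1 * card x * (C2 * Real.exp (μ * t)) := by
        apply mul_le_mul_of_nonneg_left (h2 t ht).2
        have := laplace_aux_card_nonneg x
        positivity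
    _ = _ := by ring

theorem cut_mass {μ : ℝ} (hμ : Expo μ) : ∃ (K0 : ℕ) (C : ℝ), 0 < C ∧ ∀ K, K0 ≤ K →
    ∀ T : ℝ, 0 ≤ T → ∀ x, Sub x →
    ∫ b in (0 : ℝ)..T, Real.exp (-(μ * b)) * P (inhK K) b (Xi (K + 1)) x ≤ C * card x := by
  obtain ⟨C1, hC1, h1⟩ := laplace_aux_phit_exp hμ
  obtain ⟨Cn, hCn, hn⟩ := phit_new
  obtain ⟨-, -, c, C2, hc, hC2, h2⟩ := hμ
  refine ⟨⌈2 * Cn⌉₊, 2 * C1 / c, by positivity, fun K hK T hT x hx => ?_⟩
  set θ : ℕ → Bool := fun L => decide (L ≤ K) with hθ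
  have hKC : 2 * Cn ≤ (K : ℝ) := (Nat.le_ceil _).trans (by exact_mod_cast hK)
  -- pointwise lower bound for the cut
  have hcut : ∀ s : ℝ, 0 ≤ s → ∀ y, Sub y → (c / 2 * Real.exp (μ * s)) * Xi (K + 1) y
      ≤ cut θ (phit s) y := by
    intro s hs y hy
    unfold cut Xi
    rw [mul_sum]
    apply sum_le_sum
    intro v hv
    by_cases hL : K + 1 ≤ y.1.L v
    · have hnot : ¬ (θ (y.1.L v) = true) := by
        simp only [hθ, decide_eq_true_eq]; omega
      rw [if_neg hnot]
      have hLpos : 0 < y.1.L v := by omega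
      have hLr : (K : ℝ) + 1 ≤ y.1.L v := by exact_mod_cast hL
      have e1 : xi (K + 1) (y.1.L v) (y.1.s v) = (y.1.L v : ℝ) / y.1.d v := by
        unfold xi; rw [if_pos hL]; rfl
      rw [e1]
      have hm1 : 1 ≤ mt s := one_le_mt hs
      have h3 := hn s hs y.1 v (hy hv) hLpos
      have h4 : Cn * mt s / y.1.L v ≤ mt s / 2 := by
        rw [div_le_div_iff₀ (by linarith) two_pos]
        nlinarith
      have h5 : mt s / 2 ≤ phit s (y.1.bir v, {y.1.new v}) := by
        have := (abs_le.1 h3).1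
        linarith
      have h6 : c / 2 * Real.exp (μ * s) ≤ phit s (y.1.bir v, {y.1.new v}) := by
        have := (h2 s hs).1
        linarith
      rw [mul_comm]
      exact mul_le_mul_of_nonneg_left h6 (rate_bir_nonneg _ _)
    · have hyes : θ (y.1.L v) = true := by
        simp only [hθ, decide_eq_true_eq]; omega
      rw [if_pos hyes]
      unfold xi
      rw [if_neg hL, mul_zero]
  -- integrate
  obtain ⟨hint, hduh⟩ := duhamel θ laplace_aux_addit_card laplace_aux_dom_card hT hx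
  have hpos : 0 ≤ P (inhT θ) T card x :=
    laplace_aux_P_nonneg θ laplace_aux_dom_card (fun x _ => laplace_aux_card_nonneg x) hT hx
  have hI : ∫ b in (0 : ℝ)..T, P (inhT θ) b (cut θ (P inhA (T - b) card)) x
      ≤ C1 * Real.exp (μ * T) * card x := by
    have := h1 T hT x hx
    unfold phit at this
    linarith
  have hmono : ∫ b in (0 : ℝ)..T, (c / 2 * Real.exp (μ * T)) *
        (Real.exp (-(μ * b)) * P (inhT θ) b (Xi (K + 1)) x)
      ≤ ∫ b in (0 : ℝ)..T, P (inhT θ) b (cut θ (P inhA (T - b) card)) x := by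
    apply intervalIntegral.integral_mono_on hT _ hint
    · intro b hb
      have hTb : 0 ≤ T - b := by linarith [hb.2]
      have h3 := P_mono (wt_card θ) (laplace_aux_dom_smul (laplace_aux_dom_Xi (K + 1))
        (c / 2 * Real.exp (μ * (T - b))))
        (laplace_aux_dom_cut θ (laplace_aux_dom_phit hTb)) hb.1 hx (hcut (T - b) hTb)
      rw [P_smul] at h3
      have e : (c / 2 * Real.exp (μ * T)) *
        (Real.exp (-(μ * b)) * P (inhT θ) b (Xi (K + 1)) x)
          = c / 2 * Real.exp (μ * (T - b)) * P (inhT θ) b (Xi (K + 1)) x := by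
        rw [show μ * (T - b) = μ * T + (-(μ * b)) by ring, Real.exp_add]; ring
      rw [e]
      exact h3
    · exact (laplace_aux_int θ (laplace_aux_dom_Xi (K + 1)) μ hx hT).const_mul _
  rw [intervalIntegral.integral_const_mul] at hmono
  have hE : 0 < Real.exp (μ * T) := Real.exp_pos _
  have h7 : c / 2 * Real.exp (μ * T) * (∫ b in (0 : ℝ)..T,
      Real.exp (-(μ * b)) * P (inhT θ) b (Xi (K + 1)) x)
      ≤ c / 2 * Real.exp (μ * T) * (2 * C1 / c * card x) := by
    calc _ ≤ C1 * Real.exp (μ * T) * card x := hmono.trans hI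
      _ = _ := by field_simp
  exact le_of_mul_le_mul_left h7 (by positivity)

/-- the ladder: all `Xi i`, `1 ≤ i ≤ K + 1`, have finite Laplace transform at `μ` -/
lemma laplace_aux_ladder {μ : ℝ} (hμ : Expo μ) {K : ℕ}
    (hK : ∃ C : ℝ, 0 < C ∧ ∀ T : ℝ, 0 ≤ T → ∀ x, Sub x →
      ∫ b in (0 : ℝ)..T, Real.exp (-(μ * b)) * P (inhK K) b (Xi (K + 1)) x ≤ C * card x) :
    ∀ k, k ≤ K → ∃ C : ℝ, 0 < C ∧ ∀ T : ℝ, 0 ≤ T → ∀ x, Sub x →
      ∫ b in (0 : ℝ)..T, Real.exp (-(μ * b)) * P (inhK K) b (Xi (K + 1 - k)) x ≤ C * card x := by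
  intro k
  induction k with
  | zero => intro _; simpa using hK
  | succ k ih =>
    intro hk
    obtain ⟨C, hC, hCb⟩ := ih (by omega)
    obtain ⟨C1, hC1, h1⟩ := laplace_aux_phit_exp hμ
    obtain ⟨hμ0, -, -⟩ := hμ
    obtain ⟨i, hi⟩ : ∃ i, i = K + 1 - (k + 1) := ⟨_, rfl⟩
    have hi1 : 1 ≤ i := by omega
    have hi2 : K + 1 - k = i + 1 := by omega
    rw [hi2] at hCb
    rw [← hi]
    refine ⟨(μ + 2) * C + C1, by positivity, fun T hT x hx => ?_⟩
    set θ : ℕ → Bool := fun L => decide (L ≤ K) with hθ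
    have hp := laplace_aux_parts θ (laplace_aux_dom_Xi (i + 1)) (laplace_aux_dom_gen_Xi θ i) μ hx hT
    have hD : Dom Sub card (fun y => Xi i y - 2 * Xi (i + 1) y) := by
      refine ⟨3, by norm_num, fun y _ => ?_⟩
      have a1 := laplace_aux_Xi_nonneg i y
      have a2 := laplace_aux_Xi_le_card i y
      have a3 := laplace_aux_Xi_nonneg (i + 1) y
      have a4 := laplace_aux_Xi_le_card (i + 1) y
      rw [abs_le]; constructor <;> linarith
    have hlow : ∫ b in (0 : ℝ)..T, (Real.exp (-(μ * b)) * P (inhT θ) b (Xi i) x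
          - 2 * (Real.exp (-(μ * b)) * P (inhT θ) b (Xi (i + 1)) x))
        ≤ ∫ b in (0 : ℝ)..T, Real.exp (-(μ * b)) * P (inhT θ) b (gen (inhT θ) (Xi (i + 1))) x := by
      apply intervalIntegral.integral_mono_on hT
      · exact (laplace_aux_int θ (laplace_aux_dom_Xi i) μ hx hT).sub
          ((laplace_aux_int θ (laplace_aux_dom_Xi (i + 1)) μ hx hT).const_mul 2)
      · exact laplace_aux_int θ (laplace_aux_dom_gen_Xi θ i) μ hx hT
      · intro b hb
        have h3 := P_mono (wt_card θ) hD (laplace_aux_dom_gen_Xi θ i) hb.1 hx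
          (fun y hy => laplace_aux_gen_Xi_lower θ hi1 hy)
        rw [P_sub_fun (wt_card θ) (laplace_aux_dom_Xi i)
          (laplace_aux_dom_smul (laplace_aux_dom_Xi (i + 1)) 2) hb.1 hx, P_smul] at h3
        have h4 := mul_le_mul_of_nonneg_left h3 (Real.exp_pos (-(μ * b))).le
        calc _ = Real.exp (-(μ * b)) * (P (inhT θ) b (Xi i) x
              - 2 * P (inhT θ) b (Xi (i + 1)) x) := by ring
          _ ≤ _ := h4
    rw [intervalIntegral.integral_sub (laplace_aux_int θ (laplace_aux_dom_Xi i) μ hx hT)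
      ((laplace_aux_int θ (laplace_aux_dom_Xi (i + 1)) μ hx hT).const_mul 2),
      intervalIntegral.integral_const_mul] at hlow
    have hb := hCb T hT x hx
    have hT1 : Real.exp (-(μ * T)) * P (inhT θ) T (Xi (i + 1)) x ≤ C1 * card x := by
      have h5 : P (inhT θ) T (Xi (i + 1)) x ≤ P (inhT θ) T card x :=
        P_mono (wt_card θ) (laplace_aux_dom_Xi (i + 1)) laplace_aux_dom_card hT hx
          (fun y _ => laplace_aux_Xi_le_card _ y)
      have h6 : P (inhT θ) T (Xi (i + 1)) x ≤ C1 * Real.exp (μ * T) * card x :=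
        (h5.trans (laplace_aux_P_card_le θ hT hx)).trans (h1 T hT x hx)
      calc _ ≤ Real.exp (-(μ * T)) * (C1 * Real.exp (μ * T) * card x) :=
            mul_le_mul_of_nonneg_left h6 (Real.exp_pos _).le
        _ = (Real.exp (-(μ * T)) * Real.exp (μ * T)) * (C1 * card x) := by ring
        _ = _ := by rw [← Real.exp_add]; simp
    have hx0 := laplace_aux_Xi_nonneg (i + 1) x
    have hb' : (μ + 2) * (∫ b in (0 : ℝ)..T, Real.exp (-(μ * b)) *
        P (inhT θ) b (Xi (i + 1)) x) ≤ (μ + 2) * (C * card x) :=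
      mul_le_mul_of_nonneg_left hb (by linarith)
    have : ∫ b in (0 : ℝ)..T, Real.exp (-(μ * b)) * P (inhT θ) b (Xi i) x
        ≤ ((μ + 2) * C + C1) * card x := by linarith
    exact this

theorem alive_small {μ : ℝ} (hμ : Expo μ) : ∃ K0 : ℕ, ∀ K, K0 ≤ K → ∃ C : ℝ, 0 < C ∧
    ∀ T : ℝ, 0 < T → ∀ x, Sub x →
    Real.exp (-(μ * T)) * P (inhK K) T card x ≤ C / T * card x := by
  obtain ⟨K0, C0, hC0, h0⟩ := cut_mass hμ
  obtain ⟨C1, hC1, h1⟩ := laplace_aux_phit_exp hμ
  refine ⟨K0, fun K hK => ?_⟩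
  obtain ⟨C2, hC2, h2⟩ := laplace_aux_ladder hμ (K := K) ⟨C0, hC0, h0 K hK⟩ K le_rfl
  rw [show K + 1 - K = 1 by omega] at h2
  obtain ⟨hμ0, -, -⟩ := hμ
  refine ⟨C1 * ((C2 + 1) / μ), by positivity, fun T hT x hx => ?_⟩
  set θ : ℕ → Bool := fun L => decide (L ≤ K) with hθ
  have hc0 := laplace_aux_card_nonneg x
  -- Laplace bound for `card`
  have hlap : ∫ b in (0 : ℝ)..T, Real.exp (-(μ * b)) * P (inhT θ) b card x
      ≤ (C2 + 1) / μ * card x := by
    have hp := laplace_aux_parts θ laplace_aux_dom_card (laplace_aux_dom_gen_card θ) μ hx hT.le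
    have hup : ∫ b in (0 : ℝ)..T, Real.exp (-(μ * b)) * P (inhT θ) b (gen (inhT θ) card) x
        ≤ ∫ b in (0 : ℝ)..T, Real.exp (-(μ * b)) * P (inhT θ) b (Xi 1) x := by
      apply intervalIntegral.integral_mono_on hT.le
        (laplace_aux_int θ (laplace_aux_dom_gen_card θ) μ hx hT.le)
        (laplace_aux_int θ (laplace_aux_dom_Xi 1) μ hx hT.le)
      intro b hb
      exact mul_le_mul_of_nonneg_left (P_mono (wt_card θ) (laplace_aux_dom_gen_card θ)
        (laplace_aux_dom_Xi 1) hb.1 hx (fun y hy => laplace_aux_gen_card_le θ hy))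
        (Real.exp_pos _).le
    have h3 := h2 T hT.le x hx
    have h4 : 0 ≤ Real.exp (-(μ * T)) * P (inhT θ) T card x :=
      mul_nonneg (Real.exp_pos _).le (laplace_aux_P_nonneg θ laplace_aux_dom_card
        (fun x _ => laplace_aux_card_nonneg x) hT.le hx)
    rw [div_mul_eq_mul_div, le_div_iff₀ (by linarith)]
    have h3' : ∫ b in (0 : ℝ)..T, Real.exp (-(μ * b)) * P (inhT θ) b (Xi 1) x ≤ C2 * card x := h3
    linarith
  -- Datko
  have hdat : ∀ s ∈ Set.Icc (0 : ℝ) T, Real.exp (-(μ * T)) * P (inhT θ) T card x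
      ≤ C1 * (Real.exp (-(μ * s)) * P (inhT θ) s card x) := by
    intro s hs
    have hTs : 0 ≤ T - s := by linarith [hs.2]
    have h3 : P (inhT θ) T card x = P (inhT θ) s (P (inhT θ) (T - s) card) x := by
      have := P_semigroup (wt_card θ) laplace_aux_dom_card hs.1 hTs hx
      rwa [show s + (T - s) = T by ring] at this
    have h4 : P (inhT θ) s (P (inhT θ) (T - s) card) x
        ≤ P (inhT θ) s (fun y => (C1 * Real.exp (μ * (T - s))) * card y) x := by
      apply P_mono (wt_card θ) (Dom_P (wt_card θ) laplace_aux_dom_card hTs)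
        (laplace_aux_dom_smul laplace_aux_dom_card _) hs.1 hx
      intro y hy
      exact (laplace_aux_P_card_le θ hTs hy).trans (h1 _ hTs y hy)
    rw [P_smul] at h4
    rw [h3]
    calc _ ≤ Real.exp (-(μ * T)) * (C1 * Real.exp (μ * (T - s)) * P (inhT θ) s card x) :=
          mul_le_mul_of_nonneg_left h4 (Real.exp_pos _).le
      _ = C1 * ((Real.exp (-(μ * T)) * Real.exp (μ * (T - s))) * P (inhT θ) s card x) := by ring
      _ = _ := by rw [← Real.exp_add, show -(μ * T) + μ * (T - s) = -(μ * s) by ring]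
  have hI : ∫ _s in (0 : ℝ)..T, Real.exp (-(μ * T)) * P (inhT θ) T card x
      ≤ ∫ s in (0 : ℝ)..T, C1 * (Real.exp (-(μ * s)) * P (inhT θ) s card x) := by
    apply intervalIntegral.integral_mono_on hT.le intervalIntegrable_const
      ((laplace_aux_int θ laplace_aux_dom_card μ hx hT.le).const_mul _)
    exact hdat
  rw [intervalIntegral.integral_const, intervalIntegral.integral_const_mul, sub_zero,
    smul_eq_mul] at hI
  have h5 : T * (Real.exp (-(μ * T)) * P (inhT θ) T card x)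
      ≤ C1 * ((C2 + 1) / μ * card x) :=
    hI.trans (mul_le_mul_of_nonneg_left hlap hC1.le)
  have h6 : Real.exp (-(μ * T)) * P (inhT θ) T card x
      ≤ C1 * ((C2 + 1) / μ) / T * card x := by
    rw [div_mul_eq_mul_div, le_div_iff₀ hT]
    linarith
  exact h6

end FT
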