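import Pool.Agent.FT.Objs

/-! # Module Window (friend tree, MP_5ccad8_pr) -/

open Finset MeasureTheory Filter Topology

namespace FT

/-- the limit superior, described by its two properties -/
theorem window_aux_limsup {a : ℝ → ℝ} {c C : ℝ} (ha : ∀ t, 0 ≤ t → c ≤ a t ∧ a t ≤ C) :
    ∃ A : ℝ, c ≤ A ∧ A ≤ C ∧ (∀ e : ℝ, 0 < e → ∃ τ : ℝ, ∀ t, τ ≤ t → a t ≤ A + e) ∧
      ∀ e : ℝ, 0 < e → ∀ τ : ℝ, ∃ t : ℝ, τ ≤ t ∧ A - e ≤ a t := by
  let S : Set ℝ := {x | ∃ τ : ℝ, ∀ t, τ ≤ t → a t ≤ x}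
  have hbdd : ∀ x ∈ S, c ≤ x := by
    rintro x ⟨τ, hτ⟩
    exact (ha (max τ 0) (le_max_right _ _)).1.trans (hτ _ (le_max_left _ _))
  have hC : C ∈ S := ⟨0, fun t ht => (ha t ht).2⟩
  have hbb : BddBelow S := ⟨c, hbdd⟩
  refine ⟨sInf S, le_csInf ⟨C, hC⟩ hbdd, csInf_le hbb hC, ?_, ?_⟩
  · intro e he
    obtain ⟨x, ⟨τ, hτ⟩, hx⟩ := exists_lt_of_csInf_lt ⟨C, hC⟩ (lt_add_of_pos_right (sInf S) he)
    exact ⟨τ, fun t ht => (hτ t ht).trans hx.le⟩
  · intro e he τ
    by_contra hcon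
    push Not at hcon
    have : sInf S - e ∈ S := ⟨τ, fun t ht => (hcon t ht).le⟩
    have := csInf_le hbb this
    linarith

theorem window_aux_cont {a : ℝ → ℝ} {Λ : ℝ}
    (hlip : ∀ s t, 0 ≤ s → 0 ≤ t → |a s - a t| ≤ Λ * |s - t|) {T t0 : ℝ} (hT : T ≤ t0) :
    ContinuousOn (fun b => a (t0 - b)) (Set.Icc 0 T) := by
  have h1 : LipschitzOnWith (Real.toNNReal Λ) a (Set.Ici 0) := by
    refine LipschitzOnWith.of_dist_le_mul fun s hs t ht => ?_
    rw [Real.dist_eq, Real.dist_eq]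
    refine (hlip s t hs ht).trans ?_
    exact mul_le_mul_of_nonneg_right (Real.le_coe_toNNReal Λ) (abs_nonneg _)
  refine h1.continuousOn.comp (by fun_prop) ?_
  intro b hb
  show 0 ≤ t0 - b
  linarith [hb.2]

theorem window {a : ℝ → ℝ} {ν : ℕ → ℝ → ℝ} {c C Λ μ c5 : ℝ} {K0 : ℕ} {CK : ℕ → ℝ}
    (hc : 0 < c) (hc5 : 0 < c5) (hμ0 : 0 ≤ μ) (hμ : μ ≤ 3 / 4)
    (ha : ∀ t, 0 ≤ t → c ≤ a t ∧ a t ≤ C)
    (hlip : ∀ s t, 0 ≤ s → 0 ≤ t → |a s - a t| ≤ Λ * |s - t|)
    (hνc : ∀ K, K0 ≤ K → ContinuousOn (ν K) (Set.Ici 0))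
    (hν0 : ∀ K, K0 ≤ K → ∀ b, 0 ≤ b → 0 ≤ ν K b)
    (hrep : ∀ K, K0 ≤ K → ∀ T, 0 < T → ∀ t, T ≤ t →
      |a t - ∫ b in (0 : ℝ)..T, ν K b * a (t - b)| ≤ CK K / T + C / K)
    (hhub : ∀ B : ℝ, 0 ≤ B → ∃ K1 : ℕ, 1 ≤ K1 ∧ ∀ K, K1 ≤ K →
      ∀ b : ℝ, 1 + (5 / 4) * Real.log K ≤ b → b ≤ 1 + (5 / 4) * Real.log K + B →
      c5 * Real.exp (-(μ * b)) ≤ ν K b) :
    ∃ A : ℝ, 0 < A ∧ ∀ δ : ℝ, 0 < δ → ∀ B : ℝ, 0 ≤ B → ∀ τ : ℝ, ∃ t1 : ℝ, τ ≤ t1 ∧ B ≤ t1 ∧
      ∀ t, t1 - B ≤ t → t ≤ t1 → |a t - A| ≤ δ := by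
  obtain ⟨A, hAc, hAC, hA1, hA2⟩ := window_aux_limsup ha
  obtain ⟨A', hA'C, hA'c, hA'1, hA'2⟩ := window_aux_limsup (a := fun t => -a t) (c := -C) (C := -c)
    (fun t ht => ⟨neg_le_neg (ha t ht).2, neg_le_neg (ha t ht).1⟩)
  have hC : c ≤ C := hAc.trans hAC
  -- integrability
  have hνint : ∀ K, K0 ≤ K → ∀ T, 0 < T → IntervalIntegrable (ν K) volume 0 T := by
    intro K hK T hT
    refine ContinuousOn.intervalIntegrable ?_
    rw [Set.uIcc_of_le hT.le]
    exact (hνc K hK).mono fun x hx => hx.1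
  have hνaint : ∀ K, K0 ≤ K → ∀ T, 0 < T → ∀ t, T ≤ t →
      IntervalIntegrable (fun b => ν K b * a (t - b)) volume 0 T := by
    intro K hK T hT t ht
    refine ContinuousOn.intervalIntegrable ?_
    rw [Set.uIcc_of_le hT.le]
    exact ((hνc K hK).mono fun x hx => hx.1).mul (window_aux_cont hlip ht)
  -- total mass
  have hmass : ∀ K, K0 ≤ K → ∀ T, 0 < T →
      (∫ b in (0 : ℝ)..T, ν K b) * (-A') ≤ -A' + (CK K / T + C / K) := by
    intro K hK T hT
    set m : ℝ := ∫ b in (0 : ℝ)..T, ν K b with hm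
    have hm0 : 0 ≤ m := intervalIntegral.integral_nonneg hT.le fun b hb => hν0 K hK b hb.1
    refine le_of_forall_pos_le_add fun ε hε => ?_
    set e : ℝ := ε / (1 + m) with he
    have he0 : 0 < e := by positivity
    have hem : e * (1 + m) = ε := by
      rw [he]
      field_simp
    obtain ⟨τ, hτ⟩ := hA'1 e he0
    obtain ⟨t0, ht0, hat0⟩ := hA'2 e he0 (max T (T + τ))
    have ht0T : T ≤ t0 := (le_max_left _ _).trans ht0
    have h1 := (abs_le.1 (hrep K hK T hT t0 ht0T)).1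
    have h2 : m * (-A' - e) ≤ ∫ b in (0 : ℝ)..T, ν K b * a (t0 - b) := by
      rw [hm, ← intervalIntegral.integral_mul_const]
      refine intervalIntegral.integral_mono_on hT.le ((hνint K hK T hT).mul_const _)
        (hνaint K hK T hT t0 ht0T) fun b hb => ?_
      refine mul_le_mul_of_nonneg_left ?_ (hν0 K hK b hb.1)
      have := hτ (t0 - b) (by linarith [hb.2, (le_max_right T (T + τ)).trans ht0])
      linarith
    nlinarith
  -- the weighted defect
  have hdefect : ∀ K, K0 ≤ K → ∀ T, 0 < T → ∀ e : ℝ, 0 < e → e ≤ 1 → ∀ τ : ℝ, ∃ t0 : ℝ, τ ≤ t0 ∧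
      T ≤ t0 ∧ (∀ b, 0 ≤ b → b ≤ T → 0 ≤ A + e - a (t0 - b)) ∧
      ∫ b in (0 : ℝ)..T, ν K b * (A + e - a (t0 - b)) ≤
        2 * e + (CK K / T + C / K) * ((C + 1) / c + 1) := by
    intro K hK T hT e he he1 τ
    obtain ⟨τ', hτ'⟩ := hA1 e he
    obtain ⟨t0, ht0, hat0⟩ := hA2 e he (max τ (max T (T + τ')))
    have ht0T : T ≤ t0 := ((le_max_left _ _).trans (le_max_right _ _)).trans ht0
    have ht0τ : T + τ' ≤ t0 := ((le_max_right _ _).trans (le_max_right _ _)).trans ht0
    refine ⟨t0, (le_max_left _ _).trans ht0, ht0T, ?_, ?_⟩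
    · intro b _ hb
      have := hτ' (t0 - b) (by linarith)
      linarith
    · have h1 : ∫ b in (0 : ℝ)..T, ν K b * (A + e - a (t0 - b)) =
          (∫ b in (0 : ℝ)..T, ν K b) * (A + e) - ∫ b in (0 : ℝ)..T, ν K b * a (t0 - b) := by
        rw [← intervalIntegral.integral_mul_const, ← intervalIntegral.integral_sub
          ((hνint K hK T hT).mul_const _) (hνaint K hK T hT t0 ht0T)]
        refine intervalIntegral.integral_congr fun b _ => ?_
        show ν K b * (A + e - a (t0 - b)) = ν K b * (A + e) - ν K b * a (t0 - b)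
        ring
      rw [h1]
      have h2 := abs_le.1 (hrep K hK T hT t0 ht0T)
      set η : ℝ := CK K / T + C / K with hη
      have hη0 : 0 ≤ η := (abs_nonneg _).trans (hrep K hK T hT t0 ht0T)
      set m : ℝ := ∫ b in (0 : ℝ)..T, ν K b with hm
      have h3 := hmass K hK T hT
      rw [← hm, ← hη] at h3
      -- m <= 1 + η / c
      have h4 : m ≤ 1 + η / c := by
        have hA'pos : 0 < -A' := by linarith
        have h5 : m ≤ (-A' + η) / (-A') := by
          rw [le_div_iff₀ hA'pos]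
          exact h3
        have h6 : (-A' + η) / (-A') = 1 + η / (-A') := by
          rw [add_div, div_self hA'pos.ne']
        have h7 : η / (-A') ≤ η / c := div_le_div_of_nonneg_left hη0 hc (by linarith)
        linarith
      have h8 : m * (A + e) ≤ (1 + η / c) * (A + e) :=
        mul_le_mul_of_nonneg_right h4 (by linarith)
      have h9 : η / c * (A + e) ≤ η / c * (C + 1) :=
        mul_le_mul_of_nonneg_left (by linarith) (by positivity)
      have h10 : η / c * (C + 1) = η * ((C + 1) / c) := by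
        field_simp
      have h11 : (1 + η / c) * (A + e) = A + e + η / c * (A + e) := by ring
      have h12 : η * ((C + 1) / c + 1) = η * ((C + 1) / c) + η := by ring
      linarith [h2.1, h2.2]
  refine ⟨A, hc.trans_le hAc, ?_⟩
  intro δ hδ B hB τ
  obtain ⟨K1, hK11, hK1⟩ := hhub (B + 1) (by linarith)
  -- constants
  set Λ' : ℝ := |Λ| + 1 with hΛ'
  have hΛ'0 : 0 < Λ' := by positivity
  set δ' : ℝ := δ / 2 with hδ'
  have hδ'0 : 0 < δ' := by positivity
  set l : ℝ := min 1 (δ' / (2 * Λ')) with hl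
  have hl0 : 0 < l := lt_min one_pos (by positivity)
  have hl1 : l ≤ 1 := min_le_left _ _
  have hlΛ : Λ' * l ≤ δ' / 2 := by
    have : l ≤ δ' / (2 * Λ') := min_le_right _ _
    calc Λ' * l ≤ Λ' * (δ' / (2 * Λ')) := mul_le_mul_of_nonneg_left this hΛ'0.le
      _ = δ' / 2 := by field_simp
  set C3 : ℝ := (2 + (1 + C) * ((C + 1) / c + 1)) * Real.exp (μ * (1 + (B + 1))) / c5 with hC3
  have hC0 : 0 < C := hc.trans_le hC
  have hC30 : 0 < C3 := by positivity
  -- choose K
  obtain ⟨K, hKK0, hKK1, hKδ, hKsmall⟩ : ∃ K : ℕ, K0 ≤ K ∧ K1 ≤ K ∧ 1 / (K : ℝ) ≤ min 1 δ' ∧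
      C3 * Real.exp (-(1 / 16 * Real.log K)) < l * (δ' / 2) := by
    have h1 : Tendsto (fun K : ℕ => 1 / (K : ℝ)) atTop (𝓝 0) := tendsto_one_div_atTop_nhds_zero_nat
    have h2 : Tendsto (fun K : ℕ => C3 * Real.exp (-(1 / 16 * Real.log K))) atTop (𝓝 (C3 * 0)) := by
      refine Tendsto.const_mul _ (Real.tendsto_exp_neg_atTop_nhds_zero.comp ?_)
      exact Tendsto.const_mul_atTop (by norm_num)
        (Real.tendsto_log_atTop.comp tendsto_natCast_atTop_atTop)
    rw [mul_zero] at h2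
    have h3 := h1.eventually_le_const (u := min 1 δ') (lt_min one_pos hδ'0)
    have h4 := h2.eventually_lt_const (u := l * (δ' / 2)) (by positivity)
    obtain ⟨K, hK⟩ := (((h3.and h4).and (eventually_ge_atTop K0)).and
      (eventually_ge_atTop K1)).exists
    exact ⟨K, hK.1.2, hK.2, hK.1.1.1, hK.1.1.2⟩
  have hK1' : 1 ≤ K := hK11.trans hKK1
  have hKpos : (0 : ℝ) < K := by exact_mod_cast hK1'
  have hlog : 0 ≤ Real.log K := Real.log_nonneg (by exact_mod_cast hK1')
  set bK : ℝ := 1 + (5 / 4) * Real.log K with hbK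
  have hbK0 : 0 < bK := by positivity
  set T : ℝ := max (bK + (B + 1)) (K * |CK K|) with hT
  have hT0 : 0 < T := lt_of_lt_of_le (by positivity) (le_max_left _ _)
  have hη : CK K / T + C / K ≤ (1 + C) / K := by
    have h1 : CK K / T ≤ 1 / K := by
      rw [div_le_div_iff₀ hT0 hKpos]
      calc CK K * K ≤ |CK K| * K := mul_le_mul_of_nonneg_right (le_abs_self _) hKpos.le
        _ = K * |CK K| := mul_comm _ _
        _ ≤ T := le_max_right _ _
        _ = 1 * T := (one_mul T).symm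
    rw [add_div]
    linarith
  obtain ⟨t0, ht0τ, ht0T, hpos, hdef⟩ := hdefect K hKK0 T hT0 (1 / K) (by positivity)
    (hKδ.trans (min_le_left _ _)) (bK + (B + |τ|))
  refine ⟨t0 - bK, ?_, ?_, ?_⟩
  · linarith [le_abs_self τ]
  · linarith [abs_nonneg τ]
  intro t ht1 ht2
  -- the defect at `b = t0 - t`
  set b : ℝ := t0 - t with hb
  have hb1 : bK ≤ b := by linarith
  have hb2 : b ≤ bK + B := by linarith
  have hTb : b + l ≤ T := by
    have := le_max_left (bK + (B + 1)) (K * |CK K|)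
    rw [← hT] at this
    linarith
  have hfb := hpos b (by linarith) (by linarith)
  have hta : a (t0 - b) = a t := by
    congr 1
    rw [hb]
    ring
  rw [hta] at hfb
  have hKδ' : 1 / (K : ℝ) ≤ δ' := hKδ.trans (min_le_right _ _)
  by_cases hcase : A + 1 / K - a t ≤ δ'
  · rw [abs_le]
    have h1 : 0 < 1 / (K : ℝ) := by positivity
    constructor <;> linarith
  · exfalso
    push Not at hcase
    -- lower bound for the defect near `b`
    have hlow : ∀ b' ∈ Set.Icc b (b + l), δ' / 2 ≤ A + 1 / K - a (t0 - b') := by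
      intro b' hb'
      have h1 := hlip (t0 - b') (t0 - b) (by linarith [hb'.2]) (by linarith)
      have h2 : |t0 - b' - (t0 - b)| ≤ l := by
        rw [abs_le]
        constructor <;> linarith [hb'.1, hb'.2]
      have h3 : |a (t0 - b') - a (t0 - b)| ≤ δ' / 2 := by
        refine h1.trans ?_
        calc Λ * |t0 - b' - (t0 - b)| ≤ Λ' * |t0 - b' - (t0 - b)| :=
              mul_le_mul_of_nonneg_right (by linarith [le_abs_self Λ]) (abs_nonneg _)
          _ ≤ Λ' * l := mul_le_mul_of_nonneg_left h2 hΛ'0.le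
          _ ≤ δ' / 2 := hlΛ
      rw [hta] at h3
      have := (abs_le.1 h3).2
      linarith
    set νm : ℝ := c5 * Real.exp (-(μ * (bK + (B + 1)))) with hνm
    have hνm0 : 0 < νm := by positivity
    have hνlow : ∀ b' ∈ Set.Icc b (b + l), νm ≤ ν K b' := by
      intro b' hb'
      refine le_trans ?_ (hK1 K hKK1 b' (by linarith [hb'.1]) (by linarith [hb'.2]))
      rw [hνm]
      refine mul_le_mul_of_nonneg_left (Real.exp_le_exp.2 ?_) hc5.le
      have : μ * b' ≤ μ * (bK + (B + 1)) := mul_le_mul_of_nonneg_left (by linarith [hb'.2]) hμ0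
      linarith
    have hint1 : IntervalIntegrable (fun b' => ν K b' * (A + 1 / K - a (t0 - b'))) volume 0 T := by
      refine ContinuousOn.intervalIntegrable ?_
      rw [Set.uIcc_of_le hT0.le]
      exact ((hνc K hKK0).mono fun x hx => hx.1).mul
        (continuousOn_const.sub (window_aux_cont hlip ht0T))
    have hI1 : ∫ b' in b..(b + l), ν K b' * (A + 1 / K - a (t0 - b')) ≤
        ∫ b' in (0 : ℝ)..T, ν K b' * (A + 1 / K - a (t0 - b')) := by
      refine intervalIntegral.integral_mono_interval (by linarith) (by linarith) hTb ?_ hint1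
      refine (ae_restrict_iff' measurableSet_Ioc).2 (Eventually.of_forall fun x hx => ?_)
      exact mul_nonneg (hν0 K hKK0 x hx.1.le) (hpos x hx.1.le hx.2)
    have hI2 : l * (νm * (δ' / 2)) ≤ ∫ b' in b..(b + l), ν K b' * (A + 1 / K - a (t0 - b')) := by
      have h1 : ∫ _ in b..(b + l), νm * (δ' / 2) = l * (νm * (δ' / 2)) := by
        rw [intervalIntegral.integral_const, smul_eq_mul]
        ring
      rw [← h1]
      refine intervalIntegral.integral_mono_on (by linarith) intervalIntegrable_const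
        (hint1.mono_set ?_) fun b' hb' => ?_
      · rw [Set.uIcc_of_le (by linarith), Set.uIcc_of_le hT0.le]
        exact Set.Icc_subset_Icc (by linarith) hTb
      · exact mul_le_mul (hνlow b' hb') (hlow b' hb') (by positivity)
          (hνm0.le.trans (hνlow b' hb'))
    -- combine
    have h1 : l * (νm * (δ' / 2)) ≤ 2 * (1 / K) + (1 + C) / K * ((C + 1) / c + 1) := by
      refine hI2.trans (hI1.trans (hdef.trans ?_))
      have : (CK K / T + C / K) * ((C + 1) / c + 1) ≤ (1 + C) / K * ((C + 1) / c + 1) :=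
        mul_le_mul_of_nonneg_right hη (by positivity)
      linarith
    have h2 : 2 * (1 / (K : ℝ)) + (1 + C) / K * ((C + 1) / c + 1) =
        (2 + (1 + C) * ((C + 1) / c + 1)) / K := by
      field_simp
    rw [h2] at h1
    have h3 : l * (δ' / 2) ≤ C3 * Real.exp (-(1 / 16 * Real.log K)) := by
      have h4 : l * (δ' / 2) ≤ (2 + (1 + C) * ((C + 1) / c + 1)) / K / νm := by
        rw [le_div_iff₀ hνm0]
        calc l * (δ' / 2) * νm = l * (νm * (δ' / 2)) := by ring
          _ ≤ _ := h1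
      refine h4.trans ?_
      rw [hC3, hνm, div_div, ← mul_div_right_comm, div_le_div_iff₀ (by positivity) hc5]
      have h5 : Real.exp (-(1 / 16 * Real.log K)) * (K * Real.exp (-(μ * (bK + (B + 1)))) *
          Real.exp (μ * (1 + (B + 1)))) ≥ 1 := by
        have h6 : (K : ℝ) = Real.exp (Real.log K) := (Real.exp_log hKpos).symm
        rw [ge_iff_le]
        conv_rhs => rw [h6]
        rw [Real.log_exp, ← Real.exp_add, ← Real.exp_add, ← Real.exp_add]
        refine Real.one_le_exp ?_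
        have h7 : μ * ((5 / 4) * Real.log K) ≤ 3 / 4 * ((5 / 4) * Real.log K) :=
          mul_le_mul_of_nonneg_right hμ (by positivity)
        have h9 : -(1 / 16 * Real.log K) + (Real.log K + -(μ * (bK + (B + 1))) +
            μ * (1 + (B + 1))) = 15 / 16 * Real.log K - μ * ((5 / 4) * Real.log K) := by
          rw [hbK]
          ring
        rw [h9]
        linarith
      have h8 : 0 < 2 + (1 + C) * ((C + 1) / c + 1) := by positivity
      have h10 := mul_le_mul_of_nonneg_left h5 (mul_pos h8 hc5).le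
      calc (2 + (1 + C) * ((C + 1) / c + 1)) * c5 =
            (2 + (1 + C) * ((C + 1) / c + 1)) * c5 * 1 := (mul_one _).symm
        _ ≤ _ := h10
        _ = _ := by ring
    linarith

end FT
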