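import Pool.Agent.FT.Rep
import Pool.Agent.FT.Hub
import Pool.Agent.FT.Window

/-! # Module Lim (friend tree, MP_5ccad8_pr) -/

open Finset MeasureTheory Filter Topology

namespace FT

lemma lim_aux_card_nonneg (x : St × Finset W) : 0 ≤ card x := by unfold card; positivity

lemma lim_aux_dom : Dom Sub card card :=
  ⟨1, zero_le_one, fun x _ => by rw [one_mul, abs_of_nonneg (lim_aux_card_nonneg x)]⟩

lemma lim_aux_dom_smul (c : ℝ) : Dom Sub card (fun y => c * card y) :=
  ⟨|c|, abs_nonneg _, fun x _ => by rw [abs_mul, abs_of_nonneg (lim_aux_card_nonneg x)]⟩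

lemma lim_aux_phit_bound {μ : ℝ} (hμ : Expo μ) : ∃ C : ℝ, 0 < C ∧ ∀ s, 0 ≤ s → ∀ x, Sub x →
    Real.exp (-(μ * s)) * phit s x ≤ C * card x := by
  obtain ⟨C1, hC1, h1⟩ := phit_le
  obtain ⟨-, -, c, C, hc, hC, h⟩ := hμ
  refine ⟨C1 * C, by positivity, fun s hs x hx => ?_⟩
  have h2 := h1 s hs x hx
  have h3 := (h s hs).2
  have h4 := lim_aux_card_nonneg x
  have e1 : Real.exp (-(μ * s)) * Real.exp (μ * s) = 1 := by rw [← Real.exp_add]; simp
  calc Real.exp (-(μ * s)) * phit s x
        ≤ Real.exp (-(μ * s)) * (C1 * card x * (C * Real.exp (μ * s))) := by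
        apply mul_le_mul_of_nonneg_left _ (Real.exp_pos _).le
        exact h2.trans (mul_le_mul_of_nonneg_left h3 (by positivity))
    _ = C1 * C * card x * (Real.exp (-(μ * s)) * Real.exp (μ * s)) := by ring
    _ = _ := by rw [e1, mul_one]

lemma lim_aux_contr {μ C : ℝ}
    (hC : ∀ s, 0 ≤ s → ∀ x, Sub x → Real.exp (-(μ * s)) * phit s x ≤ C * card x)
    {G : St × Finset W → ℝ} {ε : ℝ} (hε : 0 ≤ ε) (hG : ∀ y, Sub y → |G y| ≤ ε * card y)
    {s : ℝ} (hs : 0 ≤ s) {x : St × Finset W} (hx : Sub x) :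
    |Real.exp (-(μ * s)) * P inhA s G x| ≤ ε * C * card x := by
  have hDG : Dom Sub card G := ⟨ε, hε, hG⟩
  have h1 : P inhA s G x ≤ ε * phit s x := by
    have := P_mono (wt_card (fun _ => true)) hDG (lim_aux_dom_smul ε) hs hx
      (fun y hy => (abs_le.1 (hG y hy)).2)
    rwa [P_smul] at this
  have h2 : -ε * phit s x ≤ P inhA s G x := by
    have := P_mono (wt_card (fun _ => true)) (lim_aux_dom_smul (-ε)) hDG hs hx
      (fun y hy => by have := (abs_le.1 (hG y hy)).1; linarith)
    rwa [P_smul] at this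
  have h3 := hC s hs x hx
  have h4 : 0 < Real.exp (-(μ * s)) := Real.exp_pos _
  rw [abs_le]
  constructor
  · have e1 := mul_le_mul_of_nonneg_left h2 h4.le
    have e2 := mul_le_mul_of_nonneg_left h3 hε
    nlinarith
  · have e1 := mul_le_mul_of_nonneg_left h1 h4.le
    have e2 := mul_le_mul_of_nonneg_left h3 hε
    nlinarith

lemma lim_aux_dom_phit {t : ℝ} (ht : 0 ≤ t) : Dom Sub card (phit t) :=
  Dom_P (wt_card (fun _ => true)) lim_aux_dom ht

lemma lim_aux_semi {μ s t : ℝ} (hs : 0 ≤ s) (ht : 0 ≤ t) {x : St × Finset W} (hx : Sub x) :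
    Real.exp (-(μ * (s + t))) * phit (s + t) x
      = Real.exp (-(μ * s)) * P inhA s (fun y => Real.exp (-(μ * t)) * phit t y) x := by
  have h : phit (s + t) x = P inhA s (phit t) x :=
    P_semigroup (wt_card (fun _ => true)) lim_aux_dom hs ht hx
  rw [h, P_smul, ← mul_assoc, ← Real.exp_add]
  congr 2
  ring

lemma lim_aux_lip {μ : ℝ} (hμ : Expo μ) : ∃ Λ : ℝ, ∀ s t, 0 ≤ s → 0 ≤ t →
    |na μ s - na μ t| ≤ Λ * |s - t| := by
  obtain ⟨h1, h2, c, C, hc, hC, h⟩ := hμ
  have hb : ∀ t, 0 ≤ t → 0 ≤ na μ t ∧ na μ t ≤ C := by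
    intro t ht
    have e1 : Real.exp (-(μ * t)) * Real.exp (μ * t) = 1 := by rw [← Real.exp_add]; simp
    have e2 : 0 < Real.exp (-(μ * t)) := Real.exp_pos _
    unfold na
    constructor
    · have := one_le_mt ht; positivity
    · calc Real.exp (-(μ * t)) * mt t ≤ Real.exp (-(μ * t)) * (C * Real.exp (μ * t)) :=
            mul_le_mul_of_nonneg_left (h t ht).2 e2.le
        _ = C * (Real.exp (-(μ * t)) * Real.exp (μ * t)) := by ring
        _ = C := by rw [e1, mul_one]
  suffices key : ∀ s u, 0 ≤ s → 0 ≤ u → |na μ (u + s) - na μ s| ≤ 2 * C * u by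
    refine ⟨2 * C, fun s t hs ht => ?_⟩
    rcases le_total s t with hst | hst
    · have := key s (t - s) hs (by linarith)
      rw [show t - s + s = t by ring] at this
      rw [abs_sub_comm, abs_sub_comm s t, abs_of_nonneg (by linarith : 0 ≤ t - s)]
      exact this
    · have := key t (s - t) ht (by linarith)
      rw [show s - t + t = s by ring] at this
      rw [abs_of_nonneg (by linarith : 0 ≤ s - t)]
      exact this
  intro s u hs hu
  obtain ⟨b0, b1⟩ := hb s hs
  obtain ⟨b2, b3⟩ := hb (u + s) (by linarith)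
  by_cases hu2 : 1 / 2 ≤ u
  · rw [abs_le]
    constructor <;> nlinarith
  · push Not at hu2
    have up : na μ (u + s) ≤ (1 + 2 * u) * na μ s := by
      have e1 := mt_add_le (s := u) (t := s) hu hs
      have e2 : Real.exp (-(μ * (u + s))) * Real.exp u ≤ (1 + 2 * u) * Real.exp (-(μ * s)) := by
        have e3 : Real.exp u ≤ 1 + 2 * u := by
          have := Real.exp_bound_div_one_sub_of_interval hu (by linarith : u < 1)
          refine this.trans ?_
          rw [div_le_iff₀ (by linarith)]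
          nlinarith
        have e4 : Real.exp (-(μ * (u + s))) ≤ Real.exp (-(μ * s)) := by
          apply Real.exp_le_exp.2
          nlinarith
        have e5 : 0 < Real.exp (-(μ * s)) := Real.exp_pos _
        have e6 : 0 < Real.exp u := Real.exp_pos _
        calc Real.exp (-(μ * (u + s))) * Real.exp u ≤ Real.exp (-(μ * s)) * (1 + 2 * u) :=
              mul_le_mul e4 e3 e6.le e5.le
          _ = _ := by ring
      have e7 := one_le_mt hs
      unfold na
      calc Real.exp (-(μ * (u + s))) * mt (u + s)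
          ≤ Real.exp (-(μ * (u + s))) * (Real.exp u * mt s) :=
            mul_le_mul_of_nonneg_left e1 (Real.exp_pos _).le
        _ = (Real.exp (-(μ * (u + s))) * Real.exp u) * mt s := by ring
        _ ≤ ((1 + 2 * u) * Real.exp (-(μ * s))) * mt s :=
            mul_le_mul_of_nonneg_right e2 (by linarith)
        _ = _ := by ring
    have low : (1 - u) * na μ s ≤ na μ (u + s) := by
      have e1 := mt_mono hs (by linarith : s ≤ u + s)
      have e2 : (1 - u) * Real.exp (-(μ * s)) ≤ Real.exp (-(μ * (u + s))) := by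
        have : Real.exp (-(μ * (u + s))) = Real.exp (-(μ * u)) * Real.exp (-(μ * s)) := by
          rw [← Real.exp_add]; congr 1; ring
        rw [this]
        apply mul_le_mul_of_nonneg_right _ (Real.exp_pos _).le
        have := Real.add_one_le_exp (-(μ * u))
        nlinarith
      have e7 := one_le_mt hs
      unfold na
      calc (1 - u) * (Real.exp (-(μ * s)) * mt s) = ((1 - u) * Real.exp (-(μ * s))) * mt s := by
            ring
        _ ≤ Real.exp (-(μ * (u + s))) * mt s := mul_le_mul_of_nonneg_right e2 (by linarith)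
        _ ≤ _ := mul_le_mul_of_nonneg_left e1 (Real.exp_pos _).le
    rw [abs_le]
    constructor <;> nlinarith

lemma lim_aux_na_bound {μ c C : ℝ} 
    (h : ∀ t : ℝ, 0 ≤ t → c * Real.exp (μ * t) ≤ mt t ∧ mt t ≤ C * Real.exp (μ * t)) :
    ∀ t, 0 ≤ t → c ≤ na μ t ∧ na μ t ≤ C := by
  intro t ht
  have e1 : Real.exp (-(μ * t)) * Real.exp (μ * t) = 1 := by rw [← Real.exp_add]; simp
  have e2 : 0 < Real.exp (-(μ * t)) := Real.exp_pos _
  unfold na
  constructor
  · calc c = c * (Real.exp (-(μ * t)) * Real.exp (μ * t)) := by rw [e1, mul_one]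
      _ = Real.exp (-(μ * t)) * (c * Real.exp (μ * t)) := by ring
      _ ≤ _ := mul_le_mul_of_nonneg_left (h t ht).1 e2.le
  · calc Real.exp (-(μ * t)) * mt t ≤ Real.exp (-(μ * t)) * (C * Real.exp (μ * t)) :=
          mul_le_mul_of_nonneg_left (h t ht).2 e2.le
      _ = C * (Real.exp (-(μ * t)) * Real.exp (μ * t)) := by ring
      _ = C := by rw [e1, mul_one]

/-- at a time whose window is good, the normalised mean is close to `A * H` -/
lemma lim_aux_good {μ : ℝ} (K : ℕ) {T t A δ C1 e : ℝ} (hT : 0 < T) (hTt : T ≤ t)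
    (hδ : 0 ≤ δ) (hgood : ∀ r, t - T ≤ r → r ≤ t → |na μ r - A| ≤ δ)
    {x : St × Finset W} (hx : Sub x)
    (hmass : ∫ b in (0 : ℝ)..T, nu μ K b x ≤ C1 * card x)
    (hrep : |Real.exp (-(μ * t)) * phit t x - ∫ b in (0 : ℝ)..T, nu μ K b x * na μ (t - b)|
      ≤ e * card x) :
    |Real.exp (-(μ * t)) * phit t x - A * ∫ b in (0 : ℝ)..T, nu μ K b x|
      ≤ (e + δ * C1) * card x := by
  obtain ⟨hcont, hnn⟩ := nu_basic (μ := μ) K x hx
  have hcard := lim_aux_card_nonneg x
  have hsub : Set.uIcc (0 : ℝ) T ⊆ Set.Ici 0 := by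
    rw [Set.uIcc_of_le hT.le]; exact fun b hb => hb.1
  have c1 : ContinuousOn (fun b => nu μ K b x) (Set.uIcc 0 T) := hcont.mono hsub
  have c2 : ContinuousOn (fun b => na μ (t - b)) (Set.uIcc 0 T) := by
    unfold na
    apply ContinuousOn.mul
    · exact Continuous.continuousOn (by fun_prop)
    · apply mt_continuousOn.comp (Continuous.continuousOn (by fun_prop))
      intro b hb
      rw [Set.uIcc_of_le hT.le] at hb
      show 0 ≤ t - b
      linarith [hb.2]
  have i1 : IntervalIntegrable (fun b => nu μ K b x) volume 0 T := c1.intervalIntegrable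
  have i2 : IntervalIntegrable (fun b => nu μ K b x * na μ (t - b)) volume 0 T :=
    (c1.mul c2).intervalIntegrable
  have hdiff : |(∫ b in (0 : ℝ)..T, nu μ K b x * na μ (t - b)) - A * ∫ b in (0 : ℝ)..T, nu μ K b x|
      ≤ δ * C1 * card x := by
    rw [← intervalIntegral.integral_const_mul, ← intervalIntegral.integral_sub i2 (i1.const_mul A)]
    calc |∫ b in (0 : ℝ)..T, (nu μ K b x * na μ (t - b) - A * nu μ K b x)|
        ≤ ∫ b in (0 : ℝ)..T, |nu μ K b x * na μ (t - b) - A * nu μ K b x| :=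
          intervalIntegral.abs_integral_le_integral_abs hT.le
      _ ≤ ∫ b in (0 : ℝ)..T, δ * nu μ K b x := by
          apply intervalIntegral.integral_mono_on hT.le (i2.sub (i1.const_mul A)).abs
            (i1.const_mul δ)
          intro b hb
          have h1 := hnn b hb.1
          have h2 := hgood (t - b) (by linarith [hb.2]) (by linarith [hb.1])
          have : nu μ K b x * na μ (t - b) - A * nu μ K b x = nu μ K b x * (na μ (t - b) - A) := by
            ring
          rw [this, abs_mul, abs_of_nonneg h1]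
          nlinarith
      _ = δ * ∫ b in (0 : ℝ)..T, nu μ K b x := by rw [intervalIntegral.integral_const_mul]
      _ ≤ δ * (C1 * card x) := mul_le_mul_of_nonneg_left hmass hδ
      _ = _ := by ring
  have := abs_sub_le (Real.exp (-(μ * t)) * phit t x)
    (∫ b in (0 : ℝ)..T, nu μ K b x * na μ (t - b)) (A * ∫ b in (0 : ℝ)..T, nu μ K b x)
  calc _ ≤ _ := this
    _ ≤ e * card x + δ * C1 * card x := add_le_add hrep hdiff
    _ = _ := by ring

lemma lim_aux_cauchy {μ : ℝ} (hμ : Expo μ) : ∀ ε : ℝ, 0 < ε → ∃ T : ℝ, 0 ≤ T ∧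
    ∀ t t' : ℝ, T ≤ t → T ≤ t' → ∀ x, Sub x →
    |Real.exp (-(μ * t)) * phit t x - Real.exp (-(μ * t')) * phit t' x| ≤ ε * card x := by
  have hμ' := hμ
  obtain ⟨hm1, hm2, c, Cb, hc, hCb, hexp⟩ := hμ'
  obtain ⟨C2, hC2, hphit⟩ := lim_aux_phit_bound hμ
  obtain ⟨Λ, hlip⟩ := lim_aux_lip hμ
  obtain ⟨K1, C1, hC1, hmass⟩ := cut_mass hμ
  obtain ⟨K2, C3, hC3, hrep⟩ := rep hμ
  choose! CK hCK hrep using hrep
  obtain ⟨c5, hc5, hhub⟩ := hub_lower
  have hseed : Sub (seed, ({[]} : Finset W)) := by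
    show ({[]} : Finset W) ⊆ seed.V
    exact subset_refl _
  have hcs : card (seed, ({[]} : Finset W)) = 1 := by simp [card]
  obtain ⟨A, hA, hwin⟩ := window (a := na μ) (ν := fun K b => nu μ K b (seed, {[]}))
    (c := c) (C := max Cb C3) (Λ := Λ) (μ := μ) (c5 := c5) (K0 := K2) (CK := CK) hc hc5
    (by linarith) hm2
    (fun t ht => ⟨(lim_aux_na_bound hexp t ht).1,
      (lim_aux_na_bound hexp t ht).2.trans (le_max_left _ _)⟩)
    (fun s t hs ht => hlip s t hs ht)
    (fun K _ => (nu_basic K _ hseed).1)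
    (fun K _ => (nu_basic K _ hseed).2)
    (fun K hK T hT t hTt => by
      have := hrep K hK T hT t hTt _ hseed
      rw [phit_seed, hcs, mul_one] at this
      refine this.trans ?_
      have : C3 / K ≤ max Cb C3 / K := by
        apply div_le_div_of_nonneg_right (le_max_right _ _) (Nat.cast_nonneg _)
      linarith)
    (fun B hB => by
      obtain ⟨K3, hK3, h⟩ := hhub B hB
      refine ⟨K3, hK3, fun K hK b hb1 hb2 => ?_⟩
      have := h K hK b hb1 hb2
      unfold nu
      rw [mul_comm]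
      exact mul_le_mul_of_nonneg_left this (Real.exp_pos _).le)
  intro ε hε
  -- choose the error
  set ε' : ℝ := ε / (2 * (1 + 2 * C2)) with hε'
  have hε'0 : 0 < ε' := by positivity
  obtain ⟨K, hK1, hK2, hK0, hKe⟩ : ∃ K : ℕ, K1 ≤ K ∧ K2 ≤ K ∧ 0 < K ∧ C3 / K ≤ ε' / 3 := by
    obtain ⟨K, hK⟩ := exists_nat_gt (3 * C3 / ε')
    refine ⟨max (max K1 K2) (max K 1), le_trans (le_max_left _ _) (le_max_left _ _),
      le_trans (le_max_right _ _) (le_max_left _ _), by
        have : 1 ≤ max (max K1 K2) (max K 1) := le_trans (le_max_right _ _) (le_max_right _ _)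
        omega, ?_⟩
    have hK' : (K : ℝ) ≤ ((max (max K1 K2) (max K 1) : ℕ) : ℝ) := by
      exact_mod_cast le_trans (le_max_left _ _) (le_max_right _ _)
    have hKp : 0 < ((max (max K1 K2) (max K 1) : ℕ) : ℝ) := by
      have : 0 < 3 * C3 / ε' := by positivity
      linarith
    rw [div_le_iff₀ hKp]
    rw [div_lt_iff₀ hε'0] at hK
    nlinarith
  obtain ⟨T, hT, hTe⟩ : ∃ T : ℝ, 0 < T ∧ CK K / T ≤ ε' / 3 := by
    have := hCK K hK2
    refine ⟨3 * CK K / ε', by positivity, ?_⟩
    rw [div_div_eq_mul_div, div_le_iff₀ (by positivity)]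
    have : CK K * ε' = ε' / 3 * (3 * CK K) := by ring
    exact this.le
  obtain ⟨δ, hδ, hδe⟩ : ∃ δ : ℝ, 0 < δ ∧ δ * C1 ≤ ε' / 3 := by
    refine ⟨ε' / 3 / C1, by positivity, ?_⟩
    rw [div_mul_cancel₀ _ hC1.ne']
  set H : St × Finset W → ℝ := fun x => ∫ b in (0 : ℝ)..T, nu μ K b x with hH
  have hHmass : ∀ x, Sub x → H x ≤ C1 * card x := fun x hx => hmass K hK1 T hT.le x hx
  have hHnn : ∀ x, Sub x → 0 ≤ H x := fun x hx =>
    intervalIntegral.integral_nonneg hT.le fun b hb => (nu_basic K x hx).2 b hb.1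
  have hDomAH : Dom Sub card (fun x => A * H x) :=
    ⟨A * C1, by positivity, fun x hx => by
      rw [abs_mul, abs_of_pos hA, abs_of_nonneg (hHnn x hx), mul_assoc]
      exact mul_le_mul_of_nonneg_left (hHmass x hx) hA.le⟩
  -- at good times
  have hgood : ∀ t, T ≤ t → (∀ r, t - T ≤ r → r ≤ t → |na μ r - A| ≤ δ) → ∀ x, Sub x →
      |Real.exp (-(μ * t)) * phit t x - A * H x| ≤ ε' * card x := by
    intro t ht hr x hx
    have := lim_aux_good K hT ht hδ.le hr hx (hHmass x hx) (hrep K hK2 T hT t ht x hx)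
    refine this.trans (mul_le_mul_of_nonneg_right ?_ (lim_aux_card_nonneg x))
    linarith
  -- comparison along the semigroup
  have hstep : ∀ s t, 0 ≤ s → 0 ≤ t →
      (∀ y, Sub y → |Real.exp (-(μ * t)) * phit t y - A * H y| ≤ ε' * card y) → ∀ x, Sub x →
      |Real.exp (-(μ * (s + t))) * phit (s + t) x
        - Real.exp (-(μ * s)) * P inhA s (fun y => A * H y) x| ≤ ε' * C2 * card x := by
    intro s t hs ht hy x hx
    have hD : Dom Sub card (fun y => Real.exp (-(μ * t)) * phit t y) := by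
      obtain ⟨c', hc', h'⟩ := lim_aux_dom_phit ht
      refine ⟨Real.exp (-(μ * t)) * c', by positivity, fun y hy => ?_⟩
      rw [abs_mul, abs_of_pos (Real.exp_pos _), mul_assoc]
      exact mul_le_mul_of_nonneg_left (h' y hy) (Real.exp_pos _).le
    have h1 := lim_aux_contr hphit hε'0.le hy hs hx
    rw [P_sub_fun (wt_card (fun _ => true)) hD hDomAH hs hx] at h1
    rw [lim_aux_semi hs ht hx, ← mul_sub]
    exact h1
  -- near invariance of `A * H`
  have hinv : ∀ s, 0 ≤ s → ∀ x, Sub x →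
      |A * H x - Real.exp (-(μ * s)) * P inhA s (fun y => A * H y) x| ≤ ε' * (1 + C2) * card x := by
    intro s hs x hx
    obtain ⟨t1, -, ht1, hr⟩ := hwin δ hδ (T + s) (by linarith) 0
    have h1 := hgood t1 (by linarith) (fun r h1 h2 => hr r (by linarith) h2) x hx
    have h2 := hstep s (t1 - s) hs (by linarith) (fun y hy =>
      hgood (t1 - s) (by linarith) (fun r h1 h2 => hr r (by linarith) (by linarith)) y hy) x hx
    rw [show s + (t1 - s) = t1 by ring] at h2
    rw [abs_sub_comm] at h1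
    have h3 := abs_sub_le (A * H x) (Real.exp (-(μ * t1)) * phit t1 x)
      (Real.exp (-(μ * s)) * P inhA s (fun y => A * H y) x)
    calc _ ≤ _ := h3
      _ ≤ ε' * card x + ε' * C2 * card x := add_le_add h1 h2
      _ = _ := by ring
  obtain ⟨t1, -, ht1, hr⟩ := hwin δ hδ T hT.le 0
  have hall : ∀ t, t1 ≤ t → ∀ x, Sub x →
      |Real.exp (-(μ * t)) * phit t x - A * H x| ≤ ε' * (1 + 2 * C2) * card x := by
    intro t ht x hx
    have h2 := hstep (t - t1) t1 (by linarith) (by linarith) (fun y hy => hgood t1 ht1 hr y hy) x hx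
    rw [show t - t1 + t1 = t by ring] at h2
    have h1 := hinv (t - t1) (by linarith) x hx
    rw [abs_sub_comm] at h1
    have h3 := abs_sub_le (Real.exp (-(μ * t)) * phit t x)
      (Real.exp (-(μ * (t - t1))) * P inhA (t - t1) (fun y => A * H y) x) (A * H x)
    calc _ ≤ _ := h3
      _ ≤ ε' * C2 * card x + ε' * (1 + C2) * card x := add_le_add h2 h1
      _ = _ := by ring
  refine ⟨t1, by linarith, fun t t' ht ht' x hx => ?_⟩
  have h1 := hall t ht x hx
  have h2 := hall t' ht' x hx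
  rw [abs_sub_comm] at h2
  have h3 := abs_sub_le (Real.exp (-(μ * t)) * phit t x) (A * H x)
    (Real.exp (-(μ * t')) * phit t' x)
  calc _ ≤ _ := h3
    _ ≤ ε' * (1 + 2 * C2) * card x + ε' * (1 + 2 * C2) * card x := add_le_add h1 h2
    _ = ε * card x := by
        rw [hε']
        field_simp
        ring

theorem lim_exists {μ : ℝ} (hμ : Expo μ) : ∃ hh : St × Finset W → ℝ,
    ∀ ε : ℝ, 0 < ε → ∃ T : ℝ, 0 ≤ T ∧ ∀ t : ℝ, T ≤ t → ∀ x, Sub x →
    |Real.exp (-(μ * t)) * phit t x - hh x| ≤ ε * card x := by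
  have hc := lim_aux_cauchy hμ
  have hlim : ∀ x, Sub x → ∃ l, Tendsto (fun t => Real.exp (-(μ * t)) * phit t x) atTop (𝓝 l) := by
    intro x hx
    apply cauchy_map_iff_exists_tendsto.1
    rw [Metric.cauchy_iff]
    refine ⟨inferInstance, fun ε hε => ?_⟩
    have hcd := lim_aux_card_nonneg x
    obtain ⟨T, -, hT⟩ := hc (ε / (card x + 1)) (by positivity)
    refine ⟨(fun t => Real.exp (-(μ * t)) * phit t x) '' Set.Ici T,
      image_mem_map (Ici_mem_atTop T), ?_⟩
    rintro _ ⟨t, ht, rfl⟩ _ ⟨t', ht', rfl⟩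
    rw [Real.dist_eq]
    refine lt_of_le_of_lt (hT t t' ht ht' x hx) ?_
    rw [div_mul_eq_mul_div, div_lt_iff₀ (by positivity)]
    nlinarith
  choose! hh hhl using hlim
  refine ⟨hh, fun ε hε => ?_⟩
  obtain ⟨T, hT0, hT⟩ := hc ε hε
  refine ⟨T, hT0, fun t ht x hx => ?_⟩
  have h1 : Tendsto (fun t' => |Real.exp (-(μ * t)) * phit t x - Real.exp (-(μ * t')) * phit t' x|)
      atTop (𝓝 |Real.exp (-(μ * t)) * phit t x - hh x|) :=
    (tendsto_const_nhds.sub (hhl x hx)).abs
  exact le_of_tendsto h1 (by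
    filter_upwards [Ici_mem_atTop T] with t' ht'
    exact hT t t' ht ht' x hx)

end FT
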