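import Pool.Agent.FT.Tree

/-! # Module Markov (friend tree, MP_5ccad8_pr) -/

open Finset MeasureTheory Filter Topology

namespace FT

variable {Ω : Type*} {m0 : MeasurableSpace Ω} {P : Measure Ω} [IsProbabilityMeasure P]
  {ℱ : Filtration ℕ m0} {S : ℕ → Ω → St} {μ : ℝ} {hh : St × Finset W → ℝ}

theorem markov_multi (hS : IsChain P ℱ S) (n m : ℕ) (hn : 3 ≤ n) (Φ : St → ℝ) :
    P[fun ω => Φ (S (n + m) ω) | ℱ n] =ᵐ[P]
      fun ω => U inhU m n (fun x => Φ x.1) (S n ω, ()) := by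
  induction m generalizing Φ with
  | zero =>
    obtain ⟨c, hc⟩ := hS.bdd n hn Φ
    have hint : Integrable (fun ω => Φ (S n ω)) P :=
      Integrable.of_bound ((hS.meas n hn Φ).mono (ℱ.le n)).aestronglyMeasurable c
        (by simpa [Real.norm_eq_abs] using hc)
    simp only [Nat.add_zero]
    rw [condExp_of_stronglyMeasurable (ℱ.le n) (hS.meas n hn Φ) hint]
    exact ae_of_all _ fun ω => rfl
  | succ m ih =>
    have h1 : P[fun ω => Φ (S (n + (m + 1)) ω) | ℱ n]
        =ᵐ[P] P[P[fun ω => Φ (S (n + (m + 1)) ω) | ℱ (n + m)] | ℱ n] :=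
      (condExp_condExp_of_le (ℱ.mono (Nat.le_add_right n m)) (ℱ.le (n + m))).symm
    have h2 : P[P[fun ω => Φ (S (n + (m + 1)) ω) | ℱ (n + m)] | ℱ n] =ᵐ[P]
        P[fun ω => (fun T : St => Aop inhU (n + m) (fun x => Φ x.1) (T, ())) (S (n + m) ω) | ℱ n] :=
      condExp_congr_ae (hS.markov (n + m) (by omega) Φ)
    have h3 := ih (fun T : St => Aop inhU (n + m) (fun x => Φ x.1) (T, ()))
    refine (h1.trans h2).trans (h3.trans (ae_of_all _ fun ω => ?_))
    show U inhU m n (Aop inhU (n + m) (fun x => Φ x.1)) (S n ω, ()) = _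
    rw [← U_succ_last]

end FT
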