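import Pool.Agent.FT.Lab

/-! # All further definitions -/

namespace FT

open Finset

/-! ### continuous time -/

/-- Yule weights: probability that a Yule process started at `j` is at `j + m` at time `t` -/
noncomputable def yw (t : ℝ) (j m : ℕ) : ℝ :=
  (Nat.choose (j + m - 1) m : ℝ) * Real.exp (-((j : ℝ) * t)) * (1 - Real.exp (-t)) ^ m

section
variable {C : Type*} (inh : St → W → C → C)

/-- the continuous time semigroup -/
noncomputable def P (t : ℝ) (F : St × C → ℝ) (x : St × C) : ℝ :=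
  ∑' m, yw t (x.1.n + 1) m * U inh m (x.1.n + 1) F x

/-- weights, used to dominate functions -/
structure Wt (Inv : St × C → Prop) (w : St × C → ℝ) : Prop where
  closed : Closed inh Inv
  nonneg : ∀ x, Inv x → 0 ≤ w x
  gen_le : ∀ x, Inv x → gen inh w x ≤ w x

/-- `F` is dominated by a multiple of `w` on `Inv` -/
def Dom (Inv : St × C → Prop) (w F : St × C → ℝ) : Prop :=
  ∃ c : ℝ, 0 ≤ c ∧ ∀ x, Inv x → |F x| ≤ c * w x

end

/-- expected number of descendants, continuous time -/
noncomputable def phit (t : ℝ) : St × Finset W → ℝ := P inhA t card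

/-- ideal seed, continuous time -/
noncomputable def mt (t : ℝ) : ℝ := P inhU t XU (seed, ())

/-- `L/d` on `{L ≥ i}` -/
noncomputable def xi (i L s : ℕ) : ℝ := if i ≤ L then (L : ℝ) / ((L : ℝ) + s) else 0

/-- additive version of `xi` over the active set -/
noncomputable def Xi (i : ℕ) (x : St × Finset W) : ℝ := ∑ y ∈ x.2, xi i (x.1.L y) (x.1.s y)

/-- rate of cut births, weighted by the value `F` of the newborn lineage -/
noncomputable def cut (θ : ℕ → Bool) (F : St × Finset W → ℝ) (x : St × Finset W) : ℝ :=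
  ∑ v ∈ x.2, if θ (x.1.L v) = true then 0 else
    ((x.1.L v : ℝ) / x.1.d v) * F (x.1.bir v, {x.1.new v})

/-! ### adversarial values -/

/-- the adversarial term: each ghost may attach a leaf at rate at most `1/2` -/
noncomputable def adv (F : St × Finset W → ℝ) (x : St × Finset W) : ℝ :=
  ∑ v ∈ x.1.V, ((x.1.h v : ℝ) / 2) * max (F (x.1.arr v, x.2) - F x) 0

/-- one adversarial step -/
noncomputable def AA (j : ℕ) (F : St × Finset W → ℝ) (x : St × Finset W) : ℝ :=
  F x + (1 / (j : ℝ)) * (gen inhA F x + adv F x)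

/-- adversarial value of the number of descendants of the active set -/
noncomputable def Gh : ℕ → ℕ → St × Finset W → ℝ
  | 0, _ => card
  | m + 1, j => AA j (Gh m (j + 1))

/-- majorant of the ideal values -/
noncomputable def KK : ℕ → ℕ → ℝ
  | 0, _ => 1
  | m + 1, j => max (mm (m + 1) j) ((1 + (9 / 20) / (j : ℝ)) * KK m (j + 1))

/-! ### potentials (growth exponent `α = 9/20`) -/

/-- `β` potential -/
noncomputable def bet (L s : ℕ) : ℝ := (20 / 9) * (1 - (3 * s + 2) / (10 * ((L : ℝ) + s)))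

/-- `J` potential -/
noncomputable def Jf (L : ℕ) : ℝ := if L ≤ 2 then 1 else 17 / (8 * (L : ℝ))

/-- bound for the influence on a newborn whose parent has `L` leaves after the birth -/
noncomputable def Dh (L : ℕ) : ℝ := min 1 ((5 / 3) * Jf L)

/-- growth potential -/
noncomputable def psi (L s : ℕ) : ℝ := if L = 0 then 0 else (20 * L - 5) / (20 * L + 6 * s + 7)

/-! ### functions used at the end -/

/-- no ghosts -/
def Full (S : St) : Prop := ∀ v ∈ S.V, S.h v = 0

/-- the properties of the eigenfunction `hh` (for the active sets `A ⊆ V`) -/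
structure Eig (μ : ℝ) (hh : St × Finset W → ℝ) : Prop where
  nonneg : ∀ x, Sub x → 0 ≤ hh x
  le : ∃ C : ℝ, 0 < C ∧ ∀ x, Sub x → hh x ≤ C * card x
  add : ∀ (S : St) (A B : Finset W), A ⊆ S.V → B ⊆ S.V → Disjoint A B →
    hh (S, A ∪ B) = hh (S, A) + hh (S, B)
  gen : ∀ x, Sub x → gen inhA hh x = μ * hh x
  lower : ∃ c : ℝ, 0 < c ∧ ∀ (S : St) (y : W), y ∈ S.V →
    c * ((S.L y : ℝ) / S.d y) ≤ hh (S, {y})
  lim : ∀ ε : ℝ, 0 < ε → ∃ T : ℝ, 0 ≤ T ∧ ∀ t : ℝ, T ≤ t → ∀ x, Sub x →
    |Real.exp (-(μ * t)) * phit t x - hh x| ≤ ε * card x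

/-- additive functions of the active set -/
def Addit (F : St × Finset W → ℝ) : Prop := ∀ (S : St) (A B : Finset W), A ⊆ S.V → B ⊆ S.V →
  Disjoint A B → F (S, A ∪ B) = F (S, A) + F (S, B)

/-- `μ` is the growth exponent of the ideal seed -/
def Expo (μ : ℝ) : Prop := 9 / 20 ≤ μ ∧ μ ≤ 3 / 4 ∧ ∃ c C : ℝ, 0 < c ∧ 0 < C ∧
  ∀ t : ℝ, 0 ≤ t → c * Real.exp (μ * t) ≤ mt t ∧ mt t ≤ C * Real.exp (μ * t)

/-- the kernel of first cut births -/
noncomputable def nu (μ : ℝ) (K : ℕ) (b : ℝ) (x : St × Finset W) : ℝ :=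
  Real.exp (-(μ * b)) * P (inhK K) b (Xi (K + 1)) x

/-- normalised ideal mean -/
noncomputable def na (μ t : ℝ) : ℝ := Real.exp (-(μ * t)) * mt t

end FT
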