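import Pool.Agent.FT.Core

/-! # The generator and the discrete evolution operators

`C` is a type of labels, transported along births by `inh`.  `gen inh` is the generator,
`Aop inh j F = F + (1/j) gen F` is one step at population `j`, and
`U inh m j F = Aop j (Aop (j+1) (... (Aop (j+m-1) F)))`.
-/

namespace FT

open Finset

section Op
variable {C : Type*} (inh : St → W → C → C)

/-- the generator -/
noncomputable def gen (F : St × C → ℝ) (x : St × C) : ℝ :=
  ∑ v ∈ x.1.V, (((x.1.L v : ℝ) + x.1.κ v) * (F (x.1.arr v, x.2) - F x)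
    + ((x.1.L v : ℝ) / x.1.d v) * (F (x.1.bir v, inh x.1 v x.2) - F x))

/-- one step at population `j` -/
noncomputable def Aop (j : ℕ) (F : St × C → ℝ) (x : St × C) : ℝ :=
  F x + (1 / (j : ℝ)) * gen inh F x

/-- evolution from population `j` to population `j + m` -/
noncomputable def U : ℕ → ℕ → (St × C → ℝ) → St × C → ℝ
  | 0, _, F => F
  | m + 1, j, F => Aop inh j (U m (j + 1) F)

/-- a property of labelled states preserved by the moves -/
structure Closed (Inv : St × C → Prop) : Prop where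
  arr : ∀ x, Inv x → ∀ v ∈ x.1.V, Inv (x.1.arr v, x.2)
  bir : ∀ x, Inv x → ∀ v ∈ x.1.V, 0 < x.1.L v → Inv (x.1.bir v, inh x.1 v x.2)

/-- the product `∏_{i<m} (1 + α/(j+i))` -/
noncomputable def pr (α : ℝ) (j m : ℕ) : ℝ := ∏ i ∈ range m, (1 + α / ((j + i : ℕ) : ℝ))

variable {inh}

lemma closed_true : Closed inh (fun _ => True) := ⟨fun _ _ _ _ => trivial, fun _ _ _ _ _ => trivial⟩

lemma Closed.and {I J : St × C → Prop} (hI : Closed inh I) (hJ : Closed inh J) :
    Closed inh (fun x => I x ∧ J x) :=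
  ⟨fun x hx v hv => ⟨hI.arr x hx.1 v hv, hJ.arr x hx.2 v hv⟩,
   fun x hx v hv hL => ⟨hI.bir x hx.1 v hv hL, hJ.bir x hx.2 v hv hL⟩⟩

/-! ### linearity -/

lemma gen_add (F G : St × C → ℝ) : gen inh (fun x => F x + G x) = fun x => gen inh F x + gen inh G x := by
  funext x; unfold gen; rw [← sum_add_distrib]; exact sum_congr rfl fun v _ => by ring

lemma gen_sub (F G : St × C → ℝ) : gen inh (fun x => F x - G x) = fun x => gen inh F x - gen inh G x := by
  funext x; unfold gen; rw [← sum_sub_distrib]; exact sum_congr rfl fun v _ => by ring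

lemma gen_smul (c : ℝ) (F : St × C → ℝ) : gen inh (fun x => c * F x) = fun x => c * gen inh F x := by
  funext x; unfold gen; rw [mul_sum]; exact sum_congr rfl fun v _ => by ring

lemma gen_const (c : ℝ) : gen inh (fun _ => c) = fun _ => 0 := by
  funext x; unfold gen; exact sum_eq_zero fun v _ => by ring

lemma gen_sum {ι : Type*} (s : Finset ι) (F : ι → St × C → ℝ) :
    gen inh (fun x => ∑ i ∈ s, F i x) = fun x => ∑ i ∈ s, gen inh (F i) x := by
  classical
  induction s using Finset.induction_on with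
  | empty => simp [gen_const]
  | insert a s ha ih =>
    simp_rw [sum_insert ha]
    rw [gen_add, ih]

lemma Aop_add (j : ℕ) (F G : St × C → ℝ) :
    Aop inh j (fun x => F x + G x) = fun x => Aop inh j F x + Aop inh j G x := by
  funext x; unfold Aop; rw [gen_add]; ring

lemma Aop_sub (j : ℕ) (F G : St × C → ℝ) :
    Aop inh j (fun x => F x - G x) = fun x => Aop inh j F x - Aop inh j G x := by
  funext x; unfold Aop; rw [gen_sub]; ring

lemma Aop_smul (j : ℕ) (c : ℝ) (F : St × C → ℝ) :
    Aop inh j (fun x => c * F x) = fun x => c * Aop inh j F x := by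
  funext x; unfold Aop; rw [gen_smul]; ring

lemma Aop_const (j : ℕ) (c : ℝ) : Aop inh j (fun _ => c) = fun _ => c := by
  funext x; unfold Aop; rw [gen_const]; ring

lemma U_zero (j : ℕ) (F : St × C → ℝ) : U inh 0 j F = F := rfl

lemma U_succ (m j : ℕ) (F : St × C → ℝ) : U inh (m + 1) j F = Aop inh j (U inh m (j + 1) F) := rfl

lemma U_add_fun (m : ℕ) : ∀ (j : ℕ) (F G : St × C → ℝ),
    U inh m j (fun x => F x + G x) = fun x => U inh m j F x + U inh m j G x := by
  induction m with
  | zero => intro j F G; rfl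
  | succ m ih => intro j F G; rw [U_succ, ih, Aop_add]; rfl

lemma U_sub_fun (m : ℕ) : ∀ (j : ℕ) (F G : St × C → ℝ),
    U inh m j (fun x => F x - G x) = fun x => U inh m j F x - U inh m j G x := by
  induction m with
  | zero => intro j F G; rfl
  | succ m ih => intro j F G; rw [U_succ, ih, Aop_sub]; rfl

lemma U_smul (m : ℕ) : ∀ (j : ℕ) (c : ℝ) (F : St × C → ℝ),
    U inh m j (fun x => c * F x) = fun x => c * U inh m j F x := by
  induction m with
  | zero => intro j c F; rfl
  | succ m ih => intro j c F; rw [U_succ, ih, Aop_smul]; rfl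

lemma U_const (m : ℕ) : ∀ (j : ℕ) (c : ℝ), U inh m j (fun _ => c) = fun _ => c := by
  induction m with
  | zero => intro j c; rfl
  | succ m ih => intro j c; rw [U_succ, ih, Aop_const]

lemma U_sum {ι : Type*} (s : Finset ι) (m j : ℕ) (F : ι → St × C → ℝ) :
    U inh m j (fun x => ∑ i ∈ s, F i x) = fun x => ∑ i ∈ s, U inh m j (F i) x := by
  classical
  induction s using Finset.induction_on with
  | empty => simp [U_const]
  | insert a s ha ih =>
    simp_rw [sum_insert ha]
    rw [U_add_fun, ih]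

/-! ### commutation -/

lemma Aop_comm (i j : ℕ) (F : St × C → ℝ) :
    Aop inh i (Aop inh j F) = Aop inh j (Aop inh i F) := by
  have key : ∀ i j : ℕ, Aop inh i (Aop inh j F) = fun x =>
      F x + (1 / (j : ℝ)) * gen inh F x + ((1 / (i : ℝ)) * gen inh F x
        + (1 / (i : ℝ)) * ((1 / (j : ℝ)) * gen inh (gen inh F) x)) := by
    intro i j
    funext x
    have h : gen inh (Aop inh j F) x = gen inh F x + (1 / (j : ℝ)) * gen inh (gen inh F) x := by
      have : Aop inh j F = fun x => F x + (1 / (j : ℝ)) * gen inh F x := rfl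
      rw [this, gen_add, gen_smul]
    show Aop inh j F x + (1 / (i : ℝ)) * gen inh (Aop inh j F) x = _
    rw [h]; unfold Aop; ring
  rw [key, key]; funext x; ring

lemma U_succ_first (m : ℕ) : ∀ (j : ℕ) (F : St × C → ℝ),
    U inh (m + 1) j F = U inh m (j + 1) (Aop inh j F) := by
  suffices h : ∀ (i j : ℕ) (F : St × C → ℝ),
      Aop inh i (U inh m j F) = U inh m j (Aop inh i F) from fun j F => h j (j + 1) F
  induction m with
  | zero => intro i j F; rfl
  | succ m ih => intro i j F; rw [U_succ, Aop_comm, ih, ← U_succ]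

lemma Aop_U (i m j : ℕ) (F : St × C → ℝ) :
    Aop inh i (U inh m j F) = U inh m j (Aop inh i F) := by
  induction m generalizing j F with
  | zero => rfl
  | succ m ih => rw [U_succ, Aop_comm, ih, ← U_succ]

lemma U_add (m : ℕ) : ∀ (k j : ℕ) (F : St × C → ℝ),
    U inh (m + k) j F = U inh m j (U inh k (j + m) F) := by
  induction m with
  | zero => intro k j F; simp [U_zero]
  | succ m ih =>
    intro k j F
    rw [show m + 1 + k = (m + k) + 1 by ring, U_succ, ih, U_succ,
      show j + 1 + m = j + (m + 1) by ring]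

lemma U_succ_last (m j : ℕ) (F : St × C → ℝ) :
    U inh (m + 1) j F = U inh m j (Aop inh (j + m) F) := by
  rw [U_add]; rfl

lemma gen_U (m j : ℕ) (F : St × C → ℝ) : gen inh (U inh m j F) = U inh m j (gen inh F) := by
  induction m generalizing j F with
  | zero => rfl
  | succ m ih =>
    have h : ∀ G : St × C → ℝ, gen inh (Aop inh j G) = Aop inh j (gen inh G) := by
      intro G
      have : Aop inh j G = fun x => G x + (1 / (j : ℝ)) * gen inh G x := rfl
      funext x
      rw [this, gen_add, gen_smul]; rfl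
    rw [U_succ, h, ih]; rfl

/-! ### positivity -/

lemma rate_arr_nonneg (S : St) (v : W) : 0 ≤ (S.L v : ℝ) + S.κ v := by
  have := S.κ_nonneg v; positivity

lemma rate_bir_nonneg (S : St) (v : W) : 0 ≤ (S.L v : ℝ) / S.d v := by
  have := S.d_nonneg v; positivity

lemma Aop_eq (j : ℕ) (F : St × C → ℝ) (x : St × C) :
    Aop inh j F x = (1 - (∑ v ∈ x.1.V, ((x.1.L v : ℝ) + x.1.κ v + x.1.L v / x.1.d v)) / j) * F x
      + ∑ v ∈ x.1.V, (((x.1.L v : ℝ) + x.1.κ v) / j * F (x.1.arr v, x.2)
          + ((x.1.L v : ℝ) / x.1.d v) / j * F (x.1.bir v, inh x.1 v x.2)) := by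
  unfold Aop gen
  have : ∀ v, ((x.1.L v : ℝ) + x.1.κ v) * (F (x.1.arr v, x.2) - F x)
    + ((x.1.L v : ℝ) / x.1.d v) * (F (x.1.bir v, inh x.1 v x.2) - F x)
    = (((x.1.L v : ℝ) + x.1.κ v) * F (x.1.arr v, x.2)
        + ((x.1.L v : ℝ) / x.1.d v) * F (x.1.bir v, inh x.1 v x.2))
      - ((x.1.L v : ℝ) + x.1.κ v + x.1.L v / x.1.d v) * F x := by intro v; ring
  simp_rw [this]
  rw [sum_sub_distrib, ← sum_mul, mul_sub, mul_sum]
  have h2 : ∀ v, 1 / (j : ℝ) * (((x.1.L v : ℝ) + x.1.κ v) * F (x.1.arr v, x.2)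
        + ((x.1.L v : ℝ) / x.1.d v) * F (x.1.bir v, inh x.1 v x.2))
      = ((x.1.L v : ℝ) + x.1.κ v) / j * F (x.1.arr v, x.2)
          + ((x.1.L v : ℝ) / x.1.d v) / j * F (x.1.bir v, inh x.1 v x.2) := by intro v; ring
  simp_rw [h2]
  ring

lemma Aop_mono {Inv : St × C → Prop} (hI : Closed inh Inv) {j : ℕ} {F G : St × C → ℝ}
    {x : St × C} (hx : Inv x) (hj : 0 < j) (hn : x.1.n ≤ j)
    (h : ∀ y, Inv y → y.1.n ≤ x.1.n + 1 → F y ≤ G y) : Aop inh j F x ≤ Aop inh j G x := by
  rw [Aop_eq, Aop_eq]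
  have hj' : (0 : ℝ) < j := by exact_mod_cast hj
  apply add_le_add
  · apply mul_le_mul_of_nonneg_left (h x hx (Nat.le_succ _))
    rw [sub_nonneg, div_le_one hj']
    exact x.1.total_rate.trans (by exact_mod_cast hn)
  · apply sum_le_sum
    intro v hv
    apply add_le_add
    · apply mul_le_mul_of_nonneg_left (h _ (hI.arr x hx v hv) (by simp [St.arr_n hv]))
      have := rate_arr_nonneg x.1 v
      positivity
    · by_cases hL : 0 < x.1.L v
      · apply mul_le_mul_of_nonneg_left (h _ (hI.bir x hx v hv hL) (by simp [St.bir_n hv hL]))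
        have := rate_bir_nonneg x.1 v
        positivity
      · have : x.1.L v = 0 := by omega
        simp [this]

lemma Aop_congr {Inv : St × C → Prop} (hI : Closed inh Inv) {j : ℕ} {F G : St × C → ℝ}
    {x : St × C} (hx : Inv x)
    (h : ∀ y, Inv y → y.1.n ≤ x.1.n + 1 → F y = G y) : Aop inh j F x = Aop inh j G x := by
  rw [Aop_eq, Aop_eq, h x hx (Nat.le_succ _)]
  congr 1
  apply sum_congr rfl
  intro v hv
  rw [h _ (hI.arr x hx v hv) (by simp [St.arr_n hv])]
  by_cases hL : 0 < x.1.L v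
  · rw [h _ (hI.bir x hx v hv hL) (by simp [St.bir_n hv hL])]
  · have : x.1.L v = 0 := by omega
    simp [this]

lemma U_mono {Inv : St × C → Prop} (hI : Closed inh Inv) {F G : St × C → ℝ} (m : ℕ) :
    ∀ {j : ℕ} {x : St × C}, Inv x → 0 < j → x.1.n ≤ j →
    (∀ y, Inv y → y.1.n ≤ x.1.n + m → F y ≤ G y) → U inh m j F x ≤ U inh m j G x := by
  induction m with
  | zero => intro j x hx _ _ h; exact h x hx (by simp)
  | succ m ih =>
    intro j x hx hj hn h
    rw [U_succ, U_succ]
    apply Aop_mono hI hx hj hn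
    intro y hy hyn
    exact ih hy (by omega) (by omega) fun z hz hzn => h z hz (by omega)

lemma U_congr {Inv : St × C → Prop} (hI : Closed inh Inv) {F G : St × C → ℝ} (m : ℕ) :
    ∀ {j : ℕ} {x : St × C}, Inv x →
    (∀ y, Inv y → y.1.n ≤ x.1.n + m → F y = G y) → U inh m j F x = U inh m j G x := by
  induction m with
  | zero => intro j x hx h; exact h x hx (by simp)
  | succ m ih =>
    intro j x hx h
    rw [U_succ, U_succ]
    apply Aop_congr hI hx
    intro y hy hyn
    exact ih hy fun z hz hzn => h z hz (by omega)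

lemma U_nonneg {Inv : St × C → Prop} (hI : Closed inh Inv) {F : St × C → ℝ} (m : ℕ)
    {j : ℕ} {x : St × C} (hx : Inv x) (hj : 0 < j) (hn : x.1.n ≤ j)
    (h : ∀ y, Inv y → y.1.n ≤ x.1.n + m → 0 ≤ F y) : 0 ≤ U inh m j F x := by
  have := U_mono (F := fun _ => 0) (G := F) hI m hx hj hn h
  rwa [U_const] at this

/-! ### growth -/

lemma pr_zero (α : ℝ) (j : ℕ) : pr α j 0 = 1 := by simp [pr]

lemma pr_succ (α : ℝ) (j m : ℕ) : pr α j (m + 1) = (1 + α / j) * pr α (j + 1) m := by
  unfold pr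
  rw [prod_range_succ', mul_comm, Nat.add_zero]
  congr 1
  apply prod_congr rfl
  intro i _
  rw [show j + (i + 1) = j + 1 + i by ring]

lemma pr_succ_last (α : ℝ) (j m : ℕ) : pr α j (m + 1) = pr α j m * (1 + α / ((j + m : ℕ) : ℝ)) := by
  unfold pr; rw [prod_range_succ]

lemma pr_nonneg {α : ℝ} (hα : -1 ≤ α) {j : ℕ} (hj : 0 < j) (m : ℕ) : 0 ≤ pr α j m := by
  unfold pr
  apply prod_nonneg
  intro i _
  have h1 : (1 : ℝ) ≤ ((j + i : ℕ) : ℝ) := by exact_mod_cast (by omega : 1 ≤ j + i)
  have h2 : -1 ≤ α / ((j + i : ℕ) : ℝ) := by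
    rw [le_div_iff₀ (by linarith)]; nlinarith
  linarith

lemma pr_pos {α : ℝ} (hα : 0 ≤ α) (j m : ℕ) : 0 < pr α j m := by
  unfold pr
  apply prod_pos
  intro i _
  positivity

lemma one_le_pr {α : ℝ} (hα : 0 ≤ α) (j m : ℕ) : 1 ≤ pr α j m := by
  induction m with
  | zero => rw [pr_zero]
  | succ m ih =>
    rw [pr_succ_last]
    have : 0 ≤ α / ((j + m : ℕ) : ℝ) := by positivity
    nlinarith

lemma pr_one {j : ℕ} (hj : 0 < j) (m : ℕ) : pr 1 j m = ((j + m : ℕ) : ℝ) / j := by
  have hj' : (0 : ℝ) < j := by exact_mod_cast hj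
  induction m with
  | zero => rw [pr_zero]; simp; field_simp
  | succ m ih =>
    rw [pr_succ_last, ih]
    have : (0 : ℝ) < ((j + m : ℕ) : ℝ) := by exact_mod_cast (by omega : 0 < j + m)
    push_cast at this ⊢
    field_simp
    ring

/-- supersolutions grow at most geometrically -/
lemma U_le_pr {Inv : St × C → Prop} (hI : Closed inh Inv) {F : St × C → ℝ} {lam : ℝ}
    (hlam : -1 ≤ lam) (hF : ∀ y, Inv y → gen inh F y ≤ lam * F y) (m : ℕ) :
    ∀ {j : ℕ} {x : St × C}, Inv x → 0 < j → x.1.n ≤ j →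
    U inh m j F x ≤ pr lam j m * F x := by
  induction m with
  | zero => intro j x _ _ _; simp [U_zero, pr_zero]
  | succ m ih =>
    intro j x hx hj hn
    have h1 : U inh (m + 1) j F x ≤ Aop inh j (fun y => pr lam (j + 1) m * F y) x :=
      Aop_mono hI hx hj hn fun y hy hyn => ih hy (by omega) (by omega)
    refine h1.trans ?_
    rw [Aop_smul, pr_succ]
    have h2 : Aop inh j F x ≤ (1 + lam / j) * F x := by
      unfold Aop
      have := mul_le_mul_of_nonneg_left (hF x hx) (by positivity : (0 : ℝ) ≤ 1 / (j : ℝ))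
      calc F x + 1 / (j : ℝ) * gen inh F x ≤ F x + 1 / (j : ℝ) * (lam * F x) := by linarith
        _ = _ := by ring
    calc pr lam (j + 1) m * Aop inh j F x ≤ pr lam (j + 1) m * ((1 + lam / j) * F x) :=
          mul_le_mul_of_nonneg_left h2 (pr_nonneg hlam (by omega) m)
      _ = _ := by ring

/-- subsolutions grow at least geometrically -/
lemma pr_le_U {Inv : St × C → Prop} (hI : Closed inh Inv) {F : St × C → ℝ} {lam : ℝ}
    (hlam : -1 ≤ lam) (hF : ∀ y, Inv y → lam * F y ≤ gen inh F y) (m : ℕ) :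
    ∀ {j : ℕ} {x : St × C}, Inv x → 0 < j → x.1.n ≤ j →
    pr lam j m * F x ≤ U inh m j F x := by
  induction m with
  | zero => intro j x _ _ _; simp [U_zero, pr_zero]
  | succ m ih =>
    intro j x hx hj hn
    have h1 : Aop inh j (fun y => pr lam (j + 1) m * F y) x ≤ U inh (m + 1) j F x :=
      Aop_mono hI hx hj hn fun y hy hyn => ih hy (by omega) (by omega)
    refine le_trans ?_ h1
    rw [Aop_smul, pr_succ]
    have h2 : (1 + lam / j) * F x ≤ Aop inh j F x := by
      unfold Aop
      have := mul_le_mul_of_nonneg_left (hF x hx) (by positivity : (0 : ℝ) ≤ 1 / (j : ℝ))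
      calc (1 + lam / j) * F x = F x + 1 / (j : ℝ) * (lam * F x) := by ring
        _ ≤ _ := by linarith
    calc (1 + lam / j) * pr lam (j + 1) m * F x = pr lam (j + 1) m * ((1 + lam / j) * F x) := by
          ring
      _ ≤ _ := mul_le_mul_of_nonneg_left h2 (pr_nonneg hlam (by omega) m)

end Op

end FT
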