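import Pool.Agent.FT.Closure

/-! # Module Prod (friend tree, MP_5ccad8_pr) -/

open Finset

namespace FT

/-! ### restrictions along a cut -/

lemma prod_aux_res_h {S : St} (hS : Full S) {R : Finset W} {v : W} (hv : v ∈ S.V) (hR : v ∈ R) :
    (S.res R).h v = (S.nb v \ R).card := by
  have h0 : S.s v = S.deg v := by
    have := St.deg_add_h hv; rw [hS v hv] at this; omega
  unfold St.h
  rw [S.res_s hv hR, h0]
  unfold St.deg
  rw [S.res_nb]
  have := Finset.card_sdiff_add_card_inter (S.nb v) R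
  omega

lemma prod_aux_res_κ {S : St} {R : Finset W} {v : W} :
    S.κ v = (S.res R).κ v + ∑ w ∈ S.nb v \ R, 1 / S.d w := by
  unfold St.κ
  rw [S.res_nb]
  have h1 : ∑ w ∈ S.nb v ∩ R, 1 / (S.res R).d w = ∑ w ∈ S.nb v ∩ R, 1 / S.d w := by
    apply sum_congr rfl
    intro w hw
    rw [mem_inter] at hw
    rw [S.res_d (S.mem_nb.1 hw.1).1 hw.2]
  rw [h1, Finset.sum_inter_add_sum_sdiff]

lemma prod_aux_cross {S : St} (hS : Full S) {R : Finset W} {v : W} (hv : v ∈ S.V) (hR : v ∈ R) :
    0 ≤ S.κ v - (S.res R).κ v ∧ S.κ v - (S.res R).κ v ≤ ((S.res R).h v : ℝ) / 2 := by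
  have e : S.κ v - (S.res R).κ v = ∑ w ∈ S.nb v \ R, 1 / S.d w := by
    rw [prod_aux_res_κ (S := S) (R := R) (v := v)]; ring
  rw [e, prod_aux_res_h hS hv hR]
  constructor
  · exact sum_nonneg fun w _ => by have := S.d_nonneg w; positivity
  · calc ∑ w ∈ S.nb v \ R, 1 / S.d w ≤ ∑ w ∈ S.nb v \ R, (1 / 2 : ℝ) := by
          apply sum_le_sum
          intro w hw
          exact one_div_le_one_div_of_le two_pos
            (St.two_le_d (S.mem_nb.1 (mem_sdiff.1 hw).1).1)
      _ = ((S.nb v \ R).card : ℝ) / 2 := by rw [sum_const, nsmul_eq_mul]; ring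

/-- the cut condition -/
structure prod_aux_Cut (S : St) (R : Finset W) (u w : W) : Prop where
  full : Full S
  sub : R ⊆ S.V
  hu : u ∈ R
  hw : w ∈ S.V \ R
  cut : ∀ a ∈ R, ∀ b ∈ S.V \ R, adj a b → a = u ∧ b = w

lemma prod_aux_Cut.symm {S : St} {R : Finset W} {u w : W} (h : prod_aux_Cut S R u w) :
    prod_aux_Cut S (S.V \ R) w u where
  full := h.full
  sub := sdiff_subset
  hu := h.hw
  hw := by rw [Finset.sdiff_sdiff_eq_self h.sub]; exact h.hu
  cut := fun a ha b hb hab => by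
    rw [Finset.sdiff_sdiff_eq_self h.sub] at hb
    exact (h.cut b hb a ha (adj_symm hab)).symm

lemma prod_aux_size {S : St} {R : Finset W} {u w : W} (h : prod_aux_Cut S R u w) :
    (S.res R).size ≤ S.n := by
  have hVR : S.V ∩ R = R := inter_eq_right.2 h.sub
  have hh : ∀ v ∈ R, (S.res R).h v = if v = u then (S.nb v \ R).card else 0 := by
    intro v hv
    rw [prod_aux_res_h h.full (h.sub hv) hv]
    split_ifs with e
    · rfl
    · rw [card_eq_zero, eq_empty_iff_forall_notMem]
      intro b hb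
      rw [mem_sdiff, St.mem_nb] at hb
      exact e (h.cut v hv b (mem_sdiff.2 ⟨hb.1.1, hb.2⟩) hb.1.2).1
  have hu1 : (S.nb u \ R).card ≤ 1 := by
    rw [card_le_one]
    intro a ha b hb
    rw [mem_sdiff, St.mem_nb] at ha hb
    rw [(h.cut u h.hu a (mem_sdiff.2 ⟨ha.1.1, ha.2⟩) ha.1.2).2,
      (h.cut u h.hu b (mem_sdiff.2 ⟨hb.1.1, hb.2⟩) hb.1.2).2]
  unfold St.size St.n
  rw [St.res_V, hVR, ← sum_sdiff h.sub, sum_add_distrib]
  have e1 : ∑ v ∈ R, ((S.res R).L v + 1) = ∑ v ∈ R, (S.L v + 1) := by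
    apply sum_congr rfl
    intro v hv
    rw [S.res_L (h.sub hv) hv]
  have e2 : ∑ v ∈ R, (S.res R).h v ≤ 1 := by
    rw [sum_congr rfl hh, sum_ite_eq' R u, if_pos h.hu]
    exact hu1
  have e3 : 1 ≤ ∑ v ∈ S.V \ R, (S.L v + 1) :=
    le_trans (Nat.le_add_left 1 (S.L w)) (single_le_sum (f := fun v => S.L v + 1)
      (fun v _ => Nat.zero_le _) h.hw)
  omega

/-! ### the cut condition along the moves -/

lemma prod_aux_full_arr {S : St} (hS : Full S) (v : W) : Full (S.arr v) := by
  intro x hx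
  rw [St.arr_h]
  exact hS x (by simpa using hx)

lemma prod_aux_full_bir {S : St} (hS : Full S) {v : W} (hv : v ∈ S.V) (hL : 0 < S.L v) :
    Full (S.bir v) := by
  intro x hx
  rw [St.bir_V hv hL, mem_insert] at hx
  rcases hx with rfl | hx
  · exact St.bir_h_new hv hL
  · rw [St.bir_h_mem hv hL hx]; exact hS x hx

lemma prod_aux_Cut.arr {S : St} {R : Finset W} {u w : W} (h : prod_aux_Cut S R u w) (v : W) :
    prod_aux_Cut (S.arr v) R u w where
  full := prod_aux_full_arr h.full v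
  sub := by rw [St.arr_V]; exact h.sub
  hu := h.hu
  hw := by rw [St.arr_V]; exact h.hw
  cut := by rw [St.arr_V]; exact h.cut

lemma prod_aux_bir_sdiff {S : St} {R : Finset W} {v : W} (hv : v ∈ S.V) (hL : 0 < S.L v) :
    (S.bir v).V \ insert (S.new v) R = S.V \ R := by
  rw [St.bir_V hv hL]
  ext b
  simp only [mem_sdiff, mem_insert, not_or]
  constructor
  · rintro ⟨h1, h2, h3⟩
    exact ⟨h1.resolve_left h2, h3⟩
  · rintro ⟨h1, h2⟩
    exact ⟨Or.inr h1, fun e => S.new_not_mem hv (e ▸ h1), h2⟩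

lemma prod_aux_Cut.bir {S : St} {R : Finset W} {u w : W} (h : prod_aux_Cut S R u w) {v : W}
    (hv : v ∈ R) (hL : 0 < S.L v) : prod_aux_Cut (S.bir v) (insert (S.new v) R) u w := by
  have hvV : v ∈ S.V := h.sub hv
  refine ⟨prod_aux_full_bir h.full hvV hL, ?_, mem_insert_of_mem h.hu, ?_, ?_⟩
  · rw [St.bir_V hvV hL]; exact insert_subset_insert _ h.sub
  · rw [prod_aux_bir_sdiff hvV hL]; exact h.hw
  · rw [prod_aux_bir_sdiff hvV hL]
    intro a ha b hb hab
    rw [mem_insert] at ha
    rcases ha with rfl | ha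
    · exfalso
      rw [mem_sdiff] at hb
      have hbv : b ≠ v := by rintro rfl; exact hb.2 hv
      exact S.not_adj_new hvV hb.1 hbv (adj_symm hab)
    · exact h.cut a ha b hb hab

/-! ### one side of the cut -/

lemma prod_aux_side {S : St} {R : Finset W} (hS : Full S) (hR : R ⊆ S.V) (A : Finset W)
    (G : St × Finset W → ℝ) :
    ∑ v ∈ R, (((S.L v : ℝ) + S.κ v) * (G ((S.res R).arr v, A) - G (S.res R, A))
      + ((S.L v : ℝ) / S.d v) * (G ((S.res R).bir v, inhA S v A) - G (S.res R, A)))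
    ≤ gen inhA G (S.res R, A) + adv G (S.res R, A) := by
  unfold gen adv
  have hVR : S.V ∩ R = R := inter_eq_right.2 hR
  simp only [St.res_V]
  rw [hVR, ← sum_add_distrib]
  apply sum_le_sum
  intro v hv
  have hvV := hR hv
  have hc := prod_aux_cross hS hvV hv
  have hn : (S.res R).new v = S.new v := S.res_new hvV hv
  have hi : inhA (S.res R) v A = inhA S v A := by
    simp only [inhA, inhT, hn]
  rw [S.res_L hvV hv, S.res_d hvV hv, hi]
  have h1 : (S.κ v - (S.res R).κ v) * (G ((S.res R).arr v, A) - G (S.res R, A))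
      ≤ ((S.res R).h v : ℝ) / 2 * max (G ((S.res R).arr v, A) - G (S.res R, A)) 0 :=
    calc (S.κ v - (S.res R).κ v) * (G ((S.res R).arr v, A) - G (S.res R, A))
        ≤ (S.κ v - (S.res R).κ v) * max (G ((S.res R).arr v, A) - G (S.res R, A)) 0 :=
          mul_le_mul_of_nonneg_left (le_max_left _ _) hc.1
      _ ≤ _ := mul_le_mul_of_nonneg_right hc.2 (le_max_right _ _)
  linarith

/-- the product functional -/
noncomputable def prod_aux_F : St × (Finset W × Finset W) → ℝ :=
  fun x => card (x.1, x.2.1) * card (x.1, x.2.2)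

lemma prod_aux_inhA_sub {S : St} {R A : Finset W} {v : W} (hA : A ⊆ R) :
    inhA S v A ⊆ insert (S.new v) R := by
  simp only [inhA, inhT]
  split_ifs
  · exact insert_subset_insert _ hA
  · exact hA.trans (subset_insert _ _)

lemma prod_aux_inhA_not {S : St} {A : Finset W} {v : W} (hv : v ∉ A) : inhA S v A = A := by
  simp [inhA, inhT, hv]

theorem prod_aux_main (m : ℕ) : ∀ (j : ℕ) (S : St) (R A B : Finset W) (u w : W),
    prod_aux_Cut S R u w → A ⊆ R → B ⊆ S.V \ R → S.n ≤ j →
    U inhAB m j prod_aux_F (S, (A, B))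
      ≤ Gh m j (S.res R, A) * Gh m j (S.res (S.V \ R), B) := by
  induction m with
  | zero => intro j S R A B u w h hA hB hn; exact le_of_eq rfl
  | succ m ih =>
    intro j S R A B u w h hA hB hn
    have hn1 : 1 ≤ S.n := le_trans (Nat.le_add_left 1 (S.L u))
      (single_le_sum (f := fun v => S.L v + 1) (fun v _ => Nat.zero_le _) (h.sub h.hu))
    have hj : 0 < j := by omega
    have hjR : (0 : ℝ) < j := by exact_mod_cast hj
    have hs1 : (S.res R).size ≤ S.n := prod_aux_size h
    have hs2 : (S.res (S.V \ R)).size ≤ S.n := prod_aux_size h.symm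
    have hx1 : Sub (S.res R, A) := by
      show A ⊆ S.V ∩ R
      exact subset_inter (hA.trans h.sub) hA
    have hx2 : Sub (S.res (S.V \ R), B) := by
      show B ⊆ S.V ∩ (S.V \ R)
      exact subset_inter (hB.trans sdiff_subset) hB
    have hN1 := Gh_step m hx1 hj (by exact hs1.trans hn)
    have hN2 := Gh_step m hx2 hj (by exact hs2.trans hn)
    have hG1 := Gh_nonneg m (j := j + 1) hx1 (by omega) (by show (S.res R).size ≤ j + 1; omega)
    have hG2 := Gh_nonneg m (j := j + 1) hx2 (by omega)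
      (by show (S.res (S.V \ R)).size ≤ j + 1; omega)
    have hA1 := prod_aux_side h.full h.sub A (Gh m (j + 1))
    have hA2 := prod_aux_side h.full (R := S.V \ R) sdiff_subset B (Gh m (j + 1))
    have e1 : Gh (m + 1) j (S.res R, A) = Gh m (j + 1) (S.res R, A)
        + (1 / (j : ℝ)) * (gen inhA (Gh m (j + 1)) (S.res R, A)
          + adv (Gh m (j + 1)) (S.res R, A)) := rfl
    have e2 : Gh (m + 1) j (S.res (S.V \ R), B) = Gh m (j + 1) (S.res (S.V \ R), B)
        + (1 / (j : ℝ)) * (gen inhA (Gh m (j + 1)) (S.res (S.V \ R), B)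
          + adv (Gh m (j + 1)) (S.res (S.V \ R), B)) := rfl
    rw [U_succ, Aop_eq, e1, e2]
    have h0 := ih (j + 1) S R A B u w h hA hB (by omega)
    have ha : ∀ v ∈ R, U inhAB m (j + 1) prod_aux_F (S.arr v, (A, B))
        ≤ Gh m (j + 1) ((S.res R).arr v, A) * Gh m (j + 1) (S.res (S.V \ R), B) := by
      intro v hv
      have := ih (j + 1) (S.arr v) R A B u w (h.arr v) hA (by rw [St.arr_V]; exact hB)
        (by rw [St.arr_n (h.sub hv)]; omega)
      rwa [St.arr_V, S.arr_res_mem hv, S.arr_res_not_mem (by simp [hv])] at this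
    have ha' : ∀ v ∈ S.V \ R, U inhAB m (j + 1) prod_aux_F (S.arr v, (A, B))
        ≤ Gh m (j + 1) (S.res R, A) * Gh m (j + 1) ((S.res (S.V \ R)).arr v, B) := by
      intro v hv
      have hv' := mem_sdiff.1 hv
      have := ih (j + 1) (S.arr v) R A B u w (h.arr v) hA (by rw [St.arr_V]; exact hB)
        (by rw [St.arr_n hv'.1]; omega)
      rwa [St.arr_V, S.arr_res_mem hv, S.arr_res_not_mem hv'.2] at this
    have hb : ∀ v ∈ R, 0 < S.L v → U inhAB m (j + 1) prod_aux_F (S.bir v, inhAB S v (A, B))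
        ≤ Gh m (j + 1) ((S.res R).bir v, inhA S v A) * Gh m (j + 1) (S.res (S.V \ R), B) := by
      intro v hv hL
      have hvV := h.sub hv
      have hvB : v ∉ B := fun hb => (mem_sdiff.1 (hB hb)).2 hv
      have := ih (j + 1) (S.bir v) (insert (S.new v) R) (inhA S v A) B u w (h.bir hv hL)
        (prod_aux_inhA_sub hA) (by rw [prod_aux_bir_sdiff hvV hL]; exact hB)
        (by rw [St.bir_n hvV hL]; omega)
      rw [prod_aux_bir_sdiff hvV hL, S.bir_res_mem hvV hL hv,
        S.bir_res_not_mem hvV (by simp [hv]) sdiff_subset] at this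
      have e : inhAB S v (A, B) = (inhA S v A, B) := by
        simp only [inhAB, prod_aux_inhA_not hvB]
      rw [e]; exact this
    have hb' : ∀ v ∈ S.V \ R, 0 < S.L v →
        U inhAB m (j + 1) prod_aux_F (S.bir v, inhAB S v (A, B))
        ≤ Gh m (j + 1) (S.res R, A) * Gh m (j + 1) ((S.res (S.V \ R)).bir v, inhA S v B) := by
      intro v hv hL
      have hv' := mem_sdiff.1 hv
      have hvA : v ∉ A := fun hb => hv'.2 (hA hb)
      have hc := (h.symm.bir hv hL).symm
      have hR : (S.bir v).V \ insert (S.new v) (S.V \ R) = R := by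
        rw [prod_aux_bir_sdiff hv'.1 hL, Finset.sdiff_sdiff_eq_self h.sub]
      rw [hR] at hc
      have hnR : S.new v ∉ R := fun hr => S.new_not_mem hv'.1 (h.sub hr)
      have hR' : (S.bir v).V \ R = insert (S.new v) (S.V \ R) := by
        rw [St.bir_V hv'.1 hL, insert_sdiff_of_notMem _ hnR]
      have := ih (j + 1) (S.bir v) R A (inhA S v B) u w hc hA
        (by rw [hR']; exact prod_aux_inhA_sub hB) (by rw [St.bir_n hv'.1 hL]; omega)
      rw [hR', S.bir_res_mem hv'.1 hL hv, S.bir_res_not_mem hv'.1 hv'.2 h.sub] at this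
      have e : inhAB S v (A, B) = (A, inhA S v B) := by
        simp only [inhAB, prod_aux_inhA_not hvA]
      rw [e]; exact this
    set G := Gh m (j + 1) with hGdef
    set G1 := G (S.res R, A) with hG1def
    set G2 := G (S.res (S.V \ R), B) with hG2def
    have hrate : (∑ v ∈ S.V, ((S.L v : ℝ) + S.κ v + S.L v / S.d v)) / j ≤ 1 := by
      rw [div_le_one hjR]
      exact S.total_rate.trans (by exact_mod_cast hn)
    have hsplit : ∀ f : W → ℝ, ∑ v ∈ S.V, f v = ∑ v ∈ R, f v + ∑ v ∈ S.V \ R, f v := by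
      intro f; rw [add_comm, sum_sdiff h.sub]
    have hS1 : ∑ v ∈ R, (((S.L v : ℝ) + S.κ v) / j * U inhAB m (j + 1) prod_aux_F (S.arr v, (A, B))
          + ((S.L v : ℝ) / S.d v) / j *
            U inhAB m (j + 1) prod_aux_F (S.bir v, inhAB S v (A, B)))
        ≤ G2 / j * ∑ v ∈ R, (((S.L v : ℝ) + S.κ v) * (G ((S.res R).arr v, A) - G1)
            + ((S.L v : ℝ) / S.d v) * (G ((S.res R).bir v, inhA S v A) - G1))
          + G1 * G2 / j * ∑ v ∈ R, ((S.L v : ℝ) + S.κ v + S.L v / S.d v) := by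
      rw [mul_sum, mul_sum, ← sum_add_distrib]
      apply sum_le_sum
      intro v hv
      have r1 := rate_arr_nonneg S v
      have r2 := rate_bir_nonneg S v
      have t1 := mul_le_mul_of_nonneg_left (ha v hv) (div_nonneg r1 hjR.le)
      have t2 : ((S.L v : ℝ) / S.d v) / j *
            U inhAB m (j + 1) prod_aux_F (S.bir v, inhAB S v (A, B)) ≤
          ((S.L v : ℝ) / S.d v) / j * (G ((S.res R).bir v, inhA S v A) * G2) := by
        by_cases hL : 0 < S.L v
        · exact mul_le_mul_of_nonneg_left (hb v hv hL) (div_nonneg r2 hjR.le)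
        · have h0 : S.L v = 0 := by omega
          simp [h0]
      refine (add_le_add t1 t2).trans (le_of_eq ?_)
      ring
    have hS2 : ∑ v ∈ S.V \ R, (((S.L v : ℝ) + S.κ v) / j *
            U inhAB m (j + 1) prod_aux_F (S.arr v, (A, B))
          + ((S.L v : ℝ) / S.d v) / j *
            U inhAB m (j + 1) prod_aux_F (S.bir v, inhAB S v (A, B)))
        ≤ G1 / j * ∑ v ∈ S.V \ R, (((S.L v : ℝ) + S.κ v) *
              (G ((S.res (S.V \ R)).arr v, B) - G2)
            + ((S.L v : ℝ) / S.d v) * (G ((S.res (S.V \ R)).bir v, inhA S v B) - G2))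
          + G1 * G2 / j * ∑ v ∈ S.V \ R, ((S.L v : ℝ) + S.κ v + S.L v / S.d v) := by
      rw [mul_sum, mul_sum, ← sum_add_distrib]
      apply sum_le_sum
      intro v hv
      have r1 := rate_arr_nonneg S v
      have r2 := rate_bir_nonneg S v
      have t1 := mul_le_mul_of_nonneg_left (ha' v hv) (div_nonneg r1 hjR.le)
      have t2 : ((S.L v : ℝ) / S.d v) / j *
            U inhAB m (j + 1) prod_aux_F (S.bir v, inhAB S v (A, B)) ≤
          ((S.L v : ℝ) / S.d v) / j * (G1 * G ((S.res (S.V \ R)).bir v, inhA S v B)) := by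
        by_cases hL : 0 < S.L v
        · exact mul_le_mul_of_nonneg_left (hb' v hv hL) (div_nonneg r2 hjR.le)
        · have h0 : S.L v = 0 := by omega
          simp [h0]
      refine (add_le_add t1 t2).trans (le_of_eq ?_)
      ring
    have hT := mul_le_mul_of_nonneg_left h0 (sub_nonneg.2 hrate)
    simp only
    rw [hsplit (fun v => ((S.L v : ℝ) + S.κ v) / j *
            U inhAB m (j + 1) prod_aux_F (S.arr v, (A, B))
          + ((S.L v : ℝ) / S.d v) / j *
            U inhAB m (j + 1) prod_aux_F (S.bir v, inhAB S v (A, B)))]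
    rw [hsplit (fun v => (S.L v : ℝ) + S.κ v + S.L v / S.d v)] at hT ⊢
    set N1 := gen inhA G (S.res R, A) + adv G (S.res R, A) with hN1def
    set N2 := gen inhA G (S.res (S.V \ R), B) + adv G (S.res (S.V \ R), B) with hN2def
    have q1 := mul_le_mul_of_nonneg_left hA1 (div_nonneg hG2 hjR.le)
    have q2 := mul_le_mul_of_nonneg_left hA2 (div_nonneg hG1 hjR.le)
    have q3 : 0 ≤ (1 / (j : ℝ)) * (1 / (j : ℝ)) * (N1 * N2) := by positivity
    have e3 : (G1 + 1 / (j : ℝ) * N1) * (G2 + 1 / (j : ℝ) * N2)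
      = G1 * G2 + G2 / j * N1 + G1 / j * N2 + (1 / (j : ℝ)) * (1 / (j : ℝ)) * (N1 * N2) := by ring
    rw [e3]
    refine (add_le_add hT (add_le_add hS1 hS2)).trans ?_
    set r1 := ∑ v ∈ R, ((S.L v : ℝ) + S.κ v + S.L v / S.d v)
    set r2 := ∑ v ∈ S.V \ R, ((S.L v : ℝ) + S.κ v + S.L v / S.d v)
    have e4 : (1 - (r1 + r2) / j) * (G1 * G2) + G1 * G2 / j * r1 + G1 * G2 / j * r2 = G1 * G2 := by
      ring
    linarith

theorem prod_cut (m j : ℕ) (S : St) (R A B : Finset W) (hS : Full S) (hR : R ⊆ S.V) (hA : A ⊆ R)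
    (hB : B ⊆ S.V \ R) (u w : W) (hu : u ∈ R) (hw : w ∈ S.V \ R)
    (hcut : ∀ a ∈ R, ∀ b ∈ S.V \ R, adj a b → a = u ∧ b = w) (hn : S.n ≤ j) :
    U inhAB m j (fun x => card (x.1, x.2.1) * card (x.1, x.2.2)) (S, (A, B))
      ≤ Gh m j (S.res R, A) * Gh m j (S.res (S.V \ R), B) :=
  prod_aux_main m j S R A B u w ⟨hS, hR, hu, hw, hcut⟩ hA hB hn

/-! ### bilinearity -/

lemma prod_aux_inhA_union (S : St) (v : W) (A A' : Finset W) :
    inhA S v (A ∪ A') = inhA S v A ∪ inhA S v A' := by
  by_cases h1 : v ∈ A <;> by_cases h2 : v ∈ A' <;>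
    simp [inhA, inhT, h1, h2, insert_union, union_insert]

lemma prod_aux_inhA_subset {S : St} {v : W} (hv : v ∈ S.V) (hL : 0 < S.L v) {A : Finset W}
    (hA : A ⊆ S.V) : inhA S v A ⊆ (S.bir v).V := by
  rw [St.bir_V hv hL]; exact prod_aux_inhA_sub hA

lemma prod_aux_inhA_disj {S : St} {v : W} (hv : v ∈ S.V) {A A' : Finset W}
    (hA : A ⊆ S.V) (hA' : A' ⊆ S.V) (hd : Disjoint A A') :
    Disjoint (inhA S v A) (inhA S v A') := by
  have n1 : S.new v ∉ A := fun h => S.new_not_mem hv (hA h)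
  have n2 : S.new v ∉ A' := fun h => S.new_not_mem hv (hA' h)
  by_cases h1 : v ∈ A
  · have h2 : v ∉ A' := fun h => (disjoint_left.1 hd) h1 h
    simp [inhA, inhT, h1, h2, hd, n2]
  · by_cases h2 : v ∈ A'
    · simp [inhA, inhT, h1, h2, hd, n1]
    · simp [inhA, inhT, h1, h2, hd]

/-- additive in the first label -/
def prod_aux_Add1 (F : St × (Finset W × Finset W) → ℝ) : Prop :=
  ∀ (S : St) (A A' B : Finset W), A ⊆ S.V → A' ⊆ S.V → Disjoint A A' →
    F (S, (A ∪ A', B)) = F (S, (A, B)) + F (S, (A', B))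

/-- additive in the second label -/
def prod_aux_Add2 (F : St × (Finset W × Finset W) → ℝ) : Prop :=
  ∀ (S : St) (A B B' : Finset W), B ⊆ S.V → B' ⊆ S.V → Disjoint B B' →
    F (S, (A, B ∪ B')) = F (S, (A, B)) + F (S, (A, B'))

lemma prod_aux_Add1.aop {F : St × (Finset W × Finset W) → ℝ} (hF : prod_aux_Add1 F) (j : ℕ) :
    prod_aux_Add1 (Aop inhAB j F) := by
  intro S A A' B hA hA' hd
  unfold Aop
  have h : gen inhAB F (S, (A ∪ A', B)) = gen inhAB F (S, (A, B)) + gen inhAB F (S, (A', B)) := by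
    unfold gen
    rw [← sum_add_distrib]
    apply sum_congr rfl
    intro v hv
    simp only
    rw [hF S A A' B hA hA' hd, hF (S.arr v) A A' B (by simpa using hA) (by simpa using hA') hd]
    by_cases hL : 0 < S.L v
    · have := hF (S.bir v) (inhA S v A) (inhA S v A') (inhA S v B)
        (prod_aux_inhA_subset hv hL hA) (prod_aux_inhA_subset hv hL hA')
        (prod_aux_inhA_disj hv hA hA' hd)
      simp only [inhAB]
      rw [prod_aux_inhA_union, this]
      ring
    · have h0 : S.L v = 0 := by omega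
      simp only [h0, Nat.cast_zero, zero_div, zero_mul, add_zero, zero_add]
      ring
  rw [h, hF S A A' B hA hA' hd]
  ring

lemma prod_aux_Add2.aop {F : St × (Finset W × Finset W) → ℝ} (hF : prod_aux_Add2 F) (j : ℕ) :
    prod_aux_Add2 (Aop inhAB j F) := by
  intro S A B B' hB hB' hd
  unfold Aop
  have h : gen inhAB F (S, (A, B ∪ B')) = gen inhAB F (S, (A, B)) + gen inhAB F (S, (A, B')) := by
    unfold gen
    rw [← sum_add_distrib]
    apply sum_congr rfl
    intro v hv
    simp only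
    rw [hF S A B B' hB hB' hd, hF (S.arr v) A B B' (by simpa using hB) (by simpa using hB') hd]
    by_cases hL : 0 < S.L v
    · have := hF (S.bir v) (inhA S v A) (inhA S v B) (inhA S v B')
        (prod_aux_inhA_subset hv hL hB) (prod_aux_inhA_subset hv hL hB')
        (prod_aux_inhA_disj hv hB hB' hd)
      simp only [inhAB]
      rw [prod_aux_inhA_union, this]
      ring
    · have h0 : S.L v = 0 := by omega
      simp only [h0, Nat.cast_zero, zero_div, zero_mul, add_zero, zero_add]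
      ring
  rw [h, hF S A B B' hB hB' hd]
  ring

lemma prod_aux_Add1.u {F : St × (Finset W × Finset W) → ℝ} (hF : prod_aux_Add1 F) (m : ℕ) :
    ∀ j, prod_aux_Add1 (U inhAB m j F) := by
  induction m with
  | zero => intro j; exact hF
  | succ m ih => intro j; rw [U_succ]; exact (ih (j + 1)).aop j

lemma prod_aux_Add2.u {F : St × (Finset W × Finset W) → ℝ} (hF : prod_aux_Add2 F) (m : ℕ) :
    ∀ j, prod_aux_Add2 (U inhAB m j F) := by
  induction m with
  | zero => intro j; exact hF
  | succ m ih => intro j; rw [U_succ]; exact (ih (j + 1)).aop j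

lemma prod_aux_F_add1 : prod_aux_Add1 prod_aux_F := by
  intro S A A' B _ _ hd
  simp only [prod_aux_F, card, card_union_of_disjoint hd]
  push_cast; ring

lemma prod_aux_F_add2 : prod_aux_Add2 prod_aux_F := by
  intro S A B B' _ _ hd
  simp only [prod_aux_F, card, card_union_of_disjoint hd]
  push_cast; ring

lemma prod_aux_Add1.sum {F : St × (Finset W × Finset W) → ℝ} (hF : prod_aux_Add1 F) (S : St)
    (B : Finset W) (A : Finset W) : A ⊆ S.V → F (S, (A, B)) = ∑ y ∈ A, F (S, ({y}, B)) := by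
  induction A using Finset.induction_on with
  | empty =>
    intro _
    have := hF S ∅ ∅ B (empty_subset _) (empty_subset _) (disjoint_empty_left _)
    rw [empty_union] at this
    rw [sum_empty]; linarith
  | insert a A ha ih =>
    intro hA
    rw [sum_insert ha, ← ih ((subset_insert _ _).trans hA), insert_eq]
    exact hF S {a} A B (singleton_subset_iff.2 (hA (mem_insert_self _ _)))
      ((subset_insert _ _).trans hA) (disjoint_singleton_left.2 ha)

lemma prod_aux_Add2.sum {F : St × (Finset W × Finset W) → ℝ} (hF : prod_aux_Add2 F) (S : St)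
    (A : Finset W) (B : Finset W) : B ⊆ S.V → F (S, (A, B)) = ∑ y ∈ B, F (S, (A, {y})) := by
  induction B using Finset.induction_on with
  | empty =>
    intro _
    have := hF S A ∅ ∅ (empty_subset _) (empty_subset _) (disjoint_empty_left _)
    rw [empty_union] at this
    rw [sum_empty]; linarith
  | insert a B ha ih =>
    intro hB
    rw [sum_insert ha, ← ih ((subset_insert _ _).trans hB), insert_eq]
    exact hF S A {a} B (singleton_subset_iff.2 (hB (mem_insert_self _ _)))
      ((subset_insert _ _).trans hB) (disjoint_singleton_left.2 ha)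

/-! ### separating two core vertices -/

lemma prod_aux_sep_suffix {S : St} (hS : Full S) {y y' : W} (hy : y ∈ S.V) (hy' : y' ∈ S.V)
    (h : ¬ y <:+ y') : ∃ (R : Finset W) (w : W), prod_aux_Cut S R y w ∧ y' ∈ S.V \ R := by
  classical
  have hyne : y ≠ [] := by rintro rfl; exact h (List.nil_suffix)
  have hR' : y' ∈ S.V \ S.V.filter (fun v => y <:+ v) := by simp [hy', h]
  refine ⟨S.V.filter (fun v => y <:+ v), if y.tail ∈ S.V then y.tail else y',
    ⟨hS, filter_subset _ _, by simp [hy], ?_, ?_⟩, hR'⟩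
  · split_ifs with ht
    · rw [mem_sdiff]
      refine ⟨ht, fun hm => ?_⟩
      have := (mem_filter.1 hm).2.length_le
      obtain ⟨i, l, rfl⟩ := List.exists_cons_of_ne_nil hyne
      simp at this
    · exact hR'
  · intro a ha b hb hab
    have ha2 := (mem_filter.1 ha).2
    rw [mem_sdiff] at hb
    have hb2 : ¬ y <:+ b := fun hh => hb.2 (mem_filter.2 ⟨hb.1, hh⟩)
    rcases adj_iff.1 hab with ⟨i, rfl⟩ | ⟨i, rfl⟩
    · rcases List.suffix_cons_iff.1 ha2 with h1 | h1
      · subst h1
        refine ⟨rfl, ?_⟩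
        simp [hb.1]
      · exact absurd h1 hb2
    · exact absurd (ha2.trans (List.suffix_cons _ _)) hb2

lemma prod_aux_sep {S : St} (hS : Full S) {y y' : W} (hy : y ∈ S.V) (hy' : y' ∈ S.V)
    (h : y ≠ y') : ∃ (R : Finset W) (u w : W), prod_aux_Cut S R u w ∧ y ∈ R ∧ y' ∈ S.V \ R := by
  by_cases h1 : y <:+ y'
  · have h2 : ¬ y' <:+ y := fun h2 => h (h1.eq_of_length (le_antisymm h1.length_le h2.length_le))
    obtain ⟨R, w, hc, hm⟩ := prod_aux_sep_suffix hS hy' hy h2
    refine ⟨S.V \ R, w, y', hc.symm, hm, ?_⟩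
    rw [Finset.sdiff_sdiff_eq_self hc.sub]
    exact hc.hu
  · obtain ⟨R, w, hc, hm⟩ := prod_aux_sep_suffix hS hy hy' h1
    exact ⟨R, y, w, hc, hc.hu, hm⟩

lemma prod_aux_single (m j : ℕ) (S : St) (y y' : W) (hS : Full S) (hy : y ∈ S.V)
    (hy' : y' ∈ S.V) (hne : y ≠ y') (hj : 0 < j) (hn : S.n ≤ j) :
    U inhAB m j prod_aux_F (S, ({y}, {y'})) ≤ 25600 * KK m j ^ 2 := by
  obtain ⟨R, u, w, hc, h1, h2⟩ := prod_aux_sep hS hy hy' hne
  have hx1 : Sub (S.res R, {y}) := by
    show {y} ⊆ S.V ∩ R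
    simp [hy, h1]
  have hx2 : Sub (S.res (S.V \ R), {y'}) := by
    show {y'} ⊆ S.V ∩ (S.V \ R)
    rw [singleton_subset_iff, mem_inter]; exact ⟨hy', h2⟩
  have hs1 : (S.res R).size ≤ j := (prod_aux_size hc).trans hn
  have hs2 : (S.res (S.V \ R)).size ≤ j := (prod_aux_size hc.symm).trans hn
  have k := prod_aux_main m j S R {y} {y'} u w hc (singleton_subset_iff.2 h1)
    (singleton_subset_iff.2 h2) hn
  have b1 := closure_bound m j hx1 hj hs1
  have b2 := closure_bound m j hx2 hj hs2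
  have c1 : card (S.res R, {y}) = 1 := by simp [card]
  have c2 : card (S.res (S.V \ R), {y'}) = 1 := by simp [card]
  rw [c1, mul_one] at b1
  rw [c2, mul_one] at b2
  have hK := one_le_KK m j
  have g2 := Gh_nonneg m hx2 hj hs2
  calc _ ≤ _ := k
    _ ≤ (160 * KK m j) * (160 * KK m j) := mul_le_mul b1 b2 g2 (by linarith)
    _ = _ := by ring

theorem prod_bound (m j : ℕ) (S : St) (A B : Finset W) (hS : Full S) (hA : A ⊆ S.V)
    (hB : B ⊆ S.V) (hAB : Disjoint A B) (hj : 0 < j) (hn : S.n ≤ j) :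
    U inhAB m j (fun x => card (x.1, x.2.1) * card (x.1, x.2.2)) (S, (A, B))
      ≤ 25600 * KK m j ^ 2 * (A.card * B.card) := by
  show U inhAB m j prod_aux_F (S, (A, B)) ≤ _
  rw [(prod_aux_F_add1.u m j).sum S B A hA]
  have h1 : ∀ y ∈ A, U inhAB m j prod_aux_F (S, ({y}, B)) ≤ 25600 * KK m j ^ 2 * B.card := by
    intro y hy
    rw [(prod_aux_F_add2.u m j).sum S {y} B hB]
    calc ∑ y' ∈ B, U inhAB m j prod_aux_F (S, ({y}, {y'}))
        ≤ ∑ y' ∈ B, 25600 * KK m j ^ 2 := by
          apply sum_le_sum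
          intro y' hy'
          exact prod_aux_single m j S y y' hS (hA hy) (hB hy')
            (fun e => disjoint_left.1 hAB hy (e ▸ hy')) hj hn
      _ = _ := by rw [sum_const, nsmul_eq_mul]; ring
  calc ∑ y ∈ A, U inhAB m j prod_aux_F (S, ({y}, B))
      ≤ ∑ y ∈ A, 25600 * KK m j ^ 2 * (B.card : ℝ) := sum_le_sum h1
    _ = _ := by rw [sum_const, nsmul_eq_mul]; ring

end FT
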