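import Pool.Agent.FT.Laplace

/-! # Module Rep (friend tree, MP_5ccad8_pr) -/

open Finset MeasureTheory Filter Topology

namespace FT

lemma rep_aux_xi_nonneg (i L s : ℕ) : 0 ≤ xi i L s := by
  unfold xi; split_ifs <;> positivity

lemma rep_aux_xi_le (i L s : ℕ) : xi i L s ≤ 1 := by
  unfold xi
  split_ifs
  · apply div_le_one_of_le₀
    · have : (0 : ℝ) ≤ s := Nat.cast_nonneg s
      linarith
    · positivity
  · exact zero_le_one

lemma rep_aux_Xi_nonneg (i : ℕ) (x : St × Finset W) : 0 ≤ Xi i x :=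
  sum_nonneg fun _ _ => rep_aux_xi_nonneg _ _ _

lemma rep_aux_Xi_le (i : ℕ) (x : St × Finset W) : Xi i x ≤ card x := by
  unfold Xi card
  calc ∑ y ∈ x.2, xi i (x.1.L y) (x.1.s y) ≤ ∑ y ∈ x.2, (1 : ℝ) :=
        sum_le_sum fun _ _ => rep_aux_xi_le _ _ _
    _ = (x.2.card : ℝ) := by simp

lemma rep_aux_dom_Xi (i : ℕ) : Dom Sub card (Xi i) :=
  ⟨1, zero_le_one, fun x _ => by
    rw [abs_of_nonneg (rep_aux_Xi_nonneg i x), one_mul]; exact rep_aux_Xi_le i x⟩

lemma rep_aux_dom_card : Dom Sub card card :=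
  ⟨1, zero_le_one, fun x _ => by
    have : 0 ≤ card x := by unfold card; positivity
    rw [abs_of_nonneg this, one_mul]⟩

lemma rep_aux_addit_card : Addit card := by
  intro S A B _ _ hd
  unfold card
  simp only [card_union_of_disjoint hd, Nat.cast_add]

lemma rep_aux_P_nonneg (θ : ℕ → Bool) {F : St × Finset W → ℝ} (hF : Dom Sub card F)
    (h0 : ∀ y, Sub y → 0 ≤ F y) {t : ℝ} (ht : 0 ≤ t) {x : St × Finset W} (hx : Sub x) :
    0 ≤ P (inhT θ) t F x := by
  have h1 : Dom Sub card (fun _ => (0 : ℝ)) :=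
    ⟨0, le_rfl, fun x _ => by simp⟩
  have h2 := P_mono (wt_card θ) h1 hF ht hx (fun y hy => h0 y hy)
  rwa [P_const ht] at h2

theorem nu_basic {μ : ℝ} (K : ℕ) (x) (hx : Sub x) : ContinuousOn (fun b => nu μ K b x) (Set.Ici 0) ∧
    ∀ b, 0 ≤ b → 0 ≤ nu μ K b x := by
  constructor
  · unfold nu
    apply ContinuousOn.mul
    · fun_prop
    · exact P_continuousOn (wt_card _) (rep_aux_dom_Xi _) hx
  · intro b hb
    unfold nu
    exact mul_nonneg (Real.exp_pos _).le
      (rep_aux_P_nonneg _ (rep_aux_dom_Xi _) (fun y _ => rep_aux_Xi_nonneg _ y) hb hx)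

lemma rep_aux_na_cont {μ T t : ℝ} (htT : T ≤ t) :
    ContinuousOn (fun b => na μ (t - b)) (Set.Icc 0 T) := by
  unfold na
  apply ContinuousOn.mul
  · fun_prop
  · apply mt_continuousOn.comp (by fun_prop)
    intro b hb
    simp only [Set.mem_Ici]
    linarith [hb.2]

/-- pointwise comparison of the cut term with its leading part -/
lemma rep_aux_cut {C : ℝ} (hC : 0 < C) (hnew : ∀ t : ℝ, 0 ≤ t → ∀ (S : St) (y : W), y ∈ S.V →
      0 < S.L y → |phit t (S.bir y, {S.new y}) - mt t| ≤ C * mt t / S.L y)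
    {K : ℕ} (hK : 0 < K) {s : ℝ} (hs : 0 ≤ s) {z : St × Finset W} (hz : Sub z) :
    |cut (fun L => decide (L ≤ K)) (phit s) z - mt s * Xi (K + 1) z|
      ≤ (C / K) * mt s * Xi (K + 1) z := by
  have hm : 0 ≤ mt s := zero_le_one.trans (one_le_mt hs)
  have hK' : (0 : ℝ) < K := by exact_mod_cast hK
  unfold cut Xi
  rw [mul_sum, mul_sum, ← sum_sub_distrib]
  refine (abs_sum_le_sum_abs _ _).trans (sum_le_sum fun v hv => ?_)
  have hvV := hz hv
  by_cases hL : z.1.L v ≤ K
  · have h1 : ¬ (K + 1 ≤ z.1.L v) := by omega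
    simp only [hL, decide_true, if_true, xi, h1, if_false, mul_zero, sub_zero, abs_zero, le_refl]
  · have h1 : K + 1 ≤ z.1.L v := by omega
    have h2 : (0 : ℝ) < z.1.L v := by exact_mod_cast (by omega : 0 < z.1.L v)
    have h3 : (K : ℝ) ≤ z.1.L v := by exact_mod_cast (by omega : K ≤ z.1.L v)
    have hd := St.d_pos hvV
    have hdd : (z.1.L v : ℝ) + z.1.s v = z.1.d v := rfl
    simp only [hL, decide_false, Bool.false_eq_true, if_false, xi, h1, if_true, hdd]
    rw [show (z.1.L v : ℝ) / z.1.d v * phit s (z.1.bir v, {z.1.new v})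
      - mt s * ((z.1.L v : ℝ) / z.1.d v)
      = ((z.1.L v : ℝ) / z.1.d v) * (phit s (z.1.bir v, {z.1.new v}) - mt s) by ring, abs_mul,
      abs_of_nonneg (by positivity : (0 : ℝ) ≤ (z.1.L v : ℝ) / z.1.d v)]
    have h4 := hnew s hs z.1 v hvV (by omega)
    have h5 : C * mt s / z.1.L v ≤ C * mt s / K :=
      div_le_div_of_nonneg_left (by positivity) hK' h3
    calc (z.1.L v : ℝ) / z.1.d v * |phit s (z.1.bir v, {z.1.new v}) - mt s|
        ≤ (z.1.L v : ℝ) / z.1.d v * (C * mt s / K) :=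
          mul_le_mul_of_nonneg_left (h4.trans h5) (by positivity)
      _ = C / K * mt s * ((z.1.L v : ℝ) / z.1.d v) := by ring

theorem rep {μ : ℝ} (hμ : Expo μ) : ∃ (K0 : ℕ) (C : ℝ), 0 < C ∧ ∀ K, K0 ≤ K → ∃ CK : ℝ, 0 < CK ∧
    ∀ T : ℝ, 0 < T → ∀ t : ℝ, T ≤ t → ∀ x, Sub x →
    |Real.exp (-(μ * t)) * phit t x - ∫ b in (0 : ℝ)..T, nu μ K b x * na μ (t - b)|
      ≤ (CK / T + C / K) * card x := by
  obtain ⟨C1, hC1, hle⟩ := phit_le
  obtain ⟨C2, hC2, hnew⟩ := phit_new
  obtain ⟨K1, C3, hC3, hcut⟩ := cut_mass hμ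
  obtain ⟨K2, halive⟩ := alive_small hμ
  obtain ⟨_, _, c0, C0, _, hC0, hexpo⟩ := hμ
  have hna : ∀ s : ℝ, 0 ≤ s → na μ s ≤ C0 := by
    intro s hs
    unfold na
    rw [Real.exp_neg, inv_mul_le_iff₀ (Real.exp_pos _), mul_comm]
    exact (hexpo s hs).2
  refine ⟨max (max K1 K2) 1, C2 * C0 * C3, by positivity, fun K hK => ?_⟩
  have hK1 : K1 ≤ K := by omega
  have hK2 : K2 ≤ K := by omega
  have hK0 : 0 < K := by omega
  have hK' : (0 : ℝ) < K := by exact_mod_cast hK0
  obtain ⟨C4, hC4, halive⟩ := halive K hK2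
  refine ⟨C1 * C0 * C4, by positivity, fun T hT t hTt x hx => ?_⟩
  have htT : 0 ≤ t - T := by linarith
  have hcard : 0 ≤ card x := by unfold card; positivity
  set θ : ℕ → Bool := fun L => decide (L ≤ K) with hθ
  have hW := wt_card θ
  have hWA := wt_card (fun _ => true)
  have hDomPh : ∀ s : ℝ, 0 ≤ s → Dom Sub card (phit s) := fun s hs =>
    Dom_P hWA rep_aux_dom_card hs
  have hph0 : ∀ s : ℝ, 0 ≤ s → ∀ y, Sub y → 0 ≤ phit s y := fun s hs y hy =>
    rep_aux_P_nonneg _ rep_aux_dom_card (fun z _ => by unfold card; positivity) hs hy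
  obtain ⟨hint, hduh⟩ := duhamel θ (F := phit (t - T))
    (addit_P _ rep_aux_addit_card rep_aux_dom_card htT) (hDomPh _ htT) hT.le hx
  have hsemi : ∀ b : ℝ, b ≤ T → ∀ y, Sub y → P inhA (T - b) (phit (t - T)) y = phit (t - b) y := by
    intro b hb y hy
    have := P_semigroup hWA rep_aux_dom_card (s := T - b) (t := t - T) (by linarith) htT hy
    rw [show T - b + (t - T) = t - b by ring] at this
    exact this.symm
  have hphT : P inhA T (phit (t - T)) x = phit t x := by
    have := hsemi 0 hT.le x hx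
    rwa [sub_zero, sub_zero] at this
  rw [hphT] at hduh
  -- the integrand
  have hcl := closed_sub θ
  have hinteq : ∀ b : ℝ, 0 ≤ b → b ≤ T →
      P (inhT θ) b (cut θ (P inhA (T - b) (phit (t - T)))) x
        = P (inhT θ) b (cut θ (phit (t - b))) x := by
    intro b hb hbT
    apply P_congr hcl hx
    intro y hy
    unfold cut
    apply sum_congr rfl
    intro v hv
    split_ifs with h
    · rfl
    · have hvV := hy hv
      have hL : 0 < y.1.L v := by
        simp only [θ, decide_eq_true_eq] at h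
        omega
      rw [hsemi b hbT]
      show ({y.1.new v} : Finset W) ⊆ (y.1.bir v).V
      rw [singleton_subset_iff]
      exact St.new_mem_bir hvV hL
  have hdomcut : ∀ s : ℝ, 0 ≤ s → Dom Sub card (cut θ (phit s)) := by
    intro s hs
    have hm : 0 ≤ mt s := zero_le_one.trans (one_le_mt hs)
    refine ⟨(C2 / K) * mt s + mt s, by positivity, fun z hz => ?_⟩
    have h1 := rep_aux_cut hC2 hnew hK0 hs hz
    have h2 := rep_aux_Xi_nonneg (K + 1) z
    have h3 := rep_aux_Xi_le (K + 1) z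
    have h4 : |cut θ (phit s) z| ≤ |cut θ (phit s) z - mt s * Xi (K + 1) z|
        + |mt s * Xi (K + 1) z| := by
      have := abs_add_le (cut θ (phit s) z - mt s * Xi (K + 1) z) (mt s * Xi (K + 1) z)
      rwa [sub_add_cancel] at this
    rw [abs_of_nonneg (mul_nonneg hm h2)] at h4
    calc |cut θ (phit s) z| ≤ C2 / K * mt s * Xi (K + 1) z + mt s * Xi (K + 1) z := by linarith
      _ = (C2 / K * mt s + mt s) * Xi (K + 1) z := by ring
      _ ≤ (C2 / K * mt s + mt s) * card z := mul_le_mul_of_nonneg_left h3 (by positivity)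
  -- comparison of the integrands
  have hcomp : ∀ b : ℝ, 0 ≤ b → b ≤ T →
      |Real.exp (-(μ * t)) * P (inhT θ) b (cut θ (phit (t - b))) x - nu μ K b x * na μ (t - b)|
        ≤ (C2 / K) * C0 * nu μ K b x := by
    intro b hb hbT
    have hs : 0 ≤ t - b := by linarith
    have hm : 0 ≤ mt (t - b) := zero_le_one.trans (one_le_mt hs)
    have hdX := rep_aux_dom_Xi (K + 1)
    have hdmX : Dom Sub card (fun z => mt (t - b) * Xi (K + 1) z) :=
      ⟨mt (t - b), hm, fun z _ => by
        rw [abs_of_nonneg (mul_nonneg hm (rep_aux_Xi_nonneg _ z))]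
        exact mul_le_mul_of_nonneg_left (rep_aux_Xi_le _ z) hm⟩
    have hdmX' : Dom Sub card (fun z => ((C2 / K) * mt (t - b)) * Xi (K + 1) z) :=
      ⟨(C2 / K) * mt (t - b), by positivity, fun z _ => by
        rw [abs_of_nonneg (mul_nonneg (by positivity) (rep_aux_Xi_nonneg _ z))]
        exact mul_le_mul_of_nonneg_left (rep_aux_Xi_le _ z) (by positivity)⟩
    have hPX := P_smul (inh := inhT θ) (x := x) (t := b) (F := Xi (K + 1)) (mt (t - b))
    have hPX' := P_smul (inh := inhT θ) (x := x) (t := b) (F := Xi (K + 1))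
      ((C2 / K) * mt (t - b))
    -- upper and lower bounds
    have hsum : Dom Sub card (fun z => mt (t - b) * Xi (K + 1) z
        + ((C2 / K) * mt (t - b)) * Xi (K + 1) z) := by
      refine ⟨mt (t - b) + (C2 / K) * mt (t - b), by positivity, fun z _ => ?_⟩
      have h0 := rep_aux_Xi_nonneg (K + 1) z
      rw [abs_of_nonneg (by positivity)]
      calc mt (t - b) * Xi (K + 1) z + ((C2 / K) * mt (t - b)) * Xi (K + 1) z
          = (mt (t - b) + (C2 / K) * mt (t - b)) * Xi (K + 1) z := by ring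
        _ ≤ _ := mul_le_mul_of_nonneg_left (rep_aux_Xi_le _ z) (by positivity)
    have hsum' : Dom Sub card (fun z => cut θ (phit (t - b)) z
        + ((C2 / K) * mt (t - b)) * Xi (K + 1) z) := by
      obtain ⟨c, hc, h⟩ := hdomcut (t - b) hs
      refine ⟨c + (C2 / K) * mt (t - b), by positivity, fun z hz => ?_⟩
      have h0 := rep_aux_Xi_nonneg (K + 1) z
      have h1 : |((C2 / K) * mt (t - b)) * Xi (K + 1) z| ≤ ((C2 / K) * mt (t - b)) * card z := by
        rw [abs_of_nonneg (by positivity)]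
        exact mul_le_mul_of_nonneg_left (rep_aux_Xi_le _ z) (by positivity)
      calc |cut θ (phit (t - b)) z + ((C2 / K) * mt (t - b)) * Xi (K + 1) z|
          ≤ |cut θ (phit (t - b)) z| + |((C2 / K) * mt (t - b)) * Xi (K + 1) z| :=
            abs_add_le _ _
        _ ≤ c * card z + ((C2 / K) * mt (t - b)) * card z := add_le_add (h z hz) h1
        _ = (c + (C2 / K) * mt (t - b)) * card z := by ring
    have hup : P (inhT θ) b (cut θ (phit (t - b))) x
        ≤ mt (t - b) * P (inhT θ) b (Xi (K + 1)) x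
          + ((C2 / K) * mt (t - b)) * P (inhT θ) b (Xi (K + 1)) x := by
      rw [← hPX, ← hPX', ← P_add_fun hW hdmX hdmX' hb hx]
      apply P_mono hW (hdomcut _ hs) hsum hb hx
      intro y hy
      have := (abs_le.1 (rep_aux_cut hC2 hnew hK0 hs hy)).2
      linarith
    have hlo : mt (t - b) * P (inhT θ) b (Xi (K + 1)) x
        ≤ P (inhT θ) b (cut θ (phit (t - b))) x
          + ((C2 / K) * mt (t - b)) * P (inhT θ) b (Xi (K + 1)) x := by
      rw [← hPX, ← hPX', ← P_add_fun hW (hdomcut _ hs) hdmX' hb hx]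
      apply P_mono hW hdmX hsum' hb hx
      intro y hy
      have := (abs_le.1 (rep_aux_cut hC2 hnew hK0 hs hy)).1
      linarith
    have hX0 : 0 ≤ P (inhT θ) b (Xi (K + 1)) x :=
      rep_aux_P_nonneg _ hdX (fun y _ => rep_aux_Xi_nonneg _ y) hb hx
    have habs : |P (inhT θ) b (cut θ (phit (t - b))) x - mt (t - b) * P (inhT θ) b (Xi (K + 1)) x|
        ≤ (C2 / K) * mt (t - b) * P (inhT θ) b (Xi (K + 1)) x := by
      rw [abs_le]; constructor <;> linarith
    have hnn : nu μ K b x * na μ (t - b)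
        = Real.exp (-(μ * t)) * (mt (t - b) * P (inhT θ) b (Xi (K + 1)) x) := by
      unfold nu na
      rw [show -(μ * t) = -(μ * b) + -(μ * (t - b)) by ring, Real.exp_add]
      ring
    rw [hnn, ← mul_sub, abs_mul, abs_of_pos (Real.exp_pos _)]
    have h5 := hna (t - b) hs
    have h6 : 0 ≤ nu μ K b x := mul_nonneg (Real.exp_pos _).le hX0
    calc Real.exp (-(μ * t)) * |P (inhT θ) b (cut θ (phit (t - b))) x
          - mt (t - b) * P (inhT θ) b (Xi (K + 1)) x|
        ≤ Real.exp (-(μ * t)) * ((C2 / K) * mt (t - b) * P (inhT θ) b (Xi (K + 1)) x) :=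
          mul_le_mul_of_nonneg_left habs (Real.exp_pos _).le
      _ = (C2 / K) * (nu μ K b x * na μ (t - b)) := by rw [hnn]; ring
      _ ≤ (C2 / K) * (nu μ K b x * C0) := by
          apply mul_le_mul_of_nonneg_left _ (by positivity)
          exact mul_le_mul_of_nonneg_left h5 h6
      _ = (C2 / K) * C0 * nu μ K b x := by ring
  -- integrals
  have hnuC : ContinuousOn (fun b => nu μ K b x) (Set.Icc 0 T) :=
    (nu_basic K x hx).1.mono fun b hb => hb.1
  have hintnu : IntervalIntegrable (fun b => nu μ K b x) volume 0 T := by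
    apply ContinuousOn.intervalIntegrable
    rwa [Set.uIcc_of_le hT.le]
  have hintg : IntervalIntegrable (fun b => nu μ K b x * na μ (t - b)) volume 0 T := by
    apply ContinuousOn.intervalIntegrable
    rw [Set.uIcc_of_le hT.le]
    exact hnuC.mul (rep_aux_na_cont hTt)
  have hdiff : |∫ b in (0 : ℝ)..T, (Real.exp (-(μ * t))
        * P (inhT θ) b (cut θ (P inhA (T - b) (phit (t - T)))) x - nu μ K b x * na μ (t - b))|
      ≤ ∫ b in (0 : ℝ)..T, (C2 / K) * C0 * nu μ K b x := by
    rw [← Real.norm_eq_abs]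
    refine intervalIntegral.norm_integral_le_of_norm_le hT.le ?_ (hintnu.const_mul _)
    refine Filter.Eventually.of_forall fun b hb => ?_
    rw [Real.norm_eq_abs, hinteq b hb.1.le hb.2]
    exact hcomp b hb.1.le hb.2
  rw [intervalIntegral.integral_sub (hint.const_mul _) hintg,
    intervalIntegral.integral_const_mul, intervalIntegral.integral_const_mul] at hdiff
  have hmass : ∫ b in (0 : ℝ)..T, nu μ K b x ≤ C3 * card x := hcut K hK1 T hT.le x hx
  -- the first term
  have hfirst : 0 ≤ Real.exp (-(μ * t)) * P (inhT θ) T (phit (t - T)) x :=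
    mul_nonneg (Real.exp_pos _).le (rep_aux_P_nonneg _ (hDomPh _ htT) (hph0 _ htT) hT.le hx)
  have hm : 0 ≤ mt (t - T) := zero_le_one.trans (one_le_mt htT)
  have hfirst' : Real.exp (-(μ * t)) * P (inhT θ) T (phit (t - T)) x
      ≤ C1 * C0 * C4 / T * card x := by
    have h1 : P (inhT θ) T (phit (t - T)) x ≤ (C1 * mt (t - T)) * P (inhT θ) T card x := by
      rw [← P_smul]
      apply P_mono hW (hDomPh _ htT) _ hT.le hx
      · intro y hy
        calc phit (t - T) y ≤ C1 * card y * mt (t - T) := hle _ htT y hy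
          _ = C1 * mt (t - T) * card y := by ring
      · exact ⟨C1 * mt (t - T), by positivity, fun z _ => by
          have : 0 ≤ card z := by unfold card; positivity
          rw [abs_of_nonneg (by positivity)]⟩
    have h2 := halive T hT x hx
    have h3 := hna (t - T) htT
    have h4 : 0 ≤ Real.exp (-(μ * T)) * P (inhT θ) T card x :=
      mul_nonneg (Real.exp_pos _).le (rep_aux_P_nonneg _ rep_aux_dom_card
        (fun z _ => by unfold card; positivity) hT.le hx)
    calc Real.exp (-(μ * t)) * P (inhT θ) T (phit (t - T)) x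
        ≤ Real.exp (-(μ * t)) * ((C1 * mt (t - T)) * P (inhT θ) T card x) :=
          mul_le_mul_of_nonneg_left h1 (Real.exp_pos _).le
      _ = C1 * (na μ (t - T) * (Real.exp (-(μ * T)) * P (inhT θ) T card x)) := by
          unfold na
          rw [show -(μ * t) = -(μ * (t - T)) + -(μ * T) by ring, Real.exp_add]
          ring
      _ ≤ C1 * (C0 * (C4 / T * card x)) := by
          apply mul_le_mul_of_nonneg_left _ hC1.le
          exact mul_le_mul h3 h2 h4 hC0.le
      _ = C1 * C0 * C4 / T * card x := by ring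
  have hsecond : (C2 / K) * C0 * ∫ b in (0 : ℝ)..T, nu μ K b x ≤ C2 * C0 * C3 / K * card x := by
    calc (C2 / K) * C0 * ∫ b in (0 : ℝ)..T, nu μ K b x ≤ (C2 / K) * C0 * (C3 * card x) :=
          mul_le_mul_of_nonneg_left hmass (by positivity)
      _ = C2 * C0 * C3 / K * card x := by ring
  rw [hduh, mul_add]
  set I1 := Real.exp (-(μ * t)) * P (inhT θ) T (phit (t - T)) x
  set I2 := Real.exp (-(μ * t)) *
    ∫ b in (0 : ℝ)..T, P (inhT θ) b (cut θ (P inhA (T - b) (phit (t - T)))) x
  set I3 := ∫ b in (0 : ℝ)..T, nu μ K b x * na μ (t - b)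
  have h7 : |I1 + I2 - I3| ≤ |I1| + |I2 - I3| := by
    have := abs_add_le I1 (I2 - I3)
    rwa [← add_sub_assoc] at this
  rw [abs_of_nonneg hfirst] at h7
  rw [add_mul]
  linarith

end FT
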