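import Pool.Agent.FT.Yule1

/-! # Module Semi1 (friend tree, MP_5ccad8_pr) -/

open Finset MeasureTheory Filter Topology

namespace FT

variable {C : Type*} {inh : St → W → C → C} {Inv : St × C → Prop} {w w' F G : St × C → ℝ}
  {x : St × C} {t s : ℝ}

lemma U_abs_le (hw : Wt inh Inv w) {c : ℝ} (hc : 0 ≤ c) (hF : ∀ x, Inv x → |F x| ≤ c * w x)
    (hx : Inv x) {j : ℕ} (hj : 0 < j) (hn : x.1.n ≤ j) (m : ℕ) :
    |U inh m j F x| ≤ c * (((j + m : ℕ) : ℝ) / j) * w x := by
  have h1 : U inh m j w x ≤ pr 1 j m * w x :=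
    U_le_pr hw.closed (by norm_num) (fun y hy => by rw [one_mul]; exact hw.gen_le y hy) m hx hj hn
  rw [pr_one hj] at h1
  have h2 : U inh m j F x ≤ U inh m j (fun y => c * w y) x :=
    U_mono hw.closed m hx hj hn fun y hy _ => (abs_le.1 (hF y hy)).2
  have h3 : U inh m j (fun y => (-c) * w y) x ≤ U inh m j F x :=
    U_mono hw.closed m hx hj hn fun y hy _ => by
      have := (abs_le.1 (hF y hy)).1
      linarith
  rw [U_smul] at h2 h3
  have h4 : c * U inh m j w x ≤ c * (((j + m : ℕ) : ℝ) / j * w x) :=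
    mul_le_mul_of_nonneg_left h1 hc
  rw [abs_le]
  constructor
  · linarith
  · linarith

/-- summability of the series defining `P` -/
lemma semi1_summable (hw : Wt inh Inv w) (hF : Dom Inv w F) (ht : 0 ≤ t) (hx : Inv x) {j : ℕ}
    (hj : 0 < j) (hn : x.1.n ≤ j) : Summable (fun m => yw t j m * U inh m j F x) := by
  obtain ⟨c, hc, hF⟩ := hF
  have hs := ((yw_hasSum_mean ht hj).mul_left (c / j * w x)).summable
  refine Summable.of_norm_bounded hs fun m => ?_
  rw [Real.norm_eq_abs, abs_mul, abs_of_nonneg (yw_nonneg ht j m)]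
  have h := mul_le_mul_of_nonneg_left (U_abs_le hw hc hF hx hj hn m) (yw_nonneg ht j m)
  refine h.trans (le_of_eq ?_)
  ring

lemma semi1_rec {j : ℕ} (hj : 0 < j) (m : ℕ) :
    (Nat.choose (j + m) (m + 1) : ℝ) * U inh (m + 1) j F x =
      (Nat.choose (j + m + 1) (m + 1) : ℝ) * U inh (m + 1) (j + 1) F x
        - (Nat.choose (j + m) m : ℝ) * U inh m (j + 1) F x := by
  have e1 : U inh (m + 1) j F x
      = U inh m (j + 1) F x + 1 / (j : ℝ) * gen inh (U inh m (j + 1) F) x := rfl
  have e2 : U inh (m + 1) (j + 1) F x = U inh m (j + 1) F x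
      + 1 / ((j + 1 + m : ℕ) : ℝ) * gen inh (U inh m (j + 1) F) x := by
    rw [U_succ_last, ← Aop_U]; rfl
  have p1 : (Nat.choose (j + m + 1) (m + 1) : ℝ)
      = (Nat.choose (j + m) m : ℝ) + (Nat.choose (j + m) (m + 1) : ℝ) := by
    rw [Nat.choose_succ_succ]; push_cast; ring
  have p2 : (Nat.choose (j + m) (m + 1) : ℝ) * ((j : ℝ) + m + 1)
      = (Nat.choose (j + m + 1) (m + 1) : ℝ) * j := by
    have := Nat.choose_mul_succ_eq (j + m) (m + 1)
    rw [show j + m + 1 - (m + 1) = j by omega] at this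
    exact_mod_cast this
  have hj' : (j : ℝ) ≠ 0 := by positivity
  have hj2 : ((j + 1 + m : ℕ) : ℝ) ≠ 0 := by positivity
  rw [e1, e2]
  generalize gen inh (U inh m (j + 1) F) x = g
  generalize U inh m (j + 1) F x = a
  have p3 : (Nat.choose (j + m) (m + 1) : ℝ) * (1 / (j : ℝ))
      = (Nat.choose (j + m + 1) (m + 1) : ℝ) * (1 / ((j + 1 + m : ℕ) : ℝ)) := by
    rw [mul_one_div, mul_one_div, div_eq_div_iff hj' hj2]
    push_cast
    linarith
  have : (Nat.choose (j + m) (m + 1) : ℝ) * (a + 1 / (j : ℝ) * g)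
      = (Nat.choose (j + m) (m + 1) : ℝ) * a
        + ((Nat.choose (j + m) (m + 1) : ℝ) * (1 / (j : ℝ))) * g := by ring
  rw [this, p3, p1]
  ring

lemma semi1_step (hw : Wt inh Inv w) (hF : Dom Inv w F) (ht : 0 ≤ t) (hx : Inv x) {j : ℕ}
    (hj : 0 < j) (hn : x.1.n ≤ j) :
    ∑' m, yw t j m * U inh m j F x = ∑' m, yw t (j + 1) m * U inh m (j + 1) F x := by
  have hs1 := semi1_summable hw hF ht hx (j := j + 1) (by omega) (by omega)
  set f : ℕ → ℝ := fun m => yw t (j + 1) m * U inh m (j + 1) F x with hf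
  set z : ℝ := 1 - Real.exp (-t) with hz
  have hS := hs1.hasSum
  -- the shifted series
  have hshift : HasSum (fun m => if m = 0 then 0 else f (m - 1)) (∑' m, f m) := by
    rw [← hasSum_nat_add_iff' 1]
    simpa using hS
  have hsum : HasSum (fun m => Real.exp t * (f m - z * (if m = 0 then 0 else f (m - 1))))
      (Real.exp t * (∑' m, f m - z * ∑' m, f m)) :=
    (hS.sub (hshift.mul_left z)).mul_left _
  have hval : Real.exp t * (∑' m, f m - z * ∑' m, f m) = ∑' m, f m := by
    have : Real.exp t * Real.exp (-t) = 1 := by rw [← Real.exp_add]; simp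
    rw [hz]
    linear_combination (∑' m, f m) * this
  have hterm : (fun m => yw t j m * U inh m j F x)
      = fun m => Real.exp t * (f m - z * (if m = 0 then 0 else f (m - 1))) := by
    have he : Real.exp (-((j : ℝ) * t)) = Real.exp t * Real.exp (-(((j + 1 : ℕ) : ℝ) * t)) := by
      rw [← Real.exp_add]; congr 1; push_cast; ring
    funext m
    cases m with
    | zero =>
      simp only [hf, yw, U_zero, if_true, mul_zero, sub_zero, pow_zero, mul_one,
        Nat.choose_zero_right, Nat.cast_one, one_mul]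
      rw [he]; ring
    | succ m =>
      have hr := semi1_rec (inh := inh) (F := F) (x := x) hj m
      simp only [hf, yw, Nat.succ_ne_zero, if_false, Nat.add_sub_cancel]
      rw [show j + (m + 1) - 1 = j + m by omega, show j + 1 + (m + 1) - 1 = j + m + 1 by omega,
        show j + 1 + m - 1 = j + m by omega, he, ← hz]
      have e1 : (Nat.choose (j + m) (m + 1) : ℝ) * (Real.exp t * Real.exp (-(((j + 1 : ℕ) : ℝ) * t)))
          * z ^ (m + 1) * U inh (m + 1) j F x
          = (Real.exp t * Real.exp (-(((j + 1 : ℕ) : ℝ) * t))) * z ^ (m + 1)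
            * ((Nat.choose (j + m) (m + 1) : ℝ) * U inh (m + 1) j F x) := by ring
      rw [e1, hr]
      ring
  rw [hterm, hsum.tsum_eq, hval]

/-- the series defining `P` may be written with any starting population `j ≥ n` -/
lemma P_hasSum (hw : Wt inh Inv w) (hF : Dom Inv w F) (ht : 0 ≤ t) (hx : Inv x) {j : ℕ}
    (hj : 0 < j) (hn : x.1.n ≤ j) :
    HasSum (fun m => yw t j m * U inh m j F x) (P inh t F x) := by
  have key : ∀ k : ℕ, ∑' m, yw t (x.1.n + 1 + k) m * U inh m (x.1.n + 1 + k) F x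
      = P inh t F x := by
    intro k
    induction k with
    | zero => rfl
    | succ k ih =>
      rw [← ih, semi1_step hw hF ht hx (j := x.1.n + 1 + k) (by omega) (by omega)]
      rfl
  have h : ∑' m, yw t j m * U inh m j F x = P inh t F x := by
    rcases Nat.eq_or_lt_of_le hn with h | h
    · rw [semi1_step hw hF ht hx hj hn, ← h]
      exact key 0
    · obtain ⟨k, rfl⟩ : ∃ k, j = x.1.n + 1 + k := ⟨j - (x.1.n + 1), by omega⟩
      exact key k
  rw [← h]
  exact (semi1_summable hw hF ht hx hj hn).hasSum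

end FT
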