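import Pool.Agent.FT.Yule1

/-! # Module Yule2 (friend tree, MP_5ccad8_pr) -/

open Finset MeasureTheory Filter Topology

namespace FT

variable {t s T : ℝ} {j : ℕ}

lemma yw_CK (hs : 0 ≤ s) (ht : 0 ≤ t) (hj : 0 < j) (m : ℕ) :
    yw (s + t) j m = ∑ k ∈ range (m + 1), yw s j k * yw t (j + k) (m - k) := by
  have h1 : ∀ k ∈ range (m + 1), yw s j k * yw t (j + k) (m - k) =
      ((Nat.choose (j + m - 1) m : ℝ) * Real.exp (-((j : ℝ) * (s + t)))) *
        ((Real.exp (-t) * (1 - Real.exp (-s))) ^ k * (1 - Real.exp (-t)) ^ (m - k) *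
          (m.choose k : ℝ)) := by
    intro k hk
    have hk' : k ≤ m := by have := mem_range.1 hk; omega
    have hc : Nat.choose (j + k - 1) k * Nat.choose (j + m - 1) (m - k) =
        Nat.choose (j + m - 1) m * m.choose k := by
      have h2 := Nat.choose_mul (n := j + m - 1) (k := m) (s := m - k) (by omega)
      rw [Nat.choose_symm hk', show m - (m - k) = k by omega,
        show j + m - 1 - (m - k) = j + k - 1 by omega] at h2
      rw [h2, mul_comm]
    have hc' : (Nat.choose (j + k - 1) k : ℝ) * (Nat.choose (j + m - 1) (m - k) : ℝ) =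
        (Nat.choose (j + m - 1) m : ℝ) * (m.choose k : ℝ) := by exact_mod_cast hc
    unfold yw
    rw [show j + k + (m - k) - 1 = j + m - 1 by omega]
    have he : Real.exp (-((j : ℝ) * (s + t))) * Real.exp (-t) ^ k =
        Real.exp (-((j : ℝ) * s)) * Real.exp (-(((j + k : ℕ) : ℝ) * t)) := by
      rw [← Real.exp_nat_mul, ← Real.exp_add, ← Real.exp_add]
      congr 1
      push_cast
      ring
    calc (Nat.choose (j + k - 1) k : ℝ) * Real.exp (-((j : ℝ) * s)) * (1 - Real.exp (-s)) ^ k *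
          ((Nat.choose (j + m - 1) (m - k) : ℝ) * Real.exp (-(((j + k : ℕ) : ℝ) * t)) *
            (1 - Real.exp (-t)) ^ (m - k))
        = ((Nat.choose (j + k - 1) k : ℝ) * (Nat.choose (j + m - 1) (m - k) : ℝ)) *
          (Real.exp (-((j : ℝ) * s)) * Real.exp (-(((j + k : ℕ) : ℝ) * t))) *
          ((1 - Real.exp (-s)) ^ k * (1 - Real.exp (-t)) ^ (m - k)) := by ring
      _ = _ := by
          rw [hc', ← he, mul_pow]
          ring
  rw [sum_congr rfl h1, ← mul_sum, ← add_pow]
  unfold yw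
  congr 1
  congr 1
  rw [show -(s + t) = -t + -s by ring, Real.exp_add]
  ring

lemma yw2_deriv (t : ℝ) (j m : ℕ) : HasDerivAt (fun t => yw t j m)
    ((Nat.choose (j + m - 1) m : ℝ) * (-(j : ℝ) * Real.exp (-((j : ℝ) * t)) * (1 - Real.exp (-t)) ^ m +
      Real.exp (-((j : ℝ) * t)) * ((m : ℝ) * (1 - Real.exp (-t)) ^ (m - 1) * Real.exp (-t)))) t := by
  unfold yw
  have h1 : HasDerivAt (fun t : ℝ => Real.exp (-((j : ℝ) * t))) (Real.exp (-((j : ℝ) * t)) * (-(j : ℝ))) t := by
    have := (((hasDerivAt_id t).const_mul (j : ℝ)).neg).exp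
    simpa using this
  have h2 : HasDerivAt (fun t : ℝ => 1 - Real.exp (-t)) (Real.exp (-t)) t := by
    have := ((hasDerivAt_neg t).exp).const_sub 1
    simpa using this
  have h3 := ((h1.const_mul (Nat.choose (j + m - 1) m : ℝ)).mul (h2.pow m))
  refine h3.congr_deriv ?_
  simp only [Pi.pow_apply]
  ring

lemma yw2_forward (t : ℝ) (j m : ℕ) (hj : 0 < j) : HasDerivAt (fun t => yw t j (m + 1))
    (((j + m : ℕ) : ℝ) * yw t j m - ((j + m + 1 : ℕ) : ℝ) * yw t j (m + 1)) t := by
  refine (yw2_deriv t j (m + 1)).congr_deriv ?_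
  have hc : (j + m) * Nat.choose (j + m - 1) m = (m + 1) * Nat.choose (j + m) (m + 1) := by
    have h := Nat.add_one_mul_choose_eq (j + m - 1) m
    rw [show j + m - 1 + 1 = j + m by omega] at h
    rw [h]; ring
  have hc' : ((j : ℝ) + m) * (Nat.choose (j + m - 1) m : ℝ) = ((m : ℝ) + 1) * (Nat.choose (j + m) (m + 1) : ℝ) := by
    exact_mod_cast hc
  unfold yw
  rw [show j + (m + 1) - 1 = j + m by omega, show m + 1 - 1 = m by omega]
  push_cast
  set c1 := (Nat.choose (j + m - 1) m : ℝ)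
  set c2 := (Nat.choose (j + m) (m + 1) : ℝ)
  rw [pow_succ]
  linear_combination (-Real.exp (-((j : ℝ) * t)) * (1 - Real.exp (-t)) ^ m) * hc'

lemma yw2_forward0 (t : ℝ) (j : ℕ) : HasDerivAt (fun t => yw t j 0) (-((j : ℝ) * yw t j 0)) t := by
  refine (yw2_deriv t j 0).congr_deriv ?_
  unfold yw
  simp

lemma yw2_backward (t : ℝ) (j m : ℕ) (hj : 0 < j) : HasDerivAt (fun t => yw t j (m + 1))
    ((j : ℝ) * (yw t (j + 1) m - yw t j (m + 1))) t := by
  refine (yw2_deriv t j (m + 1)).congr_deriv ?_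
  have hc : j * Nat.choose (j + m) m = (m + 1) * Nat.choose (j + m) (m + 1) := by
    have h := Nat.choose_succ_right_eq (j + m) m
    rw [show j + m - m = j by omega] at h
    rw [mul_comm (m + 1), h]; ring
  have hc' : (j : ℝ) * (Nat.choose (j + m) m : ℝ) = ((m : ℝ) + 1) * (Nat.choose (j + m) (m + 1) : ℝ) := by
    exact_mod_cast hc
  unfold yw
  rw [show j + (m + 1) - 1 = j + m by omega, show m + 1 - 1 = m by omega,
    show j + 1 + m - 1 = j + m by omega]
  have he : Real.exp (-(((j + 1 : ℕ) : ℝ) * t)) = Real.exp (-((j : ℝ) * t)) * Real.exp (-t) := by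
    rw [← Real.exp_add]; congr 1; push_cast; ring
  rw [he]
  push_cast
  rw [pow_succ]
  linear_combination (-Real.exp (-((j : ℝ) * t)) * Real.exp (-t) * (1 - Real.exp (-t)) ^ m) * hc'

lemma yw2_sum (t b : ℝ) (j m : ℕ) (hj : 0 < j) (k : ℕ) (hk : k < m) :
    HasDerivAt (fun b => ∑ i ∈ range (k + 1), yw b j i * yw (t - b) (j + i) (m - i))
      (-(((j + k : ℕ) : ℝ) * yw b j k * yw (t - b) (j + k + 1) (m - k - 1))) b := by
  have hb : ∀ J r : ℕ, 0 < J → 0 < r → HasDerivAt (fun b => yw (t - b) J r)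
      (-((J : ℝ) * (yw (t - b) (J + 1) (r - 1) - yw (t - b) J r))) b := by
    intro J r hJ hr
    obtain ⟨r', rfl⟩ : ∃ r', r = r' + 1 := ⟨r - 1, by omega⟩
    have h1 := (yw2_backward (t - b) J r' hJ).comp b ((hasDerivAt_id b).const_sub t)
    refine h1.congr_deriv ?_
    rw [show r' + 1 - 1 = r' by omega]
    ring
  induction k with
  | zero =>
    simp only [zero_add, sum_range_one, add_zero, Nat.sub_zero]
    refine ((yw2_forward0 b j).mul (hb j m hj (by omega))).congr_deriv ?_
    ring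
  | succ k ih =>
    have h1 := ih (by omega)
    have h2 := (yw2_forward b j k hj).mul (hb (j + (k + 1)) (m - (k + 1)) (by omega) (by omega))
    have h3 := h1.add h2
    have e : (fun b => ∑ i ∈ range (k + 1 + 1), yw b j i * yw (t - b) (j + i) (m - i)) =
        fun b => (∑ i ∈ range (k + 1), yw b j i * yw (t - b) (j + i) (m - i)) +
          yw b j (k + 1) * yw (t - b) (j + (k + 1)) (m - (k + 1)) := by
      funext b; rw [sum_range_succ]
    rw [e]
    refine h3.congr_deriv ?_
    rw [show m - k - 1 = m - (k + 1) by omega, show j + k + 1 = j + (k + 1) by omega]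
    push_cast
    ring

lemma yw_integral (ht : 0 ≤ t) (hj : 0 < j) {k m : ℕ} (hk : k < m) :
    ∫ b in (0 : ℝ)..t, ((j + k : ℕ) : ℝ) * yw b j k * yw (t - b) (j + k + 1) (m - k - 1)
      = yw t j m := by
  have h1 : ∀ b ∈ Set.uIcc (0 : ℝ) t, HasDerivAt
      (fun b => -∑ i ∈ range (k + 1), yw b j i * yw (t - b) (j + i) (m - i))
      (((j + k : ℕ) : ℝ) * yw b j k * yw (t - b) (j + k + 1) (m - k - 1)) b := by
    intro b _
    refine (yw2_sum t b j m hj k hk).neg.congr_deriv ?_
    ring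
  have hc : Continuous (fun b => ((j + k : ℕ) : ℝ) * yw b j k * yw (t - b) (j + k + 1) (m - k - 1)) := by
    have c1 := yw_continuous j k
    have c2 := (yw_continuous (j + k + 1) (m - k - 1)).comp (continuous_const.sub continuous_id (X := ℝ) (f := fun _ => t))
    exact (continuous_const.mul c1).mul c2
  rw [intervalIntegral.integral_eq_sub_of_hasDerivAt h1 (hc.intervalIntegrable _ _)]
  have z0 : ∀ i : ℕ, yw 0 j i = if i = 0 then 1 else 0 := fun i => yw_zero_time j i
  have e1 : ∑ i ∈ range (k + 1), yw t j i * yw (t - t) (j + i) (m - i) = 0 := by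
    apply sum_eq_zero
    intro i hi
    have hi' := mem_range.1 hi
    rw [sub_self, yw_zero_time, if_neg (by omega), mul_zero]
  have e2 : ∑ i ∈ range (k + 1), yw 0 j i * yw (t - 0) (j + i) (m - i) = yw t j m := by
    rw [sum_eq_single_of_mem 0 (by simp)]
    · rw [yw_zero_time]; simp
    · intro i _ hi
      rw [yw_zero_time, if_neg hi, zero_mul]
  rw [e1, e2]
  ring

end FT
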