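import Pool.Agent.FT.Semi1
import Pool.Agent.FT.Yule2

/-! # Module Semi2 (friend tree, MP_5ccad8_pr) -/

open Finset MeasureTheory Filter Topology

namespace FT

variable {C : Type*} {inh : St → W → C → C} {Inv : St × C → Prop} {w w' F G : St × C → ℝ}
  {x : St × C} {t s : ℝ}

lemma P_zero : P inh 0 F x = F x := by
  unfold P
  rw [tsum_eq_single 0]
  · rw [yw_zero_time, if_pos rfl, one_mul, U_zero]
  · intro m hm
    rw [yw_zero_time, if_neg hm, zero_mul]

lemma P_const (ht : 0 ≤ t) (c : ℝ) : P inh t (fun _ => c) x = c := by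
  unfold P
  simp_rw [U_const]
  rw [tsum_mul_right, (yw_hasSum ht (Nat.succ_pos _)).tsum_eq, one_mul]

lemma P_add_fun (hw : Wt inh Inv w) (hF : Dom Inv w F) (hG : Dom Inv w G) (ht : 0 ≤ t)
    (hx : Inv x) : P inh t (fun y => F y + G y) x = P inh t F x + P inh t G x := by
  have h := (P_hasSum hw hF ht hx (j := x.1.n + 1) (by omega) (by omega)).add
    (P_hasSum hw hG ht hx (j := x.1.n + 1) (by omega) (by omega))
  rw [← h.tsum_eq]
  unfold P
  congr 1
  funext m
  rw [U_add_fun]
  ring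

lemma P_sub_fun (hw : Wt inh Inv w) (hF : Dom Inv w F) (hG : Dom Inv w G) (ht : 0 ≤ t)
    (hx : Inv x) : P inh t (fun y => F y - G y) x = P inh t F x - P inh t G x := by
  have h := (P_hasSum hw hF ht hx (j := x.1.n + 1) (by omega) (by omega)).sub
    (P_hasSum hw hG ht hx (j := x.1.n + 1) (by omega) (by omega))
  rw [← h.tsum_eq]
  unfold P
  congr 1
  funext m
  rw [U_sub_fun]
  ring

lemma P_smul (c : ℝ) : P inh t (fun y => c * F y) x = c * P inh t F x := by
  unfold P
  rw [← tsum_mul_left]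
  congr 1
  funext m
  rw [U_smul]
  ring

lemma P_mono (hw : Wt inh Inv w) (hF : Dom Inv w F) (hG : Dom Inv w G) (ht : 0 ≤ t)
    (hx : Inv x) (h : ∀ y, Inv y → F y ≤ G y) : P inh t F x ≤ P inh t G x := by
  refine hasSum_le (fun m => ?_)
    (P_hasSum hw hF ht hx (j := x.1.n + 1) (by omega) (by omega))
    (P_hasSum hw hG ht hx (j := x.1.n + 1) (by omega) (by omega))
  exact mul_le_mul_of_nonneg_left
    (U_mono hw.closed m hx (by omega) (by omega) fun y hy _ => h y hy) (yw_nonneg ht _ _)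

lemma P_congr (hI : Closed inh Inv) (hx : Inv x) (h : ∀ y, Inv y → F y = G y) :
    P inh t F x = P inh t G x := by
  unfold P
  congr 1
  funext m
  rw [U_congr hI m hx fun y hy _ => h y hy]

lemma P_abs_le (hw : Wt inh Inv w) {c : ℝ} (hc : 0 ≤ c) (hF : ∀ x, Inv x → |F x| ≤ c * w x)
    (ht : 0 ≤ t) (hx : Inv x) : |P inh t F x| ≤ c * Real.exp t * w x := by
  have h1 := P_hasSum hw ⟨c, hc, hF⟩ ht hx (j := x.1.n + 1) (by omega) (by omega)
  have h2 := (yw_hasSum_mean ht (j := x.1.n + 1) (by omega)).mul_left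
    (c / ((x.1.n + 1 : ℕ) : ℝ) * w x)
  have hj : ((x.1.n + 1 : ℕ) : ℝ) ≠ 0 := by positivity
  have e : c / ((x.1.n + 1 : ℕ) : ℝ) * w x * (((x.1.n + 1 : ℕ) : ℝ) * Real.exp t)
      = c * Real.exp t * w x := by field_simp
  rw [e] at h2
  have hle : ∀ m, |yw t (x.1.n + 1) m * U inh m (x.1.n + 1) F x|
      ≤ c / ((x.1.n + 1 : ℕ) : ℝ) * w x * (yw t (x.1.n + 1) m * ((x.1.n + 1 + m : ℕ) : ℝ)) := by
    intro m
    rw [abs_mul, abs_of_nonneg (yw_nonneg ht _ m)]
    refine (mul_le_mul_of_nonneg_left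
      (U_abs_le hw hc hF hx (j := x.1.n + 1) (by omega) (by omega) m)
      (yw_nonneg ht _ m)).trans (le_of_eq ?_)
    ring
  rw [abs_le]
  constructor
  · exact hasSum_le (fun m => (abs_le.1 (hle m)).1) h2.neg h1
  · exact hasSum_le (fun m => (abs_le.1 (hle m)).2) h1 h2

lemma Dom_P (hw : Wt inh Inv w) (hF : Dom Inv w F) (ht : 0 ≤ t) : Dom Inv w (P inh t F) := by
  obtain ⟨c, hc, hF⟩ := hF
  exact ⟨c * Real.exp t, by positivity, fun x hx => P_abs_le hw hc hF ht hx⟩

/-- finite operators commute with convergent sums -/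
lemma semi2_U_hasSum (hI : Closed inh Inv) {g : ℕ → St × C → ℝ} (k : ℕ) :
    ∀ {j : ℕ} {G : St × C → ℝ} {x : St × C}, Inv x →
    (∀ y, Inv y → y.1.n ≤ x.1.n + k → HasSum (fun m => g m y) (G y)) →
    HasSum (fun m => U inh k j (g m) x) (U inh k j G x) := by
  induction k with
  | zero => intro j G x hx h; exact h x hx (by simp)
  | succ k ih =>
    intro j G x hx h
    have hy : ∀ y, Inv y → y.1.n ≤ x.1.n + 1 →
        HasSum (fun m => U inh k (j + 1) (g m) y) (U inh k (j + 1) G y) := fun y hy hyn =>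
      ih hy fun z hz hzn => h z hz (by omega)
    simp_rw [U_succ, Aop_eq]
    refine HasSum.add ((hy x hx (by omega)).mul_left _) (hasSum_sum fun v hv => HasSum.add ?_ ?_)
    · exact (hy _ (hI.arr x hx v hv) (by simp [St.arr_n hv])).mul_left _
    · by_cases hL : 0 < x.1.L v
      · exact (hy _ (hI.bir x hx v hv hL) (by simp [St.bir_n hv hL])).mul_left _
      · have h0 : x.1.L v = 0 := by omega
        simp [h0]

/-- summation along antidiagonals -/
lemma semi2_antidiag {f : ℕ × ℕ → ℝ} (hf : Summable f) :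
    ∑' k, ∑' m, f (k, m) = ∑' n, ∑ k ∈ range (n + 1), f (k, n - k) := by
  have h1 : ∀ n, ∑ k ∈ range (n + 1), f (k, n - k) = ∑ p ∈ antidiagonal n, f p := fun n => by
    rw [← Finset.Nat.sum_antidiagonal_eq_sum_range_succ (fun a b => f (a, b)) n]
  simp_rw [h1]
  rw [← hf.tsum_prod]
  conv_rhs => congr; ext; rw [← Finset.sum_finset_coe, ← tsum_fintype (L := .unconditional _)]
  rw [← HasAntidiagonal.sigmaAntidiagonalEquivProd.tsum_eq (_ : ℕ × ℕ → ℝ)]
  exact (HasAntidiagonal.sigmaAntidiagonalEquivProd.summable_iff.2 hf).tsum_sigma'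
    (fun n => (hasSum_fintype _).summable)

lemma P_semigroup (hw : Wt inh Inv w) (hF : Dom Inv w F) (hs : 0 ≤ s) (ht : 0 ≤ t) (hx : Inv x) :
    P inh (s + t) F x = P inh s (P inh t F) x := by
  obtain ⟨j, hj⟩ : ∃ j, j = x.1.n + 1 := ⟨_, rfl⟩
  have hj0 : 0 < j := by omega
  have hst : 0 ≤ s + t := by positivity
  have hjr : (j : ℝ) ≠ 0 := by positivity
  have hinner : ∀ k, HasSum (fun m => yw t (j + k) m * U inh (k + m) j F x)
      (U inh k j (P inh t F) x) := by
    intro k
    have h := semi2_U_hasSum hw.closed (g := fun m y => yw t (j + k) m * U inh m (j + k) F y)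
      (G := P inh t F) k (j := j) hx fun y hy hyn =>
        P_hasSum hw hF ht hy (j := j + k) (by omega) (by omega)
    have e : (fun m => U inh k j (fun y => yw t (j + k) m * U inh m (j + k) F y) x)
        = fun m => yw t (j + k) m * U inh (k + m) j F x := by
      funext m
      rw [U_smul k j (yw t (j + k) m) (U inh m (j + k) F), ← U_add]
    rwa [e] at h
  set f : ℕ × ℕ → ℝ := fun p => yw s j p.1 * (yw t (j + p.1) p.2 * U inh (p.1 + p.2) j F x)
    with hfdef
  have hf : Summable f := by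
    obtain ⟨c, hc, hF'⟩ := hF
    set g : ℕ × ℕ → ℝ := fun p => yw s j p.1 * (c / j * w x
      * (yw t (j + p.1) p.2 * ((j + p.1 + p.2 : ℕ) : ℝ))) with hg
    have hw0 := hw.nonneg x hx
    have hg0 : 0 ≤ g := fun p => by
      have h1 := yw_nonneg hs j p.1
      have h2 := yw_nonneg ht (j + p.1) p.2
      simp only [hg, Pi.zero_apply]
      positivity
    have hsg : Summable g := by
      rw [summable_prod_of_nonneg hg0]
      have h1 : ∀ k, HasSum (fun m => g (k, m))
          (yw s j k * (c / j * w x * (((j + k : ℕ) : ℝ) * Real.exp t))) := fun k =>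
        ((yw_hasSum_mean ht (j := j + k) (by omega)).mul_left _).mul_left _
      refine ⟨fun k => (h1 k).summable, ?_⟩
      have h2 : (fun k => ∑' m, g (k, m)) = fun k => (c / j * w x * Real.exp t)
          * (yw s j k * ((j + k : ℕ) : ℝ)) := by
        funext k
        rw [(h1 k).tsum_eq]; ring
      rw [h2]
      exact ((yw_hasSum_mean hs hj0).mul_left _).summable
    refine Summable.of_norm_bounded hsg fun p => ?_
    have h1 := yw_nonneg hs j p.1
    have h2 := yw_nonneg ht (j + p.1) p.2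
    rw [Real.norm_eq_abs]
    simp only [hfdef, hg]
    rw [abs_mul, abs_mul, abs_of_nonneg h1, abs_of_nonneg h2]
    have h3 := U_abs_le hw hc hF' hx (j := j) (by omega) (by omega) (p.1 + p.2)
    have h4 := mul_le_mul_of_nonneg_left (mul_le_mul_of_nonneg_left h3 h2) h1
    refine h4.trans (le_of_eq ?_)
    rw [show j + (p.1 + p.2) = j + p.1 + p.2 by ring]
    ring
  have hR := (P_hasSum hw (Dom_P hw hF ht) hs hx (j := j) (by omega) (by omega)).tsum_eq
  have hL := (P_hasSum hw hF hst hx (j := j) (by omega) (by omega)).tsum_eq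
  rw [← hR, ← hL]
  have e1 : ∀ k, yw s j k * U inh k j (P inh t F) x = ∑' m, f (k, m) := fun k => by
    rw [← ((hinner k).mul_left (yw s j k)).tsum_eq]
  simp_rw [e1]
  rw [semi2_antidiag hf]
  congr 1
  funext n
  rw [yw_CK hs ht hj0, sum_mul]
  apply sum_congr rfl
  intro k hk
  rw [mem_range] at hk
  simp only [hfdef]
  rw [show k + (n - k) = n by omega]
  ring

lemma P_forget (F : St × Unit → ℝ) (x : St × C) :
    P inh t (fun z => F (z.1, ())) x = P inhU t F (x.1, ()) := by
  unfold P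
  congr 1
  funext m
  rw [U_forget]

end FT
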