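import Pool.Agent.FT.Semi2

/-! # Module Semi3 (friend tree, MP_5ccad8_pr) -/

open Finset MeasureTheory Filter Topology

namespace FT

variable {C : Type*} {inh : St → W → C → C} {Inv : St × C → Prop} {w w' F G : St × C → ℝ}
  {x : St × C} {t s : ℝ}

/-- recursion of the rising binomial coefficients -/
lemma semi3_multichoose_succ (r : ℝ) (m : ℕ) :
    ((m : ℝ) + 1) * Ring.choose (r + ((m + 1 : ℕ) : ℝ) - 1) (m + 1)
      = (r + m) * Ring.choose (r + (m : ℝ) - 1) m := by
  have h1 := Ring.factorial_nsmul_multichoose_eq_ascPochhammer r (m + 1)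
  have h2 := Ring.factorial_nsmul_multichoose_eq_ascPochhammer r m
  rw [Polynomial.ascPochhammer_smeval_eq_eval] at h1 h2
  rw [ascPochhammer_succ_eval, ← h2] at h1
  rw [← Ring.multichoose_eq, ← Ring.multichoose_eq]
  simp only [nsmul_eq_mul] at h1
  rw [Nat.factorial_succ] at h1
  push_cast at h1
  have h3 : ((m.factorial : ℕ) : ℝ) ≠ 0 := by positivity
  apply mul_left_cancel₀ h3
  linarith

lemma semi3_choose_pr (lam : ℝ) {j : ℕ} (hj : 0 < j) (m : ℕ) :
    (Nat.choose (j + m - 1) m : ℝ) * pr lam j m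
      = Ring.choose ((j : ℝ) + lam + (m : ℝ) - 1) m := by
  induction m with
  | zero => simp [pr_zero]
  | succ m ih =>
    have h1 := semi3_multichoose_succ ((j : ℝ) + lam) m
    rw [← ih] at h1
    have h2 : ((m : ℝ) + 1) * (Nat.choose (j + (m + 1) - 1) (m + 1) : ℝ)
        = ((j : ℝ) + m) * (Nat.choose (j + m - 1) m : ℝ) := by
      obtain ⟨i, rfl⟩ : ∃ i, j = i + 1 := ⟨j - 1, by omega⟩
      have h := Nat.add_one_mul_choose_eq (i + m) m
      rw [show i + 1 + (m + 1) - 1 = i + m + 1 by omega, show i + 1 + m - 1 = i + m by omega]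
      have h' : (((i + m + 1 : ℕ) : ℝ)) * (Nat.choose (i + m) m : ℝ)
          = (Nat.choose (i + m + 1) (m + 1) : ℝ) * ((m + 1 : ℕ) : ℝ) := by exact_mod_cast h
      push_cast at h' ⊢
      linarith
    rw [pr_succ_last]
    have h3 : ((m : ℝ) + 1) ≠ 0 := by positivity
    apply mul_left_cancel₀ h3
    rw [h1]
    have hjm : (((j + m : ℕ) : ℝ)) ≠ 0 := by positivity
    have e : ((j : ℝ) + m) * (1 + lam / ((j + m : ℕ) : ℝ)) = (j : ℝ) + lam + m := by
      push_cast at hjm ⊢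
      field_simp
      ring
    calc ((m : ℝ) + 1) * ((Nat.choose (j + (m + 1) - 1) (m + 1) : ℝ)
          * (pr lam j m * (1 + lam / ((j + m : ℕ) : ℝ))))
        = (((m : ℝ) + 1) * (Nat.choose (j + (m + 1) - 1) (m + 1) : ℝ))
          * (pr lam j m * (1 + lam / ((j + m : ℕ) : ℝ))) := by ring
      _ = (((j : ℝ) + m) * (Nat.choose (j + m - 1) m : ℝ))
          * (pr lam j m * (1 + lam / ((j + m : ℕ) : ℝ))) := by rw [h2]
      _ = (((j : ℝ) + m) * (1 + lam / ((j + m : ℕ) : ℝ)))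
          * ((Nat.choose (j + m - 1) m : ℝ) * pr lam j m) := by ring
      _ = _ := by rw [e]

lemma yw_pr_hasSum {lam : ℝ} (hl : -1 ≤ lam) {j : ℕ} (hj : 0 < j) (ht : 0 ≤ t) :
    HasSum (fun m => yw t j m * pr lam j m) (Real.exp (lam * t)) := by
  have h := Real.one_div_one_sub_rpow_hasFPowerSeriesOnBall_zero ((j : ℝ) + lam)
  have hz0 : 0 ≤ 1 - Real.exp (-t) := by
    have := Real.exp_le_one_iff.2 (neg_nonpos.2 ht); linarith
  have hz1 : 1 - Real.exp (-t) < 1 := by have := Real.exp_pos (-t); linarith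
  have hmem : (1 - Real.exp (-t)) ∈ Metric.eball (0 : ℝ) 1 := by
    rw [← ENNReal.ofReal_one, Metric.eball_ofReal]
    simp only [Metric.mem_ball, dist_zero_right, Real.norm_eq_abs, abs_of_nonneg hz0]
    exact hz1
  have hs := (h.hasSum hmem).mul_left (Real.exp (-((j : ℝ) * t)))
  have e1 : Real.exp (-((j : ℝ) * t)) * (1 / (1 - (0 + (1 - Real.exp (-t)))) ^ ((j : ℝ) + lam))
      = Real.exp (lam * t) := by
    rw [show 1 - (0 + (1 - Real.exp (-t))) = Real.exp (-t) by ring, ← Real.exp_mul, one_div,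
      ← Real.exp_neg, ← Real.exp_add]
    congr 1
    ring
  rw [e1] at hs
  refine HasSum.congr_fun hs fun m => ?_
  rw [FormalMultilinearSeries.ofScalars_apply_eq]
  rw [← semi3_choose_pr lam hj m]
  unfold yw
  simp only [smul_eq_mul]
  ring

lemma P_le_exp (hw : Wt inh Inv w) (hF : Dom Inv w F) {lam : ℝ} (hl : -1 ≤ lam)
    (h : ∀ y, Inv y → gen inh F y ≤ lam * F y) (ht : 0 ≤ t) (hx : Inv x) :
    P inh t F x ≤ Real.exp (lam * t) * F x := by
  have h1 := P_hasSum hw hF ht hx (j := x.1.n + 1) (by omega) (by omega)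
  have h2 := (yw_pr_hasSum hl (j := x.1.n + 1) (by omega) ht).mul_right (F x)
  refine hasSum_le (fun m => ?_) h1 h2
  rw [mul_assoc]
  exact mul_le_mul_of_nonneg_left (U_le_pr hw.closed hl h m hx (by omega) (by omega))
    (yw_nonneg ht _ _)

lemma exp_le_P (hw : Wt inh Inv w) (hF : Dom Inv w F) {lam : ℝ} (hl : -1 ≤ lam)
    (h : ∀ y, Inv y → lam * F y ≤ gen inh F y) (ht : 0 ≤ t) (hx : Inv x) :
    Real.exp (lam * t) * F x ≤ P inh t F x := by
  have h1 := P_hasSum hw hF ht hx (j := x.1.n + 1) (by omega) (by omega)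
  have h2 := (yw_pr_hasSum hl (j := x.1.n + 1) (by omega) ht).mul_right (F x)
  refine hasSum_le (fun m => ?_) h2 h1
  rw [mul_assoc]
  exact mul_le_mul_of_nonneg_left (pr_le_U hw.closed hl h m hx (by omega) (by omega))
    (yw_nonneg ht _ _)

end FT
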