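import Pool.Agent.FT.Prod

/-! # Module Sq (friend tree, MP_5ccad8_pr) -/

open Finset MeasureTheory Filter Topology

namespace FT

/-- the bilinear functional -/
noncomputable def sq_aux_Q (m j : ℕ) (S : St) (A B : Finset W) : ℝ :=
  U inhAB m j (fun x => card (x.1, x.2.1) * card (x.1, x.2.2)) (S, (A, B))

lemma sq_aux_Q_zero (j : ℕ) (S : St) (A B : Finset W) :
    sq_aux_Q 0 j S A B = (A.card : ℝ) * B.card := rfl

lemma sq_aux_Q_succ (m j : ℕ) (S : St) (A B : Finset W) :
    sq_aux_Q (m + 1) j S A B = sq_aux_Q m (j + 1) S A B + (1 / (j : ℝ)) *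
      ∑ v ∈ S.V, (((S.L v : ℝ) + S.κ v) * (sq_aux_Q m (j + 1) (S.arr v) A B
          - sq_aux_Q m (j + 1) S A B)
        + ((S.L v : ℝ) / S.d v) * (sq_aux_Q m (j + 1) (S.bir v) (inhA S v A) (inhA S v B)
          - sq_aux_Q m (j + 1) S A B)) := rfl

lemma sq_aux_inh_sub {S : St} {v : W} {A : Finset W} (hA : A ⊆ S.V) (hv : v ∈ S.V)
    (hL : 0 < S.L v) : inhA S v A ⊆ (S.bir v).V := by
  rw [St.bir_V hv hL]
  simp only [inhA, inhT]
  split_ifs
  · exact insert_subset_insert _ hA
  · exact hA.trans (subset_insert _ _)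

lemma sq_aux_add_left (m : ℕ) : ∀ (j : ℕ) (S : St) (A A' B : Finset W), A ⊆ S.V → A' ⊆ S.V →
    Disjoint A A' →
    sq_aux_Q m j S (A ∪ A') B = sq_aux_Q m j S A B + sq_aux_Q m j S A' B := by
  induction m with
  | zero =>
    intro j S A A' B _ _ hd
    rw [sq_aux_Q_zero, sq_aux_Q_zero, sq_aux_Q_zero, card_union_of_disjoint hd]
    push_cast; ring
  | succ m ih =>
    intro j S A A' B hA hA' hd
    rw [sq_aux_Q_succ, sq_aux_Q_succ, sq_aux_Q_succ, ih _ S A A' B hA hA' hd]
    have key : ∀ v ∈ S.V, (((S.L v : ℝ) + S.κ v) * (sq_aux_Q m (j + 1) (S.arr v) (A ∪ A') B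
          - (sq_aux_Q m (j + 1) S A B + sq_aux_Q m (j + 1) S A' B))
        + ((S.L v : ℝ) / S.d v) * (sq_aux_Q m (j + 1) (S.bir v) (inhA S v (A ∪ A')) (inhA S v B)
          - (sq_aux_Q m (j + 1) S A B + sq_aux_Q m (j + 1) S A' B)))
        = (((S.L v : ℝ) + S.κ v) * (sq_aux_Q m (j + 1) (S.arr v) A B
          - sq_aux_Q m (j + 1) S A B)
        + ((S.L v : ℝ) / S.d v) * (sq_aux_Q m (j + 1) (S.bir v) (inhA S v A) (inhA S v B)
          - sq_aux_Q m (j + 1) S A B))
        + (((S.L v : ℝ) + S.κ v) * (sq_aux_Q m (j + 1) (S.arr v) A' B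
          - sq_aux_Q m (j + 1) S A' B)
        + ((S.L v : ℝ) / S.d v) * (sq_aux_Q m (j + 1) (S.bir v) (inhA S v A') (inhA S v B)
          - sq_aux_Q m (j + 1) S A' B)) := by
      intro v hv
      rw [ih _ (S.arr v) A A' B (by simpa using hA) (by simpa using hA') hd]
      by_cases hL : 0 < S.L v
      · have h1 : inhA S v (A ∪ A') = inhA S v A ∪ inhA S v A' := by
          simp only [inhA, inhT, and_true]
          by_cases h1 : v ∈ A
          · have h2 : v ∉ A' := fun h => (disjoint_left.1 hd h1) h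
            simp [h1, h2]
          · by_cases h2 : v ∈ A'
            · simp [h1, h2]
            · simp [h1, h2]
        have h2 : Disjoint (inhA S v A) (inhA S v A') := by
          have hn1 : S.new v ∉ A := fun h => S.new_not_mem hv (hA h)
          have hn2 : S.new v ∉ A' := fun h => S.new_not_mem hv (hA' h)
          simp only [inhA, inhT, and_true]
          by_cases h1 : v ∈ A
          · have h2 : v ∉ A' := fun h => (disjoint_left.1 hd h1) h
            simp only [h1, h2, if_true, if_false]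
            rw [disjoint_insert_left]
            exact ⟨hn2, hd⟩
          · by_cases h2 : v ∈ A'
            · simp only [h1, h2, if_true, if_false]
              rw [disjoint_insert_right]
              exact ⟨hn1, hd⟩
            · simp only [h1, h2, if_false]
              exact hd
        rw [h1, ih _ (S.bir v) _ _ _ (sq_aux_inh_sub hA hv hL) (sq_aux_inh_sub hA' hv hL) h2]
        ring
      · have : S.L v = 0 := by omega
        simp only [this, Nat.cast_zero, zero_div, zero_mul, add_zero]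
        ring
    rw [sum_congr rfl key, sum_add_distrib]
    ring

lemma sq_aux_symm (m : ℕ) : ∀ (j : ℕ) (S : St) (A B : Finset W),
    sq_aux_Q m j S A B = sq_aux_Q m j S B A := by
  induction m with
  | zero =>
    intro j S A B
    rw [sq_aux_Q_zero, sq_aux_Q_zero]; ring
  | succ m ih =>
    intro j S A B
    rw [sq_aux_Q_succ, sq_aux_Q_succ]
    rw [ih _ S A B]
    congr 2
    apply sum_congr rfl
    intro v _
    rw [ih _ (S.arr v) A B, ih _ (S.bir v) (inhA S v A) (inhA S v B)]

lemma sq_aux_diag (m : ℕ) : ∀ (j : ℕ) (S : St) (A : Finset W),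
    U inhA m j (fun y => card y ^ 2) (S, A) = sq_aux_Q m j S A A := by
  induction m with
  | zero =>
    intro j S A
    rw [sq_aux_Q_zero, U_zero]
    simp only [card]; ring
  | succ m ih =>
    intro j S A
    rw [sq_aux_Q_succ, U_succ]
    unfold Aop gen
    simp only [ih]

lemma sq_aux_empty (m j : ℕ) (S : St) (B : Finset W) : sq_aux_Q m j S ∅ B = 0 := by
  have := sq_aux_add_left m j S ∅ ∅ B (empty_subset _) (empty_subset _) (disjoint_empty_left _)
  rw [union_empty] at this
  linarith

lemma sq_aux_sum_left (m j : ℕ) (S : St) (B : Finset W) (A : Finset W) (hA : A ⊆ S.V) :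
    sq_aux_Q m j S A B = ∑ y ∈ A, sq_aux_Q m j S {y} B := by
  induction A using Finset.induction_on with
  | empty => simp [sq_aux_empty]
  | insert a A ha ih =>
    rw [sum_insert ha, insert_eq, sq_aux_add_left m j S {a} A B
      (singleton_subset_iff.2 (hA (mem_insert_self _ _)))
      ((subset_insert _ _).trans hA) (disjoint_singleton_left.2 ha),
      ih ((subset_insert _ _).trans hA)]

lemma sq_aux_sum (m j : ℕ) (S : St) (A : Finset W) (hA : A ⊆ S.V) :
    sq_aux_Q m j S A A = ∑ y ∈ A, ∑ z ∈ A, sq_aux_Q m j S {y} {z} := by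
  rw [sq_aux_sum_left m j S A A hA]
  apply sum_congr rfl
  intro y _
  rw [sq_aux_symm, sq_aux_sum_left m j S {y} A hA]
  apply sum_congr rfl
  intro z _
  rw [sq_aux_symm]

lemma sq_aux_cross (m j : ℕ) (S : St) (hS : Full S) {y z : W} (hy : y ∈ S.V) (hz : z ∈ S.V)
    (hyz : y ≠ z) (hj : 0 < j) (hn : S.n ≤ j) :
    sq_aux_Q m j S {y} {z} ≤ 25600 * KK m j ^ 2 := by
  have := prod_bound m j S {y} {z} hS (singleton_subset_iff.2 hy) (singleton_subset_iff.2 hz)
    (disjoint_singleton.2 hyz) hj hn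
  rw [card_singleton, card_singleton, Nat.cast_one, mul_one, mul_one] at this
  exact this

lemma sq_aux_full_closed : Closed inhA (fun x : St × Finset W => Full x.1 ∧ Sub x) where
  arr x hx v hv := by
    refine ⟨?_, (closed_sub (fun _ => true)).arr x hx.2 v hv⟩
    intro w hw
    simp only [St.arr_V] at hw
    simp only [St.arr_h]
    exact hx.1 w hw
  bir x hx v hv hL := by
    refine ⟨?_, (closed_sub (fun _ => true)).bir x hx.2 v hv hL⟩
    intro w hw
    simp only [St.bir_V hv hL, mem_insert] at hw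
    rcases hw with rfl | hw
    · exact St.bir_h_new hv hL
    · rw [St.bir_h_mem hv hL hw]; exact hx.1 w hw

/-- from the single-vertex bound to the general bound -/
lemma sq_aux_gen (m j : ℕ) {c : ℝ} (S : St) (A : Finset W) (hS : Full S) (hA : A ⊆ S.V)
    (hj : 0 < j) (hn : S.n ≤ j)
    (h : ∀ y ∈ A, sq_aux_Q m j S {y} {y} ≤ c * bet (S.L y) (S.s y)) :
    U inhA m j (fun y => card y ^ 2) (S, A) ≤ c * ∑ y ∈ A, bet (S.L y) (S.s y)
      + 25600 * KK m j ^ 2 * ((A.card : ℝ) ^ 2 - A.card) := by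
  rw [sq_aux_diag, sq_aux_sum m j S A hA]
  have h1 : ∀ y ∈ A, ∑ z ∈ A, sq_aux_Q m j S {y} {z} ≤ c * bet (S.L y) (S.s y)
      + ((A.card : ℝ) - 1) * (25600 * KK m j ^ 2) := by
    intro y hy
    rw [← add_sum_erase _ _ hy]
    apply add_le_add (h y hy)
    have h2 : ∑ z ∈ A.erase y, sq_aux_Q m j S {y} {z} ≤ ∑ z ∈ A.erase y, 25600 * KK m j ^ 2 := by
      apply sum_le_sum
      intro z hz
      exact sq_aux_cross m j S hS (hA hy) (hA (mem_of_mem_erase hz)) (ne_of_mem_erase hz).symm hj hn
    refine h2.trans (le_of_eq ?_)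
    rw [sum_const, card_erase_of_mem hy, nsmul_eq_mul, Nat.cast_sub (card_pos.2 ⟨y, hy⟩)]
    simp
  refine (sum_le_sum h1).trans (le_of_eq ?_)
  rw [sum_add_distrib, ← mul_sum, sum_const, nsmul_eq_mul]
  ring

lemma sq_aux_main (m : ℕ) : ∀ (j : ℕ) (S : St) (A : Finset W), Full S → A ⊆ S.V → 0 < j →
    S.n ≤ j → U inhA m j (fun y => card y ^ 2) (S, A)
      ≤ 400000 * KK m j ^ 2 * ∑ y ∈ A, bet (S.L y) (S.s y)
        + 25600 * KK m j ^ 2 * ((A.card : ℝ) ^ 2 - A.card) := by
  induction m with
  | zero =>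
    intro j S A hS hA hj hn
    apply sq_aux_gen 0 j S A hS hA hj hn
    intro y hy
    rw [sq_aux_Q_zero]
    have h1 := bet_lower (S.two_le y (hA hy))
    have h2 : KK 0 j = 1 := rfl
    rw [h2]
    simp only [card_singleton, Nat.cast_one]
    linarith
  | succ m ih =>
    intro j S A hS hA hj hn
    apply sq_aux_gen (m + 1) j S A hS hA hj hn
    intro y hy
    have hyV := hA hy
    rw [← sq_aux_diag, U_succ]
    set K := KK m (j + 1) with hK
    have hj' : (0 : ℝ) < j := by exact_mod_cast hj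
    -- comparison
    have h1 : Aop inhA j (U inhA m (j + 1) (fun y => card y ^ 2)) (S, {y})
        ≤ Aop inhA j (fun x => 400000 * K ^ 2 * ∑ y ∈ x.2, bet (x.1.L y) (x.1.s y)
          + 25600 * K ^ 2 * (card x ^ 2 - card x)) (S, {y}) := by
      apply Aop_mono sq_aux_full_closed (x := (S, {y}))
        ⟨hS, singleton_subset_iff.2 hyV⟩ hj hn
      intro z hz hzn
      have := ih (j + 1) z.1 z.2 hz.1 hz.2 (by omega) (by simp only at hzn; omega)
      exact this
    refine h1.trans ?_
    rw [Aop_add, Aop_smul, Aop_smul]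
    simp only
    have h2 : Aop inhA j (fun x => ∑ y ∈ x.2, bet (x.1.L y) (x.1.s y)) (S, {y})
        ≤ bet (S.L y) (S.s y) + (1 / (j : ℝ)) * ((4 / 5) * bet (S.L y) (S.s y)) := by
      unfold Aop
      rw [gen_additive (fun _ => true) bet (x := (S, {y})) (singleton_subset_iff.2 hyV)]
      simp only [sum_singleton, if_true]
      apply add_le_add le_rfl
      apply mul_le_mul_of_nonneg_left _ (by positivity)
      rw [bet_one]
      have := bet_ineq3 (S.two_le y hyV) (S.κ_nonneg y) (St.κ_le_s hyV)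
      unfold St.d
      linarith
    have h3 : Aop inhA j (fun x : St × Finset W => card x ^ 2 - card x) (S, {y})
        = (1 / (j : ℝ)) * (2 * ((S.L y : ℝ) / S.d y)) := by
      unfold Aop gen
      simp only [card, card_singleton, Nat.cast_one]
      rw [sum_eq_single_of_mem y hyV]
      · by_cases hL : 0 < S.L y
        · have hn : S.new y ∉ ({y} : Finset W) := by
            rw [mem_singleton]; exact S.new_ne y
          have : inhA S y {y} = insert (S.new y) {y} := by simp [inhT]
          rw [this, card_insert_of_notMem hn, card_singleton]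
          push_cast
          ring
        · have h0 : S.L y = 0 := by omega
          simp [h0]
      · intro v hv hne
        have : inhA S v {y} = {y} := by simp [inhT, hne]
        rw [this]
        simp
    rw [h3]
    have hb := bet_lower (S.two_le y hyV)
    have hd : (S.L y : ℝ) / S.d y ≤ 1 := by
      rw [div_le_one (St.d_pos hyV)]
      unfold St.d
      have : (0 : ℝ) ≤ S.s y := Nat.cast_nonneg _
      linarith
    have hKK : (1 + (9 / 20) / (j : ℝ)) * K ≤ KK (m + 1) j := le_max_right _ _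
    have hK1 : 1 ≤ K := one_le_KK _ _
    have h4 : ((1 + (9 / 20) / (j : ℝ)) * K) ^ 2 ≤ KK (m + 1) j ^ 2 := by
      apply pow_le_pow_left₀ (by positivity) hKK
    have h5 : (1 + (9 / 10) * (1 / (j : ℝ))) * K ^ 2 ≤ KK (m + 1) j ^ 2 := by
      refine le_trans ?_ h4
      have : (0 : ℝ) ≤ 1 / (j : ℝ) := by positivity
      rw [mul_pow]
      apply mul_le_mul_of_nonneg_right _ (by positivity)
      have e : (9 / 20) / (j : ℝ) = (9 / 20) * (1 / (j : ℝ)) := by ring
      rw [e]
      nlinarith [mul_nonneg this this]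
    set b := bet (S.L y) (S.s y) with hb'
    set r := (1 / (j : ℝ)) with hr
    have hr0 : 0 ≤ r := by positivity
    calc 400000 * K ^ 2 * Aop inhA j (fun x => ∑ y ∈ x.2, bet (x.1.L y) (x.1.s y)) (S, {y})
          + 25600 * K ^ 2 * (r * (2 * ((S.L y : ℝ) / S.d y)))
        ≤ 400000 * K ^ 2 * (b + r * ((4 / 5) * b)) + 25600 * K ^ 2 * (r * (2 * 1)) := by
          apply add_le_add
          · exact mul_le_mul_of_nonneg_left h2 (by positivity)
          · apply mul_le_mul_of_nonneg_left _ (by positivity)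
            apply mul_le_mul_of_nonneg_left _ hr0
            linarith
      _ = 400000 * K ^ 2 * (b + r * ((4 / 5) * b + 0.128)) := by ring
      _ ≤ 400000 * K ^ 2 * (b + r * ((9 / 10) * b)) := by
          apply mul_le_mul_of_nonneg_left _ (by positivity)
          apply add_le_add le_rfl
          apply mul_le_mul_of_nonneg_left _ hr0
          linarith
      _ = 400000 * ((1 + (9 / 10) * r) * K ^ 2) * b := by ring
      _ ≤ 400000 * KK (m + 1) j ^ 2 * b := by
          apply mul_le_mul_of_nonneg_right _ (by linarith)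
          apply mul_le_mul_of_nonneg_left h5 (by norm_num)

theorem sq_bound : ∃ C : ℝ, 0 < C ∧ ∀ (m j : ℕ) (x : St × Finset W), Full x.1 → Sub x → 0 < j →
    x.1.n ≤ j → U inhA m j (fun y => card y ^ 2) x ≤ C * KK m j ^ 2 * card x ^ 2 := by
  refine ⟨1000000, by norm_num, ?_⟩
  intro m j x hS hx hj hn
  refine (sq_aux_main m j x.1 x.2 hS hx hj hn).trans ?_
  have h1 : ∑ y ∈ x.2, bet (x.1.L y) (x.1.s y) ≤ (20 / 9) * (x.2.card : ℝ) := by
    have : ∑ y ∈ x.2, bet (x.1.L y) (x.1.s y) ≤ ∑ y ∈ x.2, (20 / 9 : ℝ) :=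
      sum_le_sum fun y _ => bet_upper _ _
    refine this.trans (le_of_eq ?_)
    rw [sum_const, nsmul_eq_mul]; ring
  have h2 : (x.2.card : ℝ) ≤ (x.2.card : ℝ) ^ 2 := by
    have : x.2.card ≤ x.2.card ^ 2 := Nat.le_self_pow (by norm_num) _
    exact_mod_cast this
  have hK : 0 ≤ KK m j ^ 2 := by positivity
  have h3 : card x = (x.2.card : ℝ) := rfl
  rw [h3]
  set a := (x.2.card : ℝ) with ha
  have ha0 : 0 ≤ a := Nat.cast_nonneg _
  calc 400000 * KK m j ^ 2 * ∑ y ∈ x.2, bet (x.1.L y) (x.1.s y)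
        + 25600 * KK m j ^ 2 * (a ^ 2 - a)
      ≤ 400000 * KK m j ^ 2 * ((20 / 9) * a ^ 2) + 25600 * KK m j ^ 2 * a ^ 2 := by
        apply add_le_add
        · apply mul_le_mul_of_nonneg_left _ (by positivity)
          linarith
        · apply mul_le_mul_of_nonneg_left _ (by positivity)
          linarith
    _ ≤ 1000000 * KK m j ^ 2 * a ^ 2 := by
        have : 0 ≤ KK m j ^ 2 * a ^ 2 := by positivity
        nlinarith

end FT
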