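import Pool.Agent.FT.Bounds
import Pool.Agent.FT.Duh

/-! # Module Super (friend tree, MP_5ccad8_pr) -/

open Finset MeasureTheory Filter Topology

namespace FT

/-! ### the function `xi` -/

lemma super_aux_xi_nonneg (i L s : ℕ) : 0 ≤ xi i L s := by
  unfold xi
  split_ifs
  · positivity
  · exact le_rfl

lemma super_aux_xi_le_one (i L s : ℕ) : xi i L s ≤ 1 := by
  unfold xi
  split_ifs
  · have h1 : (0 : ℝ) ≤ L := Nat.cast_nonneg _
    have h2 : (0 : ℝ) ≤ s := Nat.cast_nonneg _
    rcases eq_or_lt_of_le (add_nonneg h1 h2) with h | h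
    · rw [← h]; simp
    · rw [div_le_one h]; linarith
  · exact zero_le_one

lemma super_aux_xi_of_le {i L : ℕ} (h : i ≤ L) (s : ℕ) : xi i L s = (L : ℝ) / ((L : ℝ) + s) := by
  unfold xi; rw [if_pos h]

lemma super_aux_xi_of_lt {i L : ℕ} (h : L < i) (s : ℕ) : xi i L s = 0 := by
  unfold xi; rw [if_neg (by omega)]

lemma super_aux_xi_one (L s : ℕ) : xi 1 L s = (L : ℝ) / ((L : ℝ) + s) := by
  rcases Nat.eq_zero_or_pos L with h | h
  · subst h; rw [super_aux_xi_of_lt (by omega)]; simp
  · exact super_aux_xi_of_le h s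

lemma super_aux_xi_mono (i L s : ℕ) : xi i L s ≤ xi i (L + 1) s := by
  rcases Nat.lt_or_ge L i with h | h
  · rw [super_aux_xi_of_lt h]; exact super_aux_xi_nonneg _ _ _
  · rw [super_aux_xi_of_le h, super_aux_xi_of_le (by omega)]
    have h1 : (0 : ℝ) ≤ L := Nat.cast_nonneg _
    have h2 : (0 : ℝ) ≤ s := Nat.cast_nonneg _
    push_cast
    rcases eq_or_lt_of_le (add_nonneg h1 h2) with h | h
    · rw [← h]; simp; positivity
    · rw [div_le_div_iff₀ h (by linarith)]
      nlinarith

/-- lower bound for the generator of `xi (i + 1)` -/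
lemma super_aux_gen_lower {i : ℕ} (hi : 1 ≤ i) (L s : ℕ) {κ : ℝ} (hκ : 0 ≤ κ) :
    xi i L s - 2 * xi (i + 1) L s ≤
      ((L : ℝ) + κ) * (xi (i + 1) (L + 1) s - xi (i + 1) L s)
      + ((L : ℝ) / ((L : ℝ) + s)) * (xi (i + 1) (L - 1) (s + 1) - xi (i + 1) L s) := by
  have h1 : (0 : ℝ) ≤ L := Nat.cast_nonneg _
  have h2 : (0 : ℝ) ≤ s := Nat.cast_nonneg _
  rcases Nat.lt_trichotomy L i with h | h | h
  · rw [super_aux_xi_of_lt h, super_aux_xi_of_lt (i := i + 1) (L := L) (by omega),
      super_aux_xi_of_lt (i := i + 1) (L := L + 1) (by omega),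
      super_aux_xi_of_lt (i := i + 1) (L := L - 1) (by omega)]
    simp
  · subst h
    rw [super_aux_xi_of_le le_rfl, super_aux_xi_of_lt (i := L + 1) (L := L) (by omega),
      super_aux_xi_of_le (i := L + 1) (L := L + 1) le_rfl,
      super_aux_xi_of_lt (i := L + 1) (L := L - 1) (by omega)]
    have h3 : (1 : ℝ) ≤ L := by exact_mod_cast hi
    simp only [mul_zero, sub_zero, add_zero]
    push_cast
    have h4 : (L : ℝ) / ((L : ℝ) + s) ≤ L * ((L + 1) / ((L : ℝ) + 1 + s)) := by
      rw [← mul_div_assoc, div_le_div_iff₀ (by linarith) (by linarith)]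
      have : 0 ≤ (L : ℝ) * ((L : ℝ) * L + L * s - 1) := by
        apply mul_nonneg h1
        nlinarith
      nlinarith
    have h5 : 0 ≤ κ * (((L : ℝ) + 1) / ((L : ℝ) + 1 + s)) := by positivity
    linarith
  · rw [super_aux_xi_of_le (i := i) (L := L) (by omega)]
    have e1 : xi (i + 1) L s = (L : ℝ) / ((L : ℝ) + s) := super_aux_xi_of_le (by omega) s
    have e2 : 0 ≤ ((L : ℝ) + κ) * (xi (i + 1) (L + 1) s - xi (i + 1) L s) :=
      mul_nonneg (by linarith) (sub_nonneg.2 (super_aux_xi_mono _ _ _))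
    have e3 : (0 : ℝ) ≤ (L : ℝ) / ((L : ℝ) + s) := by positivity
    have e4 : 0 ≤ xi (i + 1) (L - 1) (s + 1) := super_aux_xi_nonneg _ _ _
    have e5 : xi (i + 1) L s ≤ 1 := super_aux_xi_le_one _ _ _
    have e6 : -((L : ℝ) / ((L : ℝ) + s))
        ≤ ((L : ℝ) / ((L : ℝ) + s)) * (xi (i + 1) (L - 1) (s + 1) - xi (i + 1) L s) := by
      nlinarith
    linarith

/-- lower bound for the generator of `xi 1` -/
lemma super_aux_gen_lower_one (L s : ℕ) {κ : ℝ} (hκ : 0 ≤ κ) :
    (-1) * xi 1 L s ≤
      ((L : ℝ) + κ) * (xi 1 (L + 1) s - xi 1 L s)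
      + ((L : ℝ) / ((L : ℝ) + s)) * (xi 1 (L - 1) (s + 1) - xi 1 L s) := by
  have h1 : (0 : ℝ) ≤ L := Nat.cast_nonneg _
  have h2 : (0 : ℝ) ≤ s := Nat.cast_nonneg _
  have e1 : xi 1 L s = (L : ℝ) / ((L : ℝ) + s) := super_aux_xi_one L s
  have e2 : 0 ≤ ((L : ℝ) + κ) * (xi 1 (L + 1) s - xi 1 L s) :=
    mul_nonneg (by linarith) (sub_nonneg.2 (super_aux_xi_mono _ _ _))
  have e3 : (0 : ℝ) ≤ (L : ℝ) / ((L : ℝ) + s) := by positivity
  have e4 : 0 ≤ xi 1 (L - 1) (s + 1) := super_aux_xi_nonneg _ _ _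
  have e5 : xi 1 L s ≤ 1 := super_aux_xi_le_one _ _ _
  have e6 : -((L : ℝ) / ((L : ℝ) + s))
      ≤ ((L : ℝ) / ((L : ℝ) + s)) * (xi 1 (L - 1) (s + 1) - xi 1 L s) := by
    nlinarith
  linarith

/-- the generator of `xi i` is bounded -/
lemma super_aux_gen_bdd (i L s : ℕ) (hLs : 2 ≤ L + s) {κ : ℝ} (hκ : 0 ≤ κ) (hκs : κ ≤ s / 2) :
    |((L : ℝ) + κ) * (xi i (L + 1) s - xi i L s)
      + ((L : ℝ) / ((L : ℝ) + s)) * (xi i (L - 1) (s + 1) - xi i L s)| ≤ 2 * i + 2 := by
  have h1 : (0 : ℝ) ≤ L := Nat.cast_nonneg _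
  have h2 : (0 : ℝ) ≤ s := Nat.cast_nonneg _
  have h3 : (2 : ℝ) ≤ (L : ℝ) + s := by exact_mod_cast hLs
  have hi : (0 : ℝ) ≤ i := Nat.cast_nonneg _
  have a0 : 0 ≤ ((L : ℝ) + κ) * (xi i (L + 1) s - xi i L s) :=
    mul_nonneg (by linarith) (sub_nonneg.2 (super_aux_xi_mono _ _ _))
  have a1 : ((L : ℝ) + κ) * (xi i (L + 1) s - xi i L s) ≤ 2 * i + 1 := by
    rcases Nat.lt_trichotomy (L + 1) i with h | h | h
    · rw [super_aux_xi_of_lt h, super_aux_xi_of_lt (i := i) (L := L) (by omega)]
      simp; positivity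
    · rw [super_aux_xi_of_le h.ge, super_aux_xi_of_lt (i := i) (L := L) (by omega), sub_zero]
      rw [← mul_div_assoc, div_le_iff₀ (by push_cast; linarith)]
      have h4 : (i : ℝ) = L + 1 := by rw [← h]; push_cast; ring
      rw [h4]; push_cast
      nlinarith
    · rw [super_aux_xi_of_le (i := i) (L := L + 1) (by omega),
        super_aux_xi_of_le (i := i) (L := L) (by omega)]
      have e : ((L + 1 : ℕ) : ℝ) / (((L + 1 : ℕ) : ℝ) + s) - (L : ℝ) / ((L : ℝ) + s)
          = s / (((L : ℝ) + s) * ((L : ℝ) + 1 + s)) := by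
        push_cast
        field_simp
        ring
      rw [e, ← mul_div_assoc, div_le_iff₀ (by positivity)]
      have e1 : ((L : ℝ) + κ) * s ≤ ((L : ℝ) + s) * ((L : ℝ) + 1 + s) := by
        apply mul_le_mul _ (by linarith) h2 (by linarith)
        linarith
      have e2 : 0 ≤ 2 * (i : ℝ) * (((L : ℝ) + s) * ((L : ℝ) + 1 + s)) := by positivity
      linarith
  have b0 : 0 ≤ (L : ℝ) / ((L : ℝ) + s) := by positivity
  have b1 : (L : ℝ) / ((L : ℝ) + s) ≤ 1 := by rw [div_le_one (by linarith)]; linarith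
  have b2 := super_aux_xi_nonneg i (L - 1) (s + 1)
  have b3 := super_aux_xi_le_one i (L - 1) (s + 1)
  have b4 := super_aux_xi_nonneg i L s
  have b5 := super_aux_xi_le_one i L s
  rw [abs_le]
  constructor
  · nlinarith
  · nlinarith

/-! ### the chain -/

/-- the label is `{y}` and `y` is a core vertex -/
def super_aux_I (y : W) (z : St × Finset W) : Prop := z.2 = {y} ∧ y ∈ z.1.V

lemma super_aux_closed (y : W) : Closed (inhT fun _ => false) (super_aux_I y) where
  arr x hx v _ := by
    refine ⟨hx.1, ?_⟩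
    simpa using hx.2
  bir x hx v hv hL := by
    refine ⟨?_, St.mem_bir hv hL hx.2⟩
    simp [inhT, hx.1]

lemma super_aux_wt (y : W) : Wt (inhT fun _ => false) (super_aux_I y) (fun _ => 1) where
  closed := super_aux_closed y
  nonneg _ _ := zero_le_one
  gen_le x _ := by rw [gen_const]; exact zero_le_one

/-- `xi i` of the vertex `y` -/
noncomputable def super_aux_e (i : ℕ) (y : W) (z : St × Finset W) : ℝ :=
  xi i (z.1.L y) (z.1.s y)

lemma super_aux_gen_e (i : ℕ) (y : W) {z : St × Finset W} (hz : super_aux_I y z) :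
    gen (inhT fun _ => false) (super_aux_e i y) z =
      ((z.1.L y : ℝ) + z.1.κ y) * (xi i (z.1.L y + 1) (z.1.s y) - xi i (z.1.L y) (z.1.s y))
      + ((z.1.L y : ℝ) / ((z.1.L y : ℝ) + z.1.s y))
        * (xi i (z.1.L y - 1) (z.1.s y + 1) - xi i (z.1.L y) (z.1.s y)) :=
  gen_single (inh := inhT fun _ => false) (xi i) hz.2

lemma super_aux_dom_e (i : ℕ) (y : W) : Dom (super_aux_I y) (fun _ => 1) (super_aux_e i y) :=
  ⟨1, zero_le_one, fun x _ => by
    rw [abs_le]
    have h1 := super_aux_xi_nonneg i (x.1.L y) (x.1.s y)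
    have h2 := super_aux_xi_le_one i (x.1.L y) (x.1.s y)
    unfold super_aux_e
    constructor <;> linarith⟩

lemma super_aux_dom_gen_e (i : ℕ) (y : W) :
    Dom (super_aux_I y) (fun _ => 1) (gen (inhT fun _ => false) (super_aux_e i y)) :=
  ⟨2 * i + 2, by positivity, fun x hx => by
    rw [super_aux_gen_e i y hx, mul_one]
    exact super_aux_gen_bdd i _ _ (x.1.two_le y hx.2) (x.1.κ_nonneg y) (St.κ_le_s hx.2)⟩

lemma super_aux_P_one (y : W) {t : ℝ} (ht : 0 ≤ t) {x : St × Finset W} (hx : super_aux_I y x) :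
    Real.exp (-t) * super_aux_e 1 y x ≤ P (inhT fun _ => false) t (super_aux_e 1 y) x := by
  have := exp_le_P (super_aux_wt y) (super_aux_dom_e 1 y) (lam := -1) le_rfl
    (fun z hz => by
      rw [super_aux_gen_e 1 y hz]
      exact super_aux_gen_lower_one _ _ (z.1.κ_nonneg y)) ht hx
  rwa [neg_one_mul] at this

lemma super_aux_chain (i : ℕ) : ∃ c : ℝ, 0 < c ∧ ∀ (y : W) (t : ℝ), 0 ≤ t → t ≤ 1 →
    ∀ x, super_aux_I y x →
    c * t ^ i * super_aux_e 1 y x ≤ P (inhT fun _ => false) t (super_aux_e (i + 1) y) x := by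
  induction i with
  | zero =>
    refine ⟨Real.exp (-1), Real.exp_pos _, fun y t ht ht1 x hx => ?_⟩
    refine le_trans ?_ (super_aux_P_one y ht hx)
    rw [pow_zero, mul_one]
    exact mul_le_mul_of_nonneg_right (Real.exp_le_exp.2 (by linarith)) (super_aux_xi_nonneg _ _ _)
  | succ i ih =>
    obtain ⟨c, hc, h⟩ := ih
    refine ⟨Real.exp (-2) * c / (i + 1), by positivity, fun y t ht ht1 x hx => ?_⟩
    have key := P_chain (super_aux_wt y) (super_aux_dom_e (i + 1 + 1) y)
      (super_aux_dom_gen_e (i + 1 + 1) y) (super_aux_dom_e (i + 1) y) (lam := 2)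
      (fun z _ => super_aux_xi_nonneg _ _ _)
      (fun z hz => by
        rw [super_aux_gen_e (i + 1 + 1) y hz]
        exact super_aux_gen_lower (by omega) _ _ (z.1.κ_nonneg y)) ht hx
    refine le_trans ?_ key
    have e1 : Real.exp (-2) * c / (i + 1) * t ^ (i + 1) * super_aux_e 1 y x
        = ∫ b in (0 : ℝ)..t, Real.exp (-2) * c * super_aux_e 1 y x * b ^ i := by
      rw [intervalIntegral.integral_const_mul, integral_pow]
      rw [zero_pow (by omega), sub_zero]
      field_simp
    rw [e1]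
    apply intervalIntegral.integral_mono_on ht
    · exact (continuous_const.mul (continuous_pow i)).intervalIntegrable _ _
    · apply ContinuousOn.intervalIntegrable
      rw [Set.uIcc_of_le ht]
      apply ContinuousOn.mul
      · exact (by fun_prop : Continuous fun b : ℝ => Real.exp (-(2 * (t - b)))).continuousOn
      · exact (P_continuousOn (super_aux_wt y) (super_aux_dom_e (i + 1) y) hx).mono
          Set.Icc_subset_Ici_self
    · intro b hb
      have hb' := h y b hb.1 (hb.2.trans ht1) x hx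
      calc Real.exp (-2) * c * super_aux_e 1 y x * b ^ i
          = Real.exp (-2) * (c * b ^ i * super_aux_e 1 y x) := by ring
        _ ≤ Real.exp (-(2 * (t - b))) * (c * b ^ i * super_aux_e 1 y x) := by
            apply mul_le_mul_of_nonneg_right
            · apply Real.exp_le_exp.2
              nlinarith [hb.1, hb.2]
            · have := super_aux_xi_nonneg 1 (x.1.L y) (x.1.s y)
              have hb0 := hb.1
              unfold super_aux_e
              positivity
        _ ≤ _ := mul_le_mul_of_nonneg_left hb' (Real.exp_pos _).le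

lemma super_aux_int (i : ℕ) : ∃ c : ℝ, 0 < c ∧ ∀ (y : W), ∀ x, super_aux_I y x →
    c * super_aux_e 1 y x ≤
      ∫ b in (0 : ℝ)..1, P (inhT fun _ => false) b (super_aux_e (i + 1) y) x := by
  obtain ⟨c, hc, h⟩ := super_aux_chain i
  refine ⟨c / (i + 1), by positivity, fun y x hx => ?_⟩
  have e1 : c / (i + 1) * super_aux_e 1 y x
      = ∫ b in (0 : ℝ)..1, c * super_aux_e 1 y x * b ^ i := by
    rw [intervalIntegral.integral_const_mul, integral_pow]
    rw [zero_pow (by omega), sub_zero, one_pow]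
    field_simp
  rw [e1]
  apply intervalIntegral.integral_mono_on zero_le_one
  · exact (continuous_const.mul (continuous_pow i)).intervalIntegrable _ _
  · apply ContinuousOn.intervalIntegrable
    rw [Set.uIcc_of_le zero_le_one]
    exact (P_continuousOn (super_aux_wt y) (super_aux_dom_e (i + 1) y) hx).mono
      Set.Icc_subset_Ici_self
  · intro b hb
    have hb' := h y b hb.1 hb.2 x hx
    calc c * super_aux_e 1 y x * b ^ i = c * b ^ i * super_aux_e 1 y x := by ring
      _ ≤ _ := hb'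

/-! ### the lower bound -/

lemma super_aux_phit_nonneg {t : ℝ} (ht : 0 ≤ t) {x : St × Finset W} (hx : Sub x) :
    0 ≤ phit t x := by
  have h := P_mono (F := fun _ => (0 : ℝ)) (G := card) (wt_card (fun _ => true))
    ⟨0, le_rfl, fun y _ => by simp⟩
    ⟨1, zero_le_one, fun y _ => by
      have : 0 ≤ card y := Nat.cast_nonneg _
      rw [abs_of_nonneg this, one_mul]⟩ ht hx (fun y _ => Nat.cast_nonneg _)
  rw [P_const ht] at h
  exact h

lemma super_aux_cut (F : St × Finset W → ℝ) {y : W} {z : St × Finset W}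
    (hz : super_aux_I y z) :
    cut (fun _ => false) F z = ((z.1.L y : ℝ) / z.1.d y) * F (z.1.bir y, {z.1.new y}) := by
  unfold cut
  rw [hz.1, sum_singleton]
  simp

lemma super_aux_new_sub {S : St} {y : W} (hy : y ∈ S.V) (hL : 0 < S.L y) :
    Sub (S.bir y, {S.new y}) := by
  unfold Sub
  rw [singleton_subset_iff]
  exact St.new_mem_bir hy hL

lemma super_aux_ratio_nonneg (S : St) (y : W) : 0 ≤ (S.L y : ℝ) / S.d y := rate_bir_nonneg S y

lemma super_aux_ratio_le_one {S : St} {y : W} (hy : y ∈ S.V) : (S.L y : ℝ) / S.d y ≤ 1 := by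
  rw [div_le_one (St.d_pos hy)]
  unfold St.d
  have : (0 : ℝ) ≤ S.s y := Nat.cast_nonneg _
  linarith

theorem phit_lower : ∃ c : ℝ, 0 < c ∧ ∀ t : ℝ, 0 ≤ t → ∀ (S : St) (y : W), y ∈ S.V →
    c * ((S.L y : ℝ) / S.d y) * mt t ≤ phit (t + 1) (S, {y}) := by
  obtain ⟨C, hC, hnew⟩ := phit_new
  obtain ⟨C', hC', hle⟩ := phit_le
  obtain ⟨N, hN⟩ := exists_nat_ge (2 * C)
  obtain ⟨c, hc, hint⟩ := super_aux_int N
  refine ⟨c / 2, by positivity, fun t ht S y hy => ?_⟩
  have hx : super_aux_I y (S, {y}) := ⟨rfl, hy⟩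
  have hS : Sub (S, {y}) := by unfold Sub; simpa using hy
  have hadd : Addit card := by
    intro S A B _ _ hd
    simp only [card]
    rw [card_union_of_disjoint hd]; push_cast; ring
  have hdc : Dom Sub card card := ⟨1, zero_le_one, fun y _ => by
    have : 0 ≤ card y := Nat.cast_nonneg _
    rw [abs_of_nonneg this, one_mul]⟩
  have hT : (0 : ℝ) ≤ t + 1 := by linarith
  obtain ⟨hII, hduh⟩ := duhamel (fun _ => false) hadd hdc hT hS
  have hmt : 0 ≤ mt t := zero_le_one.trans (one_le_mt ht)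
  -- domination of the integrand
  have hcutdom : ∀ b, b ≤ t + 1 → Dom (super_aux_I y) (fun _ => 1)
      (cut (fun _ => false) (P inhA (t + 1 - b) card)) := by
    intro b hb
    have hb' : 0 ≤ t + 1 - b := by linarith
    refine ⟨C' * mt (t + 1 - b), mul_nonneg hC'.le (zero_le_one.trans (one_le_mt hb')), ?_⟩
    intro z hz
    rw [super_aux_cut _ hz, abs_mul, abs_of_nonneg (super_aux_ratio_nonneg _ _), mul_one]
    rcases Nat.eq_zero_or_pos (z.1.L y) with h0 | h0
    · rw [h0]
      simp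
      exact mul_nonneg hC'.le (zero_le_one.trans (one_le_mt hb'))
    · have h1 : 0 ≤ P inhA (t + 1 - b) card (z.1.bir y, {z.1.new y}) :=
        super_aux_phit_nonneg hb' (super_aux_new_sub hz.2 h0)
      have h2 := hle _ hb' _ (super_aux_new_sub hz.2 h0)
      have h3 : card (z.1.bir y, {z.1.new y}) = 1 := by simp [card]
      rw [h3, mul_one] at h2
      have h4 : |P inhA (t + 1 - b) card (z.1.bir y, {z.1.new y})| ≤ C' * mt (t + 1 - b) := by
        rw [abs_of_nonneg h1]; exact h2
      calc (z.1.L y : ℝ) / z.1.d y * |P inhA (t + 1 - b) card (z.1.bir y, {z.1.new y})|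
          ≤ 1 * (C' * mt (t + 1 - b)) :=
            mul_le_mul (super_aux_ratio_le_one hz.2) h4 (abs_nonneg _) zero_le_one
        _ = _ := one_mul _
  have hcut0 : ∀ b, b ≤ t + 1 → ∀ z, super_aux_I y z →
      0 ≤ cut (fun _ => false) (P inhA (t + 1 - b) card) z := by
    intro b hb z hz
    have hb' : 0 ≤ t + 1 - b := by linarith
    rw [super_aux_cut _ hz]
    rcases Nat.eq_zero_or_pos (z.1.L y) with h0 | h0
    · rw [h0]; simp
    · exact mul_nonneg (super_aux_ratio_nonneg _ _)
        (super_aux_phit_nonneg hb' (super_aux_new_sub hz.2 h0))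
  -- first term
  have hfirst : 0 ≤ P (inhT fun _ => false) (t + 1) card (S, {y}) := by
    have h := P_mono (F := fun _ => (0 : ℝ)) (G := card) (wt_card (fun _ => false))
      ⟨0, le_rfl, fun y _ => by simp⟩ hdc hT hS (fun y _ => Nat.cast_nonneg _)
    rw [P_const hT] at h
    exact h
  -- second part of the integral
  have hsecond : 0 ≤ ∫ b in (1 : ℝ)..(t + 1), P (inhT fun _ => false) b
      (cut (fun _ => false) (P inhA (t + 1 - b) card)) (S, {y}) := by
    apply intervalIntegral.integral_nonneg (by linarith)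
    intro b hb
    have hb0 : (0 : ℝ) ≤ b := zero_le_one.trans hb.1
    have h := P_mono (F := fun _ => (0 : ℝ)) (super_aux_wt y)
      ⟨0, le_rfl, fun y _ => by simp⟩ (hcutdom b hb.2) hb0 hx (hcut0 b hb.2)
    rw [P_const hb0] at h
    exact h
  -- integral over `[0, 1]`
  have hII1 : IntervalIntegrable (fun b => P (inhT fun _ => false) b
      (cut (fun _ => false) (P inhA (t + 1 - b) card)) (S, {y})) volume 0 1 :=
    hII.mono_set (by
      rw [Set.uIcc_of_le zero_le_one, Set.uIcc_of_le hT]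
      exact Set.Icc_subset_Icc_right (by linarith))
  have hII2 : IntervalIntegrable (fun b => P (inhT fun _ => false) b
      (cut (fun _ => false) (P inhA (t + 1 - b) card)) (S, {y})) volume 1 (t + 1) :=
    hII.mono_set (by
      rw [Set.uIcc_of_le (by linarith : (1 : ℝ) ≤ t + 1), Set.uIcc_of_le hT]
      exact Set.Icc_subset_Icc_left zero_le_one)
  have hmain : 1 / 2 * mt t * ∫ b in (0 : ℝ)..1, P (inhT fun _ => false) b
        (super_aux_e (N + 1) y) (S, {y})
      ≤ ∫ b in (0 : ℝ)..1, P (inhT fun _ => false) b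
        (cut (fun _ => false) (P inhA (t + 1 - b) card)) (S, {y}) := by
    rw [← intervalIntegral.integral_const_mul]
    apply intervalIntegral.integral_mono_on zero_le_one _ hII1
    · intro b hb
      have hbt : b ≤ t + 1 := by linarith [hb.2]
      have hb' : 0 ≤ t + 1 - b := by linarith
      rw [← P_smul]
      apply P_mono (super_aux_wt y) _ (hcutdom b hbt) hb.1 hx
      · intro z hz
        rcases Nat.lt_or_ge (z.1.L y) (N + 1) with h0 | h0
        · have : super_aux_e (N + 1) y z = 0 := super_aux_xi_of_lt h0 _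
          rw [this, mul_zero]
          exact hcut0 b hbt z hz
        · have hLpos : 0 < z.1.L y := by omega
          have e : super_aux_e (N + 1) y z = (z.1.L y : ℝ) / z.1.d y := super_aux_xi_of_le h0 _
          rw [e, super_aux_cut _ hz, mul_comm]
          apply mul_le_mul_of_nonneg_left _ (super_aux_ratio_nonneg _ _)
          have h1 := (abs_le.1 (hnew (t + 1 - b) hb' z.1 y hz.2 hLpos)).1
          have h2 : mt t ≤ mt (t + 1 - b) := mt_mono ht (by linarith [hb.2])
          have h3 : C * mt (t + 1 - b) / z.1.L y ≤ 1 / 2 * mt (t + 1 - b) := by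
            have hL : (0 : ℝ) < z.1.L y := by exact_mod_cast hLpos
            rw [div_le_iff₀ hL]
            have h4 : (N : ℝ) + 1 ≤ z.1.L y := by exact_mod_cast h0
            have h5 : 0 ≤ mt (t + 1 - b) := zero_le_one.trans (one_le_mt hb')
            nlinarith
          have h6 : phit (t + 1 - b) (z.1.bir y, {z.1.new y})
              = P inhA (t + 1 - b) card (z.1.bir y, {z.1.new y}) := rfl
          rw [← h6]
          linarith
      · obtain ⟨k, hk, hk'⟩ := super_aux_dom_e (N + 1) y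
        refine ⟨1 / 2 * mt t * k, by positivity, fun z hz => ?_⟩
        rw [abs_mul, abs_of_nonneg (by positivity : 0 ≤ 1 / 2 * mt t), mul_assoc _ k]
        exact mul_le_mul_of_nonneg_left (hk' z hz) (by positivity)
    · apply IntervalIntegrable.const_mul
      apply ContinuousOn.intervalIntegrable
      rw [Set.uIcc_of_le zero_le_one]
      exact (P_continuousOn (super_aux_wt y) (super_aux_dom_e (N + 1) y) hx).mono
        Set.Icc_subset_Ici_self
  have hI := hint y (S, {y}) hx
  have he1 : super_aux_e 1 y (S, {y}) = (S.L y : ℝ) / S.d y := super_aux_xi_one _ _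
  rw [he1] at hI
  have hphi : phit (t + 1) (S, {y}) = P inhA (t + 1) card (S, {y}) := rfl
  rw [hphi, hduh, ← intervalIntegral.integral_add_adjacent_intervals hII1 hII2]
  have hfin : c / 2 * ((S.L y : ℝ) / S.d y) * mt t ≤ 1 / 2 * mt t * ∫ b in (0 : ℝ)..1,
      P (inhT fun _ => false) b (super_aux_e (N + 1) y) (S, {y}) := by
    calc c / 2 * ((S.L y : ℝ) / S.d y) * mt t
        = 1 / 2 * mt t * (c * ((S.L y : ℝ) / S.d y)) := by ring
      _ ≤ _ := mul_le_mul_of_nonneg_left hI (by positivity)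
  linarith

/-! ### supermultiplicativity -/

lemma super_aux_gen_XU (z : St × Unit) :
    gen inhU XU z = ∑ v ∈ z.1.V, (z.1.L v : ℝ) / z.1.d v := by
  unfold gen
  apply sum_congr rfl
  intro v hv
  have h1 : XU (z.1.arr v, z.2) - XU z = 0 := by simp [XU]
  rw [h1, mul_zero, zero_add]
  rcases Nat.eq_zero_or_pos (z.1.L v) with h0 | h0
  · rw [h0]; simp
  · have h2 : XU (z.1.bir v, inhU z.1 v z.2) - XU z = 1 := by
      simp only [XU]
      rw [St.bir_V hv h0, card_insert_of_notMem (z.1.new_not_mem hv)]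
      push_cast; ring
    rw [h2, mul_one]

lemma super_aux_gen_XU_nonneg (z : St × Unit) : 0 ≤ gen inhU XU z := by
  rw [super_aux_gen_XU]
  exact sum_nonneg fun v _ => super_aux_ratio_nonneg _ _

lemma super_aux_gen_XU_le (z : St × Unit) : gen inhU XU z ≤ XU z := by
  rw [super_aux_gen_XU]
  calc ∑ v ∈ z.1.V, (z.1.L v : ℝ) / z.1.d v ≤ ∑ v ∈ z.1.V, (1 : ℝ) :=
        sum_le_sum fun v hv => super_aux_ratio_le_one hv
    _ = XU z := by simp [XU]

lemma super_aux_dom_XU : Dom (fun _ => True) XU XU :=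
  ⟨1, zero_le_one, fun y _ => by
    have : 0 ≤ XU y := Nat.cast_nonneg _
    rw [abs_of_nonneg this, one_mul]⟩

lemma super_aux_dom_gen_XU : Dom (fun _ => True) XU (gen inhU XU) :=
  ⟨1, zero_le_one, fun y _ => by
    rw [abs_of_nonneg (super_aux_gen_XU_nonneg y), one_mul]
    exact super_aux_gen_XU_le y⟩

lemma super_aux_phit_V (t : ℝ) (S : St) : phit t (S, S.V) = P inhU t XU (S, ()) := by
  unfold phit P
  apply tsum_congr
  intro m
  congr 1
  exact phi_V m (S.n + 1) S

lemma super_aux_phit_sum {t : ℝ} (ht : 0 ≤ t) (S : St) (A : Finset W) (hA : A ⊆ S.V) :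
    phit t (S, A) = ∑ y ∈ A, phit t (S, {y}) := by
  have hadd : Addit card := by
    intro S A B _ _ hd
    simp only [card]
    rw [card_union_of_disjoint hd]; push_cast; ring
  have hdc : Dom Sub card card := ⟨1, zero_le_one, fun y _ => by
    have : 0 ≤ card y := Nat.cast_nonneg _
    rw [abs_of_nonneg this, one_mul]⟩
  have hP : Addit (phit t) := addit_P (fun _ => true) hadd hdc ht
  induction A using Finset.induction_on with
  | empty =>
    rw [sum_empty]
    have h := hP S ∅ ∅ (empty_subset _) (empty_subset _) (disjoint_empty_right _)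
    rw [union_empty] at h
    linarith
  | insert a A ha ih =>
    rw [sum_insert ha]
    have hA' : A ⊆ S.V := (subset_insert _ _).trans hA
    have haV : {a} ⊆ S.V := singleton_subset_iff.2 (hA (mem_insert_self _ _))
    rw [insert_eq, hP S {a} A haV hA' (disjoint_singleton_left.2 ha), ih hA']

lemma super_aux_XU_lower : ∃ c : ℝ, 0 < c ∧ ∀ t : ℝ, 0 ≤ t → ∀ z : St × Unit,
    c * mt t * gen inhU XU z ≤ P inhU (t + 1) XU z := by
  obtain ⟨c, hc, h⟩ := phit_lower
  refine ⟨c, hc, fun t ht z => ?_⟩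
  obtain ⟨S, u⟩ := z
  have e : P inhU (t + 1) XU (S, u) = ∑ y ∈ S.V, phit (t + 1) (S, {y}) := by
    rw [← super_aux_phit_sum (by linarith) S S.V (Subset.refl _), super_aux_phit_V]
  rw [e, super_aux_gen_XU, mul_sum]
  apply sum_le_sum
  intro y hy
  calc c * mt t * ((S.L y : ℝ) / S.d y) = c * ((S.L y : ℝ) / S.d y) * mt t := by ring
    _ ≤ _ := h t ht S y hy

theorem mt_super : ∃ c : ℝ, 0 < c ∧ ∀ s t : ℝ, 0 ≤ s → 0 ≤ t → c * mt s * mt t ≤ mt (s + t) := by
  obtain ⟨c, hc, hlow⟩ := super_aux_XU_lower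
  obtain ⟨C, hC, hgr⟩ := mt_growth
  -- choice of `T0`
  obtain ⟨T0, hT0, hT0'⟩ : ∃ T0 : ℝ, 0 < T0 ∧ C * Real.exp (-((9 / 20) * T0)) ≤ 1 / 2 := by
    refine ⟨(20 / 9) * (2 * C), by positivity, ?_⟩
    have e : (9 / 20 : ℝ) * ((20 / 9) * (2 * C)) = 2 * C := by ring
    rw [e, Real.exp_neg]
    have h1 : 2 * C ≤ Real.exp (2 * C) := by linarith [Real.add_one_le_exp (2 * C)]
    rw [← div_eq_mul_inv, div_le_iff₀ (Real.exp_pos _)]
    linarith
  have hmT : 0 < mt T0 := lt_of_lt_of_le one_pos (one_le_mt hT0.le)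
  have he : 0 < Real.exp 1 := Real.exp_pos _
  refine ⟨min (c / (2 * T0 * Real.exp 1)) (1 / mt T0), by positivity, fun s t hs ht => ?_⟩
  have hms : 0 < mt s := lt_of_lt_of_le one_pos (one_le_mt hs)
  have hmt : 0 < mt t := lt_of_lt_of_le one_pos (one_le_mt ht)
  rcases le_or_gt T0 s with hsT | hsT
  · -- long times
    have hr : ∀ r : ℝ, 0 ≤ r → c * mt t * P inhU r (gen inhU XU) (seed, ()) ≤ mt (r + (t + 1)) := by
      intro r hr
      have e1 : mt (r + (t + 1)) = P inhU r (P inhU (t + 1) XU) (seed, ()) :=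
        P_semigroup wt_XU super_aux_dom_XU hr (by linarith) trivial
      rw [e1, ← P_smul]
      apply P_mono wt_XU _ (Dom_P wt_XU super_aux_dom_XU (by linarith)) hr trivial
      · intro z _
        exact hlow t ht z
      · obtain ⟨k, hk, hk'⟩ := super_aux_dom_gen_XU
        refine ⟨c * mt t * k, by positivity, fun z hz => ?_⟩
        rw [abs_mul, abs_of_nonneg (by positivity : 0 ≤ c * mt t), mul_assoc _ k]
        exact mul_le_mul_of_nonneg_left (hk' z hz) (by positivity)
    have hcont : ContinuousOn (fun r => P inhU r (gen inhU XU) (seed, ())) (Set.Ici 0) :=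
      P_continuousOn wt_XU super_aux_dom_gen_XU trivial
    have hII : ∀ a b : ℝ, 0 ≤ a → 0 ≤ b →
        IntervalIntegrable (fun r => P inhU r (gen inhU XU) (seed, ())) volume a b := by
      intro a b ha hb
      apply ContinuousOn.intervalIntegrable
      apply hcont.mono
      intro x hx
      exact le_trans (le_min ha hb) hx.1
    have hint : ∀ a : ℝ, 0 ≤ a → mt a - XU (seed, ())
        = ∫ b in (0 : ℝ)..a, P inhU b (gen inhU XU) (seed, ()) := fun a ha =>
      P_integral wt_XU super_aux_dom_XU wt_XU super_aux_dom_gen_XU ha trivial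
    have hs0 : 0 ≤ s - T0 := by linarith
    have h1 : ∫ b in (s - T0)..s, P inhU b (gen inhU XU) (seed, ()) = mt s - mt (s - T0) := by
      have := intervalIntegral.integral_add_adjacent_intervals
        (hII 0 (s - T0) le_rfl hs0) (hII (s - T0) s hs0 hs)
      rw [← hint s hs, ← hint (s - T0) hs0] at this
      linarith
    have h2 : c * mt t * ∫ b in (s - T0)..s, P inhU b (gen inhU XU) (seed, ())
        ≤ T0 * mt (s + (t + 1)) := by
      have e2 : T0 * mt (s + (t + 1)) = ∫ _ in (s - T0)..s, mt (s + (t + 1)) := by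
        rw [intervalIntegral.integral_const, smul_eq_mul]
        ring
      rw [e2, ← intervalIntegral.integral_const_mul]
      apply intervalIntegral.integral_mono_on (by linarith)
        ((hII (s - T0) s hs0 hs).const_mul _) intervalIntegrable_const
      intro r hr'
      have hr0 : 0 ≤ r := hs0.trans hr'.1
      exact (hr r hr0).trans (mt_mono (by linarith) (by linarith [hr'.2]))
    rw [h1] at h2
    have h3 : mt (s - T0) ≤ 1 / 2 * mt s := by
      have := hgr (s - T0) s hs0 (by linarith)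
      rw [show s - (s - T0) = T0 by ring] at this
      exact this.trans (mul_le_mul_of_nonneg_right hT0' hms.le)
    have h4 : mt (s + (t + 1)) ≤ Real.exp 1 * mt (s + t) := by
      have := mt_add_le (s := 1) (t := s + t) zero_le_one (by linarith)
      rwa [show 1 + (s + t) = s + (t + 1) by ring] at this
    have h5 : c * mt t * (1 / 2 * mt s) ≤ T0 * (Real.exp 1 * mt (s + t)) := by
      calc c * mt t * (1 / 2 * mt s) ≤ c * mt t * (mt s - mt (s - T0)) :=
            mul_le_mul_of_nonneg_left (by linarith) (by positivity)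
        _ ≤ T0 * mt (s + (t + 1)) := h2
        _ ≤ _ := mul_le_mul_of_nonneg_left h4 hT0.le
    calc min (c / (2 * T0 * Real.exp 1)) (1 / mt T0) * mt s * mt t
        ≤ c / (2 * T0 * Real.exp 1) * mt s * mt t := by
          have := min_le_left (c / (2 * T0 * Real.exp 1)) (1 / mt T0)
          gcongr
      _ = (c * mt t * (1 / 2 * mt s)) / (T0 * Real.exp 1) := by
          field_simp
      _ ≤ mt (s + t) := by
          rw [div_le_iff₀ (by positivity)]
          calc _ ≤ _ := h5
            _ = _ := by ring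
  · -- short times
    have h1 : mt s ≤ mt T0 := mt_mono hs hsT.le
    have h2 : mt t ≤ mt (s + t) := mt_mono ht (by linarith)
    calc min (c / (2 * T0 * Real.exp 1)) (1 / mt T0) * mt s * mt t
        ≤ 1 / mt T0 * mt s * mt t := by
          have := min_le_right (c / (2 * T0 * Real.exp 1)) (1 / mt T0)
          gcongr
      _ ≤ 1 / mt T0 * mt T0 * mt t := by gcongr
      _ = mt t := by rw [one_div, inv_mul_cancel₀ hmT.ne', one_mul]
      _ ≤ _ := h2

end FT
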