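import Pool.Agent.FT.Objs

/-! # The random friend tree -/

open MeasureTheory

namespace FT

/-- The tree `T_n` with vertex set `{1,…,n}` determined by the sequence `w` of attachment
vertices: the edge `{1,2}` and, for `2 ≤ k < n`, the edge `{k+1, w k}`. -/
def tree (w : ℕ → ℕ) (n : ℕ) : SimpleGraph ℕ :=
  SimpleGraph.fromRel fun a b => (a = 1 ∧ b = 2) ∨ ∃ k, 2 ≤ k ∧ k < n ∧ a = k + 1 ∧ b = w k

/-- degree of `v` in `T_n` -/
noncomputable def tdeg (w : ℕ → ℕ) (n v : ℕ) : ℕ := ((tree w n).neighborSet v).ncard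

/-- number of vertices of degree at least two of `T_n` -/
noncomputable def nonleaf (w : ℕ → ℕ) (n : ℕ) : ℕ :=
  {v | 1 ≤ v ∧ v ≤ n ∧ 2 ≤ tdeg w n v}.ncard

/-- `V_n, W_n` (`n ≥ 2`) are the choices of a random friend tree: given the past, `V_n` is
uniform on `{1,…,n}` and `W_n` is a uniform neighbour of `V_n` in `T_n`. -/
structure IsFriendTree {Ω : Type*} [MeasurableSpace Ω] (P : Measure Ω) (V W : ℕ → Ω → ℕ) :
    Prop where
  measV : ∀ n, Measurable (V n)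
  measW : ∀ n, Measurable (W n)
  law : ∀ n, 2 ≤ n → ∀ (a b : ℕ → ℕ) (v w : ℕ),
    P {ω | (∀ k, 2 ≤ k → k < n → V k ω = a k ∧ W k ω = b k) ∧ V n ω = v ∧ W n ω = w}
      = P {ω | ∀ k, 2 ≤ k → k < n → V k ω = a k ∧ W k ω = b k} *
        (open Classical in if 1 ≤ v ∧ v ≤ n ∧ (tree b n).Adj v w
          then ENNReal.ofReal (1 / (n * tdeg b n v)) else 0)

/-- the core state process, as seen from the outside: a chain adapted to `ℱ` whose one step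
transition at time `n` is `Aop inhU n` -/
structure IsChain {Ω : Type*} {m0 : MeasurableSpace Ω} (P : Measure Ω) (ℱ : Filtration ℕ m0)
    (S : ℕ → Ω → St) : Prop where
  meas : ∀ n, 3 ≤ n → ∀ Φ : St → ℝ, StronglyMeasurable[ℱ n] (fun ω => Φ (S n ω))
  bdd : ∀ n, 3 ≤ n → ∀ Φ : St → ℝ, ∃ c : ℝ, ∀ᵐ ω ∂P, |Φ (S n ω)| ≤ c
  zero : ∀ᵐ ω ∂P, S 3 ω = start
  full : ∀ n, 3 ≤ n → ∀ᵐ ω ∂P, Full (S n ω) ∧ (S n ω).n = n ∧ ∃ y ∈ (S n ω).V, (S n ω).s y ≤ 1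
  markov : ∀ n, 3 ≤ n → ∀ Φ : St → ℝ,
    P[fun ω => Φ (S (n + 1) ω) | ℱ n] =ᵐ[P] fun ω => Aop inhU n (fun x => Φ x.1) (S n ω, ())

end FT
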